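import Pool.Agent.Lib.TWM.A1
import Pool.Agent.Lib.D2.Ctx0
import Mathlib.LinearAlgebra.Dual.Lemmas

/-!
# TANK W, row (Ru.Z), the law of the lifts: linear algebra over the constants

* `sep`: coefficients of a linear combination of independent functions with values in a subspace;
* `gtS`: the `k`-space of the elements of value `> s`; `exists_unif`: uniform margin;
* `exists_del`: the residue of a finite combination of functions is a combination of them.
-/

set_option autoImplicit false

open Polynomial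

namespace Pool.Agent.TWRZ.Lw

open Pool.Agent.H15JM (RVal)
open Pool.Agent.D2 (Ctx0)
open Pool.Agent.TWM

universe u

section Lin

/-- Coefficients of a linear combination of linearly independent functions with values in a
subspace. -/
theorem sep {k : Type*} [Field k] {V : Type*} [AddCommGroup V] [Module k V] {β ι : Type*}
    [Fintype ι] {m : ι → β → k} (hm : LinearIndependent k m) {x : ι → V} (N : Submodule k V)
    (h : ∀ b, ∑ i, m i b • x i ∈ N) (i : ι) : x i ∈ N := by
  rw [← Submodule.Quotient.mk_eq_zero]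
  rw [← Module.forall_dual_apply_eq_zero_iff k]
  intro l
  have h1 : ∑ j, l (Submodule.Quotient.mk (x j)) • m j = 0 := by
    funext b
    have h2 : l (Submodule.Quotient.mk (∑ j, m j b • x j)) = 0 := by
      rw [(Submodule.Quotient.mk_eq_zero N).2 (h b), map_zero]
    rw [← Submodule.mkQ_apply, map_sum, map_sum] at h2
    rw [Finset.sum_apply]
    refine Eq.trans (Finset.sum_congr rfl fun j _ => ?_) h2
    rw [map_smul, map_smul, Submodule.mkQ_apply, Pi.smul_apply, smul_eq_mul, smul_eq_mul, mul_comm]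
  exact (Fintype.linearIndependent_iff.1 hm) _ h1 i

/-- A finite family of functions is a combination of independent functions. -/
theorem exists_basis {k : Type*} [Field k] {β ι : Type*} [Fintype ι] (m : ι → β → k) :
    ∃ (n : ℕ) (b : Fin n → β → k) (a : ι → Fin n → k), LinearIndependent k b ∧
      (∀ i, m i = ∑ j, a i j • b j) ∧ ∀ j, b j ∈ Submodule.span k (Set.range m) := by
  classical
  set W := Submodule.span k (Set.range m) with hW
  have : FiniteDimensional k W := FiniteDimensional.span_of_finite k (Set.finite_range m)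
  set B := Module.finBasis k W with hB
  refine ⟨_, fun j => (B j : β → k), fun i j => B.repr ⟨m i, Submodule.subset_span ⟨i, rfl⟩⟩ j,
    ?_, fun i => ?_, fun j => (B j).2⟩
  · exact B.linearIndependent.map' W.subtype (Submodule.ker_subtype W)
  · have h1 := congrArg (fun x : W => (x : β → k))
      (B.sum_repr ⟨m i, Submodule.subset_span ⟨i, rfl⟩⟩)
    simp only [Submodule.coe_sum, Submodule.coe_smul] at h1
    exact h1.symm

end Lin

variable {k Ω : Type u} [Field k] [Field Ω] [Algebra k Ω] {v : RVal Ω}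

/-- The constants have value `0`. -/
theorem ge_smul (hk : Ctx0 k v) {c : ℝ} {x : Ω} (a : k) (hx : v.Ge c x) : v.Ge c (a • x) := by
  rw [Algebra.smul_def]
  exact ((hk.ge a).mul hx).mono (by linarith)

theorem gt_smul (hk : Ctx0 k v) {c : ℝ} {x : Ω} (a : k) (hx : Gt v c x) : Gt v c (a • x) := by
  rw [Algebra.smul_def, mul_comm]
  exact (hx.mul_ge (hk.ge a)).mono (by linarith)

/-- The elements of value `> s`. -/
def gtS (hk : Ctx0 k v) (s : ℝ) : Submodule k Ω where
  carrier := {x | Gt v s x}
  add_mem' := fun hx hy => Gt.add hx hy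
  zero_mem' := Gt.zero
  smul_mem' := fun a _ hx => gt_smul hk a hx

theorem mem_gtS (hk : Ctx0 k v) {s : ℝ} {x : Ω} : x ∈ gtS hk s ↔ Gt v s x := Iff.rfl

/-- A margin. -/
theorem exists_margin {s : ℝ} {x : Ω} (h : Gt v s x) : ∃ η : ℝ, 0 < η ∧ v.Ge (s + η) x := by
  by_cases h0 : x = 0
  · exact ⟨1, one_pos, by rw [h0]; exact RVal.Ge.zero⟩
  · have h1 := h h0
    exact ⟨v x - s, by linarith, fun _ => by linarith⟩

/-- A common margin. -/
theorem exists_margin_fin {ι : Type*} [Fintype ι] {s : ℝ} {x : ι → Ω} (h : ∀ i, Gt v s (x i)) :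
    ∃ η : ℝ, 0 < η ∧ ∀ i, v.Ge (s + η) (x i) := by
  classical
  choose η hη h1 using fun i => exists_margin (h i)
  by_cases hι : (Finset.univ : Finset ι).Nonempty
  · obtain ⟨i₀, -, hi₀⟩ := Finset.exists_min_image Finset.univ η hι
    exact ⟨η i₀, hη i₀, fun i => (h1 i).mono (by linarith [hi₀ i (Finset.mem_univ i)])⟩
  · exact ⟨1, one_pos, fun i => absurd ⟨i, Finset.mem_univ i⟩ hι⟩

/-- **Uniform margin** of a finite combination of functions. -/
theorem exists_unif (hk : Ctx0 k v) {β ι : Type*} [Fintype ι] (m : ι → β → k) {x : ι → Ω} {s : ℝ}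
    (h : ∀ b, Gt v s (∑ i, m i b • x i)) :
    ∃ η : ℝ, 0 < η ∧ ∀ b, v.Ge (s + η) (∑ i, m i b • x i) := by
  obtain ⟨n, B, a, hB, hm, -⟩ := exists_basis m
  have hsum : ∀ b, ∑ i, m i b • x i = ∑ j, B j b • ∑ i, a i j • x i := by
    intro b
    have h1 : ∀ i, m i b • x i = ∑ j, B j b • (a i j • x i) := by
      intro i
      have h2 : m i b = ∑ j, a i j * B j b := by
        have h3 := congrFun (hm i) b
        rw [Finset.sum_apply] at h3
        exact h3
      rw [h2, Finset.sum_smul]
      exact Finset.sum_congr rfl fun j _ => by rw [smul_smul, mul_comm]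
    rw [Finset.sum_congr rfl fun i _ => h1 i, Finset.sum_comm]
    exact Finset.sum_congr rfl fun j _ => by rw [Finset.smul_sum]
  have hx : ∀ j, Gt v s (∑ i, a i j • x i) := fun j =>
    (mem_gtS hk).1 (sep hB (gtS hk s) (fun b => (mem_gtS hk).2 (by rw [← hsum]; exact h b)) j)
  obtain ⟨η, hη, h1⟩ := exists_margin_fin hx
  refine ⟨η, hη, fun b => ?_⟩
  rw [hsum]
  exact RVal.Ge.sum _ _ fun j _ => ge_smul hk _ (h1 j)

/-- **The cocycle is a combination of the given functions.** -/
theorem exists_del (hk : Ctx0 k v) {β ι : Type*} [Fintype ι] (m : ι → β → k) {x : ι → Ω} {s : ℝ}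
    {t : Ω} (ht0 : t ≠ 0) (hts : v t = s) {g : β → k}
    (h : ∀ b, Gt v s (∑ i, m i b • x i - g b • t)) :
    ∃ d : ι → k, ∀ b, g b = ∑ i, d i * m i b := by
  have htn : (Submodule.Quotient.mk t : Ω ⧸ gtS hk s) ≠ 0 := by
    rw [Ne, Submodule.Quotient.mk_eq_zero, mem_gtS]
    intro h1
    exact absurd (h1 ht0) (by rw [hts]; exact lt_irrefl _)
  obtain ⟨l, hl⟩ : ∃ l : Module.Dual k (Ω ⧸ gtS hk s), l (Submodule.Quotient.mk t) ≠ 0 := by
    by_contra hno
    push Not at hno
    exact htn ((Module.forall_dual_apply_eq_zero_iff k _).1 hno)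
  refine ⟨fun i => (l (Submodule.Quotient.mk t))⁻¹ * l (Submodule.Quotient.mk (x i)), fun b => ?_⟩
  have h1 : (Submodule.Quotient.mk (∑ i, m i b • x i - g b • t) : Ω ⧸ gtS hk s) = 0 :=
    (Submodule.Quotient.mk_eq_zero _).2 (h b)
  have h2 := congrArg l h1
  rw [← Submodule.mkQ_apply, map_sub, map_sub, map_sum, map_sum, map_zero, sub_eq_zero] at h2
  simp only [map_smul, Submodule.mkQ_apply, smul_eq_mul] at h2
  rw [eq_comm] at h2
  have h3 : g b = (∑ i, m i b * l (Submodule.Quotient.mk (x i))) *
      (l (Submodule.Quotient.mk t))⁻¹ := by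
    rw [← h2, mul_assoc, mul_inv_cancel₀ hl, mul_one]
  rw [h3, Finset.sum_mul]
  exact Finset.sum_congr rfl fun i _ => by ring

end Pool.Agent.TWRZ.Lw
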