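import Pool.Agent.Lib.TWRZ.Fam
import Pool.Agent.Lib.TWRZ.Law0

/-!
# TANK W, row (Ru.Z), (4): the law of the lifts, one floor higher

* `NrM.tl`: two isometric embeddings, near on `L` and at the generator `w` of transcendental type,
  are near on `cadj v L w`;
* `law_up`: a family of embeddings which is a group modulo uniformly strict embeddings on `L` is one
  on `cadj v L w`; the cocycle is polynomial;
* `law_up0`: the same when the radius of `w` is not a value of `L`.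
-/

set_option autoImplicit false

open Polynomial

namespace Pool.Agent.TWRZ

open Pool.Agent.H15JM (RVal)
open Pool.Agent.D2 (Ctx0)
open Pool.Agent.D2P (clI mem_clI)
open Pool.Agent.TWM
open Pool.Agent.TWS
open Pool.Agent.TWCT (StrM)

universe u

variable {k Ω : Type u} [Field k] [Field Ω] [Algebra k Ω] {v : RVal Ω} {X : Type*}

/-! ### Two embeddings -/

section NrM

variable {A A' : Ω →ₐ[k] Ω} {L : IntermediateField k Ω} {w c : Ω} {s d e e₁ : ℝ}

theorem NrM.mono {d' : ℝ} (h : NrM v A A' L d) (hd : d' ≤ d) : NrM v A A' L d' :=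
  fun f hf r hr => (h f hf r hr).mono (by linarith)

theorem NrM.symm (h : NrM v A A' L d) : NrM v A' A L d := fun f hf r hr => by
  rw [← neg_sub]
  exact (h f hf r hr).neg

theorem NrM.trans {A'' : Ω →ₐ[k] Ω} (h : NrM v A A' L d) (h' : NrM v A' A'' L d) :
    NrM v A A'' L d := fun f hf r hr => by
  have h1 := (h f hf r hr).add (h' f hf r hr)
  rwa [sub_add_sub_cancel] at h1

theorem nrM_id : NrM v A (AlgHom.id k Ω) L d ↔ StrM v A L d := Iff.rfl

/-- **Two isometric embeddings, near on `L` and at `w`, are near on `cadj v L w`.** -/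
theorem NrM.tl [IsAlgClosed Ω] (hz : TL v L w s) (hA : IsoE v v A) (hA' : IsoE v v A')
    (h : NrM v A A' L d) (he : 0 ≤ e) (he₁ : 0 ≤ e₁) (hed : e + e₁ ≤ d) (hc : c ∈ L)
    (hcw : v.Ge (s - e₁) (w - c)) (hω : v.Ge (s + e) (A w - A' w - (A c - A' c))) :
    NrM v A A' (cadj v L w) e := by
  have hLM : L ≤ cadj v L w := le_cadj v L w
  -- polynomials
  have key : ∀ f ∈ PI L, ∀ r : ℝ, v.Ge r (f.eval w) → v.Ge (r + e) (A (f.eval w) - A' (f.eval w)) := by
    intro f hf r hr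
    by_cases hf0 : f = 0
    · rw [hf0, eval_zero, map_zero, map_zero, sub_zero]
      exact RVal.Ge.zero
    set m : ℕ := f.natDegree with hm
    have hfz : f.eval w ≠ 0 := hz.eval_ne (PI_mono (le_algc L) hf) hf0
    have hjet : ∀ l : ℕ, v.Ge (r - l * s) ((taylor w f).coeff l) := fun l =>
      (hz.weak (PI_mono (le_algc L) hf) hf0 l).mono (by linarith [hr hfz])
    have key2 : ∀ δ : ℝ, 0 < δ → v.Ge (r + e - 3 * (m + 1) * δ) (A (f.eval w) - A' (f.eval w)) := by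
      intro δ hδ
      obtain ⟨c', hc', hcz'⟩ := hz.lim δ hδ
      have hb : ∀ l : ℕ, v.Ge (r - l * s - m * δ) ((taylor c' f).coeff l) :=
        TWC.jets_near hδ.le hjet hcz'
      have hbL : ∀ l : ℕ, (taylor c' f).coeff l ∈ L := taylor_mem_PI hf hc'
      have e1 : f.eval w = ∑ l ∈ Finset.range (m + 1), (taylor c' f).coeff l * (w - c') ^ l := by
        rw [eval_eq_taylor f c' w, eval_eq_sum_range, natDegree_taylor]
      have e2 : ∀ B : Ω →ₐ[k] Ω, B (f.eval w) =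
          ∑ l ∈ Finset.range (m + 1), B ((taylor c' f).coeff l) * (B w - B c') ^ l := by
        intro B
        rw [e1, map_sum]
        refine Finset.sum_congr rfl fun l _ => ?_
        rw [map_mul, map_pow, map_sub]
      have hAz : v.Ge (s - δ) (A w - A c') := by
        rw [← map_sub]
        exact hA.ge_iff.2 hcz'
      have hA'z : v.Ge (s - δ) (A' w - A' c') := by
        rw [← map_sub]
        exact hA'.ge_iff.2 hcz'
      -- the difference at `w - c'`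
      have hκ : v.Ge (s - δ + e) (A w - A c' - (A' w - A' c')) := by
        have h1 : v.Ge (s - max e₁ δ) (c' - c) := by
          rw [show c' - c = (w - c) - (w - c') by ring]
          exact (hcw.mono (by linarith [le_max_left e₁ δ])).sub
            (hcz'.mono (by linarith [le_max_right e₁ δ]))
        have h2 := h (c' - c) (sub_mem hc' hc) _ h1
        rw [map_sub, map_sub] at h2
        rw [show A w - A c' - (A' w - A' c') =
          (A w - A' w - (A c - A' c)) - (A c' - A c - (A' c' - A' c)) by ring]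
        refine (hω.mono (by linarith)).sub (h2.mono ?_)
        rcases max_choice e₁ δ with h4 | h4 <;> rw [h4] <;> linarith
      rw [e2 A, e2 A', ← Finset.sum_sub_distrib]
      refine RVal.Ge.sum _ _ fun l hl => ?_
      have hlm : (l : ℝ) ≤ m := by
        have := Finset.mem_range.1 hl
        exact_mod_cast (by omega : l ≤ m)
      have hl0 : (0 : ℝ) ≤ l := Nat.cast_nonneg l
      have hm0 : (0 : ℝ) ≤ m := Nat.cast_nonneg m
      have e3 : A ((taylor c' f).coeff l) * (A w - A c') ^ l -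
          A' ((taylor c' f).coeff l) * (A' w - A' c') ^ l =
          (A ((taylor c' f).coeff l) - A' ((taylor c' f).coeff l)) * (A w - A c') ^ l +
          A' ((taylor c' f).coeff l) * ((A w - A c') ^ l - (A' w - A' c') ^ l) := by ring
      rw [e3]
      refine RVal.Ge.add ?_ ?_
      · have h1 := (h _ (hbL l) _ (hb l)).mul (ge_pow hAz l)
        refine h1.mono ?_
        nlinarith
      · have h1 := (hA'.ge_iff.2 (hb l)).mul (TWCT.ge_pow_sub hAz hA'z hκ l)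
        refine h1.mono ?_
        nlinarith
    -- the limit
    intro hne
    refine le_of_forall_pos_sub_le fun ε hε => ?_
    have hm0 : (0 : ℝ) < 3 * (m + 1) := by positivity
    have h1 := key2 (ε / (3 * (m + 1))) (by positivity) hne
    rw [mul_div_cancel₀ _ hm0.ne'] at h1
    linarith
  -- the closure
  intro f hf r hr
  obtain ⟨P, hP, h1⟩ := hz.dense hf (r + e)
  have h2 : v.Ge r (P.eval w) := by
    have h3 := hr.sub (h1.mono (by linarith : r ≤ r + e))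
    rwa [sub_sub_cancel] at h3
  have h3 := key P hP r h2
  have h4 := hA.ge_iff.2 h1
  have h5 := hA'.ge_iff.2 h1
  rw [map_sub] at h4 h5
  have h6 := (h4.sub h5).add h3
  rwa [show A f - A (P.eval w) - (A' f - A' (P.eval w)) + (A (P.eval w) - A' (P.eval w)) =
    A f - A' f by ring] at h6

end NrM

/-! ### Functions -/

section Pl

variable {L : IntermediateField k Ω} {R : Subalgebra k (X → k)} {g g' : X → Ω}

theorem P0.of_fintype {ι : Type} [Fintype ι] (φ : ι → X → k) (c : ι → Ω) (hφ : ∀ i, φ i ∈ R)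
    (hc : ∀ i, c i ∈ L) : P0 L R fun x => ∑ i, algebraMap k Ω (φ i x) * c i :=
  ⟨ι, inferInstance, φ, c, hφ, hc, fun _ => rfl⟩

/-- Pullback of functions. -/
def pull {Y : Type*} (f : Y → X) : (X → k) →ₐ[k] (Y → k) where
  toFun g := g ∘ f
  map_one' := rfl
  map_mul' _ _ := rfl
  map_zero' := rfl
  map_add' _ _ := rfl
  commutes' _ := rfl

theorem Pl.pull {Y : Type*} {f : Y → X} {R' : Subalgebra k (Y → k)} (hf : ∀ φ ∈ R, φ ∘ f ∈ R')
    (h : Pl v L R g) : Pl v L R' fun y => g (f y) := fun B => by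
  obtain ⟨g₀, ⟨ι, hι, φ, c, h1, h2, h3⟩, h4⟩ := h B
  exact ⟨fun y => g₀ (f y), ⟨ι, hι, fun i => φ i ∘ f, c, fun i => hf _ (h1 i), h2, fun y => h3 (f y)⟩,
    fun y => h4 (f y)⟩

/-- The algebra of functions on `X × X` generated by those of the two factors. -/
def RR (R : Subalgebra k (X → k)) : Subalgebra k (X × X → k) :=
  R.map (pull Prod.fst) ⊔ R.map (pull Prod.snd)

theorem fst_mem {φ : X → k} (h : φ ∈ R) : (φ ∘ Prod.fst : X × X → k) ∈ RR R :=
  Algebra.mem_sup_left (Subalgebra.mem_map.2 ⟨φ, h, rfl⟩)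

theorem snd_mem {φ : X → k} (h : φ ∈ R) : (φ ∘ Prod.snd : X × X → k) ∈ RR R :=
  Algebra.mem_sup_right (Subalgebra.mem_map.2 ⟨φ, h, rfl⟩)

/-- `T x (g x')` is a polynomial function of two variables. -/
theorem Pl.twist (hk : Ctx0 k v) {T : X → (Ω →ₐ[k] Ω)} (hF : Fam v L R T) (h : Pl v L R g) :
    Pl v L (RR R) fun y : X × X => T y.1 (g y.2) := by
  intro B
  obtain ⟨g₀, ⟨ι, hι, φ, c, h1, h2, h3⟩, h4⟩ := h B
  choose g₁ hg₁ hg₁' using fun i => hF.pol (c i) (h2 i) B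
  choose n' hn' φ' c' h1' h2' h3' using hg₁
  refine ⟨_, P0.of_fintype (L := L) (R := RR R) (ι := Σ i : ι, n' i)
    (fun j y => φ j.1 y.2 * φ' j.1 j.2 y.1) (fun j => c' j.1 j.2)
    (fun j => mul_mem (snd_mem (h1 j.1)) (fst_mem (h1' j.1 j.2))) (fun j => h2' j.1 j.2),
    fun y => ?_⟩
  have e1 : ∑ j : Σ i : ι, n' i, algebraMap k Ω (φ j.1 y.2 * φ' j.1 j.2 y.1) *
      c' j.1 j.2 = ∑ i, algebraMap k Ω (φ i y.2) * g₁ i y.1 := by
    rw [Fintype.sum_sigma]
    refine Finset.sum_congr rfl fun i _ => ?_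
    rw [h3', Finset.mul_sum]
    refine Finset.sum_congr rfl fun j _ => ?_
    rw [map_mul]; ring
  have e2 : T y.1 (g₀ y.2) = ∑ i, algebraMap k Ω (φ i y.2) * T y.1 (c i) := by
    rw [h3, map_sum]
    refine Finset.sum_congr rfl fun i _ => ?_
    rw [map_mul, AlgHom.commutes]
  have e3 : T y.1 (g y.2) - ∑ i, algebraMap k Ω (φ i y.2) * g₁ i y.1 =
      T y.1 (g y.2 - g₀ y.2) + ∑ i, algebraMap k Ω (φ i y.2) * (T y.1 (c i) - g₁ i y.1) := by
    rw [map_sub, e2]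
    simp only [mul_sub, Finset.sum_sub_distrib]
    ring
  rw [e1, e3]
  refine ((hF.iso y.1).ge_iff.2 (h4 y.2)).add (RVal.Ge.sum _ _ fun i _ => ?_)
  exact ((hk.ge _).mul (hg₁' i y.1)).mono (by linarith)

end Pl

/-! ### The law -/

section Law

open Lw

variable {L : IntermediateField k Ω} {R : Subalgebra k (X → k)} {T : X → (Ω →ₐ[k] Ω)}
  {m : X → X → X} {V : X → Ω} {w θ₀ : Ω} {s μ : ℝ}

/-- The defect of the law at `w`. -/
def Ed (T : X → (Ω →ₐ[k] Ω)) (m : X → X → X) (V : X → Ω) (θ₀ : Ω) (y : X × X) : Ω :=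
  V y.1 + T y.1 (V y.2) - V (m y.1 y.2) - (T y.1 (T y.2 θ₀) - T (m y.1 y.2) θ₀)

/-- The defect is a polynomial function. -/
theorem Ed_pl (hk : Ctx0 k v) (hF : Fam v L R T) (hm : ∀ φ ∈ R, (fun y : X × X => φ (m y.1 y.2)) ∈ RR R)
    (hV : Pl v L R V) (hθ₀ : θ₀ ∈ L) : Pl v L (RR R) (Ed T m V θ₀) := by
  have h1 : Pl v L (RR R) fun y : X × X => V y.1 := hV.pull fun φ hφ => fst_mem hφ
  have h2 : Pl v L (RR R) fun y : X × X => V (m y.1 y.2) :=
    hV.pull (f := fun y : X × X => m y.1 y.2) hm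
  have h3 : Pl v L (RR R) fun y : X × X => T (m y.1 y.2) θ₀ :=
    (hF.pol θ₀ hθ₀).pull (f := fun y : X × X => m y.1 y.2) hm
  exact ((h1.add (hV.twist hk hF)).sub h2).sub (((hF.pol θ₀ hθ₀).twist hk hF).sub h3)

/-- The defect has value `≥ s`. -/
theorem Ed_ge (hF : Fam v L R T) (hlim : Lim v L s w)
    (hlaw : ∀ x x', NrM v ((T x).comp (T x')) (T (m x x')) L μ) (hμ : 0 < μ)
    (hnear : ∀ ε : ℝ, 0 < ε → ∃ η : ℝ, 0 < η ∧ ∀ θ ∈ L, v.Ge (s - η) (w - θ) →
      ∀ x, v.Ge (s - ε) (T x θ - θ - V x))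
    (hθ₀ : θ₀ ∈ L) (hwθ₀ : v.Ge (s - μ / 2) (w - θ₀)) (y : X × X) : v.Ge s (Ed T m V θ₀ y) := by
  refine fun hne => le_of_forall_pos_sub_le fun ε hε => ?_
  refine (?_ : v.Ge (s - ε) (Ed T m V θ₀ y)) hne
  obtain ⟨η, hη, h1⟩ := hnear ε hε
  obtain ⟨θ, hθ, hwθ⟩ := hlim (min η (μ / 2)) (lt_min hη (by linarith))
  have k1 := h1 θ hθ (hwθ.mono (by linarith [min_le_left η (μ / 2)]))
  have hθθ₀ : v.Ge (s - μ / 2) (θ - θ₀) := by
    rw [show θ - θ₀ = (w - θ₀) - (w - θ) by ring]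
    exact hwθ₀.sub (hwθ.mono (by linarith [min_le_right η (μ / 2)]))
  have k2 := hlaw y.1 y.2 (θ - θ₀) (sub_mem hθ hθ₀) _ hθθ₀
  rw [AlgHom.comp_apply, map_sub, map_sub, map_sub] at k2
  have k3 : v.Ge (s - ε) (T y.1 (T y.2 θ - θ - V y.2)) := (hF.iso y.1).ge_iff.2 (k1 y.2)
  rw [map_sub, map_sub] at k3
  have e1 : Ed T m V θ₀ y = (T y.1 (T y.2 θ) - T y.1 (T y.2 θ₀) -
      (T (m y.1 y.2) θ - T (m y.1 y.2) θ₀)) - (T y.1 θ - θ - V y.1) -
      (T y.1 (T y.2 θ) - T y.1 θ - T y.1 (V y.2)) + (T (m y.1 y.2) θ - θ - V (m y.1 y.2)) := by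
    rw [Ed]; ring
  rw [e1]
  exact (((k2.mono (by linarith)).sub (k1 y.1)).sub k3).add (k1 (m y.1 y.2))

/-- The defect is `del` up to a uniform margin, `del` a polynomial function. -/
theorem exists_res (hk : Ctx0 k v) {Y : Type*} {S : Subalgebra k (Y → k)} {E : Y → Ω}
    (hE : Pl v L S E) (h0 : ∀ y, v.Ge 0 (E y)) :
    ∃ del ∈ S, (∀ y, E y = 0 → del y = 0) ∧
      ∃ η : ℝ, 0 < η ∧ ∀ y, v.Ge η (E y - algebraMap k Ω (del y)) := by
  classical
  -- the residues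
  have hres : ∀ y, ∃ c : k, Gt v 0 (E y - algebraMap k Ω c) := by
    intro y
    by_cases hy : Gt v 0 (E y)
    · exact ⟨0, by rw [map_zero, sub_zero]; exact hy⟩
    · rw [Gt] at hy
      push Not at hy
      obtain ⟨c, -, hc⟩ := hk.res (E y) hy.1 (le_antisymm hy.2 (h0 y hy.1))
      exact ⟨c, fun hne => hc hne⟩
  choose del hdel using hres
  obtain ⟨g₀, ⟨ι, hι, φ, c, h1, h2, h3⟩, h4⟩ := hE 1
  have h5 : ∀ y, Gt v 0 (∑ i, φ i y • c i - del y • (1 : Ω)) := by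
    intro y
    have e1 : ∑ i, φ i y • c i - del y • (1 : Ω) =
        (E y - algebraMap k Ω (del y)) - (E y - g₀ y) := by
      rw [h3]
      simp only [Algebra.smul_def, mul_one]
      ring
    rw [e1]
    exact (hdel y).sub (Gt.of_ge (h4 y) one_pos)
  obtain ⟨d, hd⟩ := exists_del hk φ (x := c) (t := (1 : Ω)) one_ne_zero v.map_one h5
  obtain ⟨η, hη, h6⟩ := exists_unif hk (fun i : Option ι => i.elim (fun y => -del y) φ)
    (x := fun i => i.elim 1 c) (s := 0) (fun y => by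
      rw [Fintype.sum_option]
      simp only [Option.elim_none, Option.elim_some, neg_smul]
      rw [neg_add_eq_sub]
      exact h5 y)
  refine ⟨del, ?_, fun y hy => ?_, min η 1, lt_min hη one_pos, fun y => ?_⟩
  · have e1 : del = ∑ i, d i • φ i := by
      funext y
      rw [hd y, Finset.sum_apply]
      rfl
    rw [e1]
    exact sum_mem fun i _ => S.smul_mem (h1 i) (d i)
  · by_contra hne
    have h7 := hdel y
    rw [hy, zero_sub] at h7
    have h8 : algebraMap k Ω (del y) ≠ 0 := (_root_.map_ne_zero _).2 hne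
    have h9 := h7 (neg_ne_zero.2 h8)
    rw [v.map_neg _ h8, hk.triv _ hne] at h9
    exact lt_irrefl _ h9
  · have h7 := h6 y
    rw [Fintype.sum_option] at h7
    simp only [Option.elim_none, Option.elim_some, neg_smul] at h7
    rw [neg_add_eq_sub, zero_add] at h7
    have e1 : E y - algebraMap k Ω (del y) =
        (∑ i, φ i y • c i - del y • (1 : Ω)) + (E y - g₀ y) := by
      rw [h3]
      simp only [Algebra.smul_def, mul_one]
      ring
    rw [e1]
    exact (h7.mono (min_le_left _ _)).add ((h4 y).mono (min_le_right _ _))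

variable [IsAlgClosed Ω]

/-- **The law one floor higher.** -/
theorem law_up (hk : Ctx0 k v) (hF : Fam v L R T) (hw : TL v L w 0)
    (hm : ∀ φ ∈ R, (fun y : X × X => φ (m y.1 y.2)) ∈ RR R)
    (hlaw : ∃ μ : ℝ, 0 < μ ∧ ∀ x x', NrM v ((T x).comp (T x')) (T (m x x')) L μ)
    (hV : Pl v L R V) (hVL : ∀ x, V x ∈ L)
    (hnear : ∀ ε : ℝ, 0 < ε → ∃ η : ℝ, 0 < η ∧ ∀ θ ∈ L, v.Ge (-η) (w - θ) →
      ∀ x, v.Ge (-ε) (T x θ - θ - V x)) :
    ∃ del : X × X → k, del ∈ RR R ∧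
      (∀ x₀ : X, (∀ f ∈ L, T x₀ f = f) → V x₀ = 0 →
        (∀ x, m x₀ x = x → del (x₀, x) = 0) ∧ ∀ x, m x x₀ = x → del (x, x₀) = 0) ∧
      ∀ T' : X × k → (Ω →ₐ[k] Ω), (∀ y, IsoE v v (T' y)) → (∀ y, ∀ f ∈ L, T' y f = T y.1 f) →
        (∀ y, T' y w = w + V y.1 + algebraMap k Ω y.2) →
        ∃ μ' : ℝ, 0 < μ' ∧ ∀ y y' : X × k, NrM v ((T' y).comp (T' y'))
          (T' (m y.1 y'.1, y.2 + y'.2 + del (y.1, y'.1))) (cadj v L w) μ' := by
  obtain ⟨μ, hμ, hlaw⟩ := hlaw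
  obtain ⟨θ₀, hθ₀, hwθ₀⟩ := hw.lim (μ / 2) (by linarith)
  obtain ⟨del, hdel, hd0, η, hη, h1⟩ := exists_res hk (Ed_pl hk hF hm hV hθ₀)
    (Ed_ge hF hw.lim hlaw hμ (by
      intro ε hε
      obtain ⟨η, hη, h2⟩ := hnear ε hε
      refine ⟨η, hη, fun θ hθ h3 x => ?_⟩
      rw [zero_sub] at h3 ⊢
      exact h2 θ hθ h3 x) hθ₀ hwθ₀)
  refine ⟨del, hdel, fun x₀ hx₀ hV₀ => ⟨fun x hx => hd0 _ ?_, fun x hx => hd0 _ ?_⟩,
    fun T' hiso hT' hT'w => ?_⟩
  · rw [Ed]
    simp only []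
    rw [hx, hV₀, hx₀ _ (hVL x), hx₀ _ (hF.mem x θ₀ hθ₀)]
    ring
  · rw [Ed]
    simp only []
    rw [hx, hV₀, map_zero, hx₀ _ hθ₀]
    ring
  · refine ⟨min (μ / 2) η, lt_min (by linarith) hη, fun y y' => ?_⟩
    have hcomp : IsoE v v ((T' y).comp (T' y')) := ⟨fun a ha => by
      rw [AlgHom.comp_apply, (hiso y).val _ (IsoE.ne_zero ha), (hiso y').val _ ha]⟩
    have hL : NrM v ((T' y).comp (T' y')) (T' (m y.1 y'.1, y.2 + y'.2 + del (y.1, y'.1))) L μ := by
      intro f hf r hr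
      rw [AlgHom.comp_apply, hT' y' f hf, hT' y _ (hF.mem _ f hf), hT' _ f hf]
      exact hlaw y.1 y'.1 f hf r hr
    refine NrM.tl hw hcomp (hiso _) hL (le_min (by linarith) hη.le) (by linarith : 0 ≤ μ / 2)
      (by linarith [min_le_left (μ / 2) η]) hθ₀ hwθ₀ ?_
    have e1 : ((T' y).comp (T' y')) w - T' (m y.1 y'.1, y.2 + y'.2 + del (y.1, y'.1)) w -
        (((T' y).comp (T' y')) θ₀ - T' (m y.1 y'.1, y.2 + y'.2 + del (y.1, y'.1)) θ₀) =
        Ed T m V θ₀ (y.1, y'.1) - algebraMap k Ω (del (y.1, y'.1)) := by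
      rw [AlgHom.comp_apply, AlgHom.comp_apply, hT'w y', hT'w, hT' y' θ₀ hθ₀,
        hT' y _ (hF.mem _ θ₀ hθ₀), hT' _ θ₀ hθ₀, map_add, map_add, hT'w y, AlgHom.commutes,
        hT' y _ (hVL y'.1), Ed]
      simp only [map_add]
      ring
    rw [e1, zero_add]
    exact (h1 (y.1, y'.1)).mono (min_le_right _ _)

/-- **The law one floor higher**, the radius of `w` is not a value of `L`. -/
theorem law_up0 (hk : Ctx0 k v) (hF : Fam v L R T) (hw : TL v L w s)
    (hs : ∀ f ∈ L, f ≠ 0 → v f ≠ s)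
    (hm : ∀ φ ∈ R, (fun y : X × X => φ (m y.1 y.2)) ∈ RR R)
    (hlaw : ∃ μ : ℝ, 0 < μ ∧ ∀ x x', NrM v ((T x).comp (T x')) (T (m x x')) L μ)
    (hV : Pl v L R V) (hVL : ∀ x, V x ∈ L)
    (hnear : ∀ ε : ℝ, 0 < ε → ∃ η : ℝ, 0 < η ∧ ∀ θ ∈ L, v.Ge (s - η) (w - θ) →
      ∀ x, v.Ge (s - ε) (T x θ - θ - V x))
    (T' : X → (Ω →ₐ[k] Ω)) (hiso : ∀ y, IsoE v v (T' y)) (hT' : ∀ y, ∀ f ∈ L, T' y f = T y f)
    (hT'w : ∀ y, T' y w = w + V y) :
    ∃ μ' : ℝ, 0 < μ' ∧ ∀ y y' : X, NrM v ((T' y).comp (T' y')) (T' (m y y')) (cadj v L w) μ' := by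
  obtain ⟨μ, hμ, hlaw⟩ := hlaw
  obtain ⟨θ₀, hθ₀, hwθ₀⟩ := hw.lim (μ / 2) (by linarith)
  have hge := Ed_ge hF hw.lim hlaw hμ hnear hθ₀ hwθ₀
  have hEL : ∀ y, Ed T m V θ₀ y ∈ L := fun y =>
    sub_mem (sub_mem (add_mem (hVL _) (hF.mem _ _ (hVL _))) (hVL _))
      (sub_mem (hF.mem _ _ (hF.mem _ _ hθ₀)) (hF.mem _ _ hθ₀))
  have hgt : ∀ y, Gt v s (Ed T m V θ₀ y) := fun y hne =>
    lt_of_le_of_ne (hge y hne) (hs _ (hEL y) hne).symm
  obtain ⟨g₀, ⟨ι, hι, φ, c, h1, h2, h3⟩, h4⟩ := Ed_pl hk hF hm hV hθ₀ (s + 1)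
  obtain ⟨η, hη, h6⟩ := exists_unif hk φ (x := c) (s := s) (fun y => by
    have e1 : ∑ i, φ i y • c i = Ed T m V θ₀ y - (Ed T m V θ₀ y - g₀ y) := by
      rw [h3, sub_sub_cancel]
      exact Finset.sum_congr rfl fun i _ => Algebra.smul_def _ _
    rw [e1]
    exact (hgt y).sub (Gt.of_ge (h4 y) (by linarith)))
  have h7 : ∀ y, v.Ge (s + min η 1) (Ed T m V θ₀ y) := by
    intro y
    have e1 : Ed T m V θ₀ y = ∑ i, φ i y • c i + (Ed T m V θ₀ y - g₀ y) := by
      have e2 : g₀ y = ∑ i, φ i y • c i := by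
        rw [h3]
        exact Finset.sum_congr rfl fun i _ => (Algebra.smul_def _ _).symm
      rw [← e2]; ring
    rw [e1]
    exact ((h6 y).mono (by linarith [min_le_left η 1])).add
      ((h4 y).mono (by linarith [min_le_right η 1]))
  refine ⟨min (μ / 2) (min η 1), lt_min (by linarith) (lt_min hη one_pos), fun y y' => ?_⟩
  have hcomp : IsoE v v ((T' y).comp (T' y')) := ⟨fun a ha => by
    rw [AlgHom.comp_apply, (hiso y).val _ (IsoE.ne_zero ha), (hiso y').val _ ha]⟩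
  have hL : NrM v ((T' y).comp (T' y')) (T' (m y y')) L μ := by
    intro f hf r hr
    rw [AlgHom.comp_apply, hT' y' f hf, hT' y _ (hF.mem _ f hf), hT' _ f hf]
    exact hlaw y y' f hf r hr
  refine NrM.tl hw hcomp (hiso _) hL (le_min (by linarith) (le_min hη.le zero_le_one))
    (by linarith : 0 ≤ μ / 2) (by linarith [min_le_left (μ / 2) (min η 1)]) hθ₀ hwθ₀ ?_
  have e1 : ((T' y).comp (T' y')) w - T' (m y y') w -
      (((T' y).comp (T' y')) θ₀ - T' (m y y') θ₀) = Ed T m V θ₀ (y, y') := by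
    rw [AlgHom.comp_apply, AlgHom.comp_apply, hT'w y', hT'w, hT' y' θ₀ hθ₀,
      hT' y _ (hF.mem _ θ₀ hθ₀), hT' _ θ₀ hθ₀, map_add, hT'w y, hT' y _ (hVL y'), Ed]
    ring
  rw [e1]
  exact (h7 (y, y')).mono (by linarith [min_le_right (μ / 2) (min η 1)])

end Law

end Pool.Agent.TWRZ
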