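import Pool.Agent.Lib.TWRZ.GF
import Pool.Agent.Lib.TWRZ.Law
import Pool.Agent.Lib.TWRL.Main

/-!
# TANK W, (Ru.Z): the step from one parameter

`step1`: a one parameter group of motions of `L`, `w` of radius `0` and of finite shape over `L`: the
closure of `L(w)` has a two parameter group of motions with dense strict points, or a one parameter
group along a polynomial curve.
`step0`: the radius of `w` is not a value of `L`.
-/

set_option autoImplicit false

open Polynomial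

namespace Pool.Agent.TWRZ

open Pool.Agent.H15JM (RVal)
open Pool.Agent.LU1 (VPos adj)
open Pool.Agent.D2 (Ctx0)
open Pool.Agent.D2P (hen clI mem_clI)
open Pool.Agent.TWM
open Pool.Agent.TWS
open Pool.Agent.TWCT (StrM map_cadj_le eq_on_cadj)
open TWRL (ev2 Bi G1 FAdd)

universe u

section Fun

variable {k : Type*} [Field k] {X : Type*}

theorem RR_le_PP (R : Subalgebra k (X → k)) : RR R ≤ PP R R := by
  refine sup_le ?_ ?_
  · rintro _ ⟨φ, hφ, rfl⟩
    exact fst_mem_PP hφ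
  · rintro _ ⟨φ, hφ, rfl⟩
    exact snd_mem_PP hφ

/-- The addition is polynomial. -/
theorem add_mem_RR {φ : k → k} (hφ : φ ∈ Pk k) : (fun y : k × k => φ (y.1 + y.2)) ∈ RR (Pk k) := by
  refine Pk_comp (f := fun y : k × k => y.1 + y.2) ?_ hφ
  exact add_mem (fst_mem (R := Pk k) id_mem_Pk) (snd_mem (R := Pk k) id_mem_Pk)

theorem bi_of_PP {δ : k → k → k} (h : (fun y : k × k => δ y.1 y.2) ∈ PP (Pk k) (Pk k)) : Bi δ := by
  obtain ⟨ι, hι, φ, ψ, h1, h2, h3⟩ := h
  choose F hF using h1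
  choose G hG using h2
  have h4 : ∀ x y, δ x y = ∑ i, (F i).eval x * (G i).eval y := by
    intro x y
    have h5 := h3 (x, y)
    simp only at h5
    rw [h5]
    exact Finset.sum_congr rfl fun i _ => by rw [hF, hG]
  refine ⟨fun y => ⟨∑ i, F i * C ((G i).eval y), fun x => ?_⟩,
    fun x => ⟨∑ i, C ((F i).eval x) * G i, fun y => ?_⟩,
    fun x y => ⟨∑ i, (F i).comp (C x * X) * (G i).comp (C y * X), fun t => ?_⟩⟩
  · rw [h4, eval_finsetSum]
    exact Finset.sum_congr rfl fun i _ => by rw [eval_mul, eval_C]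
  · rw [h4, eval_finsetSum]
    exact Finset.sum_congr rfl fun i _ => by rw [eval_mul, eval_C]
  · rw [h4, eval_finsetSum]
    refine Finset.sum_congr rfl fun i _ => ?_
    rw [eval_mul, eval_comp, eval_comp, eval_mul, eval_mul, eval_C, eval_C, eval_X]

theorem exists_ev2 {f : k × k → k} (h : f ∈ PP (Pk k) (Pk k)) :
    ∃ P : k[X][X], ∀ y : k × k, f y = ev2 y.1 y.2 P := by
  obtain ⟨ι, hι, φ, ψ, h1, h2, h3⟩ := h
  choose F hF using h1
  choose G hG using h2
  refine ⟨∑ i, C (F i) * (G i).map C, fun y => ?_⟩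
  rw [h3]
  unfold ev2
  rw [Polynomial.map_sum, eval_finsetSum]
  refine Finset.sum_congr rfl fun i _ => ?_
  rw [hF, hG, Polynomial.map_mul, map_C, eval_mul, eval_C, Polynomial.map_map]
  congr 1
  have e : (evalRingHom y.1).comp (C : k →+* k[X]) = RingHom.id k := by
    ext a
    simp
  rw [e, Polynomial.map_id]

end Fun

variable {k Ω : Type u} [Field k] [Field Ω] [Algebra k Ω] {v : RVal Ω} {X : Type*}
  {L : IntermediateField k Ω} {w : Ω} {ρ : ℝ}

/-- The composition of isometric embeddings. -/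
theorem isoE_comp {A A' : Ω →ₐ[k] Ω} (h : IsoE v v A) (h' : IsoE v v A') :
    IsoE v v (A.comp A') := ⟨fun a ha => by
  rw [AlgHom.comp_apply, h.val _ (IsoE.ne_zero ha), h'.val _ ha]⟩

theorem isoE_id : IsoE v v (AlgHom.id k Ω) := ⟨fun _ _ => rfl⟩

/-- Strict, near to a strict one. -/
theorem StrM.of_nrM {A A' : Ω →ₐ[k] Ω} {d e : ℝ} (h : StrM v A L d) (h' : NrM v A A' L e) :
    StrM v A' L (min d e) := fun f hf r hr => by
  have e1 : A' f - f = (A f - f) - (A f - A' f) := by ring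
  rw [e1]
  exact ((h f hf r hr).mono (by linarith [min_le_left d e])).sub
    ((h' f hf r hr).mono (by linarith [min_le_right d e]))

/-- **The strict points are closed under the law.** -/
theorem ss_mul {T : X → Ω →ₐ[k] Ω} {m : X → X → X} (hiso : ∀ x, IsoE v v (T x))
    (hlaw : ∃ μ : ℝ, 0 < μ ∧ ∀ x x', NrM v ((T x).comp (T x')) (T (m x x')) L μ) {x x' : X}
    (hx : x ∈ Ss v L T) (hx' : x' ∈ Ss v L T) : m x x' ∈ Ss v L T := by
  obtain ⟨μ, hμ, hlaw⟩ := hlaw
  obtain ⟨d, hd, h1⟩ := hx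
  obtain ⟨d', hd', h2⟩ := hx'
  exact ⟨min (min d d') μ, lt_min (lt_min hd hd') hμ, StrM.of_nrM
    ((h1.mono (min_le_left d d')).comp (hiso x) (h2.mono (min_le_right d d'))) (hlaw x x')⟩

/-- The strict points of a family which is the identity at `x₀`. -/
theorem ss_id {T : X → Ω →ₐ[k] Ω} {x₀ : X} (h : ∀ f ∈ L, T x₀ f = f) : x₀ ∈ Ss v L T :=
  ⟨1, one_pos, StrM.of_fix h⟩

variable {T : k → Ω →ₐ[k] Ω} {A : Submodule k Ω}

/-- **The step from one parameter**, radius `0`. -/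
theorem step1 [IsAlgClosed k] [IsAlgClosed Ω] {p : ℕ} [hp : Fact p.Prime] [CharP k p]
    (h0 : Ctx0 k v) (hsc : SphC v) (hval : ∀ ρ : ℝ, ∃ x : Ω, x ≠ 0 ∧ v x = ρ)
    (h : GF1 v L T) (hw : TL v L w 0) (hsh : FSh v L (Pk k) T w 0)
    (hA : ∀ f ∈ A, f ∈ L) (hd : ∀ f ∈ L, ∀ B : ℝ, ∃ g ∈ A, v.Ge B (f - g)) :
    ∃ (V : k → Ω) (T' : k × k → Ω →ₐ[k] Ω) (δ : k → k → k), PS A (Pk k) V ∧ V 0 = 0 ∧
      Att v L T w 0 V ∧ GP v (cadj v L w) T' δ ∧ (∀ y, ∀ f ∈ L, T' y f = T y.1 f) ∧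
      (∀ y, T' y w = w + V y.1 + algebraMap k Ω y.2) ∧
      (GF2 v (cadj v L w) T' δ ∨ ∃ R c : k[X], FAdd R ∧ R ≠ 0 ∧ c.eval 0 = 0 ∧
        (∀ t t', c.eval (t + t') = c.eval t + c.eval t' + δ (R.eval t) (R.eval t')) ∧
        (∃ B hh : k[X], FAdd B ∧ hh.eval 0 = 0 ∧ c = B + hh.comp R ∧
          ∀ s s', δ s s' = hh.eval (s + s') - hh.eval s - hh.eval s') ∧
        GF1 v (cadj v L w) fun t => T' (R.eval t, c.eval t)) := by
  classical
  obtain ⟨V, hV, hV0, hatt⟩ := Fam.attA h0 h.dense hw.lim hsh hd h.id0 h.fam.mem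
  have hVL : P0 L (Pk k) V := hV.p0 hA
  obtain ⟨T', hF', hT', hw'⟩ := h.fam.exists_lift (Q := PP (Pk k) (Pk k)) h0 hsc hval hw hVL hatt
    (fun y : k × k => y.1) (fun φ hφ => fst_mem_PP hφ) (κ := fun y => algebraMap k Ω y.2)
    (P0.fn (snd_mem_PP id_mem_Pk)) (fun y => h0.ge _)
  obtain ⟨del, hdel, hdel0, hlaw⟩ := law_up (m := fun x x' => x + x') h0 h.fam hw
    (fun φ hφ => add_mem_RR hφ) h.law hVL.pl hVL.mem (fun ε hε => by
      obtain ⟨η, hη, h1⟩ := hatt ε hε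
      refine ⟨η, hη, fun θ hθ h2 x => ?_⟩
      have h3 := h1 θ hθ (by rwa [zero_sub]) x
      rwa [zero_sub] at h3)
  obtain ⟨hd1, hd2⟩ := hdel0 0 h.id0 hV0
  have hlaw' := hlaw T' hF'.iso hT' hw'
  -- the unit
  have hid : ∀ f ∈ cadj v L w, T' (0, 0) f = f := by
    intro f hf
    have h1 := eq_on_cadj (hF'.iso (0, 0)) isoE_id (A := L) (z := w) (fun a ha => by
      rw [hT' _ a ha]
      exact h.id0 a ha) (by
      rw [hw']
      simp only
      rw [hV0, map_zero, add_zero, add_zero]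
      rfl) f hf
    exact h1
  have hcomp : ∀ a b c : k × k, (∀ f ∈ L, T a.1 (T b.1 f) = T c.1 f) →
      V c.1 + algebraMap k Ω c.2 = V a.1 + algebraMap k Ω a.2 + T a.1 (V b.1) +
        algebraMap k Ω b.2 → ∀ f ∈ cadj v L w, T' c f = T' a (T' b f) := by
    intro a b c h1 h2 f hf
    have h3 := eq_on_cadj (hF'.iso c) (isoE_comp (hF'.iso a) (hF'.iso b)) (A := L) (z := w)
      (fun f hf => by
        rw [AlgHom.comp_apply, hT' c f hf, hT' b f hf, hT' a _ (h.fam.mem _ f hf)]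
        exact (h1 f hf).symm) (by
      rw [AlgHom.comp_apply, hw' b, map_add, map_add, AlgHom.commutes, hw' a,
        hT' a _ (hVL.mem _), hw' c, add_assoc, h2]
      ring) f hf
    exact h3
  have hGP : GP v (cadj v L w) T' (fun x y => del (x, y)) :=
    { fam := hF'
      id0 := hid
      law := hlaw'
      bi := RR_le_PP _ hdel
      d0 := fun y => hd1 y (zero_add y)
      d0' := fun y => hd2 y (add_zero y)
      ax := fun s c => hcomp (s, 0) (0, c) (s, c) (fun f hf => by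
        simp only
        rw [h.id0 f hf]) (by
        simp only
        rw [hV0, map_zero, map_zero]
        ring)
      ax' := fun s c => hcomp (0, c) (s, 0) (s, c) (fun f hf => by
        simp only
        rw [h.id0 _ (h.fam.mem _ f hf)]) (by
        simp only
        rw [hV0, map_zero, h.id0 _ (hVL.mem _)]
        ring) }
  refine ⟨V, T', fun x y => del (x, y), hV, hV0, hatt, hGP, hT', hw', ?_⟩
  have hG : G1 (Ss v (cadj v L w) T') (fun x y => del (x, y)) :=
    { bi := bi_of_PP hGP.bi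
      d0 := hGP.d0
      z := ss_id hid
      mul := fun x hx y hy => ss_mul (m := fun x x' : k × k =>
        (x.1 + x'.1, x.2 + x'.2 + del (x.1, x'.1))) hF'.iso hlaw' hx hy
      inf := by
        refine h.inf.mono fun x hx => ?_
        obtain ⟨c, hc⟩ := exists_strict h0 hw hatt hF'.iso hT' hw' hx
        exact ⟨(x, c), hc, rfl⟩ }
  rcases hG.dich p with h1 | ⟨R, c, hR, hR0, hc0, -, hRc, hinf, -, hBh⟩
  · left
    refine { toGP := hGP, dense := fun x φ hφ h2 => ?_ }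
    obtain ⟨P, hP⟩ := exists_ev2 hφ
    rw [hP, h1 P fun y hy => by rw [← hP]; exact h2 y hy]
    unfold ev2
    simp
  · right
    refine ⟨R, c, hR, hR0, hc0, hRc, hBh, ?_⟩
    refine
      { fam := hF'.comp _ fun φ hφ => PP_comp (fun φ hφ => Pk_comp (eval_mem_Pk R) hφ)
          (fun φ hφ => Pk_comp (eval_mem_Pk c) hφ) hφ
        id0 := fun f hf => by
          rw [hR.eval_zero, hc0]
          exact hid f hf
        law := ?_
        inf := hinf }
    obtain ⟨μ, hμ, h2⟩ := hlaw'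
    refine ⟨μ, hμ, fun t t' => ?_⟩
    have h3 := h2 (R.eval t, c.eval t) (R.eval t', c.eval t')
    simp only at h3
    rw [← hRc, ← hR t t'] at h3
    exact h3

/-- **The step from one parameter**, the radius is not a value. -/
theorem step0 [IsAlgClosed Ω] (h0 : Ctx0 k v) (hsc : SphC v)
    (hval : ∀ ρ : ℝ, ∃ x : Ω, x ≠ 0 ∧ v x = ρ)
    (h : GF1 v L T) (hw : TL v L w ρ) (hirr : ∀ f ∈ L, f ≠ 0 → v f ≠ ρ)
    (hsh : FSh v L (Pk k) T w ρ) (hA : ∀ f ∈ A, f ∈ L)
    (hd : ∀ f ∈ L, ∀ B : ℝ, ∃ g ∈ A, v.Ge B (f - g)) :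
    ∃ (V : k → Ω) (T' : k → Ω →ₐ[k] Ω), PS A (Pk k) V ∧ V 0 = 0 ∧ Att v L T w ρ V ∧
      GF1 v (cadj v L w) T' ∧ (∀ t, ∀ f ∈ L, T' t f = T t f) ∧ ∀ t, T' t w = w + V t := by
  classical
  obtain ⟨V, hV, hV0, hatt⟩ := Fam.attA h0 h.dense hw.lim hsh hd h.id0 h.fam.mem
  have hVL : P0 L (Pk k) V := hV.p0 hA
  obtain ⟨T', hF', hT', hw'⟩ := h.fam.exists_lift (Q := Pk k) h0 hsc hval hw hVL hatt
    (fun y : k => y) (fun φ hφ => hφ) (κ := fun _ => 0) P0.zero (fun y => RVal.Ge.zero)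
  have hw'' : ∀ y, T' y w = w + V y := fun y => by rw [hw', add_zero]
  refine ⟨V, T', hV, hV0, hatt, ?_, hT', hw''⟩
  refine
    { fam := hF'
      id0 := fun f hf => ?_
      law := law_up0 (m := fun x x' => x + x') h0 h.fam hw hirr (fun φ hφ => add_mem_RR hφ) h.law
        hVL.pl hVL.mem hatt T' hF'.iso hT' hw''
      inf := h.inf.mono fun x hx => mem_ss_of_irr hw hirr hatt hVL.mem h.fam.mem hF'.iso hT' hw'' hx }
  have h1 := eq_on_cadj (hF'.iso 0) isoE_id (A := L) (z := w) (fun a ha => by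
    rw [hT' _ a ha]
    exact h.id0 a ha) (by
    rw [hw'', hV0, add_zero]
    rfl) f hf
  exact h1

end Pool.Agent.TWRZ
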