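import Pool.Agent.Lib.TWRZ.StepK
import Pool.Agent.Lib.TWRZ.Step1

/-!
# TANK W: exact motions of a floor with attained jets

`T s`, `s ∈ k`, motions of `L`, `T s x = x + s`, `V` polynomial with coefficients in `L`, the cocycle
`V s + T s (V s') - V (s + s')` is `δ s s'` up to a uniform gain, `|x|` small: after the change
`V ↦ V - (T s A - A)`, `A ∈ L`, one can replace `V` by `U s = LAM (s, -x - s)`, whose cocycle is exactly
`δ`.
* `cocy_k`: `δ` is a cocycle;
* `exists_exact`: the exact motions;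
* `exists_two`: the group of the motions `u ↦ u + U s + c`, exact law.
-/

set_option autoImplicit false

open Polynomial

namespace Pool.Agent.TWRZ

open Pool.Agent.H15JM (RVal)
open Pool.Agent.D2 (Ctx0)
open Pool.Agent.D2P (clI mem_clI)
open Pool.Agent.TWM
open Pool.Agent.TWS
open Pool.Agent.TWCT (StrM eq_on_cadj)

universe u

variable {k Ω : Type u} [Field k] [Field Ω] [Algebra k Ω] {v : RVal Ω}
  {L : IntermediateField k Ω} {T : k → Ω →ₐ[k] Ω} {V : k → Ω} {δ : k → k → k} {μ : ℝ}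

/-- A constant of positive value is `0`. -/
theorem const_zero (h0 : Ctx0 k v) {c : k} {μ : ℝ} (hμ : 0 < μ) (h : v.Ge μ (algebraMap k Ω c)) :
    c = 0 := by
  by_contra hc
  have h1 := h (by rwa [Ne, _root_.map_eq_zero])
  rw [h0.triv c hc] at h1
  linarith

/-- **`δ` is a cocycle.** -/
theorem cocy_k (h0 : Ctx0 k v) (hiso : ∀ s, IsoE v v (T s))
    (hlaw : ∀ s s', ∀ f ∈ L, T s (T s' f) = T (s + s') f) (hVL : ∀ s, V s ∈ L) (hμ : 0 < μ)
    (hco : ∀ s s' : k, v.Ge μ (V s + T s (V s') - V (s + s') - algebraMap k Ω (δ s s')))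
    (a b c : k) : δ a b + δ (a + b) c = δ b c + δ a (b + c) := by
  rw [← sub_eq_zero]
  refine const_zero h0 hμ ?_
  have h1 := hco a b
  have h2 := hco (a + b) c
  have h3 := (hiso a).ge_iff.2 (hco b c)
  have h4 := hco a (b + c)
  rw [map_sub, map_sub, map_add, AlgHom.commutes, hlaw a b _ (hVL c)] at h3
  have e : algebraMap k Ω (δ a b + δ (a + b) c - (δ b c + δ a (b + c))) =
      (T a (V b) + T (a + b) (V c) - T a (V (b + c)) - algebraMap k Ω (δ b c)) +
      (V a + T a (V (b + c)) - V (a + (b + c)) - algebraMap k Ω (δ a (b + c))) -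
      (V a + T a (V b) - V (a + b) - algebraMap k Ω (δ a b)) -
      (V (a + b) + T (a + b) (V c) - V (a + b + c) - algebraMap k Ω (δ (a + b) c)) := by
    rw [map_sub, map_add, map_add, add_assoc a b c]
    ring
  rw [e]
  exact ((h3.add h4).sub h1).sub h2

/-- The two variable function of `δ`, with the second argument in `Ω`. -/
noncomputable def Lm {ι : Type} [Fintype ι] (Ω : Type u) [Field Ω] [Algebra k Ω] (F G : ι → k[X]) (s : k) (y : Ω) :
    Ω := ∑ i, algebraMap k Ω ((F i).eval s) * ((G i).map (algebraMap k Ω)).eval y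

theorem Lm_k {ι : Type} [Fintype ι] (F G : ι → k[X]) (s t : k) :
    Lm Ω F G s (algebraMap k Ω t) = algebraMap k Ω (∑ i, (F i).eval s * (G i).eval t) := by
  unfold Lm
  rw [map_sum]
  exact Finset.sum_congr rfl fun i _ => by rw [eval_map, eval₂_at_apply, map_mul]

theorem exists_FG (h : (fun y : k × k => δ y.1 y.2) ∈ PP (Pk k) (Pk k)) :
    ∃ (ι : Type) (_ : Fintype ι) (F G : ι → k[X]), ∀ s t, δ s t = ∑ i, (F i).eval s * (G i).eval t := by
  obtain ⟨ι, hι, φ, ψ, h1, h2, h3⟩ := h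
  choose F hF using h1
  choose G hG using h2
  refine ⟨ι, hι, F, G, fun s t => ?_⟩
  have h4 := h3 (s, t)
  simp only at h4
  rw [h4]
  exact Finset.sum_congr rfl fun i _ => by rw [hF, hG]

/-- The cocycle relation, third argument in `Ω`. -/
theorem Lm_cocy [Infinite k] {ι : Type} [Fintype ι] {F G : ι → k[X]}
    (hFG : ∀ s t, δ s t = ∑ i, (F i).eval s * (G i).eval t)
    (h : ∀ a b c : k, δ a b + δ (a + b) c = δ b c + δ a (b + c)) (a b : k) (y : Ω) :
    algebraMap k Ω (δ a b) + Lm Ω F G (a + b) y =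
      Lm Ω F G b y + Lm Ω F G a (algebraMap k Ω b + y) := by
  have h1 : (C (δ a b) + ∑ i, C ((F i).eval (a + b)) * G i : k[X]) =
      ∑ i, C ((F i).eval b) * G i + ∑ i, C ((F i).eval a) * (G i).comp (C b + X) := by
    refine Polynomial.funext fun c => ?_
    rw [eval_add, eval_add, eval_C, eval_finsetSum, eval_finsetSum, eval_finsetSum]
    simp only [eval_mul, eval_C, eval_comp, eval_add, eval_X]
    rw [← hFG, ← hFG, ← hFG]
    exact h a b c
  have h2 := congrArg (fun P : k[X] => (P.map (algebraMap k Ω)).eval y) h1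
  simp only [Polynomial.map_add, Polynomial.map_sum, Polynomial.map_mul, map_C, Polynomial.map_comp,
    Polynomial.map_X, eval_add, eval_finsetSum, eval_mul, eval_C, eval_comp, eval_X] at h2
  exact h2

/-- **The exact motions.** -/
theorem exists_exact [Infinite k] (h0 : Ctx0 k v)
    (hV : P0 L (Pk k) V) (hμ : 0 < μ)
    (hco : ∀ s s' : k, v.Ge μ (V s + T s (V s') - V (s + s') - algebraMap k Ω (δ s s')))
    {ι : Type} [Fintype ι] {F G : ι → k[X]}
    (hFG : ∀ s t, δ s t = ∑ i, (F i).eval s * (G i).eval t) :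
    ∃ ε : ℝ, 0 < ε ∧ ∀ x ∈ L, v.Ge (-ε) x → (∀ s, T s x = x + algebraMap k Ω s) →
      ∃ A ∈ L, ∀ s : k, v.Ge (μ / 2) (V s - (T s A - A) - Lm Ω F G s (-x - algebraMap k Ω s)) := by
  classical
  obtain ⟨P, hP, hVP⟩ := hV.exists_poly
  -- a bound for the degrees
  obtain ⟨N, hN⟩ : ∃ N : ℕ, P.natDegree ≤ N ∧ ∀ i, (G i).natDegree ≤ N :=
    ⟨P.natDegree + ∑ i, (G i).natDegree, by omega, fun i => le_trans
      (Finset.single_le_sum (f := fun i => (G i).natDegree) (fun _ _ => Nat.zero_le _)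
        (Finset.mem_univ i)) (by omega)⟩
  refine ⟨μ / (2 * (N + 1)), by positivity, fun x hx hxv hTx => ?_⟩
  refine ⟨-P.eval (-x), neg_mem (TWM.eval_mem hP (neg_mem hx)), fun s => ?_⟩
  obtain ⟨Q, hQ⟩ : ∃ Q : Polynomial Ω, Q = C (V s) + P.map (T s : Ω →+* Ω) -
      P.comp (C (algebraMap k Ω s) + X) -
      ∑ i, C (algebraMap k Ω ((F i).eval s)) * (G i).map (algebraMap k Ω) := ⟨_, rfl⟩
  have hQe : ∀ y : Ω, Q.eval y = V s + (P.map (T s : Ω →+* Ω)).eval y -
      P.eval (algebraMap k Ω s + y) - Lm Ω F G s y := fun y => by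
    rw [hQ, eval_sub, eval_sub, eval_add, eval_C, eval_comp, eval_add, eval_C, eval_X,
      eval_finsetSum]
    unfold Lm
    congr 1
    exact Finset.sum_congr rfl fun i _ => by rw [eval_mul, eval_C]
  have hmap : ∀ y : Ω, (P.map (T s : Ω →+* Ω)).eval (T s y) = T s (P.eval y) := fun y => by
    rw [eval_map, show (T s y) = (T s : Ω →+* Ω) y from rfl, eval₂_at_apply]
    rfl
  have hQk : ∀ t : k, v.Ge μ (Q.eval (algebraMap k Ω t)) := fun t => by
    rw [hQe, Lm_k, ← hFG, ← map_add, ← hVP]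
    have e : (P.map (T s : Ω →+* Ω)).eval (algebraMap k Ω t) = T s (V t) := by
      rw [hVP, ← hmap, AlgHom.commutes]
    rw [e]
    exact hco s t
  have hQc := coeff_ge h0 hQk
  have hQN : Q.natDegree ≤ N := by
    rw [hQ]
    refine (natDegree_sub_le _ _).trans (max_le ((natDegree_sub_le _ _).trans (max_le
      ((natDegree_add_le _ _).trans (max_le (by rw [natDegree_C]; omega)
        (natDegree_map_le.trans hN.1))) ?_)) ?_)
    · refine natDegree_comp_le.trans ?_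
      have h1 : (C (algebraMap k Ω s) + X : Polynomial Ω).natDegree ≤ 1 :=
        (natDegree_add_le _ _).trans (max_le (by rw [natDegree_C]; omega) natDegree_X_le)
      nlinarith [hN.1]
    · refine natDegree_sum_le_of_forall_le _ _ fun i _ => ?_
      exact (natDegree_C_mul_le _ _).trans (natDegree_map_le.trans (hN.2 i))
  have hy : v.Ge (-(μ / (2 * (N + 1)))) (-x - algebraMap k Ω s) :=
    hxv.neg.sub ((h0.ge s).mono (by
      have : 0 < μ / (2 * ((N : ℝ) + 1)) := by positivity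
      linarith))
  have e1 : V s - (T s (-P.eval (-x)) - -P.eval (-x)) - Lm Ω F G s (-x - algebraMap k Ω s) =
      Q.eval (-x - algebraMap k Ω s) := by
    rw [hQe, map_neg, ← hmap, map_neg, hTx]
    have e2 : algebraMap k Ω s + (-x - algebraMap k Ω s) = -x := by ring
    have e3 : -(x + algebraMap k Ω s) = -x - algebraMap k Ω s := by ring
    rw [e2, e3]
    ring
  rw [e1, eval_eq_sum_range]
  refine RVal.Ge.sum _ _ fun i hi => ?_
  have hi' : (i : ℝ) ≤ N := by
    have := Finset.mem_range.1 hi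
    exact_mod_cast (by omega : i ≤ N)
  refine ((hQc i).mul (ge_pow hy i)).mono ?_
  have hN0 : (0 : ℝ) < N + 1 := by positivity
  have h2 : (i : ℝ) * (μ / (2 * (N + 1))) ≤ μ / 2 := by
    rw [show μ / (2 * ((N : ℝ) + 1)) = (μ / 2) / (N + 1) by rw [div_div]]
    rw [← mul_div_assoc, div_le_iff₀ hN0]
    nlinarith
  linarith

/-- **The exact cocycle.** -/
theorem Lm_exact [Infinite k] {ι : Type} [Fintype ι] {F G : ι → k[X]}
    (hFG : ∀ s t, δ s t = ∑ i, (F i).eval s * (G i).eval t)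
    (h : ∀ a b c : k, δ a b + δ (a + b) c = δ b c + δ a (b + c)) {x : Ω}
    (hTx : ∀ s, T s x = x + algebraMap k Ω s) (s s' : k) :
    Lm Ω F G s (-x - algebraMap k Ω s) + T s (Lm Ω F G s' (-x - algebraMap k Ω s')) -
      Lm Ω F G (s + s') (-x - algebraMap k Ω (s + s')) = algebraMap k Ω (δ s s') := by
  have h1 := Lm_cocy (Ω := Ω) hFG h s s' (-x - algebraMap k Ω (s + s'))
  have h2 : T s (Lm Ω F G s' (-x - algebraMap k Ω s')) =
      Lm Ω F G s' (-x - algebraMap k Ω (s + s')) := by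
    have e1 : T s (-x - algebraMap k Ω s') = -x - algebraMap k Ω (s + s') := by
      rw [map_sub, map_neg, hTx, AlgHom.commutes, map_add]
      ring
    unfold Lm
    rw [map_sum]
    refine Finset.sum_congr rfl fun i _ => ?_
    rw [map_mul, AlgHom.commutes, eval_map, eval_map, ← aeval_def, ← aeval_def, ← aeval_algHom_apply,
      e1]
  have e : algebraMap k Ω s' + (-x - algebraMap k Ω (s + s')) = -x - algebraMap k Ω s := by
    rw [map_add]
    ring
  rw [e] at h1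
  rw [h2]
  linear_combination -h1

theorem Lm_P0 {ι : Type} [Fintype ι] {F G : ι → k[X]} {x : Ω} (hx : x ∈ L) :
    P0 L (Pk k) fun s => Lm Ω F G s (-x - algebraMap k Ω s) := by
  unfold Lm
  refine P0.sum _ fun i _ => (P0.fn (eval_mem_Pk (F i))).mul ?_
  have h1 : ∀ n : ℕ, P0 L (Pk k) fun s : k => (-x - algebraMap k Ω s) ^ n := by
    intro n
    induction n with
    | zero =>
      refine (congrArg (P0 L (Pk k)) (funext fun s => ?_)).mp (P0.const (one_mem L))
      rw [pow_zero]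
    | succ n ih =>
      refine (congrArg (P0 L (Pk k)) (funext fun s => ?_)).mp
        (ih.mul ((P0.const (neg_mem hx)).sub (P0.fn id_mem_Pk)))
      rw [pow_succ]
  refine (congrArg (P0 L (Pk k)) (funext fun s => ?_)).mp
    (P0.sum (Finset.range ((G i).natDegree + 1)) fun n _ =>
      (P0.const (R := Pk k) (L.algebraMap_mem ((G i).coeff n))).mul (h1 n))
  rw [eval_map, eval₂_eq_sum_range]

/-- **The frame**: `C = cl W(w)` with the motions `T s`, `w ↦ w + s`; the floor `u` over `C`, exact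
motions `U`, the group `T₂` on `cl C(u)`, exact law. -/
structure FrU (v : RVal Ω) (W : IntermediateField k Ω) (w u : Ω) (T : k → Ω →ₐ[k] Ω) (U : k → Ω)
    (δ : k → k → k) (T₂ : k × k → Ω →ₐ[k] Ω) : Prop where
  tw : TL v W w 0
  famT : Fam v (cadj v W w) (Pk k) T
  fixW : ∀ s, ∀ f ∈ W, T s f = f
  Tw : ∀ s, T s w = w + algebraMap k Ω s
  id0 : ∀ f ∈ cadj v W w, T 0 f = f
  law₁ : ∀ s s', ∀ f ∈ cadj v W w, T s (T s' f) = T (s + s') f
  tu : TL v (cadj v W w) u 0
  pol : P0 (cadj v W w) (Pk k) U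
  U0 : U 0 = 0
  bi : (fun y : k × k => δ y.1 y.2) ∈ PP (Pk k) (Pk k)
  d0 : ∀ y, δ 0 y = 0
  d0' : ∀ y, δ y 0 = 0
  cocy : ∀ a b c : k, δ a b + δ (a + b) c = δ b c + δ a (b + c)
  exact_U : ∀ s s' : k, U s + T s (U s') - U (s + s') = algebraMap k Ω (δ s s')
  lm : ∃ w₀ ∈ W, ∃ (ι : Type) (_ : Fintype ι) (F G : ι → k[X]),
    (∀ s t, δ s t = ∑ i, (F i).eval s * (G i).eval t) ∧
    ∀ s, U s = Lm Ω F G s (-(w - w₀) - algebraMap k Ω s)
  att : Att v (cadj v W w) T u 0 U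
  fam : Fam v (cadj v (cadj v W w) u) (PP (Pk k) (Pk k)) T₂
  res : ∀ y, ∀ f ∈ cadj v W w, T₂ y f = T y.1 f
  Tu : ∀ y, T₂ y u = u + U y.1 + algebraMap k Ω y.2
  law : ∀ y y' : k × k, ∀ f ∈ cadj v (cadj v W w) u,
    T₂ y (T₂ y' f) = T₂ (y.1 + y'.1, y.2 + y'.2 + δ y.1 y'.1) f

/-- The motions of the first floor. -/
theorem exists_T1 [IsAlgClosed Ω] (h0 : Ctx0 k v) (hsc : SphC v)
    (hval : ∀ ρ : ℝ, ∃ x : Ω, x ≠ 0 ∧ v x = ρ) {W : IntermediateField k Ω} {w : Ω}
    (hw : TL v W w 0) :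
    ∃ T : k → Ω →ₐ[k] Ω, Fam v (cadj v W w) (Pk k) T ∧ (∀ s, ∀ f ∈ W, T s f = f) ∧
      (∀ s, T s w = w + algebraMap k Ω s) ∧ (∀ f ∈ cadj v W w, T 0 f = f) ∧
      ∀ s s', ∀ f ∈ cadj v W w, T s (T s' f) = T (s + s') f := by
  have hF : Fam v W (Pk k) fun _ : k => AlgHom.id k Ω :=
    ⟨fun _ => isoE_id, fun _ f hf => hf, fun f hf => (P0.const hf).pl⟩
  obtain ⟨T, hT, hT', hTw⟩ := hF.exists_lift (Q := Pk k) h0 hsc hval hw (V := fun _ => 0) P0.zero
    (fun ε hε => ⟨1, one_pos, fun θ hθ h1 x => by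
      rw [AlgHom.id_apply, sub_self, sub_zero]
      exact RVal.Ge.zero⟩) (fun s => s) (fun φ hφ => hφ) (κ := fun s => algebraMap k Ω s)
    (P0.fn id_mem_Pk) (fun y => h0.ge _)
  have hw' : ∀ s, T s w = w + algebraMap k Ω s := fun s => by rw [hTw, add_zero]
  refine ⟨T, hT, fun s f hf => by rw [hT' s f hf]; rfl, hw', fun f hf => ?_, fun s s' f hf => ?_⟩
  · exact eq_on_cadj (hT.iso 0) isoE_id (A := W) (z := w)
      (fun a ha => by rw [hT' _ a ha]) (by
        rw [hw', map_zero, add_zero]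
        rfl) f hf
  · exact eq_on_cadj (isoE_comp (hT.iso s) (hT.iso s')) (hT.iso (s + s')) (A := W) (z := w)
      (fun a ha => by
        rw [AlgHom.comp_apply, hT' s' a ha, hT' (s + s') a ha]
        exact hT' s a ha) (by
        rw [AlgHom.comp_apply, hw', map_add, hw', AlgHom.commutes, hw', map_add]
        ring) f hf

/-- **The frame exists**, if the jets of `u` along `w` are attained. -/
theorem exists_frU [IsAlgClosed Ω] [Infinite k] (h0 : Ctx0 k v) (hsc : SphC v)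
    (hval : ∀ ρ : ℝ, ∃ x : Ω, x ≠ 0 ∧ v x = ρ) {W : IntermediateField k Ω} {w u : Ω}
    (hw : TL v W w 0) (hu : TL v (cadj v W w) u 0) (hT : Fam v (cadj v W w) (Pk k) T)
    (hTW : ∀ s, ∀ f ∈ W, T s f = f) (hTw : ∀ s, T s w = w + algebraMap k Ω s)
    (hV : P0 (cadj v W w) (Pk k) V) (hV0 : V 0 = 0) (hatt : Att v (cadj v W w) T u 0 V) :
    ∃ (A : Ω) (U : k → Ω) (δ : k → k → k) (T₂ : k × k → Ω →ₐ[k] Ω), A ∈ cadj v W w ∧
      FrU v W w (u - A) T U δ T₂ := by
  classical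
  have hid : ∀ f ∈ cadj v W w, T 0 f = f := fun f hf =>
    eq_on_cadj (hT.iso 0) isoE_id (A := W) (z := w) (fun a ha => by rw [hTW _ a ha]; rfl) (by
        rw [hTw, map_zero, add_zero]
        rfl) f hf
  have hlaw : ∀ s s', ∀ f ∈ cadj v W w, T s (T s' f) = T (s + s') f := fun s s' f hf =>
    eq_on_cadj (isoE_comp (hT.iso s) (hT.iso s')) (hT.iso (s + s')) (A := W) (z := w)
      (fun a ha => by rw [AlgHom.comp_apply, hTW s' a ha, hTW (s + s') a ha, hTW s a ha]) (by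
        rw [AlgHom.comp_apply, hTw, map_add, hTw, AlgHom.commutes, hTw, map_add]
        ring) f hf
  -- the cocycle, up to a gain
  obtain ⟨del, hdel, hdel0, hl⟩ := law_up (m := fun x x' => x + x') h0 hT hu
    (fun φ hφ => add_mem_RR hφ) ⟨1, one_pos, fun s s' f hf r hr => by
      rw [AlgHom.comp_apply, hlaw s s' f hf, sub_self]
      exact RVal.Ge.zero⟩ hV.pl hV.mem (fun ε hε => by
      obtain ⟨η, hη, h1⟩ := hatt ε hε
      refine ⟨η, hη, fun θ hθ h2 x => ?_⟩
      have h3 := h1 θ hθ (by rwa [zero_sub]) x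
      rwa [zero_sub] at h3)
  obtain ⟨hd1, hd2⟩ := hdel0 0 hid hV0
  obtain ⟨T', hF', hT', hw'⟩ := hT.exists_lift (Q := PP (Pk k) (Pk k)) h0 hsc hval hu hV hatt
    (fun y : k × k => y.1) (fun φ hφ => fst_mem_PP hφ) (κ := fun y => algebraMap k Ω y.2)
    (P0.fn (snd_mem_PP id_mem_Pk)) (fun y => h0.ge _)
  obtain ⟨μ, hμ, hl'⟩ := hl T' hF'.iso hT' hw'
  obtain ⟨δ, hδ⟩ : ∃ δ : k → k → k, δ = fun s s' => del (s, s') := ⟨_, rfl⟩
  have hco : ∀ s s' : k, v.Ge (μ / 2) (V s + T s (V s') - V (s + s') -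
      algebraMap k Ω (δ s s')) := fun s s' => by
    rw [hδ]
    exact gain_of_law (m := fun s s' : k => s + s') hμ hT.mem hV.mem hu.lim hT' hw' hl'
      (hlaw s s')
  have hbi : (fun y : k × k => δ y.1 y.2) ∈ PP (Pk k) (Pk k) := by
    rw [hδ]
    exact RR_le_PP _ hdel
  have hd0 : ∀ y, δ 0 y = 0 := fun y => by
    rw [hδ]
    exact hd1 y (zero_add y)
  have hd0' : ∀ y, δ y 0 = 0 := fun y => by
    rw [hδ]
    exact hd2 y (add_zero y)
  have hcocy := cocy_k h0 hT.iso hlaw hV.mem (half_pos hμ) hco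
  obtain ⟨ι, hι, F, G, hFG⟩ := exists_FG hbi
  obtain ⟨ε, hε, hex⟩ := exists_exact h0 hV (half_pos hμ) hco hFG
  obtain ⟨w₀, hw₀, hww⟩ := hw.lim ε hε
  have hxL : w - w₀ ∈ cadj v W w := sub_mem (self_mem_cadj v W w) (le_cadj v W w hw₀)
  have hTx : ∀ s, T s (w - w₀) = w - w₀ + algebraMap k Ω s := fun s => by
    rw [map_sub, hTw, hTW s _ hw₀]
    ring
  obtain ⟨A, hA, hAU⟩ := hex (w - w₀) hxL (by rwa [zero_sub] at hww) hTx
  obtain ⟨U, hU⟩ : ∃ U : k → Ω, U = fun s => Lm Ω F G s (-(w - w₀) - algebraMap k Ω s) := ⟨_, rfl⟩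
  have hUP : P0 (cadj v W w) (Pk k) U := by
    rw [hU]
    exact Lm_P0 hxL
  have hUex : ∀ s s' : k, U s + T s (U s') - U (s + s') = algebraMap k Ω (δ s s') := fun s s' => by
    rw [hU]
    exact Lm_exact hFG hcocy hTx s s'
  have hU0 : U 0 = 0 := by
    have h1 := hUex 0 0
    rw [hid _ (hUP.mem 0), add_zero, add_sub_cancel_right, hd0, map_zero] at h1
    exact h1
  have hu' : TL v (cadj v W w) (u - A) 0 := hu.sub_mem hA
  have hatt' : Att v (cadj v W w) T (u - A) 0 U := by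
    intro η hη
    obtain ⟨e, he, h1⟩ := hatt η hη
    refine ⟨e, he, fun θ hθ h2 s => ?_⟩
    have h3 := h1 (θ + A) (add_mem hθ hA) (by
      have e1 : u - (θ + A) = u - A - θ := by ring
      rwa [e1]) s
    have h4 := hAU s
    rw [hU]
    have e1 : T s θ - θ - Lm Ω F G s (-(w - w₀) - algebraMap k Ω s) =
        (T s (θ + A) - (θ + A) - V s) + (V s - (T s A - A) -
          Lm Ω F G s (-(w - w₀) - algebraMap k Ω s)) := by
      rw [map_add]
      ring
    simp only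
    rw [e1]
    exact h3.add (h4.mono (by linarith))
  obtain ⟨T₂, hF₂, hT₂, hw₂⟩ := hT.exists_lift (Q := PP (Pk k) (Pk k)) h0 hsc hval hu' hUP hatt'
    (fun y : k × k => y.1) (fun φ hφ => fst_mem_PP hφ) (κ := fun y => algebraMap k Ω y.2)
    (P0.fn (snd_mem_PP id_mem_Pk)) (fun y => h0.ge _)
  refine ⟨A, U, δ, T₂, hA, ⟨hw, hT, hTW, hTw, hid, hlaw, hu', hUP, hU0, hbi, hd0, hd0', hcocy,
    hUex, ⟨w₀, hw₀, ι, hι, F, G, hFG, fun s => by rw [hU]⟩, hatt', hF₂, hT₂, hw₂, fun y y' => ?_⟩⟩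
  refine eq_on_cadj (isoE_comp (hF₂.iso y) (hF₂.iso y')) (hF₂.iso _) (A := cadj v W w)
    (z := u - A) (fun a ha => ?_) ?_
  · rw [AlgHom.comp_apply, hT₂ y' a ha, hT₂ y _ (hT.mem _ a ha), hT₂ _ a ha, hlaw _ _ a ha]
  · rw [AlgHom.comp_apply, hw₂, map_add, map_add, hw₂, AlgHom.commutes, hT₂ y _ (hUP.mem _), hw₂]
    simp only
    rw [map_add, map_add, ← hUex y.1 y'.1]
    ring

end Pool.Agent.TWRZ
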