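import Pool.Agent.Lib.TWRZ.Res
import Pool.Agent.Lib.TWNI.EndI
import Pool.Agent.Lib.TWNI.MkI

/-!
# TANK W, (Ru.Z): the dichotomy N1' for the exact arcs over the base

* `N1E p v C K ν a`: the dichotomy `ResE` for every exact arc over `C`, of any radius;
* `n1E`: it is true for a critical element of `C(z, z')`; `n1Z`: radius `0`;
* `TowR.n1E`, `TowR.n1Z`: for a tower with two floors.
-/

set_option autoImplicit false

open Polynomial

namespace Pool.Agent.TWRZ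

open Pool.Agent.H15JM (RVal)
open Pool.Agent.TWM
open Pool.Agent.TWS (TowR)
open Pool.Agent.TWII (PG LP)
open Pool.Agent.TWLM (HSd Oi)
open Pool.Agent.TWNI (ResE arcI_mk)

universe u

variable {k Ω : Type u} [Field k] [Field Ω] [Algebra k Ω] {v : RVal Ω}
  {C K : IntermediateField k Ω} {p : ℕ} {ν : ℝ} {a : Ω}

/-- The dichotomy for every exact arc over `C`, of any radius. -/
def N1E (p : ℕ) (v : RVal Ω) (C K : IntermediateField k Ω) (ν : ℝ) (a : Ω) : Prop :=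
  ∀ (σ : ℝ) (Ψ : ℕ → Ω → Ω), HSd C Ψ → Oi v C σ Ψ →
    (∀ n : ℕ, ∀ x ∈ C, ∀ b, v.Ge b x → v.Ge (b - n * σ) (Ψ n x)) →
    (∀ n : ℕ, n ≠ 0 → ∀ x ∈ C, ∀ b, v.Ge b x → Gt v (b - n * σ) (Ψ n x)) →
    (∀ n : ℕ, n ≠ 0 → ∀ c : ℝ, ∀ x ∈ C, LP p v C c x → PG p v C (c - n * σ) (Ψ n x)) →
    ResE p v C K σ Ψ ν a

theorem N1E.n1Z (h : N1E p v C K ν a) : N1Z p v C K ν a := fun Ψ h1 h2 h3 h4 h5 =>
  h 0 Ψ h1 h2 h3 h4 h5

variable [IsAlgClosed Ω] [hp : Fact p.Prime] [CharP Ω p]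

/-- **N1'** for the exact arcs over `C`. -/
theorem n1E (hc : CompleteV v) {z z' : Ω} {r r' : ℝ} (hz : TL v C z r)
    (hz' : TL v (cadj v C z) z' r') (hK : K = cadj v (cadj v C z) z') (ha : a ∈ K)
    (hlp : LP p v K ν a) : N1E p v C K ν a := fun _ _ h1 h2 h3 h4 h5 =>
  (arcI_mk h1 h2 hz h3 h4 h5).resI hc hz' hK ha hlp

/-- **N1'** for a tower with two floors. -/
theorem n1E_of_tower (hc : CompleteV v) (hT : TowR v 2 C K) (ha : a ∈ K) (hlp : LP p v K ν a) :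
    N1E p v C K ν a := by
  cases hT with
  | @succ n A B z r hz ht =>
    cases ht with
    | @succ n A B z' r' hz' ht =>
      cases ht with
      | zero _ => exact n1E hc hz hz' rfl ha hlp

end Pool.Agent.TWRZ
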