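import Pool.Agent.Lib.TWRZ.Tran0
import Pool.Agent.Lib.TWF.InfCov

/-!
# TANK W, (Ru.Z), (Z2): the leaf in a large field

* `CrH p v w ι K₀ g`: a bad critical step of dimension four, `ι` isometric into a complete, spherically
  complete, algebraically closed field with all the values;
* `LeafH p k Q`: the form of a leaf, in the large field;
* `Mapp Q Q'`: the property `Q` in a complete field gives `Q'` in a large field;
* `leafD_of_leafH`; `leafZ_of_sph`: the leaf of `AltZ`.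
-/

set_option autoImplicit false

open Polynomial

namespace Pool.Agent.TWRZ

open Pool.Agent.H15JM (RVal)
open Pool.Agent.LU1 (VPos adj)
open Pool.Agent.D2 (Ctx0)
open Pool.Agent.D2P (hen clI mem_clI mem_adj_self)
open Pool.Agent.TW
open Pool.Agent.TWM (TL CompleteV Dense cadj Cld cld_clI clI_adj_clI Imm Gt PI)
open Pool.Agent.TWS (IsoE TowR SphC HF hv)
open Pool.Agent.TWII (PG LP)
open Pool.Agent.TWS7 (FGc Unhit PDiv MotE)
open Pool.Agent.TWF

universe u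

/-- A bad critical step of dimension four, with an isometric embedding `ι` in a large field. -/
structure CrH (p : ℕ) {k Ω H : Type u} [Field k] [Field Ω] [Algebra k Ω] [Field H] [Algebra k H]
    (v : RVal Ω) (w : RVal H) (ι : Ω →ₐ[k] H) (K₀ : IntermediateField k Ω) (g : Ω) : Prop where
  ctx : Ctx k v 1
  ctxH : Ctx0 k w
  cpl : CompleteV w
  sph : SphC w
  val : ∀ ρ : ℝ, ∃ x : H, x ≠ 0 ∧ w x = ρ
  iso : IsoE v w ι
  fg : K₀.FG
  alg : ∀ g : Ω, IsAlgebraic K₀ g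
  tr : Algebra.trdeg k K₀ = (4 : ℕ)
  bd : BD p v K₀
  hr : HRone v K₀
  low : ∀ m, m < 4 → LUB p v k 1 m
  div : PDiv p w (clI w (K₀.map ι))
  com : ∀ x ∈ clI w (K₀.map ι), x ≠ 0 → w x ≠ 0 → ComV w x (clI w (K₀.map ι))
  gn : g ∉ K₀
  gp : g ^ p ∈ K₀
  bdg : BD p v (adj K₀ g)
  no : ¬ HRone v (adj K₀ g)

/-- **The form of a leaf, in the large field.** -/
def LeafH (p : ℕ) (k : Type u) [Field k] (Q : CProp k) : Prop :=
  ∀ (Ω H : Type u) [Field Ω] [Algebra k Ω] [IsAlgClosed Ω] [CharP Ω p] [Field H] [Algebra k H]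
    [IsAlgClosed H] [CharP H p] (v : RVal Ω) (w : RVal H) (ι : Ω →ₐ[k] H)
    (K₀ : IntermediateField k Ω) (g : Ω), CrH p v w ι K₀ g → Q H w (clI w (K₀.map ι)) →
    ∀ ν : ℝ, LP p w (clI w (K₀.map ι)) ν (ι (g ^ p)) →
      (∀ x ∈ clI w (K₀.map ι), ¬ Gt w ν (ι (g ^ p) - x ^ p)) →
      UnhitV p w 3 (clI w (K₀.map ι)) ν (ι (g ^ p)) ∨ MotE p v K₀ ν (g ^ p)

/-- The property `Q` in a complete field gives `Q'` in a large field. -/
def Mapp (p : ℕ) (k : Type u) [Field k] (Q Q' : CProp k) : Prop :=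
  ∀ (Ω H : Type u) [Field Ω] [Algebra k Ω] [IsAlgClosed Ω] [CharP Ω p] [Field H] [Algebra k H]
    [IsAlgClosed H] [CharP H p] (v : RVal Ω) (w : RVal H) (j : Ω →ₐ[k] H)
    (M : IntermediateField k Ω), Ctx k v 1 → CompleteV v → IsoE v w j → Q Ω v M → Q' H w (M.map j)

section

variable {p : ℕ} {k Ω Ω' H : Type u} [Field k] [Field Ω] [Algebra k Ω] [Field Ω'] [Algebra k Ω']
  [Field H] [Algebra k H] {v : RVal Ω} {w : RVal Ω'} {wH : RVal H} {ι : Ω →ₐ[k] Ω'}
  {j : Ω' →ₐ[k] H} {K₀ : IntermediateField k Ω} {g : Ω}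

/-- The closure of the image in the large field. -/
theorem clI_map_comp (h : IsoE w wH j) (hc : CompleteV w) (K₀ : IntermediateField k Ω) :
    clI wH (K₀.map (j.comp ι)) = (clI w (K₀.map ι)).map j := by
  rw [← h.clI_map hc, IntermediateField.map_map]

/-- **The critical step in the large field.** -/
theorem CrH.of_cr [Fact p.Prime] [IsAlgClosed Ω] [IsAlgClosed Ω'] (hcr : Cr p v w ι K₀ g)
    (h : IsoE w wH j) (h0 : Ctx0 k wH) (hc : CompleteV wH) (hs : SphC wH)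
    (hv : ∀ ρ : ℝ, ∃ x : H, x ≠ 0 ∧ wH x = ρ) : CrH p v wH (j.comp ι) K₀ g := by
  have hk : Ctx k w 1 := hcr.dns.ctx hcr.ctx
  have e := clI_map_comp (ι := ι) h hcr.cpl K₀
  refine ⟨hcr.ctx, h0, hc, hs, hv, ⟨fun a ha => ?_⟩, hcr.fg, hcr.alg, hcr.tr, hcr.bd, hcr.hr,
    hcr.low, ?_, ?_, hcr.gn, hcr.gp, hcr.bdg, hcr.no⟩
  · rw [AlgHom.comp_apply, h.val _ (TWM.Dense.ne_zero hcr.dns ha), hcr.dns.val a ha]
  · rw [e, pdiv_map_iff h]
    have hI : IsoE v w ι := ⟨hcr.dns.val⟩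
    rw [pdiv_iff_vg, TWS.VG.clI, TWC.vg_map hI, ← pdiv_iff_vg]
    exact hcr.div
  · rw [e]
    rintro _ ⟨x, hx, rfl⟩ hx0 hvx
    have hx0' : x ≠ 0 := by
      rintro rfl
      exact hx0 (map_zero _)
    have hvx' : wH (j x) ≠ 0 := hvx
    rw [h.val x hx0'] at hvx'
    exact ComV.map h hk hx0' hvx'

end

/-- **From the large field to the completion.** -/
theorem leafD_of_leafH {p : ℕ} [Fact p.Prime] {k : Type u} [Field k] [IsAlgClosed k]
    [CharP k p] {Q Q' : CProp k} (hQ : Mapp p k Q Q') (hH : LeafH p k Q') : LeafD p k Q := by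
  intro Ω Ω' _ _ _ _ _ _ _ _ v w ι K₀ g hcr hq ν h1 h2
  have hk : Ctx k w 1 := hcr.dns.ctx hcr.ctx
  obtain ⟨j, hj⟩ := TWS.exists_emb (v := w) hk.toCtx0
  have hjI : IsoE w (hv k) j := ⟨hj⟩
  have : CharP (HF k) p := charP_of_injective_algebraMap (algebraMap k (HF k)).injective p
  have e := clI_map_comp (ι := ι) hjI hcr.cpl K₀
  have hcH := CrH.of_cr hcr hjI (TWS.ctx0_hv k) (TWS.completeV_hv k) (TWS.sphC_hv k)
    (TWS.exists_val k)
  have h3 := hH Ω (HF k) v (hv k) (j.comp ι) K₀ g hcH (by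
    rw [e]
    exact hQ Ω' (HF k) w (hv k) j _ hk hcr.cpl hjI hq) ν (by
    rw [e, AlgHom.comp_apply]
    exact (lp_map_iff hjI).2 h1) (by
    rw [e, AlgHom.comp_apply]
    exact (far_map_iff hjI).2 h2)
  rcases h3 with h3 | h3
  · left
    rw [e, AlgHom.comp_apply] at h3
    exact (h3.of_map hjI hcr.cpl).unhit hk
  · exact Or.inr h3

/-! ### The floors -/

section Floor

variable {p : ℕ} {k Ω H : Type u} [Field k] [Field Ω] [Algebra k Ω] [Field H] [Algebra k H]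
  {v : RVal Ω} {w : RVal H} {j : Ω →ₐ[k] H} {C W C₁ : IntermediateField k Ω} {x y : Ω} {s : ℝ}

theorem pbasis_map_one (h : PBasis p W ![x]) : PBasis p (W.map j) ![j x] := by
  have h1 := (TWM.Dense.pbasis_iff (ι := j) (t := ![x])).2 h
  refine (congrArg (PBasis p (W.map j)) (funext fun i => ?_)).mp h1
  fin_cases i
  rfl

theorem Flr.map [IsAlgClosed Ω] (h : IsoE v w j) (hc : CompleteV v) (hF : Flr p v C W x y s) :
    Flr p w (C.map j) (W.map j) (j x) (j y) s where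
  cld := (h.cld_iff hc).2 hF.cld
  mem := ⟨x, hF.mem, rfl⟩
  x0 := IsoE.ne_zero hF.x0
  vx := by
    rw [h.val x hF.x0]
    exact hF.vx
  pb := pbasis_map_one hF.pb
  eq := by rw [hF.eq, h.cadj_map hc]
  le := by
    have e : IntermediateField.adjoin k {j x, j y} = (IntermediateField.adjoin k {x, y}).map j := by
      rw [IntermediateField.adjoin_map]
      congr 1
      rw [Set.image_pair]
    rw [e, h.clI_map hc]
    exact TWM.Dense.map_le_map_iff.2 hF.le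
  far := fun θ hθ => by
    obtain ⟨a, rfl⟩ := TWM.Dense.exists_of_isAlgebraic hθ
    obtain ⟨h1, h2⟩ := hF.far a (TWM.Dense.isAlgebraic_iff.1 hθ)
    refine ⟨fun h0 => h1 (TWM.Dense.inj j h0), ?_⟩
    rw [← map_sub, h.val _ (sub_ne_zero.2 h1)]
    exact h2
  lim := fun ε hε => by
    obtain ⟨n, a, ha, h1⟩ := hF.lim ε hε
    refine ⟨n, j a, ⟨a ^ p ^ n, ha, map_pow j a _⟩, ?_⟩
    rw [← map_sub, h.ge_iff]
    exact h1

/-- The strict translations. -/
theorem StrZ.map (h : IsoE v w j) (hy : ∀ P ∈ PI W, P.eval y = 0 → P = 0)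
    (hZ : StrZ p v W C y s) : StrZ p w (W.map j) (C.map j) (j y) s := by
  obtain ⟨c, m, hm, hcm, hc0, hcv, h1⟩ := hZ
  refine ⟨j c, m, hm, ⟨c ^ m, hcm, map_pow j c m⟩, IsoE.ne_zero hc0, ?_, fun n => ?_⟩
  · rw [h.val c hc0, hcv]
  · obtain ⟨Θ, h2, h3⟩ := h1 n
    refine ⟨Θ, h2, fun ζ hζ => ?_⟩
    obtain ⟨μ, hμ, h4⟩ := h3 ζ hζ
    refine ⟨μ, hμ, fun P hP => ?_⟩
    obtain ⟨Q, hQ, rfl⟩ := exists_PI_map hP
    have e1 : ∀ z : Ω, (Q.map j.toRingHom).eval (j z) = j (Q.eval z) := fun z =>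
      eval_map_apply (f := j.toRingHom) (p := Q) z
    have e2 : j y + algebraMap k H ζ * j c = j (y + algebraMap k Ω ζ * c) := by
      rw [map_add, map_mul, AlgHom.commutes]
    by_cases h5 : Q.eval y = 0
    · rw [hy Q hQ h5, Polynomial.map_zero, eval_zero, eval_zero, sub_zero]
      exact RVal.Ge.zero
    · rw [e2, e1, e1, ← map_sub, h.ge_iff, h.val _ h5]
      exact h4 Q hQ

/-- `y` is transcendental over `W`. -/
theorem Flr.eval_ne (hF : Flr p v C W x y s) : ∀ P ∈ PI W, P.eval y = 0 → P = 0 := by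
  intro P hP h1
  by_contra h2
  exact (hF.far y (TWM.isAlgebraic_root hP h2 h1)).1 rfl

theorem BsV.of_bs (hk : Ctx k v 1) (h : Bs p v C₁ C) : BsV p v C₁ C :=
  ⟨h.fg, exists_val_of_full hk h.full, h.tr, h.bd, h.eq⟩

end Floor

/-- A tower with two floors over a base with infinitely many strict translations, in a large
field. -/
def QZ (p : ℕ) (k : Type u) [Field k] : CProp k := fun Ω _ _ v M =>
  ∃ (C₁ C W : IntermediateField k Ω) (x y : Ω) (s : ℝ), BsV p v C₁ C ∧ Flr p v C W x y s ∧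
    StrZ p v W C y s ∧ TowR v 2 C M

theorem mapp_altZ (p : ℕ) (k : Type u) [Field k] :
    Mapp p k (OnB p fun _ _ _ v C => AltZ p v C) (QZ p k) := by
  intro Ω H _ _ _ _ _ _ _ _ v w j M hk hc h hq
  obtain ⟨-, C₁, C, hB, ⟨W, x, y, s, hF, hZ⟩, hT⟩ := hq
  exact ⟨C₁.map j, C.map j, W.map j, j x, j y, s, (BsV.of_bs hk hB).map h hc, Flr.map h hc hF,
    StrZ.map h (Flr.eval_ne hF) hZ, TWC.towR_map h hc hT⟩

/-- **The leaf of `AltZ`, from the large field.** -/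
theorem leafZ_of_sph {p : ℕ} [Fact p.Prime] {k : Type u} [Field k] [IsAlgClosed k]
    [CharP k p] (hH : LeafH p k (QZ p k)) : LeafD p k (OnB p fun _ _ _ v C => AltZ p v C) :=
  leafD_of_leafH (mapp_altZ p k) hH

end Pool.Agent.TWRZ
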