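import Pool.Agent.Lib.TWRZ.TopE
import Pool.Agent.Lib.TWRZ.N1
import Pool.Agent.Lib.TWRZ.Tran

/-!
# TANK W, (Ru.Z): the leaf

* `leafH_Z`: in a large field, a base with infinitely many strict translations, two floors above it;
* `leafD_altZ`: **the leaf (Z)**.
-/

set_option autoImplicit false

open Polynomial

namespace Pool.Agent.TWRZ

open Pool.Agent.H15JM (RVal)
open Pool.Agent.D2P (clI mem_clI)
open Pool.Agent.TWM
open Pool.Agent.TWS (VG)
open Pool.Agent.TWF (AltZ LeafD OnB vg_tower)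
open Pool.Agent.TWS7 (PDiv)

universe u

variable {p : ℕ} [hp : Fact p.Prime] {k : Type u} [Field k] [IsAlgClosed k] [CharP k p]

/-- **The leaf (Z) in a large field.** -/
theorem leafH_Z : LeafH p k (QZ p k) := by
  intro Ω H _ _ _ _ _ _ _ _ v w ι K₀ g hcr hq ν hl _
  obtain ⟨C₁, C, W, x, y, s, hB, hF, hZ, hT⟩ := hq
  have hCM : C ≤ clI w (K₀.map ι) := TWC.towR_le hT
  have hq : QVal w x (clI w (K₀.map ι)) := fun f hf hf0 =>
    hcr.com x (hCM (hF.le_C hF.mem)) hF.x0 hF.vx f (le_algc _ hf) hf0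
  have ha : ι (g ^ p) ∈ clI w (K₀.map ι) := mem_clI.2 fun b =>
    ⟨ι (g ^ p), ⟨g ^ p, hcr.gp, rfl⟩, by rw [sub_self]; exact RVal.Ge.zero⟩
  have hvg : VG w (clI w (K₀.map ι)) = VG w C := vg_tower hT
  have hpd : PDiv p w C := by
    intro f hf hf0
    obtain ⟨f', hf', hf0', h2⟩ := hcr.div f (hCM hf) hf0
    have h3 : w f' ∈ VG w C := by
      rw [← hvg]
      exact VG.self hf' hf0'
    obtain ⟨g', hg', hg0', h4⟩ := h3
    exact ⟨g', hg', hg0', by rw [h4, h2]⟩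
  exact top_out hcr.ctx hcr.ctxH hcr.cpl hcr.sph hcr.val hcr.iso hcr.fg hcr.alg hcr.tr hcr.bd
    hB.fgv hF hCM hvg.le hpd hq hZ hcr.gp hl (n1E_of_tower hcr.cpl hT ha hl)

/-- **The leaf (Z)**: infinitely many strict translations. -/
theorem leafD_altZ : LeafD p k (OnB p fun _ _ _ v C => AltZ p v C) :=
  leafZ_of_sph leafH_Z

end Pool.Agent.TWRZ
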