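import Pool.Agent.Lib.TWRZ.Exu

/-!
# TANK W: the frame of the floor `u`, the cocycle

* `small_mov`: an element of `cl W(w)` which is moved by small amounts is near to `W`;
* `FrU.lim_of_cob`: if the cocycle of the frame is a coboundary, then `u` comes from `W`;
* `Dm`: the cocycle with both arguments in `Ω`, `Dm_cocy`;
* `FrU.exists_poly`: `U` as a polynomial, and the displacement `M = δ(X, s)`.
-/

set_option autoImplicit false

open Polynomial

namespace Pool.Agent.TWRZ

open Pool.Agent.H15JM (RVal)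
open Pool.Agent.D2 (Ctx0)
open Pool.Agent.D2P (clI mem_clI)
open Pool.Agent.TWM
open Pool.Agent.TWS

universe u

variable {k Ω : Type u} [Field k] [Field Ω] [Algebra k Ω] {v : RVal Ω}
  {W L : IntermediateField k Ω} {w u : Ω} {T : k → Ω →ₐ[k] Ω} {U : k → Ω} {δ : k → k → k}
  {T₂ : k × k → Ω →ₐ[k] Ω}

/-- **An element of `cl W(w)` which is moved by small amounts is near to `W`.** -/
theorem small_mov [IsAlgClosed Ω] [Infinite k] (h0 : Ctx0 k v) (hw : TL v W w 0)
    (hT : ∀ s, IsoE v v (T s)) (hTW : ∀ s, ∀ f ∈ W, T s f = f)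
    (hTw : ∀ s, T s w = w + algebraMap k Ω s) {θ : Ω} (hθ : θ ∈ cadj v W w) {a : ℝ}
    (ha : ∀ s : k, v.Ge a (T s θ - θ)) {η : ℝ} (hη : 0 < η) :
    ∃ f ∈ W, v.Ge (a - η) (θ - f) := by
  classical
  obtain ⟨g, hg, h1⟩ := hw.dense hθ a
  obtain ⟨P, hP⟩ : ∃ P : Polynomial Ω, P = taylor w g - C (g.eval w) := ⟨_, rfl⟩
  have hPe : ∀ t : Ω, P.eval t = g.eval (w + t) - g.eval w := fun t => by
    rw [hP, eval_sub, eval_C, taylor_eval, add_comm]
  have hTg : ∀ s : k, T s (g.eval w) = g.eval (w + algebraMap k Ω s) := fun s => by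
    rw [← hTw, eval_eq_sum_range, eval_eq_sum_range, map_sum]
    exact Finset.sum_congr rfl fun j _ => by rw [map_mul, map_pow, hTW s _ (hg j)]
  have h2 : ∀ s : k, v.Ge a (P.eval (algebraMap k Ω s)) := fun s => by
    have e : P.eval (algebraMap k Ω s) = (T s θ - θ) - (T s (θ - g.eval w) - (θ - g.eval w)) := by
      rw [hPe, map_sub, hTg]
      ring
    rw [e]
    exact (ha s).sub (((hT s).ge_iff.2 h1).sub h1)
  have h3 := coeff_ge h0 h2
  obtain ⟨w₀, hw₀, h4⟩ := hw.lim (η / (P.natDegree + 1)) (by positivity)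
  refine ⟨g.eval w₀, TWM.eval_mem hg hw₀, ?_⟩
  have e : θ - g.eval w₀ = (θ - g.eval w) - P.eval (w₀ - w) := by
    rw [hPe]
    have e1 : w + (w₀ - w) = w₀ := by ring
    rw [e1]
    ring
  rw [e]
  refine (h1.mono (by linarith)).sub ?_
  rw [eval_eq_sum_range]
  refine RVal.Ge.sum _ _ fun i hi => ?_
  have hi' : (i : ℝ) ≤ P.natDegree := by
    have := Finset.mem_range.1 hi
    exact_mod_cast (by omega : i ≤ P.natDegree)
  have h5 : v.Ge (-(η / (P.natDegree + 1))) (w₀ - w) := by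
    have e1 : w₀ - w = -(w - w₀) := by ring
    rw [e1]
    rw [zero_sub] at h4
    exact h4.neg
  refine ((h3 i).mul (ge_pow h5 i)).mono ?_
  have hN0 : (0 : ℝ) < P.natDegree + 1 := by positivity
  have h6 : (i : ℝ) * (η / (P.natDegree + 1)) ≤ η := by
    rw [← mul_div_assoc, div_le_iff₀ hN0]
    nlinarith
  linarith

/-- **If the cocycle is a coboundary, then `u` comes from `W`.** -/
theorem FrU.lim_of_cob [IsAlgClosed Ω] [Infinite k] (h0 : Ctx0 k v) (h : FrU v W w u T U δ T₂)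
    {μ : k → k} (hμ : μ ∈ Pk k) (hcob : ∀ s s', δ s s' = μ s + μ s' - μ (s + s')) :
    ∃ A ∈ cadj v W w, Lim v W 0 (u - A) := by
  classical
  obtain ⟨P, hP, hUP⟩ := (h.pol.sub (P0.fn hμ)).exists_poly
  have hcoc : ∀ s s' : k, P.eval (algebraMap k Ω s) + T s (P.eval (algebraMap k Ω s')) =
      P.eval (algebraMap k Ω (s + s')) := fun s s' => by
    rw [← hUP, ← hUP, ← hUP, map_sub, AlgHom.commutes]
    have h1 := h.exact_U s s'
    rw [hcob, map_sub, map_add] at h1
    linear_combination h1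
  have hmap : ∀ (s : k) (y : Ω), (P.map (T s : Ω →+* Ω)).eval (T s y) = T s (P.eval y) :=
    fun s y => by
      rw [eval_map, show (T s y) = (T s : Ω →+* Ω) y from rfl, eval₂_at_apply]
      rfl
  have hid : ∀ (s : k) (y : Ω), P.eval (algebraMap k Ω s) + (P.map (T s : Ω →+* Ω)).eval y =
      P.eval (algebraMap k Ω s + y) := by
    intro s
    have h1 : (C (P.eval (algebraMap k Ω s)) + P.map (T s : Ω →+* Ω) -
        P.comp (C (algebraMap k Ω s) + X)) = 0 := by
      refine Polynomial.eq_zero_of_infinite_isRoot _ ((Set.infinite_range_of_injective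
        (algebraMap k Ω).injective).mono ?_)
      rintro _ ⟨t, rfl⟩
      change (C (P.eval (algebraMap k Ω s)) + P.map (T s : Ω →+* Ω) -
        P.comp (C (algebraMap k Ω s) + X)).eval (algebraMap k Ω t) = 0
      rw [eval_sub, eval_add, eval_C, eval_comp, eval_add, eval_C, eval_X, ← map_add, ← hcoc]
      have e : algebraMap k Ω t = T s (algebraMap k Ω t) := (AlgHom.commutes _ _).symm
      conv_lhs => rw [e, hmap, AlgHom.commutes]
      ring
    intro y
    have h2 := congrArg (eval y) h1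
    rw [eval_sub, eval_add, eval_C, eval_comp, eval_add, eval_C, eval_X, eval_zero] at h2
    linear_combination h2
  have hwC := self_mem_cadj v W w
  have hA : -P.eval (-w) ∈ cadj v W w := neg_mem (TWM.eval_mem hP (neg_mem hwC))
  refine ⟨-P.eval (-w), hA, fun ε hε => ?_⟩
  have hAm : ∀ s : k, T s (-P.eval (-w)) - -P.eval (-w) = U s - algebraMap k Ω (μ s) := fun s => by
    rw [hUP, map_neg, ← hmap, map_neg, h.Tw]
    have h1 := hid s (-(w + algebraMap k Ω s))
    have e : algebraMap k Ω s + -(w + algebraMap k Ω s) = -w := by ring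
    rw [e] at h1
    linear_combination -h1
  obtain ⟨η, hη, h1⟩ := h.att (ε / 2) (half_pos hε)
  obtain ⟨θ, hθ, h2⟩ := h.tu.lim (min η ε) (lt_min hη hε)
  have h3 := h1 θ hθ (h2.mono (by linarith [min_le_left η ε]))
  obtain ⟨f, hf, h4⟩ := small_mov (a := -(ε / 2)) h0 h.tw h.famT.iso h.fixW h.Tw
    (θ := θ - -P.eval (-w)) (sub_mem hθ hA) (fun s => by
      have e : T s (θ - -P.eval (-w)) - (θ - -P.eval (-w)) =
          (T s θ - θ - U s) + algebraMap k Ω (μ s) := by
        rw [map_sub]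
        linear_combination -(hAm s)
      rw [e]
      exact ((h3 s).mono (by linarith)).add ((h0.ge _).mono (by linarith))) (half_pos hε)
  refine ⟨f, hf, ?_⟩
  have e : u - -P.eval (-w) - f = (u - θ) + (θ - -P.eval (-w) - f) := by ring
  rw [e]
  exact (h2.mono (by linarith [min_le_right η ε])).add (h4.mono (by linarith))

/-- The cocycle is not a coboundary, if `u` does not come from `W`. -/
theorem FrU.not_cob [IsAlgClosed Ω] [Infinite k] (h0 : Ctx0 k v) (h : FrU v W w u T U δ T₂)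
    (hu : ∀ g ∈ cadj v W w, ¬ Lim v W 0 (u - g)) {μ : k → k} (hμ : μ ∈ Pk k) :
    ¬ ∀ s s', δ s s' = μ s + μ s' - μ (s + s') := fun h1 => by
  obtain ⟨A, hA, h2⟩ := h.lim_of_cob h0 hμ h1
  exact hu A hA h2

/-! ### The cocycle, both arguments in `Ω` -/

/-- The cocycle, both arguments in `Ω`. -/
noncomputable def Dm {ι : Type} [Fintype ι] (F G : ι → k[X]) (a b : Ω) : Ω :=
  ∑ i, ((F i).map (algebraMap k Ω)).eval a * ((G i).map (algebraMap k Ω)).eval b

theorem Dm_k {ι : Type} [Fintype ι] (F G : ι → k[X]) (s : k) (y : Ω) :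
    Dm F G (algebraMap k Ω s) y = Lm Ω F G s y := by
  unfold Dm Lm
  exact Finset.sum_congr rfl fun i _ => by rw [eval_map, eval₂_at_apply]

/-- Two polynomials with the same values on `k`. -/
theorem poly_ext_k [Infinite k] {P Q : Polynomial Ω}
    (h : ∀ t : k, P.eval (algebraMap k Ω t) = Q.eval (algebraMap k Ω t)) : P = Q := by
  rw [← sub_eq_zero]
  refine Polynomial.eq_zero_of_infinite_isRoot _ ((Set.infinite_range_of_injective
    (algebraMap k Ω).injective).mono ?_)
  rintro _ ⟨t, rfl⟩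
  change (P - Q).eval (algebraMap k Ω t) = 0
  rw [eval_sub, h t, sub_self]

/-- `a ↦ Dm a b` and `b ↦ Dm a b`, shifted, as polynomials. -/
theorem Dm_poly {ι : Type} [Fintype ι] (F G : ι → k[X]) (c y : Ω) :
    (∃ P : Polynomial Ω, ∀ a : Ω, P.eval a = Dm F G (c + a) y) ∧
      ∃ P : Polynomial Ω, ∀ b : Ω, P.eval b = Dm F G c (b + y) := by
  refine ⟨⟨∑ i, ((F i).map (algebraMap k Ω)).comp (C c + X) *
    C (((G i).map (algebraMap k Ω)).eval y), fun a => ?_⟩,
    ⟨∑ i, C (((F i).map (algebraMap k Ω)).eval c) *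
      ((G i).map (algebraMap k Ω)).comp (X + C y), fun b => ?_⟩⟩
  · unfold Dm
    rw [eval_finsetSum]
    exact Finset.sum_congr rfl fun i _ => by
      rw [eval_mul, eval_C, eval_comp, eval_add, eval_C, eval_X]
  · unfold Dm
    rw [eval_finsetSum]
    exact Finset.sum_congr rfl fun i _ => by
      rw [eval_mul, eval_C, eval_comp, eval_add, eval_C, eval_X]

/-- **The cocycle relation over `Ω`.** -/
theorem Dm_cocy [Infinite k] {ι : Type} [Fintype ι] {F G : ι → k[X]}
    (hFG : ∀ s t, δ s t = ∑ i, (F i).eval s * (G i).eval t)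
    (h : ∀ a b c : k, δ a b + δ (a + b) c = δ b c + δ a (b + c)) (a b y : Ω) :
    Dm F G a b + Dm F G (a + b) y = Dm F G b y + Dm F G a (b + y) := by
  have h1 : ∀ (a b : k) (y : Ω), Dm F G (algebraMap k Ω a) (algebraMap k Ω b) +
      Dm F G (algebraMap k Ω a + algebraMap k Ω b) y = Dm F G (algebraMap k Ω b) y +
      Dm F G (algebraMap k Ω a) (algebraMap k Ω b + y) := by
    intro a b y
    rw [← map_add, Dm_k, Dm_k, Dm_k, Dm_k, Lm_k, ← hFG]
    exact Lm_cocy (Ω := Ω) hFG h a b y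
  have h2 : ∀ (a : k) (b y : Ω), Dm F G (algebraMap k Ω a) b +
      Dm F G (algebraMap k Ω a + b) y = Dm F G b y + Dm F G (algebraMap k Ω a) (b + y) := by
    intro a b y
    obtain ⟨P₁, hP₁⟩ := (Dm_poly F G (algebraMap k Ω a) 0).2
    obtain ⟨P₂, hP₂⟩ := (Dm_poly F G (algebraMap k Ω a) y).1
    obtain ⟨P₃, hP₃⟩ := (Dm_poly F G 0 y).1
    obtain ⟨P₄, hP₄⟩ := (Dm_poly F G (algebraMap k Ω a) y).2
    have h3 : P₁ + P₂ = P₃ + P₄ := poly_ext_k fun t => by
      rw [eval_add, eval_add, hP₁, hP₂, hP₃, hP₄, add_zero, zero_add]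
      exact h1 a t y
    have h4 := congrArg (eval b) h3
    rwa [eval_add, eval_add, hP₁, hP₂, hP₃, hP₄, add_zero, zero_add] at h4
  obtain ⟨P₁, hP₁⟩ := (Dm_poly F G 0 b).1
  obtain ⟨P₂, hP₂⟩ := (Dm_poly F G b y).1
  obtain ⟨P₄, hP₄⟩ := (Dm_poly F G 0 (b + y)).1
  have h3 : P₁ + P₂ = C (Dm F G b y) + P₄ := poly_ext_k fun t => by
    rw [eval_add, eval_add, hP₁, hP₂, eval_C, hP₄, zero_add, add_comm b]
    exact h2 t b y
  have h4 := congrArg (eval a) h3
  rwa [eval_add, eval_add, hP₁, hP₂, eval_C, hP₄, zero_add, add_comm b] at h4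

/-- **`U` as a polynomial, and the displacement**: for `τ x = x + X`, `x = w - w₀`,
`U(X) + (τ U)(t) - U(X + t) = δ(X, t)`. -/
theorem FrU.exists_poly [Infinite k] (h : FrU v W w u T U δ T₂) :
    ∃ w₀ ∈ W, ∃ (ι : Type) (_ : Fintype ι) (F G : ι → k[X]) (P : Polynomial Ω),
      (∀ s t, δ s t = ∑ i, (F i).eval s * (G i).eval t) ∧ P ∈ PI (cadj v W w) ∧
      (∀ s : k, P.eval (algebraMap k Ω s) = U s) ∧
      (∀ t : Ω, P.eval t = Dm F G t (-(w - w₀) - t)) ∧
      ∀ (τ : Ω →ₐ[k] Ω) (D : Ω), τ (w - w₀) = w - w₀ + D →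
        ∀ t : Ω, P.eval D + (P.map (τ : Ω →+* Ω)).eval t - P.eval (D + t) = Dm F G D t := by
  obtain ⟨w₀, hw₀, ι, hι, F, G, hFG, hU⟩ := h.lm
  obtain ⟨P, hP⟩ : ∃ P : Polynomial Ω, P = ∑ i, (F i).map (algebraMap k Ω) *
      ((G i).map (algebraMap k Ω)).comp (C (-(w - w₀)) - X) := ⟨_, rfl⟩
  have hPe : ∀ t : Ω, P.eval t = Dm F G t (-(w - w₀) - t) := fun t => by
    rw [hP, eval_finsetSum]
    unfold Dm
    exact Finset.sum_congr rfl fun i _ => by
      rw [eval_mul, eval_comp, eval_sub, eval_C, eval_X]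
  have hx : w - w₀ ∈ cadj v W w := sub_mem (self_mem_cadj v W w) (le_cadj v W w hw₀)
  refine ⟨w₀, hw₀, ι, hι, F, G, P, hFG, ?_, fun s => ?_, hPe, fun τ D hτ t => ?_⟩
  · rw [hP]
    refine sum_mem fun i _ => mul_mem (fun j => ?_) ?_
    · rw [coeff_map]
      exact (cadj v W w).algebraMap_mem _
    · rw [comp, eval₂_eq_sum_range]
      refine sum_mem fun j _ => mul_mem (C_mem_PI ?_) (pow_mem (sub_mem (C_mem_PI (neg_mem hx))
        X_mem_PI) _)
      rw [coeff_map]
      exact (cadj v W w).algebraMap_mem _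
  · rw [hPe, Dm_k, hU]
  · have hτe : (P.map (τ : Ω →+* Ω)).eval t = Dm F G t (-(w - w₀) - D - t) := by
      rw [hP, Polynomial.map_sum, eval_finsetSum]
      unfold Dm
      refine Finset.sum_congr rfl fun i _ => ?_
      have e1 : ∀ q : k[X], (q.map (algebraMap k Ω)).map (τ : Ω →+* Ω) = q.map (algebraMap k Ω) := by
        intro q
        rw [Polynomial.map_map]
        congr 1
        ext c
        exact τ.commutes c
      rw [Polynomial.map_mul, Polynomial.map_comp, e1, e1, eval_mul, eval_comp, Polynomial.map_sub,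
        map_C, map_X, eval_sub, eval_C, eval_X]
      congr 2
      change τ (-(w - w₀)) - t = _
      rw [map_neg, hτ]
      ring
    rw [hPe, hPe, hτe]
    have h1 := Dm_cocy (Ω := Ω) hFG h.cocy D t (-(w - w₀) - D - t)
    have e1 : t + (-(w - w₀) - D - t) = -(w - w₀) - D := by ring
    have e2 : -(w - w₀) - (D + t) = -(w - w₀) - D - t := by ring
    rw [e1] at h1
    rw [e2]
    linear_combination -h1

end Pool.Agent.TWRZ
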