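import Pool.Agent.Lib.TWRZ.GF
import Pool.Agent.Lib.TWRZ.Law
import Pool.Agent.Lib.TWRL.Main

/-!
# TANK W, row (Ru.Z), (4): the strict points form a group; adapters to the group steps

* `Ss_mul`, `Ss_one`: the strict points are closed under the law and contain the unit;
* `PP_law`: the law of the next floor is polynomial;
* `mem_PP1`, `mem_PP2`: the functions of the floors are the polynomials in two, three variables;
* `PP_bi`, `PP_l3`, ...: the cocycle in the form asked by the group steps `TWRL.G1`, `TWRL.G2`.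
-/

set_option autoImplicit false

open Polynomial

namespace Pool.Agent.TWRZ

open Pool.Agent.H15JM (RVal)
open Pool.Agent.D2 (Ctx0)
open Pool.Agent.TWM
open Pool.Agent.TWS
open Pool.Agent.TWCT (StrM)

universe u

/-! ### The strict points -/

section Group

variable {k Ω : Type u} [Field k] [Field Ω] [Algebra k Ω] {v : RVal Ω} {X : Type*}
  {L : IntermediateField k Ω} {T : X → (Ω →ₐ[k] Ω)} {A A' : Ω →ₐ[k] Ω} {d s : ℝ} {w : Ω}
  {m : X → X → X}

theorem iso_comp (hA : IsoE v v A) (hA' : IsoE v v A') : IsoE v v (A.comp A') := ⟨fun a ha => by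
  rw [AlgHom.comp_apply, hA.val _ (IsoE.ne_zero ha), hA'.val _ ha]⟩

theorem strM_comp (hA : IsoE v v A) (h : StrM v A L d) (h' : StrM v A' L d) :
    StrM v (A.comp A') L d := fun f hf r hr => by
  have h1 := hA.ge_iff.2 (h' f hf r hr)
  rw [map_sub] at h1
  have h2 := h1.add (h f hf r hr)
  rwa [sub_add_sub_cancel] at h2

theorem Ss_mul (hiso : ∀ x, IsoE v v (T x))
    (hlaw : ∃ μ : ℝ, 0 < μ ∧ ∀ x x', NrM v ((T x).comp (T x')) (T (m x x')) L μ) {x x' : X}
    (hx : x ∈ Ss v L T) (hx' : x' ∈ Ss v L T) : m x x' ∈ Ss v L T := by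
  obtain ⟨μ, hμ, hlaw⟩ := hlaw
  obtain ⟨d, hd, h⟩ := hx
  obtain ⟨d', hd', h'⟩ := hx'
  refine ⟨min μ (min d d'), lt_min hμ (lt_min hd hd'), fun f hf r hr => ?_⟩
  have h1 := strM_comp (hiso x) (h.mono (min_le_left d d')) (h'.mono (min_le_right d d'))
    f hf r hr
  have h2 := (hlaw x x').symm f hf r hr
  have h3 := (h2.mono (by linarith [min_le_left μ (min d d')] :
    r + min μ (min d d') ≤ r + μ)).add
    (h1.mono (by linarith [min_le_right μ (min d d')]))
  rwa [sub_add_sub_cancel] at h3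

theorem Ss_one {x : X} (h : ∀ f ∈ L, T x f = f) : x ∈ Ss v L T :=
  ⟨1, one_pos, fun f hf r _ => by rw [h f hf, sub_self]; exact RVal.Ge.zero⟩

/-- An isometric embedding trivial on `L` and at `w` is trivial on `cadj v L w`. -/
theorem id_cadj [IsAlgClosed Ω] (hw : TL v L w s) (hA : IsoE v v A) (h : ∀ f ∈ L, A f = f)
    (hAw : A w = w) : ∀ f ∈ cadj v L w, A f = f := by
  intro f hf
  by_contra hne
  obtain ⟨c, hc, hwc⟩ := hw.lim 1 one_pos
  have h0 : f ≠ 0 := fun h0 => hne (by rw [h0, map_zero])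
  have hid : IsoE v v (AlgHom.id k Ω) := ⟨fun a _ => rfl⟩
  set e : ℝ := max 0 (v (A f - f) - v f + 1) with he
  have h1 : NrM v A (AlgHom.id k Ω) L (e + 1) := fun g hg r _ => by
    rw [h g hg, AlgHom.id_apply, sub_self]
    exact RVal.Ge.zero
  have h2 := NrM.tl hw hA hid h1 (le_max_left _ _ : (0 : ℝ) ≤ e) (zero_le_one : (0 : ℝ) ≤ 1)
    le_rfl hc hwc (by
      rw [hAw, h c hc]
      simp only [AlgHom.id_apply, sub_self]
      exact RVal.Ge.zero) f hf (v f) (fun _ => le_rfl)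
  rw [AlgHom.id_apply] at h2
  have h3 := h2 (sub_ne_zero.2 hne)
  linarith [le_max_right 0 (v (A f - f) - v f + 1)]

/-- The unit of the next floor is strict. -/
theorem Ss_one_up [IsAlgClosed Ω] (hw : TL v L w s) {x : X} (hT : IsoE v v (T x))
    (h : ∀ f ∈ L, T x f = f) (hV : T x w = w) : x ∈ Ss v (cadj v L w) T :=
  Ss_one (id_cadj hw hT h hV)

end Group

/-! ### Algebras of functions -/

section Fun

variable {k : Type*} [Field k] {X Y : Type*} {R : Subalgebra k (X → k)}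

theorem const_mem (S : Subalgebra k (Y → k)) (a : k) : (fun _ => a : Y → k) ∈ S :=
  S.algebraMap_mem a

/-- The two descriptions of the functions of two variables agree. -/
theorem RR_eq_PP (R : Subalgebra k (X → k)) : RR R = PP R R := by
  refine le_antisymm (sup_le (fun ψ hψ => ?_) fun ψ hψ => ?_) fun ψ hψ => ?_
  · obtain ⟨φ, hφ, rfl⟩ := Subalgebra.mem_map.1 hψ
    exact fst_mem_PP hφ
  · obtain ⟨φ, hφ, rfl⟩ := Subalgebra.mem_map.1 hψ
    exact snd_mem_PP hφ
  · exact PP_comp (γ := fun y : X × X => y.1) (γ' := fun y : X × X => y.2)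
      (fun φ hφ => fst_mem hφ) (fun φ hφ => snd_mem hφ) hψ

theorem PP_left {δ : X × X → k} (h : δ ∈ PP R R) (x' : X) : (fun x => δ (x, x')) ∈ R :=
  PP_comp (γ := fun x => x) (γ' := fun _ => x') (fun _ hφ => hφ) (fun φ _ => const_mem R (φ x')) h

theorem PP_right {δ : X × X → k} (h : δ ∈ PP R R) (x : X) : (fun x' => δ (x, x')) ∈ R :=
  PP_comp (γ := fun _ => x) (γ' := fun x' => x') (fun φ _ => const_mem R (φ x)) (fun _ hφ => hφ) h

/-- **The law of the next floor is polynomial.** -/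
theorem PP_law {m : X → X → X} {del : X × X → k}
    (hm : ∀ φ ∈ R, (fun y : X × X => φ (m y.1 y.2)) ∈ PP R R) (hdel : del ∈ PP R R) :
    ∀ φ ∈ PP R (Pk k), (fun y : (X × k) × (X × k) =>
      φ (m y.1.1 y.2.1, y.1.2 + y.2.2 + del (y.1.1, y.2.1))) ∈ PP (PP R (Pk k)) (PP R (Pk k)) := by
  intro φ hφ
  have h1 : ∀ δ ∈ PP R R, (fun y : (X × k) × (X × k) => δ (y.1.1, y.2.1)) ∈
      PP (PP R (Pk k)) (PP R (Pk k)) := fun δ hδ =>
    PP_comp (γ := fun y : (X × k) × (X × k) => y.1.1) (γ' := fun y => y.2.1)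
      (fun ψ hψ => fst_mem_PP (φ := fun y : X × k => ψ y.1) (fst_mem_PP hψ))
      (fun ψ hψ => snd_mem_PP (ψ := fun y : X × k => ψ y.1) (fst_mem_PP hψ)) hδ
  have h2 : (fun y : X × k => y.2) ∈ PP R (Pk k) := snd_mem_PP (ψ := fun t : k => t) id_mem_Pk
  have h3 : (fun y : (X × k) × (X × k) => y.1.2 + y.2.2 + del (y.1.1, y.2.1)) ∈
      PP (PP R (Pk k)) (PP R (Pk k)) :=
    add_mem (add_mem (fst_mem_PP h2) (snd_mem_PP h2)) (h1 _ hdel)
  exact PP_comp (γ := fun y : (X × k) × (X × k) => m y.1.1 y.2.1)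
    (γ' := fun y : (X × k) × (X × k) => y.1.2 + y.2.2 + del (y.1.1, y.2.1))
    (fun ψ hψ => h1 _ (hm ψ hψ)) (fun ψ hψ => Pk_comp h3 hψ) hφ

/-- The addition is polynomial. -/
theorem Pk_law : ∀ φ ∈ Pk k, (fun y : k × k => φ (y.1 + y.2)) ∈ PP (Pk k) (Pk k) := fun _ hφ =>
  Pk_comp (f := fun y : k × k => y.1 + y.2)
    (add_mem (fst_mem_PP (φ := fun t : k => t) id_mem_Pk)
      (snd_mem_PP (ψ := fun t : k => t) id_mem_Pk)) hφ

/-- The same for the functions `RR R` of `law_up`. -/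
theorem RR_law {m : X → X → X} {del : X × X → k}
    (hm : ∀ φ ∈ R, (fun y : X × X => φ (m y.1 y.2)) ∈ RR R) (hdel : del ∈ RR R) :
    ∀ φ ∈ PP R (Pk k), (fun y : (X × k) × (X × k) =>
      φ (m y.1.1 y.2.1, y.1.2 + y.2.2 + del (y.1.1, y.2.1))) ∈ RR (PP R (Pk k)) := by
  rw [RR_eq_PP] at *
  exact PP_law hm hdel

/-- The functions on `X × k` are the polynomials in the last coordinate. -/
theorem mem_PP_iff {A : Type*} [CommRing A] [Algebra k A] (ev : X → (A →ₐ[k] k))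
    (hR : ∀ φ : X → k, φ ∈ R ↔ ∃ a, ∀ x, φ x = ev x a) (ψ : X × k → k) :
    ψ ∈ PP R (Pk k) ↔ ∃ P : A[X], ∀ x c, ψ (x, c) = (P.map (ev x).toRingHom).eval c := by
  constructor
  · rintro ⟨ι, hι, φ, χ, h1, h2, h3⟩
    choose a ha using fun i => (hR _).1 (h1 i)
    choose F hF using h2
    refine ⟨∑ i, C (a i) * (F i).map (algebraMap k A), fun x c => ?_⟩
    rw [h3, Polynomial.map_sum, eval_finsetSum]
    refine Finset.sum_congr rfl fun i _ => ?_
    rw [Polynomial.map_mul, Polynomial.map_C, eval_mul, eval_C, Polynomial.map_map]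
    have h4 : (ev x).toRingHom.comp (algebraMap k A) = RingHom.id k := by
      ext r; simp
    rw [h4, Polynomial.map_id, ← hF]
    simp only []
    rw [ha]
    rfl
  · rintro ⟨P, hP⟩
    have h1 : ψ = fun z : X × k => (P.map (ev z.1).toRingHom).eval z.2 := funext fun z => hP z.1 z.2
    rw [h1]
    clear hP h1
    induction P using Polynomial.induction_on' with
    | add P Q hP hQ =>
      have h2 := add_mem hP hQ
      have h3 : (fun z : X × k => ((P + Q).map (ev z.1).toRingHom).eval z.2) =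
          (fun z : X × k => (P.map (ev z.1).toRingHom).eval z.2) +
            fun z : X × k => (Q.map (ev z.1).toRingHom).eval z.2 := by
        funext z
        rw [Polynomial.map_add, eval_add]
        rfl
      rw [h3]
      exact h2
    | monomial n a =>
      have h3 : (fun z : X × k => ((monomial n a).map (ev z.1).toRingHom).eval z.2) =
          (fun z : X × k => ev z.1 a) * (fun z : X × k => z.2) ^ n := by
        funext z
        rw [Polynomial.map_monomial, eval_monomial]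
        rfl
      rw [h3]
      exact mul_mem (fst_mem_PP ((hR _).2 ⟨a, fun _ => rfl⟩))
        (pow_mem (snd_mem_PP (ψ := fun t : k => t) id_mem_Pk) n)

/-- The functions on `k × k` are the polynomials in two variables. -/
theorem mem_PP1 (ψ : k × k → k) :
    ψ ∈ PP (Pk k) (Pk k) ↔ ∃ P : k[X][X], ∀ s c, ψ (s, c) = TWRL.ev2 s c P := by
  rw [mem_PP_iff (A := k[X]) (fun s => aeval (R := k) s) (fun φ => by
    rw [mem_Pk]
    exact exists_congr fun F => forall_congr' fun s => by rw [coe_aeval_eq_eval])]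
  refine exists_congr fun P => forall_congr' fun s => forall_congr' fun c => ?_
  have h1 : (aeval (R := k) s : k[X] →ₐ[k] k).toRingHom = evalRingHom s := by
    ext <;> simp
  rw [h1]
  rfl

/-- The functions on `(k × k) × k` are the polynomials in three variables. -/
theorem mem_PP2 (χ : (k × k) × k → k) : χ ∈ PP (PP (Pk k) (Pk k)) (Pk k) ↔
    ∃ P : k[X][X][X], ∀ s c e, χ ((s, c), e) = TWRL.ev3 s c e P := by
  let ev : k × k → (k[X][X] →ₐ[k] k) := fun z =>
    { toRingHom := (evalRingHom z.2).comp (mapRingHom (evalRingHom z.1))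
      commutes' := fun r => by
        rw [Polynomial.algebraMap_apply]
        simp }
  rw [mem_PP_iff (A := k[X][X]) ev (fun ψ => by
    rw [mem_PP1]
    exact exists_congr fun P => ⟨fun h z => h z.1 z.2, fun h s c => h (s, c)⟩)]
  exact exists_congr fun P => ⟨fun h s c e => h (s, c) e, fun h z e => h z.1 z.2 e⟩

/-- The cocycle on the line in the form of `TWRL.G1`. -/
theorem PP_bi {δ : k → k → k} (h : (fun y : k × k => δ y.1 y.2) ∈ PP (Pk k) (Pk k)) :
    TWRL.Bi δ where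
  l s' := PP_left h s'
  r s := PP_right h s
  d x y := PP_comp (A := Pk k) (γ := fun t => x * t) (γ' := fun t => y * t)
    (fun _ hφ => Pk_comp (mul_mem (const_mem _ x) id_mem_Pk) hφ)
    (fun _ hφ => Pk_comp (mul_mem (const_mem _ y) id_mem_Pk) hφ) h

/-- The cocycle on `k × k` in the form of `TWRL.G2`. -/
theorem PP_l3 {δ : k × k → k × k → k}
    (h : (fun y : (k × k) × (k × k) => δ y.1 y.2) ∈ PP (PP (Pk k) (Pk k)) (PP (Pk k) (Pk k)))
    (b' : k × k) : ∃ F : k[X][X], ∀ s c, δ (s, c) b' = TWRL.ev2 s c F :=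
  (mem_PP1 _).1 (PP_left h b')

theorem PP_r3 {δ : k × k → k × k → k}
    (h : (fun y : (k × k) × (k × k) => δ y.1 y.2) ∈ PP (PP (Pk k) (Pk k)) (PP (Pk k) (Pk k)))
    (b : k × k) : ∃ E : k[X][X], ∀ s' c', δ b (s', c') = TWRL.ev2 s' c' E :=
  (mem_PP1 _).1 (PP_right h b)

/-- The second axis. -/
theorem axis_mem (a : k) : ∀ φ ∈ PP (Pk k) (Pk k), (fun t : k => φ (0, a * t)) ∈ Pk k :=
  fun _ hφ => PP_comp (γ := fun _ : k => (0 : k)) (γ' := fun t : k => a * t)
    (fun _ h1 => Pk_comp (zero_mem _) h1)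
    (fun _ h1 => Pk_comp (mul_mem (const_mem _ a) id_mem_Pk) h1) hφ

theorem PP_d3 {δ : k × k → k × k → k}
    (h : (fun y : (k × k) × (k × k) => δ y.1 y.2) ∈ PP (PP (Pk k) (Pk k)) (PP (Pk k) (Pk k)))
    (x y : k) : ∃ F : k[X], ∀ t, δ (0, x * t) (0, y * t) = F.eval t :=
  PP_comp (A := Pk k) (γ := fun t => ((0 : k), x * t)) (γ' := fun t => ((0 : k), y * t))
    (axis_mem x) (axis_mem y) h

/-- Density in the form of `TWRL.G2`. -/
theorem dense_poly [Infinite k] {S : Set (k × k)} (h : ∀ x, Zc (PP (Pk k) (Pk k)) S x)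
    (P : k[X][X]) (hP : ∀ x ∈ S, TWRL.ev2 x.1 x.2 P = 0) : P = 0 := by
  have h1 : ∀ s c, TWRL.ev2 s c P = 0 := fun s c =>
    h (s, c) (fun z => TWRL.ev2 z.1 z.2 P) ((mem_PP1 _).2 ⟨P, fun _ _ => rfl⟩) hP
  ext i j
  have h2 : ∀ s : k, P.map (evalRingHom s) = 0 := fun s => Polynomial.funext fun c => by
    rw [eval_zero]
    exact h1 s c
  have h3 : P.coeff i = 0 := Polynomial.funext fun s => by
    have h4 := congrArg (fun Q => Polynomial.coeff Q i) (h2 s)
    simpa only [coeff_map, coe_evalRingHom, coeff_zero, eval_zero] using h4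
  rw [h3]
  simp

/-- A point where the polynomials vanishing on `S` vanish is in the closure of `S`. -/
theorem zc_of_ev2 {S : Set (k × k)} {z : k × k}
    (h : ∀ P : k[X][X], (∀ x ∈ S, TWRL.ev2 x.1 x.2 P = 0) → TWRL.ev2 z.1 z.2 P = 0) :
    Zc (PP (Pk k) (Pk k)) S z := by
  intro φ hφ h1
  obtain ⟨P, hP⟩ := (mem_PP1 φ).1 hφ
  have h2 := h P fun x hx => by
    rw [← hP]
    exact h1 x hx
  rw [← hP] at h2
  exact h2

theorem zc_of_ev3 {S : Set ((k × k) × k)} {z : (k × k) × k}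
    (h : ∀ P : k[X][X][X], (∀ x ∈ S, TWRL.ev3 x.1.1 x.1.2 x.2 P = 0) →
      TWRL.ev3 z.1.1 z.1.2 z.2 P = 0) :
    Zc (PP (PP (Pk k) (Pk k)) (Pk k)) S z := by
  intro φ hφ h1
  obtain ⟨P, hP⟩ := (mem_PP2 φ).1 hφ
  have h2 := h P fun x hx => by
    rw [← hP]
    exact h1 x hx
  rw [← hP] at h2
  exact h2

end Fun

/-! ### The law, with the functions `PP R R` -/

section LawP

variable {k Ω : Type u} [Field k] [Field Ω] [Algebra k Ω] {v : RVal Ω} {X : Type*}
  {L : IntermediateField k Ω} {R : Subalgebra k (X → k)} {T : X → (Ω →ₐ[k] Ω)}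
  {m : X → X → X} {V : X → Ω} {w : Ω} {s : ℝ} [IsAlgClosed Ω]

/-- `law_up` in terms of `PP R R` and `Att`. -/
theorem law_upP (hk : Ctx0 k v) (hF : Fam v L R T) (hw : TL v L w 0)
    (hm : ∀ φ ∈ R, (fun y : X × X => φ (m y.1 y.2)) ∈ PP R R)
    (hlaw : ∃ μ : ℝ, 0 < μ ∧ ∀ x x', NrM v ((T x).comp (T x')) (T (m x x')) L μ)
    (hV : Pl v L R V) (hVL : ∀ x, V x ∈ L) (hnear : Att v L T w 0 V) :
    ∃ del : X × X → k, del ∈ PP R R ∧
      (∀ x₀ : X, (∀ f ∈ L, T x₀ f = f) → V x₀ = 0 →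
        (∀ x, m x₀ x = x → del (x₀, x) = 0) ∧ ∀ x, m x x₀ = x → del (x, x₀) = 0) ∧
      ∀ T' : X × k → (Ω →ₐ[k] Ω), (∀ y, IsoE v v (T' y)) → (∀ y, ∀ f ∈ L, T' y f = T y.1 f) →
        (∀ y, T' y w = w + V y.1 + algebraMap k Ω y.2) →
        ∃ μ' : ℝ, 0 < μ' ∧ ∀ y y' : X × k, NrM v ((T' y).comp (T' y'))
          (T' (m y.1 y'.1, y.2 + y'.2 + del (y.1, y'.1))) (cadj v L w) μ' := by
  rw [← RR_eq_PP] at *
  refine law_up hk hF hw hm hlaw hV hVL fun ε hε => ?_
  obtain ⟨η, hη, h⟩ := hnear ε hε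
  rw [zero_sub, zero_sub] at h
  exact ⟨η, hη, h⟩

/-- `law_up0` in terms of `PP R R` and `Att`. -/
theorem law_up0P (hk : Ctx0 k v) (hF : Fam v L R T) (hw : TL v L w s)
    (hs : ∀ f ∈ L, f ≠ 0 → v f ≠ s)
    (hm : ∀ φ ∈ R, (fun y : X × X => φ (m y.1 y.2)) ∈ PP R R)
    (hlaw : ∃ μ : ℝ, 0 < μ ∧ ∀ x x', NrM v ((T x).comp (T x')) (T (m x x')) L μ)
    (hV : Pl v L R V) (hVL : ∀ x, V x ∈ L) (hnear : Att v L T w s V)
    (T' : X → (Ω →ₐ[k] Ω)) (hiso : ∀ y, IsoE v v (T' y)) (hT' : ∀ y, ∀ f ∈ L, T' y f = T y f)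
    (hT'w : ∀ y, T' y w = w + V y) :
    ∃ μ' : ℝ, 0 < μ' ∧ ∀ y y' : X, NrM v ((T' y).comp (T' y')) (T' (m y y')) (cadj v L w) μ' := by
  rw [← RR_eq_PP] at *
  exact law_up0 hk hF hw hs hm hlaw hV hVL hnear T' hiso hT' hT'w

end LawP

end Pool.Agent.TWRZ
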