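import Pool.Agent.Lib.TWRZ.Out
import Pool.Agent.Lib.TWRZ.Law2

/-!
# TANK W, (Ru.Z): coefficients in a dense set, the gain of the cocycle

* `P0.approx`, `Att.approx`: the motion `V` has its coefficients in a given dense set;
* `gain_of_law`: the cocycle of `V` is `del` up to a uniform gain, if the law is exact one floor below;
* `hco_of_gain`: the same for the coefficients, in the form of `near_z`.
-/

set_option autoImplicit false

open Polynomial

namespace Pool.Agent.TWRZ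

open Pool.Agent.H15JM (RVal)
open Pool.Agent.D2 (Ctx0)
open Pool.Agent.D2P (clI mem_clI)
open Pool.Agent.TWM
open Pool.Agent.TWS
open Pool.Agent.TWCT (StrM eq_on_cadj)

universe u

variable {k Ω : Type u} [Field k] [Field Ω] [Algebra k Ω] {v : RVal Ω} {X : Type*}
  {L : IntermediateField k Ω} {R : Subalgebra k (X → k)} {T : X → Ω →ₐ[k] Ω} {V : X → Ω} {w : Ω}
  {ρ : ℝ}

/-- **Coefficients in a dense set.** -/
theorem P0.approx (h0 : Ctx0 k v) (hV : P0 L R V) {x₀ : X} (hV0 : V x₀ = 0)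
    {A₀ : Set Ω} (hd : ∀ f ∈ L, ∀ B : ℝ, ∃ g ∈ A₀, v.Ge B (f - g)) (B : ℝ) :
    ∃ (ι : Type) (_ : Fintype ι) (φ : ι → X → k) (c : ι → Ω), (∀ i, φ i ∈ R) ∧ (∀ i, c i ∈ A₀) ∧
      (∀ i, φ i x₀ = 0) ∧ ∀ x, v.Ge B (V x - ∑ i, algebraMap k Ω (φ i x) * c i) := by
  classical
  obtain ⟨ι, hι, φ, c, h1, h2, h3⟩ := hV
  choose g hg hg' using fun i => hd (c i) (h2 i) B
  refine ⟨ι, hι, fun i x => φ i x - φ i x₀, g, fun i => sub_mem (h1 i) (const_mem R _), hg,
    fun i => sub_self _, fun x => ?_⟩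
  have e : V x - ∑ i, algebraMap k Ω (φ i x - φ i x₀) * g i =
      ∑ i, algebraMap k Ω (φ i x - φ i x₀) * (c i - g i) := by
    have e1 : V x = V x - V x₀ := by rw [hV0, sub_zero]
    rw [e1, h3 x, h3 x₀, ← Finset.sum_sub_distrib, ← Finset.sum_sub_distrib]
    refine Finset.sum_congr rfl fun i _ => ?_
    rw [map_sub]
    ring
  rw [e]
  refine RVal.Ge.sum _ _ fun i _ => ?_
  have h4 := (h0.ge (φ i x - φ i x₀)).mul (hg' i)
  rwa [zero_add] at h4

theorem Att.approx (h : Att v L T w ρ V) {V' : X → Ω} (h1 : ∀ x, v.Ge ρ (V x - V' x)) :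
    Att v L T w ρ V' := fun ε hε => (h ε hε).mono fun θ _ h2 x => by
  have e : T x θ - θ - V' x = (T x θ - θ - V x) + (V x - V' x) := by ring
  rw [e]
  exact (h2 x).add ((h1 x).mono (by linarith))

/-- **The motion of `w` has its coefficients in a dense set.** -/
theorem Fam.attS (h0 : Ctx0 k v) (hF : Fam v L R T) (hS : ∀ x, Zc R (Ss v L T) x)
    (hw : Lim v L ρ w) (hsh : FSh v L R T w ρ) {A₀ : Set Ω}
    (hd : ∀ f ∈ L, ∀ B : ℝ, ∃ g ∈ A₀, v.Ge B (f - g)) {x₀ : X} (hx₀ : ∀ f ∈ L, T x₀ f = f) :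
    ∃ (ι : Type) (_ : Fintype ι) (φ : ι → X → k) (c : ι → Ω), (∀ i, φ i ∈ R) ∧ (∀ i, c i ∈ A₀) ∧
      (∀ i, φ i x₀ = 0) ∧ Att v L T w ρ fun x => ∑ i, algebraMap k Ω (φ i x) * c i := by
  obtain ⟨V, hV, hV0, hatt⟩ := Fam.att h0 hS hw hsh (L₀ := L) (fun f hf B => ⟨f, hf, by
    rw [sub_self]
    exact RVal.Ge.zero⟩) hx₀ hF.mem
  obtain ⟨ι, hι, φ, c, h1, h2, h3, h4⟩ := hV.approx h0 hV0 hd ρ
  exact ⟨ι, hι, φ, c, h1, h2, h3, hatt.approx h4⟩

/-- **The gain of the cocycle.** -/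
theorem gain_of_law {m : X → X → X} {T' : X × k → Ω →ₐ[k] Ω} {del : X × X → k} {μ : ℝ}
    (hμ : 0 < μ) (hF : ∀ x, ∀ f ∈ L, T x f ∈ L) (hV : ∀ x, V x ∈ L) (hw : Lim v L 0 w)
    (hT' : ∀ y, ∀ f ∈ L, T' y f = T y.1 f)
    (hw' : ∀ y, T' y w = w + V y.1 + algebraMap k Ω y.2)
    (hlaw : ∀ y y' : X × k, NrM v ((T' y).comp (T' y'))
      (T' (m y.1 y'.1, y.2 + y'.2 + del (y.1, y'.1))) (cadj v L w) μ)
    {x x' : X} (hex : ∀ f ∈ L, T x (T x' f) = T (m x x') f) :
    v.Ge (μ / 2) (V x + T x (V x') - V (m x x') - algebraMap k Ω (del (x, x'))) := by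
  obtain ⟨θ, hθ, h1⟩ := hw (μ / 2) (half_pos hμ)
  have h2 := hlaw (x, 0) (x', 0) (w - θ) (sub_mem (self_mem_cadj v L w) (le_cadj v L w hθ)) _ h1
  have e1 : ((T' (x, 0)).comp (T' (x', 0))) (w - θ) -
      T' (m x x', 0 + 0 + del (x, x')) (w - θ) =
      V x + T x (V x') - V (m x x') - algebraMap k Ω (del (x, x')) := by
    rw [AlgHom.comp_apply, map_sub, hw', map_sub, map_add, map_add, hw', AlgHom.commutes,
      hT' (x', 0) θ hθ, hT' (x, 0) _ (hF _ _ hθ), hT' (x, 0) _ (hV _), map_sub, hw',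
      hT' _ θ hθ]
    simp only [zero_add, map_zero, add_zero]
    rw [hex θ hθ]
    ring
  simp only at h2
  rw [e1] at h2
  exact h2.mono (by linarith)

/-- The values of a polynomial on `k` bound its coefficients. -/
theorem coeff_ge [Infinite k] (h0 : Ctx0 k v) {P : Polynomial Ω} {b : ℝ}
    (h : ∀ t : k, v.Ge b (P.eval (algebraMap k Ω t))) (l : ℕ) : v.Ge b (P.coeff l) :=
  (xp_poly (v := v) (g := fun t => P.eval (algebraMap k Ω t)) (U := P) fun _ => rfl).coef_ge h0 h l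

/-- **The gain, coefficient by coefficient**: the form of `near_z`. -/
theorem hco_of_gain [Infinite k] (h0 : Ctx0 k v) {N : IntermediateField k Ω} {y : Ω}
    {A : k → Ω →ₐ[k] Ω} (hAN : ∀ t, ∀ f ∈ N, A t f = f) (hAy : ∀ t, A t y = y + algebraMap k Ω t)
    {D : ℕ → Ω → Ω} (hD : ∀ m : ℕ, ∀ f ∈ PI N, D m (f.eval y) = (hasseDeriv m f).eval y)
    {V : Polynomial Ω} (hV : ∀ l, ∃ f ∈ PI N, V.coeff l = f.eval y) {η : ℝ}
    (h : ∀ s s' : k, v.Ge η (V.eval (algebraMap k Ω s) + A s (V.eval (algebraMap k Ω s')) -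
      V.eval (algebraMap k Ω (s + s')))) {l m : ℕ} (hl : l ≠ 0) :
    v.Ge η (D m (V.coeff l) - (((l + m).choose m : ℕ) : Ω) * V.coeff (l + m)) := by
  classical
  choose F hF hFV using hV
  obtain ⟨n, hn⟩ : ∃ n, n = V.natDegree + 1 := ⟨_, rfl⟩
  have hVe : ∀ x : Ω, V.eval x = ∑ i ∈ Finset.range n, V.coeff i * x ^ i := fun x => by
    rw [eval_eq_sum_range, hn]
  have hA : ∀ (s : k) (i : ℕ), A s (V.coeff i) = (taylor y (F i)).eval (algebraMap k Ω s) := by
    intro s i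
    rw [hFV, taylor_eval, add_comm (algebraMap k Ω s), ← hAy s, eval_eq_sum_range,
      eval_eq_sum_range, map_sum]
    exact Finset.sum_congr rfl fun j _ => by rw [map_mul, map_pow, hAN s _ (hF i j)]
  -- the first variable
  have h1 : ∀ s' : k, v.Ge η ((V + ∑ i ∈ Finset.range n,
      taylor y (F i) * C (algebraMap k Ω s' ^ i) - taylor (algebraMap k Ω s') V).coeff m) := by
    intro s'
    refine coeff_ge h0 (fun s => ?_) m
    have h2 := h s s'
    rw [hVe (algebraMap k Ω s'), map_sum, map_add] at h2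
    have e : (V + ∑ i ∈ Finset.range n, taylor y (F i) * C (algebraMap k Ω s' ^ i) -
        taylor (algebraMap k Ω s') V).eval (algebraMap k Ω s) =
        V.eval (algebraMap k Ω s) + ∑ i ∈ Finset.range n,
          A s (V.coeff i * algebraMap k Ω s' ^ i) -
          V.eval (algebraMap k Ω s + algebraMap k Ω s') := by
      rw [eval_sub, eval_add, eval_finsetSum, taylor_eval]
      congr 2
      refine Finset.sum_congr rfl fun i _ => ?_
      rw [eval_mul, eval_C, map_mul, map_pow, AlgHom.commutes, hA]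
    rw [e]
    exact h2
  -- the second variable
  have h3 := coeff_ge h0 (P := C (V.coeff m) + ∑ i ∈ Finset.range n,
    C ((hasseDeriv m (F i)).eval y) * X ^ i - hasseDeriv m V) (b := η) (fun s' => by
      have h4 := h1 s'
      rw [coeff_sub, coeff_add, finsetSum_coeff, taylor_coeff] at h4
      rw [eval_sub, eval_add, eval_C, eval_finsetSum]
      refine (congrArg (v.Ge η) ?_).mp h4
      congr 2
      refine Finset.sum_congr rfl fun i _ => ?_
      rw [coeff_mul_C, taylor_coeff, eval_mul, eval_C, eval_pow, eval_X]) l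
  rw [coeff_sub, coeff_add, coeff_C, if_neg hl, zero_add, hasseDeriv_coeff, finsetSum_coeff] at h3
  have e : ∑ i ∈ Finset.range n, (C ((hasseDeriv m (F i)).eval y) * X ^ i).coeff l =
      D m (V.coeff l) := by
    by_cases hln : l < n
    · rw [Finset.sum_eq_single_of_mem l (Finset.mem_range.2 hln), coeff_C_mul, coeff_X_pow,
        if_pos rfl, mul_one, hFV, hD m _ (hF l)]
      intro i _ hi
      rw [coeff_C_mul, coeff_X_pow, if_neg hi.symm, mul_zero]
    · have h5 : V.coeff l = 0 := coeff_eq_zero_of_natDegree_lt (by omega)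
      have h6 := hD m 0 (zero_mem _)
      rw [eval_zero, map_zero, eval_zero] at h6
      rw [h5, h6]
      refine Finset.sum_eq_zero fun i hi => ?_
      rw [coeff_C_mul, coeff_X_pow, if_neg (by
        rintro rfl
        exact hln (Finset.mem_range.1 hi)), mul_zero]
  rw [e] at h3
  exact h3

end Pool.Agent.TWRZ
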