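import Pool.Agent.Lib.TWRZ.BaseZ
import Pool.Agent.Lib.TWEX.KArc0

/-!
# TANK W, (Ru.Z), (Z6): dense subrings

`QVal v x F`: the values of `F` are commensurable with the value of `x`.  If `x ∈ N₀`, `v x ≠ 0` and the
values of `k(N₀, S)` are commensurable with the value of `x`, then `N₀[S]` is dense in the closure of
`k(N₀, S)` (`dense_adn`).  `cadj_le_adjoin`, `cadj_eq_adjoin`: generators of the floors; `den1`, `den2`,
`den3`: `N₀[y]`, `N₀[y, z]`, `N₀[y, z, z']` are dense in the closures; `AdnK`: `N₀[S]` as a `k`-space.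
-/

set_option autoImplicit false

open Polynomial

namespace Pool.Agent.TWRZ

open Pool.Agent.H15JM (RVal)
open Pool.Agent.LU1 (VPos adj)
open Pool.Agent.D2 (Ctx0)
open Pool.Agent.D2P (clI mem_clI mem_adj_iff mem_adj_self)
open Pool.Agent.TW (Ctx kr)
open Pool.Agent.TWM
open Pool.Agent.TWS (IsoE IsoE.ne_zero)
open Pool.Agent.TWEX (Adn)

universe u

section

variable {k Ω : Type u} [Field k] [Field Ω] [Algebra k Ω] {v : RVal Ω} {x : Ω}
  {F F' N₀ : IntermediateField k Ω} {S S' : Set Ω}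

/-! ### Commensurable values -/

/-- The values of `F` are commensurable with the value of `x`. -/
def QVal (v : RVal Ω) (x : Ω) (F : IntermediateField k Ω) : Prop :=
  ∀ f ∈ F, f ≠ 0 → ∃ (m : ℕ) (n : ℤ), m ≠ 0 ∧ (m : ℝ) * v f = n * v x

theorem QVal.mono (h : QVal v x F) (hF : F' ≤ F) : QVal v x F' := fun f hf => h f (hF hf)

theorem QVal.cl (h : QVal v x F) : QVal v x (clI v F) := by
  intro f hf hf0
  obtain ⟨c, hc, h1⟩ := mem_clI.1 hf (v f + 1)
  have h2 : Gt v (v f) (f - c) := Gt.of_ge h1 (by linarith)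
  obtain ⟨h3, h4⟩ := Gt.val_eq hf0 h2
  obtain ⟨m, n, hm, h5⟩ := h c hc h3
  exact ⟨m, n, hm, by rw [← h4, h5]⟩

theorem QVal.of_ctx (h : Ctx k v 1) (hx0 : x ≠ 0) (hxv : v x ≠ 0) (F : IntermediateField k Ω) :
    QVal v x F := fun _ _ hf0 => exists_comm_val h hx0 hxv hf0

theorem QVal.map {Ω' : Type u} [Field Ω'] [Algebra k Ω'] {w : RVal Ω'} {ι : Ω →ₐ[k] Ω'}
    (hι : IsoE v w ι) (hx0 : x ≠ 0) (h : QVal v x F) : QVal w (ι x) (F.map ι) := by
  rintro _ ⟨f, hf, rfl⟩ hf0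
  have hf0' : f ≠ 0 := fun h1 => hf0 (by
    change ι f = 0
    rw [h1, map_zero])
  obtain ⟨m, n, hm, h1⟩ := h f hf hf0'
  refine ⟨m, n, hm, ?_⟩
  change (m : ℝ) * w (ι f) = n * w (ι x)
  rw [hι.val f hf0', hι.val x hx0, h1]

/-- The values of the image of a field of rational rank one, and of its closure. -/
theorem QVal.of_map {Ω' : Type u} [Field Ω'] [Algebra k Ω'] {w : RVal Ω'} {ι : Ω →ₐ[k] Ω'}
    (h : Ctx k v 1) (hι : IsoE v w ι) (hx0 : x ≠ 0) (hxv : v x ≠ 0)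
    (F : IntermediateField k Ω) : QVal w (ι x) (clI w (F.map ι)) :=
  ((QVal.of_ctx h hx0 hxv F).map hι hx0).cl

/-! ### Density -/

/-- **Density of `N₀[S]`.** -/
theorem dense_adn (h : Ctx0 k v) (hxN : x ∈ N₀) (hx0 : x ≠ 0)
    (hq : QVal v x (IntermediateField.adjoin k ((N₀ : Set Ω) ∪ S)))
    (hF : F ≤ clI v (IntermediateField.adjoin k ((N₀ : Set Ω) ∪ S))) :
    ∀ a ∈ F, ∀ b : ℝ, ∃ g ∈ Adn N₀ S, v.Ge b (a - g) := by
  intro a ha b
  have hsub : ∀ r ∈ Algebra.adjoin k ((N₀ : Set Ω) ∪ S), r ∈ Adn N₀ S := by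
    intro r hr
    induction hr using Algebra.adjoin_induction with
    | mem z hz =>
      rcases hz with hz | hz
      · exact (Adn N₀ S).algebraMap_mem ⟨z, hz⟩
      · exact Algebra.subset_adjoin hz
    | algebraMap c => exact (Adn N₀ S).algebraMap_mem ⟨algebraMap k Ω c, N₀.algebraMap_mem c⟩
    | add a b _ _ ha hb => exact (Adn N₀ S).add_mem ha hb
    | mul a b _ _ ha hb => exact (Adn N₀ S).mul_mem ha hb
  obtain ⟨x', hx', h1⟩ := mem_clI.1 (hF ha) b
  have hx'' : x' ∈ IntermediateField.adjoin k ((N₀ : Set Ω) ∪ S) := hx'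
  obtain ⟨r, hr, s, hs, rfl⟩ := IntermediateField.mem_adjoin_iff_div.1 hx''
  by_cases hs0 : s = 0
  · rw [hs0, div_zero] at h1
    exact ⟨0, zero_mem _, h1⟩
  obtain ⟨B, hB⟩ : ∃ B : ℝ, v.Ge B r := ⟨_, RVal.ge_self (v := v) _⟩
  obtain ⟨c, hc, h2⟩ := inv_lim (R := Adn N₀ S) h
    (fun c => (Adn N₀ S).algebraMap_mem ⟨algebraMap k Ω c, N₀.algebraMap_mem c⟩) hx0
    ((Adn N₀ S).algebraMap_mem ⟨x, hxN⟩) ((Adn N₀ S).algebraMap_mem ⟨x⁻¹, inv_mem hxN⟩)
    (hsub s hs) hs0 (hq s (IntermediateField.algebra_adjoin_le_adjoin k _ hs) hs0) (b - B)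
  refine ⟨r * c, mul_mem (hsub r hr) hc, ?_⟩
  have e : a - r * c = (a - r / s) + r * (s⁻¹ - c) := by
    rw [div_eq_mul_inv]
    ring
  rw [e]
  exact h1.add ((hB.mul h2).mono (by linarith))

/-- The same, in terms of generators over `k`. -/
theorem dense_adn' (h : Ctx0 k v) (hxN : x ∈ N₀) (hx0 : x ≠ 0)
    (hN : N₀ ≤ IntermediateField.adjoin k S') (hS : S ⊆ S')
    (hS' : ∀ s ∈ S', s ∈ N₀ ∨ s ∈ S) (hq : QVal v x (IntermediateField.adjoin k S'))
    (hF : F ≤ clI v (IntermediateField.adjoin k S')) :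
    ∀ a ∈ F, ∀ b : ℝ, ∃ g ∈ Adn N₀ S, v.Ge b (a - g) := by
  have e : IntermediateField.adjoin k ((N₀ : Set Ω) ∪ S) = IntermediateField.adjoin k S' := by
    refine le_antisymm ?_ ?_
    · rw [IntermediateField.adjoin_le_iff]
      rintro z (hz | hz)
      · exact hN hz
      · exact IntermediateField.subset_adjoin k _ (hS hz)
    · refine IntermediateField.adjoin.mono k _ _ fun z hz => ?_
      exact hS' z hz
  refine dense_adn h hxN hx0 ?_ ?_
  · rw [e]
    exact hq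
  · rw [e]
    exact hF

/-! ### `N₀[S]` as a `k`-space -/

/-- `N₀[S]`, as a `k`-space. -/
def AdnK (N₀ : IntermediateField k Ω) (S : Set Ω) : Submodule k Ω :=
  Subalgebra.toSubmodule ((Adn N₀ S).restrictScalars k)

theorem mem_AdnK {a : Ω} : a ∈ AdnK N₀ S ↔ a ∈ Adn N₀ S := Iff.rfl

theorem AdnK.le (hN : N₀ ≤ F) (hS : ∀ s ∈ S, s ∈ F) : ∀ a ∈ AdnK N₀ S, a ∈ F := by
  intro a ha
  rw [mem_AdnK] at ha
  induction ha using Algebra.adjoin_induction with
  | mem a ha => exact hS a ha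
  | algebraMap c => exact hN c.2
  | add a b _ _ ha hb => exact add_mem ha hb
  | mul a b _ _ ha hb => exact mul_mem ha hb

theorem AdnK.mul {a b : Ω} (ha : a ∈ AdnK N₀ S) (hb : b ∈ AdnK N₀ S) : a * b ∈ AdnK N₀ S :=
  (Adn N₀ S).mul_mem ha hb

theorem AdnK.pow {a : Ω} (ha : a ∈ AdnK N₀ S) (n : ℕ) : a ^ n ∈ AdnK N₀ S :=
  (Adn N₀ S).pow_mem ha n

theorem AdnK.const {a : Ω} (ha : a ∈ N₀) : a ∈ AdnK N₀ S :=
  (Adn N₀ S).algebraMap_mem ⟨a, ha⟩

theorem AdnK.gen {a : Ω} (ha : a ∈ S) : a ∈ AdnK N₀ S :=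
  Algebra.subset_adjoin (R := N₀) ha

theorem AdnK.mono (h : S ⊆ S') : AdnK N₀ S ≤ AdnK N₀ S' := fun _ ha =>
  Algebra.adjoin_mono (R := N₀) h ha

theorem AdnK.monoN {N₁ : IntermediateField k Ω} (h : N₀ ≤ N₁) : AdnK N₀ S ≤ AdnK N₁ S := by
  intro a ha
  rw [mem_AdnK] at ha
  induction ha using Algebra.adjoin_induction with
  | mem a ha => exact AdnK.gen ha
  | algebraMap c => exact AdnK.const (h c.2)
  | add a b _ _ ha hb => exact add_mem ha hb
  | mul a b _ _ ha hb => exact AdnK.mul ha hb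

/-- The values of the polynomials. -/
theorem AdnK.eval {P : Polynomial Ω} {a : Ω} (hP : ∀ i, P.coeff i ∈ AdnK N₀ S)
    (ha : a ∈ AdnK N₀ S) : P.eval a ∈ AdnK N₀ S := by
  rw [eval_eq_sum_range]
  exact sum_mem fun i _ => AdnK.mul (hP i) (AdnK.pow ha i)

/-- `N₀[y]`: polynomials. -/
theorem exists_PI_of_adn {y a : Ω} (ha : a ∈ Adn N₀ {y}) : ∃ P ∈ PI N₀, P.eval y = a := by
  induction ha using Algebra.adjoin_induction with
  | mem a ha => exact ⟨X, X_mem_PI, by rw [eval_X, Set.mem_singleton_iff.1 ha]⟩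
  | algebraMap c => exact ⟨C (c : Ω), C_mem_PI c.2, by
      rw [eval_C]
      rfl⟩
  | add a b _ _ ha hb =>
    obtain ⟨P, hP, rfl⟩ := ha
    obtain ⟨Q, hQ, rfl⟩ := hb
    exact ⟨P + Q, add_mem hP hQ, eval_add⟩
  | mul a b _ _ ha hb =>
    obtain ⟨P, hP, rfl⟩ := ha
    obtain ⟨Q, hQ, rfl⟩ := hb
    exact ⟨P * Q, mul_mem hP hQ, eval_mul⟩

theorem adn_of_PI {y : Ω} {P : Polynomial Ω} (hP : P ∈ PI N₀) : P.eval y ∈ Adn N₀ {y} :=
  AdnK.eval (N₀ := N₀) (S := {y}) (fun i => AdnK.const (hP i))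
    (AdnK.gen (Set.mem_singleton y))

/-- Density, in terms of the `k`-space. -/
theorem AdnK.dense (h : ∀ a ∈ F, ∀ b : ℝ, ∃ g ∈ Adn N₀ S, v.Ge b (a - g)) :
    ∀ a ∈ F, ∀ b : ℝ, ∃ g ∈ AdnK N₀ S, v.Ge b (a - g) := h

/-- The elements of the closure of `N₀` are limits of constants. -/
theorem den_const (hF : F ≤ clI v N₀) : ∀ a ∈ F, ∀ b : ℝ, ∃ g ∈ Adn N₀ S, v.Ge b (a - g) := by
  intro a ha b
  obtain ⟨c, hc, h1⟩ := mem_clI.1 (hF ha) b
  exact ⟨c, (Adn N₀ S).algebraMap_mem ⟨c, hc⟩, h1⟩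

/-! ### Generators of the floors -/

theorem adjoin_le_cl (E : IntermediateField k Ω) : E ≤ clI v E := fun _ ha => LUC.Cl.subset ha

theorem clI_le_clI (h : F ≤ F') : clI v F ≤ clI v F' := fun _ hw => D2P.cl_mono (fun _ hx => h hx) hw

theorem clI_le_of {G : IntermediateField k Ω} (h : F ≤ clI v G) : clI v F ≤ clI v G := fun _ hw =>
  cld_clI v G (D2P.cl_mono (fun _ hx => h hx) hw)

theorem cadj_le_adjoin {z : Ω} (hF : F ≤ clI v (IntermediateField.adjoin k S)) :
    cadj v F z ≤ clI v (IntermediateField.adjoin k (insert z S)) := by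
  refine cadj_le (cld_clI v _) (hF.trans (clI_le_clI (IntermediateField.adjoin.mono k _ _
    (Set.subset_insert z S)))) ?_
  exact adjoin_le_cl _ (IntermediateField.subset_adjoin k _ (Set.mem_insert z S))

theorem cadj_eq_adjoin {z : Ω} (hF : F = clI v (IntermediateField.adjoin k S)) :
    cadj v F z = clI v (IntermediateField.adjoin k (insert z S)) := by
  refine le_antisymm (cadj_le_adjoin hF.le) ?_
  have h1 : IntermediateField.adjoin k (insert z S) ≤ cadj v F z := by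
    rw [IntermediateField.adjoin_le_iff]
    rintro a ha
    rcases Set.mem_insert_iff.1 ha with rfl | ha
    · exact self_mem_cadj v F _
    · refine le_cadj v F z ?_
      rw [hF]
      exact adjoin_le_cl _ (IntermediateField.subset_adjoin k _ ha)
  intro a ha
  exact cld_cadj v F z (D2P.cl_mono (fun _ hx => h1 hx) ha)

/-- A closed field is the closure of a field generated by elements of it. -/
theorem eq_clI_adjoin (hF : Cld v F) (hS : ∀ s ∈ S, s ∈ F)
    (hle : F ≤ clI v (IntermediateField.adjoin k S)) :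
    F = clI v (IntermediateField.adjoin k S) := by
  refine le_antisymm hle fun a ha => hF (D2P.cl_mono (fun b hb => ?_) ha)
  exact (IntermediateField.adjoin_le_iff.2 hS : _ ≤ F) hb

end

/-! ### Two floors above `C` -/

section

variable {Ω : Type u}

theorem range4 (x y z z' : Ω) : Set.range ![x, y, z, z'] = {z', z, x, y} := by
  ext a
  simp only [Matrix.range_cons, Matrix.range_empty, Set.union_empty, Set.mem_union,
    Set.mem_insert_iff, Set.mem_singleton_iff]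
  tauto

theorem image4_zero (x y z z' : Ω) : ![x, y, z, z'] '' ({0} : Set (Fin 4)) = {x} := by
  rw [Set.image_singleton]
  rfl

theorem image4_pair (x y z z' : Ω) : ![x, y, z, z'] '' ({0, 1} : Set (Fin 4)) = {x, y} := by
  rw [Set.image_pair]
  rfl

theorem image4_lt3 (x y z z' : Ω) :
    ![x, y, z, z'] '' {j : Fin 4 | j < 3} = {x, y, z} := by
  ext a
  constructor
  · rintro ⟨j, hj, rfl⟩
    fin_cases j
    · exact Or.inl rfl
    · exact Or.inr (Or.inl rfl)
    · exact Or.inr (Or.inr rfl)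
    · exact absurd hj (by decide)
  · rintro (rfl | rfl | rfl)
    · exact ⟨0, by decide, rfl⟩
    · exact ⟨1, by decide, rfl⟩
    · exact ⟨2, by decide, rfl⟩

theorem image4_lt2 (x y z z' : Ω) :
    ![x, y, z, z'] '' {j : Fin 4 | j < 2} = {x, y} := by
  ext a
  constructor
  · rintro ⟨j, hj, rfl⟩
    fin_cases j
    · exact Or.inl rfl
    · exact Or.inr rfl
    · exact absurd hj (by decide)
    · exact absurd hj (by decide)
  · rintro (rfl | rfl)
    · exact ⟨0, by decide, rfl⟩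
    · exact ⟨1, by decide, rfl⟩

end

section

variable {k Ω : Type u} [Field k] [Field Ω] [Algebra k Ω] {v : RVal Ω} {x y z z' : Ω}
  {C F K N₀ W : IntermediateField k Ω}

theorem pair_le_kr4 (x y z z' : Ω) : IntermediateField.adjoin k {x, y} ≤ kr k ![x, y, z, z'] := by
  refine IntermediateField.adjoin.mono k _ _ fun a ha => ?_
  rw [range4]
  exact Set.mem_insert_of_mem _ (Set.mem_insert_of_mem _ ha)

theorem sing_le_kr4 (x y z z' : Ω) : IntermediateField.adjoin k {x} ≤ kr k ![x, y, z, z'] :=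
  (IntermediateField.adjoin.mono k _ _ (by
    rintro a ha
    rw [Set.mem_singleton_iff.1 ha]
    exact Set.mem_insert x _)).trans (pair_le_kr4 x y z z')

/-- **`K = C<z><z'>` is the closure of `k(x, y, z, z')`.** -/
theorem eq_clI_kr4 (hC : Cld v C) (hx : x ∈ C) (hy : y ∈ C)
    (hle : C ≤ clI v (IntermediateField.adjoin k {x, y})) :
    cadj v (cadj v C z) z' = clI v (kr k ![x, y, z, z']) := by
  have h1 : C = clI v (IntermediateField.adjoin k {x, y}) := by
    refine eq_clI_adjoin hC ?_ hle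
    rintro s hs
    rcases Set.mem_insert_iff.1 hs with rfl | hs
    · exact hx
    · rw [Set.mem_singleton_iff.1 hs]
      exact hy
  have h2 := cadj_eq_adjoin (z := z') (cadj_eq_adjoin (z := z) h1)
  rw [h2]
  change _ = clI v (IntermediateField.adjoin k (Set.range ![x, y, z, z']))
  rw [range4]

/-- `k(x) ≤ N₀ ≤ k(x, y)`: **`N₀[y]` is dense in `C`.** -/
theorem den1 (h : Ctx0 k v) (hxN : x ∈ N₀) (hx0 : x ≠ 0)
    (hN : N₀ ≤ IntermediateField.adjoin k {x, y})
    (hq : QVal v x (IntermediateField.adjoin k {x, y}))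
    (hF : F ≤ clI v (IntermediateField.adjoin k {x, y})) :
    ∀ a ∈ F, ∀ b : ℝ, ∃ g ∈ Adn N₀ {y}, v.Ge b (a - g) := by
  refine dense_adn' h hxN hx0 hN (fun a ha => Set.mem_insert_of_mem _ ha) (fun s hs => ?_) hq hF
  rcases Set.mem_insert_iff.1 hs with rfl | hs
  · exact Or.inl hxN
  · exact Or.inr hs

/-- **`N₀[y, z]` is dense in `F = C<z>`.** -/
theorem den2 (h : Ctx0 k v) (hxN : x ∈ N₀) (hx0 : x ≠ 0)
    (hN : N₀ ≤ IntermediateField.adjoin k {x, y})
    (hC : C ≤ clI v (IntermediateField.adjoin k {x, y}))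
    (hq : QVal v x (cadj v C z)) (hx : x ∈ C) (hy : y ∈ C) :
    ∀ a ∈ cadj v C z, ∀ b : ℝ, ∃ g ∈ Adn N₀ {y, z}, v.Ge b (a - g) := by
  have h1 : IntermediateField.adjoin k (insert z {x, y}) ≤ cadj v C z := by
    rw [IntermediateField.adjoin_le_iff]
    rintro a ha
    rcases Set.mem_insert_iff.1 ha with rfl | ha
    · exact self_mem_cadj v C _
    · refine le_cadj v C z ?_
      rcases Set.mem_insert_iff.1 ha with rfl | ha
      · exact hx
      · rw [Set.mem_singleton_iff.1 ha]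
        exact hy
  refine dense_adn' (S' := insert z {x, y}) h hxN hx0
    (hN.trans (IntermediateField.adjoin.mono k _ _ (Set.subset_insert z _))) ?_ ?_ (hq.mono h1)
    (cadj_le_adjoin hC)
  · rintro a ha
    rcases Set.mem_insert_iff.1 ha with rfl | ha
    · exact Set.mem_insert_of_mem _ (Set.mem_insert_of_mem _ (Set.mem_singleton _))
    · rw [Set.mem_singleton_iff.1 ha]
      exact Set.mem_insert z _
  · rintro s hs
    rcases Set.mem_insert_iff.1 hs with rfl | hs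
    · exact Or.inr (Set.mem_insert_of_mem _ (Set.mem_singleton _))
    · rcases Set.mem_insert_iff.1 hs with rfl | hs
      · exact Or.inl hxN
      · exact Or.inr (Set.mem_insert_iff.2 (Or.inl (Set.mem_singleton_iff.1 hs)))

/-- **`N₀[x, y, z, z']` is dense in `K = C<z><z'>`**: the field `den` of `XTri`, `FTri`. -/
theorem den_kr4 (h : Ctx0 k v) (hxN : x ∈ N₀) (hx0 : x ≠ 0)
    (hN : N₀ ≤ kr k ![x, y, z, z'])
    (hq : QVal v x (kr k ![x, y, z, z'])) (hF : F ≤ clI v (kr k ![x, y, z, z'])) :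
    ∀ a ∈ F, ∀ b : ℝ, ∃ g ∈ Adn N₀ (Set.range ![x, y, z, z']), v.Ge b (a - g) :=
  dense_adn' h hxN hx0 hN (fun _ ha => ha) (fun _ hs => Or.inr hs) hq hF

/-- `N₀[y, z, z'] = N₀[x, y, z, z']` for `x ∈ N₀`. -/
theorem adn4_eq (hxN : x ∈ N₀) :
    Adn N₀ (Set.range ![x, y, z, z']) = Adn N₀ {y, z, z'} := by
  refine le_antisymm ?_ ?_
  · rw [Algebra.adjoin_le_iff, range4]
    rintro a ha
    simp only [Set.mem_insert_iff, Set.mem_singleton_iff] at ha
    rcases ha with rfl | rfl | rfl | rfl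
    · exact Algebra.subset_adjoin (by simp)
    · exact Algebra.subset_adjoin (by simp)
    · exact (Adn N₀ _).algebraMap_mem ⟨_, hxN⟩
    · exact Algebra.subset_adjoin (by simp)
  · refine Algebra.adjoin_mono ?_
    rw [range4]
    intro a ha
    simp only [Set.mem_insert_iff, Set.mem_singleton_iff] at ha ⊢
    tauto

/-- **`N₀[y, z, z']` is dense in `K = C<z><z'>`.** -/
theorem den3 (h : Ctx0 k v) (hxN : x ∈ N₀) (hx0 : x ≠ 0)
    (hN : N₀ ≤ IntermediateField.adjoin k {x, y})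
    (hCc : Cld v C) (hx : x ∈ C) (hy : y ∈ C)
    (hC : C ≤ clI v (IntermediateField.adjoin k {x, y}))
    (hq : QVal v x (cadj v (cadj v C z) z')) :
    ∀ a ∈ cadj v (cadj v C z) z', ∀ b : ℝ, ∃ g ∈ Adn N₀ {y, z, z'}, v.Ge b (a - g) := by
  have e := eq_clI_kr4 (z := z) (z' := z') hCc hx hy hC
  intro a ha b
  obtain ⟨g, hg, h1⟩ := den_kr4 (F := cadj v (cadj v C z) z') h hxN hx0
    (hN.trans (pair_le_kr4 x y z z')) (hq.mono (by
      rw [e]
      exact adjoin_le_cl _)) e.le a ha b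
  rw [adn4_eq hxN] at hg
  exact ⟨g, hg, h1⟩

/-- The members of the floors are members of `K`. -/
theorem mem4 (hx : x ∈ C) (hy : y ∈ C) : ∀ i, ![x, y, z, z'] i ∈ cadj v (cadj v C z) z' := by
  intro i
  have h1 : C ≤ cadj v (cadj v C z) z' := (le_cadj v C z).trans (le_cadj v _ z')
  fin_cases i
  · exact h1 hx
  · exact h1 hy
  · exact le_cadj v _ z' (self_mem_cadj v C z)
  · exact self_mem_cadj v _ z'

end

end Pool.Agent.TWRZ
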