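import Pool.Agent.Lib.TWC.JD

/-!
# TANK W, (Ru.Z): strict translations and nearby steps

* `strict_near`: `P(y + ζ c₁) - P(y + ζ c)` is small, `P` over `W`, for `c₁` near `c`;
* `StrC`: the translations of `y` by infinitely many multiples of `c` are strict over `W`;
  `StrC.near`.
-/

set_option autoImplicit false

open Polynomial

namespace Pool.Agent.TWRZ

open Pool.Agent.H15JM (RVal)
open Pool.Agent.LU1 (VPos adj)
open Pool.Agent.D2 (Ctx0)
open Pool.Agent.D2P (hen clI mem_clI)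
open Pool.Agent.TWM

universe u

variable {k Ω : Type u} [Field k] [Field Ω] [Algebra k Ω] {v : RVal Ω}

/-- A positive gain, from a strict inequality. -/
theorem gt_gain {s : ℝ} {x : Ω} (h : Gt v s x) : ∃ δ : ℝ, 0 < δ ∧ v.Ge (s + δ) x := by
  by_cases h0 : x = 0
  · exact ⟨1, one_pos, by rw [h0]; exact RVal.Ge.zero⟩
  · exact ⟨v x - s, by linarith [h h0], fun _ => by linarith⟩

/-- The difference of two powers. -/
theorem pow_sub_ge {x y : Ω} {a b : ℝ} (hx : v.Ge a x) (hy : v.Ge a y) (hxy : v.Ge b (x - y))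
    (l : ℕ) : v.Ge (b + (l - 1) * a) (x ^ l - y ^ l) := by
  induction l with
  | zero =>
    rw [pow_zero, pow_zero, sub_self]
    exact RVal.Ge.zero
  | succ l ih =>
    have e : x ^ (l + 1) - y ^ (l + 1) = x ^ l * (x - y) + (x ^ l - y ^ l) * y := by ring
    rw [e]
    refine (((ge_pow hx l).mul hxy).mono ?_).add ((ih.mul hy).mono ?_)
    · push_cast
      linarith
    · push_cast
      linarith

/-- **The values at two nearby points**, far from the algebraic elements. -/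
theorem strict_near [IsAlgClosed Ω] (h0 : Ctx0 k v) {W : IntermediateField k Ω} {y c c₁ : Ω}
    {s : ℝ} (hfar : ∀ θ : Ω, IsAlgebraic W θ → y ≠ θ ∧ v (y - θ) ≤ s) (hc : v.Ge s c)
    (hcc : Gt v s (c - c₁)) :
    ∃ δ : ℝ, 0 < δ ∧ ∀ (ζ : k), ∀ P ∈ PI W, ∀ b : ℝ, v.Ge b (P.eval y) →
      v.Ge (b + δ) (P.eval (y + algebraMap k Ω ζ * c₁) - P.eval (y + algebraMap k Ω ζ * c)) := by
  obtain ⟨δ, hδ, h1⟩ := gt_gain hcc
  refine ⟨δ, hδ, fun ζ P hP b hb => ?_⟩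
  have hz : v.Ge 0 (algebraMap k Ω ζ) := h0.ge ζ
  have h2 : v.Ge s (algebraMap k Ω ζ * c) := (hz.mul hc).mono (by linarith)
  have hc₁ : v.Ge s c₁ := by
    have e : c₁ = c - (c - c₁) := by ring
    rw [e]
    exact hc.sub hcc.ge
  have h3 : v.Ge s (algebraMap k Ω ζ * c₁) := (hz.mul hc₁).mono (by linarith)
  have h4 : v.Ge (s + δ) (algebraMap k Ω ζ * c₁ - algebraMap k Ω ζ * c) := by
    have e : algebraMap k Ω ζ * c₁ - algebraMap k Ω ζ * c = -(algebraMap k Ω ζ * (c - c₁)) := by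
      ring
    rw [e]
    exact ((hz.mul h1).mono (by linarith)).neg
  rw [eval_eq_taylor P y (y + algebraMap k Ω ζ * c₁), eval_eq_taylor P y (y + algebraMap k Ω ζ * c),
    add_sub_cancel_left, add_sub_cancel_left, eval_eq_sum_range, eval_eq_sum_range,
    ← Finset.sum_sub_distrib]
  refine RVal.Ge.sum _ _ fun l _ => ?_
  rw [← mul_sub]
  have h5 := TWC.jet_ge hfar hP hb l
  rcases Nat.eq_zero_or_pos l with rfl | hl
  · rw [pow_zero, pow_zero, sub_self, mul_zero]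
    exact RVal.Ge.zero
  · refine (h5.mul (pow_sub_ge h3 h2 h4 l)).mono (le_of_eq ?_)
    ring

/-- The translations of `y` by infinitely many multiples of `c` are strict over `W`. -/
def StrC (v : RVal Ω) (W : IntermediateField k Ω) (y c : Ω) : Prop :=
  ∀ n : ℕ, ∃ Θ : Finset k, n ≤ Θ.card ∧ ∀ ζ ∈ Θ, ∃ μ : ℝ, 0 < μ ∧
    ∀ P ∈ PI W, v.Ge (v (P.eval y) + μ) (P.eval (y + algebraMap k Ω ζ * c) - P.eval y)

/-- **Strict translations, at a nearby step.** -/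
theorem StrC.near [IsAlgClosed Ω] (h0 : Ctx0 k v) {W : IntermediateField k Ω} {y c c₁ : Ω}
    {s : ℝ} (h : StrC v W y c) (hfar : ∀ θ : Ω, IsAlgebraic W θ → y ≠ θ ∧ v (y - θ) ≤ s)
    (hc : v.Ge s c) (hcc : Gt v s (c - c₁)) : StrC v W y c₁ := by
  obtain ⟨δ, hδ, h1⟩ := strict_near h0 hfar hc hcc
  intro n
  obtain ⟨Θ, hΘ, h2⟩ := h n
  refine ⟨Θ, hΘ, fun ζ hζ => ?_⟩
  obtain ⟨μ, hμ, h3⟩ := h2 ζ hζ
  refine ⟨min μ δ, lt_min hμ hδ, fun P hP => ?_⟩
  have h4 := h1 ζ P hP (v (P.eval y)) (RVal.ge_self _)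
  have e : P.eval (y + algebraMap k Ω ζ * c₁) - P.eval y =
      (P.eval (y + algebraMap k Ω ζ * c₁) - P.eval (y + algebraMap k Ω ζ * c)) +
      (P.eval (y + algebraMap k Ω ζ * c) - P.eval y) := by ring
  rw [e]
  exact (h4.mono (by linarith [min_le_right μ δ])).add
    ((h3 P hP).mono (by linarith [min_le_left μ δ]))

/-- The step can be chosen in a dense set. -/
theorem StrC.exists_near [IsAlgClosed Ω] (h0 : Ctx0 k v) {W C : IntermediateField k Ω} {y c : Ω}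
    {s : ℝ} (h : StrC v W y c) (hfar : ∀ θ : Ω, IsAlgebraic W θ → y ≠ θ ∧ v (y - θ) ≤ s)
    (hcC : c ∈ C) (hc0 : c ≠ 0) (hcv : v c = s) {R : Type*} [SetLike R Ω] {A : R}
    (hd : ∀ a ∈ C, ∀ b : ℝ, ∃ g ∈ A, v.Ge b (a - g)) :
    ∃ c₁ ∈ A, c₁ ≠ 0 ∧ v c₁ = s ∧ Gt v s (c - c₁) ∧ StrC v W y c₁ := by
  obtain ⟨c₁, hc₁, h1⟩ := hd c hcC (s + 1)
  have h2 : Gt v s (c - c₁) := Gt.of_ge h1 (by linarith)
  obtain ⟨h3, h4⟩ := Gt.val_eq hc0 (by rw [hcv]; exact h2)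
  exact ⟨c₁, hc₁, h3, by rw [h4, hcv], h2, h.near h0 hfar (fun _ => hcv.ge) h2⟩

end Pool.Agent.TWRZ
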