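import Pool.Agent.Lib.TWRZ.SigE
import Pool.Agent.Lib.TWCT.TamP
import Pool.Agent.Lib.TWS.MonB

/-!
# TANK W, (Ru.Z): a radius of finite order modulo the values of `C`

`exists_tame`: `c ^ m₀ ∈ C`, `p ∤ m₀`: there are `c₁ ∈ C` and `c₂` of value `v c = v (c₁ c₂)`, `c₂ ^ m = x' ^ a`,
`x' ^ N = x`, `x' ∈ W`, and `m` is the order of `v c₂` modulo the values of `C`.
-/

set_option autoImplicit false

open Polynomial

namespace Pool.Agent.TWRZ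

open Pool.Agent.H15JM (RVal)
open Pool.Agent.LU1 (VPos adj)
open Pool.Agent.D2 (Ctx0)
open Pool.Agent.D2P (hen clI mem_clI)
open Pool.Agent.TWM
open Pool.Agent.TWS
open Pool.Agent.TWC (GD exists_sum alg_of_pw)
open Pool.Agent.TWTam (TR InV)

universe u

/-- Bezout for the multiples of a real number. -/
theorem mem_of_coprime {G : AddSubgroup ℝ} {a b : ℤ} (hab : IsCoprime a b) {g : ℝ}
    (ha : (a : ℝ) * g ∈ G) (hb : (b : ℝ) * g ∈ G) : g ∈ G := by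
  obtain ⟨u, w, h⟩ := hab
  have e : g = u • ((a : ℝ) * g) + w • ((b : ℝ) * g) := by
    rw [zsmul_eq_mul, zsmul_eq_mul]
    have h2 : (u : ℝ) * a + w * b = 1 := by exact_mod_cast h
    linear_combination -(g * h2)
  rw [e]
  exact add_mem (zsmul_mem ha u) (zsmul_mem hb w)

variable {k Ω : Type u} [Field k] [Field Ω] [Algebra k Ω] {v : RVal Ω}
  {C W K : IntermediateField k Ω} {c x : Ω} {p : ℕ}

/-- **The decomposition.** -/
theorem exists_tame [IsAlgClosed k] [IsAlgClosed Ω] [hp : Fact p.Prime] [CharP k p]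
    (h0 : Ctx0 k v) (hC : Cld v C) (hW : Cld v W) (hWC : W ≤ C) (hx : x ∈ W) (hx0 : x ≠ 0)
    (hvx : v x ≠ 0) (hpd : ∀ g ∈ VG v C, ∃ g' ∈ VG v C, g = p * g')
    (hCW : ∀ g ∈ VG v C, ∃ j : ℕ, (p : ℝ) ^ j * g ∈ VG v W)
    (hcom : ∀ g ∈ VG v C, ∃ (N : ℕ) (n : ℤ), N ≠ 0 ∧ (N : ℝ) * g = n * v x)
    {m₀ : ℕ} (hm₀ : ¬ p ∣ m₀) (hc : c ^ m₀ ∈ C) (hc0 : c ≠ 0) :
    ∃ (m N : ℕ) (a : ℤ) (x' c₁ c₂ : Ω), ¬ p ∣ m ∧ ¬ p ∣ N ∧ x' ^ N = x ∧ x' ∈ W ∧ c₁ ∈ C ∧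
      c₁ ≠ 0 ∧ v (c₁ * c₂) = v c ∧ c₂ ^ m = x' ^ a ∧ GD v C c₂ m := by
  classical
  have hp0 : (p : ℝ) ≠ 0 := by exact_mod_cast hp.out.ne_zero
  obtain ⟨τ, hτ⟩ : ∃ τ, τ = v x := ⟨_, rfl⟩
  rw [← hτ] at hvx
  have hτW : τ ∈ VG v W := by rw [hτ]; exact VG.self hx hx0
  have hτC : τ ∈ VG v C := VG.mono hWC hτW
  have hm₀0 : m₀ ≠ 0 := fun h => hm₀ (h ▸ dvd_zero p)
  obtain ⟨s, hs⟩ : ∃ s, s = v c := ⟨_, rfl⟩
  have hms : (m₀ : ℝ) * s ∈ VG v C := by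
    have h1 := VG.self (v := v) hc (pow_ne_zero m₀ hc0)
    rw [v.map_pow hc0, ← hs] at h1
    exact h1
  obtain ⟨N₀, n₀, hN₀, h1⟩ := hcom _ hms
  rw [← hτ] at h1
  -- `B s = A τ`
  obtain ⟨B, A, hB, h2⟩ : ∃ (B : ℕ) (A : ℤ), B ≠ 0 ∧ (B : ℝ) * s = A * τ :=
    ⟨N₀ * m₀, n₀, mul_ne_zero hN₀ hm₀0, by push_cast; rw [mul_assoc]; exact h1⟩
  obtain ⟨e, B', hB', hBe⟩ := Nat.exists_eq_pow_mul_and_not_dvd hB p hp.out.ne_one
  have hB'0 : B' ≠ 0 := fun h => hB' (h ▸ dvd_zero p)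
  have hB'R : (B' : ℝ) ≠ 0 := by exact_mod_cast hB'0
  have hcop : IsCoprime ((p : ℤ) ^ e) (B' : ℤ) := by
    have h3 : Nat.Coprime (p ^ e) B' := Nat.Coprime.pow_left e
      ((Nat.Prime.coprime_iff_not_dvd hp.out).2 hB')
    exact_mod_cast Nat.isCoprime_iff_coprime.2 h3
  obtain ⟨u, w, huw⟩ := hcop
  -- division by powers of `p`
  have hdiv : ∀ j : ℕ, ∀ g ∈ VG v C, g / (p : ℝ) ^ j ∈ VG v C := by
    intro j
    induction j with
    | zero => intro g hg; rwa [pow_zero, div_one]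
    | succ j ih =>
      intro g hg
      obtain ⟨g', hg', h3⟩ := hpd g hg
      have e1 : g / (p : ℝ) ^ (j + 1) = g' / (p : ℝ) ^ j := by
        rw [h3, pow_succ]
        field_simp
      rw [e1]
      exact ih g' hg'
  have hpe : ((p : ℝ) ^ e) ≠ 0 := pow_ne_zero _ hp0
  obtain ⟨s₁, hs₁⟩ : ∃ s₁, s₁ = ((A * w : ℤ) • τ) / (p : ℝ) ^ e := ⟨_, rfl⟩
  have hs₁C : s₁ ∈ VG v C := by
    rw [hs₁]
    exact hdiv e _ (zsmul_mem hτC _)
  obtain ⟨s₂, hs₂⟩ : ∃ s₂, s₂ = ((A * u : ℤ) : ℝ) * τ / B' := ⟨_, rfl⟩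
  have hss : s = s₁ + s₂ := by
    have h3 : ((p : ℝ) ^ e * B') * s = A * τ := by
      have h4 : (B : ℝ) = (p : ℝ) ^ e * B' := by rw [hBe]; push_cast; ring
      rw [← h4]
      exact h2
    have h4 : (u : ℝ) * (p : ℝ) ^ e + w * B' = 1 := by exact_mod_cast huw
    have h5 : s = A * τ / ((p : ℝ) ^ e * B') := by
      rw [eq_div_iff (mul_ne_zero hpe hB'R)]
      linarith
    rw [h5, hs₁, hs₂, zsmul_eq_mul]
    push_cast
    field_simp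
    linear_combination (-(A : ℝ)) * h4
  -- the order of `s₂`
  have hB's : (B' : ℝ) * s₂ ∈ VG v C := by
    rw [hs₂, mul_div_cancel₀ _ hB'R]
    have h3 := zsmul_mem hτC (A * u)
    rwa [zsmul_eq_mul] at h3
  have hex : ∃ m : ℕ, 0 < m ∧ (m : ℝ) * s₂ ∈ VG v C := ⟨B', Nat.pos_of_ne_zero hB'0, hB's⟩
  obtain ⟨m, ⟨hm0, hms₂⟩, hmin⟩ : ∃ m : ℕ, (0 < m ∧ (m : ℝ) * s₂ ∈ VG v C) ∧
      ∀ m', m' < m → ¬ (0 < m' ∧ (m' : ℝ) * s₂ ∈ VG v C) :=
    ⟨Nat.find hex, Nat.find_spec hex, fun m' h => Nat.find_min hex h⟩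
  have hdvd : ∀ j : ℤ, (j : ℝ) * s₂ ∈ VG v C → (m : ℤ) ∣ j := by
    intro j hj
    have hr0 : 0 ≤ j % m := Int.emod_nonneg _ (by exact_mod_cast hm0.ne')
    have hr1 : j % m < m := Int.emod_lt_of_pos _ (by exact_mod_cast hm0)
    obtain ⟨r, hr⟩ := Int.eq_ofNat_of_zero_le hr0
    have h3 : (r : ℝ) * s₂ ∈ VG v C := by
      have e1 : (r : ℝ) * s₂ = (j : ℝ) * s₂ - (j / m : ℤ) • ((m : ℝ) * s₂) := by
        have h4 := Int.emod_add_mul_ediv j m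
        rw [hr] at h4
        have h5 : (r : ℝ) + m * ((j / m : ℤ) : ℝ) = j := by exact_mod_cast h4
        rw [zsmul_eq_mul]
        linear_combination s₂ * h5
      rw [e1]
      exact sub_mem hj (zsmul_mem hms₂ _)
    have h4 : r = 0 := by
      by_contra hne
      refine hmin r ?_ ⟨Nat.pos_of_ne_zero hne, h3⟩
      rw [hr] at hr1
      exact_mod_cast hr1
    rw [h4] at hr
    exact Int.dvd_of_emod_eq_zero (by rw [hr]; rfl)
  have hmB : m ∣ B' := by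
    have h3 := hdvd B' (by exact_mod_cast hB's)
    exact_mod_cast h3
  have hpm : ¬ p ∣ m := fun h => hB' (h.trans hmB)
  -- `m s₂ = a τ / N`
  obtain ⟨b, hb⟩ := hmB
  have hb0 : b ≠ 0 := by
    rintro rfl
    exact hB'0 (by rw [hb, mul_zero])
  obtain ⟨q, hq⟩ : ∃ q : ℚ, q = ((A * u : ℤ) : ℚ) / b := ⟨_, rfl⟩
  have hmq : (m : ℝ) * s₂ = q.num * (τ / q.den) := by
    have hqR : ((q.num : ℝ) / q.den) = ((A * u : ℤ) : ℝ) / b := by
      have h3 : (q : ℝ) = ((A * u : ℤ) : ℝ) / b := by rw [hq]; push_cast; ring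
      rw [← h3, ← Rat.cast_def]
    have h3 : (B' : ℝ) = m * b := by exact_mod_cast hb
    have hm' : (m : ℝ) ≠ 0 := by exact_mod_cast hm0.ne'
    have hb' : (b : ℝ) ≠ 0 := by exact_mod_cast hb0
    have e1 : (m : ℝ) * s₂ = (((A * u : ℤ) : ℝ) / b) * τ := by
      rw [hs₂, h3]
      field_simp
    rw [e1, ← hqR]
    ring
  have hden0 : (q.den : ℝ) ≠ 0 := by exact_mod_cast q.den_nz
  have hcoq : IsCoprime q.num (q.den : ℤ) := by
    have h3 := q.reduced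
    rw [Nat.Coprime] at h3
    exact Int.isCoprime_iff_gcd_eq_one.2 (by simpa [Int.gcd] using h3)
  have hτN : τ / q.den ∈ VG v C := by
    refine mem_of_coprime hcoq (by rw [← hmq]; exact hms₂) ?_
    have e1 : ((q.den : ℤ) : ℝ) * (τ / q.den) = τ := by
      rw [Int.cast_natCast]
      field_simp
    rw [e1]
    exact hτC
  have hpN : ¬ p ∣ q.den := by
    intro h3
    have h4 : (q.den : ℤ) ∣ b := by
      have h6 := Rat.den_dvd (A * u) (b : ℤ)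
      rw [Rat.divInt_eq_div] at h6
      rw [hq]
      exact_mod_cast h6
    have h5 : p ∣ b := h3.trans (by exact_mod_cast h4)
    exact hB' (h5.trans ⟨m, by rw [hb, mul_comm]⟩)
  have hτNW : τ / q.den ∈ VG v W := by
    obtain ⟨j, hj⟩ := hCW _ hτN
    have hco : IsCoprime ((p : ℤ) ^ j) (q.den : ℤ) := by
      have h3 : Nat.Coprime (p ^ j) q.den := Nat.Coprime.pow_left j
        ((Nat.Prime.coprime_iff_not_dvd hp.out).2 hpN)
      exact_mod_cast Nat.isCoprime_iff_coprime.2 h3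
    refine mem_of_coprime hco (by push_cast; exact hj) ?_
    have e1 : ((q.den : ℤ) : ℝ) * (τ / q.den) = τ := by
      rw [Int.cast_natCast]
      field_simp
    rw [e1]
    exact hτW
  -- the elements
  obtain ⟨x', hx'⟩ := IsAlgClosed.exists_pow_nat_eq x q.den_pos
  have hx'0 : x' ≠ 0 := by
    rintro rfl
    rw [zero_pow q.den_nz] at hx'
    exact hx0 hx'.symm
  have hvx' : v x' = τ / q.den := by
    have h3 := v.map_pow hx'0 (m := q.den)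
    rw [hx', ← hτ] at h3
    rw [h3]
    field_simp
  have hx'W : x' ∈ W := by
    refine TWTam.root_mem (p := p) h0 hW hx ⟨hx'0, q.den, hpN, 1, ?_⟩ ?_
    · rw [zpow_one, hx']
    · obtain ⟨g, hg, hg0, h3⟩ := hτNW
      exact ⟨g, hg, hg0, by rw [h3, hvx']⟩
  obtain ⟨c₂, hc₂⟩ := IsAlgClosed.exists_pow_nat_eq (x' ^ q.num) hm0
  have hc₂0 : c₂ ≠ 0 := by
    rintro rfl
    rw [zero_pow hm0.ne'] at hc₂
    exact zpow_ne_zero _ hx'0 hc₂.symm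
  have hvc₂ : v c₂ = s₂ := by
    have h3 := v.map_pow hc₂0 (m := m)
    rw [hc₂, v.map_zpow hx'0, hvx', ← hmq] at h3
    have hm' : (m : ℝ) ≠ 0 := by exact_mod_cast hm0.ne'
    exact (mul_left_cancel₀ hm' h3).symm
  obtain ⟨c₁, hc₁, hc₁0, hvc₁⟩ := hs₁C
  refine ⟨m, q.den, q.num, x', c₁, c₂, hpm, hpN, hx', hx'W, hc₁, hc₁0, ?_, hc₂, hC, hm0, hc₂0, ?_,
    fun j hj => hdvd j ?_⟩
  · rw [v.map_mul hc₁0 hc₂0, hvc₁, hvc₂, ← hs, hss]
  · rw [hc₂]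
    exact zpow_mem (hWC hx'W) _
  · rw [hvc₂] at hj
    exact hj

end Pool.Agent.TWRZ
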