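import Pool.Agent.Lib.TWRZ.TriE
import Pool.Agent.Lib.TWRZ.TameC
import Pool.Agent.Lib.TWRZ.StrA
import Pool.Agent.Lib.TWRZ.Den
import Pool.Agent.Lib.TWF.InfAlt

/-!
# TANK W, (Ru.Z): the base of the equivariant group of motions

* `Flr.pow_val`: the values of `C` are in `p ^ (-∞)` times the values of `W`;
* `StrC.up`: strict translations over `W` are strict over `W(e)`, `e` tame over `C`;
* `GD.sigD`: the automorphism;
* `exists_baseE`: the group of motions of `C(e)`, equivariant.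
-/

set_option autoImplicit false

open Polynomial

namespace Pool.Agent.TWRZ

open Pool.Agent.H15JM (RVal)
open Pool.Agent.LU1 (VPos adj)
open Pool.Agent.D2 (Ctx0)
open Pool.Agent.D2P (hen clI mem_clI)
open Pool.Agent.TWM
open Pool.Agent.TWS
open Pool.Agent.TWC (GD exists_sum alg_of_pw)
open Pool.Agent.TWCT (eq_on_cadj)
open Pool.Agent.TWEX (Adn)
open Pool.Agent.TWF (Flr StrZ)
open Pool.Agent.TWS7 (PDiv)

universe u

variable {k Ω : Type u} [Field k] [Field Ω] [Algebra k Ω] {v : RVal Ω}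
  {C W K L : IntermediateField k Ω} {x y e c : Ω} {s : ℝ} {p n : ℕ}

/-- The values of `C` are, up to powers of `p`, values of `W`. -/
theorem _root_.Pool.Agent.TWF.Flr.pow_val [hp : Fact p.Prime] [CharP Ω p] [IsAlgClosed Ω]
    (h : Flr p v C W x y s) :
    ∀ g ∈ VG v C, ∃ j : ℕ, (p : ℝ) ^ j * g ∈ VG v W := by
  rintro _ ⟨f, hf, hf0, rfl⟩
  have hy : TL v (TWC.pcl p W) y s :=
    { lim := fun ε hε => by
        obtain ⟨j, a, ha, h1⟩ := h.lim ε hε
        exact ⟨a, ⟨j, ha⟩, h1⟩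
      far := fun θ hθ => by
        refine h.far θ ?_
        have h1 : TWC.pcl p W ≤ algc W := by
          rintro a ⟨m, hm⟩
          exact mem_algc.2 (IsAlgebraic.of_pow (pow_pos hp.out.pos m)
            (isAlgebraic_algebraMap (R := W) (⟨a ^ p ^ m, hm⟩ : W)))
        exact isAlgebraic_of_algc (D2P.isAlgebraic_mono h1 hθ) }
  have hle : C ≤ cadj v (TWC.pcl p W) y := by
    rw [h.eq]
    refine cadj_le (cld_cadj v _ y) ?_ (self_mem_cadj v _ y)
    refine le_trans (fun a ha => ?_) (le_cadj v _ y)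
    exact ⟨0, by rwa [pow_zero, pow_one]⟩
  obtain ⟨c₀, ⟨j, hj⟩, h1⟩ := hy.imm.imm f (hle hf) hf0
  obtain ⟨h2, h3⟩ := Gt.val_eq hf0 h1
  refine ⟨j, c₀ ^ p ^ j, hj, pow_ne_zero _ h2, ?_⟩
  rw [v.map_pow h2, h3]
  push_cast
  rfl

/-! ### Polynomials over `L(e)` -/

/-- A polynomial over `L(e)`, in terms of polynomials over `L`. -/
theorem exists_PI_sum (hn : 0 < n) (he : e ^ n ∈ L) {P : Polynomial Ω} (hP : P ∈ PI (adj L e)) :
    ∃ Q : ℕ → Polynomial Ω, (∀ i, Q i ∈ PI L) ∧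
      P = ∑ i ∈ Finset.range n, Q i * Polynomial.C (e ^ i) := by
  classical
  choose f hf hf' using fun j => exists_sum hn he (hP j)
  refine ⟨fun i => ∑ j ∈ Finset.range (P.natDegree + 1), Polynomial.C (f j i) * X ^ j, fun i =>
    sum_mem fun j _ => mul_mem (C_mem_PI (hf j i)) (pow_mem X_mem_PI j), ?_⟩
  have h1 : ∀ i ∈ Finset.range n, (∑ j ∈ Finset.range (P.natDegree + 1), Polynomial.C (f j i) * X ^ j) *
      Polynomial.C (e ^ i) = ∑ j ∈ Finset.range (P.natDegree + 1),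
        Polynomial.C (f j i * e ^ i) * X ^ j := by
    intro i _
    rw [Finset.sum_mul]
    refine Finset.sum_congr rfl fun j _ => ?_
    rw [C_mul]
    ring
  rw [Finset.sum_congr rfl h1, Finset.sum_comm]
  conv_lhs => rw [P.as_sum_range_C_mul_X_pow]
  refine Finset.sum_congr rfl fun j _ => ?_
  rw [← Finset.sum_mul, ← map_sum, ← hf' j]

/-- **Strict translations over `W(e)`.** -/
theorem StrC.up (hG : GD v (cadj v W y) e n) (he : e ^ n ∈ W)
    (hfar : ∀ θ : Ω, IsAlgebraic W θ → y ≠ θ) (h : StrC v W y c) : StrC v (adj W e) y c := by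
  intro N
  obtain ⟨Θ, hΘ, h1⟩ := h N
  refine ⟨Θ, hΘ, fun ζ hζ => ?_⟩
  obtain ⟨μ, hμ, h2⟩ := h1 ζ hζ
  refine ⟨μ, hμ, fun P hP => ?_⟩
  obtain ⟨Q, hQ, rfl⟩ := exists_PI_sum hG.pos he hP
  obtain ⟨b, hb⟩ : ∃ b, b = v ((∑ i ∈ Finset.range n, Q i * Polynomial.C (e ^ i)).eval y) := ⟨_, rfl⟩
  rw [← hb]
  have h3 : v.Ge b (∑ i ∈ Finset.range n, (Q i).eval y * e ^ i) := by
    have e1 : ∑ i ∈ Finset.range n, (Q i).eval y * e ^ i =
        (∑ i ∈ Finset.range n, Q i * Polynomial.C (e ^ i)).eval y := by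
      rw [eval_finsetSum]
      exact Finset.sum_congr rfl fun i _ => by rw [eval_mul, eval_C]
    rw [e1, hb]
    exact RVal.ge_self _
  have e2 : (∑ i ∈ Finset.range n, Q i * Polynomial.C (e ^ i)).eval (y + algebraMap k Ω ζ * c) -
      (∑ i ∈ Finset.range n, Q i * Polynomial.C (e ^ i)).eval y =
      ∑ i ∈ Finset.range n, ((Q i).eval (y + algebraMap k Ω ζ * c) - (Q i).eval y) * e ^ i := by
    rw [eval_finsetSum, eval_finsetSum, ← Finset.sum_sub_distrib]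
    refine Finset.sum_congr rfl fun i _ => ?_
    simp only [eval_mul, eval_C]
    ring
  rw [e2]
  refine RVal.Ge.sum _ _ fun i hi => ?_
  have h4 : v.Ge b ((Q i).eval y * e ^ i) := hG.orth (f := fun i => (Q i).eval y)
    (fun j => TWM.eval_mem (PI_mono (le_cadj v W y) (hQ j)) (self_mem_cadj v W y)) h3
    (Finset.mem_range.1 hi)
  by_cases h0 : (Q i).eval y = 0
  · have h5 : Q i = 0 := by
      by_contra h6
      exact hfar y (isAlgebraic_root (hQ i) h6 h0) rfl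
    rw [h5, eval_zero, eval_zero, sub_self, zero_mul]
    exact RVal.Ge.zero
  · have h5 := h4 (mul_ne_zero h0 (pow_ne_zero i hG.ne))
    rw [v.map_mul h0 (pow_ne_zero i hG.ne)] at h5
    refine ((h2 (Q i) (hQ i)).mul (RVal.ge_self (v := v) (e ^ i))).mono ?_
    linarith

/-- **The automorphism.** -/
theorem GD.exists_sigD [IsAlgClosed Ω] (hk : Ctx0 k v) (hw : SphC v)
    (hval : ∀ ρ : ℝ, ∃ x : Ω, x ≠ 0 ∧ v x = ρ) (hG : GD v K e n) {ζ : k}
    (hζ : IsPrimitiveRoot ζ n) (hn : (n : k) ≠ 0) : ∃ σ : Ω →ₐ[k] Ω, SigD v K e n ζ σ := by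
  obtain ⟨σ, h1, h2, h3, h4, h5, h6⟩ := TWRZ.GD.exists_sig hk hw hval hG hζ
  exact ⟨σ, hG, hn, hζ, h1, h2, h3, h4, h5, h6⟩

/-- The automorphism on a smaller field. -/
theorem SigD.down {σ : Ω →ₐ[k] Ω} {ζ : k} (h : SigD v K e n ζ σ) (hL : Cld v L) (hLK : L ≤ K)
    (he : e ^ n ∈ L) : SigD v L e n ζ σ where
  gd := TWRZ.GD.down h.gd hL hLK he
  nk := h.nk
  prim := h.prim
  iso := h.iso
  fix f hf := h.fix f (hLK hf)
  se := h.se
  map f hf := by
    have h4 : adj L e ≤ (adj L e).comap σ := by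
      refine D2P.adj_le (fun a ha => ?_) ?_
      · change σ a ∈ adj L e
        rw [h.fix a (hLK ha)]
        exact (D2P.mem_adj_self L e).2 ha
      · change σ e ∈ adj L e
        rw [h.se]
        exact mul_mem ((adj L e).algebraMap_mem _) (D2P.mem_adj_self L e).1
    exact h4 hf
  ord f hf := h.ord f (D2P.adj_le (hLK.trans (D2P.mem_adj_self K e).2) (D2P.mem_adj_self K e).1 hf)
  inv f hf hσ := by
    have h1 := h.inv f (D2P.adj_le (hLK.trans (D2P.mem_adj_self K e).2)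
      (D2P.mem_adj_self K e).1 hf) hσ
    exact h.gd.inf hLK he hf h1

/-- `algc (W(e)) = algc W`. -/
theorem algc_adj_eq (hn : 0 < n) (he : e ^ n ∈ W) : algc (adj W e) = algc W := by
  refine le_antisymm (fun a ha => ?_) fun a ha => ?_
  · have h1 : adj W e ≤ algc W := D2P.adj_le (le_algc W) (mem_algc.2 (alg_of_pw hn he))
    exact mem_algc.2 (isAlgebraic_of_algc (D2P.isAlgebraic_mono h1 (mem_algc.1 ha)))
  · exact mem_algc.2 (D2P.isAlgebraic_mono (D2P.mem_adj_self W e).2 (mem_algc.1 ha))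

theorem exists_prim [IsAlgClosed k] [CharP k p] (hn : ¬ p ∣ n) :
    (n : k) ≠ 0 ∧ ∃ ζ : k, IsPrimitiveRoot ζ n := by
  have h1 : (n : k) ≠ 0 := fun h => hn ((CharP.cast_eq_zero_iff k p n).1 h)
  have : NeZero (n : k) := ⟨h1⟩
  exact ⟨h1, HasEnoughRootsOfUnity.exists_primitiveRoot k n⟩

/-- Commensurable values, for a root of `x`. -/
theorem QVal.root {x' : Ω} {N : ℕ} (hx' : x' ^ N = x) (hx0 : x' ≠ 0)
    (h : QVal v x K) : QVal v x' K := by
  intro f hf hf0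
  obtain ⟨m, j, hm, h1⟩ := h f hf hf0
  refine ⟨m, j * N, hm, ?_⟩
  rw [h1, ← hx', v.map_pow hx0]
  push_cast
  ring

/-- Commensurable values in `K(e)`. -/
theorem QVal.adj (hG : GD v K e n) (h : QVal v x K) : QVal v x (adj K e) := by
  classical
  have hval : ∀ i : ℕ, ∀ g ∈ K, g ≠ 0 →
      ∃ (m : ℕ) (j : ℤ), m ≠ 0 ∧ (m : ℝ) * v (g * e ^ i) = j * v x := by
    intro i g hg hg0
    obtain ⟨m, j, hm, h1⟩ := h _ (mul_mem (pow_mem hg n) (pow_mem hG.pw i))
      (mul_ne_zero (pow_ne_zero _ hg0) (pow_ne_zero _ (pow_ne_zero _ hG.ne)))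
    refine ⟨m * n, j, mul_ne_zero hm hG.pos.ne', ?_⟩
    rw [← h1, ← pow_mul, v.map_mul (pow_ne_zero _ hg0) (pow_ne_zero _ hG.ne), v.map_pow hg0,
      v.map_pow hG.ne, v.map_mul hg0 (pow_ne_zero _ hG.ne), v.map_pow hG.ne]
    push_cast
    ring
  intro f hf hf0
  obtain ⟨g, hg, rfl⟩ := exists_sum hG.pos hG.pw hf
  obtain ⟨b, hb⟩ : ∃ b, b = v (∑ j ∈ Finset.range n, g j * e ^ j) := ⟨_, rfl⟩
  rw [← hb]
  have h1 : ∀ i, i < n → v.Ge b (g i * e ^ i) := fun i hi =>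
    hG.orth (f := g) hg (by rw [hb]; exact RVal.ge_self _) hi
  by_contra hno
  have h2 : ∀ i ∈ Finset.range n, Gt v b (g i * e ^ i) := by
    intro i hi h3
    have hg0 : g i ≠ 0 := fun h4 => h3 (by rw [h4, zero_mul])
    refine lt_of_le_of_ne (h1 i (Finset.mem_range.1 hi) h3) fun h4 => hno ?_
    obtain ⟨m, j, hm, h5⟩ := hval i (g i) (hg i) hg0
    exact ⟨m, j, hm, by rw [h4, h5]⟩
  have h3 := Gt.sum (Finset.range n) _ h2 hf0
  rw [← hb] at h3
  exact lt_irrefl _ h3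

/-- **The base.** -/
theorem exists_baseE [IsAlgClosed k] [IsAlgClosed Ω] [hp : Fact p.Prime] [CharP k p] [CharP Ω p]
    (h0 : Ctx0 k v) (hc : CompleteV v) (hsc : SphC v)
    (hval : ∀ ρ : ℝ, ∃ x : Ω, x ≠ 0 ∧ v x = ρ) (hF : Flr p v C W x y s) (hK : Cld v K)
    (hCK : C ≤ K) (hVG : VG v K ≤ VG v C) (hpd : PDiv p v C) (hq : QVal v x K)
    (hZ : StrZ p v W C y s) :
    ∃ (n N : ℕ) (x' e c : Ω) (ζ : k) (σ : Ω →ₐ[k] Ω) (T : k → Ω →ₐ[k] Ω),
      ¬ p ∣ N ∧ x' ^ N = x ∧ x' ∈ W ∧ x' ≠ 0 ∧ v x' ≠ 0 ∧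
      C ≤ clI v (IntermediateField.adjoin k {x', y}) ∧ QVal v x' K ∧
      e ^ n ∈ IntermediateField.adjoin k {x'} ∧ SigD v K e n ζ σ ∧
      c ∈ Adn (IntermediateField.adjoin k {x'}) {y} ∧ c ≠ 0 ∧ v (c * e) = s ∧
      GF1 v (TWM.cadj v (LU1.adj W e) y) T ∧ (∀ t, ∀ a ∈ algc W, T t a = a) ∧
      (∀ t, T t y = y + algebraMap k Ω t * (c * e)) ∧
      Eqv v n σ (TWM.cadj v (LU1.adj W e) y) T fun t => ζ * t := by
  classical
  obtain ⟨c₀, m₀, hm₀, hc₀C, hc₀0, hc₀s, hstr⟩ := hZ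
  have hCc : Cld v C := hF.cldC
  have hp0 : (p : ℝ) ≠ 0 := by exact_mod_cast hp.out.ne_zero
  obtain ⟨n, N, a, x', c₁, e, hpn, hpN, hx', hx'W, hc₁C, hc₁0, hvc, hen, hG⟩ :=
    exists_tame (p := p) h0 hCc hF.cld hF.le_C hF.mem hF.x0 hF.vx (fun g hg => by
      obtain ⟨f, hf, hf0, rfl⟩ := hg
      obtain ⟨g, hg, hg0, h1⟩ := hpd f hf hf0
      exact ⟨v g, VG.self hg hg0, h1⟩) hF.pow_val (fun g hg => by
      obtain ⟨f, hf, hf0, rfl⟩ := hg
      exact hq f (hCK hf) hf0) hm₀ hc₀C hc₀0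
  have hN0 : N ≠ 0 := fun h => hpN (h ▸ dvd_zero p)
  have hx'0 : x' ≠ 0 := by
    rintro rfl
    rw [zero_pow hN0] at hx'
    exact hF.x0 hx'.symm
  have hvx' : v x' ≠ 0 := by
    intro h1
    apply hF.vx
    rw [← hx', v.map_pow hx'0, h1, mul_zero]
  have hx'N : x' ∈ IntermediateField.adjoin k {x'} := IntermediateField.mem_adjoin_simple_self k x'
  have heN : e ^ n ∈ IntermediateField.adjoin k {x'} := by
    rw [hen]
    exact zpow_mem hx'N a
  have hNW : IntermediateField.adjoin k {x'} ≤ W := by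
    rw [IntermediateField.adjoin_le_iff, Set.singleton_subset_iff]
    exact hx'W
  have heW : e ^ n ∈ W := hNW heN
  have hle : C ≤ clI v (IntermediateField.adjoin k {x', y}) := by
    refine hF.le.trans (clI_le_clI ?_)
    rw [IntermediateField.adjoin_le_iff]
    rintro a (rfl | ha)
    · rw [← hx']
      exact pow_mem (IntermediateField.subset_adjoin k _ (by simp)) N
    · rw [Set.mem_singleton_iff.1 ha]
      exact IntermediateField.subset_adjoin k _ (by simp)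
  have hq' : QVal v x' K := hq.root hx' hx'0
  have hGK : GD v K e n :=
    { cld := hK
      pos := hG.pos
      ne := hG.ne
      pw := hCK hG.pw
      val := fun j hj => hG.val j (hVG hj) }
  obtain ⟨hnk, ζ, hζ⟩ := exists_prim (k := k) hpn
  obtain ⟨σ, hσ⟩ := GD.exists_sigD h0 hsc hval hGK hζ hnk
  have hfar : ∀ θ : Ω, IsAlgebraic W θ → y ≠ θ ∧ v (y - θ) ≤ s := fun θ hθ =>
    ⟨(hF.far θ hθ).1, (hF.far θ hθ).2.le⟩
  -- the step `c e`
  have hce0 : c₁ * e ≠ 0 := mul_ne_zero hc₁0 hG.ne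
  obtain ⟨ρ, hρ0, hρ⟩ := h0.res (c₀ / (c₁ * e)) (div_ne_zero hc₀0 hce0) (by
    rw [v.map_div hc₀0 hce0, hvc, sub_self])
  have hρΩ : algebraMap k Ω ρ ≠ 0 := (_root_.map_ne_zero _).2 hρ0
  have hnear₁ : Gt v s (c₀ - algebraMap k Ω ρ * c₁ * e) := by
    intro h1
    have e1 : c₀ - algebraMap k Ω ρ * c₁ * e =
        (c₀ / (c₁ * e) - algebraMap k Ω ρ) * (c₁ * e) := by
      rw [sub_mul, div_mul_cancel₀ _ hce0]
      ring
    have h2 : c₀ / (c₁ * e) - algebraMap k Ω ρ ≠ 0 := by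
      intro h3
      rw [e1, h3, zero_mul] at h1
      exact h1 rfl
    rw [e1, v.map_mul h2 hce0, hvc, hc₀s]
    have h3 := hρ h2
    linarith
  have hd1 := den1 (F := C) h0 hx'N hx'0 (IntermediateField.adjoin.mono k _ _ (by simp))
    (hq'.mono (show IntermediateField.adjoin k {x', y} ≤ K by
      rw [IntermediateField.adjoin_le_iff]
      rintro a (rfl | ha)
      · exact hCK (hF.le_C hx'W)
      · rw [Set.mem_singleton_iff.1 ha]
        exact hCK hF.mem_y)) hle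
  obtain ⟨c₂, hc₂, hc₂n⟩ := hd1 _ hc₁C (s - v e + 1)
  obtain ⟨c, hcdef⟩ : ∃ c, c = algebraMap k Ω ρ * c₂ := ⟨_, rfl⟩
  have hcA : c ∈ Adn (IntermediateField.adjoin k {x'}) {y} := by
    rw [hcdef]
    exact mul_mem (AdnK.const (S := {y}) ((IntermediateField.adjoin k {x'}).algebraMap_mem ρ)) hc₂
  have hnear : Gt v s (c₀ - c * e) := by
    have e1 : c₀ - c * e = (c₀ - algebraMap k Ω ρ * c₁ * e) +
        algebraMap k Ω ρ * ((c₁ - c₂) * e) := by
      rw [hcdef]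
      ring
    rw [e1]
    refine hnear₁.add (Gt.of_ge ((h0.ge ρ).mul (hc₂n.mul (RVal.ge_self (v := v) e))) ?_)
    linarith
  obtain ⟨hce, hvce⟩ := Gt.val_eq hc₀0 (by rw [hc₀s]; exact hnear)
  have hvs : v (c * e) = s := by rw [hvce, hc₀s]
  have hc0 : c ≠ 0 := left_ne_zero_of_mul hce
  have hcC : c ∈ C := AdnK.le (S := {y}) (hNW.trans hF.le_C) (by
    intro a ha
    rw [Set.mem_singleton_iff.1 ha]
    exact hF.mem_y) c hcA
  -- strict translations over `W(e)`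
  have hG' : GD v (cadj v W y) e n := by
    rw [← hF.eq]
    exact hG
  have hSC : StrC v (LU1.adj W e) y (c * e) := by
    refine StrC.up hG' heW (fun θ hθ => (hfar θ hθ).1) ?_
    exact StrC.near (c := c₀) h0 hstr hfar (by rw [← hc₀s]; exact RVal.ge_self _) hnear
  have hC' : TWM.cadj v (LU1.adj W e) y = LU1.adj C e := by
    rw [TWRZ.GD.cadj_adj hc hG', ← hF.eq]
  have hty : TL v (algc (LU1.adj W e)) y s := by
    rw [algc_adj_eq hG.pos heW]
    exact tl_algc hp.out.pos hF.far hF.lim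
  have hqC' : QVal v x (LU1.adj C e) := (hq.mono hCK).adj hG
  obtain ⟨T, hT, hTa, hTy⟩ := exists_gf1 (W := LU1.adj W e) (c := c * e) h0 hsc hval hty (by
      intro f hf b
      refine dense_val h0 (x := x) ((D2P.mem_adj_self W e).2 hF.mem) hF.x0 (fun g hg hg0 => ?_) hf b
      refine hqC' g ?_ hg0
      rw [← hC']
      exact D2P.adj_le (le_cadj v _ y) (self_mem_cadj v _ y) hg) (by
      rw [hC']
      exact mul_mem ((D2P.mem_adj_self C e).2 hcC) (D2P.mem_adj_self C e).1) hce hvs hSC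
  rw [algc_adj_eq hG.pos heW] at hTa
  have hσC := hσ.down hCc hCK hG.pw
  have hσ'' : SigD v C e n ζ σ := hσC
  refine ⟨n, N, x', e, c, ζ, σ, T, hpN, hx', hx'W, hx'0, hvx', hle, hq', heN, hσ, hcA, hc0, hvs,
    hT, hTa, hTy, hσ.iso, ?_, ?_, fun t f hf => ?_⟩
  · rw [hC']
    exact hσ''.map
  · rw [hC']
    exact hσ''.ord
  · have hσW : ∀ a ∈ LU1.adj W e, σ a ∈ LU1.adj W e :=
      (hσ''.down hF.cld hF.le_C heW).map
    have hWa : LU1.adj W e ≤ algc W :=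
      D2P.adj_le (le_algc W) (mem_algc.2 (alg_of_pw hG.pos heW))
    refine eq_on_cadj (Φ := σ.comp (T t)) (Ψ := (T (ζ * t)).comp σ)
      (isoE_comp hσ.iso (hT.fam.iso t)) (isoE_comp (hT.fam.iso _) hσ.iso) (fun a ha => ?_) ?_ f hf
    · rw [AlgHom.comp_apply, AlgHom.comp_apply, hTa t a (hWa ha),
        hTa _ _ (hWa (hσW a ha))]
    · rw [AlgHom.comp_apply, AlgHom.comp_apply, hTy, map_add, map_mul, map_mul, AlgHom.commutes,
        hσ''.fix y hF.mem_y, hσ''.fix c hcC, hσ.se, hTy, map_mul]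
      ring

end Pool.Agent.TWRZ
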