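import Pool.Agent.Lib.TWRZ.BaseZ
import Pool.Agent.Lib.TWF.InfAlt

/-!
# TANK W, (Ru.Z), (A): the base of the group of motions, over a first floor
-/

set_option autoImplicit false

open Polynomial

namespace Pool.Agent.TWRZ

open Pool.Agent.H15JM (RVal)
open Pool.Agent.D2 (Ctx0)
open Pool.Agent.TW (Ctx PBasis)
open Pool.Agent.TWM
open Pool.Agent.TWS
open Pool.Agent.TWF

universe u

variable {k Ω Ω' : Type u} [Field k] [Field Ω] [Algebra k Ω] [Field Ω'] [Algebra k Ω']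
  {v : RVal Ω} {w : RVal Ω'} {ι : Ω →ₐ[k] Ω'} {p : ℕ}
  {W C : IntermediateField k Ω} {x y c : Ω} {s : ℝ}

/-- **(Z): the base of the group of motions**, `c` in `C`. -/
theorem exists_gf1_flr [hp : Fact p.Prime] [IsAlgClosed Ω] [IsAlgClosed Ω'] (h : Ctx k v 1)
    (hcv : CompleteV v) (h0 : Ctx0 k w) (hsc : SphC w)
    (hval : ∀ ρ : ℝ, ∃ x : Ω', x ≠ 0 ∧ w x = ρ) (hι : IsoE v w ι) (hF : Flr p v C W x y s)
    (hc : c ∈ C) (hc0 : c ≠ 0) (hcs : v c = s)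
    (hZ : ∀ n : ℕ, ∃ Θ : Finset k, n ≤ Θ.card ∧ ∀ ζ ∈ Θ, ∃ μ : ℝ, 0 < μ ∧
      ∀ P ∈ PI W, v.Ge (v (P.eval y) + μ) (P.eval (y + algebraMap k Ω ζ * c) - P.eval y)) :
    ∃ T : k → Ω' →ₐ[k] Ω', GF1 w (C.map ι) T ∧
      (∀ t, ∀ a ∈ algc (W.map ι), T t a = a) ∧
      ∀ t, T t (ι y) = ι y + algebraMap k Ω' t * ι c := by
  have hc' : c ∈ cadj v W y := by
    rw [← hF.eq]
    exact hc
  obtain ⟨T, h2, h3, h4⟩ := exists_gf1_map h hcv h0 hsc hval hι hF.mem hF.x0 hF.vx hp.out.pos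
    hF.far hF.lim hc' hc0 hcs hZ
  refine ⟨T, ?_, h3, h4⟩
  rw [hF.eq]
  exact h2

end Pool.Agent.TWRZ
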