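import Pool.Agent.Lib.TWRZ.GF
import Pool.Agent.Lib.TWRZ.Law
import Pool.Agent.Lib.TW.Defs

/-!
# TANK W, (Ru.Z), (A): the base of the group of motions

`W` a field which contains `x`, `v x ≠ 0`, `y` far from the algebraic elements of `W` and a limit of
the radical ones, `c` in the closure `C` of `W(y)`, of value equal to the radius of `y`.
* `dense_val`: `W[y]` is dense in `C` (rational rank one, residue field `k`);
* `tl_algc`: `y` is of transcendental type over the algebraic closure of `W`;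
* `exists_gf1`: the embeddings `T t`, `t ∈ k`, `T t y = y + t c`, `T t = id` on the algebraic closure
  of `W`, are a one parameter group of motions of `C`, if infinitely many `y ↦ y + ζ c` are strict;
* `exists_gf1_map`: the same in a larger field.
-/

set_option autoImplicit false

open Polynomial

namespace Pool.Agent.TWRZ

open Pool.Agent.H15JM (RVal)
open Pool.Agent.LU1 (VPos adj)
open Pool.Agent.D2 (Ctx0)
open Pool.Agent.D2P (hen clI mem_clI mem_adj_iff)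
open Pool.Agent.TW (Ctx)
open Pool.Agent.TWM
open Pool.Agent.TWS
open Pool.Agent.TWCT (StrM map_cadj_le eq_on_cadj strM_cadj)

universe u

variable {k Ω : Type u} [Field k] [Field Ω] [Algebra k Ω] {v : RVal Ω}

/-! ### Density -/

section Dense

omit [Algebra k Ω] in
/-- `1 / (1 + μ)`. -/
theorem geom_inv {μ : Ω} (hμ : ∀ _ : μ ≠ 0, 0 < v μ) (b : ℝ) :
    ∃ n : ℕ, v.Ge b ((1 + μ)⁻¹ - ∑ i ∈ Finset.range n, (-μ) ^ i) := by
  have h1 : Gt v 0 (1 - (1 + μ)) := by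
    rw [show (1 : Ω) - (1 + μ) = -μ by ring]
    exact Gt.neg hμ
  rw [← v.map_one] at h1
  obtain ⟨h2, h3⟩ := Gt.val_eq one_ne_zero h1
  rw [v.map_one] at h3
  obtain ⟨η, hη, h4⟩ : ∃ η : ℝ, 0 < η ∧ v.Ge η (-μ) := by
    by_cases h0 : μ = 0
    · exact ⟨1, one_pos, by rw [h0, neg_zero]; exact RVal.Ge.zero⟩
    · exact ⟨v μ, hμ h0, (RVal.ge_self (v := v) μ).neg⟩
  obtain ⟨n, hn⟩ := exists_nat_gt (b / η)
  rw [div_lt_iff₀ hη] at hn
  refine ⟨n, ?_⟩
  have e : (1 + μ)⁻¹ - ∑ i ∈ Finset.range n, (-μ) ^ i = (-μ) ^ n * (1 + μ)⁻¹ := by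
    have h5 : (∑ i ∈ Finset.range n, (-μ) ^ i) * (1 + μ) = 1 - (-μ) ^ n := by
      have h6 := geom_sum_mul (-μ) n
      have h7 : (∑ i ∈ Finset.range n, (-μ) ^ i) * (1 + μ) =
          -((∑ i ∈ Finset.range n, (-μ) ^ i) * (-μ - 1)) := by
        ring
      rw [h7, h6]
      ring
    rw [eq_comm, ← sub_eq_zero]
    field_simp
    rw [mul_comm (1 + μ) (∑ i ∈ Finset.range n, (-μ) ^ i), h5]
    ring
  rw [e]
  have h5 : v.Ge 0 (1 + μ)⁻¹ := by
    intro _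
    rw [v.map_inv h2, h3]
    simp
  refine ((ge_pow h4 n).mul h5).mono ?_
  linarith

/-- Every value is commensurable with the value of `x`. -/
theorem exists_comm_val (h : Ctx k v 1) {x f : Ω} (hx0 : x ≠ 0) (hxv : v x ≠ 0) (hf : f ≠ 0) :
    ∃ (m : ℕ) (n : ℤ), m ≠ 0 ∧ (m : ℝ) * v f = n * v x := by
  obtain ⟨X, hX0, -, hXs⟩ := h.rank
  have h2 : ∀ g : Ω, g ≠ 0 → ∃ q : ℚ, v g = q * v (X 0) := by
    intro g hg
    obtain ⟨c, hc⟩ := (Submodule.mem_span_range_iff_exists_fun ℚ).1 (hXs g hg)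
    refine ⟨c 0, ?_⟩
    rw [← hc, Fin.sum_univ_one, Rat.smul_def]
  obtain ⟨q, hq⟩ := h2 f hf
  obtain ⟨q', hq'⟩ := h2 x hx0
  have hq'0 : q' ≠ 0 := by
    rintro rfl
    exact hxv (by rw [hq', Rat.cast_zero, zero_mul])
  refine ⟨(q / q').den, (q / q').num, Rat.den_ne_zero _, ?_⟩
  have h4 : ((q / q' : ℚ) : ℝ) * ((q / q').den : ℝ) = ((q / q').num : ℝ) := by
    have := Rat.mul_den_eq_num (q / q')
    exact_mod_cast this
  have h5 : ((q' : ℚ) : ℝ) ≠ 0 := by exact_mod_cast hq'0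
  rw [← h4, hq, hq']
  push_cast
  field_simp

variable {α : Type*} [SetLike α Ω] [SubringClass α Ω] {R : α}

/-- Inverses. -/
theorem inv_lim (h : Ctx0 k v) (hk : ∀ c : k, algebraMap k Ω c ∈ R) {x : Ω} (hx0 : x ≠ 0)
    (hx : x ∈ R) (hx' : x⁻¹ ∈ R) {f : Ω} (hf : f ∈ R) (hf0 : f ≠ 0)
    (hq : ∃ (m : ℕ) (n : ℤ), m ≠ 0 ∧ (m : ℝ) * v f = n * v x) (b : ℝ) :
    ∃ c ∈ R, v.Ge b (f⁻¹ - c) := by
  obtain ⟨m, n, hm, h1⟩ := hq
  have hxz : ∀ n : ℤ, x ^ n ∈ R := by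
    intro n
    obtain ⟨m, rfl | rfl⟩ := n.eq_nat_or_neg
    · rw [zpow_natCast]
      exact pow_mem hx m
    · rw [zpow_neg, zpow_natCast, ← inv_pow]
      exact pow_mem hx' m
  have hg0 : f ^ m * x ^ (-n) ≠ 0 := mul_ne_zero (pow_ne_zero _ hf0) (zpow_ne_zero _ hx0)
  have hgv : v (f ^ m * x ^ (-n)) = 0 := by
    rw [v.map_mul (pow_ne_zero _ hf0) (zpow_ne_zero _ hx0), v.map_pow hf0, v.map_zpow hx0]
    push_cast
    linarith
  obtain ⟨c, hc0, hc⟩ := h.res _ hg0 hgv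
  have hc0' : algebraMap k Ω c ≠ 0 := by
    rw [Ne, _root_.map_eq_zero]
    exact hc0
  obtain ⟨g, hg⟩ : ∃ g, g = f ^ m * x ^ (-n) := ⟨_, rfl⟩
  rw [← hg] at hc hg0 hgv
  obtain ⟨μ, hμ⟩ : ∃ μ, μ = algebraMap k Ω c⁻¹ * (g - algebraMap k Ω c) := ⟨_, rfl⟩
  have hμR : μ ∈ R := by
    rw [hμ, hg]
    exact mul_mem (hk _) (sub_mem (mul_mem (pow_mem hf m) (hxz _)) (hk c))
  have hg1 : g = algebraMap k Ω c * (1 + μ) := by
    rw [hμ, map_inv₀]
    field_simp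
    ring
  have hμv : ∀ _ : μ ≠ 0, 0 < v μ := by
    intro h2
    have h3 : g - algebraMap k Ω c ≠ 0 := by
      intro h4
      rw [h4, mul_zero] at hμ
      exact h2 hμ
    have h5 : algebraMap k Ω c⁻¹ ≠ 0 := by
      rw [Ne, _root_.map_eq_zero]
      exact inv_ne_zero hc0
    rw [hμ, v.map_mul h5 h3, h.triv _ (inv_ne_zero hc0), zero_add]
    exact hc h3
  obtain ⟨B, hB⟩ : ∃ B : ℝ, v.Ge B (f ^ (m - 1) * x ^ (-n) * algebraMap k Ω c⁻¹) :=
    ⟨_, RVal.ge_self (v := v) _⟩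
  obtain ⟨n', h2⟩ := geom_inv hμv (b - B)
  refine ⟨f ^ (m - 1) * x ^ (-n) * algebraMap k Ω c⁻¹ * ∑ i ∈ Finset.range n', (-μ) ^ i, ?_, ?_⟩
  · exact mul_mem (mul_mem (mul_mem (pow_mem hf _) (hxz _)) (hk _))
      (sum_mem fun i _ => pow_mem (neg_mem hμR) i)
  · have e : f⁻¹ = f ^ (m - 1) * x ^ (-n) * algebraMap k Ω c⁻¹ * (1 + μ)⁻¹ := by
      have h3 : f ^ m = f ^ (m - 1) * f := by
        rw [← pow_succ]
        congr 1
        omega
      have h4 : f * (f ^ (m - 1) * x ^ (-n)) = algebraMap k Ω c * (1 + μ) := by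
        rw [← hg1, hg, h3]
        ring
      have h5 : 1 + μ ≠ 0 := by
        intro h6
        rw [h6, mul_zero] at hg1
        exact hg0 hg1
      rw [map_inv₀]
      field_simp
      rw [← h4]
      ring
    rw [e, ← mul_sub]
    exact (hB.mul h2).mono (by linarith)

variable {W : IntermediateField k Ω} {x y : Ω}

/-- The values of the polynomials in `y`. -/
def evR (W : IntermediateField k Ω) (y : Ω) : Subring Ω where
  carrier := {a | ∃ P ∈ PI W, P.eval y = a}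
  mul_mem' := by
    rintro _ _ ⟨P, hP, rfl⟩ ⟨Q, hQ, rfl⟩
    exact ⟨P * Q, mul_mem hP hQ, eval_mul⟩
  one_mem' := ⟨1, one_mem _, eval_one⟩
  add_mem' := by
    rintro _ _ ⟨P, hP, rfl⟩ ⟨Q, hQ, rfl⟩
    exact ⟨P + Q, add_mem hP hQ, eval_add⟩
  zero_mem' := ⟨0, zero_mem _, eval_zero⟩
  neg_mem' := by
    rintro _ ⟨P, hP, rfl⟩
    exact ⟨-P, neg_mem hP, eval_neg ..⟩

theorem mem_evR {a : Ω} : a ∈ evR W y ↔ ∃ P ∈ PI W, P.eval y = a := Iff.rfl

theorem const_mem_evR {a : Ω} (ha : a ∈ W) : a ∈ evR W y :=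
  ⟨C a, C_mem_PI ha, eval_C⟩

/-- **The polynomials in `y` are dense**, the values are commensurable with the value of `x`. -/
theorem dense_val (h : Ctx0 k v) (hxW : x ∈ W) (hx0 : x ≠ 0)
    (hq : ∀ f ∈ adj W y, f ≠ 0 → ∃ (m : ℕ) (n : ℤ), m ≠ 0 ∧ (m : ℝ) * v f = n * v x)
    {a : Ω} (ha : a ∈ cadj v W y) (b : ℝ) : ∃ P ∈ PI W, v.Ge b (a - P.eval y) := by
  obtain ⟨x', hx', h1⟩ := mem_clI.1 ha b
  have hx'' : x' ∈ adj W y := hx'
  rw [mem_adj_iff, IntermediateField.mem_adjoin_simple_iff] at hx''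
  obtain ⟨P, Q, rfl⟩ := hx''
  have hPI : ∀ P : Polynomial W, P.map (algebraMap W Ω) ∈ PI W := fun P i => by
    rw [coeff_map]
    exact (P.coeff i).2
  rw [← eval_map_algebraMap, ← eval_map_algebraMap] at h1
  obtain ⟨f, hf⟩ : ∃ f, f = P.map (algebraMap W Ω) := ⟨_, rfl⟩
  obtain ⟨g, hg⟩ : ∃ g, g = Q.map (algebraMap W Ω) := ⟨_, rfl⟩
  rw [← hf, ← hg] at h1
  have hfm : f ∈ PI W := by
    rw [hf]
    exact hPI P
  have hgm : g ∈ PI W := by
    rw [hg]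
    exact hPI Q
  by_cases hg0 : g.eval y = 0
  · rw [hg0, div_zero] at h1
    exact ⟨0, zero_mem _, by rwa [eval_zero]⟩
  have hga : g.eval y ∈ adj W y := by
    have h2 := (D2P.mem_adj_self W y).1
    have h3 : W ≤ adj W y := fun a ha => (D2P.mem_adj_self W y).2 ha
    exact TWM.eval_mem (PI_mono h3 hgm) h2
  obtain ⟨B, hB⟩ : ∃ B : ℝ, v.Ge B (f.eval y) := ⟨_, RVal.ge_self (v := v) _⟩
  obtain ⟨_, ⟨H, hH, rfl⟩, h2⟩ := inv_lim (R := evR W y) h
    (fun c => const_mem_evR (W.algebraMap_mem c)) hx0 (const_mem_evR hxW)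
    (const_mem_evR (inv_mem hxW)) ⟨g, hgm, rfl⟩ hg0 (hq _ hga hg0) (b - B)
  refine ⟨f * H, mul_mem hfm hH, ?_⟩
  have e : a - (f * H).eval y = (a - f.eval y / g.eval y) +
      f.eval y * ((g.eval y)⁻¹ - H.eval y) := by
    rw [eval_mul]
    ring
  rw [e]
  exact h1.add ((hB.mul h2).mono (by linarith))

end Dense

/-! ### The group of motions -/

variable {W : IntermediateField k Ω} {x y c : Ω} {s : ℝ} {p : ℕ}

/-- `y` is of transcendental type over the algebraic closure of `W`. -/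
theorem tl_algc (hp : 0 < p) (hfar : ∀ θ : Ω, IsAlgebraic W θ → y ≠ θ ∧ v (y - θ) < s)
    (hlim : ∀ ε : ℝ, 0 < ε → ∃ (j : ℕ) (a : Ω), a ^ p ^ j ∈ W ∧ v.Ge (s - ε) (y - a)) :
    TL v (algc W) y s where
  lim := fun ε hε => by
    obtain ⟨j, a, ha, h1⟩ := hlim ε hε
    refine ⟨a, mem_algc.2 ?_, h1⟩
    exact IsAlgebraic.of_pow (pow_pos hp j) (isAlgebraic_algebraMap (R := W) (⟨a ^ p ^ j, ha⟩ : W))
  far := fun θ hθ => hfar θ (isAlgebraic_of_algc hθ)

/-- **The base of the group of motions.** -/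
theorem exists_gf1 [IsAlgClosed Ω] (h0 : Ctx0 k v) (hsc : SphC v)
    (hval : ∀ ρ : ℝ, ∃ x : Ω, x ≠ 0 ∧ v x = ρ) (hy : TL v (algc W) y s)
    (hden : ∀ f ∈ cadj v W y, ∀ b : ℝ, ∃ P ∈ PI W, v.Ge b (f - P.eval y))
    (hc : c ∈ cadj v W y) (hc0 : c ≠ 0) (hcs : v c = s)
    (hZ : ∀ n : ℕ, ∃ Θ : Finset k, n ≤ Θ.card ∧ ∀ ζ ∈ Θ, ∃ μ : ℝ, 0 < μ ∧
      ∀ P ∈ PI W, v.Ge (v (P.eval y) + μ) (P.eval (y + algebraMap k Ω ζ * c) - P.eval y)) :
    ∃ T : k → Ω →ₐ[k] Ω, GF1 v (cadj v W y) T ∧ (∀ t, ∀ a ∈ algc W, T t a = a) ∧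
      ∀ t, T t y = y + algebraMap k Ω t * c := by
  classical
  have hcge : ∀ t : k, v.Ge s (algebraMap k Ω t * c) := fun t => by
    have h1 := (h0.ge t).mul (RVal.Ge.of_le (v := v) hcs.ge)
    rwa [zero_add] at h1
  have hid : IsoE v v (AlgHom.id k Ω) := ⟨fun a _ => by rw [AlgHom.id_apply]⟩
  have hex : ∀ t : k, ∃ Φ' : Ω →ₐ[k] Ω, IsoE v v Φ' ∧ (∀ b ∈ algc W, Φ' b = AlgHom.id k Ω b) ∧
      Φ' y = y + algebraMap k Ω t * c := fun t => by
    refine hid.exists_move_tl h0 hsc hval hy fun ε hε => ?_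
    obtain ⟨b, hb, h1⟩ := hy.lim ε hε
    refine ⟨b, hb, h1, ?_⟩
    rw [AlgHom.id_apply, add_sub_right_comm]
    exact h1.add ((hcge t).mono (by linarith))
  choose T hiso hT hTy using hex
  have hWC : W ≤ cadj v W y := le_cadj v W y
  have hTW : ∀ t, ∀ a ∈ W, T t a = a := fun t a ha => hT t a (le_algc W ha)
  have hmem : ∀ t, ∀ f ∈ cadj v W y, T t f ∈ cadj v W y := fun t =>
    map_cadj_le (hiso t) (cld_cadj v W y) (fun a ha => by
      rw [hTW t a ha]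
      exact hWC ha) (by
      rw [hTy]
      exact add_mem (self_mem_cadj v W y) (mul_mem ((cadj v W y).algebraMap_mem _) hc))
  have hpol : ∀ f ∈ cadj v W y, Pl v (cadj v W y) (Pk k) fun t => T t f := by
    intro f hf
    refine Pl.of_near fun B => ?_
    obtain ⟨P, hP, h1⟩ := hden f hf B
    refine ⟨fun t => T t (P.eval y), ?_, fun t => ?_⟩
    · have hpl : Pl v (cadj v W y) (Pk k) fun t => T t y := by
        have h2 : Pl v (cadj v W y) (Pk k) fun t => y + algebraMap k Ω t * c :=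
          ((P0.const (self_mem_cadj v W y)).add (P0.of id_mem_Pk hc)).pl
        refine (congrArg (Pl v (cadj v W y) (Pk k)) (funext fun t => ?_)).mp h2
        exact (hTy t).symm
      have h2 := Pl.sum (v := v) (L := cadj v W y) (R := Pk k) (Finset.range (P.natDegree + 1))
        (g := fun i t => P.coeff i * T t y ^ i) fun i _ =>
          ((P0.const (hWC (hP i))).pl).mul h0 (hpl.pow h0 i)
      refine (congrArg (Pl v (cadj v W y) (Pk k)) (funext fun t => ?_)).mp h2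
      rw [eval_eq_sum_range, map_sum]
      refine Finset.sum_congr rfl fun i _ => ?_
      rw [map_mul, map_pow, hTW t _ (hP i)]
    · rw [← map_sub]
      exact (hiso t).ge_iff.2 h1
  have hev : ∀ t, ∀ P ∈ PI W, T t (P.eval y) = P.eval (y + algebraMap k Ω t * c) := by
    intro t P hP
    rw [eval_eq_sum_range, eval_eq_sum_range, map_sum]
    refine Finset.sum_congr rfl fun i _ => ?_
    rw [map_mul, map_pow, hTW t _ (hP i), hTy]
  refine ⟨T, ⟨⟨hiso, hmem, hpol⟩, ?_, ?_, ?_⟩, hT, hTy⟩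
  · -- the identity
    refine eq_on_cadj (Ψ := AlgHom.id k Ω) (hiso 0) hid (fun a ha => hTW 0 a ha) ?_
    rw [hTy, map_zero, zero_mul, add_zero]
    rfl
  · -- the law
    have hle : cadj v W y ≤ cadj v (algc W) y :=
      cadj_le (cld_cadj v _ y) ((le_algc W).trans (le_cadj v _ y)) (self_mem_cadj v _ y)
    obtain ⟨c₀, hc₀, h1⟩ := hy.imm.imm c (hle hc) hc0
    obtain ⟨μ, hμ, h2⟩ : ∃ μ : ℝ, 0 < μ ∧ v.Ge (s + μ) (c - c₀) := by
      by_cases h3 : c - c₀ = 0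
      · exact ⟨1, one_pos, by rw [h3]; exact RVal.Ge.zero⟩
      · refine ⟨v (c - c₀) - s, ?_, RVal.Ge.of_le (by linarith)⟩
        have := h1 h3
        rw [hcs] at this
        linarith
    refine ⟨μ, hμ, fun t t' f hf => ?_⟩
    obtain ⟨e, he, h3⟩ := hy.lim 1 one_pos
    refine NrM.tl (A := (T t).comp (T t')) (A' := T (t + t')) hy ⟨fun a ha => ?_⟩ (hiso _)
      (d := μ + 1) (e := μ) (e₁ := 1) (c := e) ?_ hμ.le zero_le_one le_rfl he h3 ?_ f (hle hf)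
    · rw [AlgHom.comp_apply, (hiso t).val _ (IsoE.ne_zero ha), (hiso t').val _ ha]
    · intro a ha r _
      rw [AlgHom.comp_apply, hT t' a ha, AlgHom.id_apply, hT t a ha, AlgHom.id_apply,
        hT (t + t') a ha, AlgHom.id_apply, sub_self]
      exact RVal.Ge.zero
    · rw [AlgHom.comp_apply, AlgHom.comp_apply, hT t' e he, AlgHom.id_apply, hT t e he,
        AlgHom.id_apply, hT (t + t') e he, AlgHom.id_apply, hTy t', hTy (t + t'), map_add, map_mul,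
        AlgHom.commutes, hTy t, map_add]
      have h4 : T t c - c = T t (c - c₀) - (c - c₀) := by
        rw [map_sub, hT t c₀ hc₀, AlgHom.id_apply]
        ring
      have h5 : v.Ge (s + μ) (T t c - c) := by
        rw [h4]
        exact ((hiso t).ge_iff.2 h2).sub h2
      have e1 : y + algebraMap k Ω t * c + algebraMap k Ω t' * T t c -
          (y + (algebraMap k Ω t + algebraMap k Ω t') * c) - (e - e) =
          algebraMap k Ω t' * (T t c - c) := by ring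
      rw [e1]
      have h6 := (h0.ge t').mul h5
      rwa [zero_add] at h6
  · -- the strict points
    intro hfin
    obtain ⟨Θ, hΘ, h1⟩ := hZ (hfin.toFinset.card + 1)
    have h2 : Θ ⊆ hfin.toFinset := by
      intro ζ hζ
      rw [Set.Finite.mem_toFinset]
      obtain ⟨μ, hμ, h3⟩ := h1 ζ hζ
      refine ⟨μ, hμ, strM_cadj (hiso ζ) hμ.le fun P hP => ?_⟩
      rw [hev ζ P hP]
      exact h3 P hP
    have h3 := Finset.card_le_card h2
    omega

/-! ### In a larger field -/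

section Map

variable {Ω' : Type u} [Field Ω'] [Algebra k Ω'] {w : RVal Ω'} {ι : Ω →ₐ[k] Ω'}

theorem exists_PI_map {P : Polynomial Ω'} (hP : P ∈ PI (W.map ι)) :
    ∃ Q ∈ PI W, Q.map ι.toRingHom = P := by
  choose q hq hq' using hP
  refine ⟨∑ i ∈ Finset.range (P.natDegree + 1), C (q i) * X ^ i, sum_mem fun i _ =>
    mul_mem (C_mem_PI (hq i)) (pow_mem X_mem_PI i), ?_⟩
  rw [Polynomial.map_sum]
  conv_rhs => rw [P.as_sum_range_C_mul_X_pow]
  refine Finset.sum_congr rfl fun i _ => ?_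
  rw [Polynomial.map_mul, map_C, Polynomial.map_pow, map_X]
  congr 2
  exact hq' i

/-- **The base of the group of motions, in a larger field.** -/
theorem exists_gf1_map [IsAlgClosed Ω] [IsAlgClosed Ω'] (h : Ctx k v 1) (hcv : CompleteV v)
    (h0 : Ctx0 k w) (hsc : SphC w) (hval : ∀ ρ : ℝ, ∃ x : Ω', x ≠ 0 ∧ w x = ρ)
    (hι : IsoE v w ι) (hxW : x ∈ W) (hx0 : x ≠ 0) (hvx : v x ≠ 0) (hp : 0 < p)
    (hfar : ∀ θ : Ω, IsAlgebraic W θ → y ≠ θ ∧ v (y - θ) < s)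
    (hlim : ∀ ε : ℝ, 0 < ε → ∃ (j : ℕ) (a : Ω), a ^ p ^ j ∈ W ∧ v.Ge (s - ε) (y - a))
    (hc : c ∈ cadj v W y) (hc0 : c ≠ 0) (hcs : v c = s)
    (hZ : ∀ n : ℕ, ∃ Θ : Finset k, n ≤ Θ.card ∧ ∀ ζ ∈ Θ, ∃ μ : ℝ, 0 < μ ∧
      ∀ P ∈ PI W, v.Ge (v (P.eval y) + μ) (P.eval (y + algebraMap k Ω ζ * c) - P.eval y)) :
    ∃ T : k → Ω' →ₐ[k] Ω', GF1 w ((cadj v W y).map ι) T ∧
      (∀ t, ∀ a ∈ algc (W.map ι), T t a = a) ∧
      ∀ t, T t (ι y) = ι y + algebraMap k Ω' t * ι c := by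
  have hy : TL w (algc (W.map ι)) (ι y) s := by
    rw [IsoE.algc_map]
    exact hι.tl_iff.2 (tl_algc hp hfar hlim)
  have hy0 : ∀ P ∈ PI W, P.eval y = 0 → P = 0 := fun P hP h1 => by
    by_contra h2
    exact (hfar y (isAlgebraic_root hP h2 h1)).1 rfl
  rw [← hι.cadj_map hcv]
  refine exists_gf1 h0 hsc hval hy ?_ (c := ι c) ?_ (IsoE.ne_zero hc0) (by rw [hι.val c hc0, hcs])
    fun n => ?_
  · intro f hf b
    rw [hι.cadj_map hcv] at hf
    obtain ⟨a, ha, rfl⟩ := hf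
    obtain ⟨P, hP, h1⟩ := dense_val h.toCtx0 hxW hx0
      (fun g _ hg => exists_comm_val h hx0 hvx hg) ha b
    refine ⟨P.map ι.toRingHom, fun i => ?_, ?_⟩
    · rw [coeff_map]
      exact ⟨P.coeff i, hP i, rfl⟩
    · have e : ι.toRingHom a - (P.map ι.toRingHom).eval (ι y) = ι (a - P.eval y) := by
        have h2 : (P.map ι.toRingHom).eval (ι y) = ι (P.eval y) :=
          eval_map_apply (f := ι.toRingHom) (p := P) y
        rw [h2, map_sub]
        rfl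
      exact (congrArg (w.Ge b) e).mpr (hι.ge_iff.2 h1)
  · rw [hι.cadj_map hcv]
    exact ⟨c, hc, rfl⟩
  · obtain ⟨Θ, h1, h2⟩ := hZ n
    refine ⟨Θ, h1, fun ζ hζ => ?_⟩
    obtain ⟨μ, hμ, h3⟩ := h2 ζ hζ
    refine ⟨μ, hμ, fun P hP => ?_⟩
    obtain ⟨Q, hQ, rfl⟩ := exists_PI_map hP
    have e1 : ∀ z : Ω, (Q.map ι.toRingHom).eval (ι z) = ι (Q.eval z) := fun z =>
      eval_map_apply (f := ι.toRingHom) (p := Q) z
    have e2 : ι y + algebraMap k Ω' ζ * ι c = ι (y + algebraMap k Ω ζ * c) := by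
      rw [map_add, map_mul, AlgHom.commutes]
    by_cases h4 : Q.eval y = 0
    · rw [hy0 Q hQ h4, Polynomial.map_zero, eval_zero, eval_zero, sub_zero]
      exact RVal.Ge.zero
    · rw [e2, e1, e1, hι.val _ h4, ← map_sub]
      exact hι.ge_iff.2 (h3 Q hQ)

end Map

end Pool.Agent.TWRZ
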