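import Pool.Agent.Lib.TWRZ.GF

/-!
# TANK W, (Ru.Z): the finite shape on a product from the finite shape on the axes

* `fsh_box`: `T (x, y) = A x ∘ B y = B y ∘ A x` on `L`; the finite shape of `w` for `A` and for `B` gives
  the finite shape of `w` for `T`;
* `GP.fsh`: the same for a two parameter group (`GP`, so `GF2` too).
-/

set_option autoImplicit false

open Polynomial

namespace Pool.Agent.TWRZ

open Pool.Agent.H15JM (RVal)
open Pool.Agent.D2 (Ctx0)
open Pool.Agent.TWM
open Pool.Agent.TWS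

universe u

variable {k Ω : Type u} [Field k] [Field Ω] [Algebra k Ω] {v : RVal Ω} {X Y : Type*}
variable {L : IntermediateField k Ω} {R : Subalgebra k (X → k)} {Q : Subalgebra k (Y → k)}
  {w : Ω} {ρ : ℝ}

/-- **The finite shape on a product.** -/
theorem fsh_box {A : X → Ω →ₐ[k] Ω} {B : Y → Ω →ₐ[k] Ω} {T : X × Y → Ω →ₐ[k] Ω} (h0 : Ctx0 k v)
    (hA : ∀ x, IsoE v v (A x)) (hB : ∀ y, IsoE v v (B y)) (hBL : ∀ y, ∀ f ∈ L, B y f ∈ L)
    (hT : ∀ x y, ∀ f ∈ L, T (x, y) f = A x (B y f))
    (hT' : ∀ x y, ∀ f ∈ L, T (x, y) f = B y (A x f))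
    (h1 : FSh v L R A w ρ) (h2 : FSh v L Q B w ρ) : FSh v L (PP R Q) T w ρ := by
  classical
  obtain ⟨ι, hι, φ, hφ, h1⟩ := h1
  obtain ⟨κ, hκ, ψ, hψ, h2⟩ := h2
  obtain ⟨G, m, -, hm, hi⟩ := interp (R := Q) hψ Set.univ
  let e : G ≃ Fin G.card := G.equivFin
  let Φ : (Fin G.card × Option ι) ⊕ ι → X × Y → k := Sum.elim
    (fun j => j.2.elim (fun z => m (e.symm j.1) z.2) fun i z => φ i z.1 * m (e.symm j.1) z.2)
    fun i z => φ i z.1
  refine ⟨(Fin G.card × Option ι) ⊕ ι, inferInstance, Φ, ?_, fun ε hε => ?_⟩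
  · rintro (⟨j, _ | i⟩ | i)
    · exact snd_mem_PP (hm _)
    · exact mul_mem (fst_mem_PP (hφ i)) (snd_mem_PP (hm _))
    · exact fst_mem_PP (hφ i)
  · refine ((h1 ε hε).and (h2 ε hε)).mono fun θ hθ h3 => ?_
    obtain ⟨⟨c, hc, h3⟩, d, hd, h4⟩ := h3
    let C : (Fin G.card × Option ι) ⊕ ι → Ω := Sum.elim
      (fun j => j.2.elim (B (e.symm j.1) θ - θ) fun i => B (e.symm j.1) (c i) - c i) c
    refine ⟨C, ?_, ?_⟩
    · rintro (⟨j, _ | i⟩ | i)
      · exact sub_mem (hBL _ _ hθ) hθ
      · exact sub_mem (hBL _ _ (hc i)) (hc i)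
      · exact hc i
    · rintro ⟨x, y⟩
      have e1 : ∑ i, algebraMap k Ω (Φ i (x, y)) * C i =
          (∑ g ∈ G, algebraMap k Ω (m g y) * ((B g θ - θ) +
            ∑ i, algebraMap k Ω (φ i x) * (B g (c i) - c i))) +
          ∑ i, algebraMap k Ω (φ i x) * c i := by
        rw [Fintype.sum_sum_type, Fintype.sum_prod_type]
        congr 1
        rw [← Finset.sum_coe_sort G, ← e.symm.sum_comp]
        refine Finset.sum_congr rfl fun j _ => ?_
        rw [Fintype.sum_option, mul_add, Finset.mul_sum]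
        congr 1
        refine Finset.sum_congr rfl fun i _ => ?_
        change algebraMap k Ω (φ i x * m (e.symm j) y) * (B (e.symm j) (c i) - c i) = _
        rw [map_mul]
        ring
      -- the approximation of `B y θ - θ`
      have h5 : v.Ge (ρ - ε) (B y θ - θ - ∑ g ∈ G, algebraMap k Ω (m g y) * (B g θ - θ)) := by
        have e2 : ∑ j, algebraMap k Ω (ψ j y) * d j =
            ∑ g ∈ G, algebraMap k Ω (m g y) * ∑ j, algebraMap k Ω (ψ j g) * d j := by
          simp only [Finset.mul_sum]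
          rw [Finset.sum_comm]
          refine Finset.sum_congr rfl fun j _ => ?_
          rw [hi y (zc_univ y) j, map_sum, Finset.sum_mul]
          refine Finset.sum_congr rfl fun s _ => ?_
          rw [map_mul]
          ring
        have e3 : B y θ - θ - ∑ g ∈ G, algebraMap k Ω (m g y) * (B g θ - θ) =
            (B y θ - θ - ∑ j, algebraMap k Ω (ψ j y) * d j) -
            ∑ g ∈ G, algebraMap k Ω (m g y) * (B g θ - θ - ∑ j, algebraMap k Ω (ψ j g) * d j) := by
          rw [e2]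
          simp only [mul_sub, Finset.sum_sub_distrib]
          ring
        rw [e3]
        refine (h4 y).sub (RVal.Ge.sum _ _ fun g _ => ?_)
        have h6 := (h0.ge (m g y)).mul (h4 g)
        rwa [zero_add] at h6
      have h6 := (hA x).ge_iff.2 h5
      have h7 : ∀ g, v.Ge (ρ - ε) (A x (B g θ - θ) - ((B g θ - θ) +
          ∑ i, algebraMap k Ω (φ i x) * (B g (c i) - c i))) := by
        intro g
        have e4 : A x (B g θ - θ) = B g (A x θ) - A x θ := by
          rw [map_sub, ← hT x g θ hθ, hT' x g θ hθ]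
        have e5 : A x (B g θ - θ) - ((B g θ - θ) +
            ∑ i, algebraMap k Ω (φ i x) * (B g (c i) - c i)) =
            B g (A x θ - θ - ∑ i, algebraMap k Ω (φ i x) * c i) -
              (A x θ - θ - ∑ i, algebraMap k Ω (φ i x) * c i) := by
          rw [e4]
          simp only [mul_sub, Finset.sum_sub_distrib, map_sub, map_sum, map_mul,
            AlgHom.commutes]
          ring
        rw [e5]
        exact ((hB g).ge_iff.2 (h3 x)).sub (h3 x)
      have e6 : T (x, y) θ - θ - ∑ i, algebraMap k Ω (Φ i (x, y)) * C i =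
          A x (B y θ - θ - ∑ g ∈ G, algebraMap k Ω (m g y) * (B g θ - θ)) +
          ((∑ g ∈ G, algebraMap k Ω (m g y) * (A x (B g θ - θ) - ((B g θ - θ) +
            ∑ i, algebraMap k Ω (φ i x) * (B g (c i) - c i)))) +
          (A x θ - θ - ∑ i, algebraMap k Ω (φ i x) * c i)) := by
        rw [e1, hT x y θ hθ, map_sub (A x) _ (∑ g ∈ G, _), map_sum (A x)]
        simp only [map_mul (A x), AlgHom.commutes]
        rw [map_sub (A x) (B y θ)]
        have e7 : ∑ g ∈ G, algebraMap k Ω (m g y) * (A x (B g θ - θ) - ((B g θ - θ) +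
            ∑ i, algebraMap k Ω (φ i x) * (B g (c i) - c i))) =
            ∑ g ∈ G, algebraMap k Ω (m g y) * A x (B g θ - θ) -
            ∑ g ∈ G, algebraMap k Ω (m g y) * ((B g θ - θ) +
            ∑ i, algebraMap k Ω (φ i x) * (B g (c i) - c i)) := by
          rw [← Finset.sum_sub_distrib]
          refine Finset.sum_congr rfl fun g _ => ?_
          rw [mul_sub]
        rw [e7]
        ring
      rw [e6]
      refine h6.add (RVal.Ge.add (RVal.Ge.sum _ _ fun g _ => ?_) (h3 x))
      have h8 := (h0.ge (m g y)).mul (h7 g)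
      rwa [zero_add] at h8

variable {T₂ : k × k → Ω →ₐ[k] Ω} {δ : k → k → k}

/-- **The finite shape from the axes.** -/
theorem GP.fsh (h0 : Ctx0 k v) (h : GP v L T₂ δ)
    (h1 : FSh v L (Pk k) (fun s => T₂ (s, 0)) w ρ)
    (h2 : FSh v L (Pk k) (fun c => T₂ (0, c)) w ρ) : FSh v L (PP (Pk k) (Pk k)) T₂ w ρ :=
  fsh_box h0 h.fam1.iso h.fam2.iso h.fam2.mem (fun s c f hf => h.ax s c f hf)
    (fun s c f hf => h.ax' s c f hf) h1 h2

end Pool.Agent.TWRZ
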