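import Pool.Agent.Lib.TWRZ.GF
import Pool.Agent.Lib.TWEX.KArc0
import Pool.Agent.Lib.TWRL.Add

/-!
# TANK W, (Ru.Z): triangular families of motions

`FTri`: a one parameter family of pointwise strict motions of `K = cl k(T)`, triangular over the fixed
coordinates `T j`, `j ∈ J`, the coordinate `T i₀` moves by `α(t) c`, `α` additive.
-/

set_option autoImplicit false

open Polynomial

namespace Pool.Agent.TWRZ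

open Pool.Agent.H15JM (RVal)
open Pool.Agent.TWM
open Pool.Agent.TWEX (Adn)
open TWRL (FAdd)

universe u

variable {k Ω : Type u} [Field k] [Field Ω] [Algebra k Ω]

/-- A triangular family of motions of `K` over the fixed coordinates `T j`, `j ∈ J`. -/
structure FTri (p : ℕ) (v : RVal Ω) (N₀ N K : IntermediateField k Ω) {m : ℕ} (T : Fin m → Ω)
    (J : Set (Fin m)) (i₀ : Fin m) (c : Ω) (s : ℝ) (A : k → Ω →ₐ[k] Ω) : Prop where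
  n0 : N₀ = IntermediateField.adjoin k (T '' J)
  xv : ∃ x ∈ N₀, x ≠ 0 ∧ v x ≠ 0
  le0 : N₀ ≤ N
  cN : Cld v N
  nle : N ≤ K
  tmem : ∀ i, T i ∈ K
  fam : Fam v K (Pk k) A
  id0 : ∀ f ∈ K, A 0 f = f
  ptw : ∀ t, ∀ f ∈ K, ∀ b : ℝ, v.Ge b f → Gt v b (A t f - f)
  con : ∀ t, ∀ a ∈ N, A t a = a
  i0 : i₀ ∉ J
  cmem : c ∈ Adn N₀ {T i₀}
  c0 : c ≠ 0
  cv : v c = s
  mv : ∃ α : k[X], FAdd α ∧ α ≠ 0 ∧ ∀ t, A t (T i₀) = T i₀ + algebraMap k Ω (α.eval t) * c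
  jet : ∀ i, i ∉ J → i ≠ i₀ → ∃ P : Polynomial Ω, (∀ l, P.coeff l ∈ Adn N₀ (T '' {j | j < i})) ∧
    ∀ t, A t (T i) = T i + P.eval (algebraMap k Ω t)
  lim : ∀ δ : ℝ, 0 < δ → ∃ j : ℕ, ∃ n ∈ N, v.Ge (p ^ j * (s - δ)) (T i₀ ^ p ^ j - n)
  nd : ∀ n ∈ N, ∀ b : ℝ, ∃ a ∈ Adn N₀ {T i₀}, v.Ge b (n - a)
  den : ∀ a ∈ K, ∀ b : ℝ, ∃ g ∈ Adn N₀ (Set.range T), v.Ge b (a - g)
  near : ∃ U ∈ K, ∃ R μ : ℝ, 0 < μ ∧ (∀ t, v.Ge (R + μ) (A t U - U)) ∧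
    ∀ θ : Ω, IsAlgebraic N θ → U ≠ θ ∧ v (U - θ) ≤ R

end Pool.Agent.TWRZ
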