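import Pool.Agent.Lib.TWRZ.Floor
import Pool.Agent.Lib.TWRZ.FTri
import Pool.Agent.Lib.TWRZ.Den

/-!
# TANK W, (Ru.Z): the two triangular families

* `ftri_one`: `y` moves, one parameter groups on the closures of `C(z)` and of `C(z, z')`;
* `ftri_two`: `y` is fixed, `z` moves, from a two parameter group on the closure of `C(z)`.
-/

set_option autoImplicit false

open Polynomial

namespace Pool.Agent.TWRZ

open Pool.Agent.H15JM (RVal)
open Pool.Agent.LU1 (VPos adj)
open Pool.Agent.D2 (Ctx0)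
open Pool.Agent.D2P (clI mem_clI)
open Pool.Agent.TWM
open Pool.Agent.TWS
open Pool.Agent.TWEX (Adn)
open Pool.Agent.TWCT (StrM eq_on_cadj)
open Pool.Agent.TWII (PG LP)
open Pool.Agent.TW (kr)
open TWRL (FAdd)

universe u

variable {k Ω : Type u} [Field k] [Field Ω] [Algebra k Ω] {v : RVal Ω}

theorem comp_coeff_mem {A : Submodule k Ω} {V : Polynomial Ω} (hV : ∀ l, V.coeff l ∈ A) (q : k[X])
    (l : ℕ) : (V.comp (q.map (algebraMap k Ω))).coeff l ∈ A := by
  rw [comp_eq_sum_left, Polynomial.sum, finsetSum_coeff]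
  refine sum_mem fun i _ => ?_
  rw [coeff_C_mul, ← Polynomial.map_pow, coeff_map, mul_comm, ← Algebra.smul_def]
  exact A.smul_mem _ (hV i)

/-- The motion of a floor is polynomial. -/
theorem Fl1.poly {L : IntermediateField k Ω} {T T₁ : k → Ω →ₐ[k] Ω} {A : Submodule k Ω} {u : Ω}
    {r : ℝ} {R hh B : k[X]} {V : Polynomial Ω} (h : Fl1 L T T₁ A u r R hh B V) (h1 : (1 : Ω) ∈ A)
    (q : k[X]) : ∃ P : Polynomial Ω, (∀ l, P.coeff l ∈ A) ∧
      ∀ t, T₁ (q.eval t) u = u + P.eval (algebraMap k Ω t) := by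
  refine ⟨V.comp ((R.comp q).map (algebraMap k Ω)) +
    (hh.comp (R.comp q) + B.comp q).map (algebraMap k Ω), fun l => ?_, fun t => ?_⟩
  · rw [coeff_add]
    refine add_mem (comp_coeff_mem h.mem _ l) ?_
    rw [coeff_map, Algebra.algebraMap_eq_smul_one]
    exact A.smul_mem _ h1
  · rw [h.mv, eval_add, eval_comp, eval_map, eval₂_at_apply, eval_map, eval₂_at_apply, eval_add,
      eval_comp, eval_comp, eval_comp, eval_comp, add_assoc]

theorem FAdd.comp_ne {R R' : k[X]} (h0 : R ≠ 0) (h' : FAdd R') (h0' : R' ≠ 0) : R.comp R' ≠ 0 := by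
  intro h1
  rcases comp_eq_zero_iff.1 h1 with h2 | ⟨-, h2⟩
  · exact h0 h2
  · rw [coeff_zero_eq_eval_zero, h'.eval_zero, map_zero] at h2
    exact h0' h2

section

variable {p : ℕ} [hp : Fact p.Prime] [IsAlgClosed k] [IsAlgClosed Ω] [CharP k p] [CharP Ω p]
  {C W : IntermediateField k Ω} {x y z z' c : Ω} {s r r' : ℝ}

/-- The common part of the two cases: `C = cl k(x, y)`, two floors `z`, `z'` above. -/
structure Pres (v : RVal Ω) (C : IntermediateField k Ω) (x y z z' : Ω) (r r' : ℝ) : Prop where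
  cC : Cld v C
  xC : x ∈ C
  yC : y ∈ C
  x0 : x ≠ 0
  vx : v x ≠ 0
  le : C ≤ clI v (IntermediateField.adjoin k {x, y})
  q : QVal v x (cadj v (cadj v C z) z')
  tz : TL v C z r
  tz' : TL v (cadj v C z) z' r'

omit hp [IsAlgClosed k] [IsAlgClosed Ω] [CharP k p] [CharP Ω p] in
theorem Pres.xy_le (h : Pres v C x y z z' r r') : IntermediateField.adjoin k {x, y} ≤ C := by
  rw [IntermediateField.adjoin_le_iff]
  rintro a (rfl | ha)
  · exact h.xC
  · rw [Set.mem_singleton_iff.1 ha]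
    exact h.yC

/-- **Case 1**: `y` moves. -/
theorem ftri_one (h0 : Ctx0 k v) (hP : Pres v C x y z z' r r') (hcW : Cld v W) (hxW : x ∈ W)
    (hWC : W ≤ C)
    (hlim : ∀ ε : ℝ, 0 < ε → ∃ (j : ℕ) (a : Ω), a ^ p ^ j ∈ W ∧ v.Ge (s - ε) (y - a))
    (hc : c ∈ Adn (IntermediateField.adjoin k {x}) {y}) (hc0 : c ≠ 0) (hcs : v c = s)
    {T : k → Ω →ₐ[k] Ω} (hT : FamG p v C T) (hTW : ∀ t, ∀ a ∈ W, T t a = a)
    (hTy : ∀ t, T t y = y + algebraMap k Ω t * c)
    {T₁ : k → Ω →ₐ[k] Ω} {R hh B : k[X]} {V : Polynomial Ω} (h1 : FamG p v (cadj v C z) T₁)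
    (hF1 : Fl1 C T T₁ (AdnK (IntermediateField.adjoin k {x}) {y}) z r R hh B V)
    {T₂ : k → Ω →ₐ[k] Ω} {R' hh' B' : k[X]} {V' : Polynomial Ω}
    (h2 : FamG p v (cadj v (cadj v C z) z') T₂)
    (hF2 : Fl1 (cadj v C z) T₁ T₂ (AdnK (IntermediateField.adjoin k {x}) {y, z}) z' r' R' hh' B'
      V') :
    FTri p v (IntermediateField.adjoin k {x}) W (cadj v (cadj v C z) z') ![x, y, z, z'] {0} 1 c s
      T₂ := by
  have hNW : IntermediateField.adjoin k {x} ≤ W := by
    rw [IntermediateField.adjoin_le_iff, Set.singleton_subset_iff]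
    exact hxW
  have hCF : C ≤ cadj v C z := le_cadj v C z
  have hFK : cadj v C z ≤ cadj v (cadj v C z) z' := le_cadj v _ z'
  have hcC : c ∈ C := AdnK.le (S := {y}) (hNW.trans hWC) (by
    intro a ha
    rw [Set.mem_singleton_iff.1 ha]
    exact hP.yC) c hc
  have hlim' : ∀ δ : ℝ, 0 < δ → ∃ j : ℕ, ∃ n ∈ W, v.Ge (p ^ j * (s - δ)) (y ^ p ^ j - n) := by
    intro δ hδ
    obtain ⟨j, a, ha, h3⟩ := hlim δ hδ
    refine ⟨j, _, ha, ?_⟩
    rw [← sub_pow_char_pow]
    have h4 := ge_pow h3 (p ^ j)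
    exact_mod_cast h4
  have hxN : x ∈ IntermediateField.adjoin k {x} := IntermediateField.mem_adjoin_simple_self k x
  have hon1 : ∀ t, ∀ f ∈ C, T₂ t f = T ((R.comp R').eval t) f := fun t f hf => by
    rw [hF2.on t f (hCF hf), hF1.on _ f hf, eval_comp]
  have hden := den3 (C := C) (z := z) (z' := z') h0 hxN hP.x0
    (IntermediateField.adjoin.mono k _ _ (by simp)) hP.cC hP.xC hP.yC hP.le hP.q
  refine
    { n0 := by rw [image4_zero]
      xv := ⟨x, hxN, hP.x0, hP.vx⟩
      le0 := hNW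
      cN := hcW
      nle := hWC.trans (hCF.trans hFK)
      tmem := mem4 hP.xC hP.yC
      fam := h2.fam
      id0 := h2.id0
      ptw := h2.ptw
      con := fun t a ha => by rw [hon1 t a (hWC ha), hTW _ a ha]
      i0 := by simp
      cmem := hc
      c0 := hc0
      cv := hcs
      mv := ⟨R.comp R', hF1.add.comp hF2.add, FAdd.comp_ne hF1.ne hF2.add hF2.ne, fun t => by
        change T₂ t y = _
        rw [hon1 t y hP.yC, hTy]
        rfl⟩
      jet := ?_
      lim := hlim'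
      nd := den1 h0 hxN hP.x0 (IntermediateField.adjoin.mono k _ _ (by simp))
        (hP.q.mono (hP.xy_le.trans (hCF.trans hFK))) (hWC.trans hP.le)
      den := fun a ha b => by
        rw [adn4_eq hxN]
        exact hden a ha b
      near := near_g p h0 (N := W) (L := C) (K := cadj v (cadj v C z) z') (y := y) (u := z) (c := c)
        hWC hP.tz hFK hP.yC hcC hc0 hcs hT.fam
        (hT.fam.unif h0 hcC fun t => hT.ptw t c hcC s (by
          rw [← hcs]
          exact RVal.ge_self _)) hTW hTy h1.fam.iso h1.law hF1.add hF1.ne hF1.on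
        (fun l => AdnK.le (S := {y}) (hNW.trans hWC) (by
          intro a ha
          rw [Set.mem_singleton_iff.1 ha]
          exact hP.yC) _ (hF1.mem l)) hF1.addB hF1.rad hF1.mv h2.fam.iso hF2.add hF2.ne hF2.on
        hlim' }
  intro i hi hi1
  fin_cases i
  · exact absurd rfl hi
  · exact absurd rfl hi1
  · change ∃ P : Polynomial Ω, (∀ l, P.coeff l ∈ Adn _ (![x, y, z, z'] '' {j : Fin 4 | j < 2})) ∧
      ∀ t, T₂ t z = z + P.eval (algebraMap k Ω t)
    rw [image4_lt2]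
    obtain ⟨P, hP1, hP2⟩ := hF1.poly (AdnK.const (one_mem _)) R'
    refine ⟨P, fun l => AdnK.mono (by simp) (hP1 l), fun t => ?_⟩
    rw [hF2.on t z (self_mem_cadj v C z), hP2]
  · change ∃ P : Polynomial Ω, (∀ l, P.coeff l ∈ Adn _ (![x, y, z, z'] '' {j : Fin 4 | j < 3})) ∧
      ∀ t, T₂ t z' = z' + P.eval (algebraMap k Ω t)
    rw [image4_lt3]
    obtain ⟨P, hP1, hP2⟩ := hF2.poly (AdnK.const (one_mem _)) X
    refine ⟨P, fun l => AdnK.mono (by simp) (hP1 l), fun t => ?_⟩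
    rw [← hP2, eval_X]

/-- **Case 2**: `y` is fixed, `z` moves. -/
theorem ftri_two (h0 : Ctx0 k v) (hP : Pres v C x y z z' 0 r')
    {T : k → Ω →ₐ[k] Ω} (hT : Fam v (cadj v C z) (Pk k) T) (hTC : ∀ t, ∀ a ∈ C, T t a = a)
    (hTz : ∀ t, T t z = z + algebraMap k Ω t)
    {T₂ : k → Ω →ₐ[k] Ω} {R' hh' B' : k[X]} {V' : Polynomial Ω}
    (h2 : FamG p v (cadj v (cadj v C z) z') T₂)
    (hF2 : Fl1 (cadj v C z) T T₂ (AdnK (IntermediateField.adjoin k {x}) {y, z}) z' r' R' hh' B'
      V') :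
    FTri p v (IntermediateField.adjoin k {x, y}) C (cadj v (cadj v C z) z') ![x, y, z, z'] {0, 1} 2
      1 0 T₂ := by
  have hCF : C ≤ cadj v C z := le_cadj v C z
  have hFK : cadj v C z ≤ cadj v (cadj v C z) z' := le_cadj v _ z'
  have hxN : x ∈ IntermediateField.adjoin k {x, y} := IntermediateField.subset_adjoin k _ (by simp)
  have hN : IntermediateField.adjoin k {x} ≤ IntermediateField.adjoin k {x, y} :=
    IntermediateField.adjoin.mono k _ _ (by simp)
  have hyN : y ∈ IntermediateField.adjoin k {x, y} := IntermediateField.subset_adjoin k _ (by simp)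
  have hlim' : ∀ δ : ℝ, 0 < δ → ∃ j : ℕ, ∃ n ∈ C, v.Ge (p ^ j * (0 - δ)) (z ^ p ^ j - n) := by
    intro δ hδ
    obtain ⟨n, hn, h3⟩ := hP.tz.lim δ hδ
    refine ⟨0, n, hn, ?_⟩
    rw [pow_zero, one_mul, pow_zero, pow_one]
    exact h3
  have hden := den3 (C := C) (z := z) (z' := z') h0 hxN hP.x0 le_rfl hP.cC hP.xC hP.yC hP.le hP.q
  have hVF : ∀ l, V'.coeff l ∈ cadj v C z := fun l =>
    AdnK.le (S := {y, z}) ((hN.trans hP.xy_le).trans hCF) (by
      rintro a (rfl | ha)
      · exact hCF hP.yC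
      · rw [Set.mem_singleton_iff.1 ha]
        exact self_mem_cadj v C z) _ (hF2.mem l)
  refine
    { n0 := by rw [image4_pair]
      xv := ⟨x, hxN, hP.x0, hP.vx⟩
      le0 := hP.xy_le
      cN := hP.cC
      nle := hCF.trans hFK
      tmem := mem4 hP.xC hP.yC
      fam := h2.fam
      id0 := h2.id0
      ptw := h2.ptw
      con := fun t a ha => by rw [hF2.on t a (hCF ha), hTC _ a ha]
      i0 := by simp
      cmem := one_mem _
      c0 := one_ne_zero
      cv := v.map_one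
      mv := ⟨R', hF2.add, hF2.ne, fun t => by
        change T₂ t z = z + _
        rw [hF2.on t z (self_mem_cadj v C z), hTz, mul_one]⟩
      jet := ?_
      lim := hlim'
      nd := den_const (fun a ha => hP.le ha)
      den := fun a ha b => by
        rw [adn4_eq hxN]
        exact hden a ha b
      near := near_g p h0 (N := C) (L := cadj v C z) (K := cadj v (cadj v C z) z') (y := z) (u := z')
        (c := 1) (s := 0) hCF hP.tz' le_rfl (self_mem_cadj v C z) (one_mem _) one_ne_zero v.map_one hT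
        ⟨1, one_pos, fun t => by rw [map_one, sub_self]; exact RVal.Ge.zero⟩ hTC
        (fun t => by rw [hTz, mul_one]) h2.fam.iso h2.law hF2.add hF2.ne hF2.on hVF hF2.addB
        hF2.rad hF2.mv h2.fam.iso FAdd.X X_ne_zero (fun t f _ => by rw [eval_X]) hlim' }
  intro i hi hi1
  fin_cases i
  · exact absurd (Or.inl rfl) hi
  · exact absurd (Or.inr rfl) hi
  · exact absurd rfl hi1
  · change ∃ P : Polynomial Ω, (∀ l, P.coeff l ∈ Adn _ (![x, y, z, z'] '' {j : Fin 4 | j < 3})) ∧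
      ∀ t, T₂ t z' = z' + P.eval (algebraMap k Ω t)
    rw [image4_lt3]
    obtain ⟨P, hP1, hP2⟩ := hF2.poly (AdnK.const (one_mem _)) X
    refine ⟨P, fun l => AdnK.monoN hN (AdnK.mono (by simp) (hP1 l)), fun t => ?_⟩
    rw [← hP2, eval_X]

end

end Pool.Agent.TWRZ
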