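import Pool.Agent.Lib.TWRZ.GF

/-!
# TANK W, (Ru.Z): normalisation of the radii

`z` is replaced by `z / f`, `f` in the base field: transcendental type, closure, finite shape and hits are
kept, the radius changes by the value of `f`.
-/

set_option autoImplicit false

open Polynomial

namespace Pool.Agent.TWRZ

open Pool.Agent.H15JM (RVal)
open Pool.Agent.D2 (Ctx0)
open Pool.Agent.TWM
open Pool.Agent.TWS
open Pool.Agent.TWII (PG)

universe u

variable {k Ω : Type u} [Field k] [Field Ω] [Algebra k Ω] {v : RVal Ω} {X : Type*}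
  {L : IntermediateField k Ω} {z f : Ω} {r : ℝ}

theorem tl_div (hz : TL v L z r) (hf : f ∈ L) (hf0 : f ≠ 0) : TL v L (z / f) (r - v f) := by
  have h1 := hz.affine (inv_mem hf) (inv_ne_zero hf0) (zero_mem L)
  rwa [add_zero, inv_mul_eq_div, v.map_inv hf0, neg_add_eq_sub] at h1

theorem cadj_div (hf : f ∈ L) (hf0 : f ≠ 0) : cadj v L (z / f) = cadj v L z := by
  have h1 := cadj_affine (v := v) (z := z) (inv_mem hf) (inv_ne_zero hf0) (zero_mem L)
  rwa [add_zero, inv_mul_eq_div] at h1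

/-- **The finite shape is kept.** -/
theorem FSh.div {R : Subalgebra k (X → k)} {T : X → Ω →ₐ[k] Ω}
    (hF : Fam v L R T) (hs : FSh v L R T z r) (hf : f ∈ L) (hf0 : f ≠ 0) :
    FSh v L R T (z / f) (r - v f) := by
  classical
  obtain ⟨ι, hι, φ, hφ, hs⟩ := hs
  set m : ℝ := min (v z) (r - 1) with hm
  have hfi : v.Ge (-v f) f⁻¹ := fun _ => by rw [v.map_inv hf0]
  obtain ⟨g₀, ⟨κ, hκ, ψ, d, h1, h2, h3⟩, h4⟩ := hF.pol f⁻¹ (inv_mem hf) (r - v f - m)
  refine ⟨κ ⊕ (ι × κ) ⊕ Unit, inferInstance,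
    Sum.elim ψ (Sum.elim (fun i => φ i.1 * ψ i.2) fun _ => 1), ?_, fun ε hε => ?_⟩
  · rintro (i | i | i)
    exacts [h1 i, mul_mem (hφ _) (h1 _), one_mem R]
  obtain ⟨δ, hδ, h5⟩ := hs ε hε
  refine ⟨min δ 1, lt_min hδ one_pos, fun θ hθ h6 => ?_⟩
  have hzθ : v.Ge (r - min δ 1) (z - f * θ) := by
    have e : z - f * θ = f * (z / f - θ) := by field_simp
    rw [e]
    exact ((RVal.ge_self f).mul h6).mono (by linarith)
  have hfθ : f * θ ∈ L := mul_mem hf hθ
  obtain ⟨c, hc, h7⟩ := h5 (f * θ) hfθ (hzθ.mono (by linarith [min_le_left δ 1]))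
  have hmθ : v.Ge m (f * θ) := by
    have e : f * θ = z - (z - f * θ) := by ring
    rw [e]
    refine ((RVal.ge_self z).mono (min_le_left _ _)).sub (hzθ.mono ?_)
    have h8 := min_le_right (v z) (r - 1)
    have h9 := min_le_right δ 1
    linarith
  refine ⟨Sum.elim (fun j => f * θ * d j) (Sum.elim (fun i => c i.1 * d i.2) fun _ => f * θ * f⁻¹
    * -1), ?_, fun x => ?_⟩
  · rintro (j | i | i)
    exacts [mul_mem hfθ (h2 j), mul_mem (hc _) (h2 _),
      mul_mem (mul_mem hfθ (inv_mem hf)) (neg_mem (one_mem L))]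
  have hθe : θ = f * θ * f⁻¹ := by field_simp
  have hTθ : T x θ = T x (f * θ) * T x f⁻¹ := by
    rw [← map_mul, ← hθe]
  have e1 : ∑ i : κ ⊕ (ι × κ) ⊕ Unit, algebraMap k Ω
      (Sum.elim ψ (Sum.elim (fun i => φ i.1 * ψ i.2) fun _ => 1) i x) *
      Sum.elim (fun j => f * θ * d j) (Sum.elim (fun i => c i.1 * d i.2)
        fun _ => f * θ * f⁻¹ * -1) i =
      (f * θ) * g₀ x + (∑ i, algebraMap k Ω (φ i x) * c i) * g₀ x - θ := by
    rw [Fintype.sum_sum_type, Fintype.sum_sum_type]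
    simp only [Sum.elim_inl, Sum.elim_inr, Finset.univ_unique, Finset.sum_singleton,
      Pi.one_apply, map_one, one_mul]
    rw [← hθe, h3, Finset.mul_sum, Finset.sum_mul_sum, Fintype.sum_prod_type, ← add_assoc,
      mul_neg_one, ← sub_eq_add_neg]
    congr 2
    · exact Finset.sum_congr rfl fun j _ => by ring
    · refine Finset.sum_congr rfl fun i _ => Finset.sum_congr rfl fun j _ => ?_
      rw [Pi.mul_apply, map_mul]
      ring
  rw [e1, hTθ]
  have e2 : T x (f * θ) * T x f⁻¹ - θ - ((f * θ) * g₀ x +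
      (∑ i, algebraMap k Ω (φ i x) * c i) * g₀ x - θ) =
      T x (f * θ) * (T x f⁻¹ - g₀ x) +
        (T x (f * θ) - f * θ - ∑ i, algebraMap k Ω (φ i x) * c i) * g₀ x := by ring
  rw [e2]
  have hg₀ : v.Ge (min (-v f) (r - v f - m)) (g₀ x) := by
    have e : g₀ x = T x f⁻¹ - (T x f⁻¹ - g₀ x) := by ring
    rw [e]
    exact (((hF.iso x).ge_iff.2 hfi).mono (min_le_left _ _)).sub ((h4 x).mono (min_le_right _ _))
  have hg₁ : v.Ge (-v f) (g₀ x) := by
    refine hg₀.mono (le_min le_rfl ?_)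
    have h8 := min_le_right (v z) (r - 1)
    linarith
  refine RVal.Ge.add ?_ ?_
  · exact (((hF.iso x).ge_iff.2 hmθ).mul (h4 x)).mono (by linarith)
  · exact ((h7 x).mul hg₁).mono (by linarith)

/-- **A hit is kept.** -/
theorem hit_div {p : ℕ} {F K : IntermediateField k Ω} {ν : ℝ}
    {P : Polynomial Ω} (hP : P ∈ PI F) {g : Ω} (hg : g ∈ F) (hFK : F ≤ K) (hg0 : g ≠ 0) {l : ℕ}
    (hpl : p ∣ l) (hl : ¬ PG p v K (ν - l * r) ((taylor z P).coeff l)) :
    ∃ Q ∈ PI F, Q.eval (z / g) = P.eval z ∧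
      ¬ PG p v K (ν - l * (r - v g)) ((taylor (z / g) Q).coeff l) := by
  obtain ⟨j, rfl⟩ := hpl
  have e1 : (taylor (z / g) (P.comp (C g * Polynomial.X))).coeff (p * j) =
      (taylor z P).coeff (p * j) * (g ^ j) ^ p := by
    have h1 : taylor (z / g) (P.comp (C g * Polynomial.X)) = (taylor z P).comp (C g * Polynomial.X) := by
      rw [taylor_apply, taylor_apply, comp_assoc, comp_assoc]
      congr 1
      simp only [mul_comp, C_comp, X_comp, add_comp]
      rw [mul_add, ← C_mul, mul_div_cancel₀ _ hg0]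
    rw [h1, comp_C_mul_X_coeff, ← pow_mul, mul_comm j p]
  refine ⟨P.comp (C g * Polynomial.X), ?_, ?_, fun h1 => hl ?_⟩
  · intro i
    rw [comp_C_mul_X_coeff]
    exact mul_mem (hP i) (pow_mem hg i)
  · rw [eval_comp, eval_mul, eval_C, eval_X, mul_div_cancel₀ _ hg0]
  · rw [e1] at h1
    have h2 : v.Ge (-(p * j * v g)) (((g ^ j)⁻¹) ^ p) := by
      intro _
      rw [inv_pow, ← pow_mul, v.map_inv (pow_ne_zero _ hg0), v.map_pow hg0]
      push_cast
      exact le_of_eq (by ring)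
    have h3 := h1.mul_pow (inv_mem (pow_mem (hFK hg) j)) h2
    have e2 : (taylor z P).coeff (p * j) * (g ^ j) ^ p * ((g ^ j)⁻¹) ^ p =
        (taylor z P).coeff (p * j) := by
      rw [mul_assoc, ← mul_pow, mul_inv_cancel₀ (pow_ne_zero _ hg0), one_pow, mul_one]
    rw [e2] at h3
    refine h3.mono (le_of_eq ?_)
    push_cast
    ring

end Pool.Agent.TWRZ
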