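import Pool.Agent.Lib.TWRZ.NearF

/-!
# TANK W, (Ru.Z): the nearly constant element from the law

* `Fam.unif`: uniform margin of the motions of one element;
* `near_of_law`: a floor `u` over `C`, its family is a group modulo strict motions with a cocycle
  which is a coboundary: there is a nearly constant element for the family along a curve;
* `near_two`: the same from the output of `stepK`;
* `jets_ge`: the jets of a nearly constant element.
-/

set_option autoImplicit false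

open Polynomial

namespace Pool.Agent.TWRZ

open Pool.Agent.H15JM (RVal)
open Pool.Agent.D2 (Ctx0)
open Pool.Agent.D2P (clI mem_clI)
open Pool.Agent.TWM
open Pool.Agent.TWS
open TWRL (FAdd Addv)

universe u

variable {k Ω : Type u} [Field k] [Field Ω] [Algebra k Ω] {v : RVal Ω} {X : Type*}

/-- **Uniform margin** of the motions of one element. -/
theorem Fam.unif (h0 : Ctx0 k v) {L : IntermediateField k Ω} {R : Subalgebra k (X → k)}
    {T : X → Ω →ₐ[k] Ω} (hF : Fam v L R T) {f : Ω} (hf : f ∈ L) {b : ℝ}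
    (h : ∀ x, Gt v b (T x f - f)) : ∃ μ : ℝ, 0 < μ ∧ ∀ x, v.Ge (b + μ) (T x f - f) := by
  classical
  obtain ⟨g₀, ⟨ι, hι, φ, c, h1, h2, h3⟩, h4⟩ := (hF.pol f hf) (b + 1)
  obtain ⟨η, hη, h5⟩ := Lw.exists_unif h0 (fun i : Option ι => i.elim (fun _ => -1) φ)
    (x := fun i => i.elim f c) (s := b) (fun x => by
      rw [Fintype.sum_option]
      simp only [Option.elim_none, Option.elim_some, neg_smul, one_smul]
      have e : -f + ∑ i, φ i x • c i = (T x f - f) - (T x f - g₀ x) := by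
        rw [h3, Finset.sum_congr rfl fun i _ => Algebra.smul_def (φ i x) (c i)]
        ring
      rw [e]
      exact (h x).sub (Gt.of_ge (h4 x) (by linarith)))
  refine ⟨min η 1, lt_min hη one_pos, fun x => ?_⟩
  have h6 := h5 x
  rw [Fintype.sum_option] at h6
  simp only [Option.elim_none, Option.elim_some, neg_smul, one_smul] at h6
  have e : T x f - f = (-f + ∑ i, φ i x • c i) + (T x f - g₀ x) := by
    rw [h3, Finset.sum_congr rfl fun i _ => Algebra.smul_def (φ i x) (c i)]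
    ring
  rw [e]
  exact (h6.mono (by linarith [min_le_left η 1])).add ((h4 x).mono (by linarith [min_le_right η 1]))

/-- **The gain of the cocycle**, no exactness: the generator is `w - θ`. -/
theorem gain_gen {L : IntermediateField k Ω} {w θ : Ω} {T : X → Ω →ₐ[k] Ω} {V : X → Ω}
    {m : X → X → X} {T' : X × k → Ω →ₐ[k] Ω} {del : X × X → k} {μ e : ℝ}
    (hF : ∀ x, ∀ f ∈ L, T x f ∈ L) (hV : ∀ x, V x ∈ L) (hθ : θ ∈ L) (h1 : v.Ge (-e) (w - θ))
    (hT' : ∀ y, ∀ f ∈ L, T' y f = T y.1 f)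
    (hw' : ∀ y, T' y w = w + V y.1 + algebraMap k Ω y.2)
    (hlaw : ∀ y y' : X × k, NrM v ((T' y).comp (T' y'))
      (T' (m y.1 y'.1, y.2 + y'.2 + del (y.1, y'.1))) (cadj v L w) μ) (x x' : X) :
    v.Ge (μ - e) ((V x - (T x θ - θ)) + T x (V x' - (T x' θ - θ)) -
      (V (m x x') - (T (m x x') θ - θ)) - algebraMap k Ω (del (x, x'))) := by
  have h2 := hlaw (x, 0) (x', 0) (w - θ) (sub_mem (self_mem_cadj v L w) (le_cadj v L w hθ)) _ h1
  have e1 : ((T' (x, 0)).comp (T' (x', 0))) (w - θ) -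
      T' (m x x', 0 + 0 + del (x, x')) (w - θ) =
      (V x - (T x θ - θ)) + T x (V x' - (T x' θ - θ)) -
      (V (m x x') - (T (m x x') θ - θ)) - algebraMap k Ω (del (x, x')) := by
    rw [AlgHom.comp_apply, map_sub, hw', map_sub, map_add, map_add, hw', AlgHom.commutes,
      hT' (x', 0) θ hθ, hT' (x, 0) _ (hF _ _ hθ), hT' (x, 0) _ (hV _), map_sub, hw',
      hT' _ θ hθ]
    simp only [zero_add, map_zero, add_zero, map_sub]
    ring
  simp only at h2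
  rw [e1] at h2
  exact h2.mono (by linarith)

/-- The jets of an element which is moved little. -/
theorem jets_ge [Infinite k] (h0 : Ctx0 k v) {A : k → Ω →ₐ[k] Ω} {Ψ : ℕ → Ω → Ω} {U : Ω} {b : ℝ}
    (hX : Xp v (fun t => A t U) fun l => Ψ l U) (h : ∀ t, v.Ge b (A t U - U)) {l : ℕ}
    (hl : l ≠ 0) : v.Ge b (Ψ l U) := by
  have h1 := (hX.sub (Xp.const U)).coef_ge h0 h l
  simpa [hl] using h1

theorem tl_sub {L : IntermediateField k Ω} {w θ : Ω} {ρ : ℝ} (hw : TL v L w ρ) (hθ : θ ∈ L) :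
    TL v L (w - θ) ρ where
  lim := fun δ hδ => by
    obtain ⟨a, ha, h1⟩ := hw.lim δ hδ
    exact ⟨a - θ, sub_mem ha hθ, by rwa [sub_sub_sub_cancel_right]⟩
  far := fun ξ hξ => by
    have h1 := hw.far (ξ + θ) (hξ.add (isAlgebraic_algebraMap (R := L) (⟨θ, hθ⟩ : L)))
    refine ⟨fun h2 => h1.1 (by rw [← h2]; ring), ?_⟩
    have e : w - θ - ξ = w - (ξ + θ) := by ring
    rw [e]
    exact h1.2

/-- **The nearly constant element, from the law.** -/
theorem near_of_law [IsAlgClosed k] [IsAlgClosed Ω] (p : ℕ) [hp : Fact p.Prime] [CharP k p]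
    [CharP Ω p] (h0 : Ctx0 k v) {N L K : IntermediateField k Ω} {y u c : Ω} {s : ℝ}
    (hNL : N ≤ L) (hLK : L ≤ K) (hu : TL v L u 0) (hyL : y ∈ L) (huK : u ∈ K) (hcL : c ∈ L)
    (hc0 : c ≠ 0) (hcs : v c = s) {T : k → Ω →ₐ[k] Ω} (hF : Fam v L (Pk k) T)
    (hptw : ∀ t, ∀ f ∈ L, ∀ b : ℝ, v.Ge b f → Gt v b (T t f - f))
    (hTy : ∀ t, T t y = y + algebraMap k Ω t * c) {V : k → Ω} (hV : P0 L (Pk k) V)
    (hatt : Att v L T u 0 V) {T' : k × k → Ω →ₐ[k] Ω} {δ : k → k → k}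
    (hT' : ∀ x, ∀ f ∈ L, T' x f = T x.1 f) (hu' : ∀ x, T' x u = u + V x.1 + algebraMap k Ω x.2)
    (hlaw : ∃ μ : ℝ, 0 < μ ∧ ∀ x x' : k × k, NrM v ((T' x).comp (T' x'))
      (T' (x.1 + x'.1, x.2 + x'.2 + δ x.1 x'.1)) (cadj v L u) μ)
    {hh : k[X]} (hδ : ∀ s s', δ s s' = hh.eval (s + s') - hh.eval s - hh.eval s')
    {A : k → Ω →ₐ[k] Ω} {α B : k[X]} (hα : FAdd α) (hα0 : α ≠ 0) (hB : FAdd B)
    (hiso : ∀ t, IsoE v v (A t)) (hAN : ∀ t, ∀ f ∈ N, A t f = f)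
    (hA : ∀ t, ∀ f ∈ cadj v L u, A t f = T' (α.eval t, hh.eval (α.eval t) + B.eval t) f)
    (hlim : ∀ δ : ℝ, 0 < δ → ∃ j : ℕ, ∃ n ∈ N, v.Ge (p ^ j * (s - δ)) (y ^ p ^ j - n)) :
    ∃ U ∈ K, ∃ R μ' : ℝ, 0 < μ' ∧ (∀ t, v.Ge (R + μ') (A t U - U)) ∧
      ∀ θ : Ω, IsAlgebraic N θ → U ≠ θ ∧ v (U - θ) ≤ R := by
  classical
  have : Infinite k := IsAlgClosed.instInfinite
  obtain ⟨μ', hμ', hlaw⟩ := hlaw
  obtain ⟨μ, hμ, hμc⟩ := hF.unif h0 hcL (b := s) fun t => hptw t c hcL s (by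
    rw [← hcs]
    exact RVal.ge_self _)
  obtain ⟨ε, hε, hε1, hε2⟩ : ∃ ε : ℝ, 0 < ε ∧ ε < μ ∧ ε < μ' :=
    ⟨min μ μ' / 2, by positivity, by linarith [min_le_left μ μ', lt_min hμ hμ'], by
      linarith [min_le_right μ μ', lt_min hμ hμ']⟩
  obtain ⟨θ, hθ, h1, h2⟩ := ((hatt ε hε).and (TWII.Nr.near hε)).exists hu.lim
  rw [zero_sub] at h2
  -- the motion of `u - θ`
  obtain ⟨V', hV'⟩ : ∃ V' : k → Ω, ∀ t, V' t = V t - (T t θ - θ) := ⟨_, fun _ => rfl⟩
  have hV'p : Pl v L (Pk k) V' := by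
    have h3 := hV.pl.sub (((hF.pol θ hθ)).sub (P0.const (R := Pk k) hθ).pl)
    refine (congrArg (Pl v L (Pk k)) (funext fun t => ?_)).mp h3
    exact (hV' t).symm
  have hV'ε : ∀ t, v.Ge (-ε) (V' t) := fun t => by
    have h3 := (h1 t).neg
    rw [zero_sub] at h3
    rw [hV']
    have e : V t - (T t θ - θ) = -(T t θ - θ - V t) := by ring
    rw [e]
    exact h3
  obtain ⟨V'', hV''p, hV''⟩ := hV'p 1
  obtain ⟨H₀, hH₀, hH₀e⟩ := hV''p.exists_poly
  obtain ⟨H, hH⟩ : ∃ H, H = H₀ + hh.map (algebraMap k Ω) := ⟨_, rfl⟩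
  have hHe : ∀ t : k, H.eval (algebraMap k Ω t) = V'' t + algebraMap k Ω (hh.eval t) := fun t => by
    rw [hH, eval_add, ← hH₀e, eval_map, eval₂_at_apply]
  have hgen := fun s₁ s₂ => gain_gen (m := fun x x' : k => x + x') (del := fun y => δ y.1 y.2)
    hF.mem hV.mem hθ h2 hT' hu' hlaw s₁ s₂
  refine near_fun p h0 (N := N) (L₁ := L) (K := K) (y := y) (u := u - θ) (c := c) (s := s)
    (r := 0) (μ := μ) (ε := ε) (g := min 1 (μ' - ε)) hNL hLK (tl_sub hu hθ) hyL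
    (sub_mem huK (hLK hθ)) hcL hc0 hcs (A := A) (T := T) (α := α) (B := B) hα hα0 hB (H := H)
    (fun l => ?_) (coeff_ge h0 fun t => ?_) (Or.inr rfl) hε1 (lt_min one_pos (by linarith)) hε.le
    hiso hAN (fun t f hf => by rw [hA t f (le_cadj v L u hf), hT' _ f hf]) hTy hμc (fun t => ?_)
    (fun s₁ s₂ => ?_) hlim
  · rw [hH, coeff_add, coeff_map]
    exact add_mem (hH₀ l) (L.algebraMap_mem _)
  · rw [hHe]
    have e : V'' t + algebraMap k Ω (hh.eval t) = V' t - (V' t - V'' t) +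
        algebraMap k Ω (hh.eval t) := by ring
    rw [e]
    rw [zero_sub]
    exact ((hV'ε t).sub ((hV'' t).mono (by linarith))).add ((h0.ge _).mono (by linarith))
  · have e : A t (u - θ) - (u - θ) - H.eval (algebraMap k Ω (α.eval t)) -
        algebraMap k Ω (B.eval t) = V' (α.eval t) - V'' (α.eval t) := by
      rw [map_sub, hA t u (self_mem_cadj v L u), hA t θ (le_cadj v L u hθ), hu', hT' _ θ hθ, hHe,
        hV']
      simp only [map_add]
      ring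
    rw [e, zero_add]
    exact (hV'' _).mono (min_le_left _ _)
  · have h3 := hgen s₁ s₂
    simp only at h3
    rw [← hV', ← hV', ← hV', hδ] at h3
    have e : H.eval (algebraMap k Ω s₁) + T s₁ (H.eval (algebraMap k Ω s₂)) -
        H.eval (algebraMap k Ω (s₁ + s₂)) =
        (V' s₁ + T s₁ (V' s₂) - V' (s₁ + s₂) -
          algebraMap k Ω (hh.eval (s₁ + s₂) - hh.eval s₁ - hh.eval s₂)) -
        ((V' s₁ - V'' s₁) + T s₁ (V' s₂ - V'' s₂) - (V' (s₁ + s₂) - V'' (s₁ + s₂))) := by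
      rw [hHe, hHe, hHe]
      simp only [map_add, map_sub, AlgHom.commutes]
      ring
    rw [e]
    have h4 := ((hV'' s₁).add ((hF.iso s₁).ge_iff.2 (hV'' s₂))).sub (hV'' (s₁ + s₂))
    rw [zero_add]
    exact (h3.mono (min_le_right _ _)).sub (h4.mono (min_le_left _ _))

/-- **The nearly constant element, from the output of `stepK`.** -/
theorem near_two [IsAlgClosed k] [IsAlgClosed Ω] (p : ℕ) [hp : Fact p.Prime] [CharP k p]
    [CharP Ω p] (h0 : Ctx0 k v) {N L K : IntermediateField k Ω} {y u : Ω}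
    (hNL : N ≤ L) (hLK : L ≤ K) (hy : Lim v N 0 y) (hu : TL v L u 0) (hyL : y ∈ L) (huK : u ∈ K)
    {T : k → Ω →ₐ[k] Ω} (hTy : ∀ t, T t y = y + algebraMap k Ω t) {V : Polynomial Ω}
    (hV : ∀ l, V.coeff l ∈ L) {hh α B : k[X]} (hα : FAdd α) (hα0 : α ≠ 0) (hB : FAdd B)
    {A : k → Ω →ₐ[k] Ω} (hiso : ∀ t, IsoE v v (A t)) (hAN : ∀ t, ∀ f ∈ N, A t f = f)
    (hAT : ∀ t, ∀ f ∈ L, A t f = T (α.eval t) f)
    (hAu : ∀ t, A t u = u + V.eval (algebraMap k Ω (α.eval t)) +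
      algebraMap k Ω (hh.eval (α.eval t) + B.eval t)) {η : ℝ} (hη : 0 < η)
    (hco : ∀ s s' : k, v.Ge η (V.eval (algebraMap k Ω s) + T s (V.eval (algebraMap k Ω s')) -
      V.eval (algebraMap k Ω (s + s')) -
      algebraMap k Ω (hh.eval (s + s') - hh.eval s - hh.eval s'))) :
    ∃ U ∈ K, ∃ R μ' : ℝ, 0 < μ' ∧ (∀ t, v.Ge (R + μ') (A t U - U)) ∧
      ∀ θ : Ω, IsAlgebraic N θ → U ≠ θ ∧ v (U - θ) ≤ R := by
  classical
  obtain ⟨H, hH⟩ : ∃ H, H = V + hh.map (algebraMap k Ω) := ⟨_, rfl⟩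
  have hHe : ∀ t : k, H.eval (algebraMap k Ω t) =
      V.eval (algebraMap k Ω t) + algebraMap k Ω (hh.eval t) := fun t => by
    rw [hH, eval_add, eval_map, eval₂_at_apply]
  obtain ⟨ε, hε, hHε⟩ : ∃ ε : ℝ, 0 ≤ ε ∧ ∀ l, v.Ge (-ε) (H.coeff l) := by
    refine ⟨∑ i ∈ Finset.range (H.natDegree + 1), |v (H.coeff i)|,
      Finset.sum_nonneg fun _ _ => abs_nonneg _, fun l hl => ?_⟩
    have h1 : l ∈ Finset.range (H.natDegree + 1) := Finset.mem_range.2 (by
      have := le_natDegree_of_ne_zero hl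
      omega)
    have h2 : |v (H.coeff l)| ≤ ∑ i ∈ Finset.range (H.natDegree + 1), |v (H.coeff i)| :=
      Finset.single_le_sum (f := fun i => |v (H.coeff i)|) (fun _ _ => abs_nonneg _) h1
    linarith [neg_abs_le (v (H.coeff l))]
  refine near_fun p h0 (N := N) (L₁ := L) (K := K) (y := y) (u := u) (c := 1) (s := 0) (r := 0)
    (μ := ε + 1) (ε := ε) (g := η) hNL hLK hu hyL huK (one_mem _) one_ne_zero v.map_one (A := A)
    (T := T) (α := α) (B := B) hα hα0 hB (H := H) (fun l => ?_) (fun l => by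
      rw [zero_sub]
      exact hHε l) (Or.inr rfl) (by linarith) hη hε hiso hAN hAT (fun t => by rw [hTy, mul_one]) (fun t => by
      rw [map_one, sub_self]
      exact RVal.Ge.zero) (fun t => ?_) (fun s₁ s₂ => ?_) (fun δ hδ => ?_)
  · rw [hH, coeff_add, coeff_map]
    exact add_mem (hV l) (L.algebraMap_mem _)
  · have e : A t u - u - H.eval (algebraMap k Ω (α.eval t)) - algebraMap k Ω (B.eval t) = 0 := by
      rw [hAu, hHe, map_add]
      ring
    rw [e]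
    exact RVal.Ge.zero
  · have e : H.eval (algebraMap k Ω s₁) + T s₁ (H.eval (algebraMap k Ω s₂)) -
        H.eval (algebraMap k Ω (s₁ + s₂)) =
        V.eval (algebraMap k Ω s₁) + T s₁ (V.eval (algebraMap k Ω s₂)) -
          V.eval (algebraMap k Ω (s₁ + s₂)) -
          algebraMap k Ω (hh.eval (s₁ + s₂) - hh.eval s₁ - hh.eval s₂) := by
      rw [hHe, hHe, hHe]
      simp only [map_add, map_sub, AlgHom.commutes]
      ring
    rw [e, zero_add]
    exact hco s₁ s₂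
  · obtain ⟨n, hn, h1⟩ := hy δ hδ
    exact ⟨0, n, hn, by
      rw [pow_zero, pow_zero, pow_one, one_mul]
      exact h1⟩

/-- **The nearly constant element, any radius**, from the law of the one parameter family on
`cadj v L u`. -/
theorem near_g [IsAlgClosed k] [IsAlgClosed Ω] (p : ℕ) [hp : Fact p.Prime] [CharP k p]
    [CharP Ω p] (h0 : Ctx0 k v) {N L K : IntermediateField k Ω} {y u c : Ω} {s r : ℝ}
    (hNL : N ≤ L) (hu : TL v L u r) (hFK : cadj v L u ≤ K) (hyL : y ∈ L) (hcL : c ∈ L)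
    (hc0 : c ≠ 0) (hcs : v c = s) {T : k → Ω →ₐ[k] Ω} (hF : Fam v L (Pk k) T)
    (hμc : ∃ μ : ℝ, 0 < μ ∧ ∀ t, v.Ge (s + μ) (T t c - c))
    (hTN : ∀ t, ∀ f ∈ N, T t f = f) (hTy : ∀ t, T t y = y + algebraMap k Ω t * c)
    {T₁ : k → Ω →ₐ[k] Ω} (hiso₁ : ∀ t, IsoE v v (T₁ t))
    (hlaw : ∃ μ : ℝ, 0 < μ ∧ ∀ t t' : k, NrM v ((T₁ t).comp (T₁ t')) (T₁ (t + t')) (cadj v L u) μ)
    {R : k[X]} (hR : FAdd R) (hR0 : R ≠ 0) (hT₁ : ∀ t, ∀ f ∈ L, T₁ t f = T (R.eval t) f)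
    {V : Polynomial Ω} (hV : ∀ l, V.coeff l ∈ L) {hh B : k[X]} (hB : FAdd B)
    (hr : (hh = 0 ∧ B = 0) ∨ r = 0)
    (hT₁u : ∀ t, T₁ t u = u + V.eval (algebraMap k Ω (R.eval t)) +
      algebraMap k Ω (hh.eval (R.eval t) + B.eval t))
    {A : k → Ω →ₐ[k] Ω} (hiso : ∀ t, IsoE v v (A t)) {R₂ : k[X]} (hR₂ : FAdd R₂) (hR₂0 : R₂ ≠ 0)
    (hA : ∀ t, ∀ f ∈ cadj v L u, A t f = T₁ (R₂.eval t) f)
    (hlim : ∀ δ : ℝ, 0 < δ → ∃ j : ℕ, ∃ n ∈ N, v.Ge (p ^ j * (s - δ)) (y ^ p ^ j - n)) :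
    ∃ U ∈ K, ∃ R' μ' : ℝ, 0 < μ' ∧ (∀ t, v.Ge (R' + μ') (A t U - U)) ∧
      ∀ θ : Ω, IsAlgebraic N θ → U ≠ θ ∧ v (U - θ) ≤ R' := by
  classical
  have : Infinite k := IsAlgClosed.instInfinite
  obtain ⟨μ', hμ', hlaw⟩ := hlaw
  obtain ⟨μ, hμ, hμc⟩ := hμc
  obtain ⟨ε, hε, hε1, hε2⟩ : ∃ ε : ℝ, 0 < ε ∧ ε < μ ∧ ε < μ' :=
    ⟨min μ μ' / 2, by positivity, by linarith [min_le_left μ μ', lt_min hμ hμ'], by
      linarith [min_le_right μ μ', lt_min hμ hμ']⟩
  obtain ⟨θ, hθ, h2⟩ := hu.lim ε hε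
  have hθF : θ ∈ cadj v L u := le_cadj v L u hθ
  have huF : u ∈ cadj v L u := self_mem_cadj v L u
  -- the motion of `u - θ`
  obtain ⟨V', hV'⟩ : ∃ V' : k → Ω, ∀ t, V' t = V.eval (algebraMap k Ω t) - (T t θ - θ) :=
    ⟨_, fun _ => rfl⟩
  have hVP : P0 L (Pk k) fun t => V.eval (algebraMap k Ω t) := by
    have h3 := P0.sum (L := L) (R := Pk k) (Finset.range (V.natDegree + 1))
      (g := fun l t => algebraMap k Ω (t ^ l) * V.coeff l) fun l _ =>
        P0.of (pow_mem id_mem_Pk l) (hV l)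
    refine (congrArg (P0 L (Pk k)) (funext fun t => ?_)).mp h3
    rw [eval_eq_sum_range]
    exact Finset.sum_congr rfl fun l _ => by rw [map_pow, mul_comm]
  have hV'p : Pl v L (Pk k) V' := by
    have h3 := hVP.pl.sub (((hF.pol θ hθ)).sub (P0.const (R := Pk k) hθ).pl)
    refine (congrArg (Pl v L (Pk k)) (funext fun t => ?_)).mp h3
    exact (hV' t).symm
  have hmv : ∀ t, T₁ t (u - θ) = u - θ + V' (R.eval t) +
      algebraMap k Ω (hh.eval (R.eval t) + B.eval t) := fun t => by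
    rw [map_sub, hT₁u, hT₁ t θ hθ, hV']
    ring
  have hkr : ∀ a b t : k, v.Ge (r - ε) (algebraMap k Ω (hh.eval a + B.eval b)) := by
    intro a b _
    rcases hr with ⟨h3, h4⟩ | h3
    · rw [h3, h4, eval_zero, eval_zero, add_zero, map_zero]
      exact RVal.Ge.zero
    · rw [h3]
      exact (h0.ge _).mono (by linarith)
  have hkr' : ∀ a : k, v.Ge (r - ε) (algebraMap k Ω (hh.eval a)) := by
    intro a
    rcases hr with ⟨h3, h4⟩ | h3
    · rw [h3, eval_zero, map_zero]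
      exact RVal.Ge.zero
    · rw [h3]
      exact (h0.ge _).mono (by linarith)
  have hV'ε : ∀ a, v.Ge (r - ε) (V' a) := fun a => by
    obtain ⟨t, rfl⟩ := TWRL.FAdd.surj hR hR0 a
    have h3 := (hiso₁ t).ge_iff.2 h2
    rw [hmv] at h3
    have e : V' (R.eval t) = (u - θ + V' (R.eval t) +
        algebraMap k Ω (hh.eval (R.eval t) + B.eval t)) - (u - θ) -
        algebraMap k Ω (hh.eval (R.eval t) + B.eval t) := by ring
    rw [e]
    exact (h3.sub h2).sub (hkr _ _ t)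
  obtain ⟨V'', hV''p, hV''⟩ := hV'p (r + 1)
  obtain ⟨H₀, hH₀, hH₀e⟩ := hV''p.exists_poly
  obtain ⟨H, hH⟩ : ∃ H, H = H₀ + hh.map (algebraMap k Ω) := ⟨_, rfl⟩
  have hHe : ∀ t : k, H.eval (algebraMap k Ω t) = V'' t + algebraMap k Ω (hh.eval t) := fun t => by
    rw [hH, eval_add, ← hH₀e, eval_map, eval₂_at_apply]
  -- the gain
  have hgen : ∀ s₁ s₂ : k, v.Ge (r - ε + μ') (V' s₁ + T s₁ (V' s₂) - V' (s₁ + s₂) -
      algebraMap k Ω (hh.eval (s₁ + s₂) - hh.eval s₁ - hh.eval s₂)) := by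
    intro s₁ s₂
    obtain ⟨t, rfl⟩ := TWRL.FAdd.surj hR hR0 s₁
    obtain ⟨t', rfl⟩ := TWRL.FAdd.surj hR hR0 s₂
    have h3 := hlaw t t' (u - θ) (sub_mem huF hθF) _ h2
    have hV'L : V' (R.eval t') ∈ L := by
      rw [hV']
      exact sub_mem (hVP.mem _) (sub_mem (hF.mem _ _ hθ) hθ)
    rw [AlgHom.comp_apply, hmv t', map_add, map_add, hmv t, AlgHom.commutes, hT₁ t _ hV'L,
      hmv (t + t'), hR t t', hB t t'] at h3
    refine (congrArg (v.Ge _) ?_).mp h3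
    simp only [map_add, map_sub]
    ring
  have hα : FAdd (R.comp R₂) := hR.comp hR₂
  have hα0 : R.comp R₂ ≠ 0 := by
    intro h3
    obtain ⟨a, ha⟩ := TWRL.FAdd.surj hR hR0 1
    obtain ⟨b, hb⟩ := TWRL.FAdd.surj hR₂ hR₂0 a
    have h4 := congrArg (eval b) h3
    rw [eval_comp, hb, ha, eval_zero] at h4
    exact one_ne_zero h4
  refine near_fun p h0 (N := N) (L₁ := L) (K := K) (y := y) (u := u - θ) (c := c) (s := s)
    (r := r) (μ := μ) (ε := ε) (g := min 1 (μ' - ε)) hNL ((le_cadj v L u).trans hFK)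
    (tl_sub hu hθ) hyL (sub_mem (hFK huF) (hFK hθF)) hcL hc0 hcs (A := A) (T := T)
    (α := R.comp R₂) (B := B.comp R₂) hα hα0 (hB.comp hR₂) (H := H)
    (fun l => ?_) (coeff_ge h0 fun t => ?_) ?_ hε1 (lt_min one_pos (by linarith)) hε.le
    hiso (fun t f hf => ?_) (fun t f hf => ?_) hTy hμc (fun t => ?_) (fun s₁ s₂ => ?_) hlim
  · rw [hH, coeff_add, coeff_map]
    exact add_mem (hH₀ l) (L.algebraMap_mem _)
  · rw [hHe]
    have e : V'' t + algebraMap k Ω (hh.eval t) = V' t - (V' t - V'' t) +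
        algebraMap k Ω (hh.eval t) := by ring
    rw [e]
    exact ((hV'ε t).sub ((hV'' t).mono (by linarith))).add (hkr' t)
  · rcases hr with ⟨-, h4⟩ | h3
    · left
      rw [h4, zero_comp]
    · exact Or.inr h3
  · rw [hA t f (le_cadj v L u (hNL hf)), hT₁ _ f (hNL hf), hTN _ f hf]
  · rw [hA t f (le_cadj v L u hf), hT₁ _ f hf, eval_comp]
  · have e : A t (u - θ) - (u - θ) - H.eval (algebraMap k Ω ((R.comp R₂).eval t)) -
        algebraMap k Ω ((B.comp R₂).eval t) =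
        V' (R.eval (R₂.eval t)) - V'' (R.eval (R₂.eval t)) := by
      rw [hA t _ (sub_mem huF hθF), hmv, hHe, eval_comp, eval_comp]
      simp only [map_add]
      ring
    rw [e]
    exact (hV'' _).mono (by linarith [min_le_left 1 (μ' - ε)])
  · have h3 := hgen s₁ s₂
    have e : H.eval (algebraMap k Ω s₁) + T s₁ (H.eval (algebraMap k Ω s₂)) -
        H.eval (algebraMap k Ω (s₁ + s₂)) =
        (V' s₁ + T s₁ (V' s₂) - V' (s₁ + s₂) -
          algebraMap k Ω (hh.eval (s₁ + s₂) - hh.eval s₁ - hh.eval s₂)) -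
        ((V' s₁ - V'' s₁) + T s₁ (V' s₂ - V'' s₂) - (V' (s₁ + s₂) - V'' (s₁ + s₂))) := by
      rw [hHe, hHe, hHe]
      simp only [map_add, map_sub, AlgHom.commutes]
      ring
    rw [e]
    have h4 := ((hV'' s₁).add ((hF.iso s₁).ge_iff.2 (hV'' s₂))).sub (hV'' (s₁ + s₂))
    exact (h3.mono (by linarith [min_le_right 1 (μ' - ε)])).sub
      (h4.mono (by linarith [min_le_left 1 (μ' - ε)]))

end Pool.Agent.TWRZ
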