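import Pool.Agent.Lib.TWRZ.Apx

/-!
# TANK W, (Ru.Z): the last floor, from two parameters

`stepK`: a two parameter group of motions of `F` with dense strict points, `z` of radius `0`, of
finite shape over `F` and hit: `cl F(z)` has a one parameter family of pointwise strict motions
without effect on the critical elements, along a polynomial curve over the second axis; the cocycle
has a uniform gain.
-/

set_option autoImplicit false

open Polynomial

namespace Pool.Agent.TWRZ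

open Pool.Agent.H15JM (RVal)
open Pool.Agent.D2 (Ctx0)
open Pool.Agent.D2P (clI mem_clI)
open Pool.Agent.TWM
open Pool.Agent.TWS
open Pool.Agent.TWCT (StrM eq_on_cadj)
open Pool.Agent.TWII (PG LP Wn)
open TWRL (ev2 ev3 FAdd G2)

universe u

variable {k Ω : Type u} [Field k] [Field Ω] [Algebra k Ω] {v : RVal Ω}
  {F : IntermediateField k Ω} {z : Ω}

/-- **A hit floor is not moved alone**: the translations of `z` over `F` are not all without effect
on the critical elements. -/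
theorem not_dense_of_hit (p : ℕ) [hp : Fact p.Prime] [CharP Ω p] [CharP k p] [PerfectRing k p]
    [Infinite k] (h0 : Ctx0 k v) (hc : CompleteV v) {K : IntermediateField k Ω} (hK : Cld v K)
    {A : k → Ω →ₐ[k] Ω} (hA : Fam v K (Pk k) A) (hid : ∀ f ∈ K, A 0 f = f)
    (hptw : ∀ t, ∀ f ∈ K, ∀ b : ℝ, v.Ge b f → Gt v b (A t f - f))
    (hnull : ∀ t, ∀ a ∈ K, ∀ τ : ℝ, LP p v K τ a → PG p v K τ (A t a - a))
    (hAF : ∀ t, ∀ f ∈ F, A t f = f) (hAz : ∀ t, A t z = z + algebraMap k Ω t)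
    {ν : ℝ} {f : Polynomial Ω} (hf : f ∈ PI F) (hfK : f.eval z ∈ K) (hlim : LP p v K ν (f.eval z))
    {l : ℕ} (hl : l ≠ 0) : PG p v K ν ((taylor z f).coeff l) := by
  obtain ⟨Ψ, -, -, -, -, hX, hpg⟩ := exists_out p h0 hc hK hA hid hptw
  have h1 : ∀ t, A t (f.eval z) = (taylor z f).eval (algebraMap k Ω t) := by
    intro t
    rw [taylor_eval, add_comm (algebraMap k Ω t), ← hAz t, eval_eq_sum_range, eval_eq_sum_range,
      map_sum]
    exact Finset.sum_congr rfl fun j _ => by rw [map_mul, map_pow, hAF t _ (hf j)]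
  have h2 := hpg _ hfK ν (fun t => hnull t _ hfK ν hlim) l hl
  rwa [jets_poly h0 (hX _ hfK) h1 l] at h2

/-- **The last floor, from two parameters.** -/
theorem stepK [IsAlgClosed k] [IsAlgClosed Ω] (p : ℕ) [hp : Fact p.Prime] [CharP k p] [CharP Ω p]
    (h0 : Ctx0 k v) (hc : CompleteV v) (hsc : SphC v)
    (hval : ∀ ρ : ℝ, ∃ x : Ω, x ≠ 0 ∧ v x = ρ) {T₂ : k × k → Ω →ₐ[k] Ω} {δ : k → k → k}
    (h : GF2 v F T₂ δ) (hz : TL v F z 0) (hsh : FSh v F (PP (Pk k) (Pk k)) T₂ z 0)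
    {A₀ : Submodule k Ω} (hA₀ : ∀ a ∈ A₀, a ∈ F) (hd : ∀ f ∈ F, ∀ B : ℝ, ∃ g ∈ A₀, v.Ge B (f - g))
    (hex : ∀ s s' : k, ∀ f ∈ F, T₂ (0, s) (T₂ (0, s') f) = T₂ (0, s + s') f)
    {ν : ℝ} {f : Polynomial Ω} (hf : f ∈ PI F) (hlim : LP p v (cadj v F z) ν (f.eval z))
    (hhit : ∃ l : ℕ, l ≠ 0 ∧ ¬ PG p v (cadj v F z) ν ((taylor z f).coeff l)) :
    ∃ (V : Polynomial Ω) (R B hh : k[X]) (A : k → Ω →ₐ[k] Ω), (∀ l, V.coeff l ∈ A₀) ∧
      V.coeff 0 = 0 ∧ FAdd R ∧ R ≠ 0 ∧ FAdd B ∧ hh.eval 0 = 0 ∧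
      Fam v (cadj v F z) (Pk k) A ∧ (∀ f ∈ cadj v F z, A 0 f = f) ∧
      (∀ t, ∀ f ∈ F, A t f = T₂ (0, R.eval t) f) ∧
      (∀ t, A t z = z + V.eval (algebraMap k Ω (R.eval t)) +
        algebraMap k Ω (hh.eval (R.eval t) + B.eval t)) ∧
      (∀ t, ∀ f ∈ cadj v F z, ∀ b : ℝ, v.Ge b f → Gt v b (A t f - f)) ∧
      (∀ t, ∀ a ∈ cadj v F z, ∀ τ : ℝ, LP p v (cadj v F z) τ a →
        PG p v (cadj v F z) τ (A t a - a)) ∧
      (∃ μ : ℝ, 0 < μ ∧ ∀ t t' : k, NrM v ((A t).comp (A t')) (A (t + t')) (cadj v F z) μ) ∧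
      ∃ η : ℝ, 0 < η ∧ ∀ s s' : k, v.Ge η (V.eval (algebraMap k Ω s) +
        T₂ (0, s) (V.eval (algebraMap k Ω s')) - V.eval (algebraMap k Ω (s + s')) -
        algebraMap k Ω (hh.eval (s + s') - hh.eval s - hh.eval s')) := by
  classical
  have : Infinite k := IsAlgClosed.instInfinite
  obtain ⟨ι, hι, φ, c, hφ, hc₀, hφ0, hatt⟩ := h.fam.attS h0 h.dense hz.lim hsh
    (A₀ := (A₀ : Set Ω)) hd h.id0
  obtain ⟨V₂, hV₂⟩ : ∃ V₂ : k × k → Ω, V₂ = fun x => ∑ i, algebraMap k Ω (φ i x) * c i := ⟨_, rfl⟩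
  rw [← hV₂] at hatt
  have hVP : P0 F (PP (Pk k) (Pk k)) V₂ := by
    rw [hV₂]
    exact ⟨ι, hι, φ, c, hφ, fun i => hA₀ _ (hc₀ i), fun x => rfl⟩
  have hV0 : V₂ (0, 0) = 0 := by
    rw [hV₂]
    exact Finset.sum_eq_zero fun i _ => by rw [hφ0, map_zero, zero_mul]
  obtain ⟨T', hF', hT', hw'⟩ := h.fam.exists_lift (Q := PP (PP (Pk k) (Pk k)) (Pk k)) h0 hsc hval
    hz hVP hatt (fun y : (k × k) × k => y.1) (fun φ hφ => fst_mem_PP hφ)
    (κ := fun y => algebraMap k Ω y.2) (P0.fn (snd_mem_PP id_mem_Pk)) (fun y => h0.ge _)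
  -- the law
  have hm : ∀ φ ∈ PP (Pk k) (Pk k), (fun y : (k × k) × (k × k) =>
      φ (y.1.1 + y.2.1, y.1.2 + y.2.2 + δ y.1.1 y.2.1)) ∈
      PP (PP (Pk k) (Pk k)) (PP (Pk k) (Pk k)) :=
    PP_law (m := fun s s' : k => s + s') (del := fun y => δ y.1 y.2) Pk_law h.bi
  obtain ⟨del, hdel, hdel0, hlaw⟩ := law_upP
    (m := fun x x' : k × k => (x.1 + x'.1, x.2 + x'.2 + δ x.1 x'.1)) h0 h.fam hz hm h.law
    hVP.pl hVP.mem hatt
  obtain ⟨hd1, -⟩ := hdel0 (0, 0) h.id0 hV0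
  obtain ⟨μ, hμ, hlaw'⟩ := hlaw T' hF'.iso hT' hw'
  have hid : ∀ f ∈ cadj v F z, T' ((0, 0), 0) f = f := id_cadj hz (hF'.iso _)
    (fun f hf => by rw [hT' _ f hf]; exact h.id0 f hf) (by
      rw [hw']
      simp only
      rw [hV0, map_zero, add_zero, add_zero])
  -- the strict points
  have hG : G2 (Ss v (cadj v F z) T') δ (fun x x' => del (x, x')) :=
    { bi := PP_bi h.bi
      d0 := h.d0
      l3 := PP_l3 (δ := fun x x' => del (x, x')) hdel
      r3 := fun c => PP_r3 (δ := fun x x' => del (x, x')) hdel (0, c)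
      d3 := PP_d3 (δ := fun x x' => del (x, x')) hdel
      z3 := fun b' => hd1 b' (by
        simp only
        rw [h.d0, zero_add, zero_add, add_zero])
      z := Ss_one hid
      mul := fun x hx y hy => Ss_mul (m := fun x x' : (k × k) × k =>
        ((x.1.1 + x'.1.1, x.1.2 + x'.1.2 + δ x.1.1 x'.1.1), x.2 + x'.2 + del (x.1, x'.1)))
        hF'.iso ⟨μ, hμ, hlaw'⟩ hx hy
      dense := fun P hP => dense_poly h.dense P fun x hx => by
        obtain ⟨c, hc⟩ := exists_strict h0 hz hatt hF'.iso hT' hw' hx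
        exact hP _ hc }
  have hCK : Cld v (cadj v F z) := cld_cadj v F z
  rcases hG.dich p with h1 | ⟨R, c', hR, hR0, hc0, hcur, hRc, B, hh, hB, hh0, hce, hdh⟩
  · -- everything is dense: `z` is not hit
    exfalso
    obtain ⟨l, hl, hl'⟩ := hhit
    have hzc : ∀ e : k, Zc (PP (PP (Pk k) (Pk k)) (Pk k)) (Ss v (cadj v F z) T') ((0, 0), e) :=
      fun e => zc_of_ev3 fun P hP => by
        rw [h1 P hP]
        simp [ev3]
    refine hl' (not_dense_of_hit p h0 hc hCK (A := fun e => T' ((0, 0), e))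
      (hF'.comp _ fun φ hφ => PP_comp (γ := fun _ : k => ((0 : k), (0 : k)))
        (γ' := fun e : k => e) (fun ψ _ => const_mem _ (ψ (0, 0))) (fun ψ hψ => hψ) hφ) hid
      (fun t f hf b hb => hF'.ptw h0 (hzc t) hf hb)
      (fun t a ha τ hl => hF'.null h0 (hzc t) ha hl)
      (fun t f hf => by rw [hT' _ f hf]; exact h.id0 f hf)
      (fun t => by
        rw [hw']
        simp only
        rw [hV0, add_zero]) hf ?_ hlim hl)
    rw [eval_eq_sum_range]
    exact sum_mem fun i _ => mul_mem (le_cadj v F z (hf i)) (pow_mem (self_mem_cadj v F z) _)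
  · -- the curve
    choose Pi hPi using fun i => (PP_comp (γ := fun _ : k => (0 : k)) (γ' := fun t : k => t)
      (A := Pk k) (fun _ h1 => Pk_comp (zero_mem _) h1) (fun _ h1 => h1) (hφ i) :
        (fun t : k => φ i (0, t)) ∈ Pk k)
    obtain ⟨V, hV⟩ : ∃ V : Polynomial Ω, V = ∑ i, (Pi i).map (algebraMap k Ω) * C (c i) :=
      ⟨_, rfl⟩
    have hVe : ∀ s : k, V.eval (algebraMap k Ω s) = V₂ (0, s) := by
      intro s
      rw [hV, hV₂, eval_finsetSum]
      refine Finset.sum_congr rfl fun i _ => ?_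
      rw [eval_mul, eval_C, eval_map, eval₂_at_apply, ← hPi]
    have hzc : ∀ t : k, Zc (PP (PP (Pk k) (Pk k)) (Pk k)) (Ss v (cadj v F z) T')
        ((0, R.eval t), c'.eval t) := fun t => zc_of_ev3 fun P hP => hcur P hP t
    refine ⟨V, R, B, hh, fun t => T' ((0, R.eval t), c'.eval t), fun l => ?_, ?_, hR, hR0, hB, hh0,
      hF'.comp _ fun φ hφ => PP_comp (γ := fun t : k => ((0 : k), R.eval t))
        (γ' := fun t : k => c'.eval t)
        (fun ψ hψ => PP_comp (γ := fun _ : k => (0 : k)) (γ' := fun t : k => R.eval t)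
          (fun _ h1 => Pk_comp (zero_mem _) h1) (fun _ h1 => Pk_comp (eval_mem_Pk R) h1) hψ)
        (fun ψ hψ => Pk_comp (eval_mem_Pk c') hψ) hφ, fun f hf => ?_, fun t f hf => ?_,
      fun t => ?_, fun t f hf b hb => hF'.ptw h0 (hzc t) hf hb,
      fun t a ha τ hl => hF'.null h0 (hzc t) ha hl, ⟨μ, hμ, fun t t' => ?_⟩, μ / 2, half_pos hμ,
      fun s s' => ?_⟩
    · rw [hV, finsetSum_coeff]
      refine sum_mem fun i _ => ?_
      rw [coeff_mul_C, coeff_map, ← Algebra.smul_def]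
      exact A₀.smul_mem _ (hc₀ i)
    · have h2 := hVe 0
      rw [map_zero, hV0, ← coeff_zero_eq_eval_zero] at h2
      exact h2
    · simp only
      rw [hR.eval_zero, hc0]
      exact hid f hf
    · simp only
      rw [hT' _ f hf]
    · simp only
      rw [hw', hVe, hce, eval_add, eval_comp, add_comm (B.eval t)]
    · have h2 := hlaw' ((0, R.eval t), c'.eval t) ((0, R.eval t'), c'.eval t')
      simp only at h2
      rw [← hRc, h.d0, add_zero, add_zero, ← hR t t'] at h2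
      exact h2
    · have e1 : ((0 : k) + 0, s + s' + δ 0 0) = (0, s + s') := by rw [h.d0, add_zero, add_zero]
      have h2 := gain_of_law (m := fun x x' : k × k => (x.1 + x'.1, x.2 + x'.2 + δ x.1 x'.1))
        (del := del) hμ h.fam.mem hVP.mem hz.lim hT' hw' hlaw' (x := (0, s)) (x' := (0, s'))
        (fun f hf => by
          simp only
          rw [e1]
          exact hex s s' f hf)
      simp only at h2
      rw [e1, hdh, ← hVe, ← hVe, ← hVe] at h2
      exact h2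

end Pool.Agent.TWRZ
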