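import Pool.Agent.Lib.TWRZ.Step1
import Pool.Agent.Lib.TWRZ.StepK
import Pool.Agent.Lib.TWRZ.NearG

/-!
# TANK W, (Ru.Z): one floor

* `Fl1`: the motions of a floor over a one parameter family;
* `GF1.floor`: from a one parameter group on `L` to a one parameter group, or to a two parameter
  group, on the closure of `L(u)`; `GF1.floor_hit`: the floor is hit, only the first case;
* `GF2.floor`: from a two parameter group on `L` to a one parameter family on the closure of `L(u)`,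
  the floor is hit.
-/

set_option autoImplicit false

open Polynomial

namespace Pool.Agent.TWRZ

open Pool.Agent.H15JM (RVal)
open Pool.Agent.LU1 (VPos adj)
open Pool.Agent.D2 (Ctx0)
open Pool.Agent.D2P (clI mem_clI)
open Pool.Agent.TWM
open Pool.Agent.TWS
open Pool.Agent.TWCT (StrM eq_on_cadj)
open Pool.Agent.TWII (PG LP)
open TWRL (FAdd)

universe u

variable {k Ω : Type u} [Field k] [Field Ω] [Algebra k Ω] {v : RVal Ω}
  {L : IntermediateField k Ω} {u : Ω} {r : ℝ}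

/-- The motions `T₁` of a floor `u` over the motions `T`, along the polynomial curve `R`. -/
structure Fl1 (L : IntermediateField k Ω) (T T₁ : k → Ω →ₐ[k] Ω) (A : Submodule k Ω)
    (u : Ω) (r : ℝ) (R h B : k[X]) (V : Polynomial Ω) : Prop where
  add : FAdd R
  ne : R ≠ 0
  addB : FAdd B
  mem : ∀ l, V.coeff l ∈ A
  rad : (h = 0 ∧ B = 0) ∨ r = 0
  on : ∀ t, ∀ f ∈ L, T₁ t f = T (R.eval t) f
  mv : ∀ t, T₁ t u = u + V.eval (algebraMap k Ω (R.eval t)) +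
    algebraMap k Ω (h.eval (R.eval t) + B.eval t)

/-- A one parameter family of pointwise strict motions, without effect on the critical elements, a
group modulo strict motions. -/
structure FamG (p : ℕ) (v : RVal Ω) (L : IntermediateField k Ω) (T : k → Ω →ₐ[k] Ω) : Prop where
  fam : Fam v L (Pk k) T
  id0 : ∀ f ∈ L, T 0 f = f
  ptw : ∀ t, ∀ f ∈ L, ∀ b : ℝ, v.Ge b f → Gt v b (T t f - f)
  null : ∀ t, ∀ a ∈ L, ∀ τ : ℝ, LP p v L τ a → PG p v L τ (T t a - a)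
  law : ∃ μ : ℝ, 0 < μ ∧ ∀ t t', NrM v ((T t).comp (T t')) (T (t + t')) L μ

variable {T : k → Ω →ₐ[k] Ω} {A : Submodule k Ω}

theorem GF1.famG [IsAlgClosed k] {p : ℕ} [hp : Fact p.Prime] [CharP k p] [CharP Ω p]
    (h0 : Ctx0 k v) (h : GF1 v L T) : FamG p v L T :=
  ⟨h.fam, h.id0, fun t _ hf _ hb => h.ptw h0 t hf hb, fun t _ ha _ hl => h.null h0 t ha hl, h.law⟩

theorem fadd_X : FAdd (X : k[X]) := fun s t => by simp

theorem fadd_zero : FAdd (0 : k[X]) := fun s t => by simp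

/-- **One floor over a one parameter group.** -/
theorem GF1.floor [IsAlgClosed k] [IsAlgClosed Ω] {p : ℕ} [hp : Fact p.Prime] [CharP k p]
    (h0 : Ctx0 k v) (hsc : SphC v) (hval : ∀ ρ : ℝ, ∃ x : Ω, x ≠ 0 ∧ v x = ρ)
    (h : GF1 v L T) (hu : TL v L u r) (hr : r = 0 ∨ ∀ f ∈ L, f ≠ 0 → v f ≠ r)
    (hsh : FSh v L (Pk k) T u r)
    (hA : ∀ f ∈ A, f ∈ L) (hd : ∀ f ∈ L, ∀ B : ℝ, ∃ g ∈ A, v.Ge B (f - g)) :
    (∃ (T₁ : k → Ω →ₐ[k] Ω) (R hh B : k[X]) (V : Polynomial Ω), GF1 v (cadj v L u) T₁ ∧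
      Fl1 L T T₁ A u r R hh B V) ∨
    (r = 0 ∧ ∃ (V : Polynomial Ω) (T' : k × k → Ω →ₐ[k] Ω) (δ : k → k → k),
      (∀ l, V.coeff l ∈ A) ∧ V.eval 0 = 0 ∧ GF2 v (cadj v L u) T' δ ∧
      (∀ y, ∀ f ∈ L, T' y f = T y.1 f) ∧
      ∀ y, T' y u = u + V.eval (algebraMap k Ω y.1) + algebraMap k Ω y.2) := by
  rcases hr with rfl | hr
  · obtain ⟨V, T', δ, hV, hV0, -, hGP, hT', hu', hdi⟩ := step1 (p := p) h0 hsc hval h hu hsh hA hd
    obtain ⟨U, hU, hUV⟩ := hV.exists_poly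
    rcases hdi with h2 | ⟨R, c, hR, hR0, hc0, hRc, ⟨B, hh, hB, hh0, hcB, hδ⟩, h1⟩
    · refine Or.inr ⟨rfl, U, T', δ, hU, ?_, h2, hT', fun y => by rw [hu', hUV]⟩
      have h4 := hUV 0
      rw [map_zero] at h4
      rw [← h4, hV0]
    · refine Or.inl ⟨_, R, hh, B, U, h1, hR, hR0, hB, hU, Or.inr rfl, fun t f hf => hT' _ f hf,
        fun t => ?_⟩
      rw [hu', hUV, hcB, eval_add, eval_comp, add_comm (B.eval t)]
  · obtain ⟨V, T', hV, hV0, -, h1, hT', hu'⟩ := step0 h0 hsc hval h hu hr hsh hA hd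
    obtain ⟨U, hU, hUV⟩ := hV.exists_poly
    refine Or.inl ⟨T', X, 0, 0, U, h1, fadd_X, X_ne_zero, fadd_zero, hU, Or.inl ⟨rfl, rfl⟩,
      fun t f hf => by rw [eval_X]; exact hT' t f hf, fun t => ?_⟩
    rw [hu', hUV, eval_X, eval_zero, add_zero, map_zero, add_zero]

/-- A floor which is hit has no two parameter group whose second axis is a translation. -/
theorem GF2.not_hit [IsAlgClosed k] {p : ℕ} [hp : Fact p.Prime] [CharP k p] [CharP Ω p]
    (h0 : Ctx0 k v) (hc : CompleteV v) {K : IntermediateField k Ω} (hK : Cld v K)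
    {T' : k × k → Ω →ₐ[k] Ω} {δ : k → k → k} (h2 : GF2 v K T' δ)
    (hT : ∀ t : k, ∀ f ∈ L, T' (0, t) f = f) (hu : ∀ t : k, T' (0, t) u = u + algebraMap k Ω t)
    {ν : ℝ} {f : Polynomial Ω} (hf : f ∈ PI L) (hfK : f.eval u ∈ K) (hlim : LP p v K ν (f.eval u))
    {l : ℕ} (hl : l ≠ 0) : PG p v K ν ((taylor u f).coeff l) := by
  have : Infinite k := IsAlgClosed.instInfinite
  exact not_dense_of_hit p h0 hc hK (A := fun t => T' (0, t)) h2.toGP.fam2 h2.id0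
    (fun t f hf b hb => h2.fam.ptw h0 (h2.dense (0, t)) hf hb)
    (fun t a ha τ hl => h2.fam.null h0 (h2.dense (0, t)) ha hl) hT hu hf hfK hlim hl

/-- **One floor over a one parameter group, the floor is hit.** -/
theorem GF1.floor_hit [IsAlgClosed k] [IsAlgClosed Ω] {p : ℕ} [hp : Fact p.Prime] [CharP k p]
    [CharP Ω p] (h0 : Ctx0 k v) (hc : CompleteV v) (hsc : SphC v)
    (hval : ∀ ρ : ℝ, ∃ x : Ω, x ≠ 0 ∧ v x = ρ) (hL : Cld v L)
    (h : GF1 v L T) (hu : TL v L u r) (hr : r = 0 ∨ ∀ f ∈ L, f ≠ 0 → v f ≠ r)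
    (hA : ∀ f ∈ A, f ∈ L) (hd : ∀ f ∈ L, ∀ B : ℝ, ∃ g ∈ A, v.Ge B (f - g))
    {ν : ℝ} {f : Polynomial Ω} (hf : f ∈ PI L) (hlim : LP p v (cadj v L u) ν (f.eval u))
    (hhit : ∃ l : ℕ, p ∣ l ∧ l ≠ 0 ∧
      ¬ PG p v (cadj v L u) (ν - l * r) ((taylor u f).coeff l)) :
    ∃ (T₁ : k → Ω →ₐ[k] Ω) (R hh B : k[X]) (V : Polynomial Ω), GF1 v (cadj v L u) T₁ ∧
      Fl1 L T T₁ A u r R hh B V := by
  have : Infinite k := IsAlgClosed.instInfinite
  have hsh := h.fsh p h0 hc hL hu hf hlim hhit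
  rcases h.floor (p := p) h0 hsc hval hu hr hsh hA hd with h1 | ⟨rfl, V, T', δ, hV, hV0, h2, hT', hu'⟩
  · exact h1
  · exfalso
    obtain ⟨l, -, hl0, hl⟩ := hhit
    rw [mul_zero, sub_zero] at hl
    refine hl (h2.not_hit (L := L) h0 hc (cld_cadj v L u) (fun t f hf => ?_) (fun t => ?_) hf
      (TWM.eval_mem (PI_mono (le_cadj v L u) hf) (self_mem_cadj v L u)) hlim hl0)
    · rw [hT' _ f hf]
      exact h.id0 f hf
    · rw [hu']
      simp only
      rw [map_zero, hV0, add_zero]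

end Pool.Agent.TWRZ
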