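import Pool.Agent.Lib.TWRZ.EqvF
import Pool.Agent.Lib.TWC.Tame
import Pool.Agent.Lib.TWCT.AS0

/-!
# TANK W, (Ru.Z): the tame extension `K(c)` and its automorphism

`GD v K c m`: `c ^ m ∈ K` and `m` is the order of `v c` modulo the values of `K`.
* `GD.exists_sig`: `σ c = ζ c`, `σ` the identity on `K`, isometric;
* `GD.down`, `GD.cld_adj`, `GD.tl`, `cadj_adj`: the floors.
-/

set_option autoImplicit false

open Polynomial

namespace Pool.Agent.TWRZ

open Pool.Agent.H15JM (RVal)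
open Pool.Agent.LU1 (VPos adj)
open Pool.Agent.D2 (Ctx0)
open Pool.Agent.D2P (hen clI mem_clI)
open Pool.Agent.TWM
open Pool.Agent.TWS
open Pool.Agent.TWC (GD exists_sum alg_of_pw)

universe u

variable {k Ω : Type u} [Field k] [Field Ω] [Algebra k Ω] {v : RVal Ω}
  {K L : IntermediateField k Ω} {c w : Ω} {m : ℕ} {ρ : ℝ}

/-- The minimal polynomial of `c`. -/
theorem GD.minpoly_eq (hG : GD v K c m) :
    minpoly K c = X ^ m - C (⟨c ^ m, hG.pw⟩ : K) := by
  have hmon := monic_X_pow_sub_C (⟨c ^ m, hG.pw⟩ : K) hG.pos.ne'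
  have hroot : aeval c (X ^ m - C (⟨c ^ m, hG.pw⟩ : K)) = 0 := by
    rw [map_sub, map_pow, aeval_X, aeval_C]
    exact sub_self _
  have hint : IsIntegral K c := ⟨_, hmon, by rwa [← aeval_def]⟩
  have hdeg : m ≤ (minpoly K c).natDegree := by
    by_contra hlt
    rw [not_le] at hlt
    have h1 := minpoly.aeval K c
    rw [aeval_eq_sum_range' hlt] at h1
    have h2 : (∑ j ∈ Finset.range m, ((minpoly K c).coeff j : Ω) * c ^ j) = 0 := by
      rw [← h1]
      refine Finset.sum_congr rfl fun j _ => ?_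
      rw [Algebra.smul_def]
      rfl
    have h3 : ∀ r : ℝ, v.Ge r (((minpoly K c).coeff (minpoly K c).natDegree : Ω) *
        c ^ (minpoly K c).natDegree) := fun r =>
      hG.orth (f := fun j => ((minpoly K c).coeff j : Ω)) (fun j => SetLike.coe_mem _)
        (by rw [h2]; exact RVal.Ge.zero) hlt
    have h4 : ((minpoly K c).coeff (minpoly K c).natDegree : Ω) = 1 := by
      rw [Polynomial.coeff_natDegree, (minpoly.monic hint).leadingCoeff]
      rfl
    rw [h4, one_mul] at h3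
    have h5 := h3 (v (c ^ (minpoly K c).natDegree) + 1) (pow_ne_zero _ hG.ne)
    linarith
  exact (Polynomial.eq_of_monic_of_dvd_of_natDegree_le (minpoly.monic hint) hmon
    (minpoly.dvd K c hroot) (by rw [natDegree_X_pow_sub_C]; exact hdeg)).symm

/-- **The automorphism.** -/
theorem GD.exists_sig [IsAlgClosed Ω] (hk : Ctx0 k v) (hw : SphC v)
    (hval : ∀ ρ : ℝ, ∃ x : Ω, x ≠ 0 ∧ v x = ρ) (hG : GD v K c m) {ζ : k}
    (hζ : IsPrimitiveRoot ζ m) :
    ∃ σ : Ω →ₐ[k] Ω, IsoE v v σ ∧ (∀ a ∈ K, σ a = a) ∧ σ c = algebraMap k Ω ζ * c ∧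
      (∀ f ∈ adj K c, σ f ∈ adj K c) ∧ (∀ f ∈ adj K c, (σ ^ m) f = f) ∧
      ∀ f ∈ adj K c, σ f = f → f ∈ K := by
  classical
  have hKh : hen v K = K := TWM.C.hen_eq hG.cld
  obtain ⟨σ, h1, h2, h3⟩ := TWCT.exists_conj hk hw hval hKh (θ := c)
    (θ' := algebraMap k Ω ζ * c) (alg_of_pw hG.pos hG.pw) (by
      rw [GD.minpoly_eq hG, map_sub, map_pow, aeval_X, aeval_C, mul_pow, ← map_pow, hζ.pow_eq_one,
        map_one, one_mul]
      exact sub_self _)
  have hsum : ∀ (i : ℕ) (f : ℕ → Ω), (∀ j, f j ∈ K) →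
      (σ ^ i) (∑ j ∈ Finset.range m, f j * c ^ j) =
        ∑ j ∈ Finset.range m, (algebraMap k Ω (ζ ^ (i * j)) * f j) * c ^ j := by
    intro i f hf
    rw [map_sum]
    refine Finset.sum_congr rfl fun j _ => ?_
    have h4 : ∀ a ∈ K, (σ ^ i) a = a := by
      intro a ha
      induction i with
      | zero => rfl
      | succ i ih =>
        rw [pow_succ]
        change (σ ^ i) (σ a) = a
        rw [h2 a ha, ih]
    have h5 : (σ ^ i) c = algebraMap k Ω (ζ ^ i) * c := by
      clear h4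
      induction i with
      | zero =>
        rw [pow_zero, pow_zero, map_one, one_mul]
        rfl
      | succ i ih =>
        rw [pow_succ']
        change σ ((σ ^ i) c) = _
        rw [ih, map_mul, AlgHom.commutes, h3, ← mul_assoc, ← map_mul, ← pow_succ]
    rw [map_mul, map_pow, h4 _ (hf j), h5, mul_pow, ← map_pow, ← pow_mul]
    ring
  refine ⟨σ, h1, h2, h3, fun f hf => ?_, fun f hf => ?_, fun f hf h4 => ?_⟩
  · have h4 : adj K c ≤ (adj K c).comap σ := by
      refine D2P.adj_le (fun a ha => ?_) ?_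
      · change σ a ∈ adj K c
        rw [h2 a ha]
        exact (D2P.mem_adj_self K c).2 ha
      · change σ c ∈ adj K c
        rw [h3]
        exact mul_mem ((adj K c).algebraMap_mem _) (D2P.mem_adj_self K c).1
    exact h4 hf
  · obtain ⟨g, hg, rfl⟩ := exists_sum hG.pos hG.pw hf
    rw [hsum m g hg]
    refine Finset.sum_congr rfl fun j _ => ?_
    rw [pow_mul, hζ.pow_eq_one, one_pow, map_one, one_mul]
  · obtain ⟨g, hg, rfl⟩ := exists_sum hG.pos hG.pw hf
    have h5 := hsum 1 g hg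
    rw [pow_one, h4] at h5
    have h6 : ∑ j ∈ Finset.range m, ((1 - algebraMap k Ω (ζ ^ j)) * g j) * c ^ j = 0 := by
      have h7 : ∀ j ∈ Finset.range m, ((1 - algebraMap k Ω (ζ ^ j)) * g j) * c ^ j =
          g j * c ^ j - (algebraMap k Ω (ζ ^ (1 * j)) * g j) * c ^ j := fun j _ => by
        rw [one_mul]
        ring
      rw [Finset.sum_congr rfl h7, Finset.sum_sub_distrib, ← h5, sub_self]
    have h8 : ∀ j, j < m → j ≠ 0 → g j = 0 := by
      intro j hj hj0
      by_contra hne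
      have h9 : (1 - algebraMap k Ω (ζ ^ j) : Ω) ≠ 0 := by
        rw [← map_one (algebraMap k Ω), ← map_sub]
        refine (_root_.map_ne_zero _).2 (sub_ne_zero.2 fun h10 => ?_)
        exact hζ.pow_ne_one_of_pos_of_lt hj0 hj h10.symm
      have h10 := hG.orth (f := fun j => (1 - algebraMap k Ω (ζ ^ j)) * g j)
        (c := v ((1 - algebraMap k Ω (ζ ^ j)) * g j * c ^ j) + 1) (fun i => mul_mem
          (sub_mem (one_mem K) (K.algebraMap_mem _)) (hg i)) (by
          rw [h6]
          exact RVal.Ge.zero) hj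
      have h11 := h10 (mul_ne_zero (mul_ne_zero h9 hne) (pow_ne_zero _ hG.ne))
      linarith
    obtain ⟨M, hM⟩ := Nat.exists_eq_succ_of_ne_zero hG.pos.ne'
    rw [hM, Finset.sum_range_succ', Finset.sum_eq_zero fun j hj => ?_, zero_add, pow_zero, mul_one]
    · exact hg 0
    · rw [h8 (j + 1) (by rw [hM]; have := Finset.mem_range.1 hj; omega) (Nat.succ_ne_zero j),
        zero_mul]

/-! ### The floors -/

theorem GD.down (hG : GD v K c m) (hL : Cld v L) (hLK : L ≤ K) (hc : c ^ m ∈ L) : GD v L c m where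
  cld := hL
  pos := hG.pos
  ne := hG.ne
  pw := hc
  val j hj := hG.val j (VG.mono hLK hj)

theorem GD.cld_adj (hc : CompleteV v) (hG : GD v L c m) : Cld v (adj L c) :=
  TWM.cld_adj hc hG.cld (alg_of_pw hG.pos hG.pw)

theorem GD.tl (hG : GD v L c m) (hw : TL v L w ρ) : TL v (adj L c) w ρ :=
  hw.mono (D2P.mem_adj_self L c).2 (D2P.adj_le (le_algc L) (mem_algc.2 (alg_of_pw hG.pos hG.pw)))

/-- `L(c)⟨w⟩ = L⟨w⟩(c)`. -/
theorem GD.cadj_adj (hc : CompleteV v) (hG : GD v (cadj v L w) c m) :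
    cadj v (adj L c) w = adj (cadj v L w) c := by
  refine le_antisymm ?_ ?_
  · refine cadj_le (GD.cld_adj hc hG) (D2P.adj_le ?_ (D2P.mem_adj_self _ _).1) ?_
    · exact (le_cadj v L w).trans (D2P.mem_adj_self _ _).2
    · exact (D2P.mem_adj_self _ _).2 (self_mem_cadj v L w)
  · refine D2P.adj_le ?_ (le_cadj v _ _ (D2P.mem_adj_self L c).1)
    exact cadj_le (cld_cadj v _ _) ((D2P.mem_adj_self L c).2.trans (le_cadj v _ _))
      (self_mem_cadj v _ _)

end Pool.Agent.TWRZ
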