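import Pool.Agent.Lib.TWRZ.FTri
import Pool.Agent.Lib.TWRZ.SigE
import Pool.Agent.Lib.TWRZ.Floor

/-!
# TANK W, (Ru.Z): triangular families of motions, tame case

* `SigD`: `K(e)`, `e ^ n ∈ K`, with the generator `σ` of its group, `σ e = ζ e`;
* `TriE`: a one parameter family of pointwise strict motions of `K(e)`, equivariant, triangular in
  coordinates `T i ∈ K`; the coordinate `T i₀` moves by `α(t) c e ^ j`.
-/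

set_option autoImplicit false

open Polynomial

namespace Pool.Agent.TWRZ

open Pool.Agent.H15JM (RVal)
open Pool.Agent.LU1 (VPos adj)
open Pool.Agent.TWM
open Pool.Agent.TWS
open Pool.Agent.TWC (GD)
open Pool.Agent.TWEX (Adn)
open Pool.Agent.TWII (PG LP)
open TWRL (FAdd)

universe u

variable {k Ω : Type u} [Field k] [Field Ω] [Algebra k Ω]

/-- `K(e)` and its automorphism. -/
structure SigD (v : RVal Ω) (K : IntermediateField k Ω) (e : Ω) (n : ℕ) (ζ : k)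
    (σ : Ω →ₐ[k] Ω) : Prop where
  gd : GD v K e n
  nk : (n : k) ≠ 0
  prim : IsPrimitiveRoot ζ n
  iso : IsoE v v σ
  fix : ∀ f ∈ K, σ f = f
  se : σ e = algebraMap k Ω ζ * e
  map : ∀ f ∈ adj K e, σ f ∈ adj K e
  ord : ∀ f ∈ adj K e, (σ ^ n) f = f
  inv : ∀ f ∈ adj K e, σ f = f → f ∈ K

/-- A triangular family of motions of `K(e)` over the fixed coordinates `T j`, `j ∈ J`, the
coordinates are in `K`. -/
structure TriE (p : ℕ) (v : RVal Ω) (N₀ N K : IntermediateField k Ω) {m : ℕ} (T : Fin m → Ω)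
    (J : Set (Fin m)) (i₀ : Fin m) (c : Ω) (s : ℝ) (n : ℕ) (e : Ω) (ζ θ : k) (σ : Ω →ₐ[k] Ω)
    (A : k → Ω →ₐ[k] Ω) : Prop where
  n0 : N₀ = IntermediateField.adjoin k (T '' J)
  xv : ∃ x ∈ N₀, x ≠ 0 ∧ v x ≠ 0
  le0 : N₀ ≤ N
  cN : Cld v N
  nle : N ≤ K
  tmem : ∀ i, T i ∈ K
  en : e ^ n ∈ N₀
  sig : SigD v K e n ζ σ
  th : θ ^ n = 1
  eqv : Eqv v n σ (adj K e) A fun t => θ * t
  fam : Fam v (adj K e) (Pk k) A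
  id0 : ∀ f ∈ adj K e, A 0 f = f
  ptw : ∀ t, ∀ f ∈ adj K e, ∀ b : ℝ, v.Ge b f → Gt v b (A t f - f)
  null : ∀ t, ∀ a ∈ adj K e, ∀ τ : ℝ, LP p v (adj K e) τ a → PG p v (adj K e) τ (A t a - a)
  con : ∀ t, ∀ a ∈ adj N e, A t a = a
  i0 : i₀ ∉ J
  cmem : c ∈ Adn N₀ {T i₀}
  c0 : c ≠ 0
  mv : ∃ (α : k[X]) (j : ℕ), FAdd α ∧ α ≠ 0 ∧ v (c * e ^ j) = s ∧
    ∀ t, A t (T i₀) = T i₀ + algebraMap k Ω (α.eval t) * (c * e ^ j)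
  jet : ∀ i, i ∉ J → i ≠ i₀ → ∃ P : Polynomial Ω,
    (∀ l, P.coeff l ∈ Adn (adj N₀ e) (T '' {j | j < i})) ∧
    ∀ t, A t (T i) = T i + P.eval (algebraMap k Ω t)
  lim : ∀ δ : ℝ, 0 < δ → ∃ j : ℕ, ∃ a ∈ N, v.Ge (p ^ j * (s - δ)) (T i₀ ^ p ^ j - a)
  nd : ∀ a ∈ N, ∀ b : ℝ, ∃ g ∈ Adn N₀ {T i₀}, v.Ge b (a - g)
  den : ∀ a ∈ K, ∀ b : ℝ, ∃ g ∈ Adn N₀ (Set.range T), v.Ge b (a - g)
  near : ∃ U ∈ adj K e, ∃ R μ : ℝ, 0 < μ ∧ (∀ t, v.Ge (R + μ) (A t U - U)) ∧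
    ∀ ξ : Ω, IsAlgebraic (adj N e) ξ → U ≠ ξ ∧ v (U - ξ) ≤ R

end Pool.Agent.TWRZ
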