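import Pool.Agent.Lib.TWRZ.Cases
import Pool.Agent.Lib.TWRZ.TriE
import Pool.Agent.Lib.TWRZ.Norm

/-!
# TANK W, (Ru.Z): the two triangular families, tame case

* `dense_adj`, `adnK_map`: `N₀(e)[S]` is dense in `L(e)`, it is stable under `σ`;
* `triE_one`: `y` moves;
* `triE_two`: `y` is fixed, `z` moves.
-/

set_option autoImplicit false

open Polynomial

namespace Pool.Agent.TWRZ

open Pool.Agent.H15JM (RVal)
open Pool.Agent.LU1 (VPos adj)
open Pool.Agent.D2 (Ctx0)
open Pool.Agent.D2P (clI mem_clI)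
open Pool.Agent.TWM
open Pool.Agent.TWS
open Pool.Agent.TWC (GD exists_sum alg_of_pw)
open Pool.Agent.TWEX (Adn)
open Pool.Agent.TWII (PG LP)
open TWRL (FAdd)

universe u

variable {k Ω : Type u} [Field k] [Field Ω] [Algebra k Ω] {v : RVal Ω}

section Aux

variable {L L' N₀ : IntermediateField k Ω} {S : Set Ω} {e z : Ω} {n : ℕ}

theorem adj_mono (h : L ≤ L') : adj L e ≤ adj L' e :=
  D2P.adj_le (h.trans (D2P.mem_adj_self L' e).2) (D2P.mem_adj_self L' e).1

/-- Density in `L(e)`. -/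
theorem dense_adj (hn : 0 < n) (he : e ^ n ∈ L)
    (hd : ∀ f ∈ L, ∀ B : ℝ, ∃ g ∈ Adn N₀ S, v.Ge B (f - g)) :
    ∀ f ∈ adj L e, ∀ B : ℝ, ∃ g ∈ AdnK (adj N₀ e) S, v.Ge B (f - g) := by
  intro f hf B
  obtain ⟨g, hg, rfl⟩ := exists_sum hn he hf
  choose h hh hh' using fun j : ℕ => hd (g j) (hg j) (B - j * v e)
  refine ⟨∑ j ∈ Finset.range n, h j * e ^ j, sum_mem fun j _ =>
    AdnK.mul (AdnK.monoN (D2P.mem_adj_self N₀ e).2 (hh j))
      (AdnK.pow (AdnK.const (D2P.mem_adj_self N₀ e).1) j), ?_⟩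
  rw [← Finset.sum_sub_distrib]
  refine RVal.Ge.sum _ _ fun j _ => ?_
  rw [← sub_mul]
  exact ((hh' j).mul (ge_pow (RVal.ge_self e) j)).mono (by linarith)

/-- `N₀(e)[S]` is stable. -/
theorem adnK_map {σ : Ω →ₐ[k] Ω} {ζ : k} (hN : ∀ a ∈ N₀, σ a = a)
    (hse : σ e = algebraMap k Ω ζ * e) (hS : ∀ a ∈ S, σ a = a) :
    ∀ f ∈ AdnK (adj N₀ e) S, σ f ∈ AdnK (adj N₀ e) S := by
  have h1 : adj N₀ e ≤ (adj N₀ e).comap σ := by
    refine D2P.adj_le (fun a ha => ?_) ?_
    · change σ a ∈ adj N₀ e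
      rw [hN a ha]
      exact (D2P.mem_adj_self N₀ e).2 ha
    · change σ e ∈ adj N₀ e
      rw [hse]
      exact mul_mem ((adj N₀ e).algebraMap_mem _) (D2P.mem_adj_self N₀ e).1
  intro f hf
  rw [mem_AdnK] at hf
  induction hf using Algebra.adjoin_induction with
  | mem a ha =>
    rw [hS a ha]
    exact AdnK.gen ha
  | algebraMap c => exact AdnK.const (h1 c.2)
  | add a b _ _ ha hb =>
    rw [map_add]
    exact add_mem ha hb
  | mul a b _ _ ha hb =>
    rw [map_mul]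
    exact AdnK.mul ha hb

/-- The motion of `z` from the motion of `z / e ^ i`. -/
theorem poly_mul {T : k → Ω →ₐ[k] Ω} {i : ℕ} (he0 : e ≠ 0) (hT : ∀ t, T t e = e)
    (h : ∃ P : Polynomial Ω, (∀ l, P.coeff l ∈ AdnK (adj N₀ e) S) ∧
      ∀ t, T t (z / e ^ i) = z / e ^ i + P.eval (algebraMap k Ω t)) :
    ∃ P : Polynomial Ω, (∀ l, P.coeff l ∈ AdnK (adj N₀ e) S) ∧
      ∀ t, T t z = z + P.eval (algebraMap k Ω t) := by
  obtain ⟨P, hP1, hP2⟩ := h
  refine ⟨C (e ^ i) * P, fun l => ?_, fun t => ?_⟩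
  · rw [coeff_C_mul]
    exact AdnK.mul (AdnK.pow (AdnK.const (D2P.mem_adj_self N₀ e).1) i) (hP1 l)
  · have h1 : T t z = T t (e ^ i) * T t (z / e ^ i) := by
      rw [← map_mul, mul_div_cancel₀ _ (pow_ne_zero _ he0)]
    rw [h1, map_pow, hT, hP2, mul_add, mul_div_cancel₀ _ (pow_ne_zero _ he0), eval_mul, eval_C]

end Aux

section

variable {p : ℕ} [hp : Fact p.Prime] [IsAlgClosed k] [IsAlgClosed Ω] [CharP k p] [CharP Ω p]
  {C W : IntermediateField k Ω} {x y z z' c e : Ω} {s r r' r₁ r₁' : ℝ} {n i i' : ℕ} {ζ θ : k}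
  {σ : Ω →ₐ[k] Ω}

/-- **Case 1**: `y` moves. -/
theorem triE_one (h0 : Ctx0 k v) (hP : Pres v C x y z z' r r')
    (hS : SigD v (cadj v (cadj v C z) z') e n ζ σ)
    (hen : e ^ n ∈ IntermediateField.adjoin k {x})
    (hcW : Cld v W) (hxW : x ∈ W) (hWC : W ≤ C)
    (hlim : ∀ ε : ℝ, 0 < ε → ∃ (j : ℕ) (a : Ω), a ^ p ^ j ∈ W ∧ v.Ge (s - ε) (y - a))
    (hc : c ∈ Adn (IntermediateField.adjoin k {x}) {y}) (hc0 : c ≠ 0) (hcs : v (c * e) = s)
    {T : k → Ω →ₐ[k] Ω} (hT : FamG p v (adj C e) T) (hTW : ∀ t, ∀ a ∈ adj W e, T t a = a)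
    (hTy : ∀ t, T t y = y + algebraMap k Ω t * (c * e))
    (htz : TL v (adj C e) (z / e ^ i) r₁)
    (eF : cadj v (adj C e) (z / e ^ i) = adj (cadj v C z) e)
    {T₁ : k → Ω →ₐ[k] Ω} {R hh B : k[X]} {V : Polynomial Ω}
    (h1 : FamG p v (adj (cadj v C z) e) T₁)
    (hF1 : Fl1 (adj C e) T T₁ (AdnK (adj (IntermediateField.adjoin k {x}) e) {y})
      (z / e ^ i) r₁ R hh B V)
    {T₂ : k → Ω →ₐ[k] Ω} {R' hh' B' : k[X]} {V' : Polynomial Ω}
    (h2 : FamG p v (adj (cadj v (cadj v C z) z') e) T₂)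
    (hF2 : Fl1 (adj (cadj v C z) e) T₁ T₂
      (AdnK (adj (IntermediateField.adjoin k {x}) e) {y, z}) (z' / e ^ i') r₁' R' hh' B' V')
    (hθ : θ ^ n = 1) (he2 : Eqv v n σ (adj (cadj v (cadj v C z) z') e) T₂ fun t => θ * t) :
    TriE p v (IntermediateField.adjoin k {x}) W (cadj v (cadj v C z) z') ![x, y, z, z'] {0} 1 c s
      n e ζ θ σ T₂ := by
  have hNW : IntermediateField.adjoin k {x} ≤ W := by
    rw [IntermediateField.adjoin_le_iff, Set.singleton_subset_iff]
    exact hxW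
  have he0 := hS.gd.ne
  have hCF : C ≤ cadj v C z := le_cadj v C z
  have hFK : cadj v C z ≤ cadj v (cadj v C z) z' := le_cadj v _ z'
  have hCC' : C ≤ adj C e := (D2P.mem_adj_self C e).2
  have heC' : e ∈ adj C e := (D2P.mem_adj_self C e).1
  have heW' : e ∈ adj W e := (D2P.mem_adj_self W e).1
  have hFF' : cadj v C z ≤ adj (cadj v C z) e := (D2P.mem_adj_self _ e).2
  have heF' : e ∈ adj (cadj v C z) e := (D2P.mem_adj_self _ e).1
  have hC'F' : adj C e ≤ adj (cadj v C z) e := adj_mono hCF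
  have hWC' : adj W e ≤ adj C e := adj_mono hWC
  have hzF : z ∈ cadj v C z := self_mem_cadj v C z
  have hyA : ∀ a ∈ ({y} : Set Ω), a ∈ adj C e := by
    intro a ha
    rw [Set.mem_singleton_iff.1 ha]
    exact hCC' hP.yC
  have hcC : c * e ∈ adj C e := by
    refine mul_mem (hCC' (AdnK.le (S := {y}) (hNW.trans hWC) (by
      intro a ha
      rw [Set.mem_singleton_iff.1 ha]
      exact hP.yC) c hc)) heC'
  have hlim' : ∀ δ : ℝ, 0 < δ → ∃ j : ℕ, ∃ n ∈ W, v.Ge (p ^ j * (s - δ)) (y ^ p ^ j - n) := by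
    intro δ hδ
    obtain ⟨j, a, ha, h3⟩ := hlim δ hδ
    refine ⟨j, _, ha, ?_⟩
    rw [← sub_pow_char_pow]
    have h4 := ge_pow h3 (p ^ j)
    exact_mod_cast h4
  have hxN : x ∈ IntermediateField.adjoin k {x} := IntermediateField.mem_adjoin_simple_self k x
  have hon1 : ∀ t, ∀ f ∈ adj C e, T₂ t f = T ((R.comp R').eval t) f := fun t f hf => by
    rw [hF2.on t f (hC'F' hf), hF1.on _ f hf, eval_comp]
  have hTe : ∀ t, T₂ t e = e := fun t => by rw [hon1 t e heC', hTW _ e heW']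
  have hden := den3 (C := C) (z := z) (z' := z') h0 hxN hP.x0
    (IntermediateField.adjoin.mono k _ _ (by simp)) hP.cC hP.xC hP.yC hP.le hP.q
  refine
    { n0 := by rw [image4_zero]
      xv := ⟨x, hxN, hP.x0, hP.vx⟩
      le0 := hNW
      cN := hcW
      nle := hWC.trans (hCF.trans hFK)
      tmem := mem4 hP.xC hP.yC
      en := hen
      sig := hS
      th := hθ
      eqv := he2
      fam := h2.fam
      id0 := h2.id0
      ptw := h2.ptw
      null := h2.null
      con := fun t a ha => by rw [hon1 t a (hWC' ha), hTW _ a ha]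
      i0 := by simp
      cmem := hc
      c0 := hc0
      mv := ⟨R.comp R', 1, hF1.add.comp hF2.add, FAdd.comp_ne hF1.ne hF2.add hF2.ne, by
        rw [pow_one]
        exact hcs, fun t => by
        change T₂ t y = _
        rw [hon1 t y (hCC' hP.yC), hTy, pow_one]
        rfl⟩
      jet := ?_
      lim := hlim'
      nd := den1 h0 hxN hP.x0 (IntermediateField.adjoin.mono k _ _ (by simp))
        (hP.q.mono (hP.xy_le.trans (hCF.trans hFK))) (hWC.trans hP.le)
      den := fun a ha b => by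
        rw [adn4_eq hxN]
        exact hden a ha b
      near := near_g p h0 (N := adj W e) (L := adj C e)
        (K := adj (cadj v (cadj v C z) z') e) (y := y) (u := z / e ^ i) (c := c * e) (s := s)
        hWC' htz (by rw [eF]; exact adj_mono hFK) (hCC' hP.yC) hcC
        (mul_ne_zero hc0 he0) hcs hT.fam
        (hT.fam.unif h0 hcC fun t => hT.ptw t (c * e) hcC s (by
          rw [← hcs]
          exact RVal.ge_self _)) hTW hTy h1.fam.iso (by rw [eF]; exact h1.law) hF1.add hF1.ne hF1.on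
        (fun l => AdnK.le (S := {y}) (adj_mono (hNW.trans hWC)) hyA _ (hF1.mem l)) hF1.addB
        hF1.rad hF1.mv h2.fam.iso hF2.add hF2.ne (by rw [eF]; exact hF2.on)
        fun δ hδ => by
          obtain ⟨j, a, ha, h3⟩ := hlim' δ hδ
          exact ⟨j, a, (D2P.mem_adj_self W e).2 ha, h3⟩ }
  intro j hj hj1
  fin_cases j
  · exact absurd rfl hj
  · exact absurd rfl hj1
  · change ∃ P : Polynomial Ω, (∀ l, P.coeff l ∈
      Adn (adj (IntermediateField.adjoin k {x}) e) (![x, y, z, z'] '' {j : Fin 4 | j < 2})) ∧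
      ∀ t, T₂ t z = z + P.eval (algebraMap k Ω t)
    rw [image4_lt2]
    refine poly_mul (S := {x, y}) he0 hTe (i := i) ?_
    obtain ⟨P, hP1, hP2⟩ := hF1.poly (AdnK.const (one_mem _)) R'
    refine ⟨P, fun l => AdnK.mono (by simp) (hP1 l), fun t => ?_⟩
    rw [hF2.on t _ (div_mem (hFF' hzF) (pow_mem heF' i)), hP2]
  · change ∃ P : Polynomial Ω, (∀ l, P.coeff l ∈
      Adn (adj (IntermediateField.adjoin k {x}) e) (![x, y, z, z'] '' {j : Fin 4 | j < 3})) ∧
      ∀ t, T₂ t z' = z' + P.eval (algebraMap k Ω t)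
    rw [image4_lt3]
    refine poly_mul (S := {x, y, z}) he0 hTe (i := i') ?_
    obtain ⟨P, hP1, hP2⟩ := hF2.poly (AdnK.const (one_mem _)) X
    refine ⟨P, fun l => AdnK.mono (by simp) (hP1 l), fun t => ?_⟩
    rw [← hP2, eval_X]

/-- **Case 2**: `y` is fixed, `z` moves. -/
theorem triE_two (h0 : Ctx0 k v) (hP : Pres v C x y z z' r r')
    (hS : SigD v (cadj v (cadj v C z) z') e n ζ σ)
    (hen : e ^ n ∈ IntermediateField.adjoin k {x})
    (hri : v (e ^ i) = r) (htw : TL v (adj C e) (z / e ^ i) 0)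
    (htw' : TL v (adj (cadj v C z) e) (z' / e ^ i') r₁')
    (eK : cadj v (adj (cadj v C z) e) (z' / e ^ i') = adj (cadj v (cadj v C z) z') e)
    {T : k → Ω →ₐ[k] Ω} (hT : Fam v (adj (cadj v C z) e) (Pk k) T)
    (hTC : ∀ t, ∀ a ∈ adj C e, T t a = a)
    (hTz : ∀ t, T t (z / e ^ i) = z / e ^ i + algebraMap k Ω t)
    {T₂ : k → Ω →ₐ[k] Ω} {R' hh' B' : k[X]} {V' : Polynomial Ω}
    (h2 : FamG p v (adj (cadj v (cadj v C z) z') e) T₂)
    (hF2 : Fl1 (adj (cadj v C z) e) T T₂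
      (AdnK (adj (IntermediateField.adjoin k {x}) e) {y, z}) (z' / e ^ i') r₁' R' hh' B' V')
    (hθ : θ ^ n = 1) (he2 : Eqv v n σ (adj (cadj v (cadj v C z) z') e) T₂ fun t => θ * t) :
    TriE p v (IntermediateField.adjoin k {x, y}) C (cadj v (cadj v C z) z') ![x, y, z, z'] {0, 1}
      2 1 r n e ζ θ σ T₂ := by
  have he0 := hS.gd.ne
  have hCF : C ≤ cadj v C z := le_cadj v C z
  have hFK : cadj v C z ≤ cadj v (cadj v C z) z' := le_cadj v _ z'
  have hxN : x ∈ IntermediateField.adjoin k {x, y} := IntermediateField.subset_adjoin k _ (by simp)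
  have hN : IntermediateField.adjoin k {x} ≤ IntermediateField.adjoin k {x, y} :=
    IntermediateField.adjoin.mono k _ _ (by simp)
  have hyN : y ∈ IntermediateField.adjoin k {x, y} := IntermediateField.subset_adjoin k _ (by simp)
  have hCC' : C ≤ adj C e := (D2P.mem_adj_self C e).2
  have heC' : e ∈ adj C e := (D2P.mem_adj_self C e).1
  have hFF' : cadj v C z ≤ adj (cadj v C z) e := (D2P.mem_adj_self _ e).2
  have heF' : e ∈ adj (cadj v C z) e := (D2P.mem_adj_self _ e).1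
  have hC'F' : adj C e ≤ adj (cadj v C z) e := adj_mono hCF
  have hzF : z ∈ cadj v C z := self_mem_cadj v C z
  have hwF' : z / e ^ i ∈ adj (cadj v C z) e := div_mem (hFF' hzF) (pow_mem heF' i)
  have hon : ∀ t, ∀ f ∈ adj C e, T₂ t f = f := fun t f hf => by
    rw [hF2.on t f (hC'F' hf), hTC _ f hf]
  have hTe : ∀ t, T₂ t e = e := fun t => hon t e heC'
  have hlim' : ∀ δ : ℝ, 0 < δ → ∃ j : ℕ, ∃ n ∈ C, v.Ge (p ^ j * (r - δ)) (z ^ p ^ j - n) := by
    intro δ hδ
    obtain ⟨n, hn, h3⟩ := hP.tz.lim δ hδ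
    refine ⟨0, n, hn, ?_⟩
    rw [pow_zero, one_mul, pow_zero, pow_one]
    exact h3
  have hden := den3 (C := C) (z := z) (z' := z') h0 hxN hP.x0 le_rfl hP.cC hP.xC hP.yC hP.le hP.q
  have hVF : ∀ l, V'.coeff l ∈ adj (cadj v C z) e := fun l =>
    AdnK.le (S := {y, z}) (adj_mono ((hN.trans hP.xy_le).trans hCF)) (by
      rintro a (rfl | ha)
      · exact hFF' (hCF hP.yC)
      · rw [Set.mem_singleton_iff.1 ha]
        exact hFF' hzF) _ (hF2.mem l)
  refine
    { n0 := by rw [image4_pair]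
      xv := ⟨x, hxN, hP.x0, hP.vx⟩
      le0 := hP.xy_le
      cN := hP.cC
      nle := hCF.trans hFK
      tmem := mem4 hP.xC hP.yC
      en := hN hen
      sig := hS
      th := hθ
      eqv := he2
      fam := h2.fam
      id0 := h2.id0
      ptw := h2.ptw
      null := h2.null
      con := hon
      i0 := by simp
      cmem := one_mem _
      c0 := one_ne_zero
      mv := ⟨R', i, hF2.add, hF2.ne, by rw [one_mul]; exact hri, fun t => by
        change T₂ t z = z + _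
        have h1 : T₂ t z = T₂ t (e ^ i) * T₂ t (z / e ^ i) := by
          rw [← map_mul, mul_div_cancel₀ _ (pow_ne_zero _ he0)]
        rw [h1, map_pow, hTe, hF2.on t _ hwF', hTz, mul_add,
          mul_div_cancel₀ _ (pow_ne_zero _ he0), one_mul, mul_comm (e ^ i)]⟩
      jet := ?_
      lim := hlim'
      nd := den_const (fun a ha => hP.le ha)
      den := fun a ha b => by
        rw [adn4_eq hxN]
        exact hden a ha b
      near := near_g p h0 (N := adj C e) (L := adj (cadj v C z) e)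
        (K := adj (cadj v (cadj v C z) z') e) (y := z / e ^ i) (u := z' / e ^ i')
        (c := 1) (s := 0) hC'F' htw' (by rw [eK]) hwF' (one_mem _) one_ne_zero v.map_one hT
        ⟨1, one_pos, fun t => by rw [map_one, sub_self]; exact RVal.Ge.zero⟩ hTC
        (fun t => by rw [hTz, mul_one]) h2.fam.iso (by rw [eK]; exact h2.law) hF2.add hF2.ne hF2.on
        hVF hF2.addB hF2.rad hF2.mv h2.fam.iso FAdd.X X_ne_zero (fun t f _ => by rw [eval_X])
        fun δ hδ => by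
          obtain ⟨a, ha, h3⟩ := htw.lim δ hδ
          refine ⟨0, a, ha, ?_⟩
          rw [pow_zero, one_mul, pow_zero, pow_one]
          exact h3 }
  intro j hj hj1
  fin_cases j
  · exact absurd (Or.inl rfl) hj
  · exact absurd (Or.inr rfl) hj
  · exact absurd rfl hj1
  · change ∃ P : Polynomial Ω, (∀ l, P.coeff l ∈
      Adn (adj (IntermediateField.adjoin k {x, y}) e) (![x, y, z, z'] '' {j : Fin 4 | j < 3})) ∧
      ∀ t, T₂ t z' = z' + P.eval (algebraMap k Ω t)
    rw [image4_lt3]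
    refine poly_mul (S := {x, y, z}) he0 hTe (i := i') ?_
    obtain ⟨P, hP1, hP2⟩ := hF2.poly (AdnK.const (one_mem _)) X
    refine ⟨P, fun l => AdnK.monoN (adj_mono hN) (AdnK.mono (by simp) (hP1 l)), fun t => ?_⟩
    rw [← hP2, eval_X]

end

end Pool.Agent.TWRZ
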