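import Pool.Agent.Lib.TWRZ.BaseZ

/-!
# TANK W, (Ru.Z): the constant of the strict translations may be chosen in a dense subspace

* `tl_shift`: `y + d`, `v d ≥ s`, is of transcendental type with `y`;
* `str_near`: the strict translations `y ↦ y + ζ c` for `c₁` near to `c`;
* `strz_in`: `v c` is a value of `C`: there is `c₁` in a given dense subspace of `C`.
-/

set_option autoImplicit false

open Polynomial

namespace Pool.Agent.TWRZ

open Pool.Agent.H15JM (RVal)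
open Pool.Agent.D2 (Ctx0)
open Pool.Agent.D2P (clI mem_clI)
open Pool.Agent.TWM

universe u

variable {k Ω : Type u} [Field k] [Field Ω] [Algebra k Ω] {v : RVal Ω}
  {A W C : IntermediateField k Ω} {y c c₁ d : Ω} {s : ℝ}

theorem tl_shift (hy : TL v A y s) (hd : v.Ge s d) : TL v A (y + d) s where
  lim := fun ε hε => by
    obtain ⟨a, ha, h1⟩ := hy.lim ε hε
    refine ⟨a, ha, ?_⟩
    rw [add_sub_right_comm]
    exact h1.add (hd.mono (by linarith))
  far := fun θ hθ => by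
    obtain ⟨h1, h2⟩ := hy.far θ hθ
    have h3 : Gt v (v (y - θ)) ((y - θ) - (y + d - θ)) := by
      rw [show (y - θ) - (y + d - θ) = -d by ring]
      exact Gt.neg (Gt.of_ge hd h2)
    obtain ⟨h4, h5⟩ := Gt.val_eq (sub_ne_zero.2 h1) h3
    exact ⟨sub_ne_zero.1 h4, by rw [h5]; exact h2⟩

/-- A polynomial at a point near to `y`. -/
theorem eval_near [IsAlgClosed Ω] (hy : TL v (algc W) y s) {P : Polynomial Ω} (hP : P ∈ PI W)
    (hP0 : P ≠ 0) {η : ℝ} (hη : 0 ≤ η) (hd : v.Ge (s + η) d) :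
    v.Ge (v (P.eval y) + η) (P.eval (y + d) - P.eval y) := by
  have e : P.eval (y + d) - P.eval y =
      ∑ l ∈ Finset.range P.natDegree, (taylor y P).coeff (l + 1) * d ^ (l + 1) := by
    rw [eval_eq_taylor P y (y + d), add_sub_cancel_left, eval_eq_sum_range, natDegree_taylor,
      Finset.sum_range_succ', pow_zero, mul_one, taylor_coeff_zero, add_sub_cancel_right]
  rw [e]
  refine RVal.Ge.sum _ _ fun l _ => ?_
  have h1 := hy.weak (PI_mono ((le_algc W).trans (le_algc _)) hP) hP0 (l + 1)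
  refine (h1.mul (ge_pow hd (l + 1))).mono ?_
  push_cast
  have h2 : (0 : ℝ) ≤ l := Nat.cast_nonneg l
  nlinarith

/-- **The strict translations for a near constant.** -/
theorem str_near [IsAlgClosed Ω] (h0 : Ctx0 k v) (hy : TL v (algc W) y s) (hcs : v c = s)
    (h : Gt v s (c - c₁)) {ζ : k}
    (hZ : ∃ μ : ℝ, 0 < μ ∧ ∀ P ∈ PI W,
      v.Ge (v (P.eval y) + μ) (P.eval (y + algebraMap k Ω ζ * c) - P.eval y)) :
    ∃ μ : ℝ, 0 < μ ∧ ∀ P ∈ PI W,
      v.Ge (v (P.eval y) + μ) (P.eval (y + algebraMap k Ω ζ * c₁) - P.eval y) := by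
  obtain ⟨μ, hμ, hZ⟩ := hZ
  obtain ⟨η, hη, h1⟩ : ∃ η : ℝ, 0 < η ∧ v.Ge (s + η) (c₁ - c) := by
    by_cases h2 : c - c₁ = 0
    · exact ⟨1, one_pos, by rw [← neg_sub, h2, neg_zero]; exact RVal.Ge.zero⟩
    · have h3 := h h2
      exact ⟨v (c - c₁) - s, by linarith,
        (ge_sub_comm (RVal.ge_self (v := v) (c - c₁))).mono (by linarith)⟩
  refine ⟨min μ η, lt_min hμ hη, fun P hP => ?_⟩
  by_cases hP0 : P = 0
  · rw [hP0, eval_zero, eval_zero, sub_zero]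
    exact RVal.Ge.zero
  have hζ : v.Ge s (algebraMap k Ω ζ * c) := by
    have h2 := (h0.ge ζ).mul (RVal.Ge.of_le (v := v) hcs.ge)
    rwa [zero_add] at h2
  have h2 : v.Ge (s + η) (algebraMap k Ω ζ * (c₁ - c)) := by
    have h3 := (h0.ge ζ).mul h1
    rwa [zero_add] at h3
  have h3 := eval_near (tl_shift hy hζ) hP hP0 hη.le h2
  have h4 := hZ P hP
  have hPy : P.eval y ≠ 0 := hy.eval_ne (PI_mono ((le_algc W).trans (le_algc _)) hP) hP0
  have h5 : v (P.eval (y + algebraMap k Ω ζ * c)) = v (P.eval y) :=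
    (Gt.val_eq hPy (Gt.of_ge (ge_sub_comm h4) (by linarith))).2
  rw [h5] at h3
  have e : P.eval (y + algebraMap k Ω ζ * c₁) - P.eval y =
      (P.eval (y + algebraMap k Ω ζ * c + algebraMap k Ω ζ * (c₁ - c)) -
        P.eval (y + algebraMap k Ω ζ * c)) + (P.eval (y + algebraMap k Ω ζ * c) - P.eval y) := by
    rw [show y + algebraMap k Ω ζ * c + algebraMap k Ω ζ * (c₁ - c) =
      y + algebraMap k Ω ζ * c₁ by ring]
    ring
  rw [e]
  exact (h3.mono (by linarith [min_le_right μ η])).add (h4.mono (by linarith [min_le_left μ η]))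

/-- **The constant in a dense subspace of `C`**, if `v c` is a value of `C`. -/
theorem strz_in [IsAlgClosed Ω] (h0 : Ctx0 k v) (hy : TL v (algc W) y s) (hc0 : c ≠ 0)
    (hcs : v c = s)
    (hZ : ∀ n : ℕ, ∃ Θ : Finset k, n ≤ Θ.card ∧ ∀ ζ ∈ Θ, ∃ μ : ℝ, 0 < μ ∧
      ∀ P ∈ PI W, v.Ge (v (P.eval y) + μ) (P.eval (y + algebraMap k Ω ζ * c) - P.eval y))
    {f : Ω} (hf : f ∈ C) (hf0 : f ≠ 0) (hfs : v f = s) {D : Submodule k Ω}
    (hD : ∀ a ∈ C, ∀ b : ℝ, ∃ g ∈ D, v.Ge b (a - g)) :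
    ∃ c₁ ∈ D, c₁ ≠ 0 ∧ v c₁ = s ∧ ∀ n : ℕ, ∃ Θ : Finset k, n ≤ Θ.card ∧ ∀ ζ ∈ Θ, ∃ μ : ℝ,
      0 < μ ∧ ∀ P ∈ PI W,
        v.Ge (v (P.eval y) + μ) (P.eval (y + algebraMap k Ω ζ * c₁) - P.eval y) := by
  have h1 : v (c / f) = 0 := by
    rw [div_eq_mul_inv, v.map_mul hc0 (inv_ne_zero hf0), v.map_inv hf0, hcs, hfs]
    ring
  obtain ⟨κ, -, h2⟩ := h0.res (c / f) (div_ne_zero hc0 hf0) h1
  obtain ⟨g, hg, h3⟩ := hD f hf (s + 1)
  have h4 : Gt v s (c - κ • g) := by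
    have e : c - κ • g = (c / f - algebraMap k Ω κ) * f + algebraMap k Ω κ * (f - g) := by
      rw [Algebra.smul_def]
      field_simp
      ring
    rw [e]
    refine Gt.add ?_ (Gt.of_ge ((h0.ge κ).mul h3) (by linarith))
    have h5 : Gt v 0 (c / f - algebraMap k Ω κ) := fun hne => h2 hne
    have h6 := h5.mul_ge (RVal.Ge.of_le (v := v) hfs.ge)
    rwa [zero_add] at h6
  obtain ⟨h5, h6⟩ := Gt.val_eq hc0 (by rwa [hcs])
  refine ⟨κ • g, D.smul_mem κ hg, h5, by rw [h6, hcs], fun n => ?_⟩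
  obtain ⟨Θ, h7, h8⟩ := hZ n
  exact ⟨Θ, h7, fun ζ hζ => str_near h0 hy hcs h4 (h8 ζ hζ)⟩

end Pool.Agent.TWRZ
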