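import Pool.Agent.Lib.TWMF.E1
import Pool.Agent.Lib.TWII.PropHV
import Pool.Agent.Lib.TWEX.KArc0
import Pool.Agent.Lib.TWEX.XdEff
import Pool.Agent.Lib.TWX.Ext

/-!
# TANK W, row (Ru.Z): a tame radius, descent of a homogeneous arc

`MuE`: `K' = K(c)` with a generator `s` of its Galois group, `s c = ζ c`.  A homogeneous arc `Ψ` of
`K'`, `s (Ψ l f) = θ ^ l Ψ l (s f)`, gives the arc `c_t ^ (-l) Ψ l` of `K`, `c_t = γ ^ p`,
`s c_t = θ c_t`.
-/

set_option autoImplicit false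

open Polynomial Finset IntermediateField

namespace Pool.Agent.TWRZ

open Pool.Agent.H15JM (RVal)
open Pool.Agent.LU1 (VPos adj)
open Pool.Agent.D2 (Ctx0)
open Pool.Agent.D2P (hen clI mem_clI)
open Pool.Agent.TWM
open Pool.Agent.TWEX (Adn hsd_smul)
open Pool.Agent.TWII (PG Wn)
open Pool.Agent.TWLM (HSd Oi)
open Pool.Agent.TWMF (Ptw)
open Pool.Agent.TWS (IsoE IsoL SphC)

universe u

variable {k Ω : Type u} [Field k] [Field Ω] [Algebra k Ω] {v : RVal Ω}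
  {K K' : IntermediateField k Ω} {c : Ω} {m : ℕ} {ζ : k} {s : Ω →ₐ[k] Ω}

/-- A cyclic tame extension with its automorphism. -/
structure MuE (v : RVal Ω) (K K' : IntermediateField k Ω) (c : Ω) (m : ℕ) (ζ : k)
    (s : Ω →ₐ[k] Ω) : Prop where
  triv : ∀ a : k, v.Ge 0 (algebraMap k Ω a)
  m0 : (m : k) ≠ 0
  le : K ≤ K'
  iso : IsoE v v s
  map : ∀ f ∈ K', s f ∈ K'
  per : ∀ f ∈ K', s^[m] f = f
  fix : ∀ f ∈ K, s f = f
  inv : ∀ f ∈ K', s f = f → f ∈ K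
  cK : c ∈ K'
  c0 : c ≠ 0
  sc : s c = algebraMap k Ω ζ * c
  prim : IsPrimitiveRoot ζ m

/-- The component of weight `i`. -/
noncomputable def cmp (m : ℕ) (ζ : k) (s : Ω →ₐ[k] Ω) (i : ℕ) (f : Ω) : Ω :=
  algebraMap k Ω (m : k)⁻¹ * ∑ j ∈ range m, algebraMap k Ω (ζ⁻¹ ^ (i * j)) * s^[j] f

section Cmp

theorem cmp_add (i : ℕ) (f g : Ω) : cmp m ζ s i (f + g) = cmp m ζ s i f + cmp m ζ s i g := by
  unfold cmp
  rw [← mul_add, ← sum_add_distrib]
  congr 1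
  refine sum_congr rfl fun j _ => ?_
  rw [iterate_map_add, mul_add]

theorem cmp_sub (i : ℕ) (f g : Ω) : cmp m ζ s i (f - g) = cmp m ζ s i f - cmp m ζ s i g := by
  unfold cmp
  rw [← mul_sub, ← sum_sub_distrib]
  congr 1
  refine sum_congr rfl fun j _ => ?_
  rw [iterate_map_sub, mul_sub]

theorem cmp_sum (i : ℕ) {ι : Type*} (S : Finset ι) (f : ι → Ω) :
    cmp m ζ s i (∑ a ∈ S, f a) = ∑ a ∈ S, cmp m ζ s i (f a) := by
  classical
  induction S using Finset.induction_on with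
  | empty =>
    rw [sum_empty, sum_empty]
    unfold cmp
    have : ∀ j : ℕ, s^[j] (0 : Ω) = 0 := fun j => iterate_map_zero s j
    simp [this]
  | insert a S ha ih => rw [sum_insert ha, sum_insert ha, cmp_add, ih]

variable (h : MuE v K K' c m ζ s)
include h

theorem MuE.z0 : ζ ≠ 0 := by
  intro h0
  have h1 := h.sc
  rw [h0, map_zero, zero_mul] at h1
  exact h.c0 ((map_eq_zero s).1 h1)

theorem MuE.zm : ζ⁻¹ ^ m = 1 := by
  rw [inv_pow, h.prim.pow_eq_one, inv_one]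

theorem MuE.mN : m ≠ 0 := by
  intro h0
  apply h.m0
  rw [h0, Nat.cast_zero]

theorem MuE.iter_mem (j : ℕ) {f : Ω} (hf : f ∈ K') : s^[j] f ∈ K' := by
  induction j with
  | zero => exact hf
  | succ j ih =>
    rw [Function.iterate_succ_apply']
    exact h.map _ ih

theorem MuE.iter_fix (j : ℕ) {f : Ω} (hf : f ∈ K) : s^[j] f = f := by
  induction j with
  | zero => rfl
  | succ j ih =>
    rw [Function.iterate_succ_apply', ih, h.fix f hf]

theorem MuE.iter_ge (j : ℕ) {f : Ω} {b : ℝ} (hf : v.Ge b f) : v.Ge b (s^[j] f) := by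
  induction j with
  | zero => exact hf
  | succ j ih =>
    rw [Function.iterate_succ_apply']
    exact h.iso.ge_iff.2 ih

theorem MuE.iter_gt (j : ℕ) {f : Ω} {b : ℝ} (hf : Gt v b f) : Gt v b (s^[j] f) := by
  induction j with
  | zero => exact hf
  | succ j ih =>
    rw [Function.iterate_succ_apply']
    exact h.iso.gt_iff.2 ih

theorem MuE.geo {j : ℕ} (hj : j ∈ range m) :
    ∑ i ∈ range m, ζ⁻¹ ^ (i * j) = if j = 0 then (m : k) else 0 := by
  split_ifs with h0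
  · rw [h0]
    simp
  · have h1 : ζ⁻¹ ^ j ≠ 1 := by
      intro h2
      rw [inv_pow, inv_eq_one] at h2
      exact h0 (h.prim.pow_inj (mem_range.1 hj) (Nat.pos_of_ne_zero h.mN) (by rw [h2, pow_zero]))
    have h2 := geom_sum_mul (ζ⁻¹ ^ j) m
    have h3 : (ζ⁻¹ ^ j) ^ m = 1 := by rw [← pow_mul, mul_comm, pow_mul, h.zm, one_pow]
    rw [h3, sub_self] at h2
    have h4 := (mul_eq_zero.1 h2).resolve_right (sub_ne_zero.2 h1)
    rw [← h4]
    refine sum_congr rfl fun i _ => ?_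
    rw [← pow_mul, mul_comm]

/-- The sum of the components. -/
theorem MuE.sum_cmp (f : Ω) : ∑ i ∈ range m, cmp m ζ s i f = f := by
  unfold cmp
  rw [← mul_sum, sum_comm]
  have e : ∀ j ∈ range m, ∑ i ∈ range m, algebraMap k Ω (ζ⁻¹ ^ (i * j)) * s^[j] f =
      if j = 0 then algebraMap k Ω (m : k) * f else 0 := by
    intro j hj
    rw [← sum_mul, ← map_sum, h.geo hj]
    split_ifs with h0
    · rw [h0]
      rfl
    · rw [map_zero, zero_mul]
  rw [sum_congr rfl e, sum_ite_eq' (range m) 0, if_pos (mem_range.2 (Nat.pos_of_ne_zero h.mN)),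
    ← mul_assoc, ← map_mul, inv_mul_cancel₀ h.m0, map_one, one_mul]

theorem MuE.cmp_mem (i : ℕ) {f : Ω} (hf : f ∈ K') : cmp m ζ s i f ∈ K' :=
  mul_mem (K'.algebraMap_mem _) (sum_mem fun j _ => mul_mem (K'.algebraMap_mem _)
    (h.iter_mem j hf))

theorem MuE.ge_k (a : k) {f : Ω} {b : ℝ} (hf : v.Ge b f) : v.Ge b (algebraMap k Ω a * f) :=
  ((h.triv a).mul hf).mono (by linarith)

theorem MuE.gt_k (a : k) {f : Ω} {b : ℝ} (hf : Gt v b f) : Gt v b (algebraMap k Ω a * f) := by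
  rw [mul_comm]
  exact (hf.mul_ge (h.triv a)).mono (by linarith)

theorem MuE.cmp_ge (i : ℕ) {f : Ω} {b : ℝ} (hf : v.Ge b f) : v.Ge b (cmp m ζ s i f) :=
  h.ge_k _ (RVal.Ge.sum _ _ fun j _ => h.ge_k _ (h.iter_ge j hf))

theorem MuE.cmp_gt (i : ℕ) {f : Ω} {b : ℝ} (hf : Gt v b f) : Gt v b (cmp m ζ s i f) :=
  h.gt_k _ (Gt.sum _ _ fun j _ => h.gt_k _ (h.iter_gt j hf))

/-- The weight of a component. -/
theorem MuE.s_cmp (i : ℕ) {f : Ω} (hf : f ∈ K') :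
    s (cmp m ζ s i f) = algebraMap k Ω (ζ ^ i) * cmp m ζ s i f := by
  unfold cmp
  rw [map_mul, map_sum, AlgHom.commutes, mul_left_comm]
  congr 1
  have e : ∀ j ∈ range m, s (algebraMap k Ω (ζ⁻¹ ^ (i * j)) * s^[j] f) =
      algebraMap k Ω (ζ ^ i) * (algebraMap k Ω (ζ⁻¹ ^ (i * (j + 1))) * s^[j + 1] f) := by
    intro j _
    rw [map_mul, AlgHom.commutes, ← Function.iterate_succ_apply' s j f, ← mul_assoc, ← map_mul,
      Nat.mul_succ, pow_add, mul_comm (ζ⁻¹ ^ (i * j)), ← mul_assoc, inv_pow ζ i,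
      mul_inv_cancel₀ (pow_ne_zero i h.z0), one_mul]
  rw [sum_congr rfl e, ← mul_sum]
  congr 1
  have h1 := sum_range_succ (fun j => algebraMap k Ω (ζ⁻¹ ^ (i * j)) * s^[j] f) m
  have h2 := sum_range_succ' (fun j => algebraMap k Ω (ζ⁻¹ ^ (i * j)) * s^[j] f) m
  rw [h1] at h2
  have h3 : algebraMap k Ω (ζ⁻¹ ^ (i * m)) * s^[m] f =
      algebraMap k Ω (ζ⁻¹ ^ (i * 0)) * s^[0] f := by
    rw [h.per f hf, mul_comm i m, pow_mul, h.zm, one_pow, mul_zero, pow_zero]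
    rfl
  rw [h3] at h2
  exact (add_right_cancel h2).symm

/-- A component divided by the power of `c`. -/
theorem MuE.cmp_div_mem (i : ℕ) {f : Ω} (hf : f ∈ K') : cmp m ζ s i f / c ^ i ∈ K := by
  refine h.inv _ (div_mem (h.cmp_mem i hf) (pow_mem h.cK i)) ?_
  rw [map_div₀, h.s_cmp i hf, map_pow s c i, h.sc, mul_pow, ← map_pow, mul_div_mul_left]
  exact fun h0 => pow_ne_zero i h.z0 ((map_eq_zero _).1 h0)

theorem MuE.cmp_zero_mem {f : Ω} (hf : f ∈ K') : cmp m ζ s 0 f ∈ K := by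
  have h1 := h.cmp_div_mem 0 hf
  rwa [pow_zero, div_one] at h1

/-- Multiplication by an element of `K`. -/
theorem MuE.cmp_mul (i : ℕ) {a : Ω} (ha : a ∈ K) (f : Ω) :
    cmp m ζ s i (a * f) = a * cmp m ζ s i f := by
  unfold cmp
  have e : ∀ j ∈ range m, algebraMap k Ω (ζ⁻¹ ^ (i * j)) * s^[j] (a * f) =
      a * (algebraMap k Ω (ζ⁻¹ ^ (i * j)) * s^[j] f) := by
    intro j _
    rw [iterate_map_mul, h.iter_fix j ha, mul_left_comm]
  rw [sum_congr rfl e, ← mul_sum, mul_left_comm]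

/-- The weight `0` component of an element of `K`. -/
theorem MuE.cmp_self {f : Ω} (hf : f ∈ K) : cmp m ζ s 0 f = f := by
  unfold cmp
  have e : ∀ j ∈ range m, algebraMap k Ω (ζ⁻¹ ^ (0 * j)) * s^[j] f = f := by
    intro j _
    rw [zero_mul, pow_zero, map_one, one_mul, h.iter_fix j hf]
  rw [sum_congr rfl e, sum_const, card_range, nsmul_eq_mul, ← mul_assoc,
    ← map_natCast (algebraMap k Ω) m, ← map_mul, inv_mul_cancel₀ h.m0, map_one, one_mul]

theorem MuE.iter_c (j i : ℕ) : s^[j] (c ^ i) = algebraMap k Ω (ζ ^ (i * j)) * c ^ i := by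
  induction j with
  | zero => rw [mul_zero, pow_zero, map_one, one_mul]; rfl
  | succ j ih =>
    rw [Function.iterate_succ_apply', ih, map_mul, AlgHom.commutes, map_pow s c i, h.sc, mul_pow,
      ← map_pow, ← mul_assoc, ← map_mul, Nat.mul_succ, pow_add]

/-- The weight `0` component of `c ^ i`. -/
theorem MuE.cmp_c {i : ℕ} (hi : i < m) : cmp m ζ s 0 (c ^ i) = if i = 0 then 1 else 0 := by
  split_ifs with h0
  · rw [h0, pow_zero]
    exact h.cmp_self (one_mem K)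
  · unfold cmp
    have e : ∀ j ∈ range m, algebraMap k Ω (ζ⁻¹ ^ (0 * j)) * s^[j] (c ^ i) =
        algebraMap k Ω ((ζ ^ i) ^ j) * c ^ i := by
      intro j _
      rw [zero_mul, pow_zero, map_one, one_mul, h.iter_c, pow_mul]
    rw [sum_congr rfl e, ← sum_mul, ← map_sum]
    have h1 : ζ ^ i ≠ 1 := fun h2 =>
      h0 (h.prim.pow_inj hi (Nat.pos_of_ne_zero h.mN) (by rw [h2, pow_zero]))
    have h2 := geom_sum_mul (ζ ^ i) m
    rw [← pow_mul, mul_comm i m, pow_mul, h.prim.pow_eq_one, one_pow, sub_self] at h2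
    rw [(mul_eq_zero.1 h2).resolve_right (sub_ne_zero.2 h1), map_zero, zero_mul, mul_zero]

omit h in
/-- The weight `0` component of a `p`-th power. -/
theorem cmp_pow (p : ℕ) [hp : Fact p.Prime] [CharP k p] [CharP Ω p] (g : Ω) :
    cmp m ζ s 0 (g ^ p) = cmp m ζ s 0 g ^ p := by
  unfold cmp
  have e1 : ((m : k)⁻¹) ^ p = (m : k)⁻¹ := by
    rw [inv_pow]
    congr 1
    have h1 := map_natCast (frobenius k p) m
    rwa [frobenius_def] at h1
  rw [mul_pow, ← map_pow, e1, sum_pow_char]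
  congr 1
  refine sum_congr rfl fun j _ => ?_
  rw [mul_pow, zero_mul, pow_zero, map_one, one_pow, one_mul, one_mul, iterate_map_pow]

end Cmp

/-! ### Descent of the arc -/

section Des

variable {Ψ : ℕ → Ω → Ω} {θ : k} {t : Ω}

/-- The descended arc. -/
noncomputable def dsc (t : Ω) (Ψ : ℕ → Ω → Ω) (l : ℕ) (f : Ω) : Ω := t⁻¹ ^ l * Ψ l f

theorem dsc_ge {l : ℕ} {f : Ω} {b : ℝ} (ht : t ≠ 0) (hf : v.Ge b (Ψ l f)) :
    v.Ge (b - l * v t) (dsc t Ψ l f) := by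
  have h1 : v.Ge (-(l * v t)) (t⁻¹ ^ l) := fun _ => by
    rw [v.map_pow (inv_ne_zero ht), v.map_inv ht]
    linarith
  exact (h1.mul hf).mono (by linarith)

theorem dsc_gt {l : ℕ} {f : Ω} {b : ℝ} (ht : t ≠ 0) (hf : Gt v b (Ψ l f)) :
    Gt v (b - l * v t) (dsc t Ψ l f) := by
  have h1 : v.Ge (-(l * v t)) (t⁻¹ ^ l) := fun _ => by
    rw [v.map_pow (inv_ne_zero ht), v.map_inv ht]
    linarith
  unfold dsc
  rw [mul_comm (t⁻¹ ^ l)]
  refine Gt.mono (hf.mul_ge h1) ?_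
  linarith

theorem dsc_val {l : ℕ} {f : Ω} (ht : t ≠ 0) (hf : Ψ l f ≠ 0) :
    dsc t Ψ l f ≠ 0 ∧ v (dsc t Ψ l f) = v (Ψ l f) - l * v t := by
  have h1 : t⁻¹ ^ l ≠ 0 := pow_ne_zero _ (inv_ne_zero ht)
  refine ⟨mul_ne_zero h1 hf, ?_⟩
  unfold dsc
  rw [v.map_mul h1 hf, v.map_pow (inv_ne_zero ht), v.map_inv ht]
  ring

variable (h : MuE v K K' c m ζ s) (hΨ : HSd K' Ψ)
  (hs : ∀ l : ℕ, ∀ f ∈ K', s (Ψ l f) = algebraMap k Ω (θ ^ l) * Ψ l (s f))
  (htK : t ∈ K') (ht0 : t ≠ 0) (hst : s t = algebraMap k Ω θ * t)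
include h hΨ

include hs htK ht0 hst in
theorem MuE.dsc_mem (l : ℕ) {f : Ω} (hf : f ∈ K) : dsc t Ψ l f ∈ K := by
  have hf' := h.le hf
  refine h.inv _ (mul_mem (pow_mem (inv_mem htK) l) (hΨ.mem l f hf')) ?_
  have hθ : algebraMap k Ω θ ≠ 0 := fun h0 => by
    rw [h0, zero_mul] at hst
    exact ht0 ((map_eq_zero s).1 hst)
  unfold dsc
  rw [map_mul, hs l f hf', h.fix f hf, map_pow, map_inv₀, hst, mul_inv, mul_pow, map_pow,
    mul_mul_mul_comm, ← mul_pow, inv_mul_cancel₀ hθ, one_pow, one_mul]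

include hs htK ht0 hst in
/-- **The descended arc.** -/
theorem MuE.hsd : HSd K (dsc t Ψ) where
  mem l f hf := h.dsc_mem hΨ hs htK ht0 hst l hf
  c0 f hf := by
    unfold dsc
    rw [pow_zero, one_mul, hΨ.c0 f (h.le hf)]
  add l f hf g hg := by
    unfold dsc
    rw [hΨ.add l f (h.le hf) g (h.le hg), mul_add]
  mul l f hf g hg := by
    unfold dsc
    rw [hΨ.mul l f (h.le hf) g (h.le hg), mul_sum]
    refine sum_congr rfl fun i hi => ?_
    have h1 : i.1 + i.2 = l := by simpa using hi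
    rw [← h1, pow_add]
    ring
  con l hl a := by
    unfold dsc
    rw [hΨ.con l hl a, mul_zero]

omit hΨ in
include ht0 in
theorem MuE.ptw {σ : ℝ} (hp : Ptw v K' σ Ψ) : Ptw v K (σ + v t) (dsc t Ψ) := fun l hl x hx b hb =>
  (dsc_gt ht0 (hp l hl x (h.le hx) b hb)).mono (by linarith)

omit hΨ in
include ht0 in
theorem MuE.oi {σ : ℝ} (hp : Oi v K' σ Ψ) : Oi v K (σ + v t) (dsc t Ψ) := fun f hf C => by
  obtain ⟨L, hL⟩ := hp f (h.le hf) C
  exact ⟨L, fun l hl => (dsc_ge ht0 (hL l hl)).mono (by linarith)⟩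

omit hΨ in
include ht0 in
theorem MuE.wn {σ : ℝ} (hp : Wn v K' σ Ψ) : Wn v K (σ + v t) (dsc t Ψ) := fun l f hf b hb =>
  (dsc_ge ht0 (hp l f (h.le hf) b hb)).mono (by linarith)

omit hΨ in
include hs in
theorem MuE.psi_iter (j l : ℕ) {f : Ω} (hf : f ∈ K') :
    s^[j] (Ψ l f) = algebraMap k Ω (θ ^ (l * j)) * Ψ l (s^[j] f) := by
  induction j with
  | zero => rw [mul_zero, pow_zero, map_one, one_mul]; rfl
  | succ j ih =>
    rw [Function.iterate_succ_apply', ih, map_mul, AlgHom.commutes, hs l _ (h.iter_mem j hf),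
      ← mul_assoc, ← map_mul, Function.iterate_succ_apply', Nat.mul_succ, pow_add]

omit hΨ in
include ht0 in
/-- **The null jets.** -/
theorem MuE.null (p : ℕ) [hp : Fact p.Prime] [CharP k p] [CharP Ω p] {γ : Ω} (hγ : γ ∈ K')
    (hγt : t = γ ^ p) {l : ℕ} {a : Ω} (hK : dsc t Ψ l a ∈ K) {ν : ℝ}
    (hn : PG p v K' ν (Ψ l a)) : PG p v K (ν - l * v t) (dsc t Ψ l a) := by
  obtain ⟨g, hg, h1⟩ := hn
  have hg' : γ⁻¹ ^ l * g ∈ K' := mul_mem (pow_mem (inv_mem hγ) l) hg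
  refine ⟨cmp m ζ s 0 (γ⁻¹ ^ l * g), h.cmp_zero_mem hg', ?_⟩
  have e : dsc t Ψ l a - cmp m ζ s 0 (γ⁻¹ ^ l * g) ^ p =
      cmp m ζ s 0 (dsc t (fun _ x => x) l (Ψ l a - g ^ p)) := by
    unfold dsc
    rw [mul_sub, cmp_sub]
    congr 1
    · exact (h.cmp_self hK).symm
    · rw [← cmp_pow p, mul_pow, hγt]
      congr 2
      rw [← inv_pow, ← pow_mul, ← pow_mul, mul_comm]
  rw [e]
  exact h.cmp_gt 0 (dsc_gt ht0 h1)

include hs ht0 in
/-- **The nearly constant element.** -/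
theorem MuE.near {N N' : IntermediateField k Ω} (hN : N ≤ N') (hcN : c ∈ N') (hΨc : ∀ l : ℕ,
    l ≠ 0 → Ψ l c = 0) (hθ0 : θ ≠ 0) {U : Ω} (hU : U ∈ K') {σ R μ : ℝ}
    (hj : ∀ l : ℕ, l ≠ 0 → v.Ge (R - l * σ + μ) (Ψ l U))
    (hfar : ∀ ξ : Ω, IsAlgebraic N' ξ → U ≠ ξ ∧ v (U - ξ) ≤ R) :
    ∃ U' ∈ K, ∃ R' : ℝ, (∀ l : ℕ, l ≠ 0 → v.Ge (R' - l * (σ + v t) + μ) (dsc t Ψ l U')) ∧
      ∀ ξ : Ω, IsAlgebraic N ξ → U' ≠ ξ ∧ v (U' - ξ) ≤ R' := by
  classical
  -- the jets of the components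
  have hcon : ∀ l : ℕ, l ≠ 0 → ∀ a : k, ∀ f ∈ K', Ψ l (algebraMap k Ω a * f) =
      algebraMap k Ω a * Ψ l f := fun l _ a f hf =>
    hsd_smul hΨ (K'.algebraMap_mem a) hf (fun l hl => hΨ.con l hl a) l
  have hcmp : ∀ i l : ℕ, l ≠ 0 → v.Ge (R - l * σ + μ) (Ψ l (cmp m ζ s i U)) := by
    intro i l hl
    have hm : ∀ j ∈ range m, algebraMap k Ω (ζ⁻¹ ^ (i * j)) * s^[j] U ∈ K' := fun j _ =>
      mul_mem (K'.algebraMap_mem _) (h.iter_mem j hU)
    unfold cmp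
    rw [hcon l hl _ _ (sum_mem hm), hΨ.sum l _ _ hm]
    refine h.ge_k _ (RVal.Ge.sum _ _ fun j _ => ?_)
    rw [hcon l hl _ _ (h.iter_mem j hU)]
    refine h.ge_k _ ?_
    have h1 := h.iter_ge j (hj l hl)
    rw [h.psi_iter hs j l hU] at h1
    have h2 := h.ge_k (θ ^ (l * j))⁻¹ h1
    rwa [← mul_assoc, ← map_mul, inv_mul_cancel₀ (pow_ne_zero _ hθ0), map_one, one_mul] at h2
  have hΨci : ∀ i l : ℕ, l ≠ 0 → Ψ l (c ^ i) = 0 := by
    intro i
    induction i with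
    | zero =>
      intro l hl
      rw [pow_zero]
      exact hΨ.one l hl
    | succ i ih =>
      intro l hl
      rw [pow_succ, hsd_smul hΨ (pow_mem h.cK i) h.cK ih l, hΨc l hl, mul_zero]
  have hdiv : ∀ i l : ℕ, Ψ l (cmp m ζ s i U / c ^ i) = Ψ l (cmp m ζ s i U) / c ^ i := by
    intro i l
    have h0 := pow_ne_zero i h.c0
    have hd : cmp m ζ s i U / c ^ i ∈ K' := h.le (h.cmp_div_mem i hU)
    have h1 := hsd_smul hΨ (pow_mem h.cK i) hd (hΨci i) l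
    rw [mul_div_cancel₀ _ h0] at h1
    rw [h1, mul_div_cancel_left₀ _ h0]
  by_contra hno
  have hex : ∀ i : ℕ, ∃ ξ : Ω, IsAlgebraic N ξ ∧ Gt v (R - i * v c) (cmp m ζ s i U / c ^ i - ξ) := by
    intro i
    by_contra hne
    push Not at hne
    refine hno ⟨cmp m ζ s i U / c ^ i, h.cmp_div_mem i hU, R - i * v c, fun l hl => ?_,
      fun ξ hξ => ?_⟩
    · have h1 : v.Ge (R - l * σ + μ - i * v c) (Ψ l (cmp m ζ s i U / c ^ i)) := by
        rw [hdiv]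
        intro h2
        have h3 : Ψ l (cmp m ζ s i U) ≠ 0 := fun h4 => h2 (by rw [h4, zero_div])
        rw [v.map_div h3 (pow_ne_zero i h.c0), v.map_pow h.c0]
        have := hcmp i l hl h3
        linarith
      exact (dsc_ge ht0 h1).mono (by linarith)
    · have h1 := hne ξ hξ
      unfold Gt at h1
      push Not at h1
      exact ⟨sub_ne_zero.1 h1.1, h1.2⟩
  choose ξ hξ hξ2 using hex
  have halg : IsAlgebraic N' (∑ i ∈ range m, ξ i * c ^ i) := by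
    rw [← mem_algebraicClosure_iff]
    exact sum_mem fun i _ => mul_mem (mem_algebraicClosure_iff.2 (D2P.isAlgebraic_mono hN (hξ i)))
      (pow_mem (mem_algebraicClosure_iff.2
        (isAlgebraic_algebraMap (A := Ω) (⟨c, hcN⟩ : N'))) i)
  obtain ⟨h1, h2⟩ := hfar _ halg
  have h3 : Gt v R (U - ∑ i ∈ range m, ξ i * c ^ i) := by
    have e : U - ∑ i ∈ range m, ξ i * c ^ i =
        ∑ i ∈ range m, (cmp m ζ s i U / c ^ i - ξ i) * c ^ i := by
      rw [← h.sum_cmp U, ← sum_sub_distrib]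
      refine sum_congr rfl fun i _ => ?_
      rw [h.sum_cmp U, sub_mul, div_mul_cancel₀ _ (pow_ne_zero i h.c0)]
    rw [e]
    refine Gt.sum _ _ fun i _ => ?_
    have h4 : v.Ge (i * v c) (c ^ i) := ge_pow (RVal.ge_self c) i
    exact ((hξ2 i).mul_ge h4).mono (by linarith)
  exact absurd (h3 (sub_ne_zero.2 h1)) (not_lt.2 h2)

end Des

/-! ### The jets of the coordinates -/

section Jet

variable {N₀ : IntermediateField k Ω} {S : Set Ω}

/-- The elements of `N₀(c)[S]` are polynomials in `c` over `N₀[S]`. -/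
theorem adn_poly (hc : c ^ m ∈ N₀) (hm : m ≠ 0) {x : Ω} (hx : x ∈ Adn (adj N₀ c) S) :
    ∃ P : Polynomial Ω, (∀ i, P.coeff i ∈ Adn N₀ S) ∧ x = P.eval c := by
  have hint : IsIntegral N₀ c := by
    refine IsIntegral.of_pow (Nat.pos_of_ne_zero hm) ?_
    exact isIntegral_algebraMap (A := Ω) (x := (⟨c ^ m, hc⟩ : N₀))
  have hCk : ∀ a ∈ Adn N₀ S, ∀ i, (C a : Polynomial Ω).coeff i ∈ Adn N₀ S := by
    intro a ha i
    rw [coeff_C]
    split_ifs
    · exact ha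
    · exact zero_mem _
  have hmul : ∀ P Q : Polynomial Ω, (∀ i, P.coeff i ∈ Adn N₀ S) → (∀ i, Q.coeff i ∈ Adn N₀ S) →
      ∀ i, (P * Q).coeff i ∈ Adn N₀ S := by
    intro P Q hP hQ i
    rw [coeff_mul]
    exact sum_mem fun j _ => mul_mem (hP _) (hQ _)
  have hX : ∀ i, (X : Polynomial Ω).coeff i ∈ Adn N₀ S := by
    intro i
    rw [coeff_X]
    split_ifs
    · exact one_mem _
    · exact zero_mem _
  induction hx using Algebra.adjoin_induction with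
  | mem a ha =>
    exact ⟨C a, hCk a (Algebra.subset_adjoin ha), by rw [eval_C]⟩
  | algebraMap a =>
    have h1 : (a : Ω) ∈ IntermediateField.adjoin N₀ {c} := D2P.mem_adj_iff.1 a.2
    have h2 : (a : Ω) ∈ (IntermediateField.adjoin N₀ {c}).toSubalgebra := h1
    rw [IntermediateField.adjoin_simple_toSubalgebra_of_isAlgebraic hint.isAlgebraic] at h2
    rw [Algebra.adjoin_singleton_eq_range_aeval] at h2
    obtain ⟨P, hP⟩ := h2
    refine ⟨P.map (algebraMap N₀ Ω), fun i => ?_, ?_⟩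
    · rw [coeff_map]
      exact (Adn N₀ S).algebraMap_mem _
    · change (a : Ω) = _
      rw [← hP, eval_map_algebraMap]
      rfl
  | add a b _ _ ha hb =>
    obtain ⟨P, h1, h2⟩ := ha
    obtain ⟨Q, h3, h4⟩ := hb
    refine ⟨P + Q, fun i => ?_, by rw [h2, h4, eval_add]⟩
    rw [coeff_add]
    exact add_mem (h1 i) (h3 i)
  | mul a b _ _ ha hb =>
    obtain ⟨P, h1, h2⟩ := ha
    obtain ⟨Q, h3, h4⟩ := hb
    exact ⟨P * Q, hmul P Q h1 h3, by rw [h2, h4, eval_mul]⟩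

variable (h : MuE v K K' c m ζ s)
include h

/-- The weight `0` component of `c ^ i`. -/
theorem MuE.cmp_c' (i : ℕ) : cmp m ζ s 0 (c ^ i) = if m ∣ i then c ^ i else 0 := by
  have h1 : c ^ i = (c ^ m) ^ (i / m) * c ^ (i % m) := by
    rw [← pow_mul, ← pow_add, Nat.div_add_mod]
  have hcm : c ^ m ∈ K := by
    refine h.inv _ (pow_mem h.cK m) ?_
    rw [map_pow, h.sc, mul_pow, ← map_pow, h.prim.pow_eq_one, map_one, one_mul]
  rw [h1, h.cmp_mul 0 (pow_mem hcm _), h.cmp_c (Nat.mod_lt i (Nat.pos_of_ne_zero h.mN)), ← h1]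
  split_ifs with h2 h3 h3
  · rw [h1, h2, pow_zero]
  · exact absurd (Nat.dvd_of_mod_eq_zero h2) h3
  · exact absurd (Nat.mod_eq_zero_of_dvd h3) h2
  · rw [mul_zero]

/-- **The elements of `K` in `N₀(c)[S]`**. -/
theorem MuE.adn (hc : c ^ m ∈ N₀) (hN₀ : N₀ ≤ K) (hS : S ⊆ K) {x : Ω}
    (hx : x ∈ Adn (adj N₀ c) S) (hK : x ∈ K) : x ∈ Adn N₀ S := by
  have hle : ∀ a ∈ Adn N₀ S, a ∈ K := by
    intro a ha
    induction ha using Algebra.adjoin_induction with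
    | mem a ha => exact hS ha
    | algebraMap a => exact hN₀ a.2
    | add a b _ _ ha hb => exact add_mem ha hb
    | mul a b _ _ ha hb => exact mul_mem ha hb
  obtain ⟨P, h1, h2⟩ := adn_poly hc h.mN hx
  rw [← h.cmp_self hK, h2, eval_eq_sum_range, cmp_sum]
  refine sum_mem fun i _ => ?_
  rw [h.cmp_mul 0 (hle _ (h1 i)), h.cmp_c']
  refine mul_mem (h1 i) ?_
  split_ifs with h3
  · obtain ⟨j, rfl⟩ := h3
    rw [pow_mul]
    exact pow_mem ((Adn N₀ S).algebraMap_mem (⟨c ^ m, hc⟩ : N₀)) j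
  · exact zero_mem _

/-- **The jets of a coordinate.** -/
theorem MuE.jet {Ψ : ℕ → Ω → Ω} {t : Ω} (hc : c ^ m ∈ N₀) (hN₀ : N₀ ≤ K) (hS : S ⊆ K)
    (ht : t ∈ adj N₀ c) {l : ℕ} {y : Ω} (hy : Ψ l y ∈ Adn (adj N₀ c) S)
    (hK : dsc t Ψ l y ∈ K) : dsc t Ψ l y ∈ Adn N₀ S := by
  refine h.adn hc hN₀ hS ?_ hK
  unfold dsc
  exact mul_mem (pow_mem ((Adn (adj N₀ c) S).algebraMap_mem (⟨t⁻¹, inv_mem ht⟩ : adj N₀ c)) l) hy

end Jet

end Pool.Agent.TWRZ
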