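import Pool.Agent.Lib.TWRZ.HS0
import Pool.Agent.Lib.TWII.PropHV
import Pool.Agent.Lib.TWCT.Str

/-!
# TANK W, exact arcs with many strict points: from a polynomial family to an arc

`exists_hs0`: a family of motions `T t`, `t` in `k`, with uniform polynomial expansions and
`T 0 = id`, comes from a Hasse-Schmidt derivation.
-/

set_option autoImplicit false

open Finset Polynomial

namespace Pool.Agent.TWRZ

open Pool.Agent.H15JM (RVal)
open Pool.Agent.D2 (Ctx0)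
open Pool.Agent.D2P (clI mem_clI)
open Pool.Agent.TWM
open Pool.Agent.TWLM (HSd Oi)
open Pool.Agent.TWII (Wn PG LP)
open Pool.Agent.TWMF (Ptw)
open Pool.Agent.TWS (IsoE)
open Pool.Agent.TWCT (StrM)

universe u

variable {k Ω : Type u} [Field k] [Field Ω] [Algebra k Ω] {v : RVal Ω}
  {L : IntermediateField k Ω} {T : k → (Ω →ₐ[k] Ω)}

/-- `T t f` is approximated by polynomials in `t` with coefficients in `L`. -/
def PolT (v : RVal Ω) (L : IntermediateField k Ω) (T : k → (Ω →ₐ[k] Ω)) : Prop :=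
  ∀ f ∈ L, ∀ B : ℝ, ∃ (N : ℕ) (q : ℕ → Ω), (∀ l, q l ∈ L) ∧
    ∀ t : k, v.Ge B (T t f - ∑ l ∈ range N, algebraMap k Ω t ^ l * q l)

/-- **The arc of a family of motions.** -/
theorem exists_hs0 [Infinite k] (h0 : Ctx0 k v) (hc : CompleteV v) (hL : Cld v L)
    (hT : PolT v L T) (hT0 : ∀ f ∈ L, T 0 f = f) :
    ∃ Φ : ℕ → Ω → Ω, HSd L Φ ∧ ∀ f ∈ L, Xp v (fun t => T t f) fun l => Φ l f := by
  classical
  have h1 : ∀ f : Ω, ∃ a : ℕ → Ω, f ∈ L → (∀ l, a l ∈ L) ∧ Xp v (fun t => T t f) a := by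
    intro f
    by_cases hf : f ∈ L
    · obtain ⟨a, ha, h2⟩ := exists_xp h0 hc hL (hT f hf)
      exact ⟨a, fun _ => ⟨ha, h2⟩⟩
    · exact ⟨0, fun h => absurd h hf⟩
  choose a ha using h1
  have hX : ∀ f ∈ L, Xp v (fun t => T t f) (a f) := fun f hf => (ha f hf).2
  refine ⟨fun l f => a f l, ⟨fun l f hf => (ha f hf).1 l, fun f hf => ?_, fun l f hf g hg => ?_,
    fun l f hf g hg => ?_, fun l hl c => ?_⟩, hX⟩
  · have := (hX f hf).zero_eq
    show a f 0 = f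
    rw [← this]
    exact hT0 f hf
  · have h2 := (hX f hf).add (hX g hg)
    have h3 := hX (f + g) (add_mem hf hg)
    simp only [map_add] at h3
    exact congrFun (h3.unique h0 h2) l
  · have h2 := (hX f hf).mul h0 (hX g hg)
    have h3 := hX (f * g) (mul_mem hf hg)
    simp only [map_mul] at h3
    exact congrFun (h3.unique h0 h2) l
  · have h2 := hX (algebraMap k Ω c) (L.algebraMap_mem c)
    simp only [AlgHom.commutes] at h2
    have h3 := congrFun (h2.unique h0 (Xp.const (algebraMap k Ω c))) l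
    show a (algebraMap k Ω c) l = 0
    rw [h3]
    exact if_neg hl

variable {Φ : ℕ → Ω → Ω}

/-- The expansion without the constant term. -/
theorem Xp.sub_id {g : k → Ω} {a : ℕ → Ω} (h : Xp v g a) {f : Ω} (h0 : a 0 = f) :
    Xp v (fun t => g t - f) fun l => if l = 0 then 0 else a l := by
  have h1 := h.sub (Xp.const f)
  have e : (fun l => a l - if l = 0 then f else 0) = fun l => if l = 0 then 0 else a l := by
    funext l
    split_ifs with hl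
    · rw [hl, h0, sub_self]
    · rw [sub_zero]
  rwa [e] at h1

/-- **The jets of an element whose motion is in a submodule.** -/
theorem jets_mem (hΦ : HSd L Φ) {f : Ω} (hf : f ∈ L) (hX : Xp v (fun t => T t f) fun l => Φ l f)
    (W : Submodule k Ω) {B : ℝ} (hW : ∀ x : Ω, v.Ge B x → x ∈ W) {Θ : Set k} (hΘ : Θ.Infinite)
    (hg : ∀ t ∈ Θ, T t f - f ∈ W) (l : ℕ) (hl : l ≠ 0) : Φ l f ∈ W := by
  have h1 := (hX.sub_id (hΦ.c0 f hf)).mem W hW hΘ hg l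
  simpa only [if_neg hl] using h1

theorem hs_wn [Infinite k] (h0 : Ctx0 k v) (hX : ∀ f ∈ L, Xp v (fun t => T t f) fun l => Φ l f)
    (hiso : ∀ t, IsoE v v (T t)) : Wn v L 0 Φ := by
  intro l f hf b hb
  rw [mul_zero, sub_zero]
  exact (hX f hf).coef_ge h0 (fun t => (hiso t).ge_iff.2 hb) l

theorem hs_oi (hX : ∀ f ∈ L, Xp v (fun t => T t f) fun l => Φ l f) : Oi v L 0 Φ := by
  intro f hf C
  obtain ⟨N, hN⟩ := (hX f hf).tail C
  exact ⟨N, fun l hl => (hN l hl).mono (by simp)⟩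

theorem gt_of_ge_val {b : ℝ} {x y : Ω} (hb : v.Ge b y) (h : Gt v (v y) x) (hy : y ≠ 0) :
    Gt v b x := fun hx => lt_of_le_of_lt (hb hy) (h hx)

/-- Pointwise strict motions give pointwise strict jets. -/
theorem hs_ptw (h0 : Ctx0 k v) (hΦ : HSd L Φ)
    (hX : ∀ f ∈ L, Xp v (fun t => T t f) fun l => Φ l f) {Θ : Set k} (hΘ : Θ.Infinite)
    (h : ∀ t ∈ Θ, ∀ f ∈ L, f ≠ 0 → Gt v (v f) (T t f - f)) : Ptw v L 0 Φ := by
  intro l hl f hf b hb
  rw [mul_zero, sub_zero]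
  by_cases hf0 : f = 0
  · rw [hf0, hΦ.zero l]
    exact Gt.zero
  · refine gt_of_ge_val hb ?_ hf0
    exact jets_mem hΦ hf (hX f hf) (TWD.gts h0 (v f)) (B := v f + 1)
      (fun x hx => Gt.of_ge hx (by linarith)) hΘ (fun t ht => h t ht f hf hf0) l hl

/-- Motions without effect give null jets. -/
theorem hs_null {p : ℕ} [hp : Fact p.Prime] [CharP Ω p] [CharP k p] [PerfectRing k p]
    (h0 : Ctx0 k v) (hΦ : HSd L Φ) {a : Ω} (ha : a ∈ L)
    (hX : Xp v (fun t => T t a) fun l => Φ l a) {ν : ℝ} {Θ : Set k} (hΘ : Θ.Infinite)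
    (h : ∀ t ∈ Θ, PG p v L ν (T t a - a)) (l : ℕ) (hl : l ≠ 0) : PG p v L ν (Φ l a) := by
  refine jets_mem hΦ ha hX (TWD.pgs p h0 L ν) (B := ν + 1) (fun x hx => ?_) hΘ h l hl
  refine ⟨0, L.zero_mem, ?_⟩
  rw [zero_pow hp.out.ne_zero, sub_zero]
  exact Gt.of_ge hx (by linarith)

/-- A uniform bound for the jets of high index of the points near `w`. -/
theorem fsh_of_nr (hΦ : HSd L Φ) (hwn : Wn v L 0 Φ) (hoi : Oi v L 0 Φ) {ρ : ℝ} {w : Ω}
    (hw : TWM.Lim v L ρ w) {N : ℕ}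
    (hN : ∀ l : ℕ, N < l → ∀ ε : ℝ, 0 < ε → TWII.Nr v L ρ w fun θ => v.Ge (ρ - l * 0 - ε) (Φ l θ))
    {ε : ℝ} (hε : 0 < ε) : ∃ δ : ℝ, 0 < δ ∧ δ ≤ ε ∧ ∀ θ ∈ L, v.Ge (ρ - δ) (w - θ) →
      ∀ l : ℕ, N < l → v.Ge (ρ - ε) (Φ l θ) := by
  obtain ⟨θ₀, hθ₀, h1⟩ := hw ε hε
  obtain ⟨M, hM⟩ := hoi θ₀ hθ₀ ρ
  obtain ⟨δ, hδ, h2⟩ := TWII.Nr.all (v := v) (F := L) (ρ := ρ) (u := w) (range M)
    (P := fun l θ => N < l → v.Ge (ρ - l * 0 - ε) (Φ l θ)) fun l _ => by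
      by_cases hl : N < l
      · exact (hN l hl ε hε).mono fun θ _ h _ => h
      · exact TWII.Nr.of_forall fun θ _ h => absurd h hl
  refine ⟨min δ ε, lt_min hδ hε, min_le_right _ _, fun θ hθ h3 l hl => ?_⟩
  rcases lt_or_ge l M with h4 | h4
  · have h5 := h2 θ hθ (h3.mono (by linarith [min_le_left δ ε])) l (mem_range.2 h4) hl
    rwa [mul_zero, sub_zero] at h5
  · have e : Φ l θ = Φ l θ₀ - Φ l (θ₀ - θ) := by
      rw [hΦ.sub l hθ₀ hθ]
      ring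
    rw [e]
    refine ((hM l h4).mono (by simp; linarith)).sub ?_
    have h5 : v.Ge (ρ - ε) (θ₀ - θ) := by
      have e1 : θ₀ - θ = (w - θ) - (w - θ₀) := by ring
      rw [e1]
      exact (h3.mono (by linarith [min_le_right δ ε])).sub h1
    have h6 := hwn l _ (sub_mem hθ₀ hθ) _ h5
    rwa [mul_zero, sub_zero] at h6

/-- **Finite shape, uniform form**: `T t θ - θ` is a polynomial of degree `≤ N` in `t`, up to
`ρ - ε`. -/
theorem fsh_motion (h0 : Ctx0 k v) (hΦ : HSd L Φ)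
    (hX : ∀ f ∈ L, Xp v (fun t => T t f) fun l => Φ l f) {ρ ε : ℝ} {N : ℕ} {θ : Ω} (hθ : θ ∈ L)
    (h : ∀ l : ℕ, N < l → v.Ge (ρ - ε) (Φ l θ)) (t : k) :
    v.Ge (ρ - ε) (T t θ - θ - ∑ l ∈ range N, algebraMap k Ω t ^ (l + 1) * Φ (l + 1) θ) := by
  obtain ⟨M, hM⟩ := hX θ hθ (ρ - ε)
  have h1 : v.Ge (ρ - ε) (T t θ - ∑ l ∈ range (max M (N + 1)), algebraMap k Ω t ^ l * Φ l θ) :=
    hM (max M (N + 1)) (le_max_left _ _) t
  obtain ⟨M', hM'⟩ : ∃ M', max M (N + 1) = N + 1 + M' := ⟨max M (N + 1) - (N + 1), by omega⟩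
  rw [hM', sum_range_add, sum_range_succ', pow_zero, one_mul, hΦ.c0 θ hθ] at h1
  have e : T t θ - θ - ∑ l ∈ range N, algebraMap k Ω t ^ (l + 1) * Φ (l + 1) θ =
      (T t θ - ((∑ l ∈ range N, algebraMap k Ω t ^ (l + 1) * Φ (l + 1) θ + θ) +
        ∑ x ∈ range M', algebraMap k Ω t ^ (N + 1 + x) * Φ (N + 1 + x) θ)) +
        ∑ x ∈ range M', algebraMap k Ω t ^ (N + 1 + x) * Φ (N + 1 + x) θ := by ring
  rw [e]
  exact h1.add (RVal.Ge.sum _ _ fun l _ => ge_tpow h0 t _ (h _ (by omega)))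

end Pool.Agent.TWRZ
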