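import Pool.Agent.Lib.TWRZ.GF
import Pool.Agent.Lib.TWRZ.HS
import Pool.Agent.Lib.TWII.Hit

/-!
# TANK W, (Ru.Z): the arc of a one parameter family, finite shape of a floor which is hit

* `exists_out`: a family of motions over `k`, polynomial, pointwise strict, is an arc; motions
  without effect give null jets;
* `fin_shape_x`: `fin_shape` for exact arcs which are null on the critical elements;
* `GF1.fsh`: finite shape along a one parameter group, if some critical element is hit.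
-/

set_option autoImplicit false

open Polynomial

namespace Pool.Agent.TWRZ

open Pool.Agent.H15JM (RVal)
open Pool.Agent.D2 (Ctx0)
open Pool.Agent.D2P (clI mem_clI)
open Pool.Agent.TWM
open Pool.Agent.TWS (IsoE SphC)
open Pool.Agent.TWCT (StrM)
open Pool.Agent.TWII (PG LP Wn)
open Pool.Agent.TWLM (HSd Oi)
open Pool.Agent.TWMF (Ptw)

universe u

variable {k Ω : Type u} [Field k] [Field Ω] [Algebra k Ω] {v : RVal Ω}
  {L : IntermediateField k Ω} {T : k → (Ω →ₐ[k] Ω)}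

theorem P0.coef {g : k → Ω} (h : P0 L (Pk k) g) : ∃ (N : ℕ) (q : ℕ → Ω), (∀ l, q l ∈ L) ∧
    (∀ l, N ≤ l → q l = 0) ∧ ∀ t, g t = ∑ l ∈ Finset.range N, algebraMap k Ω t ^ l * q l := by
  obtain ⟨U, hU, h1⟩ := h.exists_poly
  refine ⟨U.natDegree + 1, fun l => U.coeff l, hU, fun l hl =>
    coeff_eq_zero_of_natDegree_lt (by omega), fun t => ?_⟩
  rw [h1, eval_eq_sum_range]
  exact Finset.sum_congr rfl fun l _ => mul_comm _ _

theorem Fam.polT (hF : Fam v L (Pk k) T) : PolT v L T := by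
  intro f hf B
  obtain ⟨g, hg, h1⟩ := hF.pol f hf B
  obtain ⟨N, q, hq, _, h2⟩ := hg.coef
  exact ⟨N, q, hq, fun t => by rw [← h2 t]; exact h1 t⟩

/-- The expansion of a polynomial. -/
theorem xp_poly {g : k → Ω} {U : Polynomial Ω} (h : ∀ t, g t = U.eval (algebraMap k Ω t)) :
    Xp v g fun l => U.coeff l := by
  intro B
  refine ⟨U.natDegree + 1, fun M hM t => ?_⟩
  have e : ∑ l ∈ Finset.range M, algebraMap k Ω t ^ l * U.coeff l = g t := by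
    rw [h t, eval_eq_sum_range' (n := M) (by omega)]
    exact Finset.sum_congr rfl fun l _ => mul_comm _ _
  rw [e, sub_self]
  exact RVal.Ge.zero

/-- The jets of an element whose motion is a polynomial. -/
theorem jets_poly [Infinite k] (h0 : Ctx0 k v) {Ψ : ℕ → Ω → Ω} {f : Ω}
    (hX : Xp v (fun t => T t f) fun l => Ψ l f) {U : Polynomial Ω}
    (h : ∀ t, T t f = U.eval (algebraMap k Ω t)) (l : ℕ) : Ψ l f = U.coeff l :=
  congrFun (hX.unique h0 (xp_poly h)) l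

/-- **The final output**: the arc of a family with pointwise strict motions. -/
theorem exists_out (p : ℕ) [hp : Fact p.Prime] [CharP Ω p] [CharP k p] [PerfectRing k p]
    [Infinite k] (h0 : Ctx0 k v) (hc : CompleteV v) (hL : Cld v L) (hF : Fam v L (Pk k) T)
    (h1 : ∀ f ∈ L, T 0 f = f)
    (h2 : ∀ t, ∀ f ∈ L, ∀ b : ℝ, v.Ge b f → Gt v b (T t f - f)) :
    ∃ Ψ : ℕ → Ω → Ω, HSd L Ψ ∧ Ptw v L 0 Ψ ∧ Oi v L 0 Ψ ∧ Wn v L 0 Ψ ∧
      (∀ f ∈ L, Xp v (fun t => T t f) fun l => Ψ l f) ∧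
      ∀ a ∈ L, ∀ ν : ℝ, (∀ t, PG p v L ν (T t a - a)) → ∀ l : ℕ, l ≠ 0 → PG p v L ν (Ψ l a) := by
  obtain ⟨Φ, hΦ, hX⟩ := exists_hs0 h0 hc hL hF.polT h1
  refine ⟨Φ, hΦ, hs_ptw h0 hΦ hX Set.infinite_univ fun t _ f hf _ => h2 t f hf _ (RVal.ge_self _),
    hs_oi hX, hs_wn h0 hX hF.iso, hX, fun a ha ν h3 l hl =>
    hs_null h0 hΦ ha (hX a ha) Set.infinite_univ (fun t _ => h3 t) l hl⟩

section Hit

variable {F : IntermediateField k Ω} {σ : ℝ} {Φ : ℕ → Ω → Ω}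

/-- **A floor which is hit has finite shape along an exact arc which is null on the critical
elements.** -/
theorem fin_shape_x (p : ℕ) [hp : Fact p.Prime] [CharP Ω p] [IsAlgClosed Ω] (hΦ : HSd F Φ)
    (hn : Wn v F σ Φ) (hst : Ptw v F σ Φ) (ho : Oi v F σ Φ)
    (hnull : ∀ A ∈ F, ∀ τ : ℝ, LP p v F τ A → ∀ n : ℕ, n ≠ 0 → PG p v F (τ - n * σ) (Φ n A))
    {y : Ω} {ρ ν : ℝ} {f : Polynomial Ω} (hy : TL v F y ρ) (hf : f ∈ PI F)
    (hlim : LP p v (cadj v F y) ν (f.eval y))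
    (hhit : ∃ l : ℕ, p ∣ l ∧ l ≠ 0 ∧
      ¬ PG p v (cadj v F y) (ν - l * ρ) ((taylor y f).coeff l)) :
    ∃ N : ℕ, ∀ l : ℕ, N < l → ∀ ε : ℝ, 0 < ε →
      TWII.Nr v F ρ y fun θ => v.Ge (ρ - l * σ - ε) (Φ l θ) := by
  obtain ⟨m, s, e, a₀, A, -, he, ha₀, hA, hge, hA0, hs, -, hB⟩ := TWII.soc p hy hf hlim hhit
  have hs' : ¬ PG p v F (ν - m * ρ - (p ^ (s + 1) : ℕ) * ρ) (A s) := fun h =>
    hs (h.of_le (le_cadj v F y))
  exact TWII.propHS p hΦ hn ho hy.lim s he ha₀ A (fun i _ => hA i) hge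
    (fun i _ => hA0 i) (fun n hn => hst n hn e he _ hge)
    (fun i _ n hn => hnull (A i) (hA i) _ (hA0 i) n hn) hs' hB

end Hit

/-- A one parameter group is null on the critical elements. -/
theorem GF1.null {p : ℕ} [hp : Fact p.Prime] [CharP Ω p] [CharP k p] [PerfectRing k p]
    (h0 : Ctx0 k v) (h : GF1 v L T) (t : k) {A : Ω} (hA : A ∈ L) {ν : ℝ} (hl : LP p v L ν A) :
    PG p v L ν (T t A - A) := h.fam.null h0 (h.dense t) hA hl

theorem GF1.ptw (h0 : Ctx0 k v) (h : GF1 v L T) (t : k) {f : Ω} (hf : f ∈ L) {b : ℝ}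
    (hb : v.Ge b f) : Gt v b (T t f - f) := h.fam.ptw h0 (h.dense t) hf hb

/-- **Finite shape of a floor which is hit**, for a family over `k` all of whose motions are
pointwise strict and have no effect on the critical elements. -/
theorem fsh_of_hit (p : ℕ) [hp : Fact p.Prime] [CharP Ω p] [CharP k p] [PerfectRing k p]
    [IsAlgClosed Ω] [Infinite k] (h0 : Ctx0 k v) (hc : CompleteV v) (hL : Cld v L)
    (hF : Fam v L (Pk k) T) (h1 : ∀ f ∈ L, T 0 f = f)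
    (h2 : ∀ t, ∀ f ∈ L, ∀ b : ℝ, v.Ge b f → Gt v b (T t f - f))
    (h3 : ∀ t, ∀ A ∈ L, ∀ τ : ℝ, LP p v L τ A → PG p v L τ (T t A - A))
    {y : Ω} {ρ ν : ℝ} {f : Polynomial Ω} (hy : TL v L y ρ) (hf : f ∈ PI L)
    (hlim : LP p v (cadj v L y) ν (f.eval y))
    (hhit : ∃ l : ℕ, p ∣ l ∧ l ≠ 0 ∧
      ¬ PG p v (cadj v L y) (ν - l * ρ) ((taylor y f).coeff l)) :
    FSh v L (Pk k) T y ρ := by
  obtain ⟨Φ, hΦ, hst, ho, hn, hX, hpg⟩ := exists_out p h0 hc hL hF h1 h2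
  obtain ⟨N, hN⟩ := fin_shape_x p hΦ hn hst ho (fun A hA τ hl n hn0 => by
    rw [mul_zero, sub_zero]
    exact hpg A hA τ (fun t => h3 t A hA τ hl) n hn0) hy hf hlim hhit
  refine ⟨Fin N, inferInstance, fun i t => t ^ ((i : ℕ) + 1), fun i =>
    pow_mem id_mem_Pk ((i : ℕ) + 1), fun ε hε => ?_⟩
  obtain ⟨δ, hδ, _, h4⟩ := fsh_of_nr hΦ hn ho hy.lim hN hε
  refine ⟨δ, hδ, fun θ hθ h5 => ⟨fun i => Φ ((i : ℕ) + 1) θ, fun i => hΦ.mem _ θ hθ, fun t => ?_⟩⟩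
  have h6 := fsh_motion h0 hΦ hX hθ (h4 θ hθ h5) t
  have e : ∑ i : Fin N, algebraMap k Ω (t ^ ((i : ℕ) + 1)) * Φ ((i : ℕ) + 1) θ =
      ∑ l ∈ Finset.range N, algebraMap k Ω t ^ (l + 1) * Φ (l + 1) θ := by
    rw [← Fin.sum_univ_eq_sum_range (fun l => algebraMap k Ω t ^ (l + 1) * Φ (l + 1) θ)]
    exact Finset.sum_congr rfl fun i _ => by rw [map_pow]
  rw [e]
  exact h6

/-- Finite shape along a one parameter group. -/
theorem GF1.fsh (p : ℕ) [hp : Fact p.Prime] [CharP Ω p] [CharP k p] [PerfectRing k p]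
    [IsAlgClosed Ω] [Infinite k] (h0 : Ctx0 k v) (hc : CompleteV v) (hL : Cld v L)
    (h : GF1 v L T) {y : Ω} {ρ ν : ℝ} {f : Polynomial Ω} (hy : TL v L y ρ) (hf : f ∈ PI L)
    (hlim : LP p v (cadj v L y) ν (f.eval y))
    (hhit : ∃ l : ℕ, p ∣ l ∧ l ≠ 0 ∧
      ¬ PG p v (cadj v L y) (ν - l * ρ) ((taylor y f).coeff l)) :
    FSh v L (Pk k) T y ρ :=
  fsh_of_hit p h0 hc hL h.fam h.id0 (fun t _ hf _ hb => h.ptw h0 t hf hb)
    (fun t _ hA _ hl => h.null h0 t hA hl) hy hf hlim hhit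

/-- Finite shape along the two axes of a two parameter group. -/
theorem GF2.fsh_ax (p : ℕ) [hp : Fact p.Prime] [CharP Ω p] [CharP k p] [PerfectRing k p]
    [IsAlgClosed Ω] [Infinite k] (h0 : Ctx0 k v) (hc : CompleteV v) (hL : Cld v L)
    {T₂ : k × k → Ω →ₐ[k] Ω} {δ : k → k → k}
    (h : GF2 v L T₂ δ) {y : Ω} {ρ ν : ℝ} {f : Polynomial Ω} (hy : TL v L y ρ) (hf : f ∈ PI L)
    (hlim : LP p v (cadj v L y) ν (f.eval y))
    (hhit : ∃ l : ℕ, p ∣ l ∧ l ≠ 0 ∧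
      ¬ PG p v (cadj v L y) (ν - l * ρ) ((taylor y f).coeff l)) :
    FSh v L (Pk k) (fun s => T₂ (s, 0)) y ρ ∧ FSh v L (Pk k) (fun c => T₂ (0, c)) y ρ :=
  ⟨fsh_of_hit p h0 hc hL h.fam1 (fun f hf => h.id0 f hf)
    (fun t _ hf _ hb => h.fam.ptw h0 (h.dense (t, 0)) hf hb)
    (fun t _ hA _ hl => h.fam.null h0 (h.dense (t, 0)) hA hl) hy hf hlim hhit,
  fsh_of_hit p h0 hc hL h.fam2 (fun f hf => h.id0 f hf)
    (fun t _ hf _ hb => h.fam.ptw h0 (h.dense (0, t)) hf hb)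
    (fun t _ hA _ hl => h.fam.null h0 (h.dense (0, t)) hA hl) hy hf hlim hhit⟩

end Pool.Agent.TWRZ
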