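import Pool.Agent.Lib.TWRZ.ExitY
import Pool.Agent.Lib.TWRZ.FTri
import Pool.Agent.Lib.TWRZ.Out
import Pool.Agent.Lib.TWRZ.NearG
import Pool.Agent.Lib.TWRZ.Den
import Pool.Agent.Lib.TWEX.PullI
import Pool.Agent.Lib.TWEX.Wi4

/-!
# TANK W, row (Ru.Z), the exit, 2: a triangular family of motions

* `FTri.fjet`: the jets of `f` at `y`, from the pointwise strictness of the motions;
* `FTri.ytri`: the arc of a triangular family;
* `motE_of_ftri`: a triangular family without effect at `ι a` gives motions of small effect.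
-/

set_option autoImplicit false

open Polynomial Finset

namespace Pool.Agent.TWRZ

open Pool.Agent.H15JM (RVal)
open Pool.Agent.D2 (Ctx0)
open Pool.Agent.D2P (hen clI mem_clI)
open Pool.Agent.TWM
open Pool.Agent.TWEX
open Pool.Agent.TWII (PG LP Wn)
open Pool.Agent.TWLM (HSd Oi Arc)
open Pool.Agent.TWMF (Ptw motE_of_xb)
open Pool.Agent.TWS (IsoE)
open Pool.Agent.TWS7 (MotE)
open Pool.Agent.TW (Ctx BD Mot kr)
open TWRL (FAdd Addv)

universe u

variable {k Ω : Type u} [Field k] [Field Ω] [Algebra k Ω] {v : RVal Ω}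

/-- The value of a polynomial with fixed coefficients. -/
theorem map_eval_fix {N : IntermediateField k Ω} {φ : Ω →ₐ[k] Ω} (hφ : ∀ a ∈ N, φ a = a)
    {f : Polynomial Ω} (hf : f ∈ PI N) (y : Ω) : φ (f.eval y) = f.eval (φ y) := by
  rw [eval_eq_sum_range, eval_eq_sum_range, map_sum]
  exact sum_congr rfl fun i _ => by rw [map_mul, map_pow, hφ _ (hf i)]

section ftri

variable {p : ℕ} {N₀ N K : IntermediateField k Ω} {m : ℕ} {T : Fin m → Ω} {J : Set (Fin m)}
  {i₀ : Fin m} {c : Ω} {s : ℝ} {A : k → Ω →ₐ[k] Ω}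

/-- The jets at `y` of the polynomial of `c`. -/
theorem FTri.fjet [IsAlgClosed k] [Fact p.Prime] [CharP k p] (h0 : Ctx0 k v)
    (h : FTri p v N₀ N K T J i₀ c s A) {f : Polynomial Ω} (hf : f ∈ PI N₀)
    (hfc : f.eval (T i₀) = c) :
    ∃ μ : ℝ, 0 < μ ∧ ∀ l : ℕ, l ≠ 0 → v.Ge (s - l * s + μ) ((hasseDeriv l f).eval (T i₀)) := by
  classical
  have : Infinite k := IsAlgClosed.instInfinite
  obtain ⟨α, hα, hα0, hmv⟩ := h.mv
  have hcK : c ∈ K := by
    rw [← hfc, eval_eq_sum_range]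
    exact sum_mem fun i _ => mul_mem (h.nle (h.le0 (hf i))) (pow_mem (h.tmem i₀) i)
  have hfN : f ∈ PI N := fun i => h.le0 (hf i)
  -- the motions of `c`
  have h1 : ∀ τ : k, Gt v s (∑ l ∈ range (f.natDegree + 1), algebraMap k Ω τ ^ l *
      (if l = 0 then 0 else (hasseDeriv l f).eval (T i₀) * c ^ l)) := by
    intro τ
    obtain ⟨t, ht⟩ := TWRL.FAdd.surj hα hα0 τ
    have h2 := h.ptw t c hcK s (by rw [← h.cv]; exact RVal.ge_self _)
    have e1 : A t c = f.eval (T i₀ + algebraMap k Ω τ * c) := by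
      nth_rw 1 [← hfc]
      rw [map_eval_fix (h.con t) hfN, hmv, ht]
    have e2 : f.eval (T i₀ + algebraMap k Ω τ * c) = ∑ l ∈ range (f.natDegree + 1),
        (hasseDeriv l f).eval (T i₀) * (algebraMap k Ω τ * c) ^ l := by
      have h3 : f.eval (T i₀ + algebraMap k Ω τ * c) =
          (taylor (T i₀) f).eval (algebraMap k Ω τ * c) := by
        rw [taylor_eval]
        congr 1
        ring
      rw [h3, eval_eq_sum_range' (n := f.natDegree + 1) (by
        rw [natDegree_taylor]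
        exact Nat.lt_succ_self _)]
      exact sum_congr rfl fun l _ => by rw [taylor_coeff]
    have e3 : ∑ l ∈ range (f.natDegree + 1), algebraMap k Ω τ ^ l *
        (if l = 0 then 0 else (hasseDeriv l f).eval (T i₀) * c ^ l) = A t c - c := by
      rw [e1, e2, sum_range_succ', sum_range_succ', if_pos rfl, mul_zero, add_zero,
        hasseDeriv_zero', pow_zero, mul_one, hfc, add_sub_cancel_right]
      refine sum_congr rfl fun l _ => ?_
      rw [if_neg (Nat.succ_ne_zero l), mul_pow]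
      ring
    rw [e3]
    exact h2
  have h2 : ∀ l : Fin (f.natDegree + 1), Gt v s
      (if (l : ℕ) = 0 then 0 else (hasseDeriv (l : ℕ) f).eval (T i₀) * c ^ (l : ℕ)) := by
    intro l
    exact coef_mem (Lw.gtS h0 s) (A := fun l => if l = 0 then 0 else
      (hasseDeriv l f).eval (T i₀) * c ^ l) Set.infinite_univ (fun τ _ => h1 τ) l l.2
  obtain ⟨η, hη, h3⟩ := Lw.exists_margin_fin h2
  refine ⟨η, hη, fun l hl => ?_⟩
  by_cases hl' : l < f.natDegree + 1
  · have h4 := h3 ⟨l, hl'⟩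
    simp only [if_neg hl] at h4
    intro hne
    have h5 := h4 (mul_ne_zero hne (pow_ne_zero l h.c0))
    rw [v.map_mul hne (pow_ne_zero l h.c0), v.map_pow h.c0, h.cv] at h5
    linarith
  · have h4 : hasseDeriv l f = 0 := hasseDeriv_eq_zero_of_lt_natDegree f l (by omega)
    rw [h4, eval_zero]
    exact RVal.Ge.zero

/-- **The arc of a triangular family.** -/
theorem FTri.ytri [IsAlgClosed k] [hp : Fact p.Prime] [CharP k p] [CharP Ω p]
    (h0 : Ctx0 k v) (hc : CompleteV v) (hK : Cld v K)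
    (h : FTri p v N₀ N K T J i₀ c s A) :
    ∃ (α : ℕ → Ω) (Ψ : ℕ → Ω → Ω), YTri p v N₀ N K T J i₀ c s 0 α Ψ ∧
      Oi v K 0 Ψ ∧ ∀ a ∈ K, ∀ ν : ℝ, (∀ t, PG p v K ν (A t a - a)) → ∀ l : ℕ, l ≠ 0 →
        PG p v K ν (Ψ l a) := by
  classical
  have : Infinite k := IsAlgClosed.instInfinite
  have : PerfectRing k p := inferInstance
  obtain ⟨f, hf, hfc⟩ := exists_PI_of_adn h.cmem
  obtain ⟨α, hα, hα0, hmv⟩ := h.mv
  obtain ⟨Ψ, hΨ, hst, hoi, -, hX, hpg⟩ := exists_out p h0 hc hK h.fam h.id0 h.ptw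
  have hcK : c ∈ K := by
    rw [← hfc, eval_eq_sum_range]
    exact sum_mem fun i _ => mul_mem (h.nle (h.le0 (hf i))) (pow_mem (h.tmem i₀) i)
  -- jets of polynomial motions
  have hpol : ∀ x ∈ K, ∀ P : Polynomial Ω, (∀ t, A t x = x + P.eval (algebraMap k Ω t)) →
      ∀ l : ℕ, l ≠ 0 → Ψ l x = P.coeff l := by
    intro x hx P hP l hl
    rw [jets_poly h0 (hX x hx) (U := C x + P) (fun t => by rw [hP, eval_add, eval_C]) l,
      coeff_add, coeff_C, if_neg hl, zero_add]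
  obtain ⟨P, hP⟩ : ∃ P : Fin m → Polynomial Ω, ∀ i, i ∉ J → i ≠ i₀ →
      (∀ l, (P i).coeff l ∈ Adn N₀ (T '' {j | j < i})) ∧
      ∀ t, A t (T i) = T i + (P i).eval (algebraMap k Ω t) := by
    have h1 : ∀ i, ∃ P : Polynomial Ω, i ∉ J → i ≠ i₀ →
        (∀ l, P.coeff l ∈ Adn N₀ (T '' {j | j < i})) ∧
        ∀ t, A t (T i) = T i + P.eval (algebraMap k Ω t) := by
      intro i
      by_cases hi : i ∉ J ∧ i ≠ i₀
      · obtain ⟨P, hP⟩ := h.jet i hi.1 hi.2
        exact ⟨P, fun _ _ => hP⟩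
      · exact ⟨0, fun h2 h3 => absurd ⟨h2, h3⟩ hi⟩
    choose P hP using h1
    exact ⟨P, hP⟩
  have hfix : ∀ i ∈ J, T i ∈ N := by
    intro i hi
    refine h.le0 ?_
    rw [h.n0]
    exact IntermediateField.subset_adjoin k _ ⟨i, hi, rfl⟩
  have hcon : ∀ a ∈ N, ∀ l : ℕ, l ≠ 0 → Ψ l a = 0 := by
    intro a ha l hl
    rw [hpol a (h.nle ha) 0 (fun t => by rw [h.con t a ha, eval_zero, add_zero]) l hl, coeff_zero]
  have hjet0 : ∀ l : ℕ, l ≠ 0 → Ψ l (T i₀) = algebraMap k Ω (α.coeff l) * c := by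
    intro l hl
    rw [hpol _ (h.tmem i₀) (α.map (algebraMap k Ω) * C c) (fun t => by
      rw [hmv, eval_mul, eval_C, eval_map, eval₂_at_apply]) l hl, coeff_mul_C, coeff_map]
  obtain ⟨μ, hμ, hfj⟩ := h.fjet h0 hf hfc
  refine ⟨fun l => algebraMap k Ω (α.coeff l), Ψ,
    { n0 := h.n0
      xv := h.xv
      le0 := h.le0
      cN := h.cN
      nle := h.nle
      tmem := h.tmem
      hsd := hΨ
      ptw := hst
      con := hcon
      cj := ⟨f, hf, hfc, fun j hj => by
        rw [taylor_coeff, h.cv]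
        exact Gt.of_ge (hfj j hj) (by linarith)⟩
      c0 := h.c0
      am := fun l => N₀.algebraMap_mem _
      mv := hjet0
      jet := fun i hi hi' l hl => by
        rw [hpol _ (h.tmem i) (P i) (hP i hi hi').2 l hl]
        exact (hP i hi hi').1 l
      fin := ?_
      cx := ?_
      lim := h.lim
      nd := h.nd
      den := h.den
      near := ?_ }, hoi, hpg⟩
  · refine ⟨α.natDegree + ∑ i, (P i).natDegree, fun i l hl => ?_⟩
    have hl0 : l ≠ 0 := by omega
    by_cases hi : i ∈ J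
    · exact hcon _ (hfix i hi) l hl0
    · by_cases hi' : i = i₀
      · rw [hi', hjet0 l hl0, coeff_eq_zero_of_natDegree_lt (by omega), map_zero, zero_mul]
      · rw [hpol _ (h.tmem i) (P i) (hP i hi hi').2 l hl0]
        refine coeff_eq_zero_of_natDegree_lt ?_
        have h1 : (P i).natDegree ≤ ∑ i, (P i).natDegree :=
          Finset.single_le_sum (f := fun i => (P i).natDegree) (fun _ _ => Nat.zero_le _)
            (Finset.mem_univ i)
        omega
  · obtain ⟨t, ht⟩ : ∃ t : ℕ, α.coeff (p ^ t) ≠ 0 := by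
      have h1 := hα.addv p
      by_contra hno
      push Not at hno
      refine hα0 (Polynomial.ext fun n => ?_)
      rw [coeff_zero]
      by_contra h2
      obtain ⟨j, rfl⟩ := h1 n h2
      exact h2 (hno j)
    have h1 : algebraMap k Ω (α.coeff (p ^ t)) ≠ 0 := (_root_.map_ne_zero _).2 ht
    refine ⟨t, ?_, ?_⟩
    · rw [hjet0 _ (pow_pos hp.out.pos t).ne']
      exact mul_ne_zero h1 h.c0
    · rw [hjet0 _ (pow_pos hp.out.pos t).ne', v.map_mul h1 h.c0, h0.triv _ ht, h.cv, zero_add,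
        mul_zero, sub_zero]
  · obtain ⟨U, hU, R, μ, hμ, h1, h2⟩ := h.near
    exact ⟨U, hU, R, μ, hμ, fun l hl => by
      rw [mul_zero, sub_zero]
      exact jets_ge h0 (hX U hU) h1 hl, h2⟩

end ftri

section exit

variable {Ω' : Type u} [Field Ω'] [Algebra k Ω'] {w : RVal Ω'} {ι : Ω →ₐ[k] Ω'}

/-- **The exit of a triangular family of motions.** -/
theorem motE_of_ftri [IsAlgClosed k] [IsAlgClosed Ω] [IsAlgClosed Ω'] (p : ℕ)
    [hp : Fact p.Prime] [CharP k p] [CharP Ω p] {r : ℕ} (h : Ctx k v r) (h0 : Ctx0 k w)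
    (hcw : CompleteV w) (hd : IsoE v w ι) {K₀ : IntermediateField k Ω} (hK : K₀.FG)
    (hΩ : ∀ g : Ω, IsAlgebraic K₀ g) {m : ℕ} (htr : Algebra.trdeg k K₀ = m) (hBD : BD p v K₀)
    {N₀ N : IntermediateField k Ω'} {T : Fin m → Ω'} {J : Set (Fin m)} {i₀ : Fin m} {c : Ω'}
    {s ν : ℝ} {A : k → Ω' →ₐ[k] Ω'} (hF : FTri p w N₀ N (clI w (K₀.map ι)) T J i₀ c s A)
    (hcl : clI w (K₀.map ι) = clI w (kr k T)) {a : Ω} (ha : a ∈ K₀)
    (hnull : ∀ t, PG p w (clI w (K₀.map ι)) ν (A t (ι a) - ι a)) : MotE p v K₀ ν a := by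
  have : CharP Ω' p := charP_of_injective_algebraMap (algebraMap k Ω').injective p
  obtain ⟨α, Ψ, hY, hoi, hpg⟩ := hF.ytri h0 hcw (cld_clI w _)
  refine motE_of_ytri p h h0 hcw hd hK hΩ htr hBD hY hoi hcl ha fun l hl => ?_
  rw [mul_zero, sub_zero]
  exact hpg _ (le_clI _ ⟨a, ha, rfl⟩) ν hnull l hl

end exit

end Pool.Agent.TWRZ
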