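import Pool.Agent.Lib.TWRZ.ResE
import Pool.Agent.Lib.TWRZ.ExitF

/-!
# TANK W, (Ru.Z), tame case: from a family over `K(e)` to an arc of `K`

* `adn_cmp`: the weight zero component of an element of `N₀(e)[S]` is in `N₀[S]`;
* `TriE.ytri`: the descended arc is triangular.
-/

set_option autoImplicit false

open Polynomial

namespace Pool.Agent.TWRZ

open Pool.Agent.H15JM (RVal)
open Pool.Agent.LU1 (VPos adj)
open Pool.Agent.D2 (Ctx0)
open Pool.Agent.D2P (clI mem_clI)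
open Pool.Agent.TWM
open Pool.Agent.TWS
open Pool.Agent.TWC (GD exists_sum)
open Pool.Agent.TWEX (Adn)
open Pool.Agent.TWII (PG LP Wn)
open Pool.Agent.TWLM (HSd Oi)
open Pool.Agent.TWMF (Ptw)
open TWRL (FAdd)

universe u

variable {k Ω : Type u} [Field k] [Field Ω] [Algebra k Ω] {v : RVal Ω}
  {K L N₀ : IntermediateField k Ω} {e : Ω} {n : ℕ} {ζ : k} {σ : Ω →ₐ[k] Ω} {S : Set Ω}

/-- The weight zero component of a power of `e`. -/
theorem cmp_pow_mem {K' : IntermediateField k Ω} (h : MuE v K K' e n ζ σ) (he : e ^ n ∈ N₀)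
    (heK : e ^ n ∈ K) (i : ℕ) : cmp n ζ σ 0 (e ^ i) ∈ N₀ := by
  have hn : 0 < n := Nat.pos_of_ne_zero h.mN
  have e1 : e ^ i = (e ^ n) ^ (i / n) * e ^ (i % n) := by
    rw [← pow_mul, ← pow_add, Nat.div_add_mod]
  rw [e1, h.cmp_mul 0 (pow_mem heK _), h.cmp_c (Nat.mod_lt i hn)]
  refine mul_mem (pow_mem he _) ?_
  split_ifs
  exacts [one_mem _, zero_mem _]

/-- The elements of `N₀(e)[S]` are polynomials in `e`. -/
theorem exists_poly_adn (hn : 0 < n) (he : e ^ n ∈ N₀) {g : Ω} (hg : g ∈ Adn (adj N₀ e) S) :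
    ∃ P : Polynomial Ω, (∀ i, P.coeff i ∈ AdnK N₀ S) ∧ P.eval e = g := by
  classical
  induction hg using Algebra.adjoin_induction with
  | mem a ha =>
    refine ⟨C a, fun i => ?_, eval_C⟩
    rw [coeff_C]
    split_ifs
    exacts [AdnK.gen ha, zero_mem _]
  | algebraMap a =>
    obtain ⟨f, hf, h2⟩ := exists_sum hn he a.2
    refine ⟨∑ j ∈ Finset.range n, C (f j) * X ^ j, fun i => ?_, ?_⟩
    · rw [finsetSum_coeff]
      refine sum_mem fun j _ => ?_
      rw [coeff_C_mul_X_pow]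
      split_ifs
      exacts [AdnK.const (hf j), zero_mem _]
    · rw [eval_finsetSum]
      simp only [eval_mul, eval_C, eval_pow, eval_X]
      exact h2.symm
  | add a b _ _ ha hb =>
    obtain ⟨P, hP, rfl⟩ := ha
    obtain ⟨Q, hQ, rfl⟩ := hb
    exact ⟨P + Q, fun i => by rw [coeff_add]; exact add_mem (hP i) (hQ i), eval_add⟩
  | mul a b _ _ ha hb =>
    obtain ⟨P, hP, rfl⟩ := ha
    obtain ⟨Q, hQ, rfl⟩ := hb
    refine ⟨P * Q, fun i => ?_, eval_mul⟩
    rw [coeff_mul]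
    exact sum_mem fun j _ => AdnK.mul (hP _) (hQ _)

/-- **The weight zero component of an element of `N₀(e)[S]`.** -/
theorem adn_cmp {K' : IntermediateField k Ω} (h : MuE v K K' e n ζ σ) (he : e ^ n ∈ N₀)
    (hN₀ : N₀ ≤ K) (hS : ∀ x ∈ S, x ∈ K) {g : Ω} (hg : g ∈ Adn (adj N₀ e) S) :
    cmp n ζ σ 0 g ∈ Adn N₀ S := by
  classical
  obtain ⟨P, hP, rfl⟩ := exists_poly_adn (Nat.pos_of_ne_zero h.mN) he hg
  rw [eval_eq_sum_range, cmp_sum]
  refine sum_mem fun i _ => ?_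
  rw [h.cmp_mul 0 (AdnK.le hN₀ hS _ (hP i))]
  exact AdnK.mul (hP i) (AdnK.const (cmp_pow_mem h he (hN₀ he) i))

section Tri

variable {p : ℕ} {N : IntermediateField k Ω} {m : ℕ} {T : Fin m → Ω} {J : Set (Fin m)}
  {i₀ : Fin m} {c : Ω} {s : ℝ} {θ : k} {A : k → Ω →ₐ[k] Ω}

/-- The jets at `y` of the polynomial of `c`. -/
theorem TriE.fjet [IsAlgClosed k] [Fact p.Prime] [CharP k p] (h0 : Ctx0 k v)
    (h : TriE p v N₀ N K T J i₀ c s n e ζ θ σ A) {f : Polynomial Ω} (hf : f ∈ PI N₀)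
    (hfc : f.eval (T i₀) = c) :
    ∀ l : ℕ, l ≠ 0 → Gt v (v c - l * s) ((hasseDeriv l f).eval (T i₀)) := by
  classical
  have : Infinite k := IsAlgClosed.instInfinite
  obtain ⟨α, j, hα, hα0, hs, hmv⟩ := h.mv
  obtain ⟨d, hd⟩ : ∃ d, d = c * e ^ j := ⟨_, rfl⟩
  rw [← hd] at hs hmv
  have hd0 : d ≠ 0 := by
    rw [hd]
    exact mul_ne_zero h.c0 (pow_ne_zero j h.sig.gd.ne)
  have hKK' : K ≤ adj K e := (D2P.mem_adj_self K e).2
  have hcK : c ∈ K := by
    rw [← hfc, eval_eq_sum_range]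
    exact sum_mem fun i _ => mul_mem (h.nle (h.le0 (hf i))) (pow_mem (h.tmem i₀) i)
  have hfN : f ∈ PI (adj N e) := fun i => (D2P.mem_adj_self N e).2 (h.le0 (hf i))
  -- the motions of `c`
  have h1 : ∀ τ : k, Gt v (v c) (∑ l ∈ Finset.range (f.natDegree + 1), algebraMap k Ω τ ^ l *
      (if l = 0 then 0 else (hasseDeriv l f).eval (T i₀) * d ^ l)) := by
    intro τ
    obtain ⟨t, ht⟩ := TWRL.FAdd.surj hα hα0 τ
    have h2 := h.ptw t c (hKK' hcK) (v c) (RVal.ge_self _)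
    have e1 : A t c = f.eval (T i₀ + algebraMap k Ω τ * d) := by
      nth_rw 1 [← hfc]
      rw [map_eval_fix (h.con t) hfN, hmv, ht]
    have e2 : f.eval (T i₀ + algebraMap k Ω τ * d) = ∑ l ∈ Finset.range (f.natDegree + 1),
        (hasseDeriv l f).eval (T i₀) * (algebraMap k Ω τ * d) ^ l := by
      have h3 : f.eval (T i₀ + algebraMap k Ω τ * d) =
          (taylor (T i₀) f).eval (algebraMap k Ω τ * d) := by
        rw [taylor_eval]
        congr 1
        ring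
      rw [h3, eval_eq_sum_range' (n := f.natDegree + 1) (by
        rw [natDegree_taylor]
        exact Nat.lt_succ_self _)]
      exact Finset.sum_congr rfl fun l _ => by rw [taylor_coeff]
    have e3 : ∑ l ∈ Finset.range (f.natDegree + 1), algebraMap k Ω τ ^ l *
        (if l = 0 then 0 else (hasseDeriv l f).eval (T i₀) * d ^ l) = A t c - c := by
      rw [e1, e2, Finset.sum_range_succ', Finset.sum_range_succ', if_pos rfl, mul_zero, add_zero,
        hasseDeriv_zero', pow_zero, mul_one, hfc, add_sub_cancel_right]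
      refine Finset.sum_congr rfl fun l _ => ?_
      rw [if_neg (Nat.succ_ne_zero l), mul_pow]
      ring
    rw [e3]
    exact h2
  intro l hl
  by_cases hl' : l < f.natDegree + 1
  · have h4 : Gt v (v c) (if l = 0 then 0 else (hasseDeriv l f).eval (T i₀) * d ^ l) :=
      coef_mem (Lw.gtS h0 (v c)) (A := fun l => if l = 0 then 0 else
        (hasseDeriv l f).eval (T i₀) * d ^ l) Set.infinite_univ (fun τ _ => h1 τ) l hl'
    rw [if_neg hl] at h4
    intro hne
    have h5 := h4 (mul_ne_zero hne (pow_ne_zero l hd0))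
    rw [v.map_mul hne (pow_ne_zero l hd0), v.map_pow hd0, hs] at h5
    linarith
  · have h4 : hasseDeriv l f = 0 := hasseDeriv_eq_zero_of_lt_natDegree f l (by omega)
    rw [h4, eval_zero]
    exact Gt.zero

/-- **The descended arc.** -/
theorem TriE.ytri [IsAlgClosed k] [hp : Fact p.Prime] [CharP k p] [CharP Ω p] (h0 : Ctx0 k v)
    (hc : CompleteV v) (h : TriE p v N₀ N K T J i₀ c s n e ζ θ σ A) :
    ∃ (sg : ℝ) (a : ℕ → Ω) (Ψ : ℕ → Ω → Ω), YTri p v N₀ N K T J i₀ c s sg a Ψ ∧ Oi v K sg Ψ ∧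
      ∀ x ∈ K, ∀ ν : ℝ, LP p v K ν x → ∀ l : ℕ, l ≠ 0 → PG p v K (ν - l * sg) (Ψ l x) := by
  classical
  have : Infinite k := IsAlgClosed.instInfinite
  have : PerfectRing k p := inferInstance
  have hS := h.sig
  have hG := hS.gd
  have hK' : Cld v (adj K e) := TWRZ.GD.cld_adj hc hG
  have hKK' : K ≤ adj K e := (D2P.mem_adj_self K e).2
  have heK' : e ∈ adj K e := (D2P.mem_adj_self K e).1
  have hmu := hS.mue h0
  have hN₀K : N₀ ≤ K := h.le0.trans h.nle
  have hNN' : N ≤ adj N e := (D2P.mem_adj_self N e).2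
  obtain ⟨f, hf, hfc⟩ := exists_PI_of_adn h.cmem
  obtain ⟨α, j, hα, hα0, hds, hmv⟩ := h.mv
  have hcK : c ∈ K := by
    rw [← hfc, eval_eq_sum_range]
    exact sum_mem fun i _ => mul_mem (hN₀K (hf i)) (pow_mem (h.tmem i₀) i)
  obtain ⟨Φ, hΦ, hst, hoi, hwn, hX, hpg⟩ := exists_out p h0 hc hK' h.fam h.id0 h.ptw
  have hs : ∀ l : ℕ, ∀ f ∈ adj K e, σ (Φ l f) = algebraMap k Ω (θ ^ l) * Φ l (σ f) :=
    fun l f hf => eqv_jets h0 h.eqv hX l hf
  obtain ⟨j₁, hj₁⟩ := hS.exists_wt p h.th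
  obtain ⟨t, ht⟩ : ∃ t, t = e ^ (p * j₁) := ⟨_, rfl⟩
  have htK : t ∈ adj K e := by
    rw [ht]
    exact pow_mem heK' _
  have ht0 : t ≠ 0 := by
    rw [ht]
    exact pow_ne_zero _ hG.ne
  have hst' : σ t = algebraMap k Ω θ * t := by rw [ht, hS.s_pow, hj₁]
  have hγt : t = (e ^ j₁) ^ p := by rw [ht, mul_comm, pow_mul]
  have hd := hmu.hsd hΦ hs htK ht0 hst'
  have hoi' : Oi v K (v t) (dsc t Φ) := by
    have h1 := hmu.oi ht0 hoi
    rwa [zero_add] at h1
  have hpt : Ptw v K (v t) (dsc t Φ) := by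
    have h1 := hmu.ptw ht0 hst
    rwa [zero_add] at h1
  -- jets of polynomial motions
  have hpol : ∀ x ∈ adj K e, ∀ P : Polynomial Ω, (∀ t, A t x = x + P.eval (algebraMap k Ω t)) →
      ∀ l : ℕ, l ≠ 0 → Φ l x = P.coeff l := by
    intro x hx P hP l hl
    rw [jets_poly h0 (hX x hx) (U := C x + P) (fun t => by rw [hP, eval_add, eval_C]) l,
      coeff_add, coeff_C, if_neg hl, zero_add]
  have hcon' : ∀ x ∈ adj K e, (∀ t, A t x = x) → ∀ l : ℕ, l ≠ 0 → Φ l x = 0 := by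
    intro x hx hx' l hl
    rw [hpol x hx 0 (fun t => by rw [hx', eval_zero, add_zero]) l hl, coeff_zero]
  have hcon : ∀ x ∈ N, ∀ l : ℕ, l ≠ 0 → dsc t Φ l x = 0 := by
    intro x hx l hl
    unfold dsc
    rw [hcon' x (hKK' (h.nle hx)) (fun s => h.con s x (hNN' hx)) l hl, mul_zero]
  have hjet0 : ∀ l : ℕ, l ≠ 0 → Φ l (T i₀) = algebraMap k Ω (α.coeff l) * (c * e ^ j) := by
    intro l hl
    rw [hpol _ (hKK' (h.tmem i₀)) (α.map (algebraMap k Ω) * C (c * e ^ j)) (fun t => by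
      rw [hmv, eval_mul, eval_C, eval_map, eval₂_at_apply]) l hl, coeff_mul_C, coeff_map]
  have hα00 : α.coeff 0 = 0 := by rw [coeff_zero_eq_eval_zero, hα.eval_zero]
  obtain ⟨a, ha⟩ : ∃ a : ℕ → Ω, a = fun l => t⁻¹ ^ l * (algebraMap k Ω (α.coeff l) * e ^ j) :=
    ⟨_, rfl⟩
  have hmv' : ∀ l : ℕ, l ≠ 0 → dsc t Φ l (T i₀) = a l * c := by
    intro l hl
    unfold dsc
    rw [hjet0 l hl, ha]
    ring
  have ham : ∀ l, a l ∈ N₀ := by
    intro l
    by_cases hl : α.coeff l = 0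
    · have e1 : a l = 0 := by rw [ha]; simp only [hl, map_zero, zero_mul, mul_zero]
      rw [e1]
      exact zero_mem _
    · have hl0 : l ≠ 0 := fun h1 => hl (by rw [h1, hα00])
      have hα' : algebraMap k Ω (α.coeff l) ≠ 0 := (_root_.map_ne_zero _).2 hl
      have e1 : a l = algebraMap k Ω (α.coeff l) * e ^ ((j : ℤ) - (p * j₁ * l : ℕ)) := by
        rw [ha, zpow_sub₀ hG.ne, zpow_natCast, zpow_natCast, ht]
        simp only
        rw [inv_pow, ← pow_mul, div_eq_mul_inv]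
        ring
      have hz0 : e ^ ((j : ℤ) - (p * j₁ * l : ℕ)) ≠ 0 := zpow_ne_zero _ hG.ne
      have h2 : a l ∈ K := by
        have h3 := hd.mem l _ (h.tmem i₀)
        rw [hmv' l hl0] at h3
        have h4 := div_mem h3 hcK
        rwa [mul_div_cancel_right₀ _ h.c0] at h4
      have h3 : e ^ ((j : ℤ) - (p * j₁ * l : ℕ)) ∈ K := by
        rw [e1] at h2
        have h4 := div_mem h2 (K.algebraMap_mem (α.coeff l))
        rwa [mul_div_cancel_left₀ _ hα'] at h4
      obtain ⟨q, hq⟩ := hG.val ((j : ℤ) - (p * j₁ * l : ℕ)) (by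
        have h4 := VG.self (v := v) h3 hz0
        rw [v.map_zpow hG.ne] at h4
        exact h4)
      rw [e1, hq, zpow_mul, zpow_natCast]
      exact mul_mem (N₀.algebraMap_mem _) (zpow_mem h.en _)
  obtain ⟨P, hP⟩ : ∃ P : Fin m → Polynomial Ω, ∀ i, i ∉ J → i ≠ i₀ →
      (∀ l, (P i).coeff l ∈ Adn (adj N₀ e) (T '' {j | j < i})) ∧
      ∀ t, A t (T i) = T i + (P i).eval (algebraMap k Ω t) := by
    have h1 : ∀ i, ∃ P : Polynomial Ω, i ∉ J → i ≠ i₀ →
        (∀ l, P.coeff l ∈ Adn (adj N₀ e) (T '' {j | j < i})) ∧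
        ∀ t, A t (T i) = T i + P.eval (algebraMap k Ω t) := by
      intro i
      by_cases hi : i ∉ J ∧ i ≠ i₀
      · obtain ⟨P, hP⟩ := h.jet i hi.1 hi.2
        exact ⟨P, fun _ _ => hP⟩
      · exact ⟨0, fun h2 h3 => absurd ⟨h2, h3⟩ hi⟩
    choose P hP using h1
    exact ⟨P, hP⟩
  have hfix : ∀ i ∈ J, T i ∈ N := by
    intro i hi
    refine h.le0 ?_
    rw [h.n0]
    exact IntermediateField.subset_adjoin k _ ⟨i, hi, rfl⟩
  refine ⟨v t, a, dsc t Φ,
    { n0 := h.n0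
      xv := h.xv
      le0 := h.le0
      cN := h.cN
      nle := h.nle
      tmem := h.tmem
      hsd := hd
      ptw := hpt
      con := hcon
      cj := ⟨f, hf, hfc, fun j hj => by
        rw [taylor_coeff]
        exact h.fjet h0 hf hfc j hj⟩
      c0 := h.c0
      am := ham
      mv := hmv'
      jet := fun i hi hi' l hl => ?_
      fin := ?_
      cx := ?_
      lim := h.lim
      nd := h.nd
      den := h.den
      near := ?_ }, hoi', fun x hx ν hl l hl0 => ?_⟩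
  · -- the other coordinates
    have h1 := hd.mem l _ (h.tmem i)
    rw [← hmu.cmp_self h1]
    refine adn_cmp hmu h.en hN₀K ?_ ?_
    · rintro _ ⟨i', -, rfl⟩
      exact h.tmem i'
    · unfold dsc
      rw [hpol _ (hKK' (h.tmem i)) (P i) (hP i hi hi').2 l hl]
      refine mul_mem ?_ ((hP i hi hi').1 l)
      have h2 : t⁻¹ ^ l ∈ adj N₀ e := by
        rw [ht]
        exact pow_mem (inv_mem (pow_mem (D2P.mem_adj_self N₀ e).1 _)) l
      exact AdnK.const h2
  · refine ⟨α.natDegree + ∑ i, (P i).natDegree, fun i l hl => ?_⟩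
    have hl0 : l ≠ 0 := by omega
    by_cases hi : i ∈ J
    · exact hcon _ (hfix i hi) l hl0
    · unfold dsc
      by_cases hi' : i = i₀
      · rw [hi', hjet0 l hl0, coeff_eq_zero_of_natDegree_lt (by omega), map_zero, zero_mul,
          mul_zero]
      · rw [hpol _ (hKK' (h.tmem i)) (P i) (hP i hi hi').2 l hl0]
        rw [coeff_eq_zero_of_natDegree_lt, mul_zero]
        have h1 : (P i).natDegree ≤ ∑ i, (P i).natDegree :=
          Finset.single_le_sum (f := fun i => (P i).natDegree) (fun _ _ => Nat.zero_le _)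
            (Finset.mem_univ i)
        omega
  · obtain ⟨r, hr⟩ : ∃ r : ℕ, α.coeff (p ^ r) ≠ 0 := by
      have h1 := hα.addv p
      by_contra hno
      push Not at hno
      refine hα0 (Polynomial.ext fun n => ?_)
      rw [coeff_zero]
      by_contra h2
      obtain ⟨j, rfl⟩ := h1 n h2
      exact h2 (hno j)
    have h1 : algebraMap k Ω (α.coeff (p ^ r)) ≠ 0 := (_root_.map_ne_zero _).2 hr
    have hce : c * e ^ j ≠ 0 := mul_ne_zero h.c0 (pow_ne_zero j hG.ne)
    have h2 : Φ (p ^ r) (T i₀) ≠ 0 := by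
      rw [hjet0 _ (pow_pos hp.out.pos r).ne']
      exact mul_ne_zero h1 hce
    obtain ⟨h3, h4⟩ := dsc_val (v := v) ht0 h2
    refine ⟨r, h3, ?_⟩
    rw [h4, hjet0 _ (pow_pos hp.out.pos r).ne', v.map_mul h1 hce, h0.triv _ hr, hds, zero_add]
    push_cast
    ring
  · obtain ⟨U, hU, R, μ, hμ, h1, h2⟩ := h.near
    have hθ0 : θ ≠ 0 := by
      rintro rfl
      have h3 := h.th
      rw [zero_pow hG.pos.ne'] at h3
      exact zero_ne_one h3
    obtain ⟨U', hU', R', h3, h4⟩ := hmu.near hΦ hs ht0 hNN' (D2P.mem_adj_self N e).1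
      (fun l hl => hcon' e heK' (fun s => h.con s e (D2P.mem_adj_self N e).1) l hl) hθ0 hU
      (σ := 0) (R := R) (μ := μ) (fun l hl => by
        rw [mul_zero, sub_zero]
        exact jets_ge h0 (hX U hU) h1 hl) h2
    exact ⟨U', hU', R', μ, hμ, fun l hl => by
      have h5 := h3 l hl
      rwa [zero_add] at h5, h4⟩
  · refine hmu.null ht0 p (pow_mem heK' j₁) hγt (hd.mem l x hx) ?_
    refine hpg x (hKK' hx) ν (fun s => h.null s x (hKK' hx) ν ?_) l hl0
    intro ε hε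
    obtain ⟨g, hg, h1⟩ := hl ε hε
    exact ⟨g, hKK' hg, h1⟩

end Tri

end Pool.Agent.TWRZ
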