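import Pool.Agent.Lib.TWRZ.Step1
import Pool.Agent.Lib.TWRL.Eqv

/-!
# TANK W, (Ru.Z): equivariant families

`σ` an isometry of order `n` on `L`, `n` prime to `p`; `Eqv v n σ L T τ`: `σ (T x f) = T (τ x) (σ f)`.
* `Eqv.ss`: the strict points are stable;
* `Eqv.exists_av`: the motion `V` of `w`, `σ w = χ w`, can be chosen equivariant;
* `Eqv.lift`: the lift is equivariant;
* `step1E`, `step0E`: the step from one parameter.
-/

set_option autoImplicit false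

open Polynomial

namespace Pool.Agent.TWRZ

open Pool.Agent.H15JM (RVal)
open Pool.Agent.LU1 (VPos adj)
open Pool.Agent.D2 (Ctx0)
open Pool.Agent.D2P (hen clI mem_clI)
open Pool.Agent.TWM
open Pool.Agent.TWS
open Pool.Agent.TWCT (StrM map_cadj_le eq_on_cadj)
open TWRL (ev2 Bi G1 FAdd)

universe u

variable {k Ω : Type u} [Field k] [Field Ω] [Algebra k Ω] {v : RVal Ω} {X Y : Type*}
  {L : IntermediateField k Ω} {R : Subalgebra k (X → k)} {T : X → Ω →ₐ[k] Ω} {w : Ω} {ρ : ℝ}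
  {V : X → Ω} {n : ℕ} {σ : Ω →ₐ[k] Ω} {τ : X → X}

/-- **An equivariant family.** -/
structure Eqv (v : RVal Ω) (n : ℕ) (σ : Ω →ₐ[k] Ω) (L : IntermediateField k Ω)
    (T : X → Ω →ₐ[k] Ω) (τ : X → X) : Prop where
  iso : IsoE v v σ
  mem : ∀ f ∈ L, σ f ∈ L
  ord : ∀ f ∈ L, (σ ^ n) f = f
  eqv : ∀ x, ∀ f ∈ L, σ (T x f) = T (τ x) (σ f)

theorem isoE_pow (h : IsoE v v σ) (i : ℕ) : IsoE v v (σ ^ i) := by
  induction i with
  | zero =>
    rw [pow_zero]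
    exact isoE_id
  | succ i ih =>
    rw [pow_succ]
    exact isoE_comp ih h

theorem pow_mem_of {S : Set Ω} {σ : Ω →ₐ[k] Ω} (h : ∀ f ∈ S, σ f ∈ S) (i : ℕ) :
    ∀ f ∈ S, (σ ^ i) f ∈ S := by
  induction i with
  | zero => exact fun f hf => hf
  | succ i ih =>
    intro f hf
    rw [pow_succ]
    exact ih _ (h f hf)

section Inv

theorem Eqv.inv_left (h : Eqv v n σ L T τ) (hn : 0 < n) {f : Ω} (hf : f ∈ L) :
    (σ ^ (n - 1)) (σ f) = f := by
  have h1 := h.ord f hf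
  obtain ⟨m, rfl⟩ : ∃ m, n = m + 1 := ⟨n - 1, by omega⟩
  rw [pow_succ] at h1
  exact h1

theorem Eqv.inv_right (h : Eqv v n σ L T τ) (hn : 0 < n) {f : Ω} (hf : f ∈ L) :
    σ ((σ ^ (n - 1)) f) = f := by
  have h1 := h.ord f hf
  obtain ⟨m, rfl⟩ : ∃ m, n = m + 1 := ⟨n - 1, by omega⟩
  rw [pow_succ'] at h1
  exact h1

theorem Eqv.inv_mem (h : Eqv v n σ L T τ) {f : Ω} (hf : f ∈ L) : (σ ^ (n - 1)) f ∈ L :=
  pow_mem_of (S := (L : Set Ω)) h.mem _ f hf

theorem Eqv.inv_eqv (h : Eqv v n σ L T τ) (hn : 0 < n) (hT : ∀ x, ∀ f ∈ L, T x f ∈ L) (x : X)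
    {f : Ω} (hf : f ∈ L) : (σ ^ (n - 1)) (T (τ x) f) = T x ((σ ^ (n - 1)) f) := by
  have h1 := h.eqv x _ (h.inv_mem hf)
  rw [h.inv_right hn hf] at h1
  rw [← h1]
  exact h.inv_left hn (hT x _ (h.inv_mem hf))

theorem Eqv.inv_pow (h : Eqv v n σ L T τ) {f : Ω} (hf : f ∈ L) :
    ((σ ^ (n - 1)) ^ n) f = f := by
  have key : ∀ i : ℕ, ((σ ^ n) ^ i) f = f := by
    intro i
    induction i with
    | zero => rfl
    | succ i ih =>
      rw [pow_succ]
      change ((σ ^ n) ^ i) ((σ ^ n) f) = f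
      rw [h.ord f hf, ih]
  rw [← pow_mul, mul_comm, pow_mul]
  exact key _

end Inv

/-- **The strict points are stable.** -/
theorem Eqv.ss (h : Eqv v n σ L T τ) (hn : 0 < n) (hT : ∀ x, ∀ f ∈ L, T x f ∈ L) {x : X}
    (hx : x ∈ Ss v L T) : τ x ∈ Ss v L T := by
  obtain ⟨d, hd, h1⟩ := hx
  refine ⟨d, hd, fun f hf r hr => ?_⟩
  have hi := isoE_pow h.iso (n - 1)
  have h2 := h1 _ (h.inv_mem hf) r (hi.ge_iff.2 hr)
  rw [← h.inv_eqv hn hT x hf, ← map_sub] at h2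
  exact hi.ge_iff.1 h2

/-! ### The average -/

section Av

/-- The conjugate of a function. -/
def cj (σ' : Ω →ₐ[k] Ω) (χ : k) (τ : X → X) (V : X → Ω) : X → Ω := fun x =>
  algebraMap k Ω χ * σ' (V (τ x))

/-- The average of the conjugates. -/
noncomputable def av (σ' : Ω →ₐ[k] Ω) (χ : k) (τ : X → X) (n : ℕ) (V : X → Ω) : X → Ω := fun x =>
  algebraMap k Ω (n : k)⁻¹ * ∑ i ∈ Finset.range n, ((cj σ' χ τ)^[i] V) x

theorem cj_iter (σ' : Ω →ₐ[k] Ω) (χ : k) (τ : X → X) (V : X → Ω) (i : ℕ) (x : X) :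
    ((cj σ' χ τ)^[i] V) x = algebraMap k Ω (χ ^ i) * (σ' ^ i) (V (τ^[i] x)) := by
  induction i generalizing x with
  | zero =>
    rw [pow_zero, map_one, one_mul, pow_zero]
    rfl
  | succ i ih =>
    rw [Function.iterate_succ_apply']
    change algebraMap k Ω χ * σ' (((cj σ' χ τ)^[i] V) (τ x)) = _
    rw [ih, map_mul, AlgHom.commutes, ← mul_assoc, ← map_mul, pow_succ', pow_succ' σ',
      Function.iterate_succ_apply]
    rfl

/-- The average is invariant. -/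
theorem cj_av {σ' : Ω →ₐ[k] Ω} {χ : k} (hχ : χ ^ n = 1) (hτ : ∀ x, τ^[n] x = x)
    (hσ' : ∀ f ∈ L, (σ' ^ n) f = f) (hV : ∀ x, V x ∈ L) (x : X) :
    algebraMap k Ω χ * σ' (av σ' χ τ n V (τ x)) = av σ' χ τ n V x := by
  unfold av
  rw [map_mul, AlgHom.commutes, map_sum, mul_left_comm, Finset.mul_sum]
  congr 1
  have h1 : ∀ i, algebraMap k Ω χ * σ' (((cj σ' χ τ)^[i] V) (τ x)) =
      ((cj σ' χ τ)^[i + 1] V) x := fun i => by
    rw [Function.iterate_succ_apply']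
    rfl
  have h2 : ((cj σ' χ τ)^[n] V) x = ((cj σ' χ τ)^[0] V) x := by
    rw [cj_iter, hχ, map_one, one_mul, hτ, hσ' _ (hV x)]
    rfl
  rw [Finset.sum_congr rfl fun i _ => h1 i]
  have h3 := Finset.sum_range_succ' (fun i => ((cj σ' χ τ)^[i] V) x) n
  rw [Finset.sum_range_succ, h2] at h3
  exact (add_right_cancel h3).symm

theorem av_zero {σ' : Ω →ₐ[k] Ω} {χ : k} {x₀ : X} (hτ : τ x₀ = x₀) (hV : V x₀ = 0) :
    av σ' χ τ n V x₀ = 0 := by
  unfold av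
  rw [Finset.sum_eq_zero, mul_zero]
  intro i _
  rw [cj_iter, Function.iterate_fixed hτ, hV, map_zero, mul_zero]

theorem PS.add_av {A : Submodule k Ω} {g h : X → Ω} (hg : PS A R g) (hh : PS A R h) :
    PS A R fun x => g x + h x := by
  obtain ⟨ι, hι, φ, c, h1, h2, h3⟩ := hg
  obtain ⟨ι', hι', φ', c', h1', h2', h3'⟩ := hh
  refine ⟨ι ⊕ ι', inferInstance, Sum.elim φ φ', Sum.elim c c', ?_, ?_, fun x => ?_⟩
  · rintro (i | i)
    exacts [h1 i, h1' i]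
  · rintro (i | i)
    exacts [h2 i, h2' i]
  · change g x + h x = _
    rw [h3, h3', Fintype.sum_sum_type]
    rfl

theorem PS.sum_av {A : Submodule k Ω} {ι : Type*} (s : Finset ι) {g : ι → X → Ω}
    (hg : ∀ i ∈ s, PS A R (g i)) : PS A R fun x => ∑ i ∈ s, g i x := by
  classical
  induction s using Finset.induction_on with
  | empty =>
    exact ⟨Empty, inferInstance, fun i => i.elim, fun i => i.elim, fun i => i.elim,
      fun i => i.elim, fun x => by simp⟩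
  | insert a s ha ih =>
    have h1 := (hg a (Finset.mem_insert_self a s)).add_av
      (ih fun i hi => hg i (Finset.mem_insert_of_mem hi))
    refine (congrArg (PS A R) (funext fun x => ?_)).mp h1
    rw [Finset.sum_insert ha]

theorem PS.smul_av {A : Submodule k Ω} {g : X → Ω} (a : k) (hg : PS A R g) :
    PS A R fun x => algebraMap k Ω a * g x := by
  obtain ⟨ι, hι, φ, c, h1, h2, h3⟩ := hg
  refine ⟨ι, hι, fun i x => a * φ i x, c, fun i => R.smul_mem (h1 i) a, h2, fun x => ?_⟩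
  change algebraMap k Ω a * g x = ∑ i, algebraMap k Ω (a * φ i x) * c i
  rw [h3, Finset.mul_sum]
  exact Finset.sum_congr rfl fun i _ => by rw [map_mul, mul_assoc]

theorem PS.cj {A : Submodule k Ω} {σ' : Ω →ₐ[k] Ω} {χ : k} (hV : PS A R V)
    (hR : ∀ φ ∈ R, (fun x => φ (τ x)) ∈ R) (hσ : ∀ f ∈ A, σ' f ∈ A) :
    PS A R (TWRZ.cj σ' χ τ V) := by
  obtain ⟨ι, hι, φ, c, h1, h2, h3⟩ := hV
  refine ⟨ι, hι, fun i x => χ * φ i (τ x), fun i => σ' (c i), fun i => ?_,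
    fun i => hσ _ (h2 i), fun x => ?_⟩
  · exact R.smul_mem (hR _ (h1 i)) χ
  · change algebraMap k Ω χ * σ' (V (τ x)) = _
    rw [h3, map_sum, Finset.mul_sum]
    refine Finset.sum_congr rfl fun i _ => ?_
    rw [map_mul, AlgHom.commutes, map_mul, mul_assoc]

theorem PS.av {A : Submodule k Ω} {σ' : Ω →ₐ[k] Ω} {χ : k} (hV : PS A R V)
    (hR : ∀ φ ∈ R, (fun x => φ (τ x)) ∈ R) (hσ : ∀ f ∈ A, σ' f ∈ A) :
    PS A R (TWRZ.av σ' χ τ n V) := by
  have h1 : ∀ i : ℕ, PS A R ((TWRZ.cj σ' χ τ)^[i] V) := by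
    intro i
    induction i with
    | zero => exact hV
    | succ i ih =>
      rw [Function.iterate_succ_apply']
      exact ih.cj hR hσ
  exact (PS.sum_av (Finset.range n) fun i _ => h1 i).smul_av _

/-- The conjugate of a motion of `w` is one. -/
theorem Eqv.att_cj (h : Eqv v n σ L T τ) (hn : 0 < n) (hT : ∀ x, ∀ f ∈ L, T x f ∈ L)
    (h0 : Ctx0 k v) {χ : k} (hχ : χ ≠ 0) (hσw : σ w = algebraMap k Ω χ * w)
    (hatt : Att v L T w ρ V) :
    Att v L T w ρ (cj (σ ^ (n - 1)) χ τ V) := by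
  have hχ' : algebraMap k Ω χ ≠ 0 := (_root_.map_ne_zero _).2 hχ
  have hi := isoE_pow h.iso (n - 1)
  intro ε hε
  obtain ⟨η, hη, h1⟩ := hatt ε hε
  refine ⟨η, hη, fun θ hθ h2 x => ?_⟩
  obtain ⟨θ', hθ'⟩ : ∃ θ', θ' = algebraMap k Ω χ⁻¹ * σ θ := ⟨_, rfl⟩
  have hθ'L : θ' ∈ L := by
    rw [hθ']
    exact mul_mem (L.algebraMap_mem _) (h.mem _ hθ)
  have hback : algebraMap k Ω χ * (σ ^ (n - 1)) θ' = θ := by
    rw [hθ', map_mul, AlgHom.commutes, h.inv_left hn hθ, ← mul_assoc, ← map_mul,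
      mul_inv_cancel₀ hχ, map_one, one_mul]
  have h3 : v.Ge (ρ - η) (w - θ') := by
    have e : w - θ' = algebraMap k Ω χ⁻¹ * σ (w - θ) := by
      rw [map_sub, mul_sub, hσw, ← mul_assoc, ← map_mul, inv_mul_cancel₀ hχ, map_one, one_mul, hθ']
    rw [e]
    have h4 := (h0.ge χ⁻¹).mul (h.iso.ge_iff.2 h2)
    rwa [zero_add] at h4
  have h5 := (h0.ge χ).mul (hi.ge_iff.2 (h1 θ' hθ'L h3 (τ x)))
  rw [zero_add] at h5
  have e : algebraMap k Ω χ * (σ ^ (n - 1)) (T (τ x) θ' - θ' - V (τ x)) =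
      T x θ - θ - cj (σ ^ (n - 1)) χ τ V x := by
    rw [map_sub, map_sub, mul_sub, mul_sub, hback, h.inv_eqv hn hT x hθ'L]
    have e2 : algebraMap k Ω χ * T x ((σ ^ (n - 1)) θ') = T x θ := by
      conv_rhs => rw [← hback]
      rw [map_mul, AlgHom.commutes]
    rw [e2]
    rfl
  rwa [e] at h5

/-- **The equivariant motion of `w`.** -/
theorem Eqv.exists_av (h : Eqv v n σ L T τ) (hn : 0 < n) (hnk : (n : k) ≠ 0)
    (hT : ∀ x, ∀ f ∈ L, T x f ∈ L) (h0 : Ctx0 k v) {χ : k} (hχ : χ ^ n = 1)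
    (hσw : σ w = algebraMap k Ω χ * w) (hτ : ∀ x, τ^[n] x = x)
    (hR : ∀ φ ∈ R, (fun x => φ (τ x)) ∈ R) {A : Submodule k Ω} (hA : ∀ f ∈ A, f ∈ L)
    (hσA : ∀ f ∈ A, σ f ∈ A) (hV : PS A R V) (hatt : Att v L T w ρ V) {x₀ : X} (hx₀ : τ x₀ = x₀)
    (hV₀ : V x₀ = 0) :
    ∃ V' : X → Ω, PS A R V' ∧ V' x₀ = 0 ∧ Att v L T w ρ V' ∧
      ∀ x, σ (V' x) = algebraMap k Ω χ * V' (τ x) := by
  have hχ0 : χ ≠ 0 := by
    rintro rfl
    rw [zero_pow hn.ne'] at hχ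
    exact zero_ne_one hχ
  have hP := hV.av (σ' := σ ^ (n - 1)) (χ := χ) (n := n) hR
    (pow_mem_of (S := (A : Set Ω)) hσA _)
  have hVL : ∀ x, V x ∈ L := fun x => (hV.p0 hA).mem x
  have hatts : ∀ i : ℕ, (∀ x, ((cj (σ ^ (n - 1)) χ τ)^[i] V) x ∈ L) ∧
      Att v L T w ρ ((cj (σ ^ (n - 1)) χ τ)^[i] V) := by
    intro i
    induction i with
    | zero => exact ⟨hVL, hatt⟩
    | succ i ih =>
      rw [Function.iterate_succ_apply']
      exact ⟨fun x => mul_mem (L.algebraMap_mem _) (h.inv_mem (ih.1 _)),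
        h.att_cj hn hT h0 hχ0 hσw ih.2⟩
  refine ⟨av (σ ^ (n - 1)) χ τ n V, hP, av_zero hx₀ hV₀, fun ε hε => ?_, fun x => ?_⟩
  · refine (TWII.Nr.all (Finset.range n) fun i _ => (hatts i).2 ε hε).mono fun θ hθ h1 x => ?_
    have hn' : algebraMap k Ω (n : k)⁻¹ * (n : Ω) = 1 := by
      have e : (n : Ω) = algebraMap k Ω (n : k) := by rw [map_natCast]
      rw [e, ← map_mul, inv_mul_cancel₀ hnk, map_one]
    have e : T x θ - θ - av (σ ^ (n - 1)) χ τ n V x = algebraMap k Ω (n : k)⁻¹ *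
        ∑ i ∈ Finset.range n, (T x θ - θ - ((cj (σ ^ (n - 1)) χ τ)^[i] V) x) := by
      rw [Finset.sum_sub_distrib, Finset.sum_const, Finset.card_range, mul_sub, nsmul_eq_mul,
        ← mul_assoc, hn', one_mul]
      rfl
    rw [e]
    have h2 := (h0.ge (n : k)⁻¹).mul (RVal.Ge.sum (Finset.range n) _ fun i hi => h1 i hi x)
    rwa [zero_add] at h2
  · have h1 := cj_av (n := n) (L := L) (V := V) (σ' := σ ^ (n - 1)) hχ hτ
      (fun f hf => h.inv_pow hf) hVL x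
    rw [← h1, map_mul, AlgHom.commutes, h.inv_right hn ((hP.p0 hA).mem _)]

end Av

/-! ### The lift -/

/-- The family on the closure of `L(w)` is equivariant. -/
theorem Eqv.lift {T' : Y → Ω →ₐ[k] Ω} {π : Y → X} {τ' : Y → Y} {κ : Y → Ω}
    (h : Eqv v n σ L T τ) {χ : k} (hχ : χ ^ n = 1) (hσw : σ w = algebraMap k Ω χ * w)
    (hiso : ∀ y, IsoE v v (T' y)) (hπ : ∀ y, π (τ' y) = τ (π y))
    (hT' : ∀ y, ∀ f ∈ L, T' y f = T (π y) f) (hw' : ∀ y, T' y w = w + V (π y) + κ y)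
    (hV : ∀ x, σ (V x) = algebraMap k Ω χ * V (τ x))
    (hκ : ∀ y, σ (κ y) = algebraMap k Ω χ * κ (τ' y)) : Eqv v n σ (cadj v L w) T' τ' where
  iso := h.iso
  mem := by
    refine map_cadj_le h.iso (cld_cadj v L w) (fun a ha => le_cadj v L w (h.mem a ha)) ?_
    rw [hσw]
    exact mul_mem ((cadj v L w).algebraMap_mem _) (self_mem_cadj v L w)
  ord := by
    intro f hf
    refine eq_on_cadj (Φ := σ ^ n) (Ψ := AlgHom.id k Ω) (isoE_pow h.iso n) isoE_id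
      (fun a ha => h.ord a ha) ?_ f hf
    have key : ∀ i : ℕ, (σ ^ i) w = algebraMap k Ω (χ ^ i) * w := by
      intro i
      induction i with
      | zero =>
        rw [pow_zero, pow_zero, map_one, one_mul]
        rfl
      | succ i ih =>
        rw [pow_succ']
        change σ ((σ ^ i) w) = _
        rw [ih, map_mul, AlgHom.commutes, hσw, ← mul_assoc, ← map_mul, ← pow_succ]
    rw [key, hχ, map_one, one_mul]
    rfl
  eqv := by
    intro y f hf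
    refine eq_on_cadj (Φ := σ.comp (T' y)) (Ψ := (T' (τ' y)).comp σ) (isoE_comp h.iso (hiso y))
      (isoE_comp (hiso _) h.iso) (fun a ha => ?_) ?_ f hf
    · rw [AlgHom.comp_apply, AlgHom.comp_apply, hT' y a ha, h.eqv _ a ha,
        hT' _ _ (h.mem a ha), hπ]
    · rw [AlgHom.comp_apply, AlgHom.comp_apply, hw', map_add, map_add, hσw, hV, hκ, map_mul,
        AlgHom.commutes, hw', hπ]
      ring

end Pool.Agent.TWRZ
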