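import Pool.Agent.Lib.TWRZ.EqvF

/-!
# TANK W, (Ru.Z): the step from one parameter, equivariant
-/

set_option autoImplicit false

open Polynomial

namespace Pool.Agent.TWRZ

open Pool.Agent.H15JM (RVal)
open Pool.Agent.LU1 (VPos adj)
open Pool.Agent.D2 (Ctx0)
open Pool.Agent.D2P (hen clI mem_clI)
open Pool.Agent.TWM
open Pool.Agent.TWS
open Pool.Agent.TWCT (StrM map_cadj_le eq_on_cadj)
open TWRL (ev2 Bi G1 FAdd)

universe u

variable {k Ω : Type u} [Field k] [Field Ω] [Algebra k Ω] {v : RVal Ω}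
  {L : IntermediateField k Ω} {A : Submodule k Ω} {w : Ω} {ρ : ℝ} {n : ℕ} {σ : Ω →ₐ[k] Ω} {T : k → Ω →ₐ[k] Ω}

section Fun

variable {k : Type*} [Field k]

theorem mul_comp_Pk {φ : k → k} (a : k) (hφ : φ ∈ Pk k) : (fun t => φ (a * t)) ∈ Pk k :=
  Pk_comp (f := fun t => a * t) ((Pk k).smul_mem id_mem_Pk a) hφ

theorem iter_mul {a : k} (ha : a ^ n = 1) (t : k) : (fun t : k => a * t)^[n] t = t := by
  have key : ∀ i : ℕ, (fun t : k => a * t)^[i] t = a ^ i * t := by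
    intro i
    induction i with
    | zero => rw [pow_zero, one_mul]; rfl
    | succ i ih =>
      rw [Function.iterate_succ_apply', ih, pow_succ']
      ring
  rw [key, ha, one_mul]

theorem exists_proot (p : ℕ) [Fact p.Prime] [CharP k p] [IsAlgClosed k] {a : k} {n : ℕ}
    (ha : a ^ n = 1) {R : k[X]} (hR : FAdd R) (hR0 : R ≠ 0) :
    ∃ θ : k, θ ^ n = 1 ∧ θ ^ R.natDegree = a := by
  obtain ⟨m, hm⟩ := TWRL.Addv.natDegree p (TWRL.FAdd.addv p hR) hR0
  obtain ⟨θ, hθ⟩ := TWRL.exists_root_ppow (k := k) p a m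
  refine ⟨θ, ?_, by rw [hm]; exact hθ⟩
  have h1 : (θ ^ n) ^ p ^ m = 1 ^ p ^ m := by
    rw [← pow_mul, mul_comm, pow_mul, hθ, ha, one_pow]
  have h2 : Function.Injective (iterateFrobenius k p m) := (iterateFrobenius k p m).injective
  exact h2 (by rw [iterateFrobenius_def, iterateFrobenius_def, h1])

end Fun

/-- **The step from one parameter**, radius `0`, equivariant. -/
theorem step1E [IsAlgClosed k] [IsAlgClosed Ω] {p : ℕ} [hp : Fact p.Prime] [CharP k p]
    (h0 : Ctx0 k v) (hsc : SphC v) (hval : ∀ ρ : ℝ, ∃ x : Ω, x ≠ 0 ∧ v x = ρ)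
    (h : GF1 v L T) (hn : 0 < n) (hnk : (n : k) ≠ 0) {a χ : k} (ha : a ^ n = 1) (hχ : χ ^ n = 1)
    (he : Eqv v n σ L T fun t => a * t) (hσw : σ w = algebraMap k Ω χ * w)
    (hw : TL v L w 0) (hsh : FSh v L (Pk k) T w 0)
    (hA : ∀ f ∈ A, f ∈ L) (hσA : ∀ f ∈ A, σ f ∈ A)
    (hd : ∀ f ∈ L, ∀ B : ℝ, ∃ g ∈ A, v.Ge B (f - g)) :
    ∃ (V : k → Ω) (T' : k × k → Ω →ₐ[k] Ω) (δ : k → k → k), PS A (Pk k) V ∧ V 0 = 0 ∧
      Att v L T w 0 V ∧ (∀ t, σ (V t) = algebraMap k Ω χ * V (a * t)) ∧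
      GP v (cadj v L w) T' δ ∧ (∀ y, ∀ f ∈ L, T' y f = T y.1 f) ∧
      (∀ y, T' y w = w + V y.1 + algebraMap k Ω y.2) ∧
      Eqv v n σ (cadj v L w) T' (fun y => (a * y.1, χ⁻¹ * y.2)) ∧
      (GF2 v (cadj v L w) T' δ ∨ ∃ R B hh : k[X], FAdd R ∧ R ≠ 0 ∧ FAdd B ∧ hh.eval 0 = 0 ∧
        (∀ s s', δ s s' = hh.eval (s + s') - hh.eval s - hh.eval s') ∧
        (∀ t t', (B + hh.comp R).eval (t + t') = (B + hh.comp R).eval t +
          (B + hh.comp R).eval t' + δ (R.eval t) (R.eval t')) ∧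
        GF1 v (cadj v L w) (fun t => T' (R.eval t, (B + hh.comp R).eval t)) ∧
        ∃ θ : k, θ ^ n = 1 ∧ R.comp (C θ * X) = C a * R ∧ B.comp (C θ * X) = C χ⁻¹ * B ∧
          hh.comp (C a * X) = C χ⁻¹ * hh ∧
          Eqv v n σ (cadj v L w) (fun t => T' (R.eval t, (B + hh.comp R).eval t))
            fun t => θ * t) := by
  classical
  have ha0 : a ≠ 0 := by
    rintro rfl
    rw [zero_pow hn.ne'] at ha
    exact zero_ne_one ha
  have hχ0 : χ ≠ 0 := by
    rintro rfl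
    rw [zero_pow hn.ne'] at hχ
    exact zero_ne_one hχ
  obtain ⟨V₁, hV₁, hV₁0, hatt₁⟩ := Fam.attA h0 h.dense hw.lim hsh hd h.id0 h.fam.mem
  obtain ⟨V, hV, hV0, hatt, hσV⟩ := he.exists_av hn hnk h.fam.mem h0 hχ hσw
    (fun t => iter_mul ha t) (fun φ hφ => mul_comp_Pk a hφ) hA hσA hV₁ hatt₁
    (x₀ := (0 : k)) (mul_zero a) hV₁0
  have hVL : P0 L (Pk k) V := hV.p0 hA
  obtain ⟨T', hF', hT', hw'⟩ := h.fam.exists_lift (Q := PP (Pk k) (Pk k)) h0 hsc hval hw hVL hatt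
    (fun y : k × k => y.1) (fun φ hφ => fst_mem_PP hφ) (κ := fun y => algebraMap k Ω y.2)
    (P0.fn (snd_mem_PP id_mem_Pk)) (fun y => h0.ge _)
  have he' : Eqv v n σ (cadj v L w) T' (fun y => (a * y.1, χ⁻¹ * y.2)) :=
    he.lift (π := fun y : k × k => y.1) (τ' := fun y => (a * y.1, χ⁻¹ * y.2))
      (κ := fun y => algebraMap k Ω y.2) hχ hσw hF'.iso (fun y => rfl) hT' hw' hσV fun y => by
        rw [AlgHom.commutes]
        simp only
        rw [← map_mul, ← mul_assoc, mul_inv_cancel₀ hχ0, one_mul]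
  obtain ⟨del, hdel, hdel0, hlaw⟩ := law_up (m := fun x x' => x + x') h0 h.fam hw
    (fun φ hφ => add_mem_RR hφ) h.law hVL.pl hVL.mem (fun ε hε => by
      obtain ⟨η, hη, h1⟩ := hatt ε hε
      refine ⟨η, hη, fun θ hθ h2 x => ?_⟩
      have h3 := h1 θ hθ (by rwa [zero_sub]) x
      rwa [zero_sub] at h3)
  obtain ⟨hd1, hd2⟩ := hdel0 0 h.id0 hV0
  have hlaw' := hlaw T' hF'.iso hT' hw'
  -- the unit
  have hid : ∀ f ∈ cadj v L w, T' (0, 0) f = f := by
    intro f hf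
    have h1 := eq_on_cadj (hF'.iso (0, 0)) isoE_id (A := L) (z := w) (fun a ha => by
      rw [hT' _ a ha]
      exact h.id0 a ha) (by
      rw [hw']
      simp only
      rw [hV0, map_zero, add_zero, add_zero]
      rfl) f hf
    exact h1
  have hcomp : ∀ a b c : k × k, (∀ f ∈ L, T a.1 (T b.1 f) = T c.1 f) →
      V c.1 + algebraMap k Ω c.2 = V a.1 + algebraMap k Ω a.2 + T a.1 (V b.1) +
        algebraMap k Ω b.2 → ∀ f ∈ cadj v L w, T' c f = T' a (T' b f) := by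
    intro a b c h1 h2 f hf
    have h3 := eq_on_cadj (hF'.iso c) (isoE_comp (hF'.iso a) (hF'.iso b)) (A := L) (z := w)
      (fun f hf => by
        rw [AlgHom.comp_apply, hT' c f hf, hT' b f hf, hT' a _ (h.fam.mem _ f hf)]
        exact (h1 f hf).symm) (by
      rw [AlgHom.comp_apply, hw' b, map_add, map_add, AlgHom.commutes, hw' a,
        hT' a _ (hVL.mem _), hw' c, add_assoc, h2]
      ring) f hf
    exact h3
  have hGP : GP v (cadj v L w) T' (fun x y => del (x, y)) :=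
    { fam := hF'
      id0 := hid
      law := hlaw'
      bi := RR_le_PP _ hdel
      d0 := fun y => hd1 y (zero_add y)
      d0' := fun y => hd2 y (add_zero y)
      ax := fun s c => hcomp (s, 0) (0, c) (s, c) (fun f hf => by
        simp only
        rw [h.id0 f hf]) (by
        simp only
        rw [hV0, map_zero, map_zero]
        ring)
      ax' := fun s c => hcomp (0, c) (s, 0) (s, c) (fun f hf => by
        simp only
        rw [h.id0 _ (h.fam.mem _ f hf)]) (by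
        simp only
        rw [hV0, map_zero, h.id0 _ (hVL.mem _)]
        ring) }
  refine ⟨V, T', fun x y => del (x, y), hV, hV0, hatt, hσV, hGP, hT', hw', he', ?_⟩
  have hG : G1 (Ss v (cadj v L w) T') (fun x y => del (x, y)) :=
    { bi := bi_of_PP hGP.bi
      d0 := hGP.d0
      z := ss_id hid
      mul := fun x hx y hy => ss_mul (m := fun x x' : k × k =>
        (x.1 + x'.1, x.2 + x'.2 + del (x.1, x'.1))) hF'.iso hlaw' hx hy
      inf := by
        refine h.inf.mono fun x hx => ?_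
        obtain ⟨c, hc⟩ := exists_strict h0 hw hatt hF'.iso hT' hw' hx
        exact ⟨(x, c), hc, rfl⟩ }
  rcases hG.dich_hom p with h1 | ⟨R, B, hh, hR, hR0, hB, hh0, hδ, -, hinf, -, hhom⟩
  · left
    refine { toGP := hGP, dense := fun x φ hφ h2 => ?_ }
    obtain ⟨P, hP⟩ := exists_ev2 hφ
    rw [hP, h1 P fun y hy => by rw [← hP]; exact h2 y hy]
    unfold ev2
    simp
  · right
    have hRc : ∀ t t', (B + hh.comp R).eval (t + t') = (B + hh.comp R).eval t +
        (B + hh.comp R).eval t' + del (R.eval t, R.eval t') := by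
      intro t t'
      rw [hδ]
      simp only [eval_add, eval_comp]
      rw [hB t t', hR t t']
      ring
    obtain ⟨θ, hθn, hθ⟩ := exists_proot p ha hR hR0
    obtain ⟨hh1, hh2, hh3⟩ := hhom a χ⁻¹ ha0 (inv_ne_zero hχ0)
      (fun x hx => he'.ss hn hF'.mem hx) θ hθ
    refine ⟨R, B, hh, hR, hR0, hB, hh0, hδ, hRc, ?_, θ, hθn, hh1, hh2, hh3, ?_⟩
    · refine
        { fam := hF'.comp _ fun φ hφ => PP_comp (fun φ hφ => Pk_comp (eval_mem_Pk R) hφ)
            (fun φ hφ => Pk_comp (eval_mem_Pk (B + hh.comp R)) hφ) hφ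
          id0 := fun f hf => by
            rw [hR.eval_zero]
            have e : (B + hh.comp R).eval 0 = 0 := by
              rw [eval_add, eval_comp, hB.eval_zero, hR.eval_zero, hh0, add_zero]
            rw [e]
            exact hid f hf
          law := ?_
          inf := hinf }
      obtain ⟨μ, hμ, h2⟩ := hlaw'
      refine ⟨μ, hμ, fun t t' => ?_⟩
      have h3 := h2 (R.eval t, (B + hh.comp R).eval t) (R.eval t', (B + hh.comp R).eval t')
      simp only at h3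
      rw [← hRc, ← hR t t'] at h3
      exact h3
    · refine ⟨he'.iso, he'.mem, he'.ord, fun t f hf => ?_⟩
      have h4 := he'.eqv (R.eval t, (B + hh.comp R).eval t) f hf
      have e1 : R.eval (θ * t) = a * R.eval t := by
        rw [← TWRL.eval_CX, hh1, eval_mul, eval_C]
      have e2 : (B + hh.comp R).eval (θ * t) = χ⁻¹ * (B + hh.comp R).eval t := by
        rw [eval_add, eval_comp, e1, ← TWRL.eval_CX B, hh2, ← TWRL.eval_CX hh a, hh3]
        simp only [eval_mul, eval_C, eval_add, eval_comp]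
        ring
      rw [h4, e1, e2]

/-- **The step from one parameter**, the radius is not a value, equivariant. -/
theorem step0E [IsAlgClosed Ω] (h0 : Ctx0 k v) (hsc : SphC v)
    (hval : ∀ ρ : ℝ, ∃ x : Ω, x ≠ 0 ∧ v x = ρ)
    (h : GF1 v L T) (hn : 0 < n) (hnk : (n : k) ≠ 0) {a χ : k} (ha : a ^ n = 1) (hχ : χ ^ n = 1)
    (he : Eqv v n σ L T fun t => a * t) (hσw : σ w = algebraMap k Ω χ * w)
    (hw : TL v L w ρ) (hirr : ∀ f ∈ L, f ≠ 0 → v f ≠ ρ)
    (hsh : FSh v L (Pk k) T w ρ) (hA : ∀ f ∈ A, f ∈ L) (hσA : ∀ f ∈ A, σ f ∈ A)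
    (hd : ∀ f ∈ L, ∀ B : ℝ, ∃ g ∈ A, v.Ge B (f - g)) :
    ∃ (V : k → Ω) (T' : k → Ω →ₐ[k] Ω), PS A (Pk k) V ∧ V 0 = 0 ∧ Att v L T w ρ V ∧
      (∀ t, σ (V t) = algebraMap k Ω χ * V (a * t)) ∧
      GF1 v (cadj v L w) T' ∧ (∀ t, ∀ f ∈ L, T' t f = T t f) ∧ (∀ t, T' t w = w + V t) ∧
      Eqv v n σ (cadj v L w) T' fun t => a * t := by
  classical
  obtain ⟨V₁, hV₁, hV₁0, hatt₁⟩ := Fam.attA h0 h.dense hw.lim hsh hd h.id0 h.fam.mem
  obtain ⟨V, hV, hV0, hatt, hσV⟩ := he.exists_av hn hnk h.fam.mem h0 hχ hσw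
    (fun t => iter_mul ha t) (fun φ hφ => mul_comp_Pk a hφ) hA hσA hV₁ hatt₁
    (x₀ := (0 : k)) (mul_zero a) hV₁0
  have hVL : P0 L (Pk k) V := hV.p0 hA
  obtain ⟨T', hF', hT', hw'⟩ := h.fam.exists_lift (Q := Pk k) h0 hsc hval hw hVL hatt
    (fun y : k => y) (fun φ hφ => hφ) (κ := fun _ => 0) P0.zero (fun y => RVal.Ge.zero)
  have hw'' : ∀ y, T' y w = w + V y := fun y => by rw [hw', add_zero]
  refine ⟨V, T', hV, hV0, hatt, hσV, ?_, hT', hw'',
    he.lift (π := fun y : k => y) (τ' := fun t => a * t) (κ := fun _ => 0) hχ hσw hF'.iso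
      (fun y => rfl) hT' hw' hσV fun y => by rw [map_zero, mul_zero]⟩
  refine
    { fam := hF'
      id0 := fun f hf => ?_
      law := law_up0 (m := fun x x' => x + x') h0 h.fam hw hirr (fun φ hφ => add_mem_RR hφ) h.law
        hVL.pl hVL.mem hatt T' hF'.iso hT' hw''
      inf := h.inf.mono fun x hx => mem_ss_of_irr hw hirr hatt hVL.mem h.fam.mem hF'.iso hT' hw'' hx }
  have h1 := eq_on_cadj (hF'.iso 0) isoE_id (A := L) (z := w) (fun a ha => by
    rw [hT' _ a ha]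
    exact h.id0 a ha) (by
    rw [hw'', hV0, add_zero]
    rfl) f hf
  exact h1

end Pool.Agent.TWRZ
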