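import Pool.Agent.Lib.TWRS.WinA
import Pool.Agent.Lib.TWMF.E5
import Pool.Agent.Lib.TWEX.PullI
import Pool.Agent.Lib.TWEX.Wi4

/-!
# TANK W, row (Ru.Z), the exit, 1: exit data of a triangular arc

`YTri`: a pointwise strict arc of `K = cl k(T)`, triangular over the fixed coordinates `T j`, `j ∈ J`,
except for one coordinate `y = T i₀` which moves by `∑ a_l c ε ^ l`, `c = f(y)`; no floor is assumed to
be strict.
* `back_con`: `y` from `y + f(y) a`, by iteration;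
* `YTri.exists_xb`: the exit data, all the exponents of the amounts;
* `motE_of_ytri`: motions of small effect.
-/

set_option autoImplicit false

open Polynomial Finset

namespace Pool.Agent.TWRZ

open Pool.Agent.H15JM (RVal)
open Pool.Agent.LU1 (VPos adj)
open Pool.Agent.D2 (Ctx0)
open Pool.Agent.D2P (clI mem_clI mem_adj_iff mem_adj_self)
open Pool.Agent.TWM
open Pool.Agent.TWEX
open Pool.Agent.TWRS (near_ring' back_step mv_cont)
open Pool.Agent.TWLM (HSd Oi Arc)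
open Pool.Agent.TWMF (XB Ptw motE_of_xb)
open Pool.Agent.TWII (PG)
open Pool.Agent.TWS (IsoE)
open Pool.Agent.TWS7 (MotE)
open Pool.Agent.TW (Ctx BD kr)

universe u

variable {k Ω : Type u} [Field k] [Field Ω] [Algebra k Ω] {v : RVal Ω}

/-- A triangular arc of `K` over the fixed coordinates `T j`, `j ∈ J`; the coordinate `T i₀` moves by
`∑ a_l c ε ^ l`. -/
structure YTri (p : ℕ) (v : RVal Ω) (N₀ N K : IntermediateField k Ω) {m : ℕ} (T : Fin m → Ω)
    (J : Set (Fin m)) (i₀ : Fin m) (c : Ω) (s σ : ℝ) (a : ℕ → Ω) (Ψ : ℕ → Ω → Ω) : Prop where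
  n0 : N₀ = IntermediateField.adjoin k (T '' J)
  xv : ∃ x ∈ N₀, x ≠ 0 ∧ v x ≠ 0
  le0 : N₀ ≤ N
  cN : Cld v N
  nle : N ≤ K
  tmem : ∀ i, T i ∈ K
  hsd : HSd K Ψ
  ptw : Ptw v K σ Ψ
  con : ∀ x ∈ N, ∀ l : ℕ, l ≠ 0 → Ψ l x = 0
  cj : ∃ P ∈ PI N₀, P.eval (T i₀) = c ∧
    ∀ j : ℕ, j ≠ 0 → Gt v (v c - j * s) ((taylor (T i₀) P).coeff j)
  c0 : c ≠ 0
  am : ∀ l, a l ∈ N₀
  mv : ∀ l : ℕ, l ≠ 0 → Ψ l (T i₀) = a l * c
  jet : ∀ i, i ∉ J → i ≠ i₀ → ∀ l : ℕ, l ≠ 0 → Ψ l (T i) ∈ Adn N₀ (T '' {j | j < i})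
  fin : ∃ M : ℕ, ∀ i l, M < l → Ψ l (T i) = 0
  cx : ∃ t : ℕ, Ψ (p ^ t) (T i₀) ≠ 0 ∧ v (Ψ (p ^ t) (T i₀)) = s - p ^ t * σ
  lim : ∀ δ : ℝ, 0 < δ → ∃ j : ℕ, ∃ n ∈ N, v.Ge (p ^ j * (s - δ)) (T i₀ ^ p ^ j - n)
  nd : ∀ n ∈ N, ∀ b : ℝ, ∃ x ∈ Adn N₀ {T i₀}, v.Ge b (n - x)
  den : ∀ x ∈ K, ∀ b : ℝ, ∃ g ∈ Adn N₀ (Set.range T), v.Ge b (x - g)
  near : ∃ U ∈ K, ∃ R μ : ℝ, 0 < μ ∧ (∀ l : ℕ, l ≠ 0 → v.Ge (R - l * σ + μ) (Ψ l U)) ∧
    ∀ θ : Ω, IsAlgebraic N θ → U ≠ θ ∧ v (U - θ) ≤ R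

/-- Denominators. -/
theorem exists_clearJ {N₀ : IntermediateField k Ω} {m : ℕ} {T : Fin m → Ω} {J : Set (Fin m)}
    (hN₀ : N₀ = IntermediateField.adjoin k (T '' J)) {g : Ω} (hg : g ∈ Adn N₀ (Set.range T)) :
    ∃ P q : MvPolynomial (Fin m) k, MvPolynomial.aeval T q ≠ 0 ∧ MvPolynomial.aeval T q ∈ N₀ ∧
      MvPolynomial.aeval T P = MvPolynomial.aeval T q * g := by
  have hadj : ∀ r ∈ Algebra.adjoin k (T '' J), ∃ P : MvPolynomial (Fin m) k,
      MvPolynomial.aeval T P = r := by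
    intro r hr
    have h1 : Algebra.adjoin k (T '' J) ≤ (MvPolynomial.aeval (R := k) T).range := by
      rw [← Algebra.adjoin_range_eq_range_aeval]
      exact Algebra.adjoin_mono (Set.image_subset_range T J)
    exact h1 hr
  induction hg using Algebra.adjoin_induction with
  | mem a ha =>
    obtain ⟨i, rfl⟩ := ha
    refine ⟨MvPolynomial.X i, 1, ?_, ?_, ?_⟩
    · rw [map_one]
      exact one_ne_zero
    · rw [map_one]
      exact one_mem _
    · rw [map_one, one_mul, MvPolynomial.aeval_X]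
  | algebraMap c =>
    obtain ⟨c, hc⟩ := c
    change ∃ P q : MvPolynomial (Fin m) k, MvPolynomial.aeval T q ≠ 0 ∧
      MvPolynomial.aeval T q ∈ N₀ ∧ MvPolynomial.aeval T P = MvPolynomial.aeval T q * c
    have hc' := hc
    rw [hN₀] at hc'
    obtain ⟨r, hr, s, hs, h1⟩ := IntermediateField.mem_adjoin_iff_div.1 hc'
    obtain ⟨P, hP⟩ := hadj r hr
    obtain ⟨q, hq⟩ := hadj s hs
    by_cases hs0 : s = 0
    · refine ⟨0, 1, ?_, ?_, ?_⟩
      · rw [map_one]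
        exact one_ne_zero
      · rw [map_one]
        exact one_mem _
      · rw [map_zero, h1, hs0, div_zero, mul_zero]
    · refine ⟨P, q, by rwa [hq], ?_, ?_⟩
      · rw [hq, hN₀]
        exact IntermediateField.algebra_adjoin_le_adjoin k _ hs
      · rw [hP, hq, h1, mul_div_cancel₀ _ hs0]
  | add a b _ _ ha hb =>
    obtain ⟨P, q, h1, h2, h3⟩ := ha
    obtain ⟨P', q', h1', h2', h3'⟩ := hb
    refine ⟨P * q' + P' * q, q * q', ?_, ?_, ?_⟩
    · rw [map_mul]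
      exact mul_ne_zero h1 h1'
    · rw [map_mul]
      exact mul_mem h2 h2'
    · rw [map_add, map_mul, map_mul, map_mul, h3, h3']
      ring
  | mul a b _ _ ha hb =>
    obtain ⟨P, q, h1, h2, h3⟩ := ha
    obtain ⟨P', q', h1', h2', h3'⟩ := hb
    refine ⟨P * P', q * q', ?_, ?_, ?_⟩
    · rw [map_mul]
      exact mul_ne_zero h1 h1'
    · rw [map_mul]
      exact mul_mem h2 h2'
    · rw [map_mul, map_mul, h3, h3']
      ring

/-- **Iteration.** -/
theorem back_con {M N₀ : IntermediateField k Ω} (hNM : N₀ ≤ M) {y y' a a' : Ω} (hy' : y' ∈ M)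
    (ha' : a' ∈ M) {f : Polynomial Ω} (hf : f ∈ PI N₀) {n : ℕ} (hn : f.natDegree ≤ n)
    {s κ μ B Λ : ℝ} (hμ : 0 < μ) (hB : 0 ≤ B) (hb : (n + 1) * B ≤ μ / 2) (hc : v.Ge κ (f.eval y))
    (hjet : ∀ l : ℕ, l ≠ 0 → v.Ge (κ - l * s + μ) ((hasseDeriv l f).eval y))
    (hΛ : s ≤ Λ) (ha : v.Ge (s - κ - B) a) (haa : v.Ge (Λ - κ) (a - a'))
    (hyy : y' = y + f.eval y * a) : ∃ Y ∈ M, v.Ge Λ (Y - y) := by
  classical
  have hag' : v.Ge (s - κ - B) a' := by
    have e : a' = a - (a - a') := by ring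
    rw [e]
    exact ha.sub (haa.mono (by linarith))
  -- one step
  have step : ∀ (e : ℝ) (Y : Ω), Y ∈ M → s - B ≤ e → v.Ge e (Y - y) →
      ∃ Y' ∈ M, v.Ge (min (e + μ / 2) Λ) (Y' - y) := by
    intro e₀ Y hY he hYy
    refine ⟨y' - f.eval Y * a', sub_mem hy' (mul_mem ?_ ha'), ?_⟩
    · rw [eval_eq_sum_range]
      exact sum_mem fun i _ => mul_mem (hNM (hf i)) (pow_mem hY i)
    have e : y' - f.eval Y * a' - y =
        f.eval y * (a - a') - (f.eval Y - f.eval y) * a' := by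
      rw [hyy]
      ring
    rw [e]
    refine RVal.Ge.sub ?_ ?_
    · exact (hc.mul haa).mono ((min_le_right _ _).trans (by linarith))
    · -- Taylor
      have e3 : f.eval Y - f.eval y =
          ∑ l ∈ range n, (hasseDeriv (l + 1) f).eval y * (Y - y) ^ (l + 1) := by
        have h1 : f.eval Y = ((taylor y f).eval (Y - y)) := by
          rw [taylor_eval]
          congr 1
          ring
        have h2 : (taylor y f).natDegree < n + 1 := by
          rw [natDegree_taylor]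
          exact Nat.lt_succ_of_le hn
        rw [h1, eval_eq_sum_range' h2, sum_range_succ', taylor_coeff_zero, pow_zero, mul_one,
          add_sub_cancel_right]
        exact sum_congr rfl fun l _ => by rw [taylor_coeff]
      rw [e3, sum_mul]
      refine RVal.Ge.sum _ _ fun l hl => ?_
      have h1 := ((hjet (l + 1) (Nat.succ_ne_zero l)).mul (TWM.ge_pow hYy (l + 1))).mul hag'
      refine h1.mono ((min_le_left _ _).trans ?_)
      push_cast
      have h2 : (l : ℝ) + 1 ≤ n := by exact_mod_cast mem_range.1 hl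
      have h4 : (0 : ℝ) ≤ l := Nat.cast_nonneg l
      have h5 : (l : ℝ) * (s - B) ≤ l * e₀ := mul_le_mul_of_nonneg_left he h4
      have h6 : (l : ℝ) * B ≤ n * B := mul_le_mul_of_nonneg_right (by linarith) hB
      nlinarith
  -- the start
  have h0 : v.Ge (s - B) (y' - y) := by
    have e : y' - y = f.eval y * a := by
      rw [hyy]
      ring
    rw [e]
    exact (hc.mul ha).mono (by linarith)
  have key : ∀ j : ℕ, ∃ Y ∈ M, v.Ge (min (s - B + j * (μ / 2)) Λ) (Y - y) := by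
    intro j
    induction j with
    | zero => exact ⟨y', hy', h0.mono ((min_le_left _ _).trans (by simp))⟩
    | succ j ih =>
      obtain ⟨Y, hY, h1⟩ := ih
      have h2 : (0 : ℝ) ≤ j * (μ / 2) := by positivity
      obtain ⟨Y', hY', h3⟩ := step _ Y hY (le_min (by linarith) (by linarith)) h1
      refine ⟨Y', hY', h3.mono ?_⟩
      push_cast
      refine le_min ?_ (min_le_right _ _)
      rcases le_total (s - B + j * (μ / 2)) Λ with h4 | h4
      · rw [min_eq_left h4]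
        exact (min_le_left _ _).trans (by linarith)
      · rw [min_eq_right h4]
        exact (min_le_right _ _).trans (by linarith)
  obtain ⟨j, hj⟩ := exists_nat_ge ((Λ - (s - B)) / (μ / 2))
  obtain ⟨Y, hY, h1⟩ := key j
  refine ⟨Y, hY, h1.mono (le_min ?_ le_rfl)⟩
  rw [div_le_iff₀ (half_pos hμ)] at hj
  linarith

section tri

variable {p : ℕ} {N₀ N K : IntermediateField k Ω} {m : ℕ} {T : Fin m → Ω} {J : Set (Fin m)}
  {i₀ : Fin m} {c : Ω} {s σ : ℝ} {a : ℕ → Ω} {Ψ : ℕ → Ω → Ω}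
  (h : YTri p v N₀ N K T J i₀ c s σ a Ψ) {H : Fin m → Polynomial Ω}
include h

theorem YTri.con0 : ∀ a ∈ N₀, ∀ l : ℕ, l ≠ 0 → Ψ l a = 0 := fun a ha l hl =>
  h.con a (h.le0 ha) l hl

theorem YTri.fix {i : Fin m} (hi : i ∈ J) : T i ∈ N₀ := by
  rw [h.n0]
  exact IntermediateField.subset_adjoin k _ ⟨i, hi, rfl⟩

theorem YTri.i0 (hp : 0 < p) : i₀ ∉ J := fun hi => by
  obtain ⟨t, ht, -⟩ := h.cx
  exact ht (h.con0 _ (h.fix hi) (p ^ t) (pow_pos hp t).ne')

theorem YTri.mv_fix (hH : ∀ i l, (H i).coeff l = Ψ l (T i)) (d : Ω) {i : Fin m} (hi : i ∈ J) :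
    TWMF.mv H d i = T i := by
  have h1 : H i = C (T i) := by
    ext l
    rw [hH, coeff_C]
    split_ifs with hl
    · rw [hl, h.hsd.c0 _ (h.tmem i)]
    · exact h.con0 _ (h.fix hi) l hl
  unfold TWMF.mv
  rw [h1, eval_C]

theorem YTri.le_mv (hH : ∀ i l, (H i).coeff l = Ψ l (T i)) (d : Ω) : N₀ ≤ kr k (TWMF.mv H d) := by
  rw [h.n0, IntermediateField.adjoin_le_iff]
  rintro _ ⟨i, hi, rfl⟩
  rw [← h.mv_fix hH d hi]
  exact IntermediateField.subset_adjoin k _ ⟨i, rfl⟩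

theorem YTri.le_kr : N₀ ≤ kr k T := by
  rw [h.n0]
  exact IntermediateField.adjoin.mono k _ _ (Set.image_subset_range T J)

theorem YTri.norm (l : ℕ) (x : Ω) (hx : x ∈ K) (b : ℝ) (hb : v.Ge b x) :
    v.Ge (b - l * σ) (Ψ l x) := h.ptw.norm h.hsd l hx hb

/-- The jets of `T i₀`. -/
theorem YTri.jety [hp : Fact p.Prime] [CharP Ω p] {l : ℕ} (hl : l ≠ 0) :
    v.Ge (s - l * σ) (Ψ l (T i₀)) := by
  intro hne
  refine le_of_forall_pos_sub_le fun δ hδ => ?_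
  obtain ⟨j, n, hn, h1⟩ := h.lim δ hδ
  have hpj : (0 : ℝ) < (p : ℝ) ^ j := pow_pos (by exact_mod_cast hp.out.pos) j
  have hyK : T i₀ ^ p ^ j ∈ K := pow_mem (h.tmem i₀) _
  have h2 := h.norm (p ^ j * l) _ (sub_mem hyK (h.nle hn)) _ h1
  rw [h.hsd.sub _ hyK (h.nle hn), h.con n hn _ (mul_ne_zero (pow_pos hp.out.pos _).ne' hl),
    sub_zero, h.hsd.pow_mul p (h.tmem i₀) j l] at h2
  have h3 := h2 (pow_ne_zero _ hne)
  rw [v.map_pow hne] at h3
  push_cast at h3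
  have h4 : (p : ℝ) ^ j * (s - δ - l * σ) ≤ p ^ j * v (Ψ l (T i₀)) := by linarith
  have h5 := le_of_mul_le_mul_left h4 hpj
  linarith

/-- **Amounts.** -/
theorem YTri.amt [IsAlgClosed Ω] [hp : Fact p.Prime] [CharP Ω p] (h0 : Ctx0 k v)
    (hcv : CompleteV v) (hH : ∀ i l, (H i).coeff l = Ψ l (T i)) (e : ℕ) (Λ : ℝ) :
    ∃ σ₀ : ℝ, σ₀ < σ ∧ ∀ a b : ℝ, σ₀ ≤ a → a < b → b ≤ σ →
      ∃ c ∈ kr k T, ∃ d' ∈ kr k (TWMF.mv H (c ^ p ^ e)), c ≠ 0 ∧ a < v (c ^ p ^ e) ∧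
        v (c ^ p ^ e) < b ∧ v.Ge Λ (c ^ p ^ e - d') := by
  classical
  have hnorm : ∀ l : ℕ, ∀ x ∈ K, ∀ b : ℝ, v.Ge b x → v.Ge (b - l * σ) (Ψ l x) :=
    fun l x hx b hb => h.ptw.norm h.hsd l hx hb
  obtain ⟨x, hx, hx0, hxv⟩ := h.xv
  obtain ⟨U, hUK, R, μ, hμ, hUΨ, hfar⟩ := h.near
  obtain ⟨U', hU'm, hUU'⟩ := h.den U hUK (R + 1)
  obtain ⟨F, hF⟩ := exists_lift_adn (T := T) (S := Set.range T) (fun a ha => ha) hU'm
  have hN₀K : N₀ ≤ K := h.le0.trans h.nle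
  have hco := coeff_aeval_H h.hsd hN₀K h.con0 h.tmem hH F
  rw [hF] at hco
  obtain ⟨lam', hlam', hU'Ψ⟩ := near_ring' h.hsd hnorm
    hUK hco.1 hμ hUΨ hUU'
    (M := (MvPolynomial.aeval H F).natDegree) (fun l hl => by
      rw [← hco.2]
      exact coeff_eq_zero_of_natDegree_lt hl)
  have hfar' : ∀ θ : Ω, IsAlgebraic N θ → U' ≠ θ ∧ v (U' - θ) ≤ R := by
    intro θ hθ
    obtain ⟨h1, h2⟩ := hfar θ hθ
    have h3 : Gt v (v (U - θ)) ((U - θ) - (U' - θ)) := by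
      rw [show (U - θ) - (U' - θ) = U - U' by ring]
      exact Gt.of_ge hUU' (by linarith)
    obtain ⟨h4, h5⟩ := Gt.val_eq (sub_ne_zero.2 h1) h3
    exact ⟨sub_ne_zero.1 h4, by rw [h5]; exact h2⟩
  have hle : cadj v (clI v N₀) U' ≤ clI v (adj N₀ U') :=
    cadj_le (cld_clI v _) (clI_mono (mem_adj_self N₀ U').2) (le_clI _ (mem_adj_self N₀ U').1)
  have hdense : ∀ a b : ℝ, a < b → ∃ c ∈ adj N₀ U', c ≠ 0 ∧ a < v c ∧ v c < b := by
    intro a b hab
    obtain ⟨c, hc, hc0, h1, h2⟩ := dense_values h0 hcv (cld_clI v N₀)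
      (le_cadj v (clI v N₀) U') (le_clI _ hx) hx0 hxv (self_mem_cadj v _ U')
      (fun h3 => (hfar' U' (D2P.isAlgebraic_mono (clI_le h.cN h.le0) h3)).1 rfl) hab
    obtain ⟨c', hc', h3⟩ := mem_clI.1 (hle hc) (v c + 1)
    obtain ⟨h4, h5⟩ := Gt.val_eq hc0 (Gt.of_ge h3 (by linarith))
    exact ⟨c', hc', h4, by rw [h5]; exact h1, by rw [h5]; exact h2⟩
  -- the amounts
  have hp0 : (0 : ℝ) < (p : ℝ) ^ e := pow_pos (by exact_mod_cast hp.out.pos) e
  obtain ⟨β, hβ⟩ : ∃ β, β = lam' / 2 := ⟨_, rfl⟩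
  have hβ0 : 0 < β := by rw [hβ]; positivity
  obtain ⟨s', hs'⟩ := exists_amt (p := p) (N := N₀) (U := U') (R := R) (g := lam' - β)
    (by rw [hβ]; linarith) (fun θ hθ => hfar' θ (D2P.isAlgebraic_mono h.le0 hθ)) hdense
    ((σ - β) / p ^ e) (Λ / p ^ e)
  refine ⟨σ - β, by linarith, fun a b ha hab hb => ?_⟩
  obtain ⟨f, hf, q, hq, hf0, hq0, h1, h2, h3⟩ := hs' (a / p ^ e) (b / p ^ e)
    (div_le_div_of_nonneg_right ha hp0.le) (div_lt_div_of_pos_right hab hp0)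
  obtain ⟨c, hc⟩ : ∃ c, c = (f.eval U' / q.eval U') ^ p ^ s' := ⟨_, rfl⟩
  rw [← hc] at h1 h2 h3
  have hc0 : c ≠ 0 := by
    rw [hc]
    exact pow_ne_zero _ (div_ne_zero hf0 hq0)
  have hvc : v (c ^ p ^ e) = p ^ e * v c := by
    rw [v.map_pow hc0]
    push_cast
    ring
  have hmem : ∀ (E : IntermediateField k Ω) (T' : Fin m → Ω), N₀ ≤ E → (∀ i, T' i ∈ E) →
      MvPolynomial.aeval T' F ∈ E := by
    intro E T' hE hT'
    clear hF hco
    induction F using MvPolynomial.induction_on with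
    | C a =>
      rw [MvPolynomial.aeval_C]
      exact hE a.2
    | add P Q hP hQ =>
      rw [map_add]
      exact add_mem hP hQ
    | mul_X P i hP =>
      rw [map_mul, MvPolynomial.aeval_X]
      exact mul_mem hP (hT' i)
  have hev : ∀ (E : IntermediateField k Ω) (x : Ω), N₀ ≤ E → x ∈ E →
      (f.eval x / q.eval x) ^ p ^ s' ∈ E := by
    intro E x hE hx
    refine pow_mem (div_mem ?_ ?_) _
    · rw [eval_eq_sum_range]
      exact sum_mem fun i _ => mul_mem (hE (hf i)) (pow_mem hx i)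
    · rw [eval_eq_sum_range]
      exact sum_mem fun i _ => mul_mem (hE (hq i)) (pow_mem hx i)
  have hck : c ∈ kr k T := by
    rw [hc]
    refine hev _ _ h.le_kr ?_
    rw [← hF]
    exact hmem _ _ h.le_kr fun i => IntermediateField.subset_adjoin k _ ⟨i, rfl⟩
  have hd : v.Ge (σ - β) (c ^ p ^ e) := fun _ => by
    rw [hvc]
    rw [div_lt_iff₀ hp0] at h1
    linarith
  refine ⟨c, hck, ((f.eval (MvPolynomial.aeval (TWMF.mv H (c ^ p ^ e)) F) /
    q.eval (MvPolynomial.aeval (TWMF.mv H (c ^ p ^ e)) F)) ^ p ^ s') ^ p ^ e, pow_mem (hev _ _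
      (h.le_mv hH _) (hmem _ _ (h.le_mv hH _) fun i =>
        IntermediateField.subset_adjoin k _ ⟨i, rfl⟩)) _, hc0, ?_, ?_, ?_⟩
  · rw [hvc]
    rw [div_lt_iff₀ hp0] at h1
    linarith
  · rw [hvc]
    rw [lt_div_iff₀ hp0] at h2
    linarith
  · have h5 := near_of_jets (N := N₀) (L := K) (Φ := Ψ) (t := T) (H := H) h.hsd
      hN₀K h.con0 h.tmem hH (P := F)
      (R := R) (lam := lam') (β := β) (by rw [hβ]; linarith) (by rw [hF]; exact hU'Ψ) hd
    rw [hF] at h5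
    have h6 := h3 _ h5
    rw [← sub_pow_char_pow]
    refine (ge_pow (ge_sub_comm h6) (p ^ e)).mono ?_
    push_cast
    rw [mul_div_cancel₀ _ hp0.ne']

/-- **Crossing.** -/
theorem YTri.cross [hp : Fact p.Prime] [CharP Ω p] (hH : ∀ i l, (H i).coeff l = Ψ l (T i)) {ρ : ℝ}
    (hρ : ρ < σ) : ∃ (P : MvPolynomial (Fin m) k) (l : ℕ), l ≠ 0 ∧
      (MvPolynomial.aeval H P).coeff l ≠ 0 ∧
      Gt v (v ((MvPolynomial.aeval H P).coeff l) + l * ρ) ((MvPolynomial.aeval H P).coeff 0) := by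
  classical
  have hp0 := hp.out.pos
  have hp1 : (1 : ℝ) ≤ p := by exact_mod_cast hp.out.one_lt.le
  have hN₀K : N₀ ≤ K := h.le0.trans h.nle
  obtain ⟨t, hc0, hcv⟩ := h.cx
  have hlim := h.lim
  have hring := h.nd
  obtain ⟨y, hy⟩ : ∃ y, y = T i₀ := ⟨_, rfl⟩
  obtain ⟨c, hc⟩ : ∃ c, c = Ψ (p ^ t) (T i₀) := ⟨_, rfl⟩
  rw [← hc] at hc0 hcv
  rw [← hy] at hlim hring hc
  have hyK : y ∈ K := by
    rw [hy]
    exact h.tmem i₀
  obtain ⟨j, n, hn, h1⟩ := hlim ((σ - ρ) / 2) (by linarith)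
  obtain ⟨n', hn', h2⟩ := hring n hn (max (p ^ j * (s - (σ - ρ) / 2)) (p ^ j * s + 1))
  have hpj : (0 : ℝ) < (p : ℝ) ^ j := pow_pos (by exact_mod_cast hp0) j
  have hyR : y ∈ Set.range T := ⟨i₀, hy.symm⟩
  have hn'T : n' ∈ Adn N₀ (Set.range T) :=
    Algebra.adjoin_mono (Set.singleton_subset_iff.2 hyR) hn'
  have hyT : y ∈ Adn N₀ (Set.range T) := Algebra.subset_adjoin hyR
  obtain ⟨F, hF⟩ := exists_lift_adn (T := T) (S := Set.range T) (fun a ha => ha) hn'T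
  have hFK := (coeff_aeval_H h.hsd hN₀K h.con0 h.tmem hH F).1
  rw [hF] at hFK
  have hfK : y ^ p ^ j - n' ∈ K := sub_mem (pow_mem hyK _) hFK
  obtain ⟨P, q, hq, hqN, hPq⟩ := exists_clearJ h.n0 (g := y ^ p ^ j - n')
    (sub_mem (pow_mem hyT _) hn'T)
  have hbot := TWMF.coeff_aeval h.hsd h.tmem hH P
  have hcoeff : ∀ l, (MvPolynomial.aeval H P).coeff l =
      MvPolynomial.aeval T q * Ψ l (y ^ p ^ j - n') := by
    intro l
    rw [hbot.2 l, hPq, hsd_smul h.hsd (hN₀K hqN) hfK fun l hl => h.con0 _ hqN l hl]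
  have hl : Ψ (p ^ (t + j)) (y ^ p ^ j - n') = c ^ p ^ j + Ψ (p ^ (t + j)) (n - n') := by
    rw [h.hsd.sub _ (pow_mem hyK _) hFK, h.hsd.sub _ (h.nle hn) hFK,
      h.con n hn _ (pow_pos hp0 _).ne', pow_add, mul_comm (p ^ t), h.hsd.pow_mul p hyK j (p ^ t),
      hc]
    ring
  have hv1 : v (c ^ p ^ j) = p ^ j * (s - p ^ t * σ) := by
    rw [v.map_pow hc0, hcv]
    push_cast
    ring
  have h3 : Gt v (v (c ^ p ^ j)) (c ^ p ^ j - Ψ (p ^ (t + j)) (y ^ p ^ j - n')) := by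
    rw [hl, hv1, show c ^ p ^ j - (c ^ p ^ j + Ψ (p ^ (t + j)) (n - n')) =
      -Ψ (p ^ (t + j)) (n - n') by ring]
    refine Gt.neg (Gt.of_ge (h.norm _ _ (sub_mem (h.nle hn) hFK) _
      (h2.mono (le_max_right _ _))) ?_)
    push_cast
    rw [pow_add]
    nlinarith
  obtain ⟨h4, h5⟩ := Gt.val_eq (pow_ne_zero _ hc0) h3
  have hl0 : (MvPolynomial.aeval H P).coeff (p ^ (t + j)) ≠ 0 := by
    rw [hcoeff]
    exact mul_ne_zero hq h4
  refine ⟨P, p ^ (t + j), (pow_pos hp0 _).ne', hl0, ?_⟩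
  rw [hcoeff, hcoeff, v.map_mul hq h4, h5, hv1, h.hsd.c0 _ hfK]
  have h6 : v.Ge (p ^ j * (s - (σ - ρ) / 2)) (y ^ p ^ j - n') := by
    rw [show y ^ p ^ j - n' = (y ^ p ^ j - n) + (n - n') by ring]
    exact h1.add (h2.mono (le_max_left _ _))
  refine Gt.of_ge ((RVal.ge_self (v := v) (MvPolynomial.aeval T q)).mul h6) ?_
  push_cast
  rw [pow_add]
  have h7 : (1 : ℝ) ≤ (p : ℝ) ^ t := one_le_pow₀ hp1
  have h8 : 0 < (p : ℝ) ^ j * ((p : ℝ) ^ t * (σ - ρ) - (σ - ρ) / 2) :=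
    mul_pos hpj (by nlinarith)
  nlinarith

/-- **Back.** -/
theorem YTri.back [hp : Fact p.Prime] [CharP Ω p] (hH : ∀ i l, (H i).coeff l = Ψ l (T i)) :
    ∃ B₀ : ℝ, B₀ < σ ∧ ∀ Λ : ℝ, ∃ Λ' : ℝ, ∀ d : Ω, ∀ d' ∈ kr k (TWMF.mv H d), v.Ge B₀ d →
      v.Ge Λ' (d - d') → ∃ s : Fin m → Ω, (∀ i, s i ∈ kr k (TWMF.mv H d)) ∧
        ∀ i, v.Ge Λ (T i - s i) := by
  classical
  obtain ⟨M, hM⟩ := h.fin
  obtain ⟨f, hf, hfc, hfj⟩ := h.cj
  have hi₀ := h.i0 hp.out.pos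
  -- the gain of `c`
  obtain ⟨n, hn⟩ : ∃ n : ℕ, f.natDegree ≤ n := ⟨_, le_rfl⟩
  obtain ⟨μ, hμ, hfj'⟩ : ∃ μ : ℝ, 0 < μ ∧ ∀ l : ℕ, l ≠ 0 →
      v.Ge (v c - l * s + μ) ((hasseDeriv l f).eval (T i₀)) := by
    have h1 : ∀ l : ℕ, ∃ η : ℝ, 0 < η ∧ (l ≠ 0 → v.Ge (v c - l * s + η)
        ((hasseDeriv l f).eval (T i₀))) := by
      intro l
      by_cases hl : l = 0
      · exact ⟨1, one_pos, fun h2 => absurd hl h2⟩
      · have h2 := hfj l hl
        rw [taylor_coeff] at h2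
        by_cases h3 : (hasseDeriv l f).eval (T i₀) = 0
        · exact ⟨1, one_pos, fun _ => by rw [h3]; exact RVal.Ge.zero⟩
        · have h4 := h2 h3
          exact ⟨_, sub_pos.2 h4, fun _ _ => by linarith⟩
    choose η hη h2 using h1
    have hne : (range (n + 1)).Nonempty := ⟨0, mem_range.2 (Nat.succ_pos n)⟩
    obtain ⟨i₁, -, hi₁⟩ := (range (n + 1)).exists_min_image η hne
    refine ⟨η i₁, hη i₁, fun l hl => ?_⟩
    by_cases hl' : l < n + 1
    · exact (h2 l hl).mono (by linarith [hi₁ l (mem_range.2 hl')])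
    · rw [hasseDeriv_eq_zero_of_lt_natDegree f l (by omega), eval_zero]
      exact RVal.Ge.zero
  -- the bound of the amounts
  have hD : (0 : ℝ) < 2 * (n + 1) * (M + 1) := by positivity
  obtain ⟨β, hβ⟩ : ∃ β : ℝ, β = μ / (2 * (n + 1) * (M + 1)) := ⟨_, rfl⟩
  have hβ0 : 0 < β := by rw [hβ]; positivity
  obtain ⟨B, hB⟩ : ∃ B : ℝ, B = M * β := ⟨_, rfl⟩
  have hBnn : 0 ≤ B := by rw [hB]; positivity
  have hBb : ((n : ℝ) + 1) * B ≤ μ / 2 := by
    have h1 : ((n : ℝ) + 1) * ((M + 1) * β) = μ / 2 := by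
      rw [hβ]
      field_simp
    have h2 : B ≤ (M + 1) * β := by rw [hB]; nlinarith
    have h3 : (0 : ℝ) ≤ (n : ℝ) + 1 := by positivity
    nlinarith
  refine ⟨σ - β, by linarith, ?_⟩
  -- the moved coordinates
  have hmv : ∀ (d : Ω) (i : Fin m), TWMF.mv H d i = T i +
      ∑ l ∈ range M, Ψ (l + 1) (T i) * d ^ (l + 1) := by
    intro d i
    have h1 : (H i).natDegree < M + 1 := by
      refine Nat.lt_succ_of_le (natDegree_le_iff_coeff_eq_zero.2 fun l hl => ?_)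
      rw [hH]
      exact hM i l hl
    unfold TWMF.mv
    rw [eval_eq_sum_range' h1, sum_range_succ', hH, h.hsd.c0 _ (h.tmem i), pow_zero, mul_one,
      add_comm]
    congr 1
    exact sum_congr rfl fun l _ => by rw [hH]
  have hmem : ∀ (d : Ω) i, TWMF.mv H d i ∈ kr k (TWMF.mv H d) := fun d i =>
    IntermediateField.subset_adjoin k _ ⟨i, rfl⟩
  -- the amount of `T i₀`
  obtain ⟨G, hG⟩ : ∃ G : MvPolynomial Unit N₀, G = ∑ l ∈ range M,
    MvPolynomial.C ⟨a (l + 1), h.am (l + 1)⟩ * MvPolynomial.X () ^ (l + 1) := ⟨_, rfl⟩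
  obtain ⟨ea, hea⟩ : ∃ ea : Ω → Ω, ∀ d, ea d = MvPolynomial.aeval (fun _ : Unit => d) G :=
    ⟨_, fun _ => rfl⟩
  have hea' : ∀ d, ea d = ∑ l ∈ range M, a (l + 1) * d ^ (l + 1) := by
    intro d
    rw [hea, hG, map_sum]
    refine sum_congr rfl fun l _ => ?_
    rw [map_mul, MvPolynomial.aeval_C, map_pow, MvPolynomial.aeval_X]
    rfl
  have heam : ∀ (E : IntermediateField k Ω) (d : Ω), N₀ ≤ E → d ∈ E → ea d ∈ E := by
    intro E d hE hd
    rw [hea']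
    exact sum_mem fun l _ => mul_mem (hE (h.am _)) (pow_mem hd _)
  have hav : ∀ l : ℕ, l ≠ 0 → v.Ge (s - v c - l * σ) (a l) := by
    intro l hl hne
    have h1 := h.jety hl
    rw [h.mv l hl] at h1
    have h2 := h1 (mul_ne_zero hne h.c0)
    rw [v.map_mul hne h.c0] at h2
    linarith
  have heab : ∀ d : Ω, v.Ge (σ - β) d → v.Ge (s - v c - B) (ea d) := by
    intro d hd
    rw [hea']
    refine RVal.Ge.sum _ _ fun l hl => ((hav (l + 1) (Nat.succ_ne_zero l)).mul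
      (TWM.ge_pow hd (l + 1))).mono ?_
    rw [hB]
    push_cast
    have h1 : (l : ℝ) + 1 ≤ M := by exact_mod_cast mem_range.1 hl
    nlinarith
  have hy' : ∀ d, TWMF.mv H d i₀ = T i₀ + f.eval (T i₀) * ea d := by
    intro d
    rw [hmv, hea', mul_sum, hfc]
    congr 1
    refine sum_congr rfl fun l _ => ?_
    rw [h.mv _ (Nat.succ_ne_zero l)]
    ring
  have key : ∀ n : ℕ, ∀ Λ : ℝ, ∃ Λ' : ℝ, ∀ d : Ω, ∀ d' ∈ kr k (TWMF.mv H d), v.Ge (σ - β) d →
      v.Ge Λ' (d - d') → ∃ s : Fin m → Ω, (∀ i, s i ∈ kr k (TWMF.mv H d)) ∧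
        ∀ i : Fin m, (i : ℕ) < n → v.Ge Λ (T i - s i) := by
    intro n'
    induction n' with
    | zero =>
      intro Λ
      exact ⟨0, fun d d' _ _ _ => ⟨TWMF.mv H d, hmem d, fun i hi => absurd hi (Nat.not_lt_zero _)⟩⟩
    | succ n' ih =>
      intro Λ
      by_cases hn' : n' < m
      · -- a new coordinate
        have upd : ∀ (d : Ω) (s : Fin m → Ω) (w : Ω), (∀ i, s i ∈ kr k (TWMF.mv H d)) →
            w ∈ kr k (TWMF.mv H d) → (∀ i : Fin m, (i : ℕ) < n' → v.Ge Λ (T i - s i)) →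
            v.Ge Λ (T ⟨n', hn'⟩ - w) → ∃ s : Fin m → Ω, (∀ i, s i ∈ kr k (TWMF.mv H d)) ∧
              ∀ i : Fin m, (i : ℕ) < n' + 1 → v.Ge Λ (T i - s i) := by
          intro d s w hs hw hs' hw'
          refine ⟨Function.update s ⟨n', hn'⟩ w, fun i => ?_, fun i hi => ?_⟩
          · by_cases hi : i = ⟨n', hn'⟩
            · rw [hi, Function.update_self]
              exact hw
            · rw [Function.update_of_ne hi]
              exact hs i
          · by_cases hi' : i = ⟨n', hn'⟩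
            · rw [hi', Function.update_self]
              exact hw'
            · rw [Function.update_of_ne hi']
              refine hs' i ?_
              have : (i : ℕ) ≠ n' := fun h2 => hi' (Fin.ext h2)
              omega
        by_cases hJ : (⟨n', hn'⟩ : Fin m) ∈ J
        · obtain ⟨Λ', h1⟩ := ih Λ
          refine ⟨Λ', fun d d' hd' hd hdd => ?_⟩
          obtain ⟨s, hs, hs'⟩ := h1 d d' hd' hd hdd
          refine upd d s (TWMF.mv H d ⟨n', hn'⟩) hs (hmem d _) hs' ?_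
          rw [h.mv_fix hH d hJ, sub_self]
          exact RVal.Ge.zero
        · by_cases hi : (⟨n', hn'⟩ : Fin m) = i₀
          · -- the coordinate `T i₀`
            obtain ⟨Λ', h1⟩ := ih Λ
            obtain ⟨Λ'', -, h2⟩ := mv_cont (v := v) G (σ - β) (max Λ s - v c)
            refine ⟨max Λ' Λ'', fun d d' hd' hd hdd => ?_⟩
            obtain ⟨s₁, hs, hs'⟩ := h1 d d' hd' hd (hdd.mono (le_max_left _ _))
            obtain ⟨Y, hY, hYy⟩ := back_con (v := v) (M := kr k (TWMF.mv H d)) (h.le_mv hH d)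
              (y := T i₀) (a := ea d) (a' := ea d') (hmem d i₀)
              (heam _ _ (h.le_mv hH d) hd') hf hn hμ hBnn
              hBb (by rw [hfc]; exact RVal.ge_self _) hfj' (le_max_right Λ s) (heab d hd) (by
                rw [hea, hea]
                exact h2 _ _ (fun _ => hd) fun _ => hdd.mono (le_max_right _ _)) (hy' d)
            refine upd d s₁ Y hs hY hs' ?_
            rw [hi]
            exact ge_sub_comm (hYy.mono (le_max_left _ _))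
          · -- a moved coordinate
            obtain ⟨t, ht⟩ : ∃ t : Fin n' → Ω, t = fun j : Fin n' => T ⟨j, j.2.trans hn'⟩ :=
              ⟨_, rfl⟩
            have hA : ∀ l : ℕ, l ≠ 0 → ∃ F : MvPolynomial (Fin n') N₀,
                Ψ l (T ⟨n', hn'⟩) = MvPolynomial.aeval t F := by
              intro l hl
              obtain ⟨F, hF⟩ := exists_lift_adn (T := t) (S := T '' {j | j < ⟨n', hn'⟩}) (by
                rintro a ⟨j, hj, rfl⟩
                exact ⟨⟨j, hj⟩, by rw [ht]⟩) (h.jet _ hJ hi l hl)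
              exact ⟨F, hF.symm⟩
            obtain ⟨B', hB'⟩ := back_step (v := v) hA M (σ - β) Λ
            obtain ⟨Λ', h1⟩ := ih (max Λ B')
            refine ⟨max Λ' B', fun d d' hd' hd hdd => ?_⟩
            obtain ⟨s, hs, hs'⟩ := h1 d d' hd' hd (hdd.mono (le_max_left _ _))
            obtain ⟨w, hw, hw'⟩ := hB' (kr k (TWMF.mv H d)) (fun j : Fin n' => s ⟨j, j.2.trans hn'⟩)
              d d' (T ⟨n', hn'⟩) (TWMF.mv H d ⟨n', hn'⟩) (h.le_mv hH d) (fun j => hs _) hd' (hmem d _)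
              (fun j => by
                rw [ht]
                exact (hs' _ j.2).mono (le_max_right _ _)) hd (hdd.mono (le_max_right _ _))
              (hmv d _)
            exact upd d s w hs hw (fun i hi => (hs' i hi).mono (le_max_left _ _)) hw'
      · obtain ⟨Λ', h1⟩ := ih Λ
        refine ⟨Λ', fun d d' hd' hd hdd => ?_⟩
        obtain ⟨s, hs, hs'⟩ := h1 d d' hd' hd hdd
        exact ⟨s, hs, fun i hi => hs' i (by have := i.2; omega)⟩
  intro Λ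
  obtain ⟨Λ', h1⟩ := key m Λ
  exact ⟨Λ', fun d d' hd' hd hdd => by
    obtain ⟨s, hs, hs'⟩ := h1 d d' hd' hd hdd
    exact ⟨s, hs, fun i => hs' i i.2⟩⟩

/-- **The exit data**, amounts `p ^ e`-th powers. -/
theorem YTri.exists_xb [IsAlgClosed Ω] [hp : Fact p.Prime] [CharP Ω p] (h0 : Ctx0 k v)
    (hcv : CompleteV v) (hind : AlgebraicIndependent k T) :
    ∃ H : Fin m → Polynomial Ω, (∀ i l, (H i).coeff l = Ψ l (T i)) ∧
      ∀ e : ℕ, XB k (p ^ e) v T H σ := by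
  classical
  obtain ⟨M, hM⟩ := h.fin
  set H : Fin m → Polynomial Ω := fun i => ∑ l ∈ range (M + 1), monomial l (Ψ l (T i)) with hHd
  have hH : ∀ i l, (H i).coeff l = Ψ l (T i) := by
    intro i l
    rw [hHd]
    simp only [finsetSum_coeff, coeff_monomial]
    rw [sum_ite_eq' (range (M + 1)) l]
    split_ifs with hl
    · rfl
    · exact (hM i l (by simpa using hl)).symm
  have hTk : ∀ i, T i ∈ kr k T := fun i => IntermediateField.subset_adjoin k _ ⟨i, rfl⟩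
  obtain ⟨B₀, hB₀, hback⟩ := h.back hH
  refine ⟨H, hH, fun e => ?_⟩
  refine
    { ind := hind
      c0 := fun i => by rw [hH, h.hsd.c0 _ (h.tmem i)]
      mem := fun i l => ?_
      str := fun P hP l hl => TWMF.str_of_ptw h.hsd h.ptw h.tmem hH P l hl
      amt := fun Λ => h.amt h0 hcv hH e Λ
      cross := ⟨σ - 1, by linarith, fun ρ _ hρ => h.cross hH hρ⟩
      back := fun Λ => ?_ }
  · rw [hH]
    by_cases hl : l = 0
    · rw [hl, h.hsd.c0 _ (h.tmem i)]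
      exact hTk i
    · by_cases hi : i ∈ J
      · rw [h.con0 _ (h.fix hi) l hl]
        exact zero_mem _
      · by_cases hi' : i = i₀
        · obtain ⟨f, hf, hfc, -⟩ := h.cj
          rw [hi', h.mv l hl, ← hfc, eval_eq_sum_range]
          exact mul_mem (h.le_kr (h.am l)) (sum_mem fun j _ =>
            mul_mem (h.le_kr (hf j)) (pow_mem (hTk i₀) j))
        · have h1 := h.jet i hi hi' l hl
          generalize Ψ l (T i) = a at h1
          induction h1 using Algebra.adjoin_induction with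
          | mem a ha =>
            obtain ⟨j, -, rfl⟩ := ha
            exact hTk j
          | algebraMap c => exact h.le_kr c.2
          | add a b _ _ ha hb => exact add_mem ha hb
          | mul a b _ _ ha hb => exact mul_mem ha hb
  · obtain ⟨Λ', h1⟩ := hback Λ
    exact ⟨B₀, hB₀, Λ', fun d _ d' hd' h3 h4 => h1 d d' hd' h3 h4⟩

end tri

section exit

variable {Ω' : Type u} [Field Ω'] [Algebra k Ω'] {w : RVal Ω'} {ι : Ω →ₐ[k] Ω'}

/-- **The exit of a triangular arc.** -/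
theorem motE_of_ytri [IsAlgClosed k] [IsAlgClosed Ω] [IsAlgClosed Ω'] (p : ℕ)
    [hp : Fact p.Prime] [CharP k p] [CharP Ω p] {r : ℕ} (h : Ctx k v r) (h0 : Ctx0 k w)
    (hcw : CompleteV w) (hd : IsoE v w ι) {K₀ : IntermediateField k Ω} (hK : K₀.FG)
    (hΩ : ∀ g : Ω, IsAlgebraic K₀ g) {m : ℕ} (htr : Algebra.trdeg k K₀ = m) (hBD : BD p v K₀)
    {N₀ N : IntermediateField k Ω'} {T : Fin m → Ω'} {J : Set (Fin m)} {i₀ : Fin m} {c : Ω'}
    {s σ ν : ℝ} {α : ℕ → Ω'} {Ψ : ℕ → Ω' → Ω'}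
    (hY : YTri p w N₀ N (clI w (K₀.map ι)) T J i₀ c s σ α Ψ)
    (hoi : Oi w (clI w (K₀.map ι)) σ Ψ) (hcl : clI w (K₀.map ι) = clI w (kr k T)) {a : Ω}
    (ha : a ∈ K₀) (hnull : ∀ l : ℕ, l ≠ 0 → PG p w (clI w (K₀.map ι)) (ν - l * σ) (Ψ l (ι a))) :
    MotE p v K₀ ν a := by
  have : CharP Ω' p := charP_of_injective_algebraMap (algebraMap k Ω').injective p
  obtain ⟨-, -, -, -, hind, -⟩ := exists_pull_iso h0 hcw hd hK htr hBD hcl 1
  obtain ⟨H, hH, hXB⟩ := hY.exists_xb h0 hcw hind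
  exact motE_of_xb h h0 hcw hd hK hΩ htr hBD hcl hXB hY.hsd hY.ptw hoi hH
    (D2P.le_hen _ ha) hnull

end exit

end Pool.Agent.TWRZ
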