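import Pool.Agent.Lib.TWRZ.Pl

/-!
# TANK W, (Ru.Z): families of isometric embeddings

* `Fam v L R T`: `T x`, `x ∈ X`, isometric embeddings of `Ω` mapping `L` to `L`, polynomial on `L`;
* `Ss v L T`: the strict points;
* `Fam.ptw`: at the points of the closure of `Ss`, `T x` is pointwise strict on `L`;
* `Fam.null`: and has no effect on the critical elements of `L`;
* `Fam.att`: the visible jets of `w`, of finite shape, are attained, if the strict points are dense;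
* `Fam.exists_lift`: the family on the closure of `L(w)`;
* `Fam.exists_strict`: the strict points lift.
-/

set_option autoImplicit false

open Polynomial

namespace Pool.Agent.TWRZ

open Pool.Agent.H15JM (RVal)
open Pool.Agent.LU1 (VPos adj)
open Pool.Agent.D2 (Ctx0)
open Pool.Agent.D2P (hen clI mem_clI)
open Pool.Agent.TWM
open Pool.Agent.TWS
open Pool.Agent.TWCT (StrM map_cadj_le)
open Pool.Agent.TWII (PG)

universe u

variable {k Ω : Type u} [Field k] [Field Ω] [Algebra k Ω] {v : RVal Ω} {X Y : Type*}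

/-- **A family of isometric embeddings**, polynomial on `L`. -/
structure Fam (v : RVal Ω) (L : IntermediateField k Ω) (R : Subalgebra k (X → k))
    (T : X → Ω →ₐ[k] Ω) : Prop where
  iso : ∀ x, IsoE v v (T x)
  mem : ∀ x, ∀ f ∈ L, T x f ∈ L
  pol : ∀ f ∈ L, Pl v L R fun x => T x f

/-- The strict points. -/
def Ss (v : RVal Ω) (L : IntermediateField k Ω) (T : X → Ω →ₐ[k] Ω) : Set X :=
  {x | ∃ d : ℝ, 0 < d ∧ StrM v (T x) L d}

/-- Two embeddings which differ by a strict amount on `L`. -/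
def NrM (v : RVal Ω) (A A' : Ω →ₐ[k] Ω) (L : IntermediateField k Ω) (d : ℝ) : Prop :=
  ∀ f ∈ L, ∀ r : ℝ, v.Ge r f → v.Ge (r + d) (A f - A' f)

/-- The finite shape of `w`. -/
def FSh (v : RVal Ω) (L : IntermediateField k Ω) (R : Subalgebra k (X → k))
    (T : X → Ω →ₐ[k] Ω) (w : Ω) (ρ : ℝ) : Prop :=
  ∃ (ι : Type) (_ : Fintype ι) (φ : ι → X → k), (∀ i, φ i ∈ R) ∧ ∀ ε : ℝ, 0 < ε →
    TWII.Nr v L ρ w fun θ => ∃ c : ι → Ω, (∀ i, c i ∈ L) ∧
      ∀ x, v.Ge (ρ - ε) (T x θ - θ - ∑ i, algebraMap k Ω (φ i x) * c i)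

/-- `V` is the motion of `w`: `T x` moves the elements of `L` near to `w` by `V x`. -/
def Att (v : RVal Ω) (L : IntermediateField k Ω) (T : X → Ω →ₐ[k] Ω) (w : Ω) (ρ : ℝ)
    (V : X → Ω) : Prop :=
  ∀ ε : ℝ, 0 < ε → TWII.Nr v L ρ w fun θ => ∀ x, v.Ge (ρ - ε) (T x θ - θ - V x)

variable {L L' : IntermediateField k Ω} {R : Subalgebra k (X → k)} {Q : Subalgebra k (Y → k)}
  {T : X → Ω →ₐ[k] Ω} {w : Ω} {ρ : ℝ} {V : X → Ω}

theorem Fam.comp (hF : Fam v L R T) (γ : Y → X) (hγ : ∀ φ ∈ R, (fun y => φ (γ y)) ∈ Q) :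
    Fam v L Q fun y => T (γ y) where
  iso _ := hF.iso _
  mem _ := hF.mem _
  pol f hf := (hF.pol f hf).comp γ hγ

theorem Fam.restrict (h0 : Ctx0 k v) (hF : Fam v L R T) (hL : L' ≤ L)
    (hT : ∀ x, ∀ f ∈ L', T x f ∈ L') : Fam v L' R T where
  iso := hF.iso
  mem := hT
  pol f hf := (hF.pol f (hL hf)).descend h0 fun x => hT x f hf

/-- **Pointwise strict in the closure of the strict points.** -/
theorem Fam.ptw (h0 : Ctx0 k v) (hF : Fam v L R T) {x : X} (hx : Zc R (Ss v L T) x) {f : Ω}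
    (hf : f ∈ L) {b : ℝ} (hb : v.Ge b f) : Gt v b (T x f - f) := by
  classical
  obtain ⟨G, m, hG, hm, h1⟩ := (hF.pol f hf).interp h0 (Ss v L T) (b + 1)
  obtain ⟨h2, h3⟩ := h1 x hx
  have e : T x f - f = (T x f - ∑ s ∈ G, algebraMap k Ω (m s x) * T s f) +
      ∑ s ∈ G, algebraMap k Ω (m s x) * (T s f - f) := by
    have h4 : ∑ s ∈ G, algebraMap k Ω (m s x) * f = f := by
      rw [← Finset.sum_mul, ← map_sum, h2, map_one, one_mul]
    simp only [mul_sub, Finset.sum_sub_distrib]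
    rw [h4]
    ring
  rw [e]
  refine (Gt.of_ge h3 (by linarith)).add (Gt.sum _ _ fun s hs => ?_)
  obtain ⟨d, hd, h5⟩ := hG s hs
  have h6 := (h0.ge (m s x)).mul (h5 f hf b hb)
  rw [zero_add] at h6
  exact Gt.of_ge h6 (by linarith)

/-- **No effect on the critical elements, in the closure of the strict points.** -/
theorem Fam.null {p : ℕ} [hp : Fact p.Prime] [CharP Ω p] [CharP k p] [PerfectRing k p]
    (h0 : Ctx0 k v) (hF : Fam v L R T) {x : X} (hx : Zc R (Ss v L T) x) {A : Ω} (hA : A ∈ L)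
    {ν : ℝ} (hl : ∀ ε : ℝ, 0 < ε → ∃ g ∈ L, v.Ge (ν - ε) (A - g ^ p)) :
    PG p v L ν (T x A - A) := by
  classical
  obtain ⟨G, m, hG, hm, h1⟩ := (hF.pol A hA).interp h0 (Ss v L T) (ν + 1)
  obtain ⟨h2, h3⟩ := h1 x hx
  have e : T x A - A = (T x A - ∑ s ∈ G, algebraMap k Ω (m s x) * T s A) +
      ∑ s ∈ G, algebraMap k Ω (m s x) * (T s A - A) := by
    have h4 : ∑ s ∈ G, algebraMap k Ω (m s x) * A = A := by
      rw [← Finset.sum_mul, ← map_sum, h2, map_one, one_mul]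
    simp only [mul_sub, Finset.sum_sub_distrib]
    rw [h4]
    ring
  rw [e]
  refine (PG.of_gt (Gt.of_ge h3 (by linarith))).add (PG.sum _ _ fun s hs => ?_)
  obtain ⟨d, hd, h5⟩ := hG s hs
  obtain ⟨g, hg, h6⟩ := hl (d / 2) (half_pos hd)
  have h7 := h5 (A - g ^ p) (sub_mem hA (pow_mem hg p)) _ h6
  obtain ⟨c, hc⟩ := surjective_frobenius k p (m s x)
  rw [frobenius_def] at hc
  refine ⟨algebraMap k Ω c * (T s g - g), mul_mem (L.algebraMap_mem _)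
    (sub_mem (hF.mem s g hg) hg), ?_⟩
  have e2 : algebraMap k Ω (m s x) * (T s A - A) - (algebraMap k Ω c * (T s g - g)) ^ p =
      algebraMap k Ω (m s x) * (T s (A - g ^ p) - (A - g ^ p)) := by
    rw [mul_pow, ← map_pow, hc, sub_pow_char, map_sub, map_pow]
    ring
  rw [e2]
  have h8 := (h0.ge (m s x)).mul h7
  rw [zero_add] at h8
  exact Gt.of_ge h8 (by linarith)

theorem PG.smul {p : ℕ} [hp : Fact p.Prime] [CharP Ω p] [CharP k p] [PerfectRing k p]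
    (h0 : Ctx0 k v) {ν : ℝ} {a : Ω} (ha : PG p v L ν a) (m : k) :
    PG p v L ν (algebraMap k Ω m * a) := by
  obtain ⟨g, hg, h1⟩ := ha
  obtain ⟨c, hc⟩ := surjective_frobenius k p m
  rw [frobenius_def] at hc
  refine ⟨algebraMap k Ω c * g, mul_mem (L.algebraMap_mem _) hg, ?_⟩
  have e : algebraMap k Ω m * a - (algebraMap k Ω c * g) ^ p = algebraMap k Ω m * (a - g ^ p) := by
    rw [mul_pow, ← map_pow, hc]
    ring
  rw [e]
  have h2 := h1.mul_ge (h0.ge m)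
  rw [add_zero, mul_comm] at h2
  exact h2

/-! ### The visible jets are attained -/

theorem exists_min {ι : Type*} (G : Finset ι) (P : ι → ℝ → Prop)
    (hP : ∀ i ∈ G, ∃ d : ℝ, 0 < d ∧ P i d) (hm : ∀ i ∈ G, ∀ d d', 0 < d' → d' ≤ d → P i d → P i d') :
    ∃ d : ℝ, 0 < d ∧ ∀ i ∈ G, P i d := by
  classical
  induction G using Finset.induction_on with
  | empty => exact ⟨1, one_pos, fun i hi => absurd hi (Finset.notMem_empty i)⟩
  | insert a G ha ih =>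
    obtain ⟨d, hd, h1⟩ := ih (fun i hi => hP i (Finset.mem_insert_of_mem hi))
      (fun i hi => hm i (Finset.mem_insert_of_mem hi))
    obtain ⟨d', hd', h2⟩ := hP a (Finset.mem_insert_self a G)
    refine ⟨min d d', lt_min hd hd', fun i hi => ?_⟩
    rcases Finset.mem_insert.1 hi with rfl | hi'
    · exact hm i hi _ _ (lt_min hd hd') (min_le_right _ _) h2
    · exact hm i hi _ _ (lt_min hd hd') (min_le_left _ _) (h1 i hi')

/-- `g = ∑ φ_i c_i`, `φ_i ∈ R`, `c_i` in the `k`-space `A`. -/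
def PS (A : Submodule k Ω) (R : Subalgebra k (X → k)) (g : X → Ω) : Prop :=
  ∃ (ι : Type) (_ : Fintype ι) (φ : ι → X → k) (c : ι → Ω), (∀ i, φ i ∈ R) ∧ (∀ i, c i ∈ A) ∧
    ∀ x, g x = ∑ i, algebraMap k Ω (φ i x) * c i

theorem PS.p0 {A : Submodule k Ω} (hA : ∀ f ∈ A, f ∈ L) {g : X → Ω} (hg : PS A R g) :
    P0 L R g := by
  obtain ⟨ι, hι, φ, c, h1, h2, h3⟩ := hg
  exact ⟨ι, hι, φ, c, h1, fun i => hA _ (h2 i), h3⟩

/-- **The visible jets are attained**, the coefficients in a dense `k`-space. -/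
theorem Fam.attA (h0 : Ctx0 k v) (hS : ∀ x, Zc R (Ss v L T) x) (hw : Lim v L ρ w)
    (hsh : FSh v L R T w ρ) {A : Submodule k Ω}
    (hd : ∀ f ∈ L, ∀ B : ℝ, ∃ g ∈ A, v.Ge B (f - g)) {x₀ : X} (hx₀ : ∀ f ∈ L, T x₀ f = f)
    (hT : ∀ x, ∀ f ∈ L, T x f ∈ L) :
    ∃ V : X → Ω, PS A R V ∧ V x₀ = 0 ∧ Att v L T w ρ V := by
  classical
  obtain ⟨ι, hι, φ, hφ, hsh⟩ := hsh
  obtain ⟨G, m, hG, hm, h1⟩ := interp (R := R) hφ (Ss v L T)
  obtain ⟨d, hd0, hdG⟩ := exists_min G (fun s d => StrM v (T s) L d) (fun s hs => hG s hs)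
    (fun s _ d d' _ h2 h3 => h3.mono h2)
  obtain ⟨θ₀, hθ₀, hwθ⟩ := hw (d / 2) (half_pos hd0)
  have hex : ∀ s, ∃ g ∈ A, v.Ge ρ (T s θ₀ - θ₀ - g) := fun s =>
    hd _ (sub_mem (hT s _ hθ₀) hθ₀) ρ
  choose g hg hgθ using hex
  obtain ⟨V₁, hV₁⟩ : ∃ V₁ : X → Ω, ∀ x, V₁ x = ∑ s ∈ G, algebraMap k Ω (m s x) * g s :=
    ⟨_, fun _ => rfl⟩
  have hatt : Att v L T w ρ V₁ := by
    intro ε hε
    refine ((hsh ε hε).and (TWII.Nr.near (half_pos hd0))).mono fun θ hθ h2 x => ?_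
    obtain ⟨⟨c, hc, h2⟩, h3⟩ := h2
    have h4 : ∑ i, algebraMap k Ω (φ i x) * c i =
        ∑ s ∈ G, algebraMap k Ω (m s x) * ∑ i, algebraMap k Ω (φ i s) * c i := by
      simp only [Finset.mul_sum]
      rw [Finset.sum_comm]
      refine Finset.sum_congr rfl fun i _ => ?_
      rw [h1 x (hS x) i, map_sum, Finset.sum_mul]
      refine Finset.sum_congr rfl fun s _ => ?_
      rw [map_mul]
      ring
    have h5 : ∀ s ∈ G, v.Ge (ρ - ε) (T s θ - θ - g s) := by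
      intro s hs
      have e1 : T s θ - θ - g s = (T s (θ - θ₀) - (θ - θ₀)) + (T s θ₀ - θ₀ - g s) := by
        rw [map_sub]
        ring
      have h6 : v.Ge (ρ - d / 2) (θ - θ₀) := by
        have e2 : θ - θ₀ = (w - θ₀) - (w - θ) := by ring
        rw [e2]
        exact hwθ.sub h3
      rw [e1]
      exact ((hdG s hs _ (sub_mem hθ hθ₀) _ h6).mono (by linarith)).add
        ((hgθ s).mono (by linarith))
    have e : T x θ - θ - V₁ x = (T x θ - θ - ∑ i, algebraMap k Ω (φ i x) * c i) +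
        ∑ s ∈ G, algebraMap k Ω (m s x) * ((T s θ - θ - g s) -
          (T s θ - θ - ∑ i, algebraMap k Ω (φ i s) * c i)) := by
      have e3 : ∀ s, (T s θ - θ - g s) - (T s θ - θ - ∑ i, algebraMap k Ω (φ i s) * c i) =
          (∑ i, algebraMap k Ω (φ i s) * c i) - g s := fun s => by ring
      simp only [e3, mul_sub, Finset.sum_sub_distrib]
      rw [← h4, hV₁]
      ring
    rw [e]
    refine (h2 x).add (RVal.Ge.sum _ _ fun s hs => ?_)
    have := (h0.ge (m s x)).mul ((h5 s hs).sub (h2 s))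
    rwa [zero_add] at this
  have hV0 : ∀ ε : ℝ, 0 < ε → v.Ge (ρ - ε) (V₁ x₀) := by
    intro ε hε
    obtain ⟨θ, hθ, h2⟩ := (hatt ε hε).exists hw
    have h3 := h2 x₀
    rw [hx₀ θ hθ, sub_self, zero_sub] at h3
    have h4 := h3.neg
    rwa [neg_neg] at h4
  refine ⟨fun x => V₁ x - V₁ x₀, ⟨Fin G.card, inferInstance,
    fun i x => m (G.equivFin.symm i) x - m (G.equivFin.symm i) x₀, fun i => g (G.equivFin.symm i),
    fun i => ?_, fun i => hg _, fun x => ?_⟩, sub_self _, fun ε hε => ?_⟩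
  · have h2 : (m (G.equivFin.symm i) - algebraMap k (X → k) (m (G.equivFin.symm i) x₀)) ∈ R :=
      sub_mem (hm _) (R.algebraMap_mem _)
    exact h2
  · change V₁ x - V₁ x₀ = _
    rw [hV₁, hV₁, ← Finset.sum_sub_distrib, ← Finset.sum_coe_sort G]
    refine Eq.trans ?_ (G.equivFin.symm.sum_comp fun s : G =>
      algebraMap k Ω (m s x - m s x₀) * g s).symm
    refine Finset.sum_congr rfl fun s _ => ?_
    rw [map_sub]
    ring
  · refine (hatt ε hε).mono fun θ _ h2 x => ?_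
    have e : T x θ - θ - (V₁ x - V₁ x₀) = (T x θ - θ - V₁ x) + V₁ x₀ := by ring
    rw [e]
    exact (h2 x).add (hV0 ε hε)

/-- **The visible jets are attained.** -/
theorem Fam.att (h0 : Ctx0 k v) (hS : ∀ x, Zc R (Ss v L T) x) (hw : Lim v L ρ w)
    (hsh : FSh v L R T w ρ) {L₀ : IntermediateField k Ω}
    (hd : ∀ f ∈ L, ∀ B : ℝ, ∃ g ∈ L₀, v.Ge B (f - g)) {x₀ : X} (hx₀ : ∀ f ∈ L, T x₀ f = f)
    (hT : ∀ x, ∀ f ∈ L, T x f ∈ L) :
    ∃ V : X → Ω, P0 L₀ R V ∧ V x₀ = 0 ∧ Att v L T w ρ V := by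
  obtain ⟨V, hV, h1, h2⟩ := Fam.attA h0 hS hw hsh
    (A := Subalgebra.toSubmodule L₀.toSubalgebra) (fun f hf B => by
      obtain ⟨g, hg, h3⟩ := hd f hf B
      exact ⟨g, hg, h3⟩) hx₀ hT
  exact ⟨V, hV.p0 fun f hf => hf, h1, h2⟩

/-! ### The family one floor higher -/

/-- **The family on the closure of `L(w)`.** -/
theorem Fam.exists_lift [IsAlgClosed Ω] (h0 : Ctx0 k v) (hsc : SphC v)
    (hval : ∀ ρ : ℝ, ∃ x : Ω, x ≠ 0 ∧ v x = ρ) (hF : Fam v L R T) (hw : TL v L w ρ)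
    (hV : P0 L R V) (hatt : Att v L T w ρ V) (π : Y → X)
    (hπ : ∀ φ ∈ R, (fun y => φ (π y)) ∈ Q) {κ : Y → Ω} (hκ : P0 L Q κ)
    (hκ' : ∀ y, v.Ge ρ (κ y)) :
    ∃ T' : Y → Ω →ₐ[k] Ω, Fam v (cadj v L w) Q T' ∧ (∀ y, ∀ f ∈ L, T' y f = T (π y) f) ∧
      ∀ y, T' y w = w + V (π y) + κ y := by
  classical
  have hex : ∀ y, ∃ Φ' : Ω →ₐ[k] Ω, IsoE v v Φ' ∧ (∀ b ∈ L, Φ' b = T (π y) b) ∧
      Φ' w = w + V (π y) + κ y := by
    intro y
    refine (hF.iso (π y)).exists_move_tl h0 hsc hval hw fun ε hε => ?_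
    obtain ⟨θ, hθ, h1, h2⟩ := ((hatt ε hε).and (TWII.Nr.near hε)).exists hw.lim
    refine ⟨θ, hθ, h2, ?_⟩
    have e : w + V (π y) + κ y - T (π y) θ = (w - θ) - (T (π y) θ - θ - V (π y)) + κ y := by
      ring
    rw [e]
    exact (h2.sub (h1 _)).add ((hκ' y).mono (by linarith))
  choose T' hiso hT' hw' using hex
  have hwm : ∀ y, T' y w ∈ cadj v L w := by
    intro y
    rw [hw']
    exact add_mem (add_mem (self_mem_cadj v L w) (le_cadj v L w (hV.mem _)))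
      (le_cadj v L w (hκ.mem _))
  have hLm : ∀ y, ∀ f ∈ L, T' y f ∈ cadj v L w := by
    intro y f hf
    rw [hT' y f hf]
    exact le_cadj v L w (hF.mem _ f hf)
  refine ⟨T', ⟨hiso, fun y => map_cadj_le (hiso y) (cld_cadj v L w) (hLm y) (hwm y),
    fun f hf => ?_⟩, hT', hw'⟩
  refine Pl.of_near fun B => ?_
  obtain ⟨g, hg, h1⟩ := hw.dense hf B
  refine ⟨fun y => T' y (g.eval w), ?_, fun y => ?_⟩
  · have hpl : Pl v (cadj v L w) Q fun y => T' y w := by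
      have h2 : Pl v (cadj v L w) Q fun y => w + V (π y) + κ y :=
        (((P0.const (self_mem_cadj v L w)).add ((hV.comp π hπ).mono (le_cadj v L w))).add
          (hκ.mono (le_cadj v L w))).pl
      refine (congrArg (Pl v (cadj v L w) Q) (funext fun y => ?_)).mp h2
      exact (hw' y).symm
    have h2 := Pl.sum (v := v) (L := cadj v L w) (R := Q) (Finset.range (g.natDegree + 1))
      (g := fun i y => T (π y) (g.coeff i) * T' y w ^ i) fun i _ =>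
        (((hF.pol _ (hg i)).comp π hπ).mono (le_cadj v L w)).mul h0 (hpl.pow h0 i)
    refine (congrArg (Pl v (cadj v L w) Q) (funext fun y => ?_)).mp h2
    rw [eval_eq_sum_range, map_sum]
    refine Finset.sum_congr rfl fun i _ => ?_
    rw [map_mul, map_pow, hT' y _ (hg i)]
  · rw [← map_sub]
    exact (hiso y).ge_iff.2 h1

/-- A motion which is strict on `L` and moves `w` as the elements of `L` near to it. -/
theorem strM_of_near [IsAlgClosed Ω] {A : Ω →ₐ[k] Ω} (hA : IsoE v v A) {d e : ℝ} (hd : 0 < d)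
    (hs : StrM v A L d) (hw : TL v L w ρ) (he : 0 < e)
    (hn : ∀ η : ℝ, 0 < η → ∃ θ ∈ L, v.Ge (ρ - η) (w - θ) ∧ v.Ge (ρ + e) (A w - w - (A θ - θ))) :
    ∃ d' : ℝ, 0 < d' ∧ StrM v A (cadj v L w) d' := by
  obtain ⟨d', hd', h1, h2⟩ : ∃ d' : ℝ, 0 < d' ∧ d' ≤ d ∧ d' / 2 ≤ e :=
    ⟨min d (2 * e), lt_min hd (by linarith), min_le_left _ _, by
      have := min_le_right d (2 * e)
      linarith⟩
  obtain ⟨θ, hθ, h3, h4⟩ := hn (d' / 2) (half_pos hd')
  exact ⟨d' / 2, half_pos hd', (hs.mono h1).tl hA hd' hw hθ h3 (h4.mono (by linarith))⟩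

theorem att_diff (h1 : Att v L T w ρ V) (hw : Lim v L ρ w) {x : X} {d : ℝ} (hd : 0 < d)
    (hs : StrM v (T x) L d) {θ₀ : Ω} (hθ₀ : θ₀ ∈ L) (hwθ : v.Ge (ρ - d / 2) (w - θ₀)) :
    v.Ge ρ (T x θ₀ - θ₀ - V x) := by
  intro hne
  refine le_of_forall_pos_sub_le fun ε hε => ?_
  obtain ⟨θ, hθ, h2, h3⟩ := ((h1 ε hε).and (TWII.Nr.near (half_pos hd))).exists hw
  have h4 : v.Ge (ρ - d / 2) (θ₀ - θ) := by
    have e2 : θ₀ - θ = (w - θ) - (w - θ₀) := by ring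
    rw [e2]
    exact h3.sub hwθ
  have e : T x θ₀ - θ₀ - V x = (T x (θ₀ - θ) - (θ₀ - θ)) + (T x θ - θ - V x) := by
    rw [map_sub]
    ring
  rw [e] at hne ⊢
  exact (((hs _ (sub_mem hθ₀ hθ) _ h4).mono (by linarith)).add (h2 x)) hne

/-- **The strict points lift**, radius `0`. -/
theorem exists_strict [IsAlgClosed Ω] (h0 : Ctx0 k v) (hw : TL v L w 0) (hatt : Att v L T w 0 V)
    {T' : X × k → Ω →ₐ[k] Ω} (hiso : ∀ y, IsoE v v (T' y))
    (hT' : ∀ y, ∀ f ∈ L, T' y f = T y.1 f)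
    (hw' : ∀ y, T' y w = w + V y.1 + algebraMap k Ω y.2) {x : X} (hx : x ∈ Ss v L T) :
    ∃ c : k, (x, c) ∈ Ss v (cadj v L w) T' := by
  obtain ⟨d, hd, hs⟩ := hx
  obtain ⟨θ₀, hθ₀, hwθ⟩ := hw.lim (d / 2) (half_pos hd)
  have h1 : v.Ge 0 (T x θ₀ - θ₀ - V x) := att_diff hatt hw.lim hd hs hθ₀ hwθ
  obtain ⟨c, hc⟩ := h0.residue h1
  obtain ⟨e, he, h2⟩ : ∃ e : ℝ, 0 < e ∧ v.Ge e (T x θ₀ - θ₀ - V x - algebraMap k Ω c) := by
    by_cases hz : T x θ₀ - θ₀ - V x - algebraMap k Ω c = 0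
    · exact ⟨1, one_pos, by rw [hz]; exact RVal.Ge.zero⟩
    · exact ⟨_, hc hz, RVal.ge_self _⟩
  refine ⟨c, ?_⟩
  have hs' : StrM v (T' (x, c)) L d := fun a ha r hr => by
    rw [hT' _ a ha]
    exact hs a ha r hr
  refine strM_of_near (hiso _) hd hs' hw (e := min e (d / 2)) (lt_min he (half_pos hd))
    fun η hη => ?_
  obtain ⟨θ, hθ, h3⟩ := hw.lim (min η (d / 2)) (lt_min hη (half_pos hd))
  refine ⟨θ, hθ, h3.mono (by linarith [min_le_left η (d / 2)]), ?_⟩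
  have h4 : v.Ge (0 - d / 2) (θ - θ₀) := by
    have e2 : θ - θ₀ = (w - θ₀) - (w - θ) := by ring
    rw [e2]
    exact hwθ.sub (h3.mono (by linarith [min_le_right η (d / 2)]))
  have h5 := hs _ (sub_mem hθ hθ₀) _ h4
  rw [hw', hT' _ θ hθ]
  have e1 : w + V (x, c).1 + algebraMap k Ω (x, c).2 - w - (T (x, c).1 θ - θ) =
      -(T x θ₀ - θ₀ - V x - algebraMap k Ω c) - (T x (θ - θ₀) - (θ - θ₀)) := by
    rw [map_sub]
    ring
  rw [e1]
  refine RVal.Ge.sub (h2.neg.mono ?_) (h5.mono ?_)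
  · linarith [min_le_left e (d / 2)]
  · linarith [min_le_right e (d / 2)]

/-- **The strict points lift**, radius not in the value group. -/
theorem mem_ss_of_irr [IsAlgClosed Ω] (hw : TL v L w ρ) (hirr : ∀ f ∈ L, f ≠ 0 → v f ≠ ρ)
    (hatt : Att v L T w ρ V) (hV : ∀ x, V x ∈ L) (hT : ∀ x, ∀ f ∈ L, T x f ∈ L)
    {T' : X → Ω →ₐ[k] Ω} (hiso : ∀ y, IsoE v v (T' y))
    (hT' : ∀ y, ∀ f ∈ L, T' y f = T y f) (hw' : ∀ y, T' y w = w + V y) {x : X}
    (hx : x ∈ Ss v L T) : x ∈ Ss v (cadj v L w) T' := by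
  obtain ⟨d, hd, hs⟩ := hx
  obtain ⟨θ₀, hθ₀, hwθ⟩ := hw.lim (d / 2) (half_pos hd)
  have h1 : v.Ge ρ (T x θ₀ - θ₀ - V x) := att_diff hatt hw.lim hd hs hθ₀ hwθ
  obtain ⟨e, he, h2⟩ : ∃ e : ℝ, 0 < e ∧ v.Ge (ρ + e) (T x θ₀ - θ₀ - V x) := by
    by_cases hz : T x θ₀ - θ₀ - V x = 0
    · exact ⟨1, one_pos, by rw [hz]; exact RVal.Ge.zero⟩
    · have h3 := lt_of_le_of_ne (h1 hz) (hirr _ (sub_mem (sub_mem (hT x _ hθ₀) hθ₀) (hV x)) hz).symm
      exact ⟨v (T x θ₀ - θ₀ - V x) - ρ, by linarith, fun _ => by linarith⟩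
  have hs' : StrM v (T' x) L d := fun a ha r hr => by
    rw [hT' _ a ha]
    exact hs a ha r hr
  refine strM_of_near (hiso _) hd hs' hw (e := min e (d / 2)) (lt_min he (half_pos hd))
    fun η hη => ?_
  obtain ⟨θ, hθ, h3⟩ := hw.lim (min η (d / 2)) (lt_min hη (half_pos hd))
  refine ⟨θ, hθ, h3.mono (by linarith [min_le_left η (d / 2)]), ?_⟩
  have h4 : v.Ge (ρ - d / 2) (θ - θ₀) := by
    have e2 : θ - θ₀ = (w - θ₀) - (w - θ) := by ring
    rw [e2]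
    exact hwθ.sub (h3.mono (by linarith [min_le_right η (d / 2)]))
  have h5 := hs _ (sub_mem hθ hθ₀) _ h4
  rw [hw', hT' _ θ hθ]
  have e1 : w + V x - w - (T x θ - θ) =
      -(T x θ₀ - θ₀ - V x) - (T x (θ - θ₀) - (θ - θ₀)) := by
    rw [map_sub]
    ring
  rw [e1]
  refine RVal.Ge.sub (h2.neg.mono ?_) (h5.mono ?_)
  · linarith [min_le_left e (d / 2)]
  · linarith [min_le_right e (d / 2)]

end Pool.Agent.TWRZ
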