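import Pool.Agent.Lib.TWRZ.Box
import Pool.Agent.Lib.TWRZ.Floor

/-!
# TANK W, (Ru.Z): one floor over a two parameter group

`GF2.floor`: `L` has a two parameter group of motions with dense strict points, the second axis is an
exact group; the floor `u` is hit. Then the closure of `L(u)` has a one parameter family over the
second axis.
-/

set_option autoImplicit false

open Polynomial

namespace Pool.Agent.TWRZ

open Pool.Agent.H15JM (RVal)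
open Pool.Agent.D2 (Ctx0)
open Pool.Agent.TWM
open Pool.Agent.TWS
open Pool.Agent.TWII (PG LP)
open TWRL (FAdd)

universe u

variable {k Ω : Type u} [Field k] [Field Ω] [Algebra k Ω] {v : RVal Ω}
  {L : IntermediateField k Ω} {u : Ω} {r : ℝ} {A : Submodule k Ω}

theorem PS.comp {X Y : Type*} {R : Subalgebra k (X → k)} {Q : Subalgebra k (Y → k)} {g : X → Ω}
    (hg : PS A R g) (γ : Y → X) (hγ : ∀ φ ∈ R, (fun y => φ (γ y)) ∈ Q) :
    PS A Q fun y => g (γ y) := by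
  obtain ⟨ι, hι, φ, c, h1, h2, h3⟩ := hg
  exact ⟨ι, hι, fun i y => φ i (γ y), c, fun i => hγ _ (h1 i), h2, fun y => h3 _⟩

/-- The second axis. -/
theorem axis2 : ∀ φ ∈ PP (Pk k) (Pk k), (fun t : k => φ (0, t)) ∈ Pk k := fun _ hφ =>
  PP_comp (γ := fun _ : k => (0 : k)) (γ' := fun t : k => t)
    (fun _ h1 => Pk_comp (zero_mem _) h1) (fun _ h1 => h1) hφ

/-- **One floor over a two parameter group**, the radius is not a value. -/
theorem GF2.floor0 [IsAlgClosed k] [IsAlgClosed Ω] {p : ℕ} [hp : Fact p.Prime] [CharP k p]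
    [CharP Ω p] (h0 : Ctx0 k v) (hsc : SphC v) (hval : ∀ ρ : ℝ, ∃ x : Ω, x ≠ 0 ∧ v x = ρ)
    {T₂ : k × k → Ω →ₐ[k] Ω} {δ : k → k → k} (h : GF2 v L T₂ δ)
    (hu : TL v L u r) (hr : ∀ f ∈ L, f ≠ 0 → v f ≠ r)
    (hsh : FSh v L (PP (Pk k) (Pk k)) T₂ u r)
    (hA : ∀ f ∈ A, f ∈ L) (hd : ∀ f ∈ L, ∀ B : ℝ, ∃ g ∈ A, v.Ge B (f - g)) :
    ∃ (T₁ : k → Ω →ₐ[k] Ω) (R hh B : k[X]) (V : Polynomial Ω), FamG p v (cadj v L u) T₁ ∧
      Fl1 L (fun t => T₂ (0, t)) T₁ A u r R hh B V := by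
  classical
  obtain ⟨V, hV, hV0, hatt⟩ := Fam.attA h0 h.dense hu.lim hsh hd h.id0 h.fam.mem
  have hVL : P0 L (PP (Pk k) (Pk k)) V := hV.p0 hA
  obtain ⟨T', hF', hT', hw'⟩ := h.fam.exists_lift (Q := PP (Pk k) (Pk k)) h0 hsc hval hu hVL hatt
    (fun y : k × k => y) (fun φ hφ => hφ) (κ := fun _ => 0) P0.zero (fun y => RVal.Ge.zero)
  have hw'' : ∀ y, T' y u = u + V y := fun y => by rw [hw', add_zero]
  have hm : ∀ φ ∈ PP (Pk k) (Pk k), (fun y : (k × k) × (k × k) =>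
      φ (y.1.1 + y.2.1, y.1.2 + y.2.2 + δ y.1.1 y.2.1)) ∈
      PP (PP (Pk k) (Pk k)) (PP (Pk k) (Pk k)) :=
    PP_law (m := fun s s' : k => s + s') (del := fun y => δ y.1 y.2) Pk_law h.bi
  obtain ⟨μ, hμ, hlaw⟩ := law_up0P
    (m := fun x x' : k × k => (x.1 + x'.1, x.2 + x'.2 + δ x.1 x'.1)) h0 h.fam hu hr hm h.law
    hVL.pl hVL.mem hatt T' hF'.iso hT' hw''
  have hzc : ∀ x, Zc (PP (Pk k) (Pk k)) (Ss v (cadj v L u) T') x := fun x =>
    (h.dense x).mono fun y hy => mem_ss_of_irr hu hr hatt hVL.mem h.fam.mem hF'.iso hT' hw'' hy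
  obtain ⟨U, hU, hUV⟩ := (hV.comp (fun t : k => ((0 : k), t)) axis2).exists_poly
  refine ⟨fun t => T' (0, t), X, 0, 0, U,
    { fam := hF'.comp _ axis2
      id0 := id_cadj hu (hF'.iso _) (fun f hf => by rw [hT' _ f hf]; exact h.id0 f hf) (by
        rw [hw'', hV0, add_zero])
      ptw := fun t f hf b hb => hF'.ptw h0 (hzc (0, t)) hf hb
      null := fun t a ha τ hl => hF'.null h0 (hzc (0, t)) ha hl
      law := ⟨μ, hμ, fun t t' => ?_⟩ },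
    { add := fadd_X
      ne := X_ne_zero
      addB := fadd_zero
      mem := hU
      rad := Or.inl ⟨rfl, rfl⟩
      on := fun t f hf => by rw [eval_X]; exact hT' _ f hf
      mv := fun t => ?_ }⟩
  · have h1 := hlaw (0, t) (0, t')
    simp only at h1
    rw [h.d0, add_zero, add_zero] at h1
    exact h1
  · rw [hw'', hUV, eval_X, eval_zero, add_zero, map_zero, add_zero]

/-- **One floor over a two parameter group, the floor is hit.** -/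
theorem GF2.floor [IsAlgClosed k] [IsAlgClosed Ω] {p : ℕ} [hp : Fact p.Prime] [CharP k p]
    [CharP Ω p] (h0 : Ctx0 k v) (hc : CompleteV v) (hsc : SphC v)
    (hval : ∀ ρ : ℝ, ∃ x : Ω, x ≠ 0 ∧ v x = ρ) (hL : Cld v L)
    {T₂ : k × k → Ω →ₐ[k] Ω} {δ : k → k → k} (h : GF2 v L T₂ δ)
    (hex : ∀ s s' : k, ∀ f ∈ L, T₂ (0, s) (T₂ (0, s') f) = T₂ (0, s + s') f)
    (hu : TL v L u r) (hr : r = 0 ∨ ∀ f ∈ L, f ≠ 0 → v f ≠ r)
    (hA : ∀ f ∈ A, f ∈ L) (hd : ∀ f ∈ L, ∀ B : ℝ, ∃ g ∈ A, v.Ge B (f - g))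
    {ν : ℝ} {f : Polynomial Ω} (hf : f ∈ PI L) (hlim : LP p v (cadj v L u) ν (f.eval u))
    (hhit : ∃ l : ℕ, p ∣ l ∧ l ≠ 0 ∧
      ¬ PG p v (cadj v L u) (ν - l * r) ((taylor u f).coeff l)) :
    ∃ (T₁ : k → Ω →ₐ[k] Ω) (R hh B : k[X]) (V : Polynomial Ω), FamG p v (cadj v L u) T₁ ∧
      Fl1 L (fun t => T₂ (0, t)) T₁ A u r R hh B V := by
  have : Infinite k := IsAlgClosed.instInfinite
  obtain ⟨h1, h2⟩ := h.fsh_ax p h0 hc hL hu hf hlim hhit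
  have hsh := GP.fsh h0 h.toGP h1 h2
  rcases hr with rfl | hr
  · obtain ⟨l, -, hl0, hl⟩ := hhit
    rw [mul_zero, sub_zero] at hl
    obtain ⟨V, R, B, hh, T₁, hV, -, hR, hR0, hB, -, hfam, hid, hon, hmv, hptw, hnull, hlaw, -⟩ :=
      stepK p h0 hc hsc hval h hu hsh hA hd hex hf hlim ⟨l, hl0, hl⟩
    exact ⟨T₁, R, hh, B, V, ⟨hfam, hid, hptw, hnull, hlaw⟩, ⟨hR, hR0, hB, hV, Or.inr rfl, hon, hmv⟩⟩
  · exact h.floor0 h0 hsc hval hu hr hsh hA hd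

end Pool.Agent.TWRZ
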