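import Pool.Agent.Lib.TWRZ.StepK
import Pool.Agent.Lib.TWRZ.EqvS

/-!
# TANK W, (Ru.Z): the last floor, from two parameters, equivariant
-/

set_option autoImplicit false

open Polynomial

namespace Pool.Agent.TWRZ

open Pool.Agent.H15JM (RVal)
open Pool.Agent.D2 (Ctx0)
open Pool.Agent.D2P (clI mem_clI)
open Pool.Agent.TWM
open Pool.Agent.TWS
open Pool.Agent.TWCT (StrM eq_on_cadj)
open Pool.Agent.TWII (PG LP Wn)
open TWRL (ev2 ev3 FAdd G2)

universe u

variable {k Ω : Type u} [Field k] [Field Ω] [Algebra k Ω] {v : RVal Ω}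
  {F : IntermediateField k Ω} {z : Ω} {n : ℕ} {σ : Ω →ₐ[k] Ω}

section Fun

variable {k : Type*} [Field k]

theorem iter_mul2 {n : ℕ} {a b : k} (ha : a ^ n = 1) (hb : b ^ n = 1) (y : k × k) :
    (fun y : k × k => (a * y.1, b * y.2))^[n] y = y := by
  have key : ∀ i : ℕ, (fun y : k × k => (a * y.1, b * y.2))^[i] y = (a ^ i * y.1, b ^ i * y.2) := by
    intro i
    induction i with
    | zero =>
      rw [pow_zero, pow_zero, one_mul, one_mul]
      rfl
    | succ i ih =>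
      rw [Function.iterate_succ_apply', ih, pow_succ', pow_succ']
      simp only [mul_assoc]
  rw [key, ha, hb, one_mul, one_mul]

theorem mul_comp_PP {φ : k × k → k} (a b : k) (hφ : φ ∈ PP (Pk k) (Pk k)) :
    (fun y : k × k => φ (a * y.1, b * y.2)) ∈ PP (Pk k) (Pk k) :=
  PP_comp (γ := fun y : k × k => a * y.1) (γ' := fun y : k × k => b * y.2)
    (fun _ h1 => Pk_comp ((PP (Pk k) (Pk k)).smul_mem (fst_mem_PP (φ := fun t : k => t) id_mem_Pk) a)
      h1)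
    (fun _ h1 => Pk_comp ((PP (Pk k) (Pk k)).smul_mem (snd_mem_PP (ψ := fun t : k => t) id_mem_Pk) b)
      h1) hφ

end Fun

/-- **The last floor, from two parameters**, equivariant. -/
theorem stepKE [IsAlgClosed k] [IsAlgClosed Ω] (p : ℕ) [hp : Fact p.Prime] [CharP k p] [CharP Ω p]
    (h0 : Ctx0 k v) (hc : CompleteV v) (hsc : SphC v)
    (hval : ∀ ρ : ℝ, ∃ x : Ω, x ≠ 0 ∧ v x = ρ) {T₂ : k × k → Ω →ₐ[k] Ω} {δ : k → k → k}
    (h : GF2 v F T₂ δ) (hn : 0 < n) (hnk : (n : k) ≠ 0) {a b χ : k} (ha : a ^ n = 1)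
    (hb : b ^ n = 1) (hχ : χ ^ n = 1) (he : Eqv v n σ F T₂ fun y => (a * y.1, b * y.2))
    (hσz : σ z = algebraMap k Ω χ * z)
    (hz : TL v F z 0) (hsh : FSh v F (PP (Pk k) (Pk k)) T₂ z 0)
    {A₀ : Submodule k Ω} (hA₀ : ∀ a ∈ A₀, a ∈ F) (hσA : ∀ a ∈ A₀, σ a ∈ A₀)
    (hd : ∀ f ∈ F, ∀ B : ℝ, ∃ g ∈ A₀, v.Ge B (f - g))
    (hex : ∀ s s' : k, ∀ f ∈ F, T₂ (0, s) (T₂ (0, s') f) = T₂ (0, s + s') f)
    {ν : ℝ} {f : Polynomial Ω} (hf : f ∈ PI F) (hlim : LP p v (cadj v F z) ν (f.eval z))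
    (hhit : ∃ l : ℕ, l ≠ 0 ∧ ¬ PG p v (cadj v F z) ν ((taylor z f).coeff l)) :
    ∃ (V : Polynomial Ω) (R B hh : k[X]) (A : k → Ω →ₐ[k] Ω), (∀ l, V.coeff l ∈ A₀) ∧
      V.coeff 0 = 0 ∧ FAdd R ∧ R ≠ 0 ∧ FAdd B ∧ hh.eval 0 = 0 ∧
      Fam v (cadj v F z) (Pk k) A ∧ (∀ f ∈ cadj v F z, A 0 f = f) ∧
      (∀ t, ∀ f ∈ F, A t f = T₂ (0, R.eval t) f) ∧
      (∀ t, A t z = z + V.eval (algebraMap k Ω (R.eval t)) +
        algebraMap k Ω (hh.eval (R.eval t) + B.eval t)) ∧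
      (∀ t, ∀ f ∈ cadj v F z, ∀ b : ℝ, v.Ge b f → Gt v b (A t f - f)) ∧
      (∀ t, ∀ a ∈ cadj v F z, ∀ τ : ℝ, LP p v (cadj v F z) τ a →
        PG p v (cadj v F z) τ (A t a - a)) ∧
      (∃ η : ℝ, 0 < η ∧ ∀ s s' : k, v.Ge η (V.eval (algebraMap k Ω s) +
        T₂ (0, s) (V.eval (algebraMap k Ω s')) - V.eval (algebraMap k Ω (s + s')) -
        algebraMap k Ω (hh.eval (s + s') - hh.eval s - hh.eval s'))) ∧
      (∃ μ : ℝ, 0 < μ ∧ ∀ t t' : k, NrM v ((A t).comp (A t')) (A (t + t')) (cadj v F z) μ) ∧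
      ∃ θ : k, θ ^ n = 1 ∧ R.comp (C θ * X) = C b * R ∧ B.comp (C θ * X) = C χ⁻¹ * B ∧
        hh.comp (C b * X) = C χ⁻¹ * hh ∧ Eqv v n σ (cadj v F z) A fun t => θ * t := by
  classical
  have : Infinite k := IsAlgClosed.instInfinite
  have hne0 : ∀ {a : k}, a ^ n = 1 → a ≠ 0 := by
    rintro a ha rfl
    rw [zero_pow hn.ne'] at ha
    exact zero_ne_one ha
  have hb0 := hne0 hb
  have hχ0 := hne0 hχ
  obtain ⟨V₁, hV₁, hV₁0, hatt₁⟩ := Fam.attA h0 h.dense hz.lim hsh hd h.id0 h.fam.mem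
  obtain ⟨V₂, hV₂, hV0, hatt, hσV⟩ := he.exists_av hn hnk h.fam.mem h0 hχ hσz
    (fun y => iter_mul2 ha hb y) (fun φ hφ => mul_comp_PP a b hφ) hA₀ hσA hV₁ hatt₁
    (x₀ := ((0 : k), (0 : k))) (by simp only [mul_zero]) hV₁0
  have hVP : P0 F (PP (Pk k) (Pk k)) V₂ := hV₂.p0 hA₀
  obtain ⟨T', hF', hT', hw'⟩ := h.fam.exists_lift (Q := PP (PP (Pk k) (Pk k)) (Pk k)) h0 hsc hval
    hz hVP hatt (fun y : (k × k) × k => y.1) (fun φ hφ => fst_mem_PP hφ)
    (κ := fun y => algebraMap k Ω y.2) (P0.fn (snd_mem_PP id_mem_Pk)) (fun y => h0.ge _)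
  have he' : Eqv v n σ (cadj v F z) T'
      (fun y => ((a * y.1.1, b * y.1.2), χ⁻¹ * y.2)) :=
    he.lift (π := fun y : (k × k) × k => y.1)
      (τ' := fun y => ((a * y.1.1, b * y.1.2), χ⁻¹ * y.2))
      (κ := fun y => algebraMap k Ω y.2) hχ hσz hF'.iso (fun y => rfl) hT' hw' hσV fun y => by
        rw [AlgHom.commutes]
        simp only
        rw [← map_mul, ← mul_assoc, mul_inv_cancel₀ hχ0, one_mul]
  -- the law
  have hm : ∀ φ ∈ PP (Pk k) (Pk k), (fun y : (k × k) × (k × k) =>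
      φ (y.1.1 + y.2.1, y.1.2 + y.2.2 + δ y.1.1 y.2.1)) ∈
      PP (PP (Pk k) (Pk k)) (PP (Pk k) (Pk k)) :=
    PP_law (m := fun s s' : k => s + s') (del := fun y => δ y.1 y.2) Pk_law h.bi
  obtain ⟨del, hdel, hdel0, hlaw⟩ := law_upP
    (m := fun x x' : k × k => (x.1 + x'.1, x.2 + x'.2 + δ x.1 x'.1)) h0 h.fam hz hm h.law
    hVP.pl hVP.mem hatt
  obtain ⟨hd1, -⟩ := hdel0 (0, 0) h.id0 hV0
  obtain ⟨μ, hμ, hlaw'⟩ := hlaw T' hF'.iso hT' hw'
  have hid : ∀ f ∈ cadj v F z, T' ((0, 0), 0) f = f := id_cadj hz (hF'.iso _)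
    (fun f hf => by rw [hT' _ f hf]; exact h.id0 f hf) (by
      rw [hw']
      simp only
      rw [hV0, map_zero, add_zero, add_zero])
  -- the strict points
  have hG : G2 (Ss v (cadj v F z) T') δ (fun x x' => del (x, x')) :=
    { bi := PP_bi h.bi
      d0 := h.d0
      l3 := PP_l3 (δ := fun x x' => del (x, x')) hdel
      r3 := fun c => PP_r3 (δ := fun x x' => del (x, x')) hdel (0, c)
      d3 := PP_d3 (δ := fun x x' => del (x, x')) hdel
      z3 := fun b' => hd1 b' (by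
        simp only
        rw [h.d0, zero_add, zero_add, add_zero])
      z := Ss_one hid
      mul := fun x hx y hy => Ss_mul (m := fun x x' : (k × k) × k =>
        ((x.1.1 + x'.1.1, x.1.2 + x'.1.2 + δ x.1.1 x'.1.1), x.2 + x'.2 + del (x.1, x'.1)))
        hF'.iso ⟨μ, hμ, hlaw'⟩ hx hy
      dense := fun P hP => dense_poly h.dense P fun x hx => by
        obtain ⟨c, hc⟩ := exists_strict h0 hz hatt hF'.iso hT' hw' hx
        exact hP _ hc }
  have hCK : Cld v (cadj v F z) := cld_cadj v F z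
  rcases hG.dich_hom p with h1 | ⟨R, B, hh, hR, hR0, hB, hh0, hdh, hcur, hhom⟩
  · -- everything is dense: `z` is not hit
    exfalso
    obtain ⟨l, hl, hl'⟩ := hhit
    have hzc : ∀ e : k, Zc (PP (PP (Pk k) (Pk k)) (Pk k)) (Ss v (cadj v F z) T') ((0, 0), e) :=
      fun e => zc_of_ev3 fun P hP => by
        rw [h1 P hP]
        simp [ev3]
    refine hl' (not_dense_of_hit p h0 hc hCK (A := fun e => T' ((0, 0), e))
      (hF'.comp _ fun φ hφ => PP_comp (γ := fun _ : k => ((0 : k), (0 : k)))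
        (γ' := fun e : k => e) (fun ψ _ => const_mem _ (ψ (0, 0))) (fun ψ hψ => hψ) hφ) hid
      (fun t f hf b hb => hF'.ptw h0 (hzc t) hf hb)
      (fun t a ha τ hl => hF'.null h0 (hzc t) ha hl)
      (fun t f hf => by rw [hT' _ f hf]; exact h.id0 f hf)
      (fun t => by
        rw [hw']
        simp only
        rw [hV0, add_zero]) hf ?_ hlim hl)
    rw [eval_eq_sum_range]
    exact sum_mem fun i _ => mul_mem (le_cadj v F z (hf i)) (pow_mem (self_mem_cadj v F z) _)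
  · -- the curve
    obtain ⟨c', hce⟩ : ∃ c', c' = B + hh.comp R := ⟨_, rfl⟩
    rw [← hce] at hcur
    have hc0 : c'.eval 0 = 0 := by
      rw [hce, eval_add, eval_comp, hB.eval_zero, hR.eval_zero, hh0, add_zero]
    have hRc : ∀ t t', c'.eval (t + t') = c'.eval t + c'.eval t' +
        del ((0, R.eval t), (0, R.eval t')) := by
      intro t t'
      rw [hdh, hce]
      simp only [eval_add, eval_comp]
      rw [hB t t', hR t t']
      ring
    obtain ⟨θ, hθn, hθ⟩ := exists_proot p hb hR hR0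
    obtain ⟨hh1, hh2, hh3⟩ := hhom a b χ⁻¹ hb0 (inv_ne_zero hχ0)
      (fun x hx => he'.ss hn hF'.mem hx) θ hθ
    have hPS : PS A₀ (Pk k) fun s : k => V₂ (0, s) := by
      obtain ⟨ι, hι, φ, c, h1, h2, h3⟩ := hV₂
      exact ⟨ι, hι, fun i s => φ i (0, s), c, fun i => PP_comp (γ := fun _ : k => (0 : k))
        (γ' := fun t : k => t) (fun _ h1 => Pk_comp (zero_mem _) h1) (fun _ h1 => h1) (h1 i), h2,
        fun s => h3 _⟩
    obtain ⟨V, hVA, hVe'⟩ := hPS.exists_poly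
    have hVe : ∀ s : k, V.eval (algebraMap k Ω s) = V₂ (0, s) := fun s => (hVe' s).symm
    have hzc : ∀ t : k, Zc (PP (PP (Pk k) (Pk k)) (Pk k)) (Ss v (cadj v F z) T')
        ((0, R.eval t), c'.eval t) := fun t => zc_of_ev3 fun P hP => hcur P hP t
    refine ⟨V, R, B, hh, fun t => T' ((0, R.eval t), c'.eval t), hVA, ?_, hR, hR0, hB, hh0,
      hF'.comp _ fun φ hφ => PP_comp (γ := fun t : k => ((0 : k), R.eval t))
        (γ' := fun t : k => c'.eval t)
        (fun ψ hψ => PP_comp (γ := fun _ : k => (0 : k)) (γ' := fun t : k => R.eval t)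
          (fun _ h1 => Pk_comp (zero_mem _) h1) (fun _ h1 => Pk_comp (eval_mem_Pk R) h1) hψ)
        (fun ψ hψ => Pk_comp (eval_mem_Pk c') hψ) hφ, fun f hf => ?_, fun t f hf => ?_,
      fun t => ?_, fun t f hf b hb => hF'.ptw h0 (hzc t) hf hb,
      fun t a ha τ hl => hF'.null h0 (hzc t) ha hl, ⟨μ / 2, half_pos hμ, fun s s' => ?_⟩,
      ⟨μ, hμ, fun t t' => ?_⟩, θ, hθn, hh1, hh2, hh3, he'.iso, he'.mem, he'.ord,
      fun t f hf => ?_⟩
    · have h2 := hVe 0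
      rw [map_zero, hV0, ← coeff_zero_eq_eval_zero] at h2
      exact h2
    · simp only
      rw [hR.eval_zero, hc0]
      exact hid f hf
    · simp only
      rw [hT' _ f hf]
    · simp only
      rw [hw', hVe, hce, eval_add, eval_comp, add_comm (B.eval t)]
    · have e1 : ((0 : k) + 0, s + s' + δ 0 0) = (0, s + s') := by rw [h.d0, add_zero, add_zero]
      have h2 := gain_of_law (m := fun x x' : k × k => (x.1 + x'.1, x.2 + x'.2 + δ x.1 x'.1))
        (del := del) hμ h.fam.mem hVP.mem hz.lim hT' hw' hlaw' (x := (0, s)) (x' := (0, s'))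
        (fun f hf => by
          simp only
          rw [e1]
          exact hex s s' f hf)
      simp only at h2
      rw [e1, hdh, ← hVe, ← hVe, ← hVe] at h2
      exact h2
    · have h3 := hlaw' ((0, R.eval t), c'.eval t) ((0, R.eval t'), c'.eval t')
      simp only at h3
      rw [← hRc, h.d0, add_zero, add_zero, ← hR t t'] at h3
      exact h3
    · have h4 := he'.eqv ((0, R.eval t), c'.eval t) f hf
      have e1 : R.eval (θ * t) = b * R.eval t := by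
        rw [← TWRL.eval_CX, hh1, eval_mul, eval_C]
      have e2 : c'.eval (θ * t) = χ⁻¹ * c'.eval t := by
        rw [hce, eval_add, eval_comp, e1, ← TWRL.eval_CX B, hh2, ← TWRL.eval_CX hh b, hh3]
        simp only [eval_mul, eval_C, eval_add, eval_comp]
        ring
      simp only at h4 ⊢
      rw [h4, e1, e2, mul_zero]

end Pool.Agent.TWRZ
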