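import Pool.Agent.Lib.TWRZ.Floor2
import Pool.Agent.Lib.TWRZ.StepKE

/-!
# TANK W, (Ru.Z): one floor, equivariant

`GF1.floorE`, `GF1.floorE_hit`, `GF2.floorE`: the floors of `Floor`, `Floor2`, the families commute
with an isometry `σ` of order `n` prime to `p` up to a scaling of the parameter.
-/

set_option autoImplicit false

open Polynomial

namespace Pool.Agent.TWRZ

open Pool.Agent.H15JM (RVal)
open Pool.Agent.D2 (Ctx0)
open Pool.Agent.D2P (clI mem_clI)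
open Pool.Agent.TWM
open Pool.Agent.TWS
open Pool.Agent.TWCT (StrM eq_on_cadj)
open Pool.Agent.TWII (PG LP)
open TWRL (FAdd)

universe u

variable {k Ω : Type u} [Field k] [Field Ω] [Algebra k Ω] {v : RVal Ω}
  {L : IntermediateField k Ω} {u : Ω} {r : ℝ} {T : k → Ω →ₐ[k] Ω} {A : Submodule k Ω} {n : ℕ}
  {σ : Ω →ₐ[k] Ω}

/-- The curve `t ↦ (R t, hh (R t) + B t)` is equivariant: `t ↦ θ t` on the curve, `s ↦ a s` on the
base, `e ↦ χ⁻¹ e` on the fibre. -/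
structure HomE {k : Type*} [Field k] (n : ℕ) (a χ θ : k) (R hh B : k[X]) : Prop where
  th : θ ^ n = 1
  homR : R.comp (C θ * X) = C a * R
  homB : B.comp (C θ * X) = C χ⁻¹ * B
  homh : hh.comp (C a * X) = C χ⁻¹ * hh

theorem homE_X {k : Type*} [Field k] {n : ℕ} {a : k} (χ : k) (ha : a ^ n = 1) :
    HomE n a χ a X 0 0 where
  th := ha
  homR := by rw [X_comp]
  homB := by rw [zero_comp, mul_zero]
  homh := by rw [zero_comp, mul_zero]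

/-- **One floor over a one parameter group**, equivariant. -/
theorem GF1.floorE [IsAlgClosed k] [IsAlgClosed Ω] {p : ℕ} [hp : Fact p.Prime] [CharP k p]
    (h0 : Ctx0 k v) (hsc : SphC v) (hval : ∀ ρ : ℝ, ∃ x : Ω, x ≠ 0 ∧ v x = ρ)
    (h : GF1 v L T) (hn : 0 < n) (hnk : (n : k) ≠ 0) {a χ : k} (ha : a ^ n = 1) (hχ : χ ^ n = 1)
    (he : Eqv v n σ L T fun t => a * t) (hσu : σ u = algebraMap k Ω χ * u)
    (hu : TL v L u r) (hr : r = 0 ∨ ∀ f ∈ L, f ≠ 0 → v f ≠ r)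
    (hsh : FSh v L (Pk k) T u r) (hA : ∀ f ∈ A, f ∈ L) (hσA : ∀ f ∈ A, σ f ∈ A)
    (hd : ∀ f ∈ L, ∀ B : ℝ, ∃ g ∈ A, v.Ge B (f - g)) :
    (∃ (T₁ : k → Ω →ₐ[k] Ω) (R hh B : k[X]) (V : Polynomial Ω) (θ : k),
      GF1 v (cadj v L u) T₁ ∧ Fl1 L T T₁ A u r R hh B V ∧ HomE n a χ θ R hh B ∧
      Eqv v n σ (cadj v L u) T₁ fun t => θ * t) ∨
    (r = 0 ∧ ∃ (V : Polynomial Ω) (T' : k × k → Ω →ₐ[k] Ω) (δ : k → k → k),
      (∀ l, V.coeff l ∈ A) ∧ V.eval 0 = 0 ∧ GF2 v (cadj v L u) T' δ ∧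
      (∀ y, ∀ f ∈ L, T' y f = T y.1 f) ∧
      (∀ y, T' y u = u + V.eval (algebraMap k Ω y.1) + algebraMap k Ω y.2) ∧
      Eqv v n σ (cadj v L u) T' fun y => (a * y.1, χ⁻¹ * y.2)) := by
  rcases hr with rfl | hr
  · obtain ⟨V, T', δ, hV, hV0, -, -, hGP, hT', hu', he', hdi⟩ :=
      step1E (p := p) h0 hsc hval h hn hnk ha hχ he hσu hu hsh hA hσA hd
    obtain ⟨U, hU, hUV⟩ := hV.exists_poly
    rcases hdi with h2 | ⟨R, B, hh, hR, hR0, hB, hh0, hδ, hRc, h1, θ, hθ, hh1, hh2, hh3, he1⟩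
    · refine Or.inr ⟨rfl, U, T', δ, hU, ?_, h2, hT', fun y => by rw [hu', hUV], he'⟩
      have h4 := hUV 0
      rw [map_zero] at h4
      rw [← h4, hV0]
    · refine Or.inl ⟨_, R, hh, B, U, θ, h1, ⟨hR, hR0, hB, hU, Or.inr rfl, fun t f hf => hT' _ f hf,
        fun t => ?_⟩, ⟨hθ, hh1, hh2, hh3⟩, he1⟩
      rw [hu', hUV, eval_add, eval_comp, add_comm (B.eval t)]
  · obtain ⟨V, T', hV, hV0, -, -, h1, hT', hu', he'⟩ :=
      step0E h0 hsc hval h hn hnk ha hχ he hσu hu hr hsh hA hσA hd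
    obtain ⟨U, hU, hUV⟩ := hV.exists_poly
    refine Or.inl ⟨T', X, 0, 0, U, a, h1, ⟨fadd_X, X_ne_zero, fadd_zero, hU, Or.inl ⟨rfl, rfl⟩,
      fun t f hf => by rw [eval_X]; exact hT' t f hf, fun t => ?_⟩, homE_X χ ha, he'⟩
    rw [hu', hUV, eval_X, eval_zero, add_zero, map_zero, add_zero]

/-- **One floor over a one parameter group, the floor is hit**, equivariant. -/
theorem GF1.floorE_hit [IsAlgClosed k] [IsAlgClosed Ω] {p : ℕ} [hp : Fact p.Prime] [CharP k p]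
    [CharP Ω p] (h0 : Ctx0 k v) (hc : CompleteV v) (hsc : SphC v)
    (hval : ∀ ρ : ℝ, ∃ x : Ω, x ≠ 0 ∧ v x = ρ) (hL : Cld v L)
    (h : GF1 v L T) (hn : 0 < n) (hnk : (n : k) ≠ 0) {a χ : k} (ha : a ^ n = 1) (hχ : χ ^ n = 1)
    (he : Eqv v n σ L T fun t => a * t) (hσu : σ u = algebraMap k Ω χ * u)
    (hu : TL v L u r) (hr : r = 0 ∨ ∀ f ∈ L, f ≠ 0 → v f ≠ r)
    (hA : ∀ f ∈ A, f ∈ L) (hσA : ∀ f ∈ A, σ f ∈ A)
    (hd : ∀ f ∈ L, ∀ B : ℝ, ∃ g ∈ A, v.Ge B (f - g))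
    {ν : ℝ} {f : Polynomial Ω} (hf : f ∈ PI L) (hlim : LP p v (cadj v L u) ν (f.eval u))
    (hhit : ∃ l : ℕ, p ∣ l ∧ l ≠ 0 ∧
      ¬ PG p v (cadj v L u) (ν - l * r) ((taylor u f).coeff l)) :
    ∃ (T₁ : k → Ω →ₐ[k] Ω) (R hh B : k[X]) (V : Polynomial Ω) (θ : k),
      GF1 v (cadj v L u) T₁ ∧ Fl1 L T T₁ A u r R hh B V ∧ HomE n a χ θ R hh B ∧
      Eqv v n σ (cadj v L u) T₁ fun t => θ * t := by
  have : Infinite k := IsAlgClosed.instInfinite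
  have hsh := h.fsh p h0 hc hL hu hf hlim hhit
  rcases h.floorE (p := p) h0 hsc hval hn hnk ha hχ he hσu hu hr hsh hA hσA hd with
    h1 | ⟨rfl, V, T', δ, hV, hV0, h2, hT', hu', -⟩
  · exact h1
  · exfalso
    obtain ⟨l, -, hl0, hl⟩ := hhit
    rw [mul_zero, sub_zero] at hl
    refine hl (h2.not_hit (L := L) h0 hc (cld_cadj v L u) (fun t f hf => ?_) (fun t => ?_) hf
      (TWM.eval_mem (PI_mono (le_cadj v L u) hf) (self_mem_cadj v L u)) hlim hl0)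
    · rw [hT' _ f hf]
      exact h.id0 f hf
    · rw [hu']
      simp only
      rw [map_zero, hV0, add_zero]

/-- **One floor over a two parameter group**, the radius is not a value, equivariant. -/
theorem GF2.floorE0 [IsAlgClosed k] [IsAlgClosed Ω] {p : ℕ} [hp : Fact p.Prime] [CharP k p]
    [CharP Ω p] (h0 : Ctx0 k v) (hsc : SphC v) (hval : ∀ ρ : ℝ, ∃ x : Ω, x ≠ 0 ∧ v x = ρ)
    {T₂ : k × k → Ω →ₐ[k] Ω} {δ : k → k → k} (h : GF2 v L T₂ δ)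
    (hn : 0 < n) (hnk : (n : k) ≠ 0) {a b χ : k} (ha : a ^ n = 1) (hb : b ^ n = 1)
    (hχ : χ ^ n = 1) (he : Eqv v n σ L T₂ fun y => (a * y.1, b * y.2))
    (hσu : σ u = algebraMap k Ω χ * u)
    (hu : TL v L u r) (hr : ∀ f ∈ L, f ≠ 0 → v f ≠ r)
    (hsh : FSh v L (PP (Pk k) (Pk k)) T₂ u r)
    (hA : ∀ f ∈ A, f ∈ L) (hσA : ∀ f ∈ A, σ f ∈ A)
    (hd : ∀ f ∈ L, ∀ B : ℝ, ∃ g ∈ A, v.Ge B (f - g)) :
    ∃ (T₁ : k → Ω →ₐ[k] Ω) (R hh B : k[X]) (V : Polynomial Ω) (θ : k),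
      FamG p v (cadj v L u) T₁ ∧ Fl1 L (fun t => T₂ (0, t)) T₁ A u r R hh B V ∧
      HomE n b χ θ R hh B ∧ Eqv v n σ (cadj v L u) T₁ fun t => θ * t := by
  classical
  obtain ⟨V₁, hV₁, hV₁0, hatt₁⟩ := Fam.attA h0 h.dense hu.lim hsh hd h.id0 h.fam.mem
  obtain ⟨V, hV, hV0, hatt, hσV⟩ := he.exists_av hn hnk h.fam.mem h0 hχ hσu
    (fun y => iter_mul2 ha hb y) (fun φ hφ => mul_comp_PP a b hφ) hA hσA hV₁ hatt₁
    (x₀ := ((0 : k), (0 : k))) (by simp only [mul_zero]) hV₁0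
  have hVL : P0 L (PP (Pk k) (Pk k)) V := hV.p0 hA
  obtain ⟨T', hF', hT', hw'⟩ := h.fam.exists_lift (Q := PP (Pk k) (Pk k)) h0 hsc hval hu hVL hatt
    (fun y : k × k => y) (fun φ hφ => hφ) (κ := fun _ => 0) P0.zero (fun y => RVal.Ge.zero)
  have hw'' : ∀ y, T' y u = u + V y := fun y => by rw [hw', add_zero]
  have he' : Eqv v n σ (cadj v L u) T' (fun y => (a * y.1, b * y.2)) :=
    he.lift (π := fun y : k × k => y) (τ' := fun y => (a * y.1, b * y.2)) (κ := fun _ => 0) hχ hσu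
      hF'.iso (fun y => rfl) hT' hw' hσV fun y => by rw [map_zero, mul_zero]
  have hm : ∀ φ ∈ PP (Pk k) (Pk k), (fun y : (k × k) × (k × k) =>
      φ (y.1.1 + y.2.1, y.1.2 + y.2.2 + δ y.1.1 y.2.1)) ∈
      PP (PP (Pk k) (Pk k)) (PP (Pk k) (Pk k)) :=
    PP_law (m := fun s s' : k => s + s') (del := fun y => δ y.1 y.2) Pk_law h.bi
  obtain ⟨μ, hμ, hlaw⟩ := law_up0P
    (m := fun x x' : k × k => (x.1 + x'.1, x.2 + x'.2 + δ x.1 x'.1)) h0 h.fam hu hr hm h.law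
    hVL.pl hVL.mem hatt T' hF'.iso hT' hw''
  have hzc : ∀ x, Zc (PP (Pk k) (Pk k)) (Ss v (cadj v L u) T') x := fun x =>
    (h.dense x).mono fun y hy => mem_ss_of_irr hu hr hatt hVL.mem h.fam.mem hF'.iso hT' hw'' hy
  obtain ⟨U, hU, hUV⟩ := (hV.comp (fun t : k => ((0 : k), t)) axis2).exists_poly
  refine ⟨fun t => T' (0, t), X, 0, 0, U, b,
    { fam := hF'.comp _ axis2
      id0 := id_cadj hu (hF'.iso _) (fun f hf => by rw [hT' _ f hf]; exact h.id0 f hf) (by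
        rw [hw'', hV0, add_zero])
      ptw := fun t f hf b hb => hF'.ptw h0 (hzc (0, t)) hf hb
      null := fun t a ha τ hl => hF'.null h0 (hzc (0, t)) ha hl
      law := ⟨μ, hμ, fun t t' => ?_⟩ },
    { add := fadd_X
      ne := X_ne_zero
      addB := fadd_zero
      mem := hU
      rad := Or.inl ⟨rfl, rfl⟩
      on := fun t f hf => by rw [eval_X]; exact hT' _ f hf
      mv := fun t => ?_ }, homE_X χ hb, he'.iso, he'.mem, he'.ord, fun t f hf => ?_⟩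
  · have h1 := hlaw (0, t) (0, t')
    simp only at h1
    rw [h.d0, add_zero, add_zero] at h1
    exact h1
  · rw [hw'', hUV, eval_X, eval_zero, add_zero, map_zero, add_zero]
  · have h1 := he'.eqv (0, t) f hf
    simp only at h1 ⊢
    rw [h1, mul_zero]

/-- **One floor over a two parameter group, the floor is hit**, equivariant. -/
theorem GF2.floorE [IsAlgClosed k] [IsAlgClosed Ω] {p : ℕ} [hp : Fact p.Prime] [CharP k p]
    [CharP Ω p] (h0 : Ctx0 k v) (hc : CompleteV v) (hsc : SphC v)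
    (hval : ∀ ρ : ℝ, ∃ x : Ω, x ≠ 0 ∧ v x = ρ) (hL : Cld v L)
    {T₂ : k × k → Ω →ₐ[k] Ω} {δ : k → k → k} (h : GF2 v L T₂ δ)
    (hex : ∀ s s' : k, ∀ f ∈ L, T₂ (0, s) (T₂ (0, s') f) = T₂ (0, s + s') f)
    (hn : 0 < n) (hnk : (n : k) ≠ 0) {a b χ : k} (ha : a ^ n = 1) (hb : b ^ n = 1)
    (hχ : χ ^ n = 1) (he : Eqv v n σ L T₂ fun y => (a * y.1, b * y.2))
    (hσu : σ u = algebraMap k Ω χ * u)
    (hu : TL v L u r) (hr : r = 0 ∨ ∀ f ∈ L, f ≠ 0 → v f ≠ r)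
    (hA : ∀ f ∈ A, f ∈ L) (hσA : ∀ f ∈ A, σ f ∈ A)
    (hd : ∀ f ∈ L, ∀ B : ℝ, ∃ g ∈ A, v.Ge B (f - g))
    {ν : ℝ} {f : Polynomial Ω} (hf : f ∈ PI L) (hlim : LP p v (cadj v L u) ν (f.eval u))
    (hhit : ∃ l : ℕ, p ∣ l ∧ l ≠ 0 ∧
      ¬ PG p v (cadj v L u) (ν - l * r) ((taylor u f).coeff l)) :
    ∃ (T₁ : k → Ω →ₐ[k] Ω) (R hh B : k[X]) (V : Polynomial Ω) (θ : k),
      FamG p v (cadj v L u) T₁ ∧ Fl1 L (fun t => T₂ (0, t)) T₁ A u r R hh B V ∧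
      HomE n b χ θ R hh B ∧ Eqv v n σ (cadj v L u) T₁ fun t => θ * t := by
  have : Infinite k := IsAlgClosed.instInfinite
  obtain ⟨h1, h2⟩ := h.fsh_ax p h0 hc hL hu hf hlim hhit
  have hsh := GP.fsh h0 h.toGP h1 h2
  rcases hr with rfl | hr
  · obtain ⟨l, -, hl0, hl⟩ := hhit
    rw [mul_zero, sub_zero] at hl
    obtain ⟨V, R, B, hh, T₁, hV, -, hR, hR0, hB, -, hfam, hid, hon, hmv, hptw, hnull, -, hlaw, θ,
      hθ, hh1, hh2, hh3, he1⟩ := stepKE p h0 hc hsc hval h hn hnk ha hb hχ he hσu hu hsh hA hσA hd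
        hex hf hlim ⟨l, hl0, hl⟩
    exact ⟨T₁, R, hh, B, V, θ, ⟨hfam, hid, hptw, hnull, hlaw⟩,
      ⟨hR, hR0, hB, hV, Or.inr rfl, hon, hmv⟩, ⟨hθ, hh1, hh2, hh3⟩, he1⟩
  · exact h.floorE0 h0 hsc hval hn hnk ha hb hχ he hσu hu hr hsh hA hσA hd

end Pool.Agent.TWRZ
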