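import Pool.Agent.Lib.TWRZ.Fam

/-!
# TANK W, (Ru.Z): groups of motions with one and two parameters

* `Pk k`: the polynomial functions on `k`; `PP R Q`: the functions `∑ φ_i(x) ψ_i(y)`;
* `GF1 v L T`: a one parameter group of motions of `L`, modulo strict motions, infinitely many points
  are strict;
* `GP v L T δ`: a two parameter group; `GF2 v L T δ`: the strict points are dense.
-/

set_option autoImplicit false

open Polynomial

namespace Pool.Agent.TWRZ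

open Pool.Agent.H15JM (RVal)
open Pool.Agent.LU1 (VPos adj)
open Pool.Agent.D2 (Ctx0)
open Pool.Agent.D2P (hen clI mem_clI)
open Pool.Agent.TWM
open Pool.Agent.TWS
open Pool.Agent.TWCT (StrM map_cadj_le eq_on_cadj)

universe u

section Fun

variable {k : Type*} [Field k] {X Y Z : Type*}

variable (k) in
/-- The polynomial functions on `k`. -/
def Pk : Subalgebra k (k → k) where
  carrier := {f | ∃ P : Polynomial k, ∀ t, f t = P.eval t}
  mul_mem' := by
    rintro f g ⟨P, hP⟩ ⟨Q, hQ⟩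
    exact ⟨P * Q, fun t => by rw [Pi.mul_apply, hP, hQ, eval_mul]⟩
  add_mem' := by
    rintro f g ⟨P, hP⟩ ⟨Q, hQ⟩
    exact ⟨P + Q, fun t => by rw [Pi.add_apply, hP, hQ, eval_add]⟩
  algebraMap_mem' := fun c => ⟨C c, fun t => by rw [eval_C]; rfl⟩

theorem mem_Pk {f : k → k} : f ∈ Pk k ↔ ∃ P : Polynomial k, ∀ t, f t = P.eval t := Iff.rfl

theorem eval_mem_Pk (P : Polynomial k) : (fun t => P.eval t) ∈ Pk k := ⟨P, fun _ => rfl⟩

theorem id_mem_Pk : (fun t : k => t) ∈ Pk k := ⟨X, fun t => by rw [eval_X]⟩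

/-- The functions `∑ φ_i(x) ψ_i(y)`. -/
def PP (R : Subalgebra k (X → k)) (Q : Subalgebra k (Y → k)) : Subalgebra k (X × Y → k) where
  carrier := {f | ∃ (ι : Type) (_ : Fintype ι) (φ : ι → X → k) (ψ : ι → Y → k),
    (∀ i, φ i ∈ R) ∧ (∀ i, ψ i ∈ Q) ∧ ∀ z : X × Y, f z = ∑ i, φ i z.1 * ψ i z.2}
  mul_mem' := by
    rintro f g ⟨ι, hι, φ, ψ, h1, h2, h3⟩ ⟨ι', hι', φ', ψ', h1', h2', h3'⟩
    refine ⟨ι × ι', inferInstance, fun i => φ i.1 * φ' i.2, fun i => ψ i.1 * ψ' i.2,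
      fun i => mul_mem (h1 i.1) (h1' i.2), fun i => mul_mem (h2 i.1) (h2' i.2), fun z => ?_⟩
    rw [Pi.mul_apply, h3, h3', Finset.sum_mul_sum, Fintype.sum_prod_type]
    refine Finset.sum_congr rfl fun i _ => Finset.sum_congr rfl fun j _ => ?_
    change _ = φ i z.1 * φ' j z.1 * (ψ i z.2 * ψ' j z.2)
    ring
  add_mem' := by
    rintro f g ⟨ι, hι, φ, ψ, h1, h2, h3⟩ ⟨ι', hι', φ', ψ', h1', h2', h3'⟩
    refine ⟨ι ⊕ ι', inferInstance, Sum.elim φ φ', Sum.elim ψ ψ', ?_, ?_, fun z => ?_⟩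
    · rintro (i | i)
      exacts [h1 i, h1' i]
    · rintro (i | i)
      exacts [h2 i, h2' i]
    · rw [Pi.add_apply, h3, h3', Fintype.sum_sum_type]
      rfl
  algebraMap_mem' := fun c => ⟨Unit, inferInstance, fun _ => algebraMap k _ c, fun _ => 1,
    fun _ => R.algebraMap_mem c, fun _ => one_mem Q, fun z => by simp⟩

variable {R : Subalgebra k (X → k)} {Q : Subalgebra k (Y → k)} {A : Subalgebra k (Z → k)}

theorem mem_PP {f : X × Y → k} : f ∈ PP R Q ↔ ∃ (ι : Type) (_ : Fintype ι) (φ : ι → X → k)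
    (ψ : ι → Y → k), (∀ i, φ i ∈ R) ∧ (∀ i, ψ i ∈ Q) ∧ ∀ z : X × Y, f z = ∑ i, φ i z.1 * ψ i z.2 :=
  Iff.rfl

theorem fst_mem_PP {φ : X → k} (hφ : φ ∈ R) : (fun z : X × Y => φ z.1) ∈ PP R Q :=
  ⟨Unit, inferInstance, fun _ => φ, fun _ => 1, fun _ => hφ, fun _ => one_mem Q, fun z => by simp⟩

theorem snd_mem_PP {ψ : Y → k} (hψ : ψ ∈ Q) : (fun z : X × Y => ψ z.2) ∈ PP R Q :=
  ⟨Unit, inferInstance, fun _ => 1, fun _ => ψ, fun _ => one_mem R, fun _ => hψ, fun z => by simp⟩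

/-- A polynomial of a function. -/
theorem eval_mem {f : Z → k} (hf : f ∈ A) (P : Polynomial k) : (fun z => P.eval (f z)) ∈ A := by
  have e : (fun z => P.eval (f z)) = ∑ i ∈ Finset.range (P.natDegree + 1), P.coeff i • f ^ i := by
    funext z
    rw [eval_eq_sum_range, Finset.sum_apply]
    rfl
  rw [e]
  exact sum_mem fun i _ => A.smul_mem (pow_mem hf i) _

/-- Pull back of `PP R Q`. -/
theorem PP_comp {γ : Z → X} {γ' : Z → Y} (hγ : ∀ φ ∈ R, (fun z => φ (γ z)) ∈ A)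
    (hγ' : ∀ ψ ∈ Q, (fun z => ψ (γ' z)) ∈ A) {f : X × Y → k} (hf : f ∈ PP R Q) :
    (fun z => f (γ z, γ' z)) ∈ A := by
  obtain ⟨ι, hι, φ, ψ, h1, h2, h3⟩ := hf
  have e : (fun z => f (γ z, γ' z)) = ∑ i, (fun z => φ i (γ z)) * fun z => ψ i (γ' z) := by
    funext z
    rw [h3, Finset.sum_apply]
    rfl
  rw [e]
  exact sum_mem fun i _ => mul_mem (hγ _ (h1 i)) (hγ' _ (h2 i))

theorem Pk_comp {f : Z → k} (hf : f ∈ A) {φ : k → k} (hφ : φ ∈ Pk k) : (fun z => φ (f z)) ∈ A := by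
  obtain ⟨P, hP⟩ := hφ
  have e : (fun z => φ (f z)) = fun z => P.eval (f z) := funext fun z => hP _
  rw [e]
  exact eval_mem hf P

end Fun

variable {k Ω : Type u} [Field k] [Field Ω] [Algebra k Ω] {v : RVal Ω}

/-- A function of `P0 L (Pk k)` is a polynomial. -/
theorem P0.exists_poly {L : IntermediateField k Ω} {g : k → Ω} (hg : P0 L (Pk k) g) :
    ∃ U : Polynomial Ω, U ∈ PI L ∧ ∀ t, g t = U.eval (algebraMap k Ω t) := by
  obtain ⟨ι, hι, φ, c, h1, h2, h3⟩ := hg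
  choose P hP using h1
  refine ⟨∑ i, (P i).map (algebraMap k Ω) * C (c i), sum_mem fun i _ => mul_mem ?_ (C_mem_PI (h2 i)),
    fun t => ?_⟩
  · intro j
    rw [coeff_map]
    exact L.algebraMap_mem _
  · rw [h3, eval_finsetSum]
    refine Finset.sum_congr rfl fun i _ => ?_
    rw [eval_mul, eval_C, hP, eval_map, eval₂_at_apply]

/-- A function of `PS A (Pk k)` is a polynomial. -/
theorem PS.exists_poly {A : Submodule k Ω} {g : k → Ω} (hg : PS A (Pk k) g) :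
    ∃ U : Polynomial Ω, (∀ j, U.coeff j ∈ A) ∧ ∀ t, g t = U.eval (algebraMap k Ω t) := by
  obtain ⟨ι, hι, φ, c, h1, h2, h3⟩ := hg
  choose P hP using h1
  refine ⟨∑ i, (P i).map (algebraMap k Ω) * C (c i), fun j => ?_, fun t => ?_⟩
  · rw [finsetSum_coeff]
    refine sum_mem fun i _ => ?_
    rw [coeff_mul_C, coeff_map, ← Algebra.smul_def]
    exact A.smul_mem _ (h2 i)
  · rw [h3, eval_finsetSum]
    refine Finset.sum_congr rfl fun i _ => ?_
    rw [eval_mul, eval_C, hP, eval_map, eval₂_at_apply]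

/-- **A one parameter group of motions**, modulo strict motions. -/
structure GF1 (v : RVal Ω) (L : IntermediateField k Ω) (T : k → Ω →ₐ[k] Ω) : Prop where
  fam : Fam v L (Pk k) T
  id0 : ∀ f ∈ L, T 0 f = f
  law : ∃ μ : ℝ, 0 < μ ∧ ∀ s s' : k, NrM v ((T s).comp (T s')) (T (s + s')) L μ
  inf : (Ss v L T).Infinite

/-- A two parameter group of motions, modulo strict motions (nothing on the strict points). -/
structure GP (v : RVal Ω) (L : IntermediateField k Ω) (T : k × k → Ω →ₐ[k] Ω)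
    (δ : k → k → k) : Prop where
  fam : Fam v L (PP (Pk k) (Pk k)) T
  id0 : ∀ f ∈ L, T (0, 0) f = f
  law : ∃ μ : ℝ, 0 < μ ∧ ∀ x x' : k × k,
    NrM v ((T x).comp (T x')) (T (x.1 + x'.1, x.2 + x'.2 + δ x.1 x'.1)) L μ
  bi : (fun y : k × k => δ y.1 y.2) ∈ PP (Pk k) (Pk k)
  d0 : ∀ y, δ 0 y = 0
  d0' : ∀ y, δ y 0 = 0
  ax : ∀ s c : k, ∀ f ∈ L, T (s, c) f = T (s, 0) (T (0, c) f)
  ax' : ∀ s c : k, ∀ f ∈ L, T (s, c) f = T (0, c) (T (s, 0) f)

/-- **A two parameter group of motions**, modulo strict motions, the strict points are dense. -/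
structure GF2 (v : RVal Ω) (L : IntermediateField k Ω) (T : k × k → Ω →ₐ[k] Ω)
    (δ : k → k → k) : Prop extends GP v L T δ where
  dense : ∀ x, Zc (PP (Pk k) (Pk k)) (Ss v L T) x

/-- Infinite sets are dense in the line. -/
theorem zc_of_infinite {S : Set k} (hS : S.Infinite) (x : k) : Zc (Pk k) S x := by
  rintro φ ⟨P, hP⟩ h1
  have h2 : P = 0 := Polynomial.eq_zero_of_infinite_isRoot P (hS.mono fun s hs => by
    change P.eval s = 0
    rw [← hP]
    exact h1 s hs)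
  rw [hP, h2, eval_zero]

variable {L : IntermediateField k Ω} {T : k → Ω →ₐ[k] Ω} {T₂ : k × k → Ω →ₐ[k] Ω} {δ : k → k → k}

theorem GF1.dense (h : GF1 v L T) (x : k) : Zc (Pk k) (Ss v L T) x := zc_of_infinite h.inf x

/-- The first axis. -/
theorem GP.fam1 (h : GP v L T₂ δ) : Fam v L (Pk k) fun s => T₂ (s, 0) :=
  h.fam.comp (fun s => (s, 0)) fun _ hφ => PP_comp (γ := fun s : k => s) (γ' := fun _ : k => (0 : k))
    (fun _ h1 => h1) (fun _ h1 => Pk_comp (zero_mem _) h1) hφ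

/-- The second axis. -/
theorem GP.fam2 (h : GP v L T₂ δ) : Fam v L (Pk k) fun c => T₂ (0, c) :=
  h.fam.comp (fun c => (0, c)) fun _ hφ => PP_comp (γ := fun _ : k => (0 : k)) (γ' := fun c : k => c)
    (fun _ h1 => Pk_comp (zero_mem _) h1) (fun _ h1 => h1) hφ

end Pool.Agent.TWRZ
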