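import Pool.Agent.Lib.TWD.Vdm
import Pool.Agent.Lib.TWEX.CompN

/-!
# TANK W, exact arcs with many strict points: uniform expansions

`Xp v g a`: the function `g : k → Ω` is the sum of `t ^ l * a l`, uniformly in `t`.
-/

set_option autoImplicit false

open Finset

namespace Pool.Agent.TWRZ

open Pool.Agent.H15JM (RVal)
open Pool.Agent.D2 (Ctx0)
open Pool.Agent.D2P (clI mem_clI)
open Pool.Agent.TWM

universe u

variable {k Ω : Type u} [Field k] [Field Ω] [Algebra k Ω] {v : RVal Ω}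

theorem Ge.smul' (h : Ctx0 k v) {b : ℝ} {x : Ω} (hx : v.Ge b x) (c : k) : v.Ge b (c • x) := by
  rw [Algebra.smul_def]
  have h1 := (h.ge c).mul hx
  rwa [zero_add] at h1

/-- `O(≥ b)`. -/
def ges (h : Ctx0 k v) (b : ℝ) : Submodule k Ω where
  carrier := {x | v.Ge b x}
  add_mem' hx hy := RVal.Ge.add hx hy
  zero_mem' := RVal.Ge.zero
  smul_mem' c _ hx := Ge.smul' h hx c

theorem mem_ges (h : Ctx0 k v) {b : ℝ} {x : Ω} : x ∈ ges h b ↔ v.Ge b x := Iff.rfl

theorem ge_tpow (h : Ctx0 k v) (t : k) (l : ℕ) {b : ℝ} {x : Ω} (hx : v.Ge b x) :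
    v.Ge b (algebraMap k Ω t ^ l * x) := by
  rw [← map_pow]
  have h1 := (h.ge (t ^ l)).mul hx
  rwa [zero_add] at h1

/-- Values in a submodule, coefficient by coefficient. -/
theorem coef_mem (W : Submodule k Ω) {A : ℕ → Ω} {N : ℕ} {Θ : Set k} (hΘ : Θ.Infinite)
    (h : ∀ t ∈ Θ, ∑ l ∈ range N, algebraMap k Ω t ^ l * A l ∈ W) : ∀ l < N, A l ∈ W := by
  refine Pool.Agent.TWD.mem_of_vdm W hΘ fun t ht => ?_
  have e : ∑ l ∈ range N, t ^ l • A l = ∑ l ∈ range N, algebraMap k Ω t ^ l * A l :=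
    sum_congr rfl fun l _ => by rw [Algebra.smul_def, map_pow]
  rw [e]
  exact h t ht

/-- `g t = ∑ t ^ l * a l`, uniformly in `t`. -/
def Xp (v : RVal Ω) (g : k → Ω) (a : ℕ → Ω) : Prop :=
  ∀ B : ℝ, ∃ N : ℕ, ∀ M : ℕ, N ≤ M → ∀ t : k,
    v.Ge B (g t - ∑ l ∈ range M, algebraMap k Ω t ^ l * a l)

variable {g g' : k → Ω} {a a' : ℕ → Ω} {L : IntermediateField k Ω}

theorem Xp.tail (h : Xp v g a) (B : ℝ) : ∃ N : ℕ, ∀ l : ℕ, N ≤ l → v.Ge B (a l) := by
  obtain ⟨N, hN⟩ := h B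
  refine ⟨N, fun l hl => ?_⟩
  have h1 := (hN l hl 1).sub (hN (l + 1) (by omega) 1)
  rw [sum_range_succ, map_one, one_pow, one_mul] at h1
  have e : g 1 - ∑ x ∈ range l, (1 : Ω) ^ x * a x -
      (g 1 - (∑ x ∈ range l, (1 : Ω) ^ x * a x + a l)) = a l := by ring
  rwa [e] at h1

/-- A bound for all the coefficients. -/
theorem Xp.bdd (h : Xp v g a) : ∃ b : ℝ, ∀ l : ℕ, v.Ge b (a l) := by
  obtain ⟨N, hN⟩ := h.tail 0
  have h1 : ∀ n : ℕ, ∃ b : ℝ, ∀ l < n, v.Ge b (a l) := by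
    intro n
    induction n with
    | zero => exact ⟨0, fun l hl => absurd hl (Nat.not_lt_zero l)⟩
    | succ n ih =>
      obtain ⟨b, hb⟩ := ih
      refine ⟨min b (v (a n)), fun l hl => ?_⟩
      rcases Nat.lt_succ_iff_lt_or_eq.1 hl with h2 | rfl
      · exact (hb l h2).mono (min_le_left _ _)
      · exact (RVal.ge_self _).mono (min_le_right _ _)
  obtain ⟨b, hb⟩ := h1 N
  refine ⟨min b 0, fun l => ?_⟩
  rcases lt_or_ge l N with h2 | h2
  · exact (hb l h2).mono (min_le_left _ _)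
  · exact (hN l h2).mono (min_le_right _ _)

theorem Xp.ge (h0 : Ctx0 k v) (h : Xp v g a) {b : ℝ} (hb : ∀ l : ℕ, v.Ge b (a l)) (t : k) :
    v.Ge b (g t) := by
  obtain ⟨N, hN⟩ := h b
  have h1 := hN N le_rfl t
  have e : g t = (g t - ∑ l ∈ range N, algebraMap k Ω t ^ l * a l) +
      ∑ l ∈ range N, algebraMap k Ω t ^ l * a l := by ring
  rw [e]
  exact h1.add (RVal.Ge.sum _ _ fun l _ => ge_tpow h0 t l (hb l))

/-- The coefficients of a function with values in a submodule. -/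
theorem Xp.mem (h : Xp v g a) (W : Submodule k Ω) {B : ℝ} (hW : ∀ x : Ω, v.Ge B x → x ∈ W)
    {Θ : Set k} (hΘ : Θ.Infinite) (hg : ∀ t ∈ Θ, g t ∈ W) (l : ℕ) : a l ∈ W := by
  obtain ⟨N, hN⟩ := h B
  refine coef_mem W (N := max N (l + 1)) hΘ (fun t ht => ?_) l
    (lt_of_lt_of_le (Nat.lt_succ_self l) (le_max_right _ _))
  have h1 := hN (max N (l + 1)) (le_max_left _ _) t
  have e : ∑ l ∈ range (max N (l + 1)), algebraMap k Ω t ^ l * a l =
      g t - (g t - ∑ l ∈ range (max N (l + 1)), algebraMap k Ω t ^ l * a l) := by ring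
  rw [e]
  exact W.sub_mem (hg t ht) (hW _ h1)

theorem Xp.coef_ge [Infinite k] (h0 : Ctx0 k v) (h : Xp v g a) {b : ℝ} (hb : ∀ t, v.Ge b (g t))
    (l : ℕ) : v.Ge b (a l) :=
  h.mem (ges h0 b) (B := b) (fun _ hx => hx) (Set.infinite_univ) (fun t _ => hb t) l

theorem Xp.sub (h : Xp v g a) (h' : Xp v g' a') : Xp v (fun t => g t - g' t) fun l => a l - a' l := by
  intro B
  obtain ⟨N, hN⟩ := h B
  obtain ⟨N', hN'⟩ := h' B
  refine ⟨max N N', fun M hM t => ?_⟩
  have h1 := (hN M ((le_max_left _ _).trans hM) t).sub (hN' M ((le_max_right _ _).trans hM) t)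
  have e : g t - g' t - ∑ l ∈ range M, algebraMap k Ω t ^ l * (a l - a' l) =
      (g t - ∑ l ∈ range M, algebraMap k Ω t ^ l * a l) -
        (g' t - ∑ l ∈ range M, algebraMap k Ω t ^ l * a' l) := by
    simp only [mul_sub, sum_sub_distrib]
    ring
  rw [e]
  exact h1

theorem Xp.add (h : Xp v g a) (h' : Xp v g' a') : Xp v (fun t => g t + g' t) fun l => a l + a' l := by
  intro B
  obtain ⟨N, hN⟩ := h B
  obtain ⟨N', hN'⟩ := h' B
  refine ⟨max N N', fun M hM t => ?_⟩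
  have h1 := (hN M ((le_max_left _ _).trans hM) t).add (hN' M ((le_max_right _ _).trans hM) t)
  have e : g t + g' t - ∑ l ∈ range M, algebraMap k Ω t ^ l * (a l + a' l) =
      (g t - ∑ l ∈ range M, algebraMap k Ω t ^ l * a l) +
        (g' t - ∑ l ∈ range M, algebraMap k Ω t ^ l * a' l) := by
    simp only [mul_add, sum_add_distrib]
    ring
  rw [e]
  exact h1

theorem Xp.mul (h0 : Ctx0 k v) (h : Xp v g a) (h' : Xp v g' a') :
    Xp v (fun t => g t * g' t) fun l => ∑ i ∈ antidiagonal l, a i.1 * a' i.2 := by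
  intro B
  obtain ⟨b, hb⟩ := h.bdd
  obtain ⟨b', hb'⟩ := h'.bdd
  obtain ⟨N₁, h1⟩ := h (B - b')
  obtain ⟨N₂, h2⟩ := h' (B - b)
  obtain ⟨N₃, h3⟩ := h.tail (B - b')
  obtain ⟨N₄, h4⟩ := h'.tail (B - b)
  refine ⟨max (max N₁ N₂) (N₃ + N₄) + 1, fun M hM t => ?_⟩
  obtain ⟨M, rfl⟩ : ∃ M', M = M' + 1 := ⟨M - 1, by omega⟩
  have hM' : max (max N₁ N₂) (N₃ + N₄) ≤ M := by omega
  have hM1 : N₁ ≤ M + 1 := by
    have := (le_max_left N₁ N₂).trans ((le_max_left _ _).trans hM')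
    omega
  have hM2 : N₂ ≤ M + 1 := by
    have := (le_max_right N₁ N₂).trans ((le_max_left _ _).trans hM')
    omega
  have hM3 : N₃ + N₄ ≤ M := (le_max_right _ _).trans hM'
  set T : Ω := algebraMap k Ω t with hT
  set P : Ω := ∑ l ∈ range (M + 1), T ^ l * a l with hP
  set P' : Ω := ∑ l ∈ range (M + 1), T ^ l * a' l with hP'
  have e1 : P * P' = ∑ l ∈ range (M + 1), ∑ i ∈ range (M + 1), T ^ (i + l) * (a i * a' l) := by
    rw [hP, hP', sum_mul_sum, sum_comm]
    exact sum_congr rfl fun l _ => sum_congr rfl fun i _ => by rw [pow_add]; ring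
  have e2 : ∑ l ∈ range (M + 1), T ^ l * ∑ i ∈ antidiagonal l, a i.1 * a' i.2 =
      ∑ l ∈ range (M + 1), ∑ i ∈ range (M + 1),
        if i + l ≤ M then T ^ (i + l) * (a i * a' l) else 0 := by
    rw [← TWEX.sum_anti M fun i l => T ^ (i + l) * (a i * a' l)]
    refine sum_congr rfl fun n _ => ?_
    rw [mul_sum]
    exact sum_congr rfl fun i hi => by rw [HasAntidiagonal.mem_antidiagonal.1 hi]
  have e3 : g t * g' t - ∑ l ∈ range (M + 1), T ^ l * ∑ i ∈ antidiagonal l, a i.1 * a' i.2 =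
      (g t - P) * g' t + P * (g' t - P') + (P * P' -
        ∑ l ∈ range (M + 1), T ^ l * ∑ i ∈ antidiagonal l, a i.1 * a' i.2) := by ring
  show v.Ge B (g t * g' t - ∑ l ∈ range (M + 1), T ^ l * ∑ i ∈ antidiagonal l, a i.1 * a' i.2)
  rw [e3]
  refine RVal.Ge.add (RVal.Ge.add ?_ ?_) ?_
  · have h5 := (h1 (M + 1) hM1 t).mul (h'.ge h0 hb' t)
    exact h5.mono (by linarith)
  · have h5 : v.Ge b P := RVal.Ge.sum _ _ fun l _ => ge_tpow h0 t l (hb l)
    exact (h5.mul (h2 (M + 1) hM2 t)).mono (by linarith)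
  · rw [e1, e2, ← sum_sub_distrib]
    refine RVal.Ge.sum _ _ fun l _ => ?_
    rw [← sum_sub_distrib]
    refine RVal.Ge.sum _ _ fun i _ => ?_
    by_cases hil : i + l ≤ M
    · rw [if_pos hil, sub_self]
      exact RVal.Ge.zero
    · rw [if_neg hil, sub_zero]
      refine ge_tpow h0 t _ ?_
      rcases le_or_gt N₃ i with h5 | h5
      · exact ((h3 i h5).mul (hb' l)).mono (by linarith)
      · have h6 : N₄ ≤ l := by omega
        exact ((hb i).mul (h4 l h6)).mono (by linarith)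

/-- Uniqueness. -/
theorem Xp.unique [Infinite k] (h0 : Ctx0 k v) (h : Xp v g a) (h' : Xp v g a') : a = a' := by
  funext l
  rw [← sub_eq_zero]
  refine TWLM.eq_zero_of_ge (v := v) fun B => ?_
  refine (h.sub h').coef_ge h0 (fun t => ?_) l
  rw [sub_self]
  exact RVal.Ge.zero

theorem Xp.zero_eq (h : Xp v g a) : g 0 = a 0 := by
  rw [← sub_eq_zero]
  refine TWLM.eq_zero_of_ge (v := v) fun B => ?_
  obtain ⟨N, hN⟩ := h B
  have h1 := hN (N + 1) (by omega) 0
  have e : ∑ l ∈ range (N + 1), algebraMap k Ω 0 ^ l * a l = a 0 := by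
    rw [sum_eq_single 0]
    · rw [map_zero, pow_zero, one_mul]
    · intro l _ hl
      rw [map_zero, zero_pow hl, zero_mul]
    · intro h2
      exact absurd (mem_range.2 (Nat.succ_pos N)) h2
  rwa [e] at h1

theorem Xp.const (c : Ω) : Xp v (fun _ : k => c) fun l => if l = 0 then c else 0 := by
  intro B
  refine ⟨1, fun M hM t => ?_⟩
  have e : ∑ l ∈ range M, algebraMap k Ω t ^ l * (if l = 0 then c else 0) = c := by
    rw [sum_eq_single 0]
    · rw [if_pos rfl, pow_zero, one_mul]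
    · intro l _ hl
      rw [if_neg hl, mul_zero]
    · intro h2
      exact absurd (mem_range.2 (by omega)) h2
  rw [e, sub_self]
  exact RVal.Ge.zero

/-- From approximations by polynomials to an expansion. -/
theorem exists_xp [Infinite k] (h0 : Ctx0 k v) (hc : CompleteV v) (hL : Cld v L)
    (h : ∀ B : ℝ, ∃ (N : ℕ) (q : ℕ → Ω), (∀ l, q l ∈ L) ∧
      ∀ t : k, v.Ge B (g t - ∑ l ∈ range N, algebraMap k Ω t ^ l * q l)) :
    ∃ a : ℕ → Ω, (∀ l, a l ∈ L) ∧ Xp v g a := by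
  -- padded approximations
  have h' : ∀ n : ℕ, ∃ (N : ℕ) (q : ℕ → Ω), (∀ l, q l ∈ L) ∧ (∀ l, N ≤ l → q l = 0) ∧
      ∀ t : k, v.Ge n (g t - ∑ l ∈ range N, algebraMap k Ω t ^ l * q l) := by
    intro n
    obtain ⟨N, q, hq, h1⟩ := h n
    refine ⟨N, fun l => if l < N then q l else 0, fun l => ?_, fun l hl => if_neg (not_lt.2 hl),
      fun t => ?_⟩
    · show (if l < N then q l else 0) ∈ L
      split_ifs
      exacts [hq l, L.zero_mem]
    · have e : ∑ l ∈ range N, algebraMap k Ω t ^ l * (if l < N then q l else 0) =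
          ∑ l ∈ range N, algebraMap k Ω t ^ l * q l :=
        sum_congr rfl fun l hl => by rw [if_pos (mem_range.1 hl)]
      rw [e]
      exact h1 t
  choose N q hqL hq0 hq using h'
  have hpad : ∀ n M : ℕ, N n ≤ M → ∀ t : k,
      v.Ge n (g t - ∑ l ∈ range M, algebraMap k Ω t ^ l * q n l) := by
    intro n M hM t
    have e : ∑ l ∈ range M, algebraMap k Ω t ^ l * q n l =
        ∑ l ∈ range (N n), algebraMap k Ω t ^ l * q n l := by
      refine (sum_subset (range_mono hM) fun l _ hl => ?_).symm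
      rw [hq0 n l (not_lt.1 fun h1 => hl (mem_range.2 h1)), mul_zero]
    rw [e]
    exact hq n t
  have hdiff : ∀ (n m : ℕ) (l : ℕ), n ≤ m → v.Ge n (q n l - q m l) := by
    intro n m l hnm
    refine coef_mem (ges h0 n) (A := fun l => q n l - q m l)
      (N := max (max (N n) (N m)) (l + 1)) Set.infinite_univ (fun t _ => ?_) l
      (lt_of_lt_of_le (Nat.lt_succ_self l) (le_max_right _ _))
    have h1 := hpad n (max (max (N n) (N m)) (l + 1)) ((le_max_left _ _).trans (le_max_left _ _)) t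
    have h2 := hpad m (max (max (N n) (N m)) (l + 1)) ((le_max_right _ _).trans (le_max_left _ _)) t
    have h3 := (h2.mono (show (n : ℝ) ≤ m by exact_mod_cast hnm)).sub h1
    rw [mem_ges]
    have e : ∑ l ∈ range (max (max (N n) (N m)) (l + 1)),
        algebraMap k Ω t ^ l * (q n l - q m l) =
        g t - ∑ l ∈ range (max (max (N n) (N m)) (l + 1)), algebraMap k Ω t ^ l * q m l -
        (g t - ∑ l ∈ range (max (max (N n) (N m)) (l + 1)), algebraMap k Ω t ^ l * q n l) := by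
      simp only [mul_sub, sum_sub_distrib]
      ring
    rw [e]
    exact h3
  have hlim : ∀ l : ℕ, ∃ x ∈ L, ∀ n : ℕ, v.Ge n (x - q n l) := by
    intro l
    obtain ⟨x, hx⟩ := hc (fun n => q n l) fun c => by
      obtain ⟨n, hn⟩ := exists_nat_ge c
      refine ⟨n, fun m m' hm hm' => ?_⟩
      have h1 := ((hdiff n m' l hm').sub (hdiff n m l hm)).mono hn
      have e : q n l - q m' l - (q n l - q m l) = q m l - q m' l := by ring
      rwa [e] at h1
    refine ⟨x, hL (mem_clI.2 fun c => ?_), fun n => ?_⟩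
    · obtain ⟨n, hn⟩ := hx c
      exact ⟨q n l, hqL n l, hn n le_rfl⟩
    · obtain ⟨m, hm⟩ := hx n
      have h1 := (hm (max m n) (le_max_left _ _)).sub (hdiff n (max m n) l (le_max_right _ _))
      have e : x - q (max m n) l - (q n l - q (max m n) l) = x - q n l := by ring
      rwa [e] at h1
  choose a haL ha using hlim
  refine ⟨a, haL, fun B => ?_⟩
  obtain ⟨n, hn⟩ := exists_nat_ge B
  refine ⟨N n, fun M hM t => ?_⟩
  have e : g t - ∑ l ∈ range M, algebraMap k Ω t ^ l * a l =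
      (g t - ∑ l ∈ range M, algebraMap k Ω t ^ l * q n l) -
        ∑ l ∈ range M, algebraMap k Ω t ^ l * (a l - q n l) := by
    simp only [mul_sub, sum_sub_distrib]
    ring
  rw [e]
  exact ((hpad n M hM t).sub (RVal.Ge.sum _ _ fun l _ => ge_tpow h0 t l (ha l n))).mono hn

end Pool.Agent.TWRZ
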