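import Pool.Agent.Lib.TWRL.Add

/-!
# TANK W, (Ru.Z): left common multiples of additive polynomials

* `exists_rdiv`: right division; `exists_lore`: `E ∘ B = A ∘ α` with `E ≠ 0`.
-/

set_option autoImplicit false

open Polynomial

namespace Pool.Agent.TWRZ

open TWRL (FAdd Addv deg_drop)

variable {k : Type*} [Field k] [IsAlgClosed k] (p : ℕ) [hp : Fact p.Prime] [CharP k p]

include p in
/-- Right division. -/
theorem exists_rdiv {Q : k[X]} (hQ : FAdd Q) (hQ0 : Q ≠ 0) (N : ℕ) :
    ∀ A : k[X], FAdd A → A.natDegree ≤ N → ∃ B A1 : k[X], FAdd B ∧ FAdd A1 ∧ A = B.comp Q + A1 ∧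
      (A1 = 0 ∨ A1.natDegree < Q.natDegree) := by
  obtain ⟨m, hm⟩ := (hQ.addv p).natDegree p hQ0
  induction N with
  | zero =>
    intro A hA hd
    refine ⟨0, A, FAdd.zero, hA, by simp, Or.inl ?_⟩
    have h0 := hA.eval_zero
    rw [Polynomial.eq_C_of_natDegree_le_zero hd] at h0 ⊢
    simp only [Polynomial.eval_C] at h0
    rw [h0, map_zero]
  | succ N ih =>
    intro A hA hd
    by_cases hc : A.coeff (N + 1) = 0
    · exact ih A hA (deg_drop hd hc)
    have hA0 : A ≠ 0 := by
      rintro rfl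
      simp at hc
    have hdN : A.natDegree = N + 1 := le_antisymm hd (Polynomial.le_natDegree_of_ne_zero hc)
    obtain ⟨n, hn⟩ := (hA.addv p).natDegree p hA0
    by_cases hlt : A.natDegree < Q.natDegree
    · exact ⟨0, A, FAdd.zero, hA, by simp, Or.inr hlt⟩
    have hmn : m ≤ n := by
      rw [hn, hm, not_lt] at hlt
      exact (Nat.pow_le_pow_iff_right hp.out.one_lt).1 hlt
    have hq : Q.leadingCoeff ≠ 0 := fun e => hQ0 (Polynomial.leadingCoeff_eq_zero.1 e)
    obtain ⟨b, hb⟩ : ∃ b, b = A.coeff (N + 1) / Q.leadingCoeff ^ p ^ (n - m) := ⟨_, rfl⟩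
    have hb0 : b ≠ 0 := by
      rw [hb]
      exact div_ne_zero hc (pow_ne_zero _ hq)
    have hcn : (C b * X ^ p ^ (n - m) : k[X]).natDegree = p ^ (n - m) := by
      rw [Polynomial.natDegree_C_mul_X_pow _ b hb0]
    have hdeg : ((C b * X ^ p ^ (n - m) : k[X]).comp Q).natDegree = N + 1 := by
      rw [Polynomial.natDegree_comp, hm, hcn, ← pow_add, Nat.sub_add_cancel hmn, ← hdN, hn]
    have hlc : ((C b * X ^ p ^ (n - m) : k[X]).comp Q).coeff (N + 1) = A.coeff (N + 1) := by
      have h1 := Polynomial.leadingCoeff_comp (p := (C b * X ^ p ^ (n - m) : k[X])) (q := Q)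
        (by rw [hm]; exact (pow_pos hp.out.pos _).ne')
      have h2 : (C b * X ^ p ^ (n - m) : k[X]).leadingCoeff = b := by
        rw [Polynomial.leadingCoeff_C_mul_X_pow]
      rw [hcn, h2, Polynomial.leadingCoeff, hdeg] at h1
      rw [h1, hb, div_mul_cancel₀ _ (pow_ne_zero _ hq)]
    have hle : (A - (C b * X ^ p ^ (n - m) : k[X]).comp Q).natDegree ≤ N + 1 :=
      (Polynomial.natDegree_sub_le _ _).trans (max_le hd hdeg.le)
    have hc0 : (A - (C b * X ^ p ^ (n - m) : k[X]).comp Q).coeff (N + 1) = 0 := by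
      rw [Polynomial.coeff_sub, hlc, sub_self]
    have hmono : FAdd (C b * X ^ p ^ (n - m) : k[X]) := FAdd.mono p b _
    obtain ⟨B, A1, hB, hA1, e, hor⟩ := ih _ (hA.sub (hmono.comp hQ)) (deg_drop hle hc0)
    refine ⟨C b * X ^ p ^ (n - m) + B, A1, hmono.add hB, hA1, ?_, hor⟩
    rw [Polynomial.add_comp]
    linear_combination e

include p in
/-- **Left common multiples.** -/
theorem exists_lore (N : ℕ) : ∀ α B : k[X], FAdd α → FAdd B → α ≠ 0 → α.natDegree ≤ N →
    ∃ E A : k[X], FAdd E ∧ FAdd A ∧ E ≠ 0 ∧ E.comp B = A.comp α := by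
  induction N with
  | zero =>
    intro α B hα _ hα0 hd
    exfalso
    have h0 := hα.eval_zero
    rw [Polynomial.eq_C_of_natDegree_le_zero hd] at h0
    simp only [Polynomial.eval_C] at h0
    rw [Polynomial.eq_C_of_natDegree_le_zero hd, h0, map_zero] at hα0
    exact hα0 rfl
  | succ N ih =>
    intro α B hα hB hα0 hd
    obtain ⟨Q, r, hQ, hr, e, hor⟩ := exists_rdiv p hα hα0 B.natDegree B hB le_rfl
    by_cases hr0 : r = 0
    · refine ⟨X, Q, FAdd.X, hQ, Polynomial.X_ne_zero, ?_⟩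
      rw [Polynomial.X_comp, e, hr0, add_zero]
    have hlt : r.natDegree < α.natDegree := hor.resolve_left hr0
    obtain ⟨E, A, hE, hA, hE0, e2⟩ := ih r α hr hα hr0 (by omega)
    have hA0 : A ≠ 0 := by
      rintro rfl
      rw [Polynomial.zero_comp] at e2
      rcases Polynomial.comp_eq_zero_iff.1 e2 with h | ⟨h1, h2⟩
      · exact hE0 h
      · have := hα.eval_zero
        rw [h2, Polynomial.eval_C] at this
        rw [this, map_zero] at h2
        exact hα0 h2
    refine ⟨A, A.comp Q + E, hA, (hA.comp hQ).add hE, hA0, ?_⟩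
    rw [e, hA.comp_add, Polynomial.add_comp, Polynomial.comp_assoc, e2]

end Pool.Agent.TWRZ
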