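import Pool.Agent.Lib.TWRZ.Exu
import Pool.Agent.Lib.TWCT.ConS
import Pool.Agent.Lib.TWCY.Mot

/-!
# TANK W: the motions of the frame `W⟨w⟩⟨u⟩⟨z⟩`

* `SMo.base`: a strict motion of `cl B(w)` which maps `B` to `B` is a strict motion of `B`;
* `MotB`: a strict motion of `C = cl W(w)`, `F = cl C(u)`, `K = cl F(z)`, with the displacements
  `X ∈ W`, `Y ∈ C`, `Z ∈ F`;
* `exists_motB`: it exists, above a strict motion of `C`;
* `MovV.exists_motB`, `MovR.exists_motB`: from the motions of `w`;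
* `App`: approximation by polynomials over the fields `L J`.
-/

set_option autoImplicit false

open Polynomial

namespace Pool.Agent.TWRZ

open Pool.Agent.H15JM (RVal)
open Pool.Agent.D2 (Ctx0)
open Pool.Agent.D2P (clI mem_clI)
open Pool.Agent.TWM
open Pool.Agent.TWS
open Pool.Agent.TWCT (StrM eq_on_cadj SMo MovV MovR)
open Pool.Agent.TWCY (MI)

universe u

variable {k Ω : Type u} [Field k] [Field Ω] [Algebra k Ω] {v : RVal Ω}
  {A B W F : IntermediateField k Ω} {w u z : Ω} {Φ : Ω →ₐ[k] Ω} {η s : ℝ}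
  {L : ℕ → IntermediateField k Ω}

/-- Restriction to the base. -/
theorem SMo.base (h : SMo v A (cadj v B w) Φ η) (hB : SMo v A B Φ s) : SMo v A B Φ η where
  pos := h.pos
  iso := h.iso
  fix := h.fix
  map := hB.map
  str a ha r hr := h.str a (le_cadj v B w ha) r hr

/-- **A motion of the tower.** -/
structure MotB (v : RVal Ω) (A W : IntermediateField k Ω) (w u z : Ω) (Φ : Ω →ₐ[k] Ω) (η : ℝ)
    (X Y Z : Ω) : Prop where
  mW : SMo v A W Φ η
  mC : SMo v A (cadj v W w) Φ η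
  mF : SMo v A (cadj v (cadj v W w) u) Φ η
  mK : SMo v A (cadj v (cadj v (cadj v W w) u) z) Φ η
  XW : X ∈ W
  YC : Y ∈ cadj v W w
  ZF : Z ∈ cadj v (cadj v W w) u
  dw : Φ w = w + X
  du : Φ u = u + Y
  dz : Φ z = z + Z

/-- The natural extension to a floor. -/
theorem exists_ext_nat [IsAlgClosed Ω] (hk : Ctx0 k v) (hsp : SphC v)
    (hval : ∀ ρ : ℝ, ∃ x : Ω, x ≠ 0 ∧ v x = ρ) (hcv : CompleteV v) (hAB : A ≤ B)
    (h : SMo v A B Φ η) (hw : TL v B w s) :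
    ∃ (Φ' : Ω →ₐ[k] Ω) (η' : ℝ) (ω : Ω), η' ≤ η ∧ SMo v A B Φ' η' ∧ SMo v A (cadj v B w) Φ' η' ∧
      (∀ b ∈ B, Φ' b = Φ b) ∧ Φ' w = w + ω ∧ ω ∈ B ∧
      ∃ c ∈ B, v.Ge (s - η / 2) (w - c) ∧ ω = Φ c - c := by
  obtain ⟨c, hc, hcw⟩ := hw.lim (η / 2) (half_pos h.pos)
  obtain ⟨Φ', η', h1, h2, h3, h4, h5⟩ := h.ext hk hsp hval hcv hAB hw hc hcw
    (sub_mem (h.mem hc) hc) (by rw [sub_self]; exact Gt.zero)
  exact ⟨Φ', η', _, h1, h2, h3, h4, h5, sub_mem (h.mem hc) hc, c, hc, hcw, rfl⟩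

/-- **The motions of the tower exist**, above a strict motion of `C`. -/
theorem exists_motB [IsAlgClosed Ω] (hk : Ctx0 k v) (hsp : SphC v)
    (hval : ∀ ρ : ℝ, ∃ x : Ω, x ≠ 0 ∧ v x = ρ) (hcv : CompleteV v) (hAW : A ≤ W)
    (hu : TL v (cadj v W w) u 0) (hz : TL v (cadj v (cadj v W w) u) z 0)
    (h1 : SMo v A W Φ η) (h2 : SMo v A (cadj v W w) Φ η) {X : Ω} (hX : X ∈ W)
    (hw : Φ w = w + X) :
    ∃ (Φ' : Ω →ₐ[k] Ω) (η' : ℝ) (Y Z : Ω), η' ≤ η ∧ (∀ b ∈ cadj v W w, Φ' b = Φ b) ∧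
      MotB v A W w u z Φ' η' X Y Z := by
  have hAC : A ≤ cadj v W w := hAW.trans (le_cadj v W w)
  have hAF : A ≤ cadj v (cadj v W w) u := hAC.trans (le_cadj v _ u)
  obtain ⟨Φ₁, η₁, Y, ha1, ha2, ha3, ha4, ha5, ha6, -⟩ := exists_ext_nat hk hsp hval hcv hAC h2 hu
  obtain ⟨Φ₂, η₂, Z, hb1, hb2, hb3, hb4, hb5, hb6, -⟩ := exists_ext_nat hk hsp hval hcv hAF ha3 hz
  have hC : ∀ b ∈ cadj v W w, Φ₂ b = Φ b := fun b hb => by
    rw [hb4 b (le_cadj v _ u hb), ha4 b hb]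
  have e1 : SMo v A (cadj v W w) Φ₂ η₂ := by
    have h3 := (h2.congr hAC hb3.iso hC).mono le_rfl hb3.pos (hb1.trans ha1)
    exact h3
  have e2 : SMo v A W Φ₂ η₂ :=
    (h1.congr hAW hb3.iso fun b hb => hC b (le_cadj v W w hb)).mono le_rfl hb3.pos (hb1.trans ha1)
  refine ⟨Φ₂, η₂, Y, Z, hb1.trans ha1, hC, ⟨e2, e1, hb2, hb3, hX, ha6, hb6, ?_, ?_, hb5⟩⟩
  · rw [hC w (self_mem_cadj v W w), hw]
  · rw [hb4 u (self_mem_cadj v _ u), ha5]

/-- Visible motions. -/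
theorem MovV.exists_motB [IsAlgClosed Ω] (hk : Ctx0 k v) (hsp : SphC v)
    (hval : ∀ ρ : ℝ, ∃ x : Ω, x ≠ 0 ∧ v x = ρ) (hcv : CompleteV v) (hLW : ∀ J, L J ≤ W)
    (hu : TL v (cadj v W w) u 0) (hz : TL v (cadj v (cadj v W w) u) z 0)
    (h : MovV v L W w 0) (J : ℕ) {ε : ℝ} (hε : 0 < ε) :
    ∃ (Φ : Ω →ₐ[k] Ω) (η : ℝ) (X Y Z : Ω), MotB v (L J) W w u z Φ η X Y Z ∧ X ≠ 0 ∧
      -ε < v X ∧ v X < 0 := by
  obtain ⟨Φ, η, X, h1, h2, h3, h4, h5, h6, h7⟩ := h J ε hε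
  obtain ⟨Φ', η', Y, Z, -, -, h8⟩ := TWRZ.exists_motB hk hsp hval hcv (hLW J) hu hz h1 h2 h4 h3
  exact ⟨Φ', η', X, Y, Z, h8, h5, by rwa [zero_sub] at h6, h7⟩

/-- Residual motions. -/
theorem MovR.exists_motB [IsAlgClosed Ω] (hk : Ctx0 k v) (hsp : SphC v)
    (hval : ∀ ρ : ℝ, ∃ x : Ω, x ≠ 0 ∧ v x = ρ) (hcv : CompleteV v) (hLW : ∀ J, L J ≤ W)
    (hu : TL v (cadj v W w) u 0) (hz : TL v (cadj v (cadj v W w) u) z 0)
    (h : MovR v L W w 0) :
    ∃ t ∈ W, t ≠ 0 ∧ v t = 0 ∧ ∀ (J : ℕ) (R : Finset k),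
      ∃ (Φ : Ω →ₐ[k] Ω) (η : ℝ) (c : k) (Y Z : Ω), c ∉ R ∧
        MotB v (L J) W w u z Φ η (algebraMap k Ω c * t) Y Z := by
  obtain ⟨t, ht, ht0, hvt, h⟩ := h
  refine ⟨t, ht, ht0, hvt, fun J R => ?_⟩
  obtain ⟨Φ, η, c, h1, h2, h3, h4⟩ := h J R
  obtain ⟨Φ', η', Y, Z, -, -, h8⟩ := TWRZ.exists_motB hk hsp hval hcv (hLW J) hu hz h2 h3
    (mul_mem (W.algebraMap_mem c) ht) h4
  exact ⟨Φ', η', c, Y, Z, h1, h8⟩

/-! ### Approximation by polynomials over the fields `L J` -/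

section App

open MvPolynomial

/-- `f` is a limit of polynomials in `x` over the fields `L J`. -/
def App (v : RVal Ω) (L : ℕ → IntermediateField k Ω) (x : Fin 2 → Ω) (f : Ω) : Prop :=
  ∀ B : ℝ, ∃ J, ∃ q ∈ MI (L J), v.Ge B (f - MvPolynomial.eval x q)

variable {x : Fin 2 → Ω} {f g : Ω}

theorem App.add (hL : Monotone L) (hf : App v L x f) (hg : App v L x g) : App v L x (f + g) := by
  intro B
  obtain ⟨J, q, hq, h1⟩ := hf B
  obtain ⟨J', q', hq', h2⟩ := hg B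
  refine ⟨max J J', q + q', add_mem (TWCY.mem_MI_mono (hL (le_max_left J J')) hq)
    (TWCY.mem_MI_mono (hL (le_max_right J J')) hq'), ?_⟩
  rw [map_add, add_sub_add_comm]
  exact h1.add h2

theorem App.mul (hL : Monotone L) (hf : App v L x f) (hg : App v L x g) : App v L x (f * g) := by
  intro B
  obtain ⟨b, hb⟩ : ∃ b : ℝ, v.Ge b g := ⟨v g, RVal.ge_self g⟩
  obtain ⟨J, q, hq, h1⟩ := hf (B - b)
  obtain ⟨b', hb'⟩ : ∃ b : ℝ, v.Ge b (MvPolynomial.eval x q) := ⟨_, RVal.ge_self _⟩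
  obtain ⟨J', q', hq', h2⟩ := hg (B - b')
  refine ⟨max J J', q * q', mul_mem (TWCY.mem_MI_mono (hL (le_max_left J J')) hq)
    (TWCY.mem_MI_mono (hL (le_max_right J J')) hq'), ?_⟩
  rw [map_mul]
  have e : f * g - MvPolynomial.eval x q * MvPolynomial.eval x q' =
      (f - MvPolynomial.eval x q) * g + MvPolynomial.eval x q * (g - MvPolynomial.eval x q') := by
    ring
  rw [e]
  exact ((h1.mul hb).mono (by linarith)).add ((hb'.mul h2).mono (by linarith))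

theorem App.lim (h : ∀ B : ℝ, ∃ g, App v L x g ∧ v.Ge B (f - g)) : App v L x f := by
  intro B
  obtain ⟨g, hg, h1⟩ := h B
  obtain ⟨J, q, hq, h2⟩ := hg B
  refine ⟨J, q, hq, ?_⟩
  have e : f - MvPolynomial.eval x q = (f - g) + (g - MvPolynomial.eval x q) := by ring
  rw [e]
  exact h1.add h2

theorem App.var (i : Fin 2) : App v L x (x i) := fun B => ⟨0, MvPolynomial.X i, TWCY.X_mem_MI i, by
  rw [MvPolynomial.eval_X, sub_self]
  exact RVal.Ge.zero⟩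

theorem App.const (hL : Monotone L) (hd : W ≤ clI v (⨆ J, L J)) (hf : f ∈ W) : App v L x f := by
  intro B
  obtain ⟨c, h2, h3⟩ := (mem_clI.1 (hd hf)) B
  have h2' : c ∈ ((⨆ n, L n : IntermediateField k Ω) : Set Ω) := h2
  rw [IntermediateField.coe_iSup_of_directed hL.directed_le, Set.mem_iUnion] at h2'
  obtain ⟨J, h4⟩ := h2'
  refine ⟨J, MvPolynomial.C c, TWCY.C_mem_MI h4, ?_⟩
  rw [MvPolynomial.eval_C]
  exact h3

theorem App.zero : App v L x 0 := fun B => ⟨0, 0, zero_mem _, by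
  rw [map_zero, sub_self]
  exact RVal.Ge.zero⟩

theorem App.pow (hL : Monotone L) (hf : App v L x f) (n : ℕ) : App v L x (f ^ n) := by
  induction n with
  | zero => exact fun B => ⟨0, 1, one_mem _, by
      rw [map_one, pow_zero, sub_self]
      exact RVal.Ge.zero⟩
  | succ n ih =>
    rw [pow_succ]
    exact ih.mul hL hf

theorem App.sum (hL : Monotone L) {ι : Type*} (S : Finset ι) {f : ι → Ω}
    (hf : ∀ i ∈ S, App v L x (f i)) : App v L x (∑ i ∈ S, f i) := by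
  classical
  induction S using Finset.induction_on with
  | empty =>
    rw [Finset.sum_empty]
    exact App.zero
  | insert a S ha ih =>
    rw [Finset.sum_insert ha]
    exact (hf a (Finset.mem_insert_self a S)).add hL
      (ih fun i hi => hf i (Finset.mem_insert_of_mem hi))

/-- One floor. -/
theorem App.floor [IsAlgClosed Ω] (hL : Monotone L) (hw : TL v B w s)
    (hB : ∀ b ∈ B, App v L x b) (hxw : App v L x w) (hf : f ∈ cadj v B w) : App v L x f := by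
  refine App.lim fun b => ?_
  obtain ⟨g, hg, h1⟩ := hw.dense hf b
  refine ⟨g.eval w, ?_, h1⟩
  rw [Polynomial.eval_eq_sum_range]
  exact App.sum hL _ fun i _ => (hB _ (hg i)).mul hL (hxw.pow hL i)

/-- **Approximation by polynomials over the fields `L J`.** -/
theorem app_F [IsAlgClosed Ω] (hL : Monotone L) (hd : W ≤ clI v (⨆ J, L J)) (hw : TL v W w s)
    {t : ℝ} (hu : TL v (cadj v W w) u t) (hx0 : x 0 = w) (hx1 : x 1 = u)
    (hf : f ∈ cadj v (cadj v W w) u) : App v L x f := by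
  refine App.floor hL hu (fun b hb => ?_) ?_ hf
  · refine App.floor hL hw (fun c hc => App.const hL hd hc) ?_ hb
    rw [← hx0]
    exact App.var 0
  · rw [← hx1]
    exact App.var 1

/-- The same for `C`, polynomials in `w` alone (both variables are `w`). -/
theorem app_C [IsAlgClosed Ω] (hL : Monotone L) (hd : W ≤ clI v (⨆ J, L J)) (hw : TL v W w s)
    (hx0 : x 0 = w) (hf : f ∈ cadj v W w) : App v L x f := by
  refine App.floor hL hw (fun c hc => App.const hL hd hc) ?_ hf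
  rw [← hx0]
  exact App.var 0

end App

end Pool.Agent.TWRZ
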