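import Pool.Agent.Lib.TWRZ.DesE
import Pool.Agent.Lib.TWRZ.TriE

/-!
# TANK W, (Ru.Z): the weight zero component

`SigD.mue`: `SigD` gives `MuE`; `SigD.pg_of`: an element of `K` near the `p`-th powers of `K(e)` is
near the `p`-th powers of `K`.
-/

set_option autoImplicit false

open Polynomial

namespace Pool.Agent.TWRZ

open Pool.Agent.H15JM (RVal)
open Pool.Agent.LU1 (VPos adj)
open Pool.Agent.D2 (Ctx0)
open Pool.Agent.TWM
open Pool.Agent.TWS
open Pool.Agent.TWII (PG LP)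

universe u

variable {k Ω : Type u} [Field k] [Field Ω] [Algebra k Ω] {v : RVal Ω}
  {K : IntermediateField k Ω} {e : Ω} {n : ℕ} {ζ : k} {σ : Ω →ₐ[k] Ω}

theorem iterate_eq_pow (σ : Ω →ₐ[k] Ω) (i : ℕ) (f : Ω) : σ^[i] f = (σ ^ i) f := by
  induction i with
  | zero => rfl
  | succ i ih =>
    rw [Function.iterate_succ_apply', ih, pow_succ']
    rfl

theorem SigD.mue (h0 : Ctx0 k v) (h : SigD v K e n ζ σ) : MuE v K (adj K e) e n ζ σ where
  triv := h0.ge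
  m0 := h.nk
  le := (D2P.mem_adj_self K e).2
  iso := h.iso
  map := h.map
  per f hf := by
    rw [iterate_eq_pow]
    exact h.ord f hf
  fix := h.fix
  inv := h.inv
  cK := (D2P.mem_adj_self K e).1
  c0 := h.gd.ne
  sc := h.se
  prim := h.prim

/-- An element of `K` near the `p`-th powers of `K(e)`. -/
theorem SigD.pg_of (p : ℕ) [hp : Fact p.Prime] [CharP k p] [CharP Ω p] (h0 : Ctx0 k v)
    (h : SigD v K e n ζ σ) {u : Ω} (hu : u ∈ K) {τ : ℝ} (h1 : PG p v (adj K e) τ u) :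
    PG p v K τ u := by
  obtain ⟨g, hg, h1⟩ := h1
  have hm := h.mue h0
  refine ⟨cmp n ζ σ 0 g, hm.cmp_zero_mem hg, ?_⟩
  have e1 : u - cmp n ζ σ 0 g ^ p = cmp n ζ σ 0 (u - g ^ p) := by
    rw [cmp_sub, cmp_pow p, hm.cmp_self hu]
  rw [e1]
  exact hm.cmp_gt 0 h1

/-- A `p`-th power of `e`, of a given weight. -/
theorem SigD.exists_wt (p : ℕ) [hp : Fact p.Prime] [CharP k p] [IsAlgClosed k]
    (h : SigD v K e n ζ σ) {θ : k} (hθ : θ ^ n = 1) : ∃ j : ℕ, ζ ^ (p * j) = θ := by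
  obtain ⟨θ', hθ'⟩ := IsAlgClosed.exists_pow_nat_eq θ hp.out.pos
  have h1 : θ' ^ n = 1 := by
    have h2 : (θ' ^ n) ^ p = 1 ^ p := by rw [← pow_mul, mul_comm, pow_mul, hθ', hθ, one_pow]
    exact frobenius_inj k p (by rw [frobenius_def, frobenius_def, h2])
  have : NeZero n := ⟨h.gd.pos.ne'⟩
  obtain ⟨j, -, hj⟩ := h.prim.eq_pow_of_pow_eq_one h1
  exact ⟨j, by rw [mul_comm, pow_mul, hj, hθ']⟩

/-- The weight of a power of `e`. -/
theorem SigD.s_pow (h : SigD v K e n ζ σ) (j : ℕ) :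
    σ (e ^ j) = algebraMap k Ω (ζ ^ j) * e ^ j := by
  rw [map_pow, h.se, mul_pow, map_pow]

end Pool.Agent.TWRZ
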