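import Pool.Agent.Lib.TWRZ.Apx
import Pool.Agent.Lib.TWRZ.Lore

/-!
# TANK W, (Ru.Z): the nearly constant element, functional form

`A t`, `t ∈ k`, embeddings which fix `N` and move `y` by `α(t) c`, `u` by `H(α(t)) + B(t)`; `c` is
nearly fixed, the cocycle of `H` has a uniform gain.  `near_fun`: there is an element far from the
algebraic closure of `N` which is moved by less than its distance.
-/

set_option autoImplicit false

open Polynomial

namespace Pool.Agent.TWRZ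

open Pool.Agent.H15JM (RVal)
open Pool.Agent.D2 (Ctx0)
open Pool.Agent.D2P (clI mem_clI)
open Pool.Agent.TWM
open Pool.Agent.TWS
open TWRL (FAdd Addv)

universe u

variable {k Ω : Type u} [Field k] [Field Ω] [Algebra k Ω] {v : RVal Ω}

/-! ### Polynomials at elements of value `≥ -δ` -/

theorem eval_geD {P : Polynomial Ω} {b δ : ℝ} (hδ : 0 ≤ δ) (hP : ∀ l, v.Ge b (P.coeff l)) {L : ℕ}
    (hL : P.natDegree ≤ L) {x : Ω} (hx : v.Ge (-δ) x) : v.Ge (b - L * δ) (P.eval x) := by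
  rw [eval_eq_sum_range]
  refine RVal.Ge.sum _ _ fun l hl => ((hP l).mul (ge_pow hx l)).mono ?_
  have h1 : (l : ℝ) ≤ L := by
    have := Finset.mem_range.1 hl
    exact_mod_cast (by omega : l ≤ L)
  nlinarith

theorem eval_sub_geD {P : Polynomial Ω} {b δ e : ℝ} (hδ : 0 ≤ δ) (hP : ∀ l, v.Ge b (P.coeff l))
    {L : ℕ} (hL : P.natDegree ≤ L) {x x' : Ω} (hx : v.Ge (-δ) x) (hx' : v.Ge (-δ) x')
    (h : v.Ge (-δ + e) (x - x')) : v.Ge (b - L * δ + e) (P.eval x - P.eval x') := by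
  rw [eval_eq_sum_range, eval_eq_sum_range, ← Finset.sum_sub_distrib]
  refine RVal.Ge.sum _ _ fun l hl => ?_
  rw [← mul_sub]
  refine ((hP l).mul (TWCT.ge_pow_sub hx hx' h l)).mono ?_
  have h1 : (l : ℝ) ≤ L := by
    have := Finset.mem_range.1 hl
    exact_mod_cast (by omega : l ≤ L)
  nlinarith

/-- An additive polynomial over `k` does not enlarge. -/
theorem aeval_geA (h0 : Ctx0 k v) (p : ℕ) [hp : Fact p.Prime] {E : k[X]} (hE : Addv p E) {g : ℝ}
    (hg : 0 ≤ g) {x : Ω} (hx : v.Ge g x) : v.Ge g (aeval x E) := by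
  rw [aeval_eq_sum_range]
  refine RVal.Ge.sum _ _ fun l _ => ?_
  by_cases hl : E.coeff l = 0
  · rw [hl, zero_smul]
    exact RVal.Ge.zero
  · obtain ⟨j, rfl⟩ := hE l hl
    refine Ge.smul' h0 ((ge_pow hx _).mono ?_) _
    have h1 : (1 : ℝ) ≤ ((p ^ j : ℕ) : ℝ) := by
      exact_mod_cast pow_pos hp.out.pos j
    nlinarith

/-- **The nearly constant element.** -/
theorem near_fun [IsAlgClosed k] [IsAlgClosed Ω] (p : ℕ) [hp : Fact p.Prime] [CharP k p]
    [CharP Ω p] (h0 : Ctx0 k v) {N L₁ K : IntermediateField k Ω} {y u c : Ω} {s r μ ε g : ℝ}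
    (hNC : N ≤ L₁) (hCK : L₁ ≤ K) (hu : TL v L₁ u r) (hyC : y ∈ L₁) (huK : u ∈ K) (hcC : c ∈ L₁)
    (hc0 : c ≠ 0) (hcs : v c = s) {A T : k → Ω →ₐ[k] Ω} {α B : k[X]} (hα : FAdd α) (hα0 : α ≠ 0)
    (hB : FAdd B) {H : Polynomial Ω} (hHC : ∀ l, H.coeff l ∈ L₁) (hHε : ∀ l, v.Ge (r - ε) (H.coeff l))
    (hr : B = 0 ∨ r = 0) (hεμ : ε < μ) (hg : 0 < g) (hε : 0 ≤ ε)
    (hiso : ∀ t, IsoE v v (A t)) (hAN : ∀ t, ∀ f ∈ N, A t f = f)
    (hAT : ∀ t, ∀ f ∈ L₁, A t f = T (α.eval t) f)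
    (hTy : ∀ s', T s' y = y + algebraMap k Ω s' * c) (hTc : ∀ s', v.Ge (s + μ) (T s' c - c))
    (hAu : ∀ t, v.Ge (r + g) (A t u - u - H.eval (algebraMap k Ω (α.eval t)) -
      algebraMap k Ω (B.eval t)))
    (hco : ∀ s₁ s₂ : k, v.Ge (r + g) (H.eval (algebraMap k Ω s₁) + T s₁ (H.eval (algebraMap k Ω s₂)) -
      H.eval (algebraMap k Ω (s₁ + s₂))))
    (hlim : ∀ δ : ℝ, 0 < δ → ∃ j : ℕ, ∃ n ∈ N, v.Ge (p ^ j * (s - δ)) (y ^ p ^ j - n)) :
    ∃ U ∈ K, ∃ R μ' : ℝ, 0 < μ' ∧ (∀ t, v.Ge (R + μ') (A t U - U)) ∧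
      ∀ θ : Ω, IsAlgebraic N θ → U ≠ θ ∧ v (U - θ) ≤ R := by
  classical
  have : Infinite k := IsAlgClosed.instInfinite
  obtain ⟨L, hL⟩ : ∃ L, L = H.natDegree := ⟨_, rfl⟩
  obtain ⟨γ, hγ, hγ1, hγ2⟩ : ∃ γ : ℝ, 0 < γ ∧ 2 * γ ≤ μ - ε ∧ 2 * γ ≤ g :=
    ⟨min ((μ - ε) / 2) (g / 2), lt_min (by linarith) (by linarith), by
      linarith [min_le_left ((μ - ε) / 2) (g / 2)], by
      linarith [min_le_right ((μ - ε) / 2) (g / 2)]⟩
  obtain ⟨δ, hδ, hδL, hδγ⟩ : ∃ δ : ℝ, 0 < δ ∧ L * δ ≤ γ ∧ δ ≤ γ := by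
    have hL0 : (0 : ℝ) < L + 1 := by positivity
    refine ⟨γ / (L + 1), by positivity, ?_, ?_⟩
    · rw [mul_div_assoc', div_le_iff₀ hL0]
      nlinarith
    · rw [div_le_iff₀ hL0]
      have : (0 : ℝ) ≤ L := Nat.cast_nonneg L
      nlinarith
  -- the point near to `y`
  obtain ⟨j, n, hn, hyn⟩ := hlim δ hδ
  have hpj : 0 < p ^ j := pow_pos hp.out.pos j
  obtain ⟨n', hn'⟩ : ∃ n' : Ω, n' ^ p ^ j = n := IsAlgClosed.exists_pow_nat_eq n hpj
  have hinj : ∀ a b : Ω, a ^ p ^ j = b ^ p ^ j → a = b := fun a b h => by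
    have h1 : (a - b) ^ p ^ j = 0 := by rw [sub_pow_char_pow, h, sub_self]
    exact sub_eq_zero.1 (pow_eq_zero_iff hpj.ne' |>.1 h1)
  have hAn : ∀ t, A t n' = n' := fun t => hinj _ _ (by
    rw [← map_pow, hn', hAN t n hn])
  have hyn' : v.Ge (s - δ) (y - n') := by
    intro hne
    have h1 : (y - n') ^ p ^ j = y ^ p ^ j - n := by rw [sub_pow_char_pow, hn']
    have h2 := hyn (by rw [← h1]; exact pow_ne_zero _ hne)
    rw [← h1, v.map_pow hne] at h2
    have h3 : (0 : ℝ) < (p : ℝ) ^ j := by exact_mod_cast hpj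
    push_cast at h2
    exact le_of_mul_le_mul_left h2 h3
  have hAy : ∀ t, A t y = y + algebraMap k Ω (α.eval t) * c := fun t => by rw [hAT t y hyC, hTy]
  have hAc : ∀ t, v.Ge (s + μ) (A t c - c) := fun t => by
    rw [hAT t c hcC]
    exact hTc _
  have hcinv : v.Ge (-s) c⁻¹ := fun _ => by rw [v.map_inv hc0, hcs]
  obtain ⟨η, hη⟩ : ∃ η, η = (y - n') / c := ⟨_, rfl⟩
  have hηδ : v.Ge (-δ) η := by
    rw [hη, div_eq_mul_inv]
    exact (hyn'.mul hcinv).mono (by linarith)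
  have hsη : ∀ t : k, v.Ge (-δ) (η + algebraMap k Ω (α.eval t)) := fun t =>
    hηδ.add ((h0.ge _).mono (by linarith))
  have hAη : ∀ t, v.Ge (-δ + μ) (A t η - η - algebraMap k Ω (α.eval t)) := by
    intro t
    have hc'0 : A t c ≠ 0 := IsoE.ne_zero hc0
    have e : A t η - η - algebraMap k Ω (α.eval t) =
        -((η + algebraMap k Ω (α.eval t)) * ((A t c - c) * (A t c)⁻¹)) := by
      rw [hη, map_div₀, map_sub, hAn, hAy]
      field_simp
      ring
    rw [e]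
    have h1 : v.Ge (-s) (A t c)⁻¹ := fun _ => by
      rw [v.map_inv hc'0, (hiso t).val _ hc0, hcs]
    exact ((hsη t).mul ((hAc t).mul h1)).neg.mono (by linarith)
  -- the correction
  obtain ⟨G, hG⟩ : ∃ G, G = H.eval (-η) := ⟨_, rfl⟩
  have hAG : ∀ t, v.Ge (r + γ) (A t G - G + H.eval (algebraMap k Ω (α.eval t))) := by
    intro t
    obtain ⟨s₁, hs₁⟩ : ∃ s₁, s₁ = α.eval t := ⟨_, rfl⟩
    have hsη' := hsη t
    have hAη' := hAη t
    rw [← hs₁] at hsη' hAη' ⊢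
    obtain ⟨HA, hHA⟩ : ∃ HA, HA = H.map (A t : Ω →+* Ω) := ⟨_, rfl⟩
    have hHAe : ∀ x, A t (H.eval x) = HA.eval (A t x) := fun x => by
      rw [hHA, eval_map, eval_eq_sum_range, map_sum, eval₂_eq_sum_range]
      exact Finset.sum_congr rfl fun l _ => by rw [map_mul, map_pow]; rfl
    have hHAd : HA.natDegree ≤ L := by
      rw [hHA, hL]
      exact natDegree_map_le
    have hHAc : ∀ l, v.Ge (r - ε) (HA.coeff l) := fun l => by
      rw [hHA, coeff_map]
      exact (hiso t).ge_iff.2 (hHε l)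
    have h1 : v.Ge (r + γ) (HA.eval (A t (-η)) - HA.eval (-η - algebraMap k Ω s₁)) := by
      refine (eval_sub_geD hδ.le hHAc hHAd (x := A t (-η)) (x' := -η - algebraMap k Ω s₁)
        (e := μ) ?_ ?_ ?_).mono (by linarith)
      · exact (hiso t).ge_iff.2 hηδ.neg
      · rw [← neg_add']
        exact hsη'.neg
      · have e : A t (-η) - (-η - algebraMap k Ω s₁) = -(A t η - η - algebraMap k Ω s₁) := by
          rw [map_neg]
          ring
        rw [e]
        exact hAη'.neg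
    -- the cocycle
    obtain ⟨Q, hQ⟩ : ∃ Q, Q = C (H.eval (algebraMap k Ω s₁)) + HA -
        taylor (algebraMap k Ω s₁) H := ⟨_, rfl⟩
    have hQd : Q.natDegree ≤ L := by
      rw [hQ]
      refine (natDegree_sub_le _ _).trans (max_le ((natDegree_add_le _ _).trans (max_le ?_ hHAd)) ?_)
      · rw [natDegree_C]
        exact Nat.zero_le _
      · rw [natDegree_taylor, hL]
    have hQc : ∀ l, v.Ge (r + g) (Q.coeff l) := coeff_ge h0 fun s₂ => by
      have h2 := hco s₁ s₂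
      have e : Q.eval (algebraMap k Ω s₂) = H.eval (algebraMap k Ω s₁) +
          T s₁ (H.eval (algebraMap k Ω s₂)) - H.eval (algebraMap k Ω (s₁ + s₂)) := by
        rw [hQ, eval_sub, eval_add, eval_C, taylor_eval, map_add (algebraMap k Ω),
          add_comm (algebraMap k Ω s₂)]
        congr 2
        have h3 := hHAe (algebraMap k Ω s₂)
        rw [AlgHom.commutes] at h3
        rw [← h3, hAT t _ ?_, ← hs₁]
        rw [eval_eq_sum_range]
        exact sum_mem fun l _ => mul_mem (hHC l) (pow_mem (L₁.algebraMap_mem _) l)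
      rw [e]
      exact h2
    have h4 := eval_geD hδ.le hQc hQd (x := -η - algebraMap k Ω s₁) (by
      rw [← neg_add']
      exact hsη'.neg)
    have e : Q.eval (-η - algebraMap k Ω s₁) = H.eval (algebraMap k Ω s₁) +
        HA.eval (-η - algebraMap k Ω s₁) - G := by
      rw [hQ, hG, eval_sub, eval_add, eval_C, taylor_eval, sub_add_cancel]
    rw [e] at h4
    have e2 : A t G - G + H.eval (algebraMap k Ω s₁) =
        (HA.eval (A t (-η)) - HA.eval (-η - algebraMap k Ω s₁)) +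
          (H.eval (algebraMap k Ω s₁) + HA.eval (-η - algebraMap k Ω s₁) - G) := by
      rw [hG, hHAe]
      ring
    rw [e2]
    exact h1.add (h4.mono (by linarith))
  obtain ⟨w, hw⟩ : ∃ w, w = u + G := ⟨_, rfl⟩
  have hAw : ∀ t, v.Ge (r + γ) (A t w - w - algebraMap k Ω (B.eval t)) := by
    intro t
    have e : A t w - w - algebraMap k Ω (B.eval t) =
        (A t u - u - H.eval (algebraMap k Ω (α.eval t)) - algebraMap k Ω (B.eval t)) +
          (A t G - G + H.eval (algebraMap k Ω (α.eval t))) := by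
      rw [hw, map_add]
      ring
    rw [e]
    exact ((hAu t).mono (by linarith)).add (hAG t)
  -- membership
  obtain ⟨S, hS⟩ : ∃ S : Subfield Ω, ∀ x, x ∈ S ↔ x ^ p ^ j ∈ K :=
    ⟨K.toSubfield.comap (iterateFrobenius Ω p j), fun x => by
      rw [Subfield.mem_comap, iterateFrobenius_def]
      exact Iff.rfl⟩
  have hKS : ∀ x ∈ K, x ∈ S := fun x hx => (hS x).2 (pow_mem hx _)
  have hnS : n' ∈ S := (hS n').2 (by
    rw [hn']
    exact hCK (hNC hn))
  have hηS : η ∈ S := by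
    rw [hη]
    exact div_mem (sub_mem (hKS _ (hCK hyC)) hnS) (hKS _ (hCK hcC))
  have hGS : G ∈ S := by
    rw [hG, eval_eq_sum_range]
    exact sum_mem fun l _ => mul_mem (hKS _ (hCK (hHC l))) (pow_mem (neg_mem hηS) l)
  have haS : ∀ (P : k[X]) (x : Ω), x ∈ S → aeval x P ∈ S := fun P x hx => by
    rw [aeval_eq_sum_range]
    refine sum_mem fun l _ => ?_
    rw [Algebra.smul_def]
    exact mul_mem (hKS _ (K.algebraMap_mem _)) (pow_mem hx l)
  have hwS : w ∈ S := by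
    rw [hw]
    exact add_mem (hKS _ huK) hGS
  have hp0 : (0 : ℝ) < ((p ^ j : ℕ) : ℝ) := by exact_mod_cast hpj
  have halg : ∀ x : Ω, IsAlgebraic N (x ^ p ^ j) → x ∈ algc L₁ := fun x hx =>
    mem_algc.2 (D2P.isAlgebraic_mono hNC (IsAlgebraic.of_pow hpj hx))
  have hnm : n' ∈ algc L₁ := halg _ (by
    rw [hn']
    exact isAlgebraic_algebraMap (R := N) (⟨n, hn⟩ : N))
  have hLa : L₁ ≤ algc L₁ := le_algc L₁
  have hηm : η ∈ algc L₁ := by
    rw [hη]
    exact div_mem (sub_mem (hLa hyC) hnm) (hLa hcC)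
  have hGm : G ∈ algc L₁ := by
    rw [hG, eval_eq_sum_range]
    exact sum_mem fun l _ => mul_mem (hLa (hHC l)) (pow_mem (neg_mem hηm) l)
  by_cases hB0 : B = 0
  · refine ⟨w ^ p ^ j, (hS _).1 hwS, ((p ^ j : ℕ) : ℝ) * r, ((p ^ j : ℕ) : ℝ) * γ,
      mul_pos hp0 hγ, fun t => ?_, fun θ hθ => ?_⟩
    · have h1 := hAw t
      rw [hB0, eval_zero, map_zero, sub_zero] at h1
      rw [map_pow, ← sub_pow_char_pow, ← mul_add]
      exact ge_pow h1 _
    · obtain ⟨θ', hθ'⟩ : ∃ θ' : Ω, θ' ^ p ^ j = θ := IsAlgClosed.exists_pow_nat_eq θ hpj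
      have hθm : θ' ∈ algc L₁ := halg _ (by rwa [hθ'])
      obtain ⟨h1, h2⟩ := hu.far (θ' - G) (mem_algc.1 (sub_mem hθm hGm))
      have e : u - (θ' - G) = w - θ' := by rw [hw]; ring
      rw [e] at h2
      have h3 : w - θ' ≠ 0 := by
        rw [← e]
        exact sub_ne_zero.2 h1
      have h4 : w ^ p ^ j - θ = (w - θ') ^ p ^ j := by rw [sub_pow_char_pow, hθ']
      refine ⟨fun h => pow_ne_zero (p ^ j) h3 (by rw [← h4, h, sub_self]), ?_⟩
      rw [h4, v.map_pow h3]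
      exact mul_le_mul_of_nonneg_left h2.le hp0.le
  have hr0 : r = 0 := hr.resolve_left hB0
  subst hr0
  have hAw' : ∀ t, v.Ge γ (A t w - w - algebraMap k Ω (B.eval t)) := fun t => by
    have h1 := hAw t
    rwa [zero_add] at h1
  -- the common multiple
  obtain ⟨E, A', hE, hA', hE0, hEB⟩ := exists_lore p α.natDegree α B hα hB hα0 le_rfl
  have hEa : Addv p E := hE.addv p
  have hA'a : Addv p A' := hA'.addv p
  obtain ⟨U₀, hU₀⟩ : ∃ U₀, U₀ = aeval w E - aeval η A' := ⟨_, rfl⟩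
  have hAU : ∀ t, v.Ge γ (A t U₀ - U₀) := by
    intro t
    have e1 : A t w = w + algebraMap k Ω (B.eval t) + (A t w - w - algebraMap k Ω (B.eval t)) := by
      ring
    have e2 : A t η = η + algebraMap k Ω (α.eval t) +
        (A t η - η - algebraMap k Ω (α.eval t)) := by
      ring
    have e3 : aeval (algebraMap k Ω (B.eval t)) E = aeval (algebraMap k Ω (α.eval t)) A' := by
      rw [aeval_algebraMap_apply_eq_algebraMap_eval, aeval_algebraMap_apply_eq_algebraMap_eval,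
        ← eval_comp, ← eval_comp, hEB]
    have e : A t U₀ - U₀ = aeval (A t w - w - algebraMap k Ω (B.eval t)) E -
        aeval (A t η - η - algebraMap k Ω (α.eval t)) A' := by
      rw [hU₀, map_sub, ← aeval_algHom_apply, ← aeval_algHom_apply]
      conv_lhs => rw [e1, e2]
      rw [hEa.aeval_add p, hEa.aeval_add p, hA'a.aeval_add p, hA'a.aeval_add p, e3]
      ring
    rw [e]
    exact (aeval_geA h0 p hEa hγ.le (hAw' t)).sub (aeval_geA h0 p hA'a hγ.le
      ((hAη t).mono (by linarith)))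
  have hUS : U₀ ∈ S := by
    rw [hU₀]
    exact sub_mem (haS _ _ hwS) (haS _ _ hηS)
  refine ⟨U₀ ^ p ^ j, (hS _).1 hUS, 0, ((p ^ j : ℕ) : ℝ) * γ, mul_pos hp0 hγ, fun t => ?_,
    fun θ hθ => ?_⟩
  · rw [map_pow, ← sub_pow_char_pow, zero_add]
    exact ge_pow (hAU t) _
  -- far
  obtain ⟨θ', hθ'⟩ : ∃ θ' : Ω, θ' ^ p ^ j = θ := IsAlgClosed.exists_pow_nat_eq θ hpj
  have hθm : θ' ∈ algc L₁ := halg _ (by rwa [hθ'])
  have hAm : aeval η A' ∈ algc L₁ := by
    rw [aeval_eq_sum_range]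
    refine sum_mem fun l _ => ?_
    rw [Algebra.smul_def]
    exact mul_mem ((algc L₁).algebraMap_mem _) (pow_mem hηm l)
  obtain ⟨f, hf⟩ : ∃ f, f = E.map (algebraMap k Ω) := ⟨_, rfl⟩
  have hfm : f ∈ PI (algc L₁) := fun i => by
    rw [hf, coeff_map]
    exact (algc L₁).algebraMap_mem _
  obtain ⟨P, hP⟩ : ∃ P, P = taylor G f - C (aeval η A' + θ') := ⟨_, rfl⟩
  have hPm : P ∈ PI (algc L₁) := by
    rw [hP]
    exact sub_mem (taylor_mem_PI hfm hGm) (C_mem_PI (add_mem hAm hθm))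
  have hPu : P.eval u = U₀ - θ' := by
    rw [hP, eval_sub, eval_C, taylor_eval, hf, eval_map_algebraMap, hU₀, hw]
    ring
  obtain ⟨d, hd⟩ := hEa.natDegree p hE0
  have hd0 : 0 < p ^ d := pow_pos hp.out.pos d
  have hfd : f.natDegree = p ^ d := by
    rw [hf, natDegree_map, hd]
  have hlc : E.coeff (p ^ d) ≠ 0 := by
    rw [← hd]
    exact leadingCoeff_ne_zero.2 hE0
  have htop : ∀ (x : Ω) (q : Polynomial Ω), q.natDegree ≤ p ^ d →
      (taylor x q).coeff (p ^ d) = q.coeff (p ^ d) := by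
    intro x q hq
    rw [taylor_coeff, eval_eq_sum_range]
    have h1 : (hasseDeriv (p ^ d) q).natDegree = 0 := by
      have := natDegree_hasseDeriv_le q (p ^ d)
      omega
    rw [h1]
    simp [hasseDeriv_coeff]
  have hPd : P.natDegree ≤ p ^ d := by
    rw [hP]
    refine (natDegree_sub_le _ _).trans (max_le ?_ ?_)
    · rw [natDegree_taylor, hfd]
    · rw [natDegree_C]
      exact Nat.zero_le _
  have hPc : P.coeff (p ^ d) = algebraMap k Ω (E.coeff (p ^ d)) := by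
    rw [hP, coeff_sub, coeff_C, if_neg hd0.ne', sub_zero, htop G f hfd.le, hf, coeff_map]
  have hlc' : algebraMap k Ω (E.coeff (p ^ d)) ≠ 0 := (_root_.map_ne_zero _).2 hlc
  have hP0 : P ≠ 0 := by
    intro h
    rw [h, coeff_zero] at hPc
    exact hlc' hPc.symm
  have h1 := hu.weak hPm hP0 (p ^ d)
  rw [htop u P hPd, hPc, mul_zero, sub_zero] at h1
  have h2 := h1 hlc'
  rw [h0.triv _ hlc, hPu] at h2
  have h3 : U₀ - θ' ≠ 0 := by
    rw [← hPu]
    exact hu.eval_ne hPm hP0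
  have h4 : U₀ ^ p ^ j - θ = (U₀ - θ') ^ p ^ j := by rw [sub_pow_char_pow, hθ']
  refine ⟨fun h => pow_ne_zero (p ^ j) h3 (by rw [← h4, h, sub_self]), ?_⟩
  rw [h4, v.map_pow h3]
  exact mul_nonpos_of_nonneg_of_nonpos hp0.le h2

end Pool.Agent.TWRZ
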