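import Pool.Agent.Lib.TWCT.Str
import Pool.Agent.Lib.TWII.PropHV

/-!
# TANK W, (Ru.Z): polynomial functions with values in a valued field

`X` a set, `R` an algebra of functions `X → k`, `L` a subfield of `Ω`.
* `P0 L R g`: `g = ∑ φ_i c_i`, `φ_i ∈ R`, `c_i ∈ L`; `Pl v L R g`: `g` is a uniform limit of such functions;
* `Zc R S x`: `x` is in the closure of `S`;
* `interp`: interpolation: the values of the `φ_i` on the closure of `S` are given by finitely many values
  on `S`, the coefficients are in `R`;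
* `Pl.interp`: the same for a function `g` in `Pl`.
-/

set_option autoImplicit false

open Polynomial

namespace Pool.Agent.TWRZ

open Pool.Agent.H15JM (RVal)
open Pool.Agent.LU1 (VPos adj)
open Pool.Agent.D2 (Ctx0)
open Pool.Agent.D2P (hen clI mem_clI)
open Pool.Agent.TWM
open Pool.Agent.TWS

universe u

variable {k Ω : Type u} [Field k] [Field Ω] [Algebra k Ω] {v : RVal Ω} {X Y : Type*}

/-- `g = ∑ φ_i c_i`, `φ_i ∈ R`, `c_i ∈ L`. -/
def P0 (L : IntermediateField k Ω) (R : Subalgebra k (X → k)) (g : X → Ω) : Prop :=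
  ∃ (ι : Type) (_ : Fintype ι) (φ : ι → X → k) (c : ι → Ω), (∀ i, φ i ∈ R) ∧ (∀ i, c i ∈ L) ∧
    ∀ x, g x = ∑ i, algebraMap k Ω (φ i x) * c i

/-- `g` is a uniform limit of functions `∑ φ_i c_i`. -/
def Pl (v : RVal Ω) (L : IntermediateField k Ω) (R : Subalgebra k (X → k)) (g : X → Ω) : Prop :=
  ∀ B : ℝ, ∃ g₀ : X → Ω, P0 L R g₀ ∧ ∀ x, v.Ge B (g x - g₀ x)

/-- `x` is in the closure of `S`. -/
def Zc (R : Subalgebra k (X → k)) (S : Set X) (x : X) : Prop :=
  ∀ φ ∈ R, (∀ s ∈ S, φ s = 0) → φ x = 0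

section P0

variable {L L' : IntermediateField k Ω} {R : Subalgebra k (X → k)} {Q : Subalgebra k (Y → k)}
  {g h : X → Ω}

theorem P0.of {φ : X → k} (hφ : φ ∈ R) {c : Ω} (hc : c ∈ L) :
    P0 L R fun x => algebraMap k Ω (φ x) * c :=
  ⟨Unit, inferInstance, fun _ => φ, fun _ => c, fun _ => hφ, fun _ => hc, fun x => by simp⟩

theorem P0.const {c : Ω} (hc : c ∈ L) : P0 L R fun _ => c := by
  have h1 := P0.of (L := L) (one_mem R) hc
  simpa using h1

theorem P0.fn {φ : X → k} (hφ : φ ∈ R) : P0 L R fun x => algebraMap k Ω (φ x) := by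
  have h1 := P0.of (L := L) hφ (one_mem L)
  simpa using h1

theorem P0.zero : P0 L R fun _ => (0 : Ω) := P0.const (zero_mem L)

theorem P0.add (hg : P0 L R g) (hh : P0 L R h) : P0 L R fun x => g x + h x := by
  obtain ⟨ι, hι, φ, c, h1, h2, h3⟩ := hg
  obtain ⟨ι', hι', φ', c', h1', h2', h3'⟩ := hh
  refine ⟨ι ⊕ ι', inferInstance, Sum.elim φ φ', Sum.elim c c', ?_, ?_, fun x => ?_⟩
  · rintro (i | i)
    exacts [h1 i, h1' i]
  · rintro (i | i)
    exacts [h2 i, h2' i]
  · change g x + h x = _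
    rw [h3, h3', Fintype.sum_sum_type]
    rfl

theorem P0.mul (hg : P0 L R g) (hh : P0 L R h) : P0 L R fun x => g x * h x := by
  obtain ⟨ι, hι, φ, c, h1, h2, h3⟩ := hg
  obtain ⟨ι', hι', φ', c', h1', h2', h3'⟩ := hh
  refine ⟨ι × ι', inferInstance, fun i => φ i.1 * φ' i.2, fun i => c i.1 * c' i.2,
    fun i => mul_mem (h1 i.1) (h1' i.2), fun i => mul_mem (h2 i.1) (h2' i.2), fun x => ?_⟩
  change g x * h x = _
  rw [h3, h3', Finset.sum_mul_sum, Fintype.sum_prod_type]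
  refine Finset.sum_congr rfl fun i _ => Finset.sum_congr rfl fun j _ => ?_
  change _ = algebraMap k Ω (φ i x * φ' j x) * (c i * c' j)
  rw [map_mul]
  ring

theorem P0.neg (hg : P0 L R g) : P0 L R fun x => -g x := by
  have h1 := (P0.const (R := R) (neg_mem (one_mem L))).mul hg
  refine (congrArg (P0 L R) (funext fun x => ?_)).mp h1
  simp

theorem P0.sub (hg : P0 L R g) (hh : P0 L R h) : P0 L R fun x => g x - h x := by
  have h1 := hg.add hh.neg
  refine (congrArg (P0 L R) (funext fun x => ?_)).mp h1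
  rw [sub_eq_add_neg]

theorem P0.sum {ι : Type*} (s : Finset ι) {g : ι → X → Ω} (hg : ∀ i ∈ s, P0 L R (g i)) :
    P0 L R fun x => ∑ i ∈ s, g i x := by
  classical
  induction s using Finset.induction_on with
  | empty => simpa using P0.zero
  | insert a s ha ih =>
    have h1 := (hg a (Finset.mem_insert_self a s)).add
      (ih fun i hi => hg i (Finset.mem_insert_of_mem hi))
    refine (congrArg (P0 L R) (funext fun x => ?_)).mp h1
    rw [Finset.sum_insert ha]

theorem P0.mono (hL : L ≤ L') (hg : P0 L R g) : P0 L' R g := by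
  obtain ⟨ι, hι, φ, c, h1, h2, h3⟩ := hg
  exact ⟨ι, hι, φ, c, h1, fun i => hL (h2 i), h3⟩

/-- Pull back. -/
theorem P0.comp (hg : P0 L R g) (γ : Y → X) (hγ : ∀ φ ∈ R, (fun y => φ (γ y)) ∈ Q) :
    P0 L Q fun y => g (γ y) := by
  obtain ⟨ι, hι, φ, c, h1, h2, h3⟩ := hg
  exact ⟨ι, hι, fun i y => φ i (γ y), c, fun i => hγ _ (h1 i), h2, fun y => h3 _⟩

theorem P0.mem (hg : P0 L R g) (x : X) : g x ∈ L := by
  obtain ⟨ι, hι, φ, c, h1, h2, h3⟩ := hg
  rw [h3]
  exact sum_mem fun i _ => mul_mem (L.algebraMap_mem _) (h2 i)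

/-- Boundedness. -/
theorem P0.bdd (h0 : Ctx0 k v) (hg : P0 L R g) : ∃ b : ℝ, ∀ x, v.Ge b (g x) := by
  classical
  obtain ⟨ι, hι, φ, c, h1, h2, h3⟩ := hg
  obtain ⟨b, hb⟩ : ∃ b : ℝ, ∀ i, v.Ge b (c i) := by
    refine ⟨-∑ i, |v (c i)|, fun i _ => ?_⟩
    have h4 : |v (c i)| ≤ ∑ i, |v (c i)| :=
      Finset.single_le_sum (f := fun i => |v (c i)|) (fun _ _ => abs_nonneg _) (Finset.mem_univ i)
    linarith [neg_abs_le (v (c i))]
  refine ⟨b, fun x => ?_⟩
  rw [h3]
  refine RVal.Ge.sum _ _ fun i _ => ?_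
  have := (h0.ge (φ i x)).mul (hb i)
  rwa [zero_add] at this

end P0

section Pl

variable {L L' : IntermediateField k Ω} {R : Subalgebra k (X → k)} {Q : Subalgebra k (Y → k)}
  {g h : X → Ω}

theorem P0.pl (hg : P0 L R g) : Pl v L R g := fun B => ⟨g, hg, fun x => by
  rw [sub_self]
  exact RVal.Ge.zero⟩

theorem Pl.add (hg : Pl v L R g) (hh : Pl v L R h) : Pl v L R fun x => g x + h x := by
  intro B
  obtain ⟨g₀, h1, h2⟩ := hg B
  obtain ⟨h₀, h3, h4⟩ := hh B
  refine ⟨_, h1.add h3, fun x => ?_⟩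
  rw [add_sub_add_comm]
  exact (h2 x).add (h4 x)

theorem Pl.neg (hg : Pl v L R g) : Pl v L R fun x => -g x := by
  intro B
  obtain ⟨g₀, h1, h2⟩ := hg B
  refine ⟨_, h1.neg, fun x => ?_⟩
  have e : -g x - -g₀ x = -(g x - g₀ x) := by ring
  rw [e]
  exact (h2 x).neg

theorem Pl.sub (hg : Pl v L R g) (hh : Pl v L R h) : Pl v L R fun x => g x - h x := by
  intro B
  obtain ⟨g₀, h1, h2⟩ := hg B
  obtain ⟨h₀, h3, h4⟩ := hh B
  refine ⟨_, h1.sub h3, fun x => ?_⟩
  rw [sub_sub_sub_comm]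
  exact (h2 x).sub (h4 x)

theorem Pl.bdd (h0 : Ctx0 k v) (hg : Pl v L R g) : ∃ b : ℝ, ∀ x, v.Ge b (g x) := by
  obtain ⟨g₀, h1, h2⟩ := hg 0
  obtain ⟨b, hb⟩ := h1.bdd h0
  refine ⟨min 0 b, fun x => ?_⟩
  have e : g x = (g x - g₀ x) + g₀ x := by ring
  rw [e]
  exact ((h2 x).mono (min_le_left _ _)).add ((hb x).mono (min_le_right _ _))

theorem Pl.mul (h0 : Ctx0 k v) (hg : Pl v L R g) (hh : Pl v L R h) :
    Pl v L R fun x => g x * h x := by
  intro B
  obtain ⟨b', hb'⟩ := hh.bdd h0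
  obtain ⟨g₀, h1, h2⟩ := hg (B - b')
  obtain ⟨b, hb⟩ := h1.bdd h0
  obtain ⟨h₀, h3, h4⟩ := hh (B - b)
  refine ⟨_, h1.mul h3, fun x => ?_⟩
  have e : g x * h x - g₀ x * h₀ x = (g x - g₀ x) * h x + g₀ x * (h x - h₀ x) := by ring
  rw [e]
  exact (((h2 x).mul (hb' x)).mono (by linarith)).add (((hb x).mul (h4 x)).mono (by linarith))

theorem Pl.pow (h0 : Ctx0 k v) (hg : Pl v L R g) (n : ℕ) : Pl v L R fun x => g x ^ n := by
  induction n with
  | zero =>
    refine (congrArg (Pl v L R) (funext fun x => ?_)).mp (P0.const (R := R) (one_mem L)).pl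
    rw [pow_zero]
  | succ n ih =>
    refine (congrArg (Pl v L R) (funext fun x => ?_)).mp (ih.mul h0 hg)
    rw [pow_succ]

theorem Pl.sum {ι : Type*} (s : Finset ι) {g : ι → X → Ω} (hg : ∀ i ∈ s, Pl v L R (g i)) :
    Pl v L R fun x => ∑ i ∈ s, g i x := by
  classical
  induction s using Finset.induction_on with
  | empty => simpa using (P0.zero (L := L) (R := R)).pl (v := v)
  | insert a s ha ih =>
    have h1 := (hg a (Finset.mem_insert_self a s)).add
      (ih fun i hi => hg i (Finset.mem_insert_of_mem hi))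
    refine (congrArg (Pl v L R) (funext fun x => ?_)).mp h1
    rw [Finset.sum_insert ha]

theorem Pl.mono (hL : L ≤ L') (hg : Pl v L R g) : Pl v L' R g := fun B => by
  obtain ⟨g₀, h1, h2⟩ := hg B
  exact ⟨g₀, h1.mono hL, h2⟩

theorem Pl.comp (hg : Pl v L R g) (γ : Y → X) (hγ : ∀ φ ∈ R, (fun y => φ (γ y)) ∈ Q) :
    Pl v L Q fun y => g (γ y) := fun B => by
  obtain ⟨g₀, h1, h2⟩ := hg B
  exact ⟨_, h1.comp γ hγ, fun y => h2 _⟩

/-- Uniform limits. -/
theorem Pl.of_near (hg : ∀ B : ℝ, ∃ g₀ : X → Ω, Pl v L R g₀ ∧ ∀ x, v.Ge B (g x - g₀ x)) :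
    Pl v L R g := fun B => by
  obtain ⟨g₀, h1, h2⟩ := hg B
  obtain ⟨g₁, h3, h4⟩ := h1 B
  refine ⟨g₁, h3, fun x => ?_⟩
  have e : g x - g₁ x = (g x - g₀ x) + (g₀ x - g₁ x) := by ring
  rw [e]
  exact (h2 x).add (h4 x)

end Pl

/-! ### Interpolation -/

section Interp

variable {L L' : IntermediateField k Ω} {R : Subalgebra k (X → k)} {S : Set X}

/-- **Interpolation.** -/
theorem interp {ι : Type*} [Finite ι] {φ : ι → X → k} (hφ : ∀ i, φ i ∈ R) (S : Set X) :
    ∃ (G : Finset X) (m : X → X → k), (∀ s ∈ G, s ∈ S) ∧ (∀ s, m s ∈ R) ∧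
      ∀ x, Zc R S x → ∀ i, φ i x = ∑ s ∈ G, m s x * φ i s := by
  classical
  have := Fintype.ofFinite ι
  set w : X → ι → k := fun x i => φ i x with hw
  set W : Submodule k (ι → k) := Submodule.span k (w '' S) with hW
  have hfg : W.FG := IsNoetherian.noetherian W
  obtain ⟨G₀, hG₀, hG₀'⟩ := (Submodule.fg_span_iff_fg_span_finset_subset _).1 hfg
  choose r hr hr' using fun (y : G₀) => hG₀ y.2
  set G : Finset X := Finset.univ.image r with hG
  have hGS : ∀ s ∈ G, s ∈ S := by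
    intro s hs
    obtain ⟨y, hy, rfl⟩ := Finset.mem_image.1 hs
    exact hr y
  -- the combination map
  let F : (G → k) →ₗ[k] (ι → k) := Fintype.linearCombination k fun s : G => w s
  have hF : ∀ a : G → k, F a = ∑ s, a s • w s := fun a => Fintype.linearCombination_apply k _ a
  have hFW : W ≤ LinearMap.range F := by
    rw [hW, hG₀', Submodule.span_le]
    intro y hy
    have h1 : r ⟨y, hy⟩ ∈ G := Finset.mem_image_of_mem r (Finset.mem_univ _)
    refine ⟨Pi.single ⟨r ⟨y, hy⟩, h1⟩ 1, ?_⟩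
    rw [hF, Finset.sum_eq_single ⟨r ⟨y, hy⟩, h1⟩]
    · rw [Pi.single_eq_same, one_smul]
      exact hr' ⟨y, hy⟩
    · intro b _ hb
      rw [Pi.single_eq_of_ne hb, zero_smul]
    · intro h2
      exact absurd (Finset.mem_univ _) h2
  obtain ⟨Q, hQ⟩ : ∃ Q : (ι → k) →ₗ[k] (G → k), ∀ y ∈ LinearMap.range F, F (Q y) = y := by
    obtain ⟨P, hP⟩ := F.rangeRestrict.exists_rightInverse_of_surjective F.range_rangeRestrict
    obtain ⟨Q, hQ⟩ := P.exists_extend
    refine ⟨Q, fun y hy => ?_⟩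
    have h1 : Q y = P ⟨y, hy⟩ := by
      rw [← hQ]
      rfl
    rw [h1]
    have h2 := LinearMap.congr_fun hP ⟨y, hy⟩
    exact congrArg Subtype.val h2
  have hQi : ∀ (y : ι → k) (s : G), Q y s = ∑ i, y i * Q (Pi.single i 1) s := by
    intro y s
    conv_lhs => rw [← Finset.univ_sum_single y]
    rw [map_sum, Finset.sum_apply]
    refine Finset.sum_congr rfl fun i _ => ?_
    have h1 : (Pi.single i (y i) : ι → k) = y i • Pi.single i 1 := by
      rw [← Pi.single_smul, smul_eq_mul, mul_one]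
    rw [h1, map_smul, Pi.smul_apply, smul_eq_mul]
  -- the closure
  have hcl : ∀ x, Zc R S x → w x ∈ W := by
    intro x hx
    by_contra h1
    obtain ⟨f, hf, hf'⟩ := Submodule.exists_dual_map_eq_bot_of_notMem h1 inferInstance
    have hfw : ∀ x, f (w x) = ∑ i, f (Pi.single i 1) * φ i x := by
      intro x
      conv_lhs => rw [← Finset.univ_sum_single (w x)]
      rw [map_sum]
      refine Finset.sum_congr rfl fun i _ => ?_
      have h1 : (Pi.single i (w x i) : ι → k) = w x i • Pi.single i 1 := by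
        rw [← Pi.single_smul, smul_eq_mul, mul_one]
      rw [h1, map_smul, smul_eq_mul, mul_comm]
    have h2 := hx (∑ i, f (Pi.single i 1) • φ i) (sum_mem fun i _ => R.smul_mem (hφ i) _)
    have h3 : ∀ x, (∑ i, f (Pi.single i 1) • φ i) x = f (w x) := by
      intro x
      rw [hfw, Finset.sum_apply]
      rfl
    rw [h3] at h2
    refine hf (h2 fun s hs => ?_)
    rw [h3]
    have h4 : f (w s) ∈ W.map f := ⟨w s, Submodule.subset_span ⟨s, hs, rfl⟩, rfl⟩
    rw [hf', Submodule.mem_bot] at h4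
    exact h4
  refine ⟨G, fun s x => if hs : s ∈ G then Q (w x) ⟨s, hs⟩ else 0, hGS, fun s => ?_,
    fun x hx i => ?_⟩
  · change (fun x => if hs : s ∈ G then Q (w x) ⟨s, hs⟩ else 0) ∈ R
    by_cases hs : s ∈ G
    · have e : (fun x => if hs : s ∈ G then Q (w x) ⟨s, hs⟩ else 0) =
          ∑ i, Q (Pi.single i 1) ⟨s, hs⟩ • φ i := by
        funext x
        rw [dif_pos hs, hQi, Finset.sum_apply]
        refine Finset.sum_congr rfl fun i _ => ?_
        rw [Pi.smul_apply, smul_eq_mul, mul_comm]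
      rw [e]
      exact sum_mem fun i _ => R.smul_mem (hφ i) _
    · have e : (fun x => if hs : s ∈ G then Q (w x) ⟨s, hs⟩ else 0) = 0 := by
        funext x
        rw [dif_neg hs]
        rfl
      rw [e]
      exact zero_mem R
  · have h1 := congrFun (hQ (w x) (hFW (hcl x hx))) i
    rw [hF, Finset.sum_apply] at h1
    have h2 : φ i x = w x i := rfl
    rw [h2, ← h1, ← Finset.sum_coe_sort G]
    refine Finset.sum_congr rfl fun s _ => ?_
    change _ = (if hs : (s : X) ∈ G then Q (w x) ⟨s, hs⟩ else 0) * φ i s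
    rw [dif_pos s.2, Pi.smul_apply, smul_eq_mul]

/-- **Interpolation of functions in `Pl`.** -/
theorem Pl.interp (h0 : Ctx0 k v) {g : X → Ω} (hg : Pl v L R g) (S : Set X) (B : ℝ) :
    ∃ (G : Finset X) (m : X → X → k), (∀ s ∈ G, s ∈ S) ∧ (∀ s, m s ∈ R) ∧
      ∀ x, Zc R S x → ∑ s ∈ G, m s x = 1 ∧
        v.Ge B (g x - ∑ s ∈ G, algebraMap k Ω (m s x) * g s) := by
  classical
  obtain ⟨g₀, ⟨ι, hι, φ, c, h1, h2, h3⟩, h4⟩ := hg B
  obtain ⟨G, m, h5, h6, h7⟩ := TWRZ.interp (R := R) (ι := Option ι)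
    (φ := fun o => o.elim 1 φ) (by
      rintro (_ | i)
      · exact one_mem R
      · exact h1 i) S
  refine ⟨G, m, h5, h6, fun x hx => ⟨?_, ?_⟩⟩
  · have h8 := h7 x hx none
    simp only [Option.elim_none, Pi.one_apply, mul_one] at h8
    exact h8.symm
  · have h8 : g₀ x = ∑ s ∈ G, algebraMap k Ω (m s x) * g₀ s := by
      rw [h3]
      simp only [h3]
      simp only [Finset.mul_sum]
      rw [Finset.sum_comm]
      refine Finset.sum_congr rfl fun i _ => ?_
      have h9 := h7 x hx (some i)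
      simp only [Option.elim_some] at h9
      rw [h9, map_sum, Finset.sum_mul]
      refine Finset.sum_congr rfl fun s _ => ?_
      rw [map_mul]
      ring
    have e : g x - ∑ s ∈ G, algebraMap k Ω (m s x) * g s =
        (g x - g₀ x) - ∑ s ∈ G, algebraMap k Ω (m s x) * (g s - g₀ s) := by
      simp only [mul_sub, Finset.sum_sub_distrib]
      rw [← h8]
      ring
    rw [e]
    refine (h4 x).sub (RVal.Ge.sum _ _ fun s _ => ?_)
    have := (h0.ge (m s x)).mul (h4 s)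
    rwa [zero_add] at this

theorem zc_of_mem {s : X} (hs : s ∈ S) : Zc R S s := fun _ _ h => h s hs

theorem zc_univ (x : X) : Zc R Set.univ x := zc_of_mem (Set.mem_univ x)

theorem Zc.mono {S' : Set X} (h : S ⊆ S') {x : X} (hx : Zc R S x) : Zc R S' x :=
  fun φ hφ h1 => hx φ hφ fun s hs => h1 s (h hs)

/-- A function in `Pl` with values in `L'`. -/
theorem Pl.descend (h0 : Ctx0 k v) {g : X → Ω} (hg : Pl v L R g) (hm : ∀ x, g x ∈ L') :
    Pl v L' R g := fun B => by
  obtain ⟨G, m, h1, h2, h3⟩ := hg.interp h0 Set.univ B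
  exact ⟨_, P0.sum G fun s _ => P0.of (h2 s) (hm s), fun x => (h3 x (zc_univ x)).2⟩

end Interp

end Pool.Agent.TWRZ
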