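import Pool.Agent.Lib.TWS7.Unhit
import Pool.Agent.Lib.TWC.TTx
import Pool.Agent.Lib.TWRZ.BaseZ

/-!
# TANK W, (Ru.Z), (Z2): closures of finitely generated fields in a large field

`H` is a large field (all real values): there `Full`, hence `FGc`, `Unhit`, `Bs` are not possible.
* `FGv v d L`: the closure of a finitely generated field of transcendence degree `d` with an element
  of value `≠ 0`; `FGv.cadj`: floors; `FGv.fgc`: `FGc` if all values are commensurable;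
* `UnhitV`: `Unhit` with `FGv`; `UnhitV.of_map`: transfer to `Unhit` along an isometric embedding of
  a complete algebraically closed field of rational rank one;
* `BsV`: a base; `ComV v x L`: the values of the elements algebraic over `L` are commensurable with
  the value of `x`.
-/

set_option autoImplicit false

open Polynomial

namespace Pool.Agent.TWRZ

open Pool.Agent.H15JM (RVal)
open Pool.Agent.LU1 (VPos adj)
open Pool.Agent.D2 (Ctx0)
open Pool.Agent.D2P (hen clI mem_clI mem_adj_self)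
open Pool.Agent.TW (Ctx Full BD)
open Pool.Agent.TWM
open Pool.Agent.TWS
open Pool.Agent.TWII (PG LP)
open Pool.Agent.TWS7 (FGc Unhit PDiv)

universe u

section Defs

variable {k Ω : Type u} [Field k] [Field Ω] [Algebra k Ω]

/-- The closure of a finitely generated field of transcendence degree `d`, which has an element of
value `≠ 0`. -/
def FGv (v : RVal Ω) (d : ℕ) (L : IntermediateField k Ω) : Prop :=
  ∃ F : IntermediateField k Ω, F.FG ∧ (∃ x ∈ F, x ≠ 0 ∧ v x ≠ 0) ∧ Algebra.trdeg k F = d ∧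
    L = clI v F

/-- `a` is not hit by the top floor of a presentation of `L`. -/
def UnhitV (p : ℕ) (v : RVal Ω) (d : ℕ) (L : IntermediateField k Ω) (ν : ℝ) (a : Ω) : Prop :=
  ∃ (E : IntermediateField k Ω) (z : Ω) (s : ℝ) (f : Polynomial Ω) (g : Ω), FGv v d E ∧
    TL v E z s ∧ L = cadj v E z ∧ f ∈ PI E ∧ g ∈ L ∧ Gt v ν (a - g ^ p - f.eval z) ∧
    ∀ l : ℕ, p ∣ l → l ≠ 0 → PG p v L (ν - l * s) ((taylor z f).coeff l)

/-- A base. -/
structure BsV (p : ℕ) (v : RVal Ω) (C₁ C : IntermediateField k Ω) : Prop where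
  fg : C₁.FG
  val : ∃ x ∈ C₁, x ≠ 0 ∧ v x ≠ 0
  tr : Algebra.trdeg k C₁ = (2 : ℕ)
  bd : BD p v C₁
  eq : C = clI v C₁

/-- The values of the elements algebraic over `L` are commensurable with the value of `x`. -/
def ComV (v : RVal Ω) (x : Ω) (L : IntermediateField k Ω) : Prop :=
  ∀ f ∈ algc L, f ≠ 0 → ∃ (m : ℕ) (n : ℤ), m ≠ 0 ∧ (m : ℝ) * v f = n * v x

variable {v : RVal Ω} {d : ℕ} {C L : IntermediateField k Ω} {z : Ω} {s ν : ℝ} {p : ℕ}

theorem FGv.cld (h : FGv v d L) : Cld v L := by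
  obtain ⟨F, -, -, -, rfl⟩ := h
  exact cld_clI v F

theorem FGv.val (h : FGv v d L) : ∃ x ∈ L, x ≠ 0 ∧ v x ≠ 0 := by
  obtain ⟨F, -, ⟨x, hx, h1⟩, -, rfl⟩ := h
  exact ⟨x, le_clI F hx, h1⟩

/-- A floor over the closure of a finitely generated field. -/
theorem FGv.cadj (h : FGv v d C) (hz : TL v C z s) : FGv v (d + 1) (cadj v C z) := by
  obtain ⟨F, hF, ⟨x, hx, h1⟩, hFt, rfl⟩ := h
  refine ⟨adj F z, D2P.fg_adj hF z, ⟨x, (mem_adj_self F z).2 hx, h1⟩, ?_, clI_adj_clI⟩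
  rw [TW.HRLU.trdeg_adj (TWJ.TL.transc (TWJ.TL.of_clI hz)), hFt]
  push_cast
  rfl

theorem BsV.fgv {C₁ : IntermediateField k Ω} (h : BsV p v C₁ C) : FGv v 2 C :=
  ⟨C₁, h.fg, h.val, h.tr, h.eq⟩

/-- A field with an element of value `≠ 0` has all the values, in the rational rank one. -/
theorem full_of_val (h : Ctx k v 1) {F : IntermediateField k Ω} {x : Ω} (hx : x ∈ F) (hx0 : x ≠ 0)
    (hvx : v x ≠ 0) : Full v F := by
  intro g hg
  obtain ⟨m, n, hm, h1⟩ := exists_comm_val h hx0 hvx hg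
  refine ⟨m, Nat.pos_of_ne_zero hm, x ^ n, zpow_mem hx n, zpow_ne_zero _ hx0, ?_⟩
  rw [v.map_zpow hx0, h1]

theorem FGv.fgc (h : Ctx k v 1) (hF : FGv v d L) : FGc v d L := by
  obtain ⟨F, hF, ⟨x, hx, hx0, hvx⟩, hFt, rfl⟩ := hF
  exact ⟨F, hF, full_of_val h hx hx0 hvx, hFt, rfl⟩

theorem UnhitV.unhit (h : Ctx k v 1) {a : Ω} (hu : UnhitV p v d L ν a) : Unhit p v d L ν a := by
  obtain ⟨E, z, s, f, g, hE, h1⟩ := hu
  exact ⟨E, z, s, f, g, hE.fgc h, h1⟩

/-- An element of value `≠ 0` in a field with all the values. -/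
theorem exists_val_of_full (h : Ctx k v 1) {F : IntermediateField k Ω} (hF : Full v F) :
    ∃ x ∈ F, x ≠ 0 ∧ v x ≠ 0 := by
  obtain ⟨X, hX0, hXl, -⟩ := h.rank
  have h1 : v (X 0) ≠ 0 := hXl.ne_zero 0
  obtain ⟨m, hm, c, hc, hc0, hcv⟩ := hF (X 0) (hX0 0)
  refine ⟨c, hc, hc0, ?_⟩
  rw [hcv]
  exact mul_ne_zero (by exact_mod_cast hm.ne') h1

theorem FGc.fgv (h : Ctx k v 1) (hF : FGc v d L) : FGv v d L := by
  obtain ⟨F, hF, hFf, hFt, rfl⟩ := hF
  exact ⟨F, hF, exists_val_of_full h hFf, hFt, rfl⟩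

end Defs

/-! ### Transfer -/

section Transfer

variable {k Ω H : Type u} [Field k] [Field Ω] [Algebra k Ω] [Field H] [Algebra k H]
  {v : RVal Ω} {w : RVal H} {j : Ω →ₐ[k] H} {A B L : IntermediateField k Ω} {p d : ℕ} {ν : ℝ}

theorem lp_map_iff (h : IsoE v w j) {a : Ω} : LP p w (A.map j) ν (j a) ↔ LP p v A ν a := by
  constructor
  · intro h1 ε hε
    obtain ⟨_, ⟨g, hg, rfl⟩, h2⟩ := h1 ε hε
    refine ⟨g, hg, ?_⟩
    rw [← h.ge_iff, map_sub, map_pow]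
    exact h2
  · intro h1 ε hε
    obtain ⟨g, hg, h2⟩ := h1 ε hε
    refine ⟨j g, ⟨g, hg, rfl⟩, ?_⟩
    rw [← map_pow, ← map_sub, h.ge_iff]
    exact h2

theorem pg_map_iff (h : IsoE v w j) {a : Ω} : PG p w (A.map j) ν (j a) ↔ PG p v A ν a := by
  constructor
  · rintro ⟨_, ⟨g, hg, rfl⟩, h2⟩
    refine ⟨g, hg, ?_⟩
    rw [← h.gt_iff, map_sub, map_pow]
    exact h2
  · rintro ⟨g, hg, h2⟩
    refine ⟨j g, ⟨g, hg, rfl⟩, ?_⟩
    rw [← map_pow, ← map_sub, h.gt_iff]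
    exact h2

theorem far_map_iff (h : IsoE v w j) {a : Ω} :
    (∀ x ∈ A.map j, ¬ Gt w ν (j a - x ^ p)) ↔ ∀ x ∈ A, ¬ Gt v ν (a - x ^ p) := by
  have h1 := not_congr (pg_map_iff (p := p) (A := A) (ν := ν) h (a := a))
  unfold PG at h1
  push Not at h1
  exact h1

theorem pdiv_map_iff (h : IsoE v w j) : PDiv p w (A.map j) ↔ PDiv p v A := by
  constructor
  · intro h1 f hf hf0
    obtain ⟨_, ⟨g, hg, rfl⟩, hg0, h2⟩ := h1 (j f) ⟨f, hf, rfl⟩ (IsoE.ne_zero hf0)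
    have hg0' : g ≠ 0 := by
      rintro rfl
      exact hg0 (map_zero _)
    refine ⟨g, hg, hg0', ?_⟩
    have h3 : w (j f) = p * w (j g) := h2
    rwa [h.val f hf0, h.val g hg0'] at h3
  · rintro h1 _ ⟨f, hf, rfl⟩ hf0
    have hf0' : f ≠ 0 := by
      rintro rfl
      exact hf0 (map_zero _)
    obtain ⟨g, hg, hg0, h2⟩ := h1 f hf hf0'
    refine ⟨j g, ⟨g, hg, rfl⟩, IsoE.ne_zero hg0, ?_⟩
    have h3 : w (j f) = p * w (j g) := by rw [h.val f hf0', h.val g hg0, h2]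
    exact h3

theorem FGv.map (h : IsoE v w j) (hc : CompleteV v) (hL : FGv v d L) : FGv w d (L.map j) := by
  obtain ⟨F, hF, ⟨x, hx, hx0, hvx⟩, hFt, rfl⟩ := hL
  refine ⟨F.map j, Dense.fg_map hF, ⟨j x, ⟨x, hx, rfl⟩, IsoE.ne_zero hx0, ?_⟩, ?_, ?_⟩
  · rwa [h.val x hx0]
  · rw [Dense.trdeg_map, hFt]
  · rw [h.clI_map hc]

/-- A closure of a finitely generated field, inside the image. -/
theorem FGv.of_le (h : IsoE v w j) (hc : CompleteV v) {E : IntermediateField k H}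
    (hE : FGv w d E) (hle : E ≤ L.map j) : ∃ E₀ : IntermediateField k Ω, E₀.map j = E ∧
      FGv v d E₀ := by
  obtain ⟨F, hF, ⟨x, hx, hx0, hvx⟩, hFt, rfl⟩ := hE
  obtain ⟨N, hN, rfl⟩ := Dense.of_fg (ι := j) hF fun y hy => by
    obtain ⟨a, -, ha⟩ := hle (le_clI F hy)
    exact ⟨a, ha⟩
  refine ⟨clI v N, (h.clI_map hc N).symm, N, hN, ?_, ?_, rfl⟩
  · obtain ⟨a, ha, rfl⟩ := hx
    have ha0 : a ≠ 0 := by
      rintro rfl
      exact hx0 (map_zero _)
    refine ⟨a, ha, ha0, ?_⟩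
    have h1 : w (j a) ≠ 0 := hvx
    rwa [h.val a ha0] at h1
  · rw [← hFt, Dense.trdeg_map]

theorem BsV.map (h : IsoE v w j) (hc : CompleteV v) {C₁ C : IntermediateField k Ω}
    (hB : BsV p v C₁ C) : BsV p w (C₁.map j) (C.map j) where
  fg := Dense.fg_map hB.fg
  val := by
    obtain ⟨x, hx, hx0, hvx⟩ := hB.val
    exact ⟨j x, ⟨x, hx, rfl⟩, IsoE.ne_zero hx0, by rwa [h.val x hx0]⟩
  tr := by rw [Dense.trdeg_map, hB.tr]
  bd := h.bd_iff.2 hB.bd
  eq := by rw [hB.eq, h.clI_map hc]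

theorem taylor_map_coeff (f : Polynomial Ω) (z : Ω) (l : ℕ) :
    (taylor (j z) (f.map j.toRingHom)).coeff l = j ((taylor z f).coeff l) := by
  have h1 : taylor (j.toRingHom z) (f.map j.toRingHom) = (taylor z f).map j.toRingHom := by
    rw [taylor_apply, taylor_apply, map_comp, Polynomial.map_add, map_X, map_C]
  have h2 := congrArg (fun q => Polynomial.coeff q l) h1
  simp only [coeff_map] at h2
  exact h2

/-- **Transfer of `Unhit`.** -/
theorem UnhitV.of_map [IsAlgClosed Ω] (h : IsoE v w j) (hc : CompleteV v) {a : Ω}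
    (hu : UnhitV p w d (L.map j) ν (j a)) : UnhitV p v d L ν a := by
  obtain ⟨E, z, s, f, g, hE, hz, hL, hf, hg, h1, h2⟩ := hu
  have hle : E ≤ L.map j := by
    rw [hL]
    exact le_cadj w E z
  obtain ⟨E₀, rfl, hE₀⟩ := hE.of_le h hc hle
  have hzL : z ∈ L.map j := by
    rw [hL]
    exact self_mem_cadj w _ z
  obtain ⟨z₀, -, rfl⟩ := hzL
  obtain ⟨g₀, hg₀, rfl⟩ := hg
  obtain ⟨f₀, hf₀, rfl⟩ := exists_PI_map hf
  have hL' : L = TWM.cadj v E₀ z₀ := Dense.map_inj (hL.trans (h.cadj_map hc E₀ z₀))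
  refine ⟨E₀, z₀, s, f₀, g₀, hE₀, h.tl_iff.1 hz, hL', hf₀, hg₀, ?_, fun l hl hl0 => ?_⟩
  · have e1 : (f₀.map j.toRingHom).eval (j z₀) = j (f₀.eval z₀) :=
      eval_map_apply (f := j.toRingHom) (p := f₀) z₀
    have e2 : j a - j g₀ ^ p - (f₀.map j.toRingHom).eval (j z₀) = j (a - g₀ ^ p - f₀.eval z₀) := by
      rw [e1, map_sub, map_sub, map_pow]
    have h3 : Gt w ν (j a - j g₀ ^ p - (f₀.map j.toRingHom).eval (j z₀)) := h1
    rw [e2] at h3
    exact h.gt_iff.1 h3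
  · have h3 := h2 l hl hl0
    have h4 : PG p w (L.map j) (ν - l * s) ((taylor (j z₀) (f₀.map j.toRingHom)).coeff l) := h3
    rw [taylor_map_coeff] at h4
    exact (pg_map_iff h).1 h4

/-- The values of the images. -/
theorem ComV.map [IsAlgClosed Ω] (h : IsoE v w j) (hk : Ctx k v 1) {x : Ω} (hx0 : x ≠ 0)
    (hvx : v x ≠ 0) : ComV w (j x) (L.map j) := by
  intro f hf hf0
  rw [IsoE.algc_map] at hf
  obtain ⟨f₀, -, rfl⟩ := hf
  have hf0' : f₀ ≠ 0 := by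
    rintro rfl
    exact hf0 (map_zero _)
  obtain ⟨m, n, hm, h1⟩ := exists_comm_val hk hx0 hvx hf0'
  refine ⟨m, n, hm, ?_⟩
  have h2 : (m : ℝ) * w (j f₀) = n * w (j x) := by
    rw [h.val _ hf0', h.val _ hx0, h1]
  exact h2

end Transfer

end Pool.Agent.TWRZ
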