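import Pool.Agent.Lib.TWRZ.Out
import Pool.Agent.Lib.TWRZ.Tran0
import Pool.Agent.Lib.TWN1.GabF

/-!
# TANK W, (Ru.Z): the first two floors over a field with a one parameter group of motions

* `fsh_of_fin`: finite shape along the arc gives finite shape along the family;
* `ResZ`: `a` is unhit by the second generator of some pair, or some pair has a first generator of
  finite shape along `Ψ` (radius `0`); `N1Z`: this is true for every exact arc (text N1');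
* `GF1.res`: over a field with a one parameter group of motions, `a` is unhit, or there is a pair
  with a first generator of finite shape, the second generator hits `a`.
-/

set_option autoImplicit false

open Polynomial

namespace Pool.Agent.TWRZ

open Pool.Agent.H15JM (RVal)
open Pool.Agent.D2 (Ctx0)
open Pool.Agent.D2P (clI mem_clI)
open Pool.Agent.TWM
open Pool.Agent.TWS (IsoE SphC)
open Pool.Agent.TWII (PG LP Wn)
open Pool.Agent.TWLM (HSd Oi)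
open Pool.Agent.TWMF (Ptw)
open Pool.Agent.TWN1 (Gen2 Unh)

universe u

variable {k Ω : Type u} [Field k] [Field Ω] [Algebra k Ω] {v : RVal Ω}
  {C K L : IntermediateField k Ω} {T : k → (Ω →ₐ[k] Ω)} {Ψ : ℕ → Ω → Ω}

/-- **Finite shape along the arc gives finite shape along the family.** -/
theorem fsh_of_fin (h0 : Ctx0 k v) (hΨ : HSd L Ψ) (hn : Wn v L 0 Ψ) (ho : Oi v L 0 Ψ)
    (hX : ∀ f ∈ L, Xp v (fun t => T t f) fun l => Ψ l f) {y : Ω} {ρ : ℝ} (hy : TWM.Lim v L ρ y)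
    {N : ℕ} (hN : ∀ l : ℕ, N < l → ∀ ε : ℝ, 0 < ε →
      TWII.Nr v L ρ y fun θ => v.Ge (ρ - l * 0 - ε) (Ψ l θ)) : FSh v L (Pk k) T y ρ := by
  refine ⟨Fin N, inferInstance, fun i t => t ^ ((i : ℕ) + 1), fun i =>
    pow_mem id_mem_Pk ((i : ℕ) + 1), fun ε hε => ?_⟩
  obtain ⟨δ, hδ, _, h4⟩ := fsh_of_nr hΨ hn ho hy hN hε
  refine ⟨δ, hδ, fun θ hθ h5 => ⟨fun i => Ψ ((i : ℕ) + 1) θ, fun i => hΨ.mem _ θ hθ, fun t => ?_⟩⟩
  have h6 := fsh_motion h0 hΨ hX hθ (h4 θ hθ h5) t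
  have e : ∑ i : Fin N, algebraMap k Ω (t ^ ((i : ℕ) + 1)) * Ψ ((i : ℕ) + 1) θ =
      ∑ l ∈ Finset.range N, algebraMap k Ω t ^ (l + 1) * Ψ (l + 1) θ := by
    rw [← Fin.sum_univ_eq_sum_range (fun l => algebraMap k Ω t ^ (l + 1) * Ψ (l + 1) θ)]
    exact Finset.sum_congr rfl fun i _ => by rw [map_pow]
  rw [e]
  exact h6

/-- The dichotomy, for an arc of radius `0`. -/
def ResZ (p : ℕ) (v : RVal Ω) (C K : IntermediateField k Ω) (Ψ : ℕ → Ω → Ω) (ν : ℝ) (a : Ω) :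
    Prop :=
  (∃ (z z' : Ω) (r r' : ℝ), Gen2 v C K z r z' r' ∧ Unh p v (cadj v C z) K z' r' ν a) ∨
  ∃ (z z' : Ω) (r r' : ℝ), Gen2 v C K z r z' r' ∧ ∃ N : ℕ, ∀ l : ℕ, N < l → ∀ ε : ℝ, 0 < ε →
    TWII.Nr v C r z fun θ => v.Ge (r - l * 0 - ε) (Ψ l θ)

/-- The dichotomy for every exact arc over `C`, of radius `0`. -/
def N1Z (p : ℕ) (v : RVal Ω) (C K : IntermediateField k Ω) (ν : ℝ) (a : Ω) : Prop :=
  ∀ Ψ : ℕ → Ω → Ω, HSd C Ψ → Oi v C 0 Ψ →
    (∀ n : ℕ, ∀ x ∈ C, ∀ b, v.Ge b x → v.Ge (b - n * 0) (Ψ n x)) →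
    (∀ n : ℕ, n ≠ 0 → ∀ x ∈ C, ∀ b, v.Ge b x → Gt v (b - n * 0) (Ψ n x)) →
    (∀ n : ℕ, n ≠ 0 → ∀ c : ℝ, ∀ x ∈ C, LP p v C c x → PG p v C (c - n * 0) (Ψ n x)) →
    ResZ p v C K Ψ ν a

/-- Unhit by the second generator. -/
theorem unhit_of_unh {p : ℕ} (hC : FGv v 2 C) {z z' a : Ω} {r r' ν : ℝ}
    (hG : Gen2 v C K z r z' r') (hU : Unh p v (cadj v C z) K z' r' ν a) :
    UnhitV p v 3 K ν a := by
  obtain ⟨f, hf, ⟨g, hg, h1⟩, h2⟩ := hU
  refine ⟨cadj v C z, z', r', f, g, hC.cadj hG.t1, hG.t2, hG.eq, hf, hg, ?_, h2⟩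
  rw [sub_right_comm]
  exact h1

/-- **The first two floors over a field with a one parameter group of motions.** -/
theorem GF1.res (p : ℕ) [hp : Fact p.Prime] [CharP Ω p] [CharP k p] [IsAlgClosed k]
    [IsAlgClosed Ω] (h0 : Ctx0 k v) (hc : CompleteV v) (hFG : FGv v 2 C) (h : GF1 v C T)
    {a : Ω} {ν : ℝ} (ha : a ∈ K) (hlp : LP p v K ν a) (hN1 : N1Z p v C K ν a) :
    UnhitV p v 3 K ν a ∨ ∃ (z z' : Ω) (r r' : ℝ), TL v C z r ∧ TL v (cadj v C z) z' r' ∧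
      K = cadj v (cadj v C z) z' ∧ FSh v C (Pk k) T z r ∧
      ∃ f ∈ PI (cadj v C z), LP p v K ν (f.eval z') ∧ ∃ l : ℕ, p ∣ l ∧ l ≠ 0 ∧
        ¬ PG p v K (ν - l * r') ((taylor z' f).coeff l) := by
  have : PerfectRing k p := inferInstance
  have : Infinite k := IsAlgClosed.instInfinite
  have hcl : Cld v C := hFG.cld
  obtain ⟨Ψ, hΨ, hst, ho, hn, hX, hpg⟩ := exists_out p h0 hc hcl h.fam h.id0
    fun t f hf b hb => h.ptw h0 t hf hb
  rcases hN1 Ψ hΨ ho hn hst (fun n hn0 c x hx hl => by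
    rw [mul_zero, sub_zero]
    exact hpg x hx c (fun t => h.null h0 t hx hl) n hn0) with
    ⟨z, z', r, r', hG, hU⟩ | ⟨z, z', r, r', hG, N, hN⟩
  · exact Or.inl (unhit_of_unh hFG hG hU)
  · have hfs : FSh v C (Pk k) T z r := fsh_of_fin h0 hΨ hn ho hX hG.t1.lim hN
    have ha' : a ∈ cadj v (cadj v C z) z' := by
      rw [← hG.eq]
      exact ha
    obtain ⟨f, hf, h1⟩ := hG.t2.dense ha' (ν + 1)
    have h2 : PG p v K ν (a - f.eval z') := .of_gt (Gt.of_ge h1 (by linarith))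
    have h3 : LP p v K ν (f.eval z') := by
      have h4 := hlp.sub (TWII.LP.of_pg h2)
      rwa [sub_sub_cancel] at h4
    by_cases hhit : ∃ l : ℕ, p ∣ l ∧ l ≠ 0 ∧ ¬ PG p v K (ν - l * r') ((taylor z' f).coeff l)
    · exact Or.inr ⟨z, z', r, r', hG.t1, hG.t2, hG.eq, hfs, f, hf, h3, hhit⟩
    · simp only [not_exists, not_and, not_not] at hhit
      exact Or.inl (unhit_of_unh hFG hG ⟨f, hf, h2, hhit⟩)

end Pool.Agent.TWRZ
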