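import Pool.Agent.Lib.TWRZ.N1
import Pool.Agent.Lib.TWRZ.MuS
import Pool.Agent.Lib.TWRZ.BaseE

/-!
# TANK W, (Ru.Z), tame case: the first two floors

* `eqv_jets`: the arc of an equivariant family is homogeneous;
* `GD.split_near`: an approximation in `C(e)` of an element of `K` is an approximation in `C`;
* `GF1.resE`: the dichotomy for the descended arc gives the dichotomy over `C(e)`.
-/

set_option autoImplicit false

open Polynomial

namespace Pool.Agent.TWRZ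

open Pool.Agent.H15JM (RVal)
open Pool.Agent.LU1 (VPos adj)
open Pool.Agent.D2 (Ctx0)
open Pool.Agent.D2P (clI mem_clI)
open Pool.Agent.TWM
open Pool.Agent.TWS
open Pool.Agent.TWC (GD)
open Pool.Agent.TWII (PG LP Wn)
open Pool.Agent.TWLM (HSd Oi)
open Pool.Agent.TWMF (Ptw)
open Pool.Agent.TWN1 (Gen2 Unh)

universe u

variable {k Ω : Type u} [Field k] [Field Ω] [Algebra k Ω] {v : RVal Ω}
  {C K L : IntermediateField k Ω} {T : k → (Ω →ₐ[k] Ω)} {Ψ : ℕ → Ω → Ω} {e : Ω} {n : ℕ} {ζ : k}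
  {σ : Ω →ₐ[k] Ω}

/-- **The arc of an equivariant family is homogeneous.** -/
theorem eqv_jets [Infinite k] (h0 : Ctx0 k v) {θ : k} (he : Eqv v n σ L T fun t => θ * t)
    (hX : ∀ f ∈ L, Xp v (fun t => T t f) fun l => Ψ l f) (l : ℕ) {f : Ω} (hf : f ∈ L) :
    σ (Ψ l f) = algebraMap k Ω (θ ^ l) * Ψ l (σ f) := by
  have h1 : Xp v (fun t => σ (T t f)) fun l => σ (Ψ l f) := by
    intro B
    obtain ⟨N, hN⟩ := hX f hf B
    refine ⟨N, fun M hM t => ?_⟩
    have h2 := he.iso.ge_iff.2 (hN M hM t)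
    rw [map_sub, map_sum] at h2
    refine (congrArg (v.Ge B) ?_).mp h2
    congr 1
    exact Finset.sum_congr rfl fun l _ => by rw [map_mul, map_pow, AlgHom.commutes]
  have h2 : Xp v (fun t => σ (T t f)) fun l => algebraMap k Ω (θ ^ l) * Ψ l (σ f) := by
    intro B
    obtain ⟨N, hN⟩ := hX (σ f) (he.mem f hf) B
    refine ⟨N, fun M hM t => ?_⟩
    have h2 := hN M hM (θ * t)
    simp only at h2 ⊢
    rw [he.eqv t f hf]
    refine (congrArg (v.Ge B) ?_).mp h2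
    congr 1
    refine Finset.sum_congr rfl fun l _ => ?_
    rw [map_mul, mul_pow, map_pow]
    ring
  exact congrFun (h1.unique h0 h2) l

/-- **An approximation in `C(e)` of an element of `K`.** -/
theorem GD.split_near (hG : GD v K e n) (hCK : C ≤ K) (hen : e ^ n ∈ C) {z θ : Ω} (hz : z ∈ K)
    (hθ : θ ∈ adj C e) {b : ℝ} (h : v.Ge b (z - θ)) :
    ∃ θ₀ ∈ C, v.Ge b (z - θ₀) ∧ v.Ge b (θ - θ₀) := by
  obtain ⟨θ₀, hθ₀, h1⟩ := hG.near hCK hen hθ hz h
  refine ⟨θ₀, hθ₀, h1, ?_⟩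
  rw [show θ - θ₀ = (z - θ₀) - (z - θ) by ring]
  exact h1.sub h

/-- **The first two floors, tame case.** -/
theorem GF1.resE (p : ℕ) [hp : Fact p.Prime] [CharP Ω p] [CharP k p] [IsAlgClosed k]
    [IsAlgClosed Ω] (h0 : Ctx0 k v) (hc : CompleteV v) (hFG : FGv v 2 C) (hCK : C ≤ K)
    (hen : e ^ n ∈ C) (hS : SigD v K e n ζ σ) (h : GF1 v (adj C e) T)
    (he : Eqv v n σ (adj C e) T fun t => ζ * t) {a : Ω} {ν : ℝ} (ha : a ∈ K)
    (hlp : LP p v K ν a) (hN1 : N1E p v C K ν a) :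
    UnhitV p v 3 K ν a ∨ ∃ (z z' : Ω) (r r' : ℝ), TL v C z r ∧ TL v (cadj v C z) z' r' ∧
      K = cadj v (cadj v C z) z' ∧ FSh v (adj C e) (Pk k) T z r ∧
      ∃ f ∈ PI (cadj v C z), LP p v K ν (f.eval z') ∧ ∃ l : ℕ, p ∣ l ∧ l ≠ 0 ∧
        ¬ PG p v (adj K e) (ν - l * r') ((taylor z' f).coeff l) := by
  have : PerfectRing k p := inferInstance
  have : Infinite k := IsAlgClosed.instInfinite
  have hcl : Cld v C := hFG.cld
  have hSC : SigD v C e n ζ σ := hS.down hcl hCK hen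
  have hC' : Cld v (adj C e) := TWRZ.GD.cld_adj hc hSC.gd
  have hmu := hSC.mue h0
  have hCC' : C ≤ adj C e := (D2P.mem_adj_self C e).2
  have heC' : e ∈ adj C e := (D2P.mem_adj_self C e).1
  obtain ⟨Ψ, hΨ, hst, ho, hn, hX, hpg⟩ := exists_out p h0 hc hC' h.fam h.id0
    fun t f hf b hb => h.ptw h0 t hf hb
  have hs : ∀ l : ℕ, ∀ f ∈ adj C e, σ (Ψ l f) = algebraMap k Ω (ζ ^ l) * Ψ l (σ f) :=
    fun l f hf => eqv_jets h0 he hX l hf
  obtain ⟨j, hj⟩ := hSC.exists_wt p hSC.prim.pow_eq_one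
  obtain ⟨t, ht⟩ : ∃ t, t = e ^ (p * j) := ⟨_, rfl⟩
  have htK : t ∈ adj C e := by
    rw [ht]
    exact pow_mem heC' _
  have ht0 : t ≠ 0 := by
    rw [ht]
    exact pow_ne_zero _ hSC.gd.ne
  have hst' : σ t = algebraMap k Ω ζ * t := by
    rw [ht, hSC.s_pow, hj]
  have hγt : t = (e ^ j) ^ p := by rw [ht, mul_comm, pow_mul]
  have hd := hmu.hsd hΨ hs htK ht0 hst'
  have hoi : Oi v C (v t) (dsc t Ψ) := by
    have h1 := hmu.oi ht0 ho
    rwa [zero_add] at h1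
  have hwn : Wn v C (v t) (dsc t Ψ) := by
    have h1 := hmu.wn ht0 hn
    rwa [zero_add] at h1
  have hpt : Ptw v C (v t) (dsc t Ψ) := by
    have h1 := hmu.ptw ht0 hst
    rwa [zero_add] at h1
  rcases hN1 (v t) (dsc t Ψ) hd hoi (fun n x hx b hb => hwn n x hx b hb)
    (fun n hn0 x hx b hb => hpt n hn0 x hx b hb) (fun n hn0 c x hx hl => by
      refine hmu.null ht0 p (pow_mem heC' j) hγt (hd.mem n x hx) ?_
      refine hpg x (hCC' hx) c (fun s => h.null h0 s (hCC' hx) ?_) n hn0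
      intro ε hε
      obtain ⟨g, hg, h1⟩ := hl ε hε
      exact ⟨g, hCC' hg, h1⟩) with
    ⟨z, z', r, r', hG, hU⟩ | ⟨z, z', r, r', hG, N, hN⟩
  · exact Or.inl (unhit_of_unh hFG hG hU)
  · have hzK : z ∈ K := by
      rw [hG.eq]
      exact le_cadj v _ _ (self_mem_cadj v C z)
    have hz'K : z' ∈ K := by
      rw [hG.eq]
      exact self_mem_cadj v _ _
    have hFK : cadj v C z ≤ K := by
      conv_rhs => rw [hG.eq]
      exact le_cadj v _ _
    have hfs : FSh v (adj C e) (Pk k) T z r := by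
      refine fsh_of_fin (N := N) h0 hΨ hn ho hX (hG.t1.lim.mono hCC') fun l hl ε hε => ?_
      obtain ⟨δ, hδ, h1⟩ := hN l hl ε hε
      refine ⟨min δ ε, lt_min hδ hε, fun θ hθ h2 => ?_⟩
      obtain ⟨θ₀, hθ₀, h3, h4⟩ := GD.split_near hS.gd hCK hen hzK hθ h2
      have h5 := h1 θ₀ hθ₀ (h3.mono (by linarith [min_le_left δ ε]))
      have e1 : Ψ l θ = Ψ l (θ - θ₀) + t ^ l * dsc t Ψ l θ₀ := by
        unfold dsc
        rw [← mul_assoc, ← mul_pow, mul_inv_cancel₀ ht0, one_pow, one_mul,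
          hΨ.sub l hθ (hCC' hθ₀)]
        ring
      rw [e1]
      refine RVal.Ge.add ?_ ?_
      · refine (hn l (θ - θ₀) (sub_mem hθ (hCC' hθ₀)) _ h4).mono ?_
        linarith [min_le_right δ ε]
      · have h6 : v.Ge (l * v t) (t ^ l) := ge_pow (RVal.ge_self t) l
        exact (h6.mul h5).mono (by linarith)
    have ha' : a ∈ cadj v (cadj v C z) z' := by
      rw [← hG.eq]
      exact ha
    obtain ⟨f, hf, h1⟩ := hG.t2.dense ha' (ν + 1)
    have h2 : PG p v K ν (a - f.eval z') := .of_gt (Gt.of_ge h1 (by linarith))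
    have h3 : LP p v K ν (f.eval z') := by
      have h4 := hlp.sub (TWII.LP.of_pg h2)
      rwa [sub_sub_cancel] at h4
    by_cases hhit : ∃ l : ℕ, p ∣ l ∧ l ≠ 0 ∧ ¬ PG p v K (ν - l * r') ((taylor z' f).coeff l)
    · obtain ⟨l, hpl, hl0, hl⟩ := hhit
      refine Or.inr ⟨z, z', r, r', hG.t1, hG.t2, hG.eq, hfs, f, hf, h3, l, hpl, hl0,
        fun h4 => hl ?_⟩
      exact hS.pg_of p h0 (taylor_mem_PI (PI_mono hFK hf) hz'K l) h4
    · simp only [not_exists, not_and, not_not] at hhit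
      exact Or.inl (unhit_of_unh hFG hG ⟨f, hf, h2, hhit⟩)

end Pool.Agent.TWRZ
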