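import Pool.Agent.Lib.TWRZ.Tree
import Pool.Agent.Lib.TWRZ.Tran0
import Pool.Agent.Lib.TWRZ.Res
import Pool.Agent.Lib.TWRZ.ExitF

/-!
# TANK W, (Ru.Z): from the group of motions of the base to the exit

`top_of_gf1`: a one parameter group on `C`, two floors above `C`, a critical element: it is unhit, or
there are motions with a small effect.
-/

set_option autoImplicit false

open Polynomial

namespace Pool.Agent.TWRZ

open Pool.Agent.H15JM (RVal)
open Pool.Agent.LU1 (VPos adj)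
open Pool.Agent.D2 (Ctx0)
open Pool.Agent.D2P (clI mem_clI)
open Pool.Agent.TWM
open Pool.Agent.TWS
open Pool.Agent.TWEX (Adn)
open Pool.Agent.TWII (PG LP)
open Pool.Agent.TWS7 (MotE)
open Pool.Agent.TW (kr Ctx BD)
open TWRL (FAdd)

universe u

section

variable {k Ω : Type u} [Field k] [Field Ω] [Algebra k Ω] {v : RVal Ω}

/-- Normalization of a generator. -/
theorem exists_norm (v : RVal Ω) (L : IntermediateField k Ω) (r : ℝ) : ∃ g ∈ L, g ≠ 0 ∧
    (r - v g = 0 ∨ ∀ f ∈ L, f ≠ 0 → v f ≠ r - v g) := by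
  by_cases h : ∃ f ∈ L, f ≠ 0 ∧ v f = r
  · obtain ⟨f, hf, hf0, h1⟩ := h
    exact ⟨f, hf, hf0, Or.inl (by rw [h1, sub_self])⟩
  · refine ⟨1, one_mem _, one_ne_zero, Or.inr fun f hf hf0 h1 => h ⟨f, hf, hf0, ?_⟩⟩
    rw [h1, v.map_one, sub_zero]

end

variable {k Ω H : Type u} [Field k] [IsAlgClosed k] [Field Ω] [Algebra k Ω] [IsAlgClosed Ω]
  [Field H] [Algebra k H] [IsAlgClosed H] {v : RVal Ω} {w : RVal H} {ι : Ω →ₐ[k] H}
  {p : ℕ} [hp : Fact p.Prime] [CharP k p] [CharP Ω p] [CharP H p]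
  {K₀ : IntermediateField k Ω} {C W : IntermediateField k H} {x y c : H} {s : ℝ}

/-- **From the group of motions of the base to the exit.** -/
theorem top_of_gf1 (h : Ctx k v 1) (h0 : Ctx0 k w) (hcv : CompleteV w) (hsc : SphC w)
    (hval : ∀ ρ : ℝ, ∃ x : H, x ≠ 0 ∧ w x = ρ) (hι : IsoE v w ι) (hK : K₀.FG)
    (hΩ : ∀ g : Ω, IsAlgebraic K₀ g) (htr : Algebra.trdeg k K₀ = (4 : ℕ)) (hBD : BD p v K₀)
    (hC : FGv w 2 C) (hcW : Cld w W) (hxW : x ∈ W) (hx0 : x ≠ 0) (hvx : w x ≠ 0) (hWC : W ≤ C)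
    (hyC : y ∈ C) (hle : C ≤ clI w (IntermediateField.adjoin k {x, y}))
    (hq : QVal w x (clI w (K₀.map ι)))
    (hlim : ∀ ε : ℝ, 0 < ε → ∃ (j : ℕ) (a : H), a ^ p ^ j ∈ W ∧ w.Ge (s - ε) (y - a))
    (hc : c ∈ Adn (IntermediateField.adjoin k {x}) {y}) (hc0 : c ≠ 0) (hcs : w c = s)
    {T : k → H →ₐ[k] H} (hT : GF1 w C T) (hTW : ∀ t, ∀ a ∈ W, T t a = a)
    (hTy : ∀ t, T t y = y + algebraMap k H t * c)
    {a : Ω} (ha : a ∈ K₀) {ν : ℝ}
    (hla : LP p w (clI w (K₀.map ι)) ν (ι a)) (hN1 : N1Z p w C (clI w (K₀.map ι)) ν (ι a)) :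
    UnhitV p w 3 (clI w (K₀.map ι)) ν (ι a) ∨ MotE p v K₀ ν a := by
  have haK : ι a ∈ clI w (K₀.map ι) := D2P.mem_clI.2 fun b =>
    ⟨ι a, ⟨a, ha, rfl⟩, by rw [sub_self]; exact RVal.Ge.zero⟩
  rcases GF1.res p h0 hcv hC hT haK hla hN1 with h1 |
    ⟨z, z', r, r', h2, h3, h4, hsh, f, hf, hlf, l, hpl, hl0, hl⟩
  · exact Or.inl h1
  right
  obtain ⟨g, hg, hg0, hr⟩ := exists_norm w C r
  obtain ⟨g', hg', hg0', hr'⟩ := exists_norm w (cadj w C z) r'
  have e1 : cadj w C (z / g) = cadj w C z := cadj_div hg hg0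
  have e2 : cadj w (cadj w C (z / g)) (z' / g') = cadj w (cadj w C z) z' := by
    rw [e1]
    exact cadj_div hg' hg0'
  have hFK : cadj w C z ≤ cadj w (cadj w C z) z' := le_cadj w _ z'
  rw [h4] at hl
  obtain ⟨f₁, hf₁, hf₁e, hl₁⟩ := hit_div hf hg' hFK hg0' hpl hl
  have hP : Pres w C x y (z / g) (z' / g') (r - w g) (r' - w g') :=
    { cC := hC.cld
      xC := hWC hxW
      yC := hyC
      x0 := hx0
      vx := hvx
      le := hle
      q := by
        rw [e2, ← h4]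
        exact hq
      tz := tl_div h2 hg hg0
      tz' := by
        rw [e1]
        exact tl_div h3 hg' hg0' }
  obtain ⟨N₀, N, J, i₀, c', s', A, hX, hG⟩ := exists_ftri h0 hcv hsc hval hP hr (by
    rw [e1]
    exact hr') hcW hxW hWC hlim hc hc0 hcs hT hTW hTy (hsh.div hT.fam hg hg0) (ν := ν) (f := f₁)
    (by
      rw [e1]
      exact hf₁) (by
      rw [e2, hf₁e, ← h4]
      exact hlf) ⟨l, hpl, hl0, by
      rw [e2]
      exact hl₁⟩
  have hcl : cadj w (cadj w C (z / g)) (z' / g') = clI w (kr k ![x, y, z / g, z' / g']) :=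
    eq_clI_kr4 hP.cC hP.xC hP.yC hP.le
  rw [e2, ← h4] at hX hG hcl
  exact motE_of_ftri p h h0 hcv hι hK hΩ htr hBD hX hcl ha fun t => hG.null t _ haK ν hla

end Pool.Agent.TWRZ
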