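import Pool.Agent.Lib.TWRZ.TopA
import Pool.Agent.Lib.TWRZ.Cin
import Pool.Agent.Lib.TWRZ.BaseF

/-!
# TANK W, (Ru.Z): strict translations by a constant whose value is a value of `C`

`top_in`: `C = W<y>`, infinitely many strict translations `y ↦ y + ζ c`, `v c` a value of `C`, two floors
above `C`: the critical element is unhit, or there are motions with a small effect.
-/

set_option autoImplicit false

open Polynomial

namespace Pool.Agent.TWRZ

open Pool.Agent.H15JM (RVal)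
open Pool.Agent.LU1 (VPos adj)
open Pool.Agent.D2 (Ctx0)
open Pool.Agent.D2P (clI mem_clI)
open Pool.Agent.TWM
open Pool.Agent.TWS
open Pool.Agent.TWEX (Adn)
open Pool.Agent.TWII (PG LP)
open Pool.Agent.TWS7 (MotE)
open Pool.Agent.TW (kr Ctx BD)
open Pool.Agent.TWF (Flr)
open TWRL (FAdd)

universe u

variable {k Ω H : Type u} [Field k] [IsAlgClosed k] [Field Ω] [Algebra k Ω] [IsAlgClosed Ω]
  [Field H] [Algebra k H] [IsAlgClosed H] {v : RVal Ω} {w : RVal H} {ι : Ω →ₐ[k] H}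
  {p : ℕ} [hp : Fact p.Prime] [CharP k p] [CharP Ω p] [CharP H p]
  {K₀ : IntermediateField k Ω} {C W : IntermediateField k H} {x y c : H} {s : ℝ}

/-- **Strict translations, the value of the constant is a value of `C`.** -/
theorem top_in (h : Ctx k v 1) (h0 : Ctx0 k w) (hcv : CompleteV w) (hsc : SphC w)
    (hval : ∀ ρ : ℝ, ∃ x : H, x ≠ 0 ∧ w x = ρ) (hι : IsoE v w ι) (hK : K₀.FG)
    (hΩ : ∀ g : Ω, IsAlgebraic K₀ g) (htr : Algebra.trdeg k K₀ = (4 : ℕ)) (hBD : BD p v K₀)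
    (hC : FGv w 2 C) (hF : Flr p w C W x y s) (hCK : C ≤ clI w (K₀.map ι))
    (hq : QVal w x (clI w (K₀.map ι))) (hc0 : c ≠ 0) (hcs : w c = s)
    (hZ : ∀ n : ℕ, ∃ Θ : Finset k, n ≤ Θ.card ∧ ∀ ζ ∈ Θ, ∃ μ : ℝ, 0 < μ ∧
      ∀ P ∈ PI W, w.Ge (w (P.eval y) + μ) (P.eval (y + algebraMap k H ζ * c) - P.eval y))
    (hs : ∃ f ∈ C, f ≠ 0 ∧ w f = s) {a : Ω} (ha : a ∈ K₀) {ν : ℝ}
    (hla : LP p w (clI w (K₀.map ι)) ν (ι a)) (hN1 : N1Z p w C (clI w (K₀.map ι)) ν (ι a)) :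
    UnhitV p w 3 (clI w (K₀.map ι)) ν (ι a) ∨ MotE p v K₀ ν a := by
  obtain ⟨f, hf, hf0, hfs⟩ := hs
  have hxN : x ∈ IntermediateField.adjoin k {x} := IntermediateField.mem_adjoin_simple_self k x
  have hN : IntermediateField.adjoin k {x} ≤ IntermediateField.adjoin k {x, y} :=
    IntermediateField.adjoin.mono k _ _ (by simp)
  have hxyC : IntermediateField.adjoin k {x, y} ≤ C := by
    rw [IntermediateField.adjoin_le_iff]
    rintro b (rfl | hb)
    · exact hF.le_C hF.mem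
    · rw [Set.mem_singleton_iff.1 hb]
      exact hF.mem_y
  have hy : TL w (algc W) y s := tl_algc hp.out.pos hF.far hF.lim
  have hd := den1 (N₀ := IntermediateField.adjoin k {x}) (F := C) h0 hxN hF.x0 hN
    (hq.mono (hxyC.trans hCK)) hF.le
  obtain ⟨c₁, hc₁, hc₁0, hc₁s, hZ₁⟩ := strz_in h0 hy hc0 hcs hZ hf hf0 hfs
    (AdnK.dense hd)
  have hc₁C : c₁ ∈ C := AdnK.le (S := {y}) (hN.trans hxyC) (by
    intro b hb
    rw [Set.mem_singleton_iff.1 hb]
    exact hF.mem_y) _ hc₁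
  have hqC : QVal w x C := hq.mono hCK
  obtain ⟨T, hT, hTW, hTy⟩ := exists_gf1 (W := W) (y := y) (c := c₁) h0 hsc hval hy
    (fun f hf b => dense_val h0 hF.mem hF.x0 (fun f hf => hqC f (by
      rw [hF.eq]
      exact adjoin_le_cl _ hf)) hf b) (by
      rw [← hF.eq]
      exact hc₁C) hc₁0 hc₁s hZ₁
  rw [← hF.eq] at hT
  exact top_of_gf1 h h0 hcv hsc hval hι hK hΩ htr hBD hC hF.cld hF.mem hF.x0 hF.vx hF.le_C hF.mem_y
    hF.le hq hF.lim hc₁ hc₁0 hc₁s hT (fun t a ha => hTW t a (le_algc W ha)) hTy ha hla hN1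

end Pool.Agent.TWRZ
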