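import Pool.Agent.Lib.TWRZ.CasesE
import Pool.Agent.Lib.TWRZ.FloorE

/-!
# TANK W, (Ru.Z): the two floors above `C`, tame case

`exists_triE`: an equivariant one parameter group on `C(e)`, `z` of finite shape, `z'` hit: an equivariant
triangular family of motions of `K(e)`, `K = cl C(z, z')`.
-/

set_option autoImplicit false

open Polynomial

namespace Pool.Agent.TWRZ

open Pool.Agent.H15JM (RVal)
open Pool.Agent.LU1 (VPos adj)
open Pool.Agent.D2 (Ctx0)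
open Pool.Agent.D2P (clI mem_clI)
open Pool.Agent.TWM
open Pool.Agent.TWS
open Pool.Agent.TWC (GD exists_sum alg_of_pw)
open Pool.Agent.TWCT (eq_on_cadj)
open Pool.Agent.TWEX (Adn)
open Pool.Agent.TWII (PG LP)
open TWRL (FAdd)

universe u

variable {k Ω : Type u} [Field k] [Field Ω] [Algebra k Ω] {v : RVal Ω}
  {p : ℕ} [hp : Fact p.Prime] [IsAlgClosed k] [IsAlgClosed Ω] [CharP k p] [CharP Ω p]
  {C W : IntermediateField k Ω} {x y z z' c e : Ω} {s r r' : ℝ} {n : ℕ} {ζ : k}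
  {σ : Ω →ₐ[k] Ω}

/-- **The tree, tame case.** -/
theorem exists_triE (h0 : Ctx0 k v) (hcv : CompleteV v) (hsc : SphC v)
    (hval : ∀ ρ : ℝ, ∃ x : Ω, x ≠ 0 ∧ v x = ρ) (hP : Pres v C x y z z' r r')
    (hS : SigD v (cadj v (cadj v C z) z') e n ζ σ)
    (hen : e ^ n ∈ IntermediateField.adjoin k {x})
    (hr : (∃ i : ℕ, r = i * v e) ∨ ∀ f ∈ adj C e, f ≠ 0 → v f ≠ r)
    (hr' : (∃ i : ℕ, r' = i * v e) ∨ ∀ f ∈ adj (cadj v C z) e, f ≠ 0 → v f ≠ r')
    (hcW : Cld v W) (hxW : x ∈ W) (hWC : W ≤ C)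
    (hlim : ∀ ε : ℝ, 0 < ε → ∃ (j : ℕ) (a : Ω), a ^ p ^ j ∈ W ∧ v.Ge (s - ε) (y - a))
    (hc : c ∈ Adn (IntermediateField.adjoin k {x}) {y}) (hc0 : c ≠ 0) (hcs : v (c * e) = s)
    {T : k → Ω →ₐ[k] Ω} (hT : GF1 v (adj C e) T) (hTW : ∀ t, ∀ a ∈ algc W, T t a = a)
    (hTy : ∀ t, T t y = y + algebraMap k Ω t * (c * e)) {a : k} (ha : a ^ n = 1)
    (he : Eqv v n σ (adj C e) T fun t => a * t) (hsh : FSh v (adj C e) (Pk k) T z r)
    {ν : ℝ} {f : Polynomial Ω} (hf : f ∈ PI (cadj v C z))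
    (hlf : LP p v (cadj v (cadj v C z) z') ν (f.eval z'))
    (hhit : ∃ l : ℕ, p ∣ l ∧ l ≠ 0 ∧
      ¬ PG p v (adj (cadj v (cadj v C z) z') e) (ν - l * r') ((taylor z' f).coeff l)) :
    ∃ (N₀ N : IntermediateField k Ω) (J : Set (Fin 4)) (i₀ : Fin 4) (c' : Ω) (s' : ℝ) (θ : k)
      (A : k → Ω →ₐ[k] Ω),
      TriE p v N₀ N (cadj v (cadj v C z) z') ![x, y, z, z'] J i₀ c' s' n e ζ θ σ A := by
  have he0 := hS.gd.ne
  have hn := hS.gd.pos
  have hxN : x ∈ IntermediateField.adjoin k {x} := IntermediateField.mem_adjoin_simple_self k x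
  have hN : IntermediateField.adjoin k {x} ≤ IntermediateField.adjoin k {x, y} :=
    IntermediateField.adjoin.mono k _ _ (by simp)
  have hNW : IntermediateField.adjoin k {x} ≤ W := by
    rw [IntermediateField.adjoin_le_iff, Set.singleton_subset_iff]
    exact hxW
  have hCF : C ≤ cadj v C z := le_cadj v C z
  have hFK : cadj v C z ≤ cadj v (cadj v C z) z' := le_cadj v _ z'
  have hNC := hN.trans hP.xy_le
  have heW := hNW hen
  have heC : e ^ n ∈ C := hWC heW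
  have heF : e ^ n ∈ cadj v C z := hCF heC
  have hGF : GD v (cadj v C z) e n := TWRZ.GD.down hS.gd (cld_cadj v C z) hFK heF
  have hGC : GD v C e n := TWRZ.GD.down hGF hP.cC hCF heC
  have hTW' : ∀ t, ∀ a ∈ adj W e, T t a = a := fun t a ha => hTW t a
    (D2P.adj_le (le_algc W) (mem_algc.2 (alg_of_pw hn heW)) ha)
  have hCC' : C ≤ adj C e := (D2P.mem_adj_self C e).2
  have heC' : e ∈ adj C e := (D2P.mem_adj_self C e).1
  have hFF' : cadj v C z ≤ adj (cadj v C z) e := (D2P.mem_adj_self _ e).2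
  have heF' : e ∈ adj (cadj v C z) e := (D2P.mem_adj_self _ e).1
  have hKK' : cadj v (cadj v C z) z' ≤ adj (cadj v (cadj v C z) z') e := (D2P.mem_adj_self _ e).2
  -- the weights
  obtain ⟨i, hi⟩ : ∃ i : ℕ, r - v (e ^ i) = 0 ∨ ∀ f ∈ adj C e, f ≠ 0 → v f ≠ r - v (e ^ i) := by
    rcases hr with ⟨i, hi⟩ | hr
    · exact ⟨i, Or.inl (by rw [v.map_pow he0, hi, sub_self])⟩
    · exact ⟨0, Or.inr (by rw [pow_zero, v.map_one, sub_zero]; exact hr)⟩
  obtain ⟨i', hi'⟩ : ∃ i' : ℕ, r' - v (e ^ i') = 0 ∨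
      ∀ f ∈ adj (cadj v C z) e, f ≠ 0 → v f ≠ r' - v (e ^ i') := by
    rcases hr' with ⟨i, hi⟩ | hr'
    · exact ⟨i, Or.inl (by rw [v.map_pow he0, hi, sub_self])⟩
    · exact ⟨0, Or.inr (by rw [pow_zero, v.map_one, sub_zero]; exact hr')⟩
  have hei : ∀ j : ℕ, e ^ j ≠ 0 := fun j => pow_ne_zero _ he0
  have hζ0 : ζ ≠ 0 := by
    rintro rfl
    exact zero_ne_one ((zero_pow hn.ne').symm.trans hS.prim.pow_eq_one)
  have hχ : ∀ j : ℕ, ((ζ ^ j)⁻¹) ^ n = 1 := fun j => by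
    rw [inv_pow, ← pow_mul, mul_comm, pow_mul, hS.prim.pow_eq_one, one_pow, inv_one]
  have hσw : ∀ w ∈ cadj v (cadj v C z) z', ∀ j : ℕ,
      σ (w / e ^ j) = algebraMap k Ω (ζ ^ j)⁻¹ * (w / e ^ j) := fun w hw j => by
    have h1 : algebraMap k Ω (ζ ^ j) ≠ 0 := (_root_.map_ne_zero _).2 (pow_ne_zero _ hζ0)
    rw [map_div₀, hS.fix w hw, map_pow, hS.se, mul_pow, ← map_pow, map_inv₀]
    field_simp
  have hzK : z ∈ cadj v (cadj v C z) z' := hFK (self_mem_cadj v C z)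
  have hz'K : z' ∈ cadj v (cadj v C z) z' := self_mem_cadj v _ z'
  -- the floors
  have htw : TL v (adj C e) (z / e ^ i) (r - v (e ^ i)) :=
    tl_div (TWRZ.GD.tl hGC hP.tz) (pow_mem heC' i) (hei i)
  have htw' : TL v (adj (cadj v C z) e) (z' / e ^ i') (r' - v (e ^ i')) :=
    tl_div (TWRZ.GD.tl hGF hP.tz') (pow_mem heF' i') (hei i')
  have eF : cadj v (adj C e) (z / e ^ i) = adj (cadj v C z) e :=
    (cadj_div (pow_mem heC' i) (hei i)).trans (TWRZ.GD.cadj_adj hcv hGF)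
  have eK : cadj v (adj (cadj v C z) e) (z' / e ^ i') = adj (cadj v (cadj v C z) z') e :=
    (cadj_div (pow_mem heF' i') (hei i')).trans (TWRZ.GD.cadj_adj hcv hS.gd)
  have hLF : Cld v (adj (cadj v C z) e) := TWRZ.GD.cld_adj hcv hGF
  -- the polynomials
  have hA₀ : ∀ a ∈ AdnK (adj (IntermediateField.adjoin k {x}) e) {y}, a ∈ adj C e :=
    AdnK.le (adj_mono hNC) (by
      intro a ha
      rw [Set.mem_singleton_iff.1 ha]
      exact hCC' hP.yC)
  have hA₁ : ∀ a ∈ AdnK (adj (IntermediateField.adjoin k {x}) e) {y, z},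
      a ∈ adj (cadj v C z) e :=
    AdnK.le (adj_mono (hNC.trans hCF)) (by
      rintro a (rfl | ha)
      · exact hFF' (hCF hP.yC)
      · rw [Set.mem_singleton_iff.1 ha]
        exact hFF' (self_mem_cadj v C z))
  have hσN : ∀ a ∈ IntermediateField.adjoin k {x}, σ a = a := fun a ha =>
    hS.fix a (hFK (hCF (hNC ha)))
  have hσ₀ : ∀ a ∈ AdnK (adj (IntermediateField.adjoin k {x}) e) {y},
      σ a ∈ AdnK (adj (IntermediateField.adjoin k {x}) e) {y} := adnK_map hσN hS.se (by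
    intro a ha
    rw [Set.mem_singleton_iff.1 ha]
    exact hS.fix y (hFK (hCF hP.yC)))
  have hσ₁ : ∀ a ∈ AdnK (adj (IntermediateField.adjoin k {x}) e) {y, z},
      σ a ∈ AdnK (adj (IntermediateField.adjoin k {x}) e) {y, z} := adnK_map hσN hS.se (by
    rintro a (rfl | ha)
    · exact hS.fix _ (hFK (hCF hP.yC))
    · rw [Set.mem_singleton_iff.1 ha]
      exact hS.fix z hzK)
  have hd₀ := dense_adj (N₀ := IntermediateField.adjoin k {x}) (S := {y}) hn heC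
    (den1 h0 hxN hP.x0 hN (hP.q.mono (hP.xy_le.trans (hCF.trans hFK))) hP.le)
  have hd₁ := dense_adj (N₀ := IntermediateField.adjoin k {x}) (S := {y, z}) hn heF
    (den2 h0 hxN hP.x0 hN hP.le (hP.q.mono hFK) hP.xC hP.yC)
  -- the hit
  obtain ⟨l, hpl, hl0, hl⟩ := hhit
  have hfF' : f ∈ PI (adj (cadj v C z) e) := PI_mono hFF' hf
  have hF'K' : adj (cadj v C z) e ≤ adj (cadj v (cadj v C z) z') e := adj_mono hFK
  obtain ⟨f₁, hf₁, hf₁e, hl₁⟩ := hit_div hfF' (pow_mem heF' i') hF'K' (hei i') hpl hl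
  have hlf₁ : LP p v (cadj v (adj (cadj v C z) e) (z' / e ^ i')) ν (f₁.eval (z' / e ^ i')) := by
    rw [eK, hf₁e]
    intro ε hε
    obtain ⟨g, hg, h1⟩ := hlf ε hε
    exact ⟨g, hKK' hg, h1⟩
  have hhit₁ : ∃ l : ℕ, p ∣ l ∧ l ≠ 0 ∧ ¬ PG p v (cadj v (adj (cadj v C z) e) (z' / e ^ i'))
      (ν - l * (r' - v (e ^ i'))) ((taylor (z' / e ^ i') f₁).coeff l) :=
    ⟨l, hpl, hl0, by
      rw [eK]
      exact hl₁⟩
  rcases hT.floorE (p := p) h0 hsc hval hn hS.nk ha (hχ i) he (hσw z hzK i) htw hi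
      (hsh.div hT.fam (pow_mem heC' i) (hei i)) hA₀ hσ₀ hd₀ with
    ⟨T₁, R, hh, B, V, θ, h1, hF1, hE1, he1⟩ | ⟨hri, V, T', δ, hV, hV0, h2, hT', hu', he'⟩
  · rw [eF] at h1 he1
    obtain ⟨T₂, R', hh', B', V', θ', h2, hF2, hE2, he2⟩ := h1.floorE_hit h0 hcv hsc hval hLF hn hS.nk
      hE1.th (hχ i') he1 (hσw z' hz'K i') htw' hi' hA₁ hσ₁ hd₁ hf₁ hlf₁ hhit₁
    rw [eK] at h2 he2
    exact ⟨_, W, _, _, c, s, θ', T₂, triE_one h0 hP hS hen hcW hxW hWC hlim hc hc0 hcs (hT.famG h0)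
      hTW' hTy htw eF (h1.famG h0) hF1 (h2.famG h0) hF2 hE2.th he2⟩
  · rw [eF] at h2 he'
    have hfix : ∀ t : k, ∀ f ∈ adj C e, T' (0, t) f = f := fun t f hf => by
      rw [hT' _ f hf]
      exact hT.id0 f hf
    have hmz : ∀ t : k, T' (0, t) (z / e ^ i) = z / e ^ i + algebraMap k Ω t := fun t => by
      rw [hu']
      simp only
      rw [map_zero, hV0, add_zero]
    have hex : ∀ s s' : k, ∀ f ∈ adj (cadj v C z) e,
        T' (0, s) (T' (0, s') f) = T' (0, s + s') f := by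
      intro s s' f hf
      rw [← eF] at hf
      have h3 := eq_on_cadj (isoE_comp (h2.fam.iso (0, s)) (h2.fam.iso (0, s')))
        (h2.fam.iso (0, s + s')) (A := adj C e) (z := z / e ^ i) (fun f hf => by
          rw [AlgHom.comp_apply, hfix _ f hf, hfix _ f hf, hfix _ f hf]) (by
          rw [AlgHom.comp_apply, hmz, map_add, AlgHom.commutes, hmz, hmz, map_add]
          ring) f hf
      exact h3
    obtain ⟨T₂, R', hh', B', V', θ', hG, hF2, hE2, he2⟩ := h2.floorE h0 hcv hsc hval hLF hex hn hS.nk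
      ha (by rw [inv_inv, ← pow_mul, mul_comm, pow_mul, hS.prim.pow_eq_one, one_pow]) (hχ i') he'
      (hσw z' hz'K i') htw' hi' hA₁ hσ₁ hd₁ hf₁ hlf₁ hhit₁
    rw [eK] at hG he2
    have hri' : v (e ^ i) = r := by linarith
    rw [hri] at htw
    exact ⟨_, C, _, _, 1, r, θ', T₂, triE_two h0 hP hS hen hri' htw htw' eK h2.toGP.fam2 hfix hmz hG
      hF2 hE2.th he2⟩

end Pool.Agent.TWRZ
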