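import Pool.Agent.Lib.TWRZ.TopA
import Pool.Agent.Lib.TWRZ.TreeE
import Pool.Agent.Lib.TWRZ.DesF

/-!
# TANK W, (Ru.Z): strict translations by a constant which is tame over `C`

* `exists_normE`: normalization of a generator, over `L(e)`;
* `top_of_gf1E`: a one parameter group of motions of `C(e)`, two floors above `C`, a critical element: it
  is unhit, or there are motions with a small effect;
* `top_out`: `C = W<y>`, infinitely many strict translations, the values of `C` are `p`-divisible.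
-/

set_option autoImplicit false

open Polynomial

namespace Pool.Agent.TWRZ

open Pool.Agent.H15JM (RVal)
open Pool.Agent.LU1 (VPos adj)
open Pool.Agent.D2 (Ctx0)
open Pool.Agent.D2P (clI mem_clI)
open Pool.Agent.TWM
open Pool.Agent.TWS
open Pool.Agent.TWC (GD exists_sum)
open Pool.Agent.TWEX (Adn)
open Pool.Agent.TWII (PG LP)
open Pool.Agent.TWS7 (MotE)
open Pool.Agent.TW (kr Ctx BD)
open TWRL (FAdd)

universe u

section Norm

variable {k Ω : Type u} [Field k] [Field Ω] [Algebra k Ω] {v : RVal Ω}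
  {L : IntermediateField k Ω} {e : Ω} {n : ℕ}

/-- The values of `L(e)`. -/
theorem GD.vg_adj (hG : GD v L e n) {f : Ω} (hf : f ∈ adj L e) (hf0 : f ≠ 0) :
    ∃ g ∈ L, g ≠ 0 ∧ ∃ j : ℕ, j < n ∧ v f = v g + j * v e := by
  obtain ⟨g, hg, h1⟩ := exists_sum hG.pos hG.pw hf
  by_contra hne
  have h2 : ∀ j, j < n → Gt v (v f) (g j * e ^ j) := by
    intro j hj h3
    have hg0 : g j ≠ 0 := left_ne_zero_of_mul h3
    have h4 : v.Ge (v f) (g j * e ^ j) := hG.orth hg (by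
      rw [← h1]
      exact RVal.ge_self (v := v) f) hj
    refine lt_of_le_of_ne (h4 h3) fun h5 => hne ⟨g j, hg j, hg0, j, hj, ?_⟩
    rw [h5, v.map_mul hg0 (pow_ne_zero _ hG.ne), v.map_pow hG.ne]
  have h3 : Gt v (v f) (∑ j ∈ Finset.range n, g j * e ^ j) :=
    Gt.sum _ _ fun j hj => h2 j (Finset.mem_range.1 hj)
  rw [← h1] at h3
  exact lt_irrefl _ (h3 hf0)

/-- Normalization of a generator, over `L(e)`. -/
theorem exists_normE (hG : GD v L e n) (r : ℝ) : ∃ g ∈ L, g ≠ 0 ∧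
    ((∃ i : ℕ, i < n ∧ r - v g = i * v e) ∨ (g = 1 ∧ ∀ f ∈ adj L e, f ≠ 0 → v f ≠ r)) := by
  by_cases h : ∃ f ∈ adj L e, f ≠ 0 ∧ v f = r
  · obtain ⟨f, hf, hf0, h1⟩ := h
    obtain ⟨g, hg, hg0, j, hj, h2⟩ := GD.vg_adj hG hf hf0
    exact ⟨g, hg, hg0, Or.inl ⟨j, hj, by rw [← h1, h2]; ring⟩⟩
  · exact ⟨1, one_mem _, one_ne_zero, Or.inr ⟨rfl, fun f hf hf0 h1 => h ⟨f, hf, hf0, h1⟩⟩⟩

end Norm

variable {k Ω H : Type u} [Field k] [IsAlgClosed k] [Field Ω] [Algebra k Ω] [IsAlgClosed Ω]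
  [Field H] [Algebra k H] [IsAlgClosed H] {v : RVal Ω} {w : RVal H} {ι : Ω →ₐ[k] H}
  {p : ℕ} [hp : Fact p.Prime] [CharP k p] [CharP Ω p] [CharP H p]
  {K₀ : IntermediateField k Ω} {C W : IntermediateField k H} {x y c e : H} {s : ℝ} {n : ℕ} {ζ : k}
  {σ : H →ₐ[k] H}

/-- **From the group of motions of the base to the exit, tame case.** -/
theorem top_of_gf1E (h : Ctx k v 1) (h0 : Ctx0 k w) (hcv : CompleteV w) (hsc : SphC w)
    (hval : ∀ ρ : ℝ, ∃ x : H, x ≠ 0 ∧ w x = ρ) (hι : IsoE v w ι) (hK : K₀.FG)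
    (hΩ : ∀ g : Ω, IsAlgebraic K₀ g) (htr : Algebra.trdeg k K₀ = (4 : ℕ)) (hBD : BD p v K₀)
    (hC : FGv w 2 C) (hcW : Cld w W) (hxW : x ∈ W) (hx0 : x ≠ 0) (hvx : w x ≠ 0) (hWC : W ≤ C)
    (hyC : y ∈ C) (hle : C ≤ clI w (IntermediateField.adjoin k {x, y}))
    (hCK : C ≤ clI w (K₀.map ι)) (hq : QVal w x (clI w (K₀.map ι)))
    (hlim : ∀ ε : ℝ, 0 < ε → ∃ (j : ℕ) (a : H), a ^ p ^ j ∈ W ∧ w.Ge (s - ε) (y - a))
    (hen : e ^ n ∈ IntermediateField.adjoin k {x}) (hS : SigD w (clI w (K₀.map ι)) e n ζ σ)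
    (hc : c ∈ Adn (IntermediateField.adjoin k {x}) {y}) (hc0 : c ≠ 0) (hcs : w (c * e) = s)
    {T : k → H →ₐ[k] H} (hT : GF1 w (adj C e) T) (hTW : ∀ t, ∀ a ∈ algc W, T t a = a)
    (hTy : ∀ t, T t y = y + algebraMap k H t * (c * e))
    (he : Eqv w n σ (adj C e) T fun t => ζ * t)
    {a : Ω} (ha : a ∈ K₀) {ν : ℝ}
    (hla : LP p w (clI w (K₀.map ι)) ν (ι a)) (hN1 : N1E p w C (clI w (K₀.map ι)) ν (ι a)) :
    UnhitV p w 3 (clI w (K₀.map ι)) ν (ι a) ∨ MotE p v K₀ ν a := by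
  have haK : ι a ∈ clI w (K₀.map ι) := D2P.mem_clI.2 fun b =>
    ⟨ι a, ⟨a, ha, rfl⟩, by rw [sub_self]; exact RVal.Ge.zero⟩
  have hxC : IntermediateField.adjoin k {x} ≤ C := by
    rw [IntermediateField.adjoin_le_iff, Set.singleton_subset_iff]
    exact hWC hxW
  rcases GF1.resE p h0 hcv hC hCK (hxC hen) hS hT he haK hla hN1 with h1 |
    ⟨z, z', r, r', h2, h3, h4, hsh, f, hf, hlf, l, hpl, hl0, hl⟩
  · exact Or.inl h1
  right
  have hCF : C ≤ cadj w C z := le_cadj w C z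
  have hFK : cadj w C z ≤ clI w (K₀.map ι) := by
    rw [h4]
    exact le_cadj w _ z'
  have hSC : SigD w C e n ζ σ := hS.down hC.cld hCK (hxC hen)
  have hSF : SigD w (cadj w C z) e n ζ σ := hS.down (cld_cadj w C z) hFK (hCF (hxC hen))
  obtain ⟨g, hg, hg0, hr⟩ := exists_normE hSC.gd r
  obtain ⟨g', hg', hg0', hr'⟩ := exists_normE hSF.gd r'
  have e1 : cadj w C (z / g) = cadj w C z := cadj_div hg hg0
  have e2 : cadj w (cadj w C (z / g)) (z' / g') = cadj w (cadj w C z) z' := by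
    rw [e1]
    exact cadj_div hg' hg0'
  obtain ⟨f₁, hf₁, hf₁e, hl₁⟩ := hit_div hf hg' (hFK.trans (D2P.mem_adj_self _ e).2) hg0' hpl hl
  have hP : Pres w C x y (z / g) (z' / g') (r - w g) (r' - w g') :=
    { cC := hC.cld
      xC := hWC hxW
      yC := hyC
      x0 := hx0
      vx := hvx
      le := hle
      q := by
        rw [e2, ← h4]
        exact hq
      tz := tl_div h2 hg hg0
      tz' := by
        rw [e1]
        exact tl_div h3 hg' hg0' }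
  obtain ⟨N₀, N, J, i₀, c', s', θ, A, hX⟩ := exists_triE (W := W) (c := c) (s := s) (T := T) (σ := σ)
    (ν := ν) (f := f₁) h0 hcv hsc hval hP (by
      rw [e2, ← h4]
      exact hS) hen (by
      rcases hr with ⟨i, -, hi⟩ | ⟨hg1, hr⟩
      · exact Or.inl ⟨i, hi⟩
      · refine Or.inr ?_
        rw [hg1, w.map_one, sub_zero]
        exact hr) (by
      rw [e1]
      rcases hr' with ⟨i, -, hi⟩ | ⟨hg1, hr'⟩
      · exact Or.inl ⟨i, hi⟩
      · refine Or.inr ?_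
        rw [hg1, w.map_one, sub_zero]
        exact hr') hcW hxW hWC hlim hc hc0 hcs hT hTW hTy hSC.prim.pow_eq_one he
    (hsh.div hT.fam ((D2P.mem_adj_self C e).2 hg) hg0) (by
      rw [e1]
      exact hf₁) (by
      rw [e2, hf₁e, ← h4]
      exact hlf) ⟨l, hpl, hl0, by
      rw [e2, ← h4]
      exact hl₁⟩
  have hcl : cadj w (cadj w C (z / g)) (z' / g') = clI w (kr k ![x, y, z / g, z' / g']) :=
    eq_clI_kr4 hP.cC hP.xC hP.yC hP.le
  rw [e2, ← h4] at hX hcl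
  obtain ⟨sig, al, Ψ, hY, hoi, hpg⟩ := hX.ytri h0 hcv
  exact motE_of_ytri p h h0 hcv hι hK hΩ htr hBD hY hoi hcl ha (hpg _ haK ν hla)

/-- **Strict translations by a constant tame over `C`.** -/
theorem top_out (h : Ctx k v 1) (h0 : Ctx0 k w) (hcv : CompleteV w) (hsc : SphC w)
    (hval : ∀ ρ : ℝ, ∃ x : H, x ≠ 0 ∧ w x = ρ) (hι : IsoE v w ι) (hK : K₀.FG)
    (hΩ : ∀ g : Ω, IsAlgebraic K₀ g) (htr : Algebra.trdeg k K₀ = (4 : ℕ)) (hBD : BD p v K₀)
    (hC : FGv w 2 C) (hF : TWF.Flr p w C W x y s) (hCK : C ≤ clI w (K₀.map ι))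
    (hVG : VG w (clI w (K₀.map ι)) ≤ VG w C) (hpd : TWS7.PDiv p w C)
    (hq : QVal w x (clI w (K₀.map ι))) (hZ : TWF.StrZ p w W C y s) {a : Ω} (ha : a ∈ K₀) {ν : ℝ}
    (hla : LP p w (clI w (K₀.map ι)) ν (ι a)) (hN1 : N1E p w C (clI w (K₀.map ι)) ν (ι a)) :
    UnhitV p w 3 (clI w (K₀.map ι)) ν (ι a) ∨ MotE p v K₀ ν a := by
  obtain ⟨n, N, x', e, c, ζ, σ, T, -, -, hxW, hx0, hvx, hle, hq', hen, hS, hc, hc0, hcs, hT, hTW,
    hTy, he⟩ := exists_baseE h0 hcv hsc hval hF (cld_clI w _) hCK hVG hpd hq hZ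
  have hxC : IntermediateField.adjoin k {x'} ≤ C := by
    rw [IntermediateField.adjoin_le_iff, Set.singleton_subset_iff]
    exact hF.le_C hxW
  have hSC : SigD w C e n ζ σ := hS.down hF.cldC hCK (hxC hen)
  have e1 : cadj w (adj W e) y = adj C e := by
    have h1 := TWRZ.GD.cadj_adj (L := W) (w := y) hcv (by
      rw [← hF.eq]
      exact hSC.gd)
    rw [h1, ← hF.eq]
  rw [e1] at hT he
  exact top_of_gf1E h h0 hcv hsc hval hι hK hΩ htr hBD hC hF.cld hxW hx0 hvx hF.le_C hF.mem_y hle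
    hCK hq' hF.lim hen hS hc hc0 hcs hT hTW hTy he ha hla hN1

end Pool.Agent.TWRZ
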