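import Pool.Agent.Lib.TWRZ.Cases
import Pool.Agent.Lib.TWRZ.Floor2
import Pool.Agent.Lib.TWRZ.Norm

/-!
# TANK W, (Ru.Z): the two floors above `C`

`exists_ftri`: a one parameter group on `C`, `z` of finite shape, `z'` hit: a triangular family of
motions of `K = cl C(z, z')`.
-/

set_option autoImplicit false

open Polynomial

namespace Pool.Agent.TWRZ

open Pool.Agent.H15JM (RVal)
open Pool.Agent.LU1 (VPos adj)
open Pool.Agent.D2 (Ctx0)
open Pool.Agent.D2P (clI mem_clI)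
open Pool.Agent.TWM
open Pool.Agent.TWS
open Pool.Agent.TWEX (Adn)
open Pool.Agent.TWCT (StrM eq_on_cadj)
open Pool.Agent.TWII (PG LP)
open Pool.Agent.TW (kr)
open TWRL (FAdd)

universe u

variable {k Ω : Type u} [Field k] [Field Ω] [Algebra k Ω] {v : RVal Ω}
  {p : ℕ} [hp : Fact p.Prime] [IsAlgClosed k] [IsAlgClosed Ω] [CharP k p] [CharP Ω p]
  {C W : IntermediateField k Ω} {x y z z' c : Ω} {s r r' : ℝ}

/-- **The tree.** -/
theorem exists_ftri (h0 : Ctx0 k v) (hcv : CompleteV v) (hsc : SphC v)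
    (hval : ∀ ρ : ℝ, ∃ x : Ω, x ≠ 0 ∧ v x = ρ) (hP : Pres v C x y z z' r r')
    (hr : r = 0 ∨ ∀ f ∈ C, f ≠ 0 → v f ≠ r)
    (hr' : r' = 0 ∨ ∀ f ∈ cadj v C z, f ≠ 0 → v f ≠ r')
    (hcW : Cld v W) (hxW : x ∈ W) (hWC : W ≤ C)
    (hlim : ∀ ε : ℝ, 0 < ε → ∃ (j : ℕ) (a : Ω), a ^ p ^ j ∈ W ∧ v.Ge (s - ε) (y - a))
    (hc : c ∈ Adn (IntermediateField.adjoin k {x}) {y}) (hc0 : c ≠ 0) (hcs : v c = s)
    {T : k → Ω →ₐ[k] Ω} (hT : GF1 v C T) (hTW : ∀ t, ∀ a ∈ W, T t a = a)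
    (hTy : ∀ t, T t y = y + algebraMap k Ω t * c) (hsh : FSh v C (Pk k) T z r)
    {ν : ℝ} {f : Polynomial Ω} (hf : f ∈ PI (cadj v C z))
    (hlf : LP p v (cadj v (cadj v C z) z') ν (f.eval z'))
    (hhit : ∃ l : ℕ, p ∣ l ∧ l ≠ 0 ∧
      ¬ PG p v (cadj v (cadj v C z) z') (ν - l * r') ((taylor z' f).coeff l)) :
    ∃ (N₀ N : IntermediateField k Ω) (J : Set (Fin 4)) (i₀ : Fin 4) (c' : Ω) (s' : ℝ)
      (A : k → Ω →ₐ[k] Ω),
      FTri p v N₀ N (cadj v (cadj v C z) z') ![x, y, z, z'] J i₀ c' s' A ∧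
        FamG p v (cadj v (cadj v C z) z') A := by
  have hxN : x ∈ IntermediateField.adjoin k {x} := IntermediateField.mem_adjoin_simple_self k x
  have hN : IntermediateField.adjoin k {x} ≤ IntermediateField.adjoin k {x, y} :=
    IntermediateField.adjoin.mono k _ _ (by simp)
  have hCF : C ≤ cadj v C z := le_cadj v C z
  have hFK : cadj v C z ≤ cadj v (cadj v C z) z' := le_cadj v _ z'
  have hNC := hN.trans hP.xy_le
  have hA₀ : ∀ a ∈ AdnK (IntermediateField.adjoin k {x}) {y}, a ∈ C := AdnK.le hNC (by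
    intro a ha
    rw [Set.mem_singleton_iff.1 ha]
    exact hP.yC)
  have hA₁ : ∀ a ∈ AdnK (IntermediateField.adjoin k {x}) {y, z}, a ∈ cadj v C z :=
    AdnK.le (hNC.trans hCF) (by
      rintro a (rfl | ha)
      · exact hCF hP.yC
      · rw [Set.mem_singleton_iff.1 ha]
        exact self_mem_cadj v C z)
  have hd₀ := AdnK.dense (den1 h0 hxN hP.x0 hN (hP.q.mono (hP.xy_le.trans (hCF.trans hFK))) hP.le)
  have hd₁ := AdnK.dense (den2 h0 hxN hP.x0 hN hP.le (hP.q.mono hFK) hP.xC hP.yC)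
  rcases hT.floor (p := p) h0 hsc hval hP.tz hr hsh hA₀ hd₀ with
    ⟨T₁, R, hh, B, V, h1, hF1⟩ | ⟨rfl, V, T', δ, hV, hV0, h2, hT', hu'⟩
  · obtain ⟨T₂, R', hh', B', V', h2, hF2⟩ := h1.floor_hit h0 hcv hsc hval (cld_cadj v C z) hP.tz' hr'
      hA₁ hd₁ hf hlf hhit
    exact ⟨_, W, _, _, c, s, T₂, ftri_one h0 hP hcW hxW hWC hlim hc hc0 hcs (hT.famG h0) hTW hTy
      (h1.famG h0) hF1 (h2.famG h0) hF2, h2.famG h0⟩
  · have hfix : ∀ t : k, ∀ f ∈ C, T' (0, t) f = f := fun t f hf => by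
      rw [hT' _ f hf]
      exact hT.id0 f hf
    have hmz : ∀ t : k, T' (0, t) z = z + algebraMap k Ω t := fun t => by
      rw [hu']
      simp only
      rw [map_zero, hV0, add_zero]
    have hex : ∀ s s' : k, ∀ f ∈ cadj v C z, T' (0, s) (T' (0, s') f) = T' (0, s + s') f := by
      intro s s' f hf
      have h3 := eq_on_cadj (isoE_comp (h2.fam.iso (0, s)) (h2.fam.iso (0, s')))
        (h2.fam.iso (0, s + s')) (A := C) (z := z) (fun f hf => by
          rw [AlgHom.comp_apply, hfix _ f hf, hfix _ f hf, hfix _ f hf]) (by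
          rw [AlgHom.comp_apply, hmz, map_add, AlgHom.commutes, hmz, hmz, map_add]
          ring) f hf
      exact h3
    obtain ⟨T₂, R', hh', B', V', hG, hF2⟩ := h2.floor h0 hcv hsc hval (cld_cadj v C z) hex hP.tz' hr'
      hA₁ hd₁ hf hlf hhit
    exact ⟨_, C, _, _, 1, 0, T₂, ftri_two h0 hP h2.toGP.fam2 hfix hmz hG hF2, hG⟩

end Pool.Agent.TWRZ
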